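import Pool.Agent.Lib.MP_0a9719_co.Work

/-! MP_0a9719_co, module Ana: elementary asymptotics and the numbers `ext`.

`poly_exp`: `(n+1)^C (b/b')^n → 0` (`tendsto_pow_const_mul_const_pow_of_abs_lt_one` or
similar). `exp_ext`: `2^(ext s n) = 2^(s.choose 2) (2^s)^(n - s)`, so
`b^n / 2^(ext s n)` is a constant times `(b / 2^s)^n`. `ext_le`: `s.choose 2 ≤ s * s`.
`ext_succ`: `(s+1).choose 2 = s + s.choose 2`, and `(s+1)(n+1-(s+1)) = s (n - s) + (n - s)`, `n ≥ s`: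
`ext (s+1) (n+1) = ext s n + n`. `ext_two`: twice. -/

namespace MP_0a9719_co

theorem poly_exp (C : ℕ) (b b' : ℝ) (hb : 0 < b) (hbb : b < b') :
    ∃ n₀ : ℕ, ∀ n ≥ n₀, (C : ℝ) * (n + 1) ^ C * b ^ n ≤ b' ^ n := by
  have hb' : 0 < b' := hb.trans hbb
  set r : ℝ := b / b' with hr
  have hr0 : 0 < r := by positivity
  have hr1 : r < 1 := (div_lt_one hb').2 hbb
  have h1 := tendsto_pow_const_mul_const_pow_of_abs_lt_one C (r := r)
    (by rw [abs_of_pos hr0]; exact hr1)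
  have h2 : Filter.Tendsto (fun n : ℕ => (C : ℝ) / r * (((n + 1 : ℕ) : ℝ) ^ C * r ^ (n + 1)))
      Filter.atTop (nhds 0) := by
    have := (h1.comp (Filter.tendsto_add_atTop_nat 1)).const_mul ((C : ℝ) / r)
    rwa [mul_zero] at this
  obtain ⟨n₀, hn₀⟩ := Filter.eventually_atTop.1 (h2.eventually (gt_mem_nhds one_pos))
  refine ⟨n₀, fun n hn => ?_⟩
  have h3 := (hn₀ n hn).le
  have h4 : (C : ℝ) * (n + 1) ^ C * b ^ n =
      ((C : ℝ) / r * (((n + 1 : ℕ) : ℝ) ^ C * r ^ (n + 1))) * b' ^ n := by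
    have h5 : b ^ n = r ^ n * b' ^ n := by
      rw [← mul_pow, hr, div_mul_cancel₀ _ hb'.ne']
    rw [h5, pow_succ r n]
    push_cast
    field_simp
  rw [h4]
  calc _ ≤ 1 * b' ^ n := mul_le_mul_of_nonneg_right h3 (by positivity)
    _ = _ := one_mul _

theorem exp_ext (s : ℕ) (b η : ℝ) (hb : 0 < b) (hbs : b < 2 ^ s) (hη : 0 < η) :
    ∃ n₀ : ℕ, ∀ n ≥ n₀, b ^ n ≤ η * 2 ^ ext s n := by
  have h2s : (0 : ℝ) < 2 ^ s := by positivity
  set r : ℝ := b / 2 ^ s with hr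
  have hr0 : 0 ≤ r := by positivity
  have hr1 : r < 1 := (div_lt_one h2s).2 hbs
  have h1 := tendsto_pow_atTop_nhds_zero_of_lt_one hr0 hr1
  obtain ⟨n₀, hn₀⟩ := Filter.eventually_atTop.1
    (h1.eventually (gt_mem_nhds (show (0 : ℝ) < η / (2 ^ s) ^ s by positivity)))
  refine ⟨max n₀ s, fun n hn => ?_⟩
  have hns : s ≤ n := (le_max_right _ _).trans hn
  have h3 := (hn₀ n ((le_max_left _ _).trans hn)).le
  have h4 : b ^ n = r ^ n * (2 ^ s) ^ n := by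
    rw [← mul_pow, hr, div_mul_cancel₀ _ h2s.ne']
  have h5 : ((2 : ℝ) ^ s) ^ n = (2 ^ s) ^ s * (2 ^ s) ^ (n - s) := by
    rw [← pow_add, Nat.add_sub_cancel' hns]
  have h6 : ((2 : ℝ) ^ s) ^ (n - s) ≤ 2 ^ ext s n := by
    rw [← pow_mul]
    apply pow_le_pow_right₀ (by norm_num)
    unfold ext
    omega
  calc b ^ n = r ^ n * ((2 ^ s) ^ s * (2 ^ s) ^ (n - s)) := by rw [h4, h5]
    _ ≤ η / (2 ^ s) ^ s * ((2 ^ s) ^ s * (2 ^ s) ^ (n - s)) :=
        mul_le_mul_of_nonneg_right h3 (by positivity)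
    _ = η * (2 ^ s) ^ (n - s) := by field_simp
    _ ≤ _ := mul_le_mul_of_nonneg_left h6 hη.le

theorem ext_le (s n : ℕ) (h : s ≤ n) : ext s n ≤ s * n := by
  unfold ext
  obtain ⟨k, rfl⟩ := Nat.exists_eq_add_of_le h
  rw [Nat.add_sub_cancel_left, Nat.choose_two_right, mul_add]
  have h1 : s * (s - 1) / 2 ≤ s * s := by
    have h2 : s * (s - 1) / 2 ≤ s * (s - 1) := Nat.div_le_self _ _
    exact h2.trans (Nat.mul_le_mul_left s (Nat.sub_le s 1))
  omega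

theorem ext_succ (s n : ℕ) (h : s ≤ n) : ext (s + 1) (n + 1) = ext s n + n := by
  unfold ext
  obtain ⟨k, rfl⟩ := Nat.exists_eq_add_of_le h
  have h1 : s + k + 1 - (s + 1) = k := by omega
  rw [h1, Nat.add_sub_cancel_left, Nat.choose_succ_succ' s 1, Nat.choose_one_right]
  ring

theorem ext_two (s n : ℕ) (h : s ≤ n) : ext (s + 2) (n + 2) = ext s n + (2 * n + 1) := by
  rw [show s + 2 = (s + 1) + 1 by ring, show n + 2 = (n + 1) + 1 by ring,
    ext_succ (s + 1) (n + 1) (by omega), ext_succ s n h]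
  ring

end MP_0a9719_co
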