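import Pool.Agent.Lib.MP_0a9719_co.FibOr
import Pool.Agent.Lib.MP_0a9719_co.Ana

/-! MP_0a9719_co, module Cover: graphs with a vertex cover of size `s`.

`eX_cover`: if `Y ⊆ X`, `|Y| ≤ s ≤ |X|` meets all edges of `res X H`, enlarge `Y` to `|Y| = s`;
the edges are inside `Y` (at most `s.choose 2`) or between `Y` and `X \ Y` (at most
`s (|X| - s)`). (Alternatively induct on `s` with `eX_erase` and `ext_succ`: remove a vertex of `Y`.)
`good0_of`: for `|X| ≥ max n₀ s`: if `NoCover s H X` use `GoodC`; otherwise
`num L H X ≤ |{D | IsOr (res X H) D}| = 2 ^ eX H X ≤ 2 ^ ext s |X|`. -/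

namespace MP_0a9719_co

theorem eX_cover {V : Type*} [Fintype V] [DecidableEq V] (s : ℕ) (H : SimpleGraph V)
    (X : Finset V) (hs : s ≤ X.card) (h : ¬ NoCover s H X) : eX H X ≤ ext s X.card := by
  -- no edges
  have hzero : ∀ X : Finset V, (∀ u ∈ X, ∀ v ∈ X, ¬ H.Adj u v) → eX H X = 0 := by
    intro X hX
    unfold eX
    have h1 : res X H = ⊥ := by
      ext u v
      simp only [res, SimpleGraph.bot_adj, iff_false]
      rintro ⟨h1, h2, h3⟩
      exact hX u h2 v h3 h1
    rw [h1, SimpleGraph.edgeSet_bot, Set.ncard_empty]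
  induction s generalizing X with
  | zero =>
    unfold NoCover at h
    push Not at h
    obtain ⟨Y, hY, hc, hh⟩ := h
    have hY0 : Y = ∅ := Finset.card_eq_zero.1 (by omega)
    subst hY0
    rw [hzero X (fun u hu v hv => hh u (by simpa using hu) v (by simpa using hv))]
    exact Nat.zero_le _
  | succ s ih =>
    unfold NoCover at h
    push Not at h
    obtain ⟨Y, hY, hc, hh⟩ := h
    rcases Y.eq_empty_or_nonempty with hY0 | ⟨v, hv⟩
    · subst hY0
      rw [hzero X (fun u hu v hv => hh u (by simpa using hu) v (by simpa using hv))]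
      exact Nat.zero_le _
    · have hvX := hY hv
      have hcard : (X.erase v).card = X.card - 1 := Finset.card_erase_of_mem hvX
      have hno : ¬ NoCover s H (X.erase v) := by
        intro hcon
        obtain ⟨u, hu, w, hw, hadj⟩ := hcon (Y.erase v) (Finset.erase_subset_erase v hY)
          (by rw [Finset.card_erase_of_mem hv]; omega)
        have hmem : ∀ x, x ∈ X.erase v \ Y.erase v → x ∈ X \ Y := by
          intro x hx
          rw [Finset.mem_sdiff, Finset.mem_erase, Finset.mem_erase] at hx
          rw [Finset.mem_sdiff]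
          exact ⟨hx.1.2, fun hxY => hx.2 ⟨hx.1.1, hxY⟩⟩
        exact hh u (hmem u hu) w (hmem w hw) hadj
      have h1 := ih (X.erase v) (by omega) hno
      have h2 := deg_le H X hvX
      rw [eX_erase H hvX]
      have h3 := ext_succ s (X.card - 1) (by omega)
      rw [hcard] at h1
      rw [show X.card - 1 + 1 = X.card by omega] at h3
      omega

theorem good0_of (L : List Shape) (s : ℕ) (h : GoodC L s) : Good0 L s := by
  obtain ⟨c, hc0, hc1, n₀, hn⟩ := h
  refine ⟨max n₀ s, fun V _ _ H X hX => ?_⟩
  by_cases hno : NoCover s H X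
  · have h1 := hn V H X ((le_max_left _ _).trans hX) hno
    have h2 : (num L H X : ℝ) ≤ 2 ^ ext s X.card := by
      refine h1.trans ?_
      have : (0 : ℝ) < 2 ^ ext s X.card := by positivity
      nlinarith
    exact_mod_cast h2
  · have h1 := eX_cover s H X ((le_max_right _ _).trans hX) hno
    have h2 : num L H X ≤ {D : V → V → Prop | IsOr (res X H) D}.ncard :=
      Set.ncard_le_ncard (fun D hD => hD.1) (Set.toFinite _)
    rw [ncard_or] at h2
    exact h2.trans (Nat.pow_le_pow_right (by norm_num) h1)

/-- removing a vertex lowers the cover number by at most one. -/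
theorem noCover_erase {V : Type*} [DecidableEq V] (s : ℕ) (H : SimpleGraph V) (X : Finset V)
    (v : V) (hv : v ∈ X) (h : NoCover (s + 1) H X) : NoCover s H (X.erase v) := by
  intro Y hY hc
  obtain ⟨u, hu, w, hw, hadj⟩ := h (insert v Y)
    (Finset.insert_subset hv (hY.trans (Finset.erase_subset v X)))
    ((Finset.card_insert_le v Y).trans (by omega))
  have hmem : ∀ x, x ∈ X \ insert v Y → x ∈ X.erase v \ Y := by
    intro x hx
    rw [Finset.mem_sdiff, Finset.mem_insert, not_or] at hx
    rw [Finset.mem_sdiff, Finset.mem_erase]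
    exact ⟨⟨hx.2.1, hx.1⟩, hx.2.2⟩
  exact ⟨u, hmem u hu, w, hmem w hw, hadj⟩

end MP_0a9719_co
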