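import Pool.Agent.Lib.MP_0a9719_co.MainAll
import Pool.Agent.Lib.MP_0a9719_co.Cover

/-! MP_0a9719_co, module Base: from the main configurations to `GoodA`, `GoodB`, `GoodC`.

`Exc`: outside the main configurations (all `W ⊆ X`, `|W| = s`) there are at most `b^n` orientations,
`b < 2^s`. Let `n = |X|` and `P(W) = 2^(s.choose 2) ∏_{x ∈ X \ W} fW s H X W x` (`main_all`).
(0) `fW ≤ 2^s` (`deg H W x ≤ |W| = s`), so `P(W) ≤ 2^(ext s n)`.
(1) if `x ∈ X \ W` is not adjacent to some `w ∈ W` then `fW x ≤ 2^s (24/25)` (non-isolated: by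
definition; isolated: `2^(deg H W x) ≤ 2^(s-1)`). So if `w ∈ W` has degree `< (1-ε) n` in `X`, at
least `ε n - s` vertices of `X \ W` are not adjacent to `w` and
`P(W) ≤ 2^(ext s n) (24/25)^(ε n - s)` (real exponent or the natural number
`⌈ε n⌉ - s`).
(2) if some `v ∈ X \ W` has degree `≥ (1-ε) n` then at least `(1-ε) n - s` vertices of `X \ W`
are adjacent to `v`, hence not isolated, and `P(W) ≤ 2^(ext s n) (24/25)^((1-ε) n - s)`.
(3) if `NoCover s H X` then at least two vertices of `X \ W` are not isolated, so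
`P(W) ≤ (24/25)^2 2^(ext s n)`.
There are at most `n^s` sets `W` (`Finset.card_powersetCard`, `Nat.choose_le_pow`).
GoodA: `(big ε H X).ncard < s`: every `W` contains a vertex as in (1): the total is at most
`b^n + n^s 2^(s n) (24/25)^(ε n - s)`, `≤ b'^n` (`poly_exp`), `b' < 2^s`.
GoodB with `ε = 1/2`: every `W` misses a vertex as in (2).
GoodC with `c = 24/25`: if `(big (1/2) H X).ncard ≠ s` by GoodA / GoodB and `exp_ext`. Otherwise let `B` be
the set `big (1/2) H X` as a finset; `W ≠ B`, `|W| = s`, contains a vertex of degree `< n/2`, (1);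
`W = B`: (3). Total `≤ b^n + n^s 2^(sn)(24/25)^(n/2 - s) + (24/25)^2 2^(ext s n) ≤ (24/25) 2^(ext s n)`
for `n` large (`exp_ext`). -/

namespace MP_0a9719_co

/-- outside the main configurations there are exponentially few orientations. -/
def Exc (L : List Shape) (s : ℕ) (a b c : Bool) : Prop :=
  ∃ β : ℝ, 0 < β ∧ β < 2 ^ s ∧ ∃ n₀ : ℕ,
    ∀ (V : Type) [Fintype V] [DecidableEq V] (H : SimpleGraph V) (X : Finset V),
      n₀ ≤ X.card →
      (({D : V → V → Prop | IsOr (res X H) D ∧ ¬ Packs L D X ∧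
        ∀ W : Finset V, W ⊆ X → W.card = s → ¬ MainD a b c D X W}.ncard : ℕ) : ℝ) ≤
        β ^ X.card

open Classical in
private theorem base_deg {V : Type*} (H : SimpleGraph V) (X : Finset V) (v : V) :
    deg H X v = (X.filter (fun u => H.Adj v u)).card := by
  unfold deg
  rw [← Set.ncard_coe_finset]
  congr 1
  ext u
  simp

private theorem base_fW_nonneg {V : Type*} [DecidableEq V] (s : ℕ) (H : SimpleGraph V)
    (X W : Finset V) (x : V) : 0 ≤ fW s H X W x := by
  unfold fW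
  split_ifs <;> positivity

private theorem base_fW_le {V : Type*} [DecidableEq V] (s : ℕ) (H : SimpleGraph V)
    (X W : Finset V) (hW : W.card = s) (x : V) : fW s H X W x ≤ 2 ^ s := by
  classical
  unfold fW
  have h2 : (0 : ℝ) < 2 ^ s := by positivity
  split_ifs
  · linarith
  · apply pow_le_pow_right₀ (by norm_num)
    rw [base_deg, ← hW]
    exact Finset.card_filter_le _ _

/-- a vertex not adjacent to some `w ∈ W` has a small factor -/
private theorem base_fW_small {V : Type*} [DecidableEq V] (s : ℕ) (H : SimpleGraph V)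
    (X W : Finset V) (hW : W.card = s) (x w : V) (hw : w ∈ W) (hx : ¬ H.Adj w x) :
    fW s H X W x ≤ 2 ^ s * (24 / 25) := by
  classical
  unfold fW
  split_ifs
  · exact le_refl _
  · have h1 : deg H W x + 1 ≤ s := by
      rw [base_deg, ← hW]
      apply Nat.succ_le_of_lt
      apply Finset.card_lt_card
      rw [Finset.ssubset_iff_of_subset (Finset.filter_subset _ _)]
      refine ⟨w, hw, fun h => hx ?_⟩
      exact (Finset.mem_filter.mp h).2.symm
    have h2 : (2 : ℝ) ^ (deg H W x + 1) ≤ 2 ^ s := pow_le_pow_right₀ (by norm_num) h1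
    rw [pow_succ] at h2
    have h3 : (0 : ℝ) < 2 ^ deg H W x := by positivity
    linarith

private theorem base_fW_nbr {V : Type*} [DecidableEq V] (s : ℕ) (H : SimpleGraph V)
    (X W : Finset V) (x y : V) (hy : y ∈ X \ W) (hx : H.Adj x y) :
    fW s H X W x ≤ 2 ^ s * (24 / 25) := by
  unfold fW
  rw [if_pos ⟨y, hy, hx⟩]

private theorem base_prod {V : Type*} [DecidableEq V] (s : ℕ) (H : SimpleGraph V)
    (X W T : Finset V) (hWX : W ⊆ X) (hW : W.card = s) (hT : T ⊆ X \ W)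
    (h : ∀ x ∈ T, fW s H X W x ≤ 2 ^ s * (24 / 25)) :
    2 ^ s.choose 2 * ∏ x ∈ X \ W, fW s H X W x ≤
      2 ^ ext s X.card * (24 / 25 : ℝ) ^ T.card := by
  have h1 : ∏ x ∈ X \ W, fW s H X W x ≤
      ∏ x ∈ X \ W, ((2 : ℝ) ^ s * if x ∈ T then 24 / 25 else 1) := by
    apply Finset.prod_le_prod
    · intro x _
      exact base_fW_nonneg s H X W x
    · intro x _
      split_ifs with hx
      · exact h x hx
      · rw [mul_one]
        exact base_fW_le s H X W hW x
  have h2 : ∏ x ∈ X \ W, ((2 : ℝ) ^ s * if x ∈ T then 24 / 25 else 1) =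
      (2 ^ s) ^ (X.card - s) * (24 / 25 : ℝ) ^ T.card := by
    rw [Finset.prod_mul_distrib, Finset.prod_const, Finset.card_sdiff_of_subset hWX, hW,
      Finset.prod_ite_mem, Finset.inter_eq_right.mpr hT, Finset.prod_const]
  have h3 : (2 : ℝ) ^ ext s X.card = 2 ^ s.choose 2 * (2 ^ s) ^ (X.card - s) := by
    rw [ext, pow_add, ← pow_mul]
  rw [h3, mul_assoc, ← h2]
  exact mul_le_mul_of_nonneg_left h1 (by positivity)

/-- the bound for a set `W` with many vertices of small factor -/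
private theorem base_far {V : Type*} [DecidableEq V] (s : ℕ) (H : SimpleGraph V)
    (X W T : Finset V) (ε : ℝ) (hWX : W ⊆ X) (hW : W.card = s) (hT : T ⊆ X \ W)
    (h : ∀ x ∈ T, fW s H X W x ≤ 2 ^ s * (24 / 25)) (hc : ε * X.card - s ≤ (T.card : ℝ)) :
    2 ^ s.choose 2 * ∏ x ∈ X \ W, fW s H X W x ≤
      (25 / 24 : ℝ) ^ s * (2 ^ s * (24 / 25 : ℝ) ^ ε) ^ X.card := by
  have hsX : s ≤ X.card := by
    rw [← hW]
    exact Finset.card_le_card hWX
  refine (base_prod s H X W T hWX hW hT h).trans ?_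
  have h1 : (2 : ℝ) ^ ext s X.card ≤ (2 ^ s) ^ X.card := by
    rw [← pow_mul]
    exact pow_le_pow_right₀ (by norm_num) (ext_le s X.card hsX)
  have h2 : (24 / 25 : ℝ) ^ T.card ≤ (25 / 24 : ℝ) ^ s * ((24 / 25 : ℝ) ^ ε) ^ X.card := by
    have e1 : (24 / 25 : ℝ) ^ T.card ≤ (24 / 25 : ℝ) ^ (ε * X.card - s) := by
      rw [← Real.rpow_natCast]
      exact Real.rpow_le_rpow_of_exponent_ge (by norm_num) (by norm_num) hc
    refine e1.trans (le_of_eq ?_)
    rw [Real.rpow_sub (by norm_num), Real.rpow_mul (by norm_num), Real.rpow_natCast,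
      Real.rpow_natCast, div_eq_mul_inv, ← inv_pow, mul_comm]
    norm_num
  calc (2 : ℝ) ^ ext s X.card * (24 / 25 : ℝ) ^ T.card ≤
      (2 ^ s) ^ X.card * ((25 / 24 : ℝ) ^ s * ((24 / 25 : ℝ) ^ ε) ^ X.card) :=
        mul_le_mul h1 h2 (by positivity) (by positivity)
    _ = (25 / 24 : ℝ) ^ s * (2 ^ s * (24 / 25 : ℝ) ^ ε) ^ X.card := by
        rw [mul_pow]
        ring

/-- `W` contains a vertex of small degree -/
private theorem base_one {V : Type*} [DecidableEq V] (s : ℕ) (H : SimpleGraph V)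
    (X W : Finset V) (ε : ℝ) (hWX : W ⊆ X) (hW : W.card = s) (w : V) (hw : w ∈ W)
    (hd : (deg H X w : ℝ) < (1 - ε) * X.card) :
    2 ^ s.choose 2 * ∏ x ∈ X \ W, fW s H X W x ≤
      (25 / 24 : ℝ) ^ s * (2 ^ s * (24 / 25 : ℝ) ^ ε) ^ X.card := by
  classical
  refine base_far s H X W ((X \ W).filter (fun x => ¬ H.Adj w x)) ε hWX hW
    (Finset.filter_subset _ _) ?_ ?_
  · intro x hx
    exact base_fW_small s H X W hW x w hw (Finset.mem_filter.mp hx).2
  · have h1 : X.card ≤ ((X \ W).filter (fun x => ¬ H.Adj w x)).card + s +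
        (X.filter (fun u => H.Adj w u)).card := by
      rw [← hW]
      have h2 : X ⊆ ((X \ W).filter (fun x => ¬ H.Adj w x)) ∪ W ∪
          (X.filter (fun u => H.Adj w u)) := by
        intro x hx
        simp only [Finset.mem_union, Finset.mem_filter, Finset.mem_sdiff]
        tauto
      refine (Finset.card_le_card h2).trans ?_
      refine (Finset.card_union_le _ _).trans ?_
      exact Nat.add_le_add_right (Finset.card_union_le _ _) _
    rw [base_deg] at hd
    have h3 : (X.card : ℝ) ≤ (((X \ W).filter (fun x => ¬ H.Adj w x)).card : ℝ) + s +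
        ((X.filter (fun u => H.Adj w u)).card : ℝ) := by exact_mod_cast h1
    linarith

/-- some vertex outside `W` has a large degree -/
private theorem base_two {V : Type*} [DecidableEq V] (s : ℕ) (H : SimpleGraph V)
    (X W : Finset V) (ε : ℝ) (hWX : W ⊆ X) (hW : W.card = s) (v : V) (hv : v ∈ X \ W)
    (hd : ε * X.card ≤ (deg H X v : ℝ)) :
    2 ^ s.choose 2 * ∏ x ∈ X \ W, fW s H X W x ≤
      (25 / 24 : ℝ) ^ s * (2 ^ s * (24 / 25 : ℝ) ^ ε) ^ X.card := by
  classical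
  refine base_far s H X W ((X \ W).filter (fun x => H.Adj v x)) ε hWX hW
    (Finset.filter_subset _ _) ?_ ?_
  · intro x hx
    exact base_fW_nbr s H X W x v hv (Finset.mem_filter.mp hx).2.symm
  · have h1 : (X.filter (fun u => H.Adj v u)).card ≤
        ((X \ W).filter (fun x => H.Adj v x)).card + s := by
      rw [← hW]
      have h2 : (X.filter (fun u => H.Adj v u)) ⊆
          ((X \ W).filter (fun x => H.Adj v x)) ∪ W := by
        intro x hx
        simp only [Finset.mem_union, Finset.mem_filter, Finset.mem_sdiff] at hx ⊢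
        tauto
      exact (Finset.card_le_card h2).trans (Finset.card_union_le _ _)
    rw [base_deg] at hd
    have h3 : ((X.filter (fun u => H.Adj v u)).card : ℝ) ≤
        (((X \ W).filter (fun x => H.Adj v x)).card : ℝ) + s := by exact_mod_cast h1
    linarith

/-- `W` is not a cover -/
private theorem base_three {V : Type*} [DecidableEq V] (s : ℕ) (H : SimpleGraph V)
    (X W : Finset V) (hWX : W ⊆ X) (hW : W.card = s) (hN : NoCover s H X) :
    2 ^ s.choose 2 * ∏ x ∈ X \ W, fW s H X W x ≤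
      2 ^ ext s X.card * (24 / 25 : ℝ) ^ 2 := by
  obtain ⟨u, hu, v, hv, huv⟩ := hN W hWX hW.le
  have h := base_prod s H X W {u, v} hWX hW (by
    intro x hx
    rcases Finset.mem_insert.mp hx with rfl | hx
    · exact hu
    · rw [Finset.mem_singleton.mp hx]
      exact hv) (by
    intro x hx
    rcases Finset.mem_insert.mp hx with rfl | hx
    · exact base_fW_nbr s H X W _ v hv huv
    · rw [Finset.mem_singleton.mp hx]
      exact base_fW_nbr s H X W _ u hu huv.symm)
  rwa [Finset.card_pair huv.ne] at h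

private theorem base_union {V : Type} [Fintype V] [DecidableEq V] (L : List Shape) (s : ℕ)
    (hs : 2 ≤ s) (a b c : Bool) (H : SimpleGraph V) (X : Finset V) :
    (num L H X : ℝ) ≤ (({D : V → V → Prop | IsOr (res X H) D ∧ ¬ Packs L D X ∧
        ∀ W : Finset V, W ⊆ X → W.card = s → ¬ MainD a b c D X W}.ncard : ℕ) : ℝ) +
      ∑ W ∈ X.powersetCard s, (2 ^ s.choose 2 * ∏ x ∈ X \ W, fW s H X W x) := by
  classical
  set S0 : Set (V → V → Prop) := {D | IsOr (res X H) D ∧ ¬ Packs L D X ∧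
        ∀ W : Finset V, W ⊆ X → W.card = s → ¬ MainD a b c D X W} with hS0
  let SW : Finset V → Set (V → V → Prop) := fun W => {D | IsOr (res X H) D ∧ MainD a b c D X W}
  have h1 : {D : V → V → Prop | IsOr (res X H) D ∧ ¬ Packs L D X} ⊆
      S0 ∪ ⋃ W ∈ X.powersetCard s, SW W := by
    intro D hD
    by_cases h : ∀ W : Finset V, W ⊆ X → W.card = s → ¬ MainD a b c D X W
    · exact Or.inl ⟨hD.1, hD.2, h⟩
    · push Not at h
      obtain ⟨W, hW1, hW2, hW3⟩ := h
      refine Or.inr ?_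
      rw [Set.mem_iUnion₂]
      exact ⟨W, Finset.mem_powersetCard.mpr ⟨hW1, hW2⟩, hD.1, hW3⟩
  have h2 : num L H X ≤ S0.ncard + ∑ W ∈ X.powersetCard s, (SW W).ncard := by
    unfold num
    refine (Set.ncard_le_ncard h1 (Set.toFinite _)).trans ?_
    refine (Set.ncard_union_le _ _).trans ?_
    refine Nat.add_le_add_left ?_ _
    exact Finset.set_ncard_biUnion_le _ _
  have h3 : (num L H X : ℝ) ≤ (S0.ncard : ℝ) + ∑ W ∈ X.powersetCard s, ((SW W).ncard : ℝ) := by
    exact_mod_cast h2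
  refine h3.trans (add_le_add le_rfl (Finset.sum_le_sum ?_))
  intro W hW
  obtain ⟨hW1, hW2⟩ := Finset.mem_powersetCard.mp hW
  exact main_all a b c H X W s hs hW1 hW2

private theorem base_tail (s : ℕ) (β ε : ℝ) (hβ : 0 < β) (hβs : β < 2 ^ s) (hε : 0 < ε) :
    ∃ b : ℝ, 0 < b ∧ b < 2 ^ s ∧ ∃ n₀ : ℕ, ∀ n ≥ n₀,
      β ^ n + (n : ℝ) ^ s * ((25 / 24 : ℝ) ^ s * (2 ^ s * (24 / 25 : ℝ) ^ ε) ^ n) ≤ b ^ n := by
  have hq : (24 / 25 : ℝ) ^ ε < 1 := Real.rpow_lt_one (by norm_num) (by norm_num) hε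
  have hq0 : (0 : ℝ) < (24 / 25 : ℝ) ^ ε := by positivity
  have h2s : (0 : ℝ) < 2 ^ s := by positivity
  set γ : ℝ := 2 ^ s * (24 / 25 : ℝ) ^ ε with hγ
  have hγ0 : 0 < γ := by positivity
  have hγs : γ < 2 ^ s := by
    rw [hγ]
    nlinarith
  set b1 : ℝ := max β γ with hb1
  have hb1s : b1 < 2 ^ s := max_lt hβs hγs
  have hb10 : 0 < b1 := lt_of_lt_of_le hβ (le_max_left _ _)
  obtain ⟨n₀, hn₀⟩ := poly_exp (2 ^ s + 1 + s) b1 ((b1 + 2 ^ s) / 2) hb10 (by linarith)
  refine ⟨(b1 + 2 ^ s) / 2, by linarith, by linarith, n₀, fun n hn => ?_⟩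
  refine le_trans ?_ (hn₀ n hn)
  have h1 : β ^ n ≤ b1 ^ n := pow_le_pow_left₀ hβ.le (le_max_left _ _) n
  have h2 : γ ^ n ≤ b1 ^ n := pow_le_pow_left₀ hγ0.le (le_max_right _ _) n
  have h3 : (25 / 24 : ℝ) ^ s ≤ 2 ^ s := pow_le_pow_left₀ (by norm_num) (by norm_num) s
  have hn1 : (1 : ℝ) ≤ (n : ℝ) + 1 := by
    have : (0 : ℝ) ≤ n := Nat.cast_nonneg n
    linarith
  have h4 : (n : ℝ) ^ s ≤ ((n : ℝ) + 1) ^ (2 ^ s + 1 + s) :=
    (pow_le_pow_left₀ (Nat.cast_nonneg n) (by linarith) s).trans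
      (pow_le_pow_right₀ hn1 (Nat.le_add_left _ _))
  have h5 : (1 : ℝ) ≤ ((n : ℝ) + 1) ^ (2 ^ s + 1 + s) := one_le_pow₀ hn1
  have hbn : 0 < b1 ^ n := by positivity
  have h6 : (n : ℝ) ^ s * ((25 / 24 : ℝ) ^ s * γ ^ n) ≤
      ((n : ℝ) + 1) ^ (2 ^ s + 1 + s) * (2 ^ s * b1 ^ n) := by
    apply mul_le_mul h4 _ (by positivity) (by positivity)
    exact mul_le_mul h3 h2 (by positivity) (by positivity)
  have h7 : β ^ n ≤ ((n : ℝ) + 1) ^ (2 ^ s + 1 + s) * b1 ^ n := by nlinarith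
  have h8 : 0 ≤ ((n : ℝ) + 1) ^ (2 ^ s + 1 + s) * b1 ^ n := by positivity
  have h9 : ((2 ^ s + 1 + s : ℕ) : ℝ) = 2 ^ s + 1 + (s : ℝ) := by push_cast; ring
  rw [h9]
  have hs0 : (0 : ℝ) ≤ s := Nat.cast_nonneg s
  have h10 : 0 ≤ (s : ℝ) * (((n : ℝ) + 1) ^ (2 ^ s + 1 + s) * b1 ^ n) := mul_nonneg hs0 h8
  have h11 : (2 ^ s + 1 + (s : ℝ)) * ((n : ℝ) + 1) ^ (2 ^ s + 1 + s) * b1 ^ n =
      ((n : ℝ) + 1) ^ (2 ^ s + 1 + s) * (2 ^ s * b1 ^ n) +
      ((n : ℝ) + 1) ^ (2 ^ s + 1 + s) * b1 ^ n +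
      (s : ℝ) * (((n : ℝ) + 1) ^ (2 ^ s + 1 + s) * b1 ^ n) := by ring
  rw [h11]
  linarith

private theorem base_sum {V : Type*} [DecidableEq V] (s : ℕ) (H : SimpleGraph V)
    (X : Finset V) (A : ℝ) (hA : 0 ≤ A)
    (h : ∀ W ∈ X.powersetCard s, 2 ^ s.choose 2 * ∏ x ∈ X \ W, fW s H X W x ≤ A) :
    ∑ W ∈ X.powersetCard s, (2 ^ s.choose 2 * ∏ x ∈ X \ W, fW s H X W x) ≤
      (X.card : ℝ) ^ s * A := by
  refine (Finset.sum_le_sum h).trans ?_
  rw [Finset.sum_const, nsmul_eq_mul, Finset.card_powersetCard]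
  refine mul_le_mul_of_nonneg_right ?_ hA
  exact_mod_cast Nat.choose_le_pow X.card s

theorem base_good (L : List Shape) (s : ℕ) (hs : 2 ≤ s) (a b c : Bool) (h : Exc L s a b c) :
    GoodA L s ∧ GoodB L s ∧ GoodC L s := by
  classical
  obtain ⟨β, hβ, hβs, n₁, h1⟩ := h
  have hA : GoodA L s := by
    intro ε hε
    obtain ⟨b', hb', hbs, n₀, hn₀⟩ := base_tail s β ε hβ hβs hε
    refine ⟨b', hb', hbs, max n₀ n₁, fun V _ _ H X hX hbig => ?_⟩
    refine le_trans ?_ (hn₀ X.card (le_trans (le_max_left _ _) hX))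
    refine (base_union L s hs a b c H X).trans (add_le_add
      (h1 V H X (le_trans (le_max_right _ _) hX)) (base_sum s H X _ (by positivity) ?_))
    intro W hW
    obtain ⟨hW1, hW2⟩ := Finset.mem_powersetCard.mp hW
    have h2 : ∃ w ∈ W, w ∉ big ε H X := by
      by_contra hc
      push Not at hc
      have : (W : Set V) ⊆ big ε H X := fun w hw => hc w hw
      have h3 := Set.ncard_le_ncard this (Set.toFinite _)
      rw [Set.ncard_coe_finset] at h3
      omega
    obtain ⟨w, hw, hwb⟩ := h2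
    refine base_one s H X W ε hW1 hW2 w hw ?_
    by_contra hc
    exact hwb ⟨hW1 hw, not_lt.mp hc⟩
  have hB : ∃ b : ℝ, 0 < b ∧ b < 2 ^ s ∧ ∃ n₀ : ℕ,
      ∀ (V : Type) [Fintype V] [DecidableEq V] (H : SimpleGraph V) (X : Finset V),
      n₀ ≤ X.card → s < (big (1 / 2) H X).ncard → (num L H X : ℝ) ≤ b ^ X.card := by
    obtain ⟨b', hb', hbs, n₀, hn₀⟩ := base_tail s β (1 / 2) hβ hβs (by norm_num)
    refine ⟨b', hb', hbs, max n₀ n₁, fun V _ _ H X hX hbig => ?_⟩
    refine le_trans ?_ (hn₀ X.card (le_trans (le_max_left _ _) hX))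
    refine (base_union L s hs a b c H X).trans (add_le_add
      (h1 V H X (le_trans (le_max_right _ _) hX)) (base_sum s H X _ (by positivity) ?_))
    intro W hW
    obtain ⟨hW1, hW2⟩ := Finset.mem_powersetCard.mp hW
    have h2 : ∃ v ∈ big (1 / 2) H X, v ∉ W := by
      by_contra hc
      push Not at hc
      have : big (1 / 2) H X ⊆ (W : Set V) := fun w hw => hc w hw
      have h3 := Set.ncard_le_ncard this (Set.toFinite _)
      rw [Set.ncard_coe_finset] at h3
      omega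
    obtain ⟨v, hv, hvW⟩ := h2
    refine base_two s H X W (1 / 2) hW1 hW2 v (Finset.mem_sdiff.mpr ⟨hv.1, hvW⟩) ?_
    have := hv.2
    linarith
  refine ⟨hA, ⟨1 / 2, by norm_num, hB⟩, ?_⟩
  obtain ⟨bA, hbA, hbAs, nA, hnA⟩ := hA (1 / 2) (by norm_num)
  obtain ⟨bB, hbB, hbBs, nB, hnB⟩ := hB
  obtain ⟨bT, hbT, hbTs, nT, hnT⟩ := base_tail s β (1 / 2) hβ hβs (by norm_num)
  obtain ⟨mA, hmA⟩ := exp_ext s bA (24 / 25) hbA hbAs (by norm_num)
  obtain ⟨mB, hmB⟩ := exp_ext s bB (24 / 25) hbB hbBs (by norm_num)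
  obtain ⟨mT, hmT⟩ := exp_ext s bT (24 / 625) hbT hbTs (by norm_num)
  refine ⟨24 / 25, by norm_num, by norm_num, n₁ + nA + nB + nT + mA + mB + mT,
    fun V _ _ H X hX hN => ?_⟩
  rcases lt_trichotomy (big (1 / 2) H X).ncard s with hlt | heq | hgt
  · exact (hnA V H X (by omega) hlt).trans (hmA X.card (by omega))
  · set B : Finset V := (Set.toFinite (big (1 / 2) H X)).toFinset with hB'
    have hBc : B.card = s := by
      rw [← heq, Set.ncard_eq_toFinset_card _ (Set.toFinite (big (1 / 2) H X))]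
    have hBX : B ⊆ X := by
      intro x hx
      exact ((Set.Finite.mem_toFinset _).mp hx).1
    have hBm : B ∈ X.powersetCard s := Finset.mem_powersetCard.mpr ⟨hBX, hBc⟩
    refine (base_union L s hs a b c H X).trans ?_
    rw [← Finset.add_sum_erase _ _ hBm]
    have e1 := h1 V H X (by omega)
    have e2 := base_three s H X B hBX hBc hN
    have e3 : ∑ W ∈ (X.powersetCard s).erase B, (2 ^ s.choose 2 * ∏ x ∈ X \ W, fW s H X W x) ≤
        (X.card : ℝ) ^ s * ((25 / 24 : ℝ) ^ s * (2 ^ s * (24 / 25 : ℝ) ^ (1 / 2 : ℝ)) ^ X.card) := by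
      have hAnn : (0 : ℝ) ≤
        ((25 / 24 : ℝ) ^ s * (2 ^ s * (24 / 25 : ℝ) ^ (1 / 2 : ℝ)) ^ X.card) := by positivity
      refine (Finset.sum_le_card_nsmul _ _
        ((25 / 24 : ℝ) ^ s * (2 ^ s * (24 / 25 : ℝ) ^ (1 / 2 : ℝ)) ^ X.card)
        (fun W hW => ?_)).trans ?_
      · obtain ⟨hWB, hW⟩ := Finset.mem_erase.mp hW
        obtain ⟨hW1, hW2⟩ := Finset.mem_powersetCard.mp hW
        have h2 : ∃ w ∈ W, w ∉ B := by
          by_contra hc
          push Not at hc
          exact hWB (Finset.eq_of_subset_of_card_le hc (by omega))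
        obtain ⟨w, hw, hwb⟩ := h2
        refine base_one s H X W (1 / 2) hW1 hW2 w hw ?_
        by_contra hc
        exact hwb ((Set.Finite.mem_toFinset _).mpr ⟨hW1 hw, not_lt.mp hc⟩)
      · rw [nsmul_eq_mul]
        refine mul_le_mul_of_nonneg_right ?_ hAnn
        have : ((X.powersetCard s).erase B).card ≤ X.card ^ s :=
          (Finset.card_erase_le).trans (by
            rw [Finset.card_powersetCard]
            exact Nat.choose_le_pow X.card s)
        exact_mod_cast this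
    have e4 := hnT X.card (by omega)
    have e5 := hmT X.card (by omega)
    have e6 : (0 : ℝ) < 2 ^ ext s X.card := by positivity
    nlinarith
  · exact (hnB V H X (by omega) hgt).trans (hmB X.card (by omega))

end MP_0a9719_co
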