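import Pool.Agent.Lib.MP_0a9719_co.Bnd

/-! MP_0a9719_co, module Bnd2: the four bounds needed (immediate from Bnd, GrP, GrSt). -/

namespace MP_0a9719_co

theorem pureB_two (L : List Shape) (hL : ∀ T ∈ L, T.Valid) (s : ℕ) (hs : 2 ≤ s) :
    PureB L s := by
  have h1 : (2 : ℝ) ^ 2 ≤ 2 ^ s := pow_le_pow_right₀ (by norm_num) hs
  exact pureB_gen L hL s (11 / 3) (by norm_num) (by linarith)
    (fun T hT V _ _ H X => num_valid T (hL T hT) H X)

private theorem bnd2_star {V : Type} [Fintype V] [DecidableEq V] (i o : ℕ) (h1 : 1 ≤ i + o)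
    (h2 : i + o ≤ 2) (H : SimpleGraph V) (X : Finset V) :
    (num [.star i o] H X : ℝ) ≤ (5 / 3) ^ X.card := by
  rcases Nat.lt_or_ge (i + o) 2 with h | h
  · have h3 := num_star_one i o (by omega) H X
    rw [one_pow] at h3
    exact h3.trans (one_le_pow₀ (by norm_num))
  · exact num_star_two i o (by omega) H X

theorem pureB_one (L : List Shape) (hL : ∀ T ∈ L, ∃ i o, T = .star i o ∧ 1 ≤ i + o ∧ i + o ≤ 2)
    (s : ℕ) (hs : 1 ≤ s) : PureB L s := by
  have h1 : (2 : ℝ) ^ 1 ≤ 2 ^ s := pow_le_pow_right₀ (by norm_num) hs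
  refine pureB_gen L (fun T hT => ?_) s (5 / 3) (by norm_num) (by linarith)
    (fun T hT V _ _ H X => ?_)
  · obtain ⟨i, o, rfl, h2, h3⟩ := hL T hT
    exact ⟨h2, by omega⟩
  · obtain ⟨i, o, rfl, h2, h3⟩ := hL T hT
    exact bnd2_star i o h2 h3 H X

theorem noPairB_p4 (a b c : Bool) (L : List Shape) (hL : ∀ T ∈ L, T.Valid) (s : ℕ)
    (hs : 3 ≤ s) : NoPairB (.p4 a b c :: L) s := by
  have h1 : (2 : ℝ) ^ 3 ≤ 2 ^ s := pow_le_pow_right₀ (by norm_num) hs
  have hV : ∀ T' ∈ Shape.p4 a b c :: L, T'.Valid := by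
    intro T' hT'
    rcases List.mem_cons.1 hT' with rfl | h
    · trivial
    · exact hL T' h
  exact noPairB_gen _ L hV s (11 / 3) (11 / 3) (by norm_num) (by norm_num) (by linarith)
    (by linarith) (fun V _ _ H X => num_p4 a b c H X)
    (fun T' hT' V _ _ H X => num_valid T' (hL T' hT') H X)

theorem noPairB_star (a b c : Bool) (i o : ℕ) (h1 : 1 ≤ i + o) (h2 : i + o ≤ 2) :
    NoPairB [.p4 a b c, .star i o] 2 := by
  have hV : ∀ T' ∈ [Shape.p4 a b c, Shape.star i o], T'.Valid := by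
    intro T' hT'
    rcases List.mem_cons.1 hT' with rfl | h
    · trivial
    · rw [List.mem_singleton] at h
      subst h
      exact ⟨h1, by omega⟩
  refine noPairB_gen _ [.star i o] hV 2 (11 / 3) (5 / 3) (by norm_num) (by norm_num)
    (by norm_num) (by norm_num) (fun V _ _ H X => num_p4 a b c H X) ?_
  intro T' hT' V _ _ H X
  rw [List.mem_singleton] at hT'
  subst hT'
  exact bnd2_star i o h1 h2 H X

end MP_0a9719_co
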