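import Pool.Agent.Lib.MP_0a9719_co.Work

/-! MP_0a9719_co, module Fib: counting by fibres (`Finset.card_le_mul_card_image` for sets). -/

namespace MP_0a9719_co

/-- If `f` maps `S` into `A` and every fibre over `A` has at most `m` elements then
`|S| ≤ m |A|`. -/
theorem fiber_le {α β : Type*} [Finite α] [Finite β] (S : Set α) (A : Set β) (f : α → β) (m : ℕ)
    (hf : ∀ x ∈ S, f x ∈ A) (hm : ∀ y ∈ A, {x | x ∈ S ∧ f x = y}.ncard ≤ m) :
    S.ncard ≤ m * A.ncard := by
  classical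
  have := Fintype.ofFinite α
  have := Fintype.ofFinite β
  rw [Set.ncard_eq_toFinset_card', Set.ncard_eq_toFinset_card' A]
  refine Finset.card_le_mul_card_image_of_maps_to (f := f) (fun x hx => ?_) m (fun y hy => ?_)
  · rw [Set.mem_toFinset] at hx ⊢
    exact hf x hx
  · rw [Set.mem_toFinset] at hy
    have h1 := hm y hy
    rw [Set.ncard_eq_toFinset_card'] at h1
    refine le_trans (Finset.card_le_card fun x hx => ?_) h1
    rw [Finset.mem_filter, Set.mem_toFinset] at hx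
    rw [Set.mem_toFinset]
    exact hx

/-- Injective on `S`. -/
theorem inj_le {α β : Type*} [Finite α] [Finite β] (S : Set α) (A : Set β) (f : α → β)
    (hf : ∀ x ∈ S, f x ∈ A) (hinj : ∀ x ∈ S, ∀ y ∈ S, f x = f y → x = y) :
    S.ncard ≤ A.ncard :=
  Set.ncard_le_ncard_of_injOn f hf (fun x hx y hy h => hinj x hx y hy h) (Set.toFinite A)

/-- Union bound: if `S` is covered by the sets `B i`, `i ∈ I`, each with at most `m` elements,
then `|S| ≤ |I| m` (real version). -/
theorem union_le {α ι : Type*} [Finite α] (S : Set α) (I : Finset ι) (B : ι → Set α) (m : ℝ)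
    (hS : ∀ x ∈ S, ∃ i ∈ I, x ∈ B i) (hB : ∀ i ∈ I, ((B i).ncard : ℝ) ≤ m) :
    (S.ncard : ℝ) ≤ I.card * m := by
  classical
  have h1 : S ⊆ ⋃ i ∈ I, B i := fun x hx => by
    obtain ⟨i, hi, hxi⟩ := hS x hx
    exact Set.mem_biUnion hi hxi
  have h2 : S.ncard ≤ ∑ i ∈ I, (B i).ncard :=
    (Set.ncard_le_ncard h1 (Set.toFinite _)).trans (Finset.set_ncard_biUnion_le I B)
  have h3 : (S.ncard : ℝ) ≤ ∑ i ∈ I, ((B i).ncard : ℝ) := by exact_mod_cast h2
  refine h3.trans ((Finset.sum_le_sum hB).trans ?_)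
  rw [Finset.sum_const, nsmul_eq_mul]

/-- Union of two sets. -/
theorem split_le {α : Type*} [Finite α] (S B₁ B₂ : Set α) (hS : ∀ x ∈ S, x ∈ B₁ ∨ x ∈ B₂) :
    S.ncard ≤ B₁.ncard + B₂.ncard :=
  (Set.ncard_le_ncard (fun x hx => hS x hx) (Set.toFinite _)).trans (Set.ncard_union_le B₁ B₂)

end MP_0a9719_co
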