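import Pool.Agent.Lib.MP_0a9719_co.Pack

/-! MP_0a9719_co, module Host: a vertex of large in- and out-degree hosts a star; a good pair
hosts an oriented path with three edges.

`host_star`: by `packs_small` take `U ⊆ X.erase v`, `|U| ≤ 4 |L|`, with `Packs L D U`. As
`ideg D X v ≥ 4 |L| + 4` one can choose a set `I` of `i` in-neighbours of `v` in `X` outside
`U ∪ {v}` (`¬ D v v`, so `v` is not an in-neighbour of itself), then a set `O` of `o` out-neighbours
outside `U ∪ I` (`i + o ≤ 3`). `Q = insert v (I ∪ O)` is a copy of the star, disjoint from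
`U`, and `U ⊆ X \ Q` (`packs_mono`).

`host_pair`: let `U ⊆ (X.erase v).erase w` as before, `R c` (`c : Bool × Bool`) the set of `x ∈ X`,
`x ≠ v, w` with `arc c.1 D v x` and `arc c.2 D w x`. At least three of the `R c` have at least
`4 |L| + 4` elements. So both `v` and `w` have at least `4 |L| + 4` in-neighbours and as many out-neighbours
in `X \ {v, w}` (three patterns: both coordinates take both values). The path
`x0 x1 x2 x3` of type `(a, b, c)` is found as: `x0 = h`, `x2 = h'` with `{h, h'} = {v, w}`, `x1` in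
`R`-class with `arc a D h x1`, `arc (!b) D h' x1` (that is `arc b D x1 h'`), `x3` any neighbour of `h'`
with `arc c D h' x3`, `x1, x3` outside `U`; or by the backward reading: type
`(!c, !b, !a)` with the same construction (`x3 = h`, `x1 = h'`: `arc (!c) D h x2`, `arc b D h' x2`,
`arc (!a) D h' x0`). The patterns (as ordered pair of bits for `(h, h')`) are `(a, !b)` in
either order of the hubs, and `(!c, b)` in either order. If `a ≠ !b`, one of the two orders of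
`(a, !b)` is among the three realised patterns. If `a = !b` and `!c ≠ b`: same for `(!c, b)`. If
`a = !b` and `!c = b`: the patterns `(!b, !b)` and `(b, b)` are two different patterns, one of them
is realised. -/

namespace MP_0a9719_co

variable {V : Type*} [Fintype V] [DecidableEq V]

/-- an element of a large set outside a small one -/
theorem Host_pick (S : Set V) (U : Finset V) (n : ℕ) (h : U.card + n ≤ S.ncard) :
    ∃ I : Finset V, I.card = n ∧ (∀ x ∈ I, x ∈ S) ∧ Disjoint I U := by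
  classical
  have h1 : S.ncard = (Set.toFinset S).card := Set.ncard_eq_toFinset_card' S
  have h2 := Finset.le_card_sdiff U (Set.toFinset S)
  obtain ⟨I, hI, hIc⟩ := Finset.exists_subset_card_eq (s := Set.toFinset S \ U) (n := n) (by omega)
  refine ⟨I, hIc, fun x hx => ?_, ?_⟩
  · exact Set.mem_toFinset.1 (Finset.mem_sdiff.1 (hI hx)).1
  · rw [Finset.disjoint_left]
    exact fun x hx hxU => (Finset.mem_sdiff.1 (hI hx)).2 hxU

omit [Fintype V] [DecidableEq V] in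
theorem Host_or {P : Bool × Bool → Prop} (h : 3 ≤ {p | P p}.ncard) {p q : Bool × Bool}
    (hpq : p ≠ q) : P p ∨ P q := by
  by_contra hcon
  rw [not_or] at hcon
  have h1 : {p | P p} ⊆ ({p, q}ᶜ : Set (Bool × Bool)) := by
    intro r hr hr2
    rcases hr2 with h2 | h2
    · exact hcon.1 (h2 ▸ hr)
    · exact hcon.2 (h2 ▸ hr)
  have h2 := Set.ncard_le_ncard h1
  have h3 := Set.ncard_add_ncard_compl ({p, q} : Set (Bool × Bool))
  rw [Set.ncard_pair hpq] at h3
  have h4 : Nat.card (Bool × Bool) = 4 := by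
    rw [Nat.card_eq_fintype_card]
    rfl
  omega

/-- a hub has many neighbours of each kind outside the pair -/
theorem Host_nb {K : ℕ} {D : V → V → Prop} {X : Finset V} {v w : V}
    (hg : GoodPair K D X v w) (a : Bool) :
    K ≤ {u | u ∈ X ∧ u ≠ v ∧ u ≠ w ∧ arc a D v u}.ncard ∧
    K ≤ {u | u ∈ X ∧ u ≠ v ∧ u ≠ w ∧ arc a D w u}.ncard := by
  constructor
  · rcases Host_or hg (p := (a, true)) (q := (a, false)) (by simp) with h | h
    · exact h.trans (Set.ncard_le_ncard (fun x hx => ⟨hx.1, hx.2.1, hx.2.2.1, hx.2.2.2.1⟩))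
    · exact h.trans (Set.ncard_le_ncard (fun x hx => ⟨hx.1, hx.2.1, hx.2.2.1, hx.2.2.2.1⟩))
  · rcases Host_or hg (p := (true, a)) (q := (false, a)) (by simp) with h | h
    · exact h.trans (Set.ncard_le_ncard (fun x hx => ⟨hx.1, hx.2.1, hx.2.2.1, hx.2.2.2.2⟩))
    · exact h.trans (Set.ncard_le_ncard (fun x hx => ⟨hx.1, hx.2.1, hx.2.2.1, hx.2.2.2.2⟩))

theorem Host_path {K : ℕ} {D : V → V → Prop} {X U : Finset V} {h h' : V} {α β γ : Bool}
    (hK : U.card + 2 ≤ K)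
    (hR : K ≤ {x | x ∈ X ∧ x ≠ h ∧ x ≠ h' ∧ arc α D h x ∧ arc β D h' x}.ncard)
    (hS : K ≤ {x | x ∈ X ∧ x ≠ h ∧ x ≠ h' ∧ arc γ D h' x}.ncard) :
    ∃ x y, x ∈ X ∧ y ∈ X ∧ x ∉ U ∧ y ∉ U ∧ x ≠ y ∧ x ≠ h ∧ x ≠ h' ∧ y ≠ h ∧ y ≠ h' ∧
      arc α D h x ∧ arc β D h' x ∧ arc γ D h' y := by
  obtain ⟨I, hI1, hI2, hI3⟩ := Host_pick _ U 1 (le_trans (by omega) hR)
  obtain ⟨x, rfl⟩ := Finset.card_eq_one.1 hI1
  have hx := hI2 x (Finset.mem_singleton_self x)
  have hxU : x ∉ U := Finset.disjoint_left.1 hI3 (Finset.mem_singleton_self x)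
  have h1 := Finset.card_insert_le x U
  obtain ⟨J, hJ1, hJ2, hJ3⟩ := Host_pick _ (insert x U) 1 (le_trans (by omega) hS)
  obtain ⟨y, rfl⟩ := Finset.card_eq_one.1 hJ1
  have hy := hJ2 y (Finset.mem_singleton_self y)
  have hyU : y ∉ insert x U := Finset.disjoint_left.1 hJ3 (Finset.mem_singleton_self y)
  rw [Finset.mem_insert, not_or] at hyU
  exact ⟨x, y, hx.1, hy.1, hxU, hyU.2, fun h => hyU.1 h.symm, hx.2.1, hx.2.2.1, hy.2.1,
    hy.2.2.1, hx.2.2.2.1, hx.2.2.2.2, hy.2.2.2⟩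

omit [Fintype V] in
theorem Host_fin {L : List Shape} {D : V → V → Prop} {X U : Finset V} (hU : U ⊆ X)
    (hP : Packs L D U) (T : Shape) (x0 x1 x2 x3 : V) (h0 : x0 ∈ X) (h1 : x1 ∈ X) (h2 : x2 ∈ X)
    (h3 : x3 ∈ X) (u0 : x0 ∉ U) (u1 : x1 ∉ U) (u2 : x2 ∉ U) (u3 : x3 ∉ U)
    (hc : IsCopy T D {x0, x1, x2, x3}) : Packs (T :: L) D X := by
  refine ⟨{x0, x1, x2, x3}, ?_, hc, ?_⟩
  · intro x hx
    simp only [Finset.mem_insert, Finset.mem_singleton] at hx
    rcases hx with rfl | rfl | rfl | rfl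
    · exact h0
    · exact h1
    · exact h2
    · exact h3
  · refine packs_mono L D ?_ hP
    intro x hx
    rw [Finset.mem_sdiff]
    refine ⟨hU hx, ?_⟩
    simp only [Finset.mem_insert, Finset.mem_singleton, not_or]
    exact ⟨fun h => u0 (h ▸ hx), fun h => u1 (h ▸ hx), fun h => u2 (h ▸ hx),
      fun h => u3 (h ▸ hx)⟩

omit [Fintype V] [DecidableEq V] in
theorem Host_arc {D : V → V → Prop} {a : Bool} {x y : V} (h : arc (!a) D x y) : arc a D y x := by
  cases a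
  · exact h
  · exact h

/-- forward reading of the path -/
theorem Host_fwd {K : ℕ} {L : List Shape} {D : V → V → Prop} {X U : Finset V} {h h' : V}
    {a b c : Bool} (hU : U ⊆ X) (hP : Packs L D U) (hX : h ∈ X) (hX' : h' ∈ X) (hh : h ≠ h')
    (hhU : h ∉ U) (hhU' : h' ∉ U) (hK : U.card + 2 ≤ K)
    (hR : K ≤ {x | x ∈ X ∧ x ≠ h ∧ x ≠ h' ∧ arc a D h x ∧ arc (!b) D h' x}.ncard)
    (hS : K ≤ {x | x ∈ X ∧ x ≠ h ∧ x ≠ h' ∧ arc c D h' x}.ncard) :
    Packs (.p4 a b c :: L) D X := by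
  obtain ⟨x, y, hx, hy, xU, yU, hxy, xh, xh', yh, yh', a1, a2, a3⟩ := Host_path hK hR hS
  refine Host_fin hU hP _ h x h' y hX hx hX' hy hhU xU hhU' yU ?_
  exact ⟨h, x, h', y, xh.symm, hh, yh.symm, xh', hxy, yh'.symm, a1, Host_arc a2, a3, rfl⟩

/-- backward reading of the path -/
theorem Host_bwd {K : ℕ} {L : List Shape} {D : V → V → Prop} {X U : Finset V} {h h' : V}
    {a b c : Bool} (hU : U ⊆ X) (hP : Packs L D U) (hX : h ∈ X) (hX' : h' ∈ X) (hh : h ≠ h')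
    (hhU : h ∉ U) (hhU' : h' ∉ U) (hK : U.card + 2 ≤ K)
    (hR : K ≤ {x | x ∈ X ∧ x ≠ h ∧ x ≠ h' ∧ arc (!c) D h x ∧ arc b D h' x}.ncard)
    (hS : K ≤ {x | x ∈ X ∧ x ≠ h ∧ x ≠ h' ∧ arc (!a) D h' x}.ncard) :
    Packs (.p4 a b c :: L) D X := by
  obtain ⟨x, y, hx, hy, xU, yU, hxy, xh, xh', yh, yh', a1, a2, a3⟩ := Host_path hK hR hS
  refine Host_fin hU hP _ y h' x h hy hX' hx hX yU hhU' xU hhU ?_
  exact ⟨y, h', x, h, yh', hxy.symm, yh, xh'.symm, hh.symm, xh, Host_arc a3, a2,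
    Host_arc a1, rfl⟩

theorem host_star (i o : ℕ) (hio : i + o ≤ 3) (L : List Shape) (hL : ∀ T ∈ L, T.Valid)
    (D : V → V → Prop) (hirr : ∀ u, ¬ D u u) (X : Finset V) (v : V) (hv : v ∈ X)
    (hi : 4 * L.length + 4 ≤ ideg D X v) (ho : 4 * L.length + 4 ≤ odeg D X v)
    (h : Packs L D (X.erase v)) : Packs (.star i o :: L) D X := by
  obtain ⟨U, hU, hUc, hP⟩ := packs_small L hL D _ h
  have hvU : v ∉ U := fun h1 => (Finset.mem_erase.1 (hU h1)).1 rfl
  unfold ideg at hi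
  unfold odeg at ho
  obtain ⟨I, hI1, hI2, hI3⟩ := Host_pick _ U i (le_trans (by omega) hi)
  have hc := Finset.card_union_le U I
  obtain ⟨O, hO1, hO2, hO3⟩ := Host_pick _ (U ∪ I) o (le_trans (by omega) ho)
  have hvI : v ∉ I := fun h1 => hirr v (hI2 v h1).2
  have hvO : v ∉ O := fun h1 => hirr v (hO2 v h1).2
  rw [Finset.disjoint_union_right] at hO3
  refine ⟨insert v (I ∪ O), ?_, ⟨v, I, O, hvI, hvO, hO3.2.symm, hI1, hO1,
    fun x hx => (hI2 x hx).2, fun x hx => (hO2 x hx).2, rfl⟩, ?_⟩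
  · intro x hx
    rw [Finset.mem_insert, Finset.mem_union] at hx
    rcases hx with rfl | hx | hx
    · exact hv
    · exact (hI2 x hx).1
    · exact (hO2 x hx).1
  · refine packs_mono L D ?_ hP
    intro x hx
    rw [Finset.mem_sdiff, Finset.mem_insert, Finset.mem_union]
    refine ⟨Finset.mem_of_mem_erase (hU hx), ?_⟩
    rintro (h1 | h1 | h1)
    · exact hvU (h1 ▸ hx)
    · exact Finset.disjoint_left.1 hI3 h1 hx
    · exact Finset.disjoint_left.1 hO3.1 h1 hx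

theorem host_pair (a b c : Bool) (L : List Shape) (hL : ∀ T ∈ L, T.Valid)
    (D : V → V → Prop) (hirr : ∀ u, ¬ D u u) (X : Finset V) (v w : V) (hv : v ∈ X)
    (hw : w ∈ X) (hvw : v ≠ w) (hg : GoodPair (4 * L.length + 4) D X v w)
    (h : Packs L D ((X.erase v).erase w)) : Packs (.p4 a b c :: L) D X := by
  obtain ⟨U, hU, hUc, hP⟩ := packs_small L hL D _ h
  have hwU : w ∉ U := fun h1 => (Finset.mem_erase.1 (hU h1)).1 rfl
  have hvU : v ∉ U := fun h1 => (Finset.mem_erase.1 (Finset.mem_erase.1 (hU h1)).2).1 rfl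
  have hUX : U ⊆ X := fun x hx => Finset.mem_of_mem_erase (Finset.mem_of_mem_erase (hU hx))
  have hK : U.card + 2 ≤ 4 * L.length + 4 := by omega
  have hsw : ∀ α β : Bool, {x | x ∈ X ∧ x ≠ v ∧ x ≠ w ∧ arc α D v x ∧ arc β D w x} =
      {x | x ∈ X ∧ x ≠ w ∧ x ≠ v ∧ arc β D w x ∧ arc α D v x} := by
    intro α β
    ext x
    exact ⟨fun h1 => ⟨h1.1, h1.2.2.1, h1.2.1, h1.2.2.2.2, h1.2.2.2.1⟩,
      fun h1 => ⟨h1.1, h1.2.2.1, h1.2.1, h1.2.2.2.2, h1.2.2.2.1⟩⟩
  have hsw' : ∀ α : Bool, {x | x ∈ X ∧ x ≠ v ∧ x ≠ w ∧ arc α D v x} =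
      {x | x ∈ X ∧ x ≠ w ∧ x ≠ v ∧ arc α D v x} := by
    intro α
    ext x
    exact ⟨fun h1 => ⟨h1.1, h1.2.2.1, h1.2.1, h1.2.2.2⟩,
      fun h1 => ⟨h1.1, h1.2.2.1, h1.2.1, h1.2.2.2⟩⟩
  have F1 : 4 * L.length + 4 ≤
      {x | x ∈ X ∧ x ≠ v ∧ x ≠ w ∧ arc a D v x ∧ arc (!b) D w x}.ncard →
      Packs (.p4 a b c :: L) D X := fun hR =>
    Host_fwd hUX hP hv hw hvw hvU hwU hK hR (Host_nb hg c).2
  have F2 : 4 * L.length + 4 ≤
      {x | x ∈ X ∧ x ≠ v ∧ x ≠ w ∧ arc (!b) D v x ∧ arc a D w x}.ncard →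
      Packs (.p4 a b c :: L) D X := fun hR => by
    rw [hsw] at hR
    have h2 := (Host_nb hg c).1
    rw [hsw'] at h2
    exact Host_fwd hUX hP hw hv hvw.symm hwU hvU hK hR h2
  have B1 : 4 * L.length + 4 ≤
      {x | x ∈ X ∧ x ≠ v ∧ x ≠ w ∧ arc (!c) D v x ∧ arc b D w x}.ncard →
      Packs (.p4 a b c :: L) D X := fun hR =>
    Host_bwd hUX hP hv hw hvw hvU hwU hK hR (Host_nb hg (!a)).2
  have B2 : 4 * L.length + 4 ≤
      {x | x ∈ X ∧ x ≠ v ∧ x ≠ w ∧ arc b D v x ∧ arc (!c) D w x}.ncard →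
      Packs (.p4 a b c :: L) D X := fun hR => by
    rw [hsw] at hR
    have h2 := (Host_nb hg (!a)).1
    rw [hsw'] at h2
    exact Host_bwd hUX hP hw hv hvw.symm hwU hvU hK hR h2
  by_cases e1 : a = !b
  · by_cases e2 : (!c) = b
    · rcases Host_or hg (p := (a, !b)) (q := (!c, b)) (by
        rw [e1, e2]
        cases b <;> simp) with h1 | h1
      · exact F1 h1
      · exact B1 h1
    · rcases Host_or hg (p := (!c, b)) (q := (b, !c)) (by
        intro h1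
        exact e2 (congrArg Prod.fst h1)) with h1 | h1
      · exact B1 h1
      · exact B2 h1
  · rcases Host_or hg (p := (a, !b)) (q := (!b, a)) (by
      intro h1
      exact e1 (congrArg Prod.fst h1)) with h1 | h1
    · exact F1 h1
    · exact F2 h1

/-- a good pair: both vertices have many in- and out-neighbours outside the pair. -/
theorem goodPair_deg (K : ℕ) (D : V → V → Prop) (X : Finset V) (v w : V)
    (hg : GoodPair K D X v w) :
    K ≤ ideg D ((X.erase v).erase w) v ∧ K ≤ odeg D ((X.erase v).erase w) v ∧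
    K ≤ ideg D ((X.erase v).erase w) w ∧ K ≤ odeg D ((X.erase v).erase w) w := by
  have hmem : ∀ u, u ∈ X → u ≠ v → u ≠ w → u ∈ (X.erase v).erase w := fun u h1 h2 h3 =>
    Finset.mem_erase.2 ⟨h3, Finset.mem_erase.2 ⟨h2, h1⟩⟩
  have hf := Host_nb hg false
  have ht := Host_nb hg true
  refine ⟨?_, ?_, ?_, ?_⟩
  · exact hf.1.trans (Set.ncard_le_ncard fun u hu =>
      ⟨hmem u hu.1 hu.2.1 hu.2.2.1, hu.2.2.2⟩)
  · exact ht.1.trans (Set.ncard_le_ncard fun u hu =>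
      ⟨hmem u hu.1 hu.2.1 hu.2.2.1, hu.2.2.2⟩)
  · exact hf.2.trans (Set.ncard_le_ncard fun u hu =>
      ⟨hmem u hu.1 hu.2.1 hu.2.2.1, hu.2.2.2⟩)
  · exact ht.2.trans (Set.ncard_le_ncard fun u hu =>
      ⟨hmem u hu.1 hu.2.1 hu.2.2.1, hu.2.2.2⟩)

end MP_0a9719_co
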