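import Pool.Agent.Lib.MP_0a9719_co.TwoB
import Pool.Agent.Lib.MP_0a9719_co.Bnd2
import Pool.Agent.Lib.MP_0a9719_co.Host
import Pool.Agent.Lib.MP_0a9719_co.Base
import Pool.Agent.Lib.MP_0a9719_co.Fib

/-! MP_0a9719_co, module BaseTwo: the two base cases with oriented paths.

`exc_star`: `L = [e, star i o]`, `e = p4 a b c`, `i + o = 2`, `s = 2`. Let `D` be in the exceptional set. CLAIM: no
pair is `8`-good; then `noPairB_star` (with `K = 8`) gives the bound. Let `(v, w)` be `8`-good, `W = {v, w}`.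
`goodPair_deg` gives degrees `≥ 8` in `X \ W`. If `Q ⊆ insert v (X \ W)` is a copy of `e`, then `w ∉ Q`,
`Packs [e] D (X.erase w)`, and `host_star` at `w` (`L = [e]`, `4*1+4 = 8`) gives
`Packs [star i o, e] D X`, contradiction (`packs_perm`). Same for `w`, `v` exchanged. So `MainD`
holds for `W`, contradiction.

`exc_p4`: `L = [e, e']`, `s = 3`, type of the main configurations: `e`. Let `D` be in the exceptional set.
(1) No three vertices of `X` are pairwise `8`-good: let `W` be such a triple; for `w ∈ W` the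
degrees in `X \ W` are at least `8 - 1`; if `Q ⊆ insert w (X \ W)` is a copy of `e`, the other two
`u, u'` form a good pair and `host_pair` (with `L = [e]`, shape `e'`) gives `Packs [e', e] D X`,
contradiction. So `MainD a b c D X W`, contradiction.
(2) If no pair in `X` is `8`-good: at most `b^n` such `D`, `b < 8`, by `noPairB_p4` (s = 3).
(3) Otherwise let `(v, v')` be `8`-good. By `host_pair` (`L = [e']`, shape `e`, and `L = [e]`, shape
`e'`), there is no copy of `e` and none of `e'` in `(X.erase v).erase v'`. If there is no copy of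
`e` in `X.erase v'`: `D ∈ TwoSet 8 e H X ∅ v v'` (`insert v (X \ {v, v'}) = X.erase v'`). Otherwise
let `Q ⊆ X.erase v'` be a copy of `e`; `v ∈ Q`; `Y₀ = Q.erase v`, at most `3` elements. As
`¬ Packs [e, e'] D X` there is no copy of `e'` in `X \ Q = insert v' (X \ ({v, v'} ∪ Y₀))`, and none in
`X \ {v, v'}`. The degrees of `v'` in `X \ ({v, v'} ∪ Y₀)` are at least `8 - 3`. So
`D ∈ TwoSet 8 e' H X Y₀ v' v`. By `two_all` and the union bound over `(v, v', Y₀)` (at most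
`(n+1)^5` choices... `Y₀` has at most `3` elements) there are at most `C (n+1)^C (22/3)^n` such `D`,
`22/3 < 8` (`poly_exp`). -/

namespace MP_0a9719_co

section BaseTwoAux

variable {V : Type*} [Fintype V] [DecidableEq V]

omit [Fintype V] [DecidableEq V] in
theorem BaseTwo_irr {H : SimpleGraph V} {X : Finset V} {D : V → V → Prop}
    (hD : IsOr (res X H) D) : ∀ u, ¬ D u u := fun u h => (hD u u).2 ⟨h, h⟩

omit [DecidableEq V] in
theorem BaseTwo_ideg {D : V → V → Prop} {X Y : Finset V} (h : X ⊆ Y) (v : V) :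
    ideg D X v ≤ ideg D Y v :=
  Set.ncard_le_ncard fun _ hu => ⟨h hu.1, hu.2⟩

omit [DecidableEq V] in
theorem BaseTwo_odeg {D : V → V → Prop} {X Y : Finset V} (h : X ⊆ Y) (v : V) :
    odeg D X v ≤ odeg D Y v :=
  Set.ncard_le_ncard fun _ hu => ⟨h hu.1, hu.2⟩

theorem BaseTwo_ncard {S T : Set V} {Z : Finset V} (h : ∀ u ∈ S, u ∈ T ∨ u ∈ Z) :
    S.ncard ≤ T.ncard + Z.card := by
  have h1 : S ⊆ T ∪ (Z : Set V) := fun u hu => h u hu
  have h2 := (Set.ncard_le_ncard h1).trans (Set.ncard_union_le T (Z : Set V))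
  rwa [Set.ncard_coe_finset] at h2

/-- removing a few vertices does not change the degrees much -/
theorem BaseTwo_ideg' {D : V → V → Prop} {X Y Z : Finset V} (h : ∀ u ∈ Y, u ∈ X ∨ u ∈ Z)
    (v : V) : ideg D Y v ≤ ideg D X v + Z.card :=
  BaseTwo_ncard fun u hu => (h u hu.1).imp (fun h1 => ⟨h1, hu.2⟩) id

theorem BaseTwo_odeg' {D : V → V → Prop} {X Y Z : Finset V} (h : ∀ u ∈ Y, u ∈ X ∨ u ∈ Z)
    (v : V) : odeg D Y v ≤ odeg D X v + Z.card :=
  BaseTwo_ncard fun u hu => (h u hu.1).imp (fun h1 => ⟨h1, hu.2⟩) id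

theorem BaseTwo_swap {D : V → V → Prop} {X : Finset V} {S T : Shape}
    (h : Packs [S, T] D X) : Packs [T, S] D X :=
  (packs_perm (List.Perm.swap T S []) D X).1 h

omit [Fintype V] in
theorem BaseTwo_er {X : Finset V} (v w : V) : X \ {v, w} = (X.erase v).erase w := by
  ext u
  simp only [Finset.mem_sdiff, Finset.mem_insert, Finset.mem_singleton, Finset.mem_erase, not_or]
  exact ⟨fun h => ⟨h.2.2, h.2.1, h.1⟩, fun h => ⟨h.2.2, h.2.1, h.1⟩⟩

/-- a copy of the path next to a large star -/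
theorem BaseTwo_star {D : V → V → Prop} {X : Finset V} {a b c : Bool} {i o : ℕ}
    (hio : i + o = 2) (hirr : ∀ u, ¬ D u u) (hP : ¬ Packs [.p4 a b c, .star i o] D X)
    {w : V} (hw : w ∈ X) (hi : 8 ≤ ideg D X w) (ho : 8 ≤ odeg D X w) :
    ¬ ∃ Q : Finset V, Q ⊆ X.erase w ∧ IsCopy (.p4 a b c) D Q := by
  intro hQ
  apply hP
  refine BaseTwo_swap (host_star i o (by omega) [.p4 a b c] ?_ D hirr X w hw hi ho ?_)
  · intro T hT
    rw [List.mem_singleton] at hT
    subst hT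
    exact trivial
  · exact (packs_one _ D _).2 hQ

/-- a copy of a path next to a good pair -/
theorem BaseTwo_pair {D : V → V → Prop} {X : Finset V} {a b c a' b' c' : Bool}
    (hirr : ∀ u, ¬ D u u) (hP : ¬ Packs [.p4 a b c, .p4 a' b' c'] D X)
    {v w : V} (hv : v ∈ X) (hw : w ∈ X) (hvw : v ≠ w) (hg : GoodPair 8 D X v w) :
    (¬ ∃ Q : Finset V, Q ⊆ (X.erase v).erase w ∧ IsCopy (.p4 a b c) D Q) ∧
    ¬ ∃ Q : Finset V, Q ⊆ (X.erase v).erase w ∧ IsCopy (.p4 a' b' c') D Q := by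
  constructor
  · intro hQ
    apply hP
    refine BaseTwo_swap (host_pair a' b' c' [.p4 a b c] ?_ D hirr X v w hv hw hvw hg ?_)
    · intro T hT
      rw [List.mem_singleton] at hT
      subst hT
      exact trivial
    · exact (packs_one _ D _).2 hQ
  · intro hQ
    apply hP
    refine host_pair a b c [.p4 a' b' c'] ?_ D hirr X v w hv hw hvw hg ?_
    · intro T hT
      rw [List.mem_singleton] at hT
      subst hT
      exact trivial
    · exact (packs_one _ D _).2 hQ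

omit [Fintype V] [DecidableEq V] in
theorem BaseTwo_gsymm {K : ℕ} {D : V → V → Prop} {X : Finset V} {v w : V}
    (hg : GoodPair K D X v w) : GoodPair K D X w v := by
  unfold GoodPair at hg ⊢
  refine hg.trans (Set.ncard_le_ncard_of_injOn Prod.swap ?_ ?_)
  · rintro ⟨p, q⟩ hp
    change K ≤ _ at hp
    change K ≤ _
    refine le_trans hp (le_of_eq ?_)
    congr 1
    ext x
    exact ⟨fun h1 => ⟨h1.1, h1.2.2.1, h1.2.1, h1.2.2.2.2, h1.2.2.2.1⟩,
      fun h1 => ⟨h1.1, h1.2.2.1, h1.2.1, h1.2.2.2.2, h1.2.2.2.1⟩⟩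
  · exact fun p _ q _ h => Prod.swap_injective h

/-- no three pairwise good vertices -/
theorem BaseTwo_triple {H : SimpleGraph V} {D : V → V → Prop} {X : Finset V}
    {a b c a' b' c' : Bool} (hD : IsOr (res X H) D)
    (hP : ¬ Packs [.p4 a b c, .p4 a' b' c'] D X)
    (hM : ∀ W : Finset V, W ⊆ X → W.card = 3 → ¬ MainD a b c D X W) :
    ∀ W : Finset V, W ⊆ X → W.card = 3 →
      ¬ ∀ v ∈ W, ∀ w ∈ W, v ≠ w → GoodPair 8 D X v w := by
  have hirr := BaseTwo_irr hD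
  intro W hW hW3 hgood
  apply hM W hW hW3
  intro w hw
  have hcard : (W.erase w).card = 2 := by
    rw [Finset.card_erase_of_mem hw, hW3]
  obtain ⟨u, u', huu, hE⟩ := Finset.card_eq_two.1 hcard
  have hu : u ∈ W.erase w := by rw [hE]; exact Finset.mem_insert_self _ _
  have hu' : u' ∈ W.erase w := by
    rw [hE]; exact Finset.mem_insert_of_mem (Finset.mem_singleton_self _)
  have hu1 := Finset.mem_erase.1 hu
  have hu2 := Finset.mem_erase.1 hu'
  have hmem : ∀ x ∈ W, x = w ∨ x = u ∨ x = u' := by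
    intro x hx
    by_cases hxw : x = w
    · exact Or.inl hxw
    · have h1 : x ∈ W.erase w := Finset.mem_erase.2 ⟨hxw, hx⟩
      rw [hE, Finset.mem_insert, Finset.mem_singleton] at h1
      exact Or.inr h1
  have hdeg := goodPair_deg 8 D X w u (hgood w hw u hu1.2 hu1.1.symm)
  have hcov : ∀ x ∈ (X.erase w).erase u, x ∈ X \ W ∨ x ∈ ({u'} : Finset V) := by
    intro x hx
    rw [Finset.mem_erase, Finset.mem_erase] at hx
    by_cases hxW : x ∈ W
    · rcases hmem x hxW with h1 | h1 | h1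
      · exact absurd h1 hx.2.1
      · exact absurd h1 hx.1
      · exact Or.inr (Finset.mem_singleton.2 h1)
    · exact Or.inl (Finset.mem_sdiff.2 ⟨hx.2.2, hxW⟩)
  have h1 := BaseTwo_ideg' (D := D) hcov w
  have h2 := BaseTwo_odeg' (D := D) hcov w
  rw [Finset.card_singleton] at h1 h2
  refine ⟨by omega, by omega, ?_⟩
  rintro ⟨Q, hQ, hc⟩
  refine (BaseTwo_pair hirr hP (hW hu1.2) (hW hu2.2) huu
    (hgood u hu1.2 u' hu2.2 huu)).1 ⟨Q, ?_, hc⟩
  intro x hx
  rw [Finset.mem_erase, Finset.mem_erase]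
  have h3 := hQ hx
  rw [Finset.mem_insert, Finset.mem_sdiff] at h3
  rcases h3 with rfl | h3
  · exact ⟨hu2.1.symm, hu1.1.symm, hW hw⟩
  · exact ⟨fun h4 => h3.2 (h4 ▸ hu2.2), fun h4 => h3.2 (h4 ▸ hu1.2), h3.1⟩

/-- an orientation with a good pair lies in one of the sets `TwoSet` -/
theorem BaseTwo_two {H : SimpleGraph V} {D : V → V → Prop} {X : Finset V}
    {a b c a' b' c' : Bool} (hD : IsOr (res X H) D)
    (hP : ¬ Packs [.p4 a b c, .p4 a' b' c'] D X)
    (hM : ∀ W : Finset V, W ⊆ X → W.card = 3 → ¬ MainD a b c D X W)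
    {v w : V} (hv : v ∈ X) (hw : w ∈ X) (hvw : v ≠ w) (hg : GoodPair 8 D X v w) :
    D ∈ TwoSet 8 a b c H X ∅ v w ∨ ∃ Y₀ : Finset V, Y₀ ⊆ X ∧ w ∉ Y₀ ∧ v ∉ Y₀ ∧ Y₀.card ≤ 3 ∧
      D ∈ TwoSet 8 a' b' c' H X Y₀ w v := by
  have hirr := BaseTwo_irr hD
  have htr := BaseTwo_triple hD hP hM
  have hpair := BaseTwo_pair hirr hP hv hw hvw hg
  have hdeg := goodPair_deg 8 D X v w hg
  by_cases hE : ∃ Q : Finset V, Q ⊆ X.erase w ∧ IsCopy (.p4 a b c) D Q
  · right
    obtain ⟨Q, hQ, hc⟩ := hE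
    have hvQ : v ∈ Q := by
      by_contra hvQ
      refine hpair.1 ⟨Q, fun x hx => ?_, hc⟩
      have h1 := Finset.mem_erase.1 (hQ hx)
      exact Finset.mem_erase.2 ⟨h1.1, Finset.mem_erase.2 ⟨fun h2 => hvQ (h2 ▸ hx), h1.2⟩⟩
    have hwQ : w ∉ Q := fun h1 => (Finset.mem_erase.1 (hQ h1)).1 rfl
    have hQX : Q ⊆ X := fun x hx => Finset.mem_of_mem_erase (hQ hx)
    have hQ4 := isCopy_card _ (show (Shape.p4 a b c).Valid from trivial) D Q hc
    have hYc : (Q.erase v).card ≤ 3 := by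
      rw [Finset.card_erase_of_mem hvQ]
      omega
    refine ⟨Q.erase v, (Finset.erase_subset _ _).trans hQX, fun h1 =>
      hwQ (Finset.mem_of_mem_erase h1), Finset.notMem_erase _ _, hYc, hD, ?_, ?_, ?_, ?_, htr⟩
    · have hcov : ∀ x ∈ (X.erase v).erase w,
          x ∈ X \ insert w (insert v (Q.erase v)) ∨ x ∈ Q.erase v := by
        intro x hx
        rw [Finset.mem_erase, Finset.mem_erase] at hx
        by_cases hxQ : x ∈ Q.erase v
        · exact Or.inr hxQ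
        · left
          rw [Finset.mem_sdiff, Finset.mem_insert, Finset.mem_insert]
          exact ⟨hx.2.2, fun h1 => h1.elim hx.1 (fun h2 => h2.elim hx.2.1 hxQ)⟩
      have h1 := BaseTwo_ideg' (D := D) hcov w
      omega
    · have hcov : ∀ x ∈ (X.erase v).erase w,
          x ∈ X \ insert w (insert v (Q.erase v)) ∨ x ∈ Q.erase v := by
        intro x hx
        rw [Finset.mem_erase, Finset.mem_erase] at hx
        by_cases hxQ : x ∈ Q.erase v
        · exact Or.inr hxQ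
        · left
          rw [Finset.mem_sdiff, Finset.mem_insert, Finset.mem_insert]
          exact ⟨hx.2.2, fun h1 => h1.elim hx.1 (fun h2 => h2.elim hx.2.1 hxQ)⟩
      have h1 := BaseTwo_odeg' (D := D) hcov w
      omega
    · rintro ⟨Q', hQ', hc'⟩
      apply hP
      refine ⟨Q, hQX, hc, (packs_one _ D _).2 ⟨Q', fun x hx => ?_, hc'⟩⟩
      have h1 := hQ' hx
      rw [Finset.mem_insert, Finset.mem_sdiff, Finset.mem_insert, Finset.mem_insert] at h1
      rw [Finset.mem_sdiff]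
      rcases h1 with rfl | h1
      · exact ⟨hw, hwQ⟩
      · refine ⟨h1.1, fun h2 => h1.2 (Or.inr ?_)⟩
        by_cases hxv : x = v
        · exact Or.inl hxv
        · exact Or.inr (Finset.mem_erase.2 ⟨hxv, h2⟩)
    · rintro ⟨Q', hQ', hc'⟩
      refine hpair.2 ⟨Q', fun x hx => ?_, hc'⟩
      have h1 := hQ' hx
      rw [Finset.mem_union, Finset.mem_sdiff, Finset.mem_insert, Finset.mem_insert] at h1
      rw [Finset.mem_erase, Finset.mem_erase]
      rcases h1 with h1 | h1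
      · exact ⟨fun h2 => h1.2 (Or.inl h2), fun h2 => h1.2 (Or.inr (Or.inl h2)), h1.1⟩
      · have h3 := Finset.mem_erase.1 h1
        exact ⟨fun h2 => hwQ (h2 ▸ h3.2), h3.1, hQX h3.2⟩
  · left
    have hEr : X \ insert v (insert w (∅ : Finset V)) = (X.erase v).erase w := BaseTwo_er v w
    refine ⟨hD, ?_, ?_, ?_, ?_, htr⟩
    · rw [hEr]
      omega
    · rw [hEr]
      omega
    · rintro ⟨Q, hQ, hc⟩
      refine hE ⟨Q, fun x hx => ?_, hc⟩
      have h1 := hQ hx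
      rw [hEr, Finset.mem_insert, Finset.mem_erase, Finset.mem_erase] at h1
      rw [Finset.mem_erase]
      rcases h1 with rfl | h1
      · exact ⟨hvw, hv⟩
      · exact ⟨h1.1, h1.2.2⟩
    · rintro ⟨Q, hQ, hc⟩
      rw [hEr, Finset.union_empty] at hQ
      exact hpair.1 ⟨Q, hQ, hc⟩

end BaseTwoAux

/-- small subsets -/
theorem BaseTwo_small {V : Type} [DecidableEq V] (X : Finset V) :
    (X.powerset.filter (fun Y => Y.card ≤ 3)).card ≤ 4 * (X.card + 1) ^ 3 := by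
  have h1 : X.powerset.filter (fun Y => Y.card ≤ 3) ⊆
      (Finset.range 4).biUnion fun j => Finset.powersetCard j X := by
    intro Y hY
    rw [Finset.mem_filter, Finset.mem_powerset] at hY
    rw [Finset.mem_biUnion]
    exact ⟨Y.card, Finset.mem_range.2 (by omega), Finset.mem_powersetCard.2 ⟨hY.1, rfl⟩⟩
  refine (Finset.card_le_card h1).trans (Finset.card_biUnion_le.trans ?_)
  calc ∑ j ∈ Finset.range 4, (Finset.powersetCard j X).card
      ≤ ∑ j ∈ Finset.range 4, (X.card + 1) ^ 3 := by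
        refine Finset.sum_le_sum fun j hj => ?_
        rw [Finset.card_powersetCard]
        refine (Nat.choose_le_pow X.card j).trans ?_
        refine (Nat.pow_le_pow_left (Nat.le_succ _) j).trans ?_
        exact Nat.pow_le_pow_right (Nat.succ_pos _) (by
          have := Finset.mem_range.1 hj
          omega)
    _ = 4 * (X.card + 1) ^ 3 := by
        rw [Finset.sum_const, Finset.card_range, smul_eq_mul]

theorem exc_star (a b c : Bool) (i o : ℕ) (h : i + o = 2) :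
    Exc [.p4 a b c, .star i o] 2 a b c := by
  obtain ⟨β, hβ0, hβ, n₀, hn⟩ := noPairB_star a b c i o (by omega) (by omega) 8
  refine ⟨β, hβ0, hβ, n₀, fun V _ _ H X hX => ?_⟩
  refine le_trans ?_ (hn V H X hX)
  have hsub : {D : V → V → Prop | IsOr (res X H) D ∧ ¬ Packs [.p4 a b c, .star i o] D X ∧
        ∀ W : Finset V, W ⊆ X → W.card = 2 → ¬ MainD a b c D X W} ⊆
      {D : V → V → Prop | IsOr (res X H) D ∧ ¬ Packs [.p4 a b c, .star i o] D X ∧
        ∀ v ∈ X, ∀ w ∈ X, v ≠ w → ¬ GoodPair 8 D X v w} := by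
    rintro D ⟨hD, hP, hM⟩
    refine ⟨hD, hP, fun v hv w hw hvw hg => ?_⟩
    have hirr := BaseTwo_irr hD
    have hdeg := goodPair_deg 8 D X v w hg
    have hWX : ({v, w} : Finset V) ⊆ X := by
      intro x hx
      rw [Finset.mem_insert, Finset.mem_singleton] at hx
      rcases hx with rfl | rfl
      · exact hv
      · exact hw
    have hsX : (X.erase v).erase w ⊆ X := fun x hx =>
      Finset.mem_of_mem_erase (Finset.mem_of_mem_erase hx)
    apply hM {v, w} hWX (Finset.card_pair hvw)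
    intro u hu
    rw [BaseTwo_er]
    rw [Finset.mem_insert, Finset.mem_singleton] at hu
    rcases hu with rfl | rfl
    · refine ⟨by omega, by omega, ?_⟩
      rintro ⟨Q, hQ, hc⟩
      refine BaseTwo_star h hirr hP hw (hdeg.2.2.1.trans (BaseTwo_ideg hsX w))
        (hdeg.2.2.2.trans (BaseTwo_odeg hsX w)) ⟨Q, fun x hx => ?_, hc⟩
      have h1 := hQ hx
      rw [Finset.mem_insert, Finset.mem_erase, Finset.mem_erase] at h1
      rw [Finset.mem_erase]
      rcases h1 with rfl | h1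
      · exact ⟨hvw, hv⟩
      · exact ⟨h1.1, h1.2.2⟩
    · refine ⟨by omega, by omega, ?_⟩
      rintro ⟨Q, hQ, hc⟩
      refine BaseTwo_star h hirr hP hv (hdeg.1.trans (BaseTwo_ideg hsX v))
        (hdeg.2.1.trans (BaseTwo_odeg hsX v)) ⟨Q, fun x hx => ?_, hc⟩
      have h1 := hQ hx
      rw [Finset.mem_insert, Finset.mem_erase, Finset.mem_erase] at h1
      rw [Finset.mem_erase]
      rcases h1 with rfl | h1
      · exact ⟨hvw.symm, hw⟩
      · exact ⟨h1.2.1, h1.2.2⟩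
  exact_mod_cast Set.ncard_le_ncard hsub

theorem exc_p4 (a b c a' b' c' : Bool) :
    Exc [.p4 a b c, .p4 a' b' c'] 3 a b c := by
  obtain ⟨β, hβ0, hβ, n₀, hn⟩ := noPairB_p4 a b c [.p4 a' b' c'] (by
    intro T hT
    rw [List.mem_singleton] at hT
    subst hT
    exact trivial) 3 le_rfl 8
  obtain ⟨C1, hC1⟩ := two_all a b c 8
  obtain ⟨C2, hC2⟩ := two_all a' b' c' 8
  obtain ⟨C, hC⟩ : ∃ C, C = 4 * (C1 + C2) + 5 := ⟨_, rfl⟩
  obtain ⟨n₁, hn₁⟩ := poly_exp C (22 / 3) (15 / 2) (by norm_num) (by norm_num)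
  obtain ⟨b1, hb1⟩ : ∃ b1 : ℝ, b1 = max β (15 / 2) := ⟨_, rfl⟩
  have hb1a : β ≤ b1 := by rw [hb1]; exact le_max_left _ _
  have hb1b : (15 / 2 : ℝ) ≤ b1 := by rw [hb1]; exact le_max_right _ _
  have hb1c : b1 < 8 := by
    rw [hb1]
    refine max_lt ?_ (by norm_num)
    refine lt_of_lt_of_eq hβ (by norm_num)
  obtain ⟨n₂, hn₂⟩ := poly_exp 2 b1 ((b1 + 8) / 2) (by linarith) (by linarith)
  refine ⟨(b1 + 8) / 2, by linarith, by norm_num; linarith, max n₀ (max n₁ n₂),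
    fun V _ _ H X hX => ?_⟩
  have hX0 : n₀ ≤ X.card := (le_max_left _ _).trans hX
  have hX1 : n₁ ≤ X.card := ((le_max_left _ _).trans (le_max_right _ _)).trans hX
  have hX2 : n₂ ≤ X.card := ((le_max_right _ _).trans (le_max_right _ _)).trans hX
  classical
  obtain ⟨J, hJ⟩ : ∃ J : Finset ((V × V) × Finset V), J =
      ((X ×ˢ X) ×ˢ (X.powerset.filter (fun Y => Y.card ≤ 3))).filter
        (fun t => t.1.1 ≠ t.1.2 ∧ t.1.1 ∉ t.2 ∧ t.1.2 ∉ t.2) := ⟨_, rfl⟩
  have hJmem : ∀ t, t ∈ J ↔ ((t.1.1 ∈ X ∧ t.1.2 ∈ X) ∧ t.2 ⊆ X ∧ t.2.card ≤ 3) ∧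
      t.1.1 ≠ t.1.2 ∧ t.1.1 ∉ t.2 ∧ t.1.2 ∉ t.2 := by
    intro t
    rw [hJ, Finset.mem_filter, Finset.mem_product, Finset.mem_product, Finset.mem_filter,
      Finset.mem_powerset]
  have hJc : (J.card : ℝ) ≤ 4 * (X.card + 1) ^ 5 := by
    have h1 : J.card ≤ X.card * X.card * (4 * (X.card + 1) ^ 3) := by
      rw [hJ]
      refine (Finset.card_filter_le _ _).trans ?_
      rw [Finset.card_product, Finset.card_product]
      exact Nat.mul_le_mul_left _ (BaseTwo_small X)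
    have h2 : X.card * X.card * (4 * (X.card + 1) ^ 3) ≤ 4 * (X.card + 1) ^ 5 := by
      have h3 : X.card * X.card ≤ (X.card + 1) ^ 2 := by nlinarith
      calc X.card * X.card * (4 * (X.card + 1) ^ 3)
          ≤ (X.card + 1) ^ 2 * (4 * (X.card + 1) ^ 3) := Nat.mul_le_mul_right _ h3
        _ = 4 * (X.card + 1) ^ 5 := by ring
    exact_mod_cast h1.trans h2
  obtain ⟨S1, hS1⟩ : ∃ S1 : Set (V → V → Prop), S1 = {D : V → V → Prop | IsOr (res X H) D ∧
      ¬ Packs [.p4 a b c, .p4 a' b' c'] D X ∧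
        ∀ v ∈ X, ∀ w ∈ X, v ≠ w → ¬ GoodPair 8 D X v w} := ⟨_, rfl⟩
  obtain ⟨S2, hS2⟩ : ∃ S2 : Set (V → V → Prop), S2 = {D : V → V → Prop | ∃ t ∈ J,
      D ∈ TwoSet 8 a b c H X t.2 t.1.1 t.1.2 ∪ TwoSet 8 a' b' c' H X t.2 t.1.1 t.1.2} := ⟨_, rfl⟩
  have hsub : {D : V → V → Prop | IsOr (res X H) D ∧
      ¬ Packs [.p4 a b c, .p4 a' b' c'] D X ∧
        ∀ W : Finset V, W ⊆ X → W.card = 3 → ¬ MainD a b c D X W} ⊆ S1 ∪ S2 := by
    rintro D ⟨hD, hP, hM⟩
    by_cases hg : ∀ v ∈ X, ∀ w ∈ X, v ≠ w → ¬ GoodPair 8 D X v w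
    · left
      rw [hS1]
      exact ⟨hD, hP, hg⟩
    · right
      push Not at hg
      obtain ⟨v, hv, w, hw, hvw, hg⟩ := hg
      rw [hS2]
      rcases BaseTwo_two hD hP hM hv hw hvw hg with h1 | ⟨Y₀, hY, hwY, hvY, hYc, h1⟩
      · refine ⟨((v, w), ∅), (hJmem _).2 ⟨⟨⟨hv, hw⟩, Finset.empty_subset _, ?_⟩, hvw,
          Finset.notMem_empty _, Finset.notMem_empty _⟩, Or.inl h1⟩
        rw [Finset.card_empty]
        exact Nat.zero_le _
      · exact ⟨((w, v), Y₀), (hJmem _).2 ⟨⟨⟨hw, hv⟩, hY, hYc⟩, hvw.symm, hwY, hvY⟩, Or.inr h1⟩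
  have hn1 : (1 : ℝ) ≤ X.card + 1 := by
    have : (0 : ℝ) ≤ X.card := Nat.cast_nonneg _
    linarith
  have hb2 : (S2.ncard : ℝ) ≤ (15 / 2) ^ X.card := by
    have h1 : (S2.ncard : ℝ) ≤ J.card *
        ((C1 * (X.card + 1) ^ C1 + C2 * (X.card + 1) ^ C2) * (22 / 3) ^ X.card) := by
      refine union_le S2 J (fun t => TwoSet 8 a b c H X t.2 t.1.1 t.1.2 ∪
        TwoSet 8 a' b' c' H X t.2 t.1.1 t.1.2) _ ?_ ?_
      · intro D hD
        rw [hS2] at hD
        exact hD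
      · intro t ht
        obtain ⟨⟨⟨t1, t2⟩, t3, t4⟩, t5, t6, t7⟩ := (hJmem t).1 ht
        have h2 := hC1 V H X t.2 t.1.1 t.1.2 t1 t2 t5 t3 t6 t7 t4
        have h3 := hC2 V H X t.2 t.1.1 t.1.2 t1 t2 t5 t3 t6 t7 t4
        have h4 : ((TwoSet 8 a b c H X t.2 t.1.1 t.1.2 ∪
            TwoSet 8 a' b' c' H X t.2 t.1.1 t.1.2).ncard : ℝ) ≤
            ((TwoSet 8 a b c H X t.2 t.1.1 t.1.2).ncard : ℝ) +
            ((TwoSet 8 a' b' c' H X t.2 t.1.1 t.1.2).ncard : ℝ) := by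
          exact_mod_cast Set.ncard_union_le _ _
        rw [add_mul]
        linarith
    refine h1.trans (le_trans ?_ (hn₁ X.card hX1))
    have h5 : (C1 * ((X.card : ℝ) + 1) ^ C1 + C2 * (X.card + 1) ^ C2) ≤
        (C1 + C2) * (X.card + 1) ^ (C1 + C2) := by
      have h6 : ((X.card : ℝ) + 1) ^ C1 ≤ (X.card + 1) ^ (C1 + C2) :=
        pow_le_pow_right₀ hn1 (Nat.le_add_right _ _)
      have h7 : ((X.card : ℝ) + 1) ^ C2 ≤ (X.card + 1) ^ (C1 + C2) :=
        pow_le_pow_right₀ hn1 (Nat.le_add_left _ _)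
      have h8 : (0 : ℝ) ≤ C1 := Nat.cast_nonneg _
      have h9 : (0 : ℝ) ≤ C2 := Nat.cast_nonneg _
      rw [add_mul]
      exact add_le_add (mul_le_mul_of_nonneg_left h6 h8) (mul_le_mul_of_nonneg_left h7 h9)
    have h22 : (0 : ℝ) ≤ (22 / 3) ^ X.card := by positivity
    rw [← mul_assoc]
    refine mul_le_mul_of_nonneg_right ?_ h22
    calc (J.card : ℝ) * (C1 * ((X.card : ℝ) + 1) ^ C1 + C2 * (X.card + 1) ^ C2)
        ≤ (4 * ((X.card : ℝ) + 1) ^ 5) * ((C1 + C2) * (X.card + 1) ^ (C1 + C2)) :=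
          mul_le_mul hJc h5 (by positivity) (by positivity)
      _ = (4 * (C1 + C2)) * ((X.card : ℝ) + 1) ^ (C1 + C2 + 5) := by ring
      _ ≤ C * ((X.card : ℝ) + 1) ^ C := by
          refine mul_le_mul ?_ (pow_le_pow_right₀ hn1 (by omega)) (by positivity)
            (Nat.cast_nonneg _)
          rw [hC]
          push_cast
          linarith
  have hb1' : (S1.ncard : ℝ) ≤ β ^ X.card := by
    rw [hS1]
    exact hn V H X hX0
  have h3 : ((S1 ∪ S2).ncard : ℝ) ≤ (S1.ncard : ℝ) + (S2.ncard : ℝ) := by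
    exact_mod_cast Set.ncard_union_le S1 S2
  have h4 : (({D : V → V → Prop | IsOr (res X H) D ∧
      ¬ Packs [.p4 a b c, .p4 a' b' c'] D X ∧
        ∀ W : Finset V, W ⊆ X → W.card = 3 → ¬ MainD a b c D X W}.ncard : ℕ) : ℝ) ≤
      ((S1 ∪ S2).ncard : ℝ) := by
    exact_mod_cast Set.ncard_le_ncard hsub
  have h5 : β ^ X.card ≤ b1 ^ X.card := pow_le_pow_left₀ hβ0.le hb1a _
  have h6 : (15 / 2 : ℝ) ^ X.card ≤ b1 ^ X.card := pow_le_pow_left₀ (by norm_num) hb1b _
  have h7 := hn₂ X.card hX2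
  have h8 : (1 : ℝ) ≤ (X.card + 1) ^ 2 := one_le_pow₀ hn1
  have h9 : (0 : ℝ) ≤ b1 ^ X.card := by
    have : (0 : ℝ) ≤ b1 := by linarith
    positivity
  have h10 : 2 * b1 ^ X.card ≤ ((2 : ℕ) : ℝ) * ((X.card : ℝ) + 1) ^ 2 * b1 ^ X.card := by
    refine mul_le_mul_of_nonneg_right ?_ h9
    push_cast
    linarith
  calc _ ≤ ((S1 ∪ S2).ncard : ℝ) := h4
    _ ≤ (S1.ncard : ℝ) + (S2.ncard : ℝ) := h3
    _ ≤ b1 ^ X.card + b1 ^ X.card := add_le_add (hb1'.trans h5) (hb2.trans h6)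
    _ = 2 * b1 ^ X.card := by ring
    _ ≤ _ := h10
    _ ≤ _ := h7

end MP_0a9719_co
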