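import Mathlib

/-! MP_0a9719_co, module Fam: families of sets and pairs of coordinates.

`fam_three`: let `S1, S2, S3 ∈ P` be distinct. Choose `p` in exactly one of `S1`, `S2`. `S3`
agrees at `p` with exactly one of `S1`, `S2`; say with `S1` (the other case is symmetric).
Choose `q` in exactly one of `S1`, `S3`; `q ≠ p`. The traces of `S1, S3, S2` on `(p, q)` are
distinct: `S1, S3` differ at `q`, `S2` differs from both at `p`.
`fam_five`: take `p, q` from `fam_three`. As `|P| ≥ 5` two distinct members `S, S'` of `P` have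
the same trace on `(p, q)`. Let `r` be in exactly one of `S, S'`; `r ≠ p, q`. On `(p, r)` the
traces of `S`, `S'` agree in `p` and differ in `r`; and some member of `P` differs from `S` at
`p` (three traces on `(p, q)`, so both values occur at `p`); so there are three traces on
`(p, r)`, and likewise on `(q, r)`. -/

namespace MP_0a9719_co

/-- the traces of the family on the pair `(p, q)`. -/
def traces {V : Type*} (P : Set (Set V)) (p q : V) : Set (Bool × Bool) :=
  {c | ∃ S ∈ P, (c.1 = true ↔ p ∈ S) ∧ (c.2 = true ↔ q ∈ S)}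

open Classical in
/-- the trace of a set on a pair. -/
private noncomputable def Fam_t {V : Type*} (p q : V) (S : Set V) : Bool × Bool :=
  (decide (p ∈ S), decide (q ∈ S))

private theorem Fam_mem {V : Type*} {P : Set (Set V)} (p q : V) {S : Set V} (hS : S ∈ P) :
    Fam_t p q S ∈ traces P p q :=
  ⟨S, hS, by simp [Fam_t], by simp [Fam_t]⟩

private theorem Fam_core {V : Type*} {P : Set (Set V)} {p q : V} {S1 S2 S3 : Set V}
    (h1 : S1 ∈ P) (h2 : S2 ∈ P) (h3 : S3 ∈ P) (h12 : ¬ (p ∈ S1 ↔ p ∈ S2))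
    (h13 : p ∈ S1 ↔ p ∈ S3) (hq : ¬ (q ∈ S1 ↔ q ∈ S3)) :
    p ≠ q ∧ 3 ≤ (traces P p q).ncard := by
  constructor
  · rintro rfl
    exact hq h13
  · refine (Set.two_lt_ncard).2 ⟨_, Fam_mem p q h1, _, Fam_mem p q h2, _, Fam_mem p q h3,
      ?_, ?_, ?_⟩
    · intro h
      have h' := congrArg Prod.fst h
      exact h12 (by simpa [Fam_t] using h')
    · intro h
      have h' := congrArg Prod.snd h
      exact hq (by simpa [Fam_t] using h')
    · intro h
      have h' := congrArg Prod.fst h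
      exact h12 (h13.trans (by simpa [Fam_t] using h'.symm))

private theorem Fam_ne {V : Type*} {S S' : Set V} (h : S ≠ S') : ∃ p, ¬ (p ∈ S ↔ p ∈ S') := by
  by_contra h'
  push Not at h'
  exact h (Set.ext h')

theorem fam_three {V : Type*} [Finite V] (P : Set (Set V)) (h : 3 ≤ P.ncard) :
    ∃ p q : V, p ≠ q ∧ 3 ≤ (traces P p q).ncard := by
  obtain ⟨S1, h1, S2, h2, S3, h3, h12, h13, h23⟩ := (Set.two_lt_ncard).1 h
  obtain ⟨p, hp⟩ := Fam_ne h12
  by_cases hc : p ∈ S1 ↔ p ∈ S3
  · obtain ⟨q, hq⟩ := Fam_ne h13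
    exact ⟨p, q, Fam_core h1 h2 h3 hp hc hq⟩
  · obtain ⟨q, hq⟩ := Fam_ne h23
    exact ⟨p, q, Fam_core h2 h1 h3 (fun h => hp h.symm) (by tauto) hq⟩

private theorem Fam_fst {V : Type*} {P : Set (Set V)} {p q : V}
    (h : 3 ≤ (traces P p q).ncard) (S : Set V) : ∃ U ∈ P, ¬ (p ∈ S ↔ p ∈ U) := by
  classical
  by_contra hc
  push Not at hc
  have hsub : traces P p q ⊆ {(decide (p ∈ S), true), (decide (p ∈ S), false)} := by
    rintro ⟨a, b⟩ ⟨U, hU, ha, -⟩
    have h1 : a = decide (p ∈ S) := by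
      have h2 := hc U hU
      rw [Bool.eq_iff_iff]
      simp only [decide_eq_true_eq]
      exact ha.trans h2.symm
    subst h1
    cases b
    · exact Or.inr rfl
    · exact Or.inl rfl
  have h1 := Set.ncard_le_ncard hsub (Set.toFinite _)
  have h2 := Set.ncard_insert_le (decide (p ∈ S), true) {(decide (p ∈ S), false)}
  rw [Set.ncard_singleton] at h2
  omega

private theorem Fam_snd {V : Type*} {P : Set (Set V)} {p q : V}
    (h : 3 ≤ (traces P p q).ncard) (S : Set V) : ∃ U ∈ P, ¬ (q ∈ S ↔ q ∈ U) := by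
  classical
  by_contra hc
  push Not at hc
  have hsub : traces P p q ⊆ {(true, decide (q ∈ S)), (false, decide (q ∈ S))} := by
    rintro ⟨a, b⟩ ⟨U, hU, -, ha⟩
    have h1 : b = decide (q ∈ S) := by
      have h2 := hc U hU
      rw [Bool.eq_iff_iff]
      simp only [decide_eq_true_eq]
      exact ha.trans h2.symm
    subst h1
    cases a
    · exact Or.inr rfl
    · exact Or.inl rfl
  have h1 := Set.ncard_le_ncard hsub (Set.toFinite _)
  have h2 := Set.ncard_insert_le (true, decide (q ∈ S)) {(false, decide (q ∈ S))}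
  rw [Set.ncard_singleton] at h2
  omega

theorem fam_five {V : Type*} [Finite V] (P : Set (Set V)) (h : 5 ≤ P.ncard) :
    ∃ p q r : V, p ≠ q ∧ p ≠ r ∧ q ≠ r ∧ 3 ≤ (traces P p q).ncard ∧
      3 ≤ (traces P p r).ncard ∧ 3 ≤ (traces P q r).ncard := by
  obtain ⟨p, q, hpq, ht⟩ := fam_three P (by omega)
  have hc : (Set.univ : Set (Bool × Bool)).ncard < P.ncard := by
    rw [Set.ncard_univ, Nat.card_eq_fintype_card]
    have : Fintype.card (Bool × Bool) = 4 := rfl
    omega
  obtain ⟨S, hS, S', hS', hne, he⟩ := Set.exists_ne_map_eq_of_ncard_lt_of_maps_to hc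
    (f := Fam_t p q) (fun _ _ => Set.mem_univ _)
  obtain ⟨r, hr⟩ := Fam_ne hne
  have e1 : p ∈ S ↔ p ∈ S' := by
    have h' := congrArg Prod.fst he
    simpa [Fam_t] using h'
  have e2 : q ∈ S ↔ q ∈ S' := by
    have h' := congrArg Prod.snd he
    simpa [Fam_t] using h'
  obtain ⟨U, hU, hpU⟩ := Fam_fst ht S
  obtain ⟨U', hU', hqU⟩ := Fam_snd ht S
  obtain ⟨a1, a2⟩ := Fam_core (q := r) hS hU hS' hpU e1 hr
  obtain ⟨b1, b2⟩ := Fam_core (q := r) hS hU' hS' hqU e2 hr
  exact ⟨p, q, r, hpq, a1, b1, ht, a2, b2⟩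

end MP_0a9719_co
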