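import Mathlib

/-! MP_0a9719_co, module Pat: few functions with few abundant values.

`A` finite set, every `a ∈ A` has a class `y a` in a finite type `T`, functions `φ` from `A` to a
finite type `S`, such that for every class at most `p` values are taken at least `K` times in that class.
The number of such functions is at most `C (|A| + 1)^C p^|A|` with `C` depending only on
`|T|, |S|, p, K` (`p ≥ 1`). Functions are given on the subtype of `A` (or as functions on `α`
which are constant `default` outside `A`; here: functions `α → S` on a finite type `α`, all of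
`α` is used).

Proof. Let `N = K |T| |S|`. Given `φ`, let for every class `y` the set `P_y ⊆ S` consist of the
abundant values (at most `p`), enlarged if necessary; the exceptional elements `a`
(`φ a ∉ P_{y a}`) number at most `N`. Injective encoding: `φ ↦ (y ↦ P_y,` the list of the
exceptional elements with their values (a function `Fin N → Option (α × S)` whose range is the
graph of `φ` on the exceptional set), the index function `α → Fin p` giving the number of
`φ a` in an enumeration of `P_{y a}` (a fixed injection `P_y → Fin p`), `0` at exceptional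
`a`). So the number is at most `(2^|S|)^|T| (|α| |S| + 1)^N p^|α|`, and
`(|α||S| + 1)^N ≤ (|S| + 1)^N (|α| + 1)^N`. Take `C` = the product of the constants plus `N`.
(If `p = 0` there is no room: `p ≥ 1` is assumed so that `Fin p` is nonempty.) -/

namespace MP_0a9719_co

private lemma pat_enum {α : Type} [DecidableEq α] (E : Finset α) {N : ℕ} (hE : E.card ≤ N) :
    ∃ f : Fin N → Option α, ∀ a, a ∈ E ↔ ∃ i, f i = some a := by
  refine ⟨fun i => if h : (i : ℕ) < E.card then some (E.equivFin.symm ⟨i, h⟩ : α) else none,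
    fun a => ⟨fun ha => ?_, ?_⟩⟩
  · refine ⟨⟨(E.equivFin ⟨a, ha⟩ : ℕ), lt_of_lt_of_le (E.equivFin ⟨a, ha⟩).2 hE⟩, ?_⟩
    beta_reduce
    rw [dif_pos (E.equivFin ⟨a, ha⟩).2]
    simp
  · rintro ⟨i, hi⟩
    beta_reduce at hi
    split_ifs at hi with h
    rw [← Option.some.inj hi]
    exact (E.equivFin.symm ⟨i, h⟩).2

private lemma pat_box {α T S : Type} [Fintype α] [Fintype S] [DecidableEq α]
    (y : α → T) (P : T → Finset S) {p N v : ℕ} (hp : 1 ≤ p) (hP : ∀ t, (P t).card ≤ p)
    (hS : Fintype.card S ≤ v) (E : Finset α) (hE : E.card ≤ N) :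
    {φ : α → S | ∀ a, a ∉ E → φ a ∈ P (y a)}.ncard ≤ (v + 1) ^ N * p ^ Fintype.card α := by
  classical
  have h1 : {φ : α → S | ∀ a, a ∉ E → φ a ∈ P (y a)} =
      ((Fintype.piFinset fun a => if a ∈ E then Finset.univ else P (y a) : Finset (α → S)) :
        Set (α → S)) := by
    ext φ
    rw [Finset.mem_coe, Fintype.mem_piFinset]
    constructor
    · intro h a
      split_ifs with ha
      · exact Finset.mem_univ _
      · exact h a ha
    · intro h a ha
      have := h a
      rwa [if_neg ha] at this
  rw [h1, Set.ncard_coe_finset, Fintype.card_piFinset]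
  calc ∏ a, (if a ∈ E then Finset.univ else P (y a)).card
      ≤ ∏ a : α, (if a ∈ E then (v + 1) else 1) * p := by
        refine Finset.prod_le_prod' fun a _ => ?_
        split_ifs with ha
        · rw [Finset.card_univ]
          nlinarith
        · rw [one_mul]
          exact hP _
    _ = (v + 1) ^ E.card * p ^ Fintype.card α := by
        rw [Finset.prod_mul_distrib, Finset.prod_ite_mem, Finset.univ_inter, Finset.prod_const,
          Finset.prod_const, Finset.card_univ]
    _ ≤ (v + 1) ^ N * p ^ Fintype.card α :=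
        Nat.mul_le_mul_right _ (Nat.pow_le_pow_right (by omega) hE)

theorem pat_count (u v p K : ℕ) (hp : 1 ≤ p) :
    ∃ C : ℕ, ∀ (α T S : Type) [Fintype α] [Fintype T] [Fintype S],
      Fintype.card T ≤ u → Fintype.card S ≤ v → ∀ y : α → T,
      {φ : α → S | ∀ t : T, {s : S | K ≤ {a : α | y a = t ∧ φ a = s}.ncard}.ncard ≤ p}.ncard ≤
        C * (Fintype.card α + 1) ^ C * p ^ Fintype.card α := by
  set N := K * (u * v) with hNdef
  refine ⟨(2 ^ v) ^ u * (v + 1) ^ N + N, ?_⟩
  intro α T S _ _ _ hT hS y
  classical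
  set n := Fintype.card α with hn
  set I : Finset ((T → Finset S) × (Fin N → Option α)) :=
    Finset.univ.filter fun q => ∀ t, (q.1 t).card ≤ p with hI
  set Φ := {φ : α → S | ∀ t : T, {s : S | K ≤ {a : α | y a = t ∧ φ a = s}.ncard}.ncard ≤ p}
    with hΦ
  have hcov : Φ ⊆ ⋃ q ∈ I, {φ : α → S | ∀ a, a ∉ (Finset.univ.filter fun a => ∃ i, q.2 i = some a) →
      φ a ∈ q.1 (y a)} := by
    intro φ hφ
    set P : T → Finset S := fun t => Finset.univ.filter fun s =>
      K ≤ {a : α | y a = t ∧ φ a = s}.ncard with hP
    have hPc : ∀ t, (P t).card ≤ p := by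
      intro t
      have h1 := hφ t
      have h2 : {s : S | K ≤ {a : α | y a = t ∧ φ a = s}.ncard} = ((P t : Finset S) : Set S) := by
        ext s
        simp [hP]
      rwa [h2, Set.ncard_coe_finset] at h1
    set E : Finset α := Finset.univ.filter fun a => φ a ∉ P (y a) with hE
    have hEc : E.card ≤ N := by
      have h1 : E.card ≤ K * (Finset.univ : Finset (T × S)).card := by
        refine Finset.card_le_mul_card_image_of_maps_to (f := fun a => (y a, φ a))
          (fun a _ => Finset.mem_univ _) K ?_
        rintro ⟨t, s⟩ -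
        by_cases hs : s ∈ P t
        · have h2 : E.filter (fun a => (y a, φ a) = (t, s)) = ∅ := by
            rw [Finset.filter_eq_empty_iff]
            intro a ha hc
            rw [Prod.mk.injEq] at hc
            apply (Finset.mem_filter.1 ha).2
            rw [hc.1, hc.2]
            exact hs
          rw [h2, Finset.card_empty]
          exact Nat.zero_le _
        · have h2 : ¬ K ≤ {a : α | y a = t ∧ φ a = s}.ncard := by
            intro h
            exact hs (Finset.mem_filter.2 ⟨Finset.mem_univ _, h⟩)
          refine le_trans ?_ (not_le.1 h2).le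
          rw [← Set.ncard_coe_finset]
          refine Set.ncard_le_ncard ?_ (Set.toFinite _)
          intro a ha
          rw [Finset.mem_coe, Finset.mem_filter, Prod.mk.injEq] at ha
          exact ha.2
      refine h1.trans ?_
      rw [Finset.card_univ, Fintype.card_prod]
      exact Nat.mul_le_mul_left _ (Nat.mul_le_mul hT hS)
    rcases pat_enum E hEc with ⟨f, hf⟩
    rw [Set.mem_iUnion₂]
    refine ⟨(P, f), Finset.mem_filter.2 ⟨Finset.mem_univ _, hPc⟩, fun a ha => ?_⟩
    by_contra hcon
    apply ha
    rw [Finset.mem_filter]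
    refine ⟨Finset.mem_univ _, (hf a).1 ?_⟩
    exact Finset.mem_filter.2 ⟨Finset.mem_univ _, hcon⟩
  have hEf : ∀ f : Fin N → Option α,
      (Finset.univ.filter fun a => ∃ i, f i = some a).card ≤ N := by
    intro f
    have h1 : (Finset.univ.filter fun a => ∃ i, f i = some a).image some ⊆
        Finset.univ.image f := by
      intro o ho
      rcases Finset.mem_image.1 ho with ⟨a, ha, rfl⟩
      rcases (Finset.mem_filter.1 ha).2 with ⟨i, hi⟩
      exact Finset.mem_image.2 ⟨i, Finset.mem_univ _, hi⟩
    have h2 := Finset.card_le_card h1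
    rw [Finset.card_image_of_injective _ (Option.some_injective α)] at h2
    refine h2.trans (Finset.card_image_le.trans ?_)
    rw [Finset.card_univ, Fintype.card_fin]
  have h1 : Φ.ncard ≤ ∑ q ∈ I, {φ : α → S | ∀ a,
      a ∉ (Finset.univ.filter fun a => ∃ i, q.2 i = some a) → φ a ∈ q.1 (y a)}.ncard :=
    (Set.ncard_le_ncard hcov (Set.toFinite _)).trans (Finset.set_ncard_biUnion_le _ _)
  have h2 : ∑ q ∈ I, {φ : α → S | ∀ a,
      a ∉ (Finset.univ.filter fun a => ∃ i, q.2 i = some a) → φ a ∈ q.1 (y a)}.ncard ≤
      I.card * ((v + 1) ^ N * p ^ n) := by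
    rw [← smul_eq_mul]
    refine Finset.sum_le_card_nsmul _ _ _ fun q hq => ?_
    exact pat_box y q.1 hp (Finset.mem_filter.1 hq).2 hS _ (hEf q.2)
  have h3 : I.card ≤ (2 ^ v) ^ u * (n + 1) ^ N := by
    refine (Finset.card_le_univ I).trans ?_
    rw [Fintype.card_prod, Fintype.card_fun, Fintype.card_fun, Fintype.card_finset,
      Fintype.card_option, Fintype.card_fin]
    refine Nat.mul_le_mul_right _ ?_
    refine le_trans (Nat.pow_le_pow_left (Nat.pow_le_pow_right (by omega) hS) _) ?_
    exact Nat.pow_le_pow_right (Nat.pos_of_ne_zero (by positivity)) hT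
  have h4 : (n + 1) ^ N ≤ (n + 1) ^ ((2 ^ v) ^ u * (v + 1) ^ N + N) :=
    Nat.pow_le_pow_right (by omega) (by omega)
  calc Φ.ncard ≤ I.card * ((v + 1) ^ N * p ^ n) := h1.trans h2
    _ ≤ ((2 ^ v) ^ u * (n + 1) ^ N) * ((v + 1) ^ N * p ^ n) := Nat.mul_le_mul_right _ h3
    _ = ((2 ^ v) ^ u * (v + 1) ^ N) * (n + 1) ^ N * p ^ n := by ring
    _ ≤ ((2 ^ v) ^ u * (v + 1) ^ N + N) * (n + 1) ^ ((2 ^ v) ^ u * (v + 1) ^ N + N) * p ^ n :=
        Nat.mul_le_mul_right _ (Nat.mul_le_mul (by omega) h4)

end MP_0a9719_co
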