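import Pool.Agent.Lib.MP_0a9719_co.FibOr
import Pool.Agent.Lib.MP_0a9719_co.Fam
import Pool.Agent.Lib.MP_0a9719_co.Pat

/-! MP_0a9719_co, module Cfg: number of ways to direct the edges at a bounded set `Z`.

`cfg_atMost`: on the set of `D` with `IsOr (res X H) D` and `AtMost p K H D X Z`, `Z ⊆ X`, the map
`D ↦ (rr Z D, rr (X \ Z) D, (x ∈ X \ Z ↦ {z ∈ Z | D z x}))` is injective. There are at most
`2^(z^2)` values of `rr Z D`, and by `pat_count` (with `α` the subtype of `X \ Z`, `T` and `S`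
the subsets of `Z`, `2^z` each, `y x = {z ∈ Z | H.Adj z x}`) at most `C (n+1)^C p^n` values of
the last component (`p ≥ 1`, so `p^|X \ Z| ≤ p^n`).
`atMost_two`: if no pair of vertices of `X` is good then `AtMost 2 K`: if for some `Y` three
sets `S` are realised at least `K` times each (`K ≥ 1`), `fam_three` gives `p ≠ q` in `V` with three
traces; `p` and `q` lie in `Y` (they lie in some `S`, and a realised `S` is contained in `Y`, since
`D z x` implies `H.Adj z x`), and every trace is realised by at least `K` vertices `x ∈ X \ Z`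
adjacent to `p` and `q`: `p ∈ S` means `D p x = arc true D p x`, `p ∉ S`
means `D x p = arc false D p x`. So `GoodPair K D X p q`.
`cfg_pure`: every `z ∈ Z` has fewer than `K` in-neighbours or fewer than `K` out-neighbours in
`X`: `D` is determined by `rr (X \ Z) D` and, for every `z ∈ Z`, a bit and the smaller
one of the two sets: at most `(2 (n+1)^K)^|Z|` (`few_subsets`). -/

namespace MP_0a9719_co

private theorem Cfg_one {V : Type*} [Finite V] {P : Set (Set V)} {p q : V}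
    (h : 3 ≤ (traces P p q).ncard) : ∃ S ∈ P, p ∈ S := by
  by_contra hc
  push Not at hc
  have hsub : traces P p q ⊆ {(false, true), (false, false)} := by
    rintro ⟨a, b⟩ ⟨U, hU, ha, -⟩
    have h1 : a = false := by
      cases a
      · rfl
      · exact absurd (ha.1 rfl) (hc U hU)
    subst h1
    cases b
    · exact Or.inr rfl
    · exact Or.inl rfl
  have h1 := Set.ncard_le_ncard hsub (Set.toFinite _)
  have h2 := Set.ncard_insert_le ((false, true) : Bool × Bool) {(false, false)}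
  rw [Set.ncard_singleton] at h2
  omega

private theorem Cfg_two {V : Type*} [Finite V] {P : Set (Set V)} {p q : V}
    (h : 3 ≤ (traces P p q).ncard) : ∃ S ∈ P, q ∈ S := by
  by_contra hc
  push Not at hc
  have hsub : traces P p q ⊆ {(true, false), (false, false)} := by
    rintro ⟨a, b⟩ ⟨U, hU, -, ha⟩
    have h1 : b = false := by
      cases b
      · rfl
      · exact absurd (ha.1 rfl) (hc U hU)
    subst h1
    cases a
    · exact Or.inr rfl
    · exact Or.inl rfl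
  have h1 := Set.ncard_le_ncard hsub (Set.toFinite _)
  have h2 := Set.ncard_insert_le ((true, false) : Bool × Bool) {(false, false)}
  rw [Set.ncard_singleton] at h2
  omega

private theorem Cfg_arc {V : Type*} {H : SimpleGraph V} {X Z : Finset V} {D : V → V → Prop}
    (hD : IsOr (res X H) D) {Y S : Set V} {p x : V} (hpZ : p ∈ Z) (hpX : p ∈ X) (hpY : p ∈ Y)
    (hx : x ∈ X) (hY : {z | z ∈ Z ∧ H.Adj z x} = Y) (hS : {z | z ∈ Z ∧ D z x} = S) (b : Bool)
    (hb : b = true ↔ p ∈ S) : arc b D p x := by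
  cases b
  · have h1 : p ∉ S := fun h => absurd (hb.2 h) (by simp)
    rw [← hY] at hpY
    rcases isOr_adj hD hpX hx hpY.2 with h2 | h2
    · exact absurd (hS ▸ (⟨hpZ, h2⟩ : p ∈ {z | z ∈ Z ∧ D z x})) h1
    · exact h2
  · have h1 : p ∈ S := hb.1 rfl
    rw [← hS] at h1
    exact h1.2

private theorem Cfg_good {V : Type*} [Finite V] {K : ℕ} (hK : 1 ≤ K) {H : SimpleGraph V}
    {X Z : Finset V} (hZ : Z ⊆ X) {D : V → V → Prop} (hD : IsOr (res X H) D) (Y : Set V)
    {p q : V} (h : 3 ≤ (traces {S : Set V | K ≤ {x | x ∈ X ∧ x ∉ Z ∧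
      {z | z ∈ Z ∧ H.Adj z x} = Y ∧ {z | z ∈ Z ∧ D z x} = S}.ncard} p q).ncard) :
    p ∈ X ∧ q ∈ X ∧ GoodPair K D X p q := by
  have key : ∀ S : Set V, K ≤ {x | x ∈ X ∧ x ∉ Z ∧
      {z | z ∈ Z ∧ H.Adj z x} = Y ∧ {z | z ∈ Z ∧ D z x} = S}.ncard → ∀ z ∈ S, z ∈ Z ∧ z ∈ Y := by
    intro S hS z hz
    have h1 : ({x | x ∈ X ∧ x ∉ Z ∧
      {z | z ∈ Z ∧ H.Adj z x} = Y ∧ {z | z ∈ Z ∧ D z x} = S} : Set V).Nonempty := by
      rw [← Set.ncard_pos (Set.toFinite _)]
      omega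
    obtain ⟨x, hx, hxZ, hxY, hxS⟩ := h1
    rw [← hxS] at hz
    refine ⟨hz.1, ?_⟩
    rw [← hxY]
    exact ⟨hz.1, (isOr_mem hD hz.2).2.2.1⟩
  obtain ⟨S1, hS1, hp⟩ := Cfg_one h
  obtain ⟨S2, hS2, hq⟩ := Cfg_two h
  obtain ⟨hpZ, hpY⟩ := key S1 hS1 p hp
  obtain ⟨hqZ, hqY⟩ := key S2 hS2 q hq
  refine ⟨hZ hpZ, hZ hqZ, ?_⟩
  refine h.trans (Set.ncard_le_ncard ?_ (Set.toFinite _))
  rintro c ⟨S, hS, h1, h2⟩
  refine le_trans hS (Set.ncard_le_ncard ?_ (Set.toFinite _))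
  rintro x ⟨hx, hxZ, hxY, hxS⟩
  exact ⟨hx, fun e => hxZ (e ▸ hpZ), fun e => hxZ (e ▸ hqZ),
    Cfg_arc hD hpZ (hZ hpZ) hpY hx hxY hxS c.1 h1, Cfg_arc hD hqZ (hZ hqZ) hqY hx hxY hxS c.2 h2⟩

private theorem Cfg_symm {V : Type*} [Finite V] {K : ℕ} {X : Finset V} {D : V → V → Prop}
    {p q : V} (h : GoodPair K D X p q) : GoodPair K D X q p := by
  have h1 : Prod.swap '' {c : Bool × Bool | K ≤ {x | x ∈ X ∧ x ≠ p ∧ x ≠ q ∧ arc c.1 D p x ∧
      arc c.2 D q x}.ncard} ⊆ {c : Bool × Bool | K ≤ {x | x ∈ X ∧ x ≠ q ∧ x ≠ p ∧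
      arc c.1 D q x ∧ arc c.2 D p x}.ncard} := by
    rintro _ ⟨c, hc, rfl⟩
    refine le_trans hc (Set.ncard_le_ncard ?_ (Set.toFinite _))
    rintro x ⟨h1, h2, h3, h4, h5⟩
    exact ⟨h1, h3, h2, h5, h4⟩
  have h2 := Set.ncard_le_ncard h1 (Set.toFinite _)
  rw [Set.ncard_image_of_injective _ Prod.swap_injective] at h2
  exact h.trans h2

private theorem Cfg_pureS (K : ℕ) {V : Type*} [Fintype V] [DecidableEq V] (H : SimpleGraph V)
    (m : ℕ) : ∀ (k : ℕ) (X Z : Finset V) (E : V → V → Prop), Z ⊆ X → Z.card = k →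
      X.card ≤ m → {D : V → V → Prop | IsOr (res X H) D ∧
        (∀ v ∈ X, ¬ (K ≤ ideg D X v ∧ K ≤ odeg D X v)) ∧ rr (X \ Z) D = E}.ncard ≤
        (2 * (m + 1) ^ K) ^ k := by
  intro k
  induction k with
  | zero =>
    intro X Z E hZ hk hm
    have hZ0 : Z = ∅ := Finset.card_eq_zero.1 hk
    subst hZ0
    have h1 : {D : V → V → Prop | IsOr (res X H) D ∧
        (∀ v ∈ X, ¬ (K ≤ ideg D X v ∧ K ≤ odeg D X v)) ∧ rr (X \ ∅) D = E} ⊆ {E} := by
      rintro D ⟨hD, -, hE⟩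
      rw [Finset.sdiff_empty, rr_self hD] at hE
      exact hE
    have h2 := Set.ncard_le_ncard h1 (Set.toFinite _)
    rw [Set.ncard_singleton] at h2
    simpa using h2
  | succ k ih =>
    intro X Z E hZ hk hm
    obtain ⟨v, hv⟩ : Z.Nonempty := Finset.card_pos.1 (by omega)
    have hvX : v ∈ X := hZ hv
    have hs : X.erase v \ Z.erase v = X \ Z := by
      ext x
      simp only [Finset.mem_sdiff, Finset.mem_erase]
      constructor
      · rintro ⟨⟨h1, h2⟩, h3⟩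
        exact ⟨h2, fun h4 => h3 ⟨h1, h4⟩⟩
      · rintro ⟨h1, h2⟩
        exact ⟨⟨fun h3 => h2 (h3 ▸ hv), h1⟩, fun h3 => h2 h3.2⟩
    have hsub : X \ Z ⊆ X.erase v := by
      rw [← hs]
      exact Finset.sdiff_subset
    refine (fiber_le _ {D : V → V → Prop | IsOr (res (X.erase v) H) D ∧
        (∀ w ∈ X.erase v, ¬ (K ≤ ideg D (X.erase v) w ∧ K ≤ odeg D (X.erase v) w)) ∧
        rr (X.erase v \ Z.erase v) D = E} (rr (X.erase v)) (2 * (m + 1) ^ K) ?_ ?_).trans ?_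
    · rintro D ⟨hD, hp, hE⟩
      refine ⟨isOr_rr hD (Finset.erase_subset v X), ?_, ?_⟩
      · intro w hw h1
        rw [ideg_rr D (Finset.Subset.refl _) hw, odeg_rr D (Finset.Subset.refl _) hw] at h1
        exact hp w (Finset.mem_of_mem_erase hw)
          ⟨h1.1.trans (ideg_mono D (Finset.erase_subset v X) w),
            h1.2.trans (odeg_mono D (Finset.erase_subset v X) w)⟩
      · rw [hs, rr_rr D hsub]
        exact hE
    · rintro D' -
      refine le_trans (le_trans (Set.ncard_le_ncard ?_ (Set.toFinite _))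
        (fiber_pure H hvX K D')) ?_
      · rintro D ⟨⟨hD, hp, -⟩, hD'⟩
        exact ⟨hD, hp v hvX, hD'⟩
      · gcongr
    · rw [pow_succ, mul_comm]
      refine Nat.mul_le_mul_right _ (ih (X.erase v) (Z.erase v) E
        (Finset.erase_subset_erase v hZ) ?_ ?_)
      · rw [Finset.card_erase_of_mem hv]
        omega
      · exact (Finset.card_le_card (Finset.erase_subset v X)).trans hm

private theorem Cfg_maps {V : Type} [Fintype V] [DecidableEq V] (p K : ℕ) (H : SimpleGraph V)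
    (X Z : Finset V) (D : V → V → Prop) (h : AtMost p K H D X Z) (t : Set Z) :
    {s : Set Z | K ≤ {a : (X \ Z : Finset V) | ({z : Z | H.Adj z a} : Set Z) = t ∧
      ({z : Z | D z a} : Set Z) = s}.ncard}.ncard ≤ p := by
  have hv : Function.Injective (fun s : Set Z => (Subtype.val '' s : Set V)) :=
    Set.image_injective.2 Subtype.val_injective
  refine le_trans ?_ (h (Subtype.val '' t))
  rw [← Set.ncard_image_of_injective _ hv]
  refine Set.ncard_le_ncard ?_ (Set.toFinite _)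
  rintro _ ⟨s, hs, rfl⟩
  have hs1 : K ≤ {a : (X \ Z : Finset V) | ({z : Z | H.Adj z a} : Set Z) = t ∧
      ({z : Z | D z a} : Set Z) = s}.ncard := hs
  refine le_trans hs1 ?_
  rw [← Set.ncard_image_of_injective _ (Subtype.val_injective (p := fun x => x ∈ X \ Z))]
  refine Set.ncard_le_ncard ?_ (Set.toFinite _)
  rintro _ ⟨a, ⟨h1, h2⟩, rfl⟩
  have ha := Finset.mem_sdiff.1 a.2
  refine ⟨ha.1, ha.2, ?_, ?_⟩
  · rw [← h1]
    ext z
    constructor
    · rintro ⟨hz, hz2⟩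
      exact ⟨⟨z, hz⟩, hz2, rfl⟩
    · rintro ⟨z', hz', rfl⟩
      exact ⟨z'.2, hz'⟩
  · simp only
    rw [← h2]
    ext z
    constructor
    · rintro ⟨hz, hz2⟩
      exact ⟨⟨z, hz⟩, hz2, rfl⟩
    · rintro ⟨z', hz', rfl⟩
      exact ⟨z'.2, hz'⟩

private theorem Cfg_inj {V : Type} [Fintype V] [DecidableEq V] (H : SimpleGraph V)
    (X Z : Finset V) {D D₂ : V → V → Prop} (hD : IsOr (res X H) D)
    (hD₂ : IsOr (res X H) D₂) (hE : rr (X \ Z) D = rr (X \ Z) D₂)
    (h1 : ({c : Z × Z | D c.1 c.2} : Set (Z × Z)) = {c : Z × Z | D₂ c.1 c.2})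
    (h2 : (fun a : (X \ Z : Finset V) => ({z : Z | D z a} : Set Z)) =
      fun a : (X \ Z : Finset V) => ({z : Z | D₂ z a} : Set Z)) : D = D₂ := by
  have k1 : ∀ z ∈ Z, ∀ x ∈ X \ Z, (D z x ↔ D₂ z x) := by
    intro z hz x hx
    have h3 := Set.ext_iff.1 (congrFun h2 ⟨x, hx⟩) ⟨z, hz⟩
    exact h3
  funext a b
  apply propext
  by_cases ha : a ∈ X
  · by_cases hb : b ∈ X
    · by_cases haZ : a ∈ Z
      · by_cases hbZ : b ∈ Z
        · have h3 := Set.ext_iff.1 h1 (⟨a, haZ⟩, ⟨b, hbZ⟩)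
          exact h3
        · exact k1 a haZ b (Finset.mem_sdiff.2 ⟨hb, hbZ⟩)
      · have ha' := Finset.mem_sdiff.2 ⟨ha, haZ⟩
        by_cases hbZ : b ∈ Z
        · have h3 := k1 b hbZ a ha'
          constructor
          · intro h4
            have h5 := (hD a b).1.2 (Or.inl h4)
            rcases (hD₂ a b).1.1 h5 with h6 | h6
            · exact h6
            · exact absurd ⟨h4, h3.2 h6⟩ (hD a b).2
          · intro h4
            have h5 := (hD₂ a b).1.2 (Or.inl h4)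
            rcases (hD a b).1.1 h5 with h6 | h6
            · exact h6
            · exact absurd ⟨h4, h3.1 h6⟩ (hD₂ a b).2
        · have hb' := Finset.mem_sdiff.2 ⟨hb, hbZ⟩
          have h3 := congrFun (congrFun hE a) b
          simp only [rr, ha', hb', and_self, and_true] at h3
          exact Iff.of_eq h3
    · exact ⟨fun h => absurd (isOr_mem hD h).2.1 hb, fun h => absurd (isOr_mem hD₂ h).2.1 hb⟩
  · exact ⟨fun h => absurd (isOr_mem hD h).1 ha, fun h => absurd (isOr_mem hD₂ h).1 ha⟩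

private theorem Cfg_arith (A C n n' p : ℕ) (hn : n' ≤ n) (hp : 1 ≤ p) :
    A * (C * (n' + 1) ^ C * p ^ n') ≤ (A * C + C) * (n + 1) ^ (A * C + C) * p ^ n := by
  have h1 : (n' + 1) ^ C ≤ (n + 1) ^ (A * C + C) :=
    (Nat.pow_le_pow_left (by omega) C).trans
      (Nat.pow_le_pow_right (by omega) (Nat.le_add_left _ _))
  have h2 : p ^ n' ≤ p ^ n := Nat.pow_le_pow_right hp hn
  calc A * (C * (n' + 1) ^ C * p ^ n') = (A * C) * (n' + 1) ^ C * p ^ n' := by ring
    _ ≤ (A * C + C) * (n + 1) ^ (A * C + C) * p ^ n := by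
        gcongr
        exact Nat.le_add_right _ _

theorem cfg_atMost (z p K : ℕ) (hp : 1 ≤ p) :
    ∃ C : ℕ, ∀ (V : Type) [Fintype V] [DecidableEq V] (H : SimpleGraph V) (X Z : Finset V)
      (E : V → V → Prop), Z ⊆ X → Z.card ≤ z →
      {D : V → V → Prop | IsOr (res X H) D ∧ AtMost p K H D X Z ∧ rr (X \ Z) D = E}.ncard ≤
        C * (X.card + 1) ^ C * p ^ X.card := by
  obtain ⟨C, hC⟩ := pat_count (2 ^ z) (2 ^ z) p K hp
  refine ⟨2 ^ (z * z) * C + C, ?_⟩
  intro V _ _ H X Z E hZ hz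
  have hcZ : Fintype.card (Set Z) ≤ 2 ^ z := by
    rw [Fintype.card_set, Fintype.card_coe]
    exact Nat.pow_le_pow_right (by omega) hz
  have hcT := hC (X \ Z : Finset V) (Set Z) (Set Z) hcZ hcZ (fun a => {z : Z | H.Adj z a})
  have h1 : {D : V → V → Prop | IsOr (res X H) D ∧ AtMost p K H D X Z ∧
      rr (X \ Z) D = E}.ncard ≤ ((Set.univ : Set (Set (Z × Z))) ×ˢ
        {φ : (X \ Z : Finset V) → Set Z | ∀ t : Set Z, {s : Set Z |
          K ≤ {a : (X \ Z : Finset V) | ({z : Z | H.Adj z a} : Set Z) = t ∧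
            φ a = s}.ncard}.ncard ≤ p}).ncard := by
    refine inj_le _ _ (fun D => ({c : Z × Z | D c.1 c.2}, fun a => {z : Z | D z a})) ?_ ?_
    · rintro D ⟨-, hA, -⟩
      exact ⟨Set.mem_univ _, fun t => Cfg_maps p K H X Z D hA t⟩
    · rintro D ⟨hD, -, hE⟩ D₂ ⟨hD₂, -, hE₂⟩ heq
      exact Cfg_inj H X Z hD hD₂ (hE.trans hE₂.symm) (congrArg Prod.fst heq)
        (congrArg Prod.snd heq)
  rw [Set.ncard_prod, Set.ncard_univ, Nat.card_eq_fintype_card, Fintype.card_set,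
    Fintype.card_prod, Fintype.card_coe] at h1
  have h2 : 2 ^ (Z.card * Z.card) ≤ 2 ^ (z * z) :=
    Nat.pow_le_pow_right (by omega) (Nat.mul_le_mul hz hz)
  have h3 : Fintype.card (X \ Z : Finset V) ≤ X.card := by
    rw [Fintype.card_coe]
    exact Finset.card_le_card Finset.sdiff_subset
  exact (h1.trans (Nat.mul_le_mul h2 hcT)).trans (Cfg_arith _ C _ _ p h3 hp)

theorem atMost_two {V : Type} [Fintype V] [DecidableEq V] (K : ℕ) (hK : 1 ≤ K)
    (H : SimpleGraph V) (X Z : Finset V) (hZ : Z ⊆ X) (D : V → V → Prop)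
    (hD : IsOr (res X H) D) (h : ∀ v ∈ X, ∀ w ∈ X, v ≠ w → ¬ GoodPair K D X v w) :
    AtMost 2 K H D X Z := by
  intro Y
  by_contra hc
  obtain ⟨p, q, hpq, ht⟩ := fam_three _ (not_le.1 hc)
  obtain ⟨hp, hq, hg⟩ := Cfg_good hK hZ hD Y ht
  exact h p hp q hq hpq hg

theorem atMost_four {V : Type} [Fintype V] [DecidableEq V] (K : ℕ) (hK : 1 ≤ K)
    (H : SimpleGraph V) (X Z : Finset V) (hZ : Z ⊆ X) (D : V → V → Prop)
    (hD : IsOr (res X H) D)
    (h : ∀ W : Finset V, W ⊆ X → W.card = 3 →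
      ¬ ∀ v ∈ W, ∀ w ∈ W, v ≠ w → GoodPair K D X v w) :
    AtMost 4 K H D X Z := by
  intro Y
  by_contra hc
  obtain ⟨p, q, r, hpq, hpr, hqr, h1, h2, h3⟩ := fam_five _ (not_le.1 hc)
  obtain ⟨hp, hq, g1⟩ := Cfg_good hK hZ hD Y h1
  obtain ⟨-, hr, g2⟩ := Cfg_good hK hZ hD Y h2
  obtain ⟨-, -, g3⟩ := Cfg_good hK hZ hD Y h3
  refine h {p, q, r} ?_ ?_ ?_
  · intro x hx
    simp only [Finset.mem_insert, Finset.mem_singleton] at hx
    rcases hx with rfl | rfl | rfl
    · exact hp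
    · exact hq
    · exact hr
  · exact Finset.card_eq_three.2 ⟨p, q, r, hpq, hpr, hqr, rfl⟩
  · intro v hv w hw hvw
    simp only [Finset.mem_insert, Finset.mem_singleton] at hv hw
    rcases hv with rfl | rfl | rfl <;> rcases hw with rfl | rfl | rfl
    · exact absurd rfl hvw
    · exact g1
    · exact g2
    · exact Cfg_symm g1
    · exact absurd rfl hvw
    · exact g3
    · exact Cfg_symm g2
    · exact Cfg_symm g3
    · exact absurd rfl hvw

theorem cfg_pure (z K : ℕ) :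
    ∃ C : ℕ, ∀ (V : Type) [Fintype V] [DecidableEq V] (H : SimpleGraph V) (X Z : Finset V)
      (E : V → V → Prop), Z ⊆ X → Z.card ≤ z →
      {D : V → V → Prop | IsOr (res X H) D ∧
        (∀ v ∈ X, ¬ (K ≤ ideg D X v ∧ K ≤ odeg D X v)) ∧ rr (X \ Z) D = E}.ncard ≤
        C * (X.card + 1) ^ C := by
  refine ⟨2 ^ z + K * z, ?_⟩
  intro V _ _ H X Z E hZ hz
  refine (Cfg_pureS K H X.card Z.card X Z E hZ rfl le_rfl).trans ?_
  calc (2 * (X.card + 1) ^ K) ^ Z.card ≤ (2 * (X.card + 1) ^ K) ^ z :=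
        Nat.pow_le_pow_right (Nat.mul_pos (by omega) (Nat.pow_pos (by omega))) hz
    _ = 2 ^ z * (X.card + 1) ^ (K * z) := by rw [mul_pow, ← pow_mul]
    _ ≤ (2 ^ z + K * z) * (X.card + 1) ^ (2 ^ z + K * z) :=
        Nat.mul_le_mul (Nat.le_add_right _ _)
          (Nat.pow_le_pow_right (by omega) (Nat.le_add_left _ _))

end MP_0a9719_co
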