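import Pool.Agent.Lib.MP_0a9719_co.Work

/-! MP_0a9719_co, module Pack: elementary facts about `Packs`. All by induction on the list.

`packs_small`: take `U` the union of the copies. `packs_perm`: induction on `List.Perm` (swap:
the two copies are disjoint, `X \ Q \ Q' = X \ Q' \ Q`). `packs_cover`: a copy of a star
contains an arc, whose ends lie in `X`, so one of them is in `Y`; a copy of `p4` contains two
disjoint arcs `x0 x1` and `x2 x3`, so at least two elements of `Y`; then
`|Y ∩ (X \ Q)| ≤ |Y| - tau`. `greedy`: if there is no copy of `T` in `X` we are done. Otherwise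
remove a copy `Q` of `T` (`|Q| ≤ 4`); `Packs L D (X \ Q)` is false; induct on `L` (in the
conclusion for `L = T₁ :: L₁` the first alternative gives `X₀ = Q`, the second `X₀ = Q ∪ X₀'`).
`L = []`: impossible,
`Packs [] = True`. -/

namespace MP_0a9719_co

variable {V : Type*} [DecidableEq V]

theorem isCopy_card (T : Shape) (hT : T.Valid) (D : V → V → Prop) (Q : Finset V)
    (h : IsCopy T D Q) : Q.card ≤ 4 := by
  cases T with
  | star i o =>
    obtain ⟨c, I, O, -, -, -, hI, hO, -, -, rfl⟩ := h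
    have h1 := Finset.card_insert_le c (I ∪ O)
    have h2 := Finset.card_union_le I O
    have h3 : 1 ≤ i + o ∧ i + o ≤ 3 := hT
    omega
  | p4 a b c =>
    obtain ⟨x0, x1, x2, x3, -, -, -, -, -, -, -, -, -, rfl⟩ := h
    exact Finset.card_le_four

theorem packs_mono (L : List Shape) (D : V → V → Prop) {X X' : Finset V} (hX : X ⊆ X')
    (h : Packs L D X) : Packs L D X' := by
  induction L generalizing X X' with
  | nil => trivial
  | cons T L ih =>
    obtain ⟨Q, hQ, hc, hp⟩ := h
    exact ⟨Q, hQ.trans hX, hc, ih (Finset.sdiff_subset_sdiff hX (Finset.Subset.refl Q)) hp⟩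

theorem packs_small (L : List Shape) (hL : ∀ T ∈ L, T.Valid) (D : V → V → Prop)
    (X : Finset V) (h : Packs L D X) :
    ∃ U : Finset V, U ⊆ X ∧ U.card ≤ 4 * L.length ∧ Packs L D U := by
  induction L generalizing X with
  | nil => exact ⟨∅, Finset.empty_subset _, by simp, trivial⟩
  | cons T L ih =>
    obtain ⟨Q, hQ, hc, hp⟩ := h
    obtain ⟨U, hU, hUc, hUp⟩ := ih (fun T' hT' => hL T' (List.mem_cons_of_mem _ hT')) _ hp
    refine ⟨Q ∪ U, Finset.union_subset hQ (hU.trans Finset.sdiff_subset), ?_, Q,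
      Finset.subset_union_left, hc, packs_mono L D ?_ hUp⟩
    · have h1 := Finset.card_union_le Q U
      have h2 := isCopy_card T (hL T List.mem_cons_self) D Q hc
      rw [List.length_cons]
      omega
    · intro x hx
      exact Finset.mem_sdiff.2 ⟨Finset.mem_union_right _ hx, (Finset.mem_sdiff.1 (hU hx)).2⟩

theorem packs_perm {L L' : List Shape} (h : L.Perm L') (D : V → V → Prop) (X : Finset V) :
    Packs L D X ↔ Packs L' D X := by
  induction h generalizing X with
  | nil => exact Iff.rfl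
  | cons T _ ih =>
    exact exists_congr fun Q => and_congr_right fun _ => and_congr_right fun _ => ih _
  | swap T T' L =>
    constructor
    · rintro ⟨Q, hQ, hc, Q', hQ', hc', hp⟩
      refine ⟨Q', hQ'.trans Finset.sdiff_subset, hc', Q, ?_, hc, ?_⟩
      · intro x hx
        exact Finset.mem_sdiff.2 ⟨hQ hx, fun h => (Finset.mem_sdiff.1 (hQ' h)).2 hx⟩
      · rw [sdiff_right_comm]
        exact hp
    · rintro ⟨Q, hQ, hc, Q', hQ', hc', hp⟩
      refine ⟨Q', hQ'.trans Finset.sdiff_subset, hc', Q, ?_, hc, ?_⟩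
      · intro x hx
        exact Finset.mem_sdiff.2 ⟨hQ hx, fun h => (Finset.mem_sdiff.1 (hQ' h)).2 hx⟩
      · rw [sdiff_right_comm]
        exact hp
  | trans _ _ ih ih' => exact (ih X).trans (ih' X)

/-- a set meeting all arcs inside `X` has at least `∑ tau` elements. -/
theorem packs_cover (L : List Shape) (hL : ∀ T ∈ L, T.Valid) (D : V → V → Prop)
    (X Y : Finset V) (hY : ∀ u ∈ X, ∀ v ∈ X, D u v → u ∈ Y ∨ v ∈ Y) (hirr : ∀ u, ¬ D u u)
    (h : Packs L D X) : (L.map Shape.tau).sum ≤ Y.card := by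
  induction L generalizing X Y with
  | nil => simp
  | cons T L ih =>
    obtain ⟨Q, hQ, hc, hp⟩ := h
    have h1 := ih (fun T' hT' => hL T' (List.mem_cons_of_mem _ hT')) (X \ Q) (Y \ Q)
      (fun u hu v hv huv => by
        obtain ⟨hu1, hu2⟩ := Finset.mem_sdiff.1 hu
        obtain ⟨hv1, hv2⟩ := Finset.mem_sdiff.1 hv
        exact (hY u hu1 v hv1 huv).imp (fun h => Finset.mem_sdiff.2 ⟨h, hu2⟩)
          (fun h => Finset.mem_sdiff.2 ⟨h, hv2⟩)) hp
    have h2 : T.tau ≤ (Y ∩ Q).card := by
      have hT := hL T List.mem_cons_self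
      cases T with
      | star i o =>
        obtain ⟨c, I, O, -, -, -, hI, hO, hDI, hDO, rfl⟩ := hc
        have h3 : 1 ≤ i + o ∧ i + o ≤ 3 := hT
        have hcX : c ∈ X := hQ (Finset.mem_insert_self _ _)
        have h4 : (I ∪ O).Nonempty := by
          rw [Finset.nonempty_iff_ne_empty]
          intro h5
          rw [Finset.union_eq_empty] at h5
          rw [h5.1] at hI
          rw [h5.2] at hO
          simp only [Finset.card_empty] at hI hO
          omega
        obtain ⟨x, hx⟩ := h4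
        have hxQ : x ∈ insert c (I ∪ O) := Finset.mem_insert_of_mem hx
        have h5 : x ∈ Y ∨ c ∈ Y := by
          rcases Finset.mem_union.1 hx with hx | hx
          · exact hY x (hQ hxQ) c hcX (hDI x hx)
          · exact (hY c hcX x (hQ hxQ) (hDO x hx)).symm
        change 1 ≤ _
        rw [Nat.one_le_iff_ne_zero, Finset.card_ne_zero]
        rcases h5 with h5 | h5
        · exact ⟨x, Finset.mem_inter.2 ⟨h5, hxQ⟩⟩
        · exact ⟨c, Finset.mem_inter.2 ⟨h5, Finset.mem_insert_self _ _⟩⟩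
      | p4 a b c =>
        obtain ⟨x0, x1, x2, x3, n01, n02, n03, n12, n13, n23, ha, hb, hd, rfl⟩ := hc
        have m0 : x0 ∈ ({x0, x1, x2, x3} : Finset V) := by simp
        have m1 : x1 ∈ ({x0, x1, x2, x3} : Finset V) := by simp
        have m2 : x2 ∈ ({x0, x1, x2, x3} : Finset V) := by simp
        have m3 : x3 ∈ ({x0, x1, x2, x3} : Finset V) := by simp
        have harc : ∀ (e : Bool) (u v : V), u ∈ X → v ∈ X → arc e D u v → u ∈ Y ∨ v ∈ Y := by
          intro e u v hu hv he
          cases e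
          · exact (hY v hv u hu he).symm
          · exact hY u hu v hv he
        have h5 := harc a x0 x1 (hQ m0) (hQ m1) ha
        have h6 := harc c x2 x3 (hQ m2) (hQ m3) hd
        have h7 : ∃ y y' : V, y ≠ y' ∧ y ∈ Y ∩ {x0, x1, x2, x3} ∧
            y' ∈ Y ∩ {x0, x1, x2, x3} := by
          rcases h5 with h5 | h5 <;> rcases h6 with h6 | h6
          · exact ⟨x0, x2, n02, Finset.mem_inter.2 ⟨h5, m0⟩, Finset.mem_inter.2 ⟨h6, m2⟩⟩
          · exact ⟨x0, x3, n03, Finset.mem_inter.2 ⟨h5, m0⟩, Finset.mem_inter.2 ⟨h6, m3⟩⟩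
          · exact ⟨x1, x2, n12, Finset.mem_inter.2 ⟨h5, m1⟩, Finset.mem_inter.2 ⟨h6, m2⟩⟩
          · exact ⟨x1, x3, n13, Finset.mem_inter.2 ⟨h5, m1⟩, Finset.mem_inter.2 ⟨h6, m3⟩⟩
        obtain ⟨y, y', hne, hy, hy'⟩ := h7
        change 2 ≤ _
        have h8 : ({y, y'} : Finset V) ⊆ Y ∩ {x0, x1, x2, x3} := by
          intro z hz
          rcases Finset.mem_insert.1 hz with rfl | hz
          · exact hy
          · rw [Finset.mem_singleton.1 hz]
            exact hy'
        rw [← Finset.card_pair hne]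
        exact Finset.card_le_card h8
    have h3 := Finset.card_sdiff_add_card_inter Y Q
    rw [List.map_cons, List.sum_cons]
    omega

theorem greedy (T : Shape) (L : List Shape) (hL : ∀ T' ∈ T :: L, T'.Valid)
    (D : V → V → Prop) (X : Finset V) (h : ¬ Packs (T :: L) D X) :
    (¬ ∃ Q : Finset V, Q ⊆ X ∧ IsCopy T D Q) ∨
    ∃ T' ∈ L, ∃ X₀ : Finset V, X₀ ⊆ X ∧ X₀.card ≤ 4 * L.length ∧
      ¬ ∃ Q : Finset V, Q ⊆ X \ X₀ ∧ IsCopy T' D Q := by
  induction L generalizing T X with
  | nil =>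
    left
    rintro ⟨Q, hQ, hc⟩
    exact h ⟨Q, hQ, hc, trivial⟩
  | cons T₁ L ih =>
    by_cases hex : ∃ Q : Finset V, Q ⊆ X ∧ IsCopy T D Q
    · right
      obtain ⟨Q, hQ, hc⟩ := hex
      have h1 : ¬ Packs (T₁ :: L) D (X \ Q) := fun h2 => h ⟨Q, hQ, hc, h2⟩
      have h4 := isCopy_card T (hL T List.mem_cons_self) D Q hc
      rcases ih T₁ (fun T' hT' => hL T' (List.mem_cons_of_mem _ hT')) (X \ Q) h1 with h2 | h2
      · refine ⟨T₁, List.mem_cons_self, Q, hQ, ?_, h2⟩
        rw [List.length_cons]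
        omega
      · obtain ⟨T', hT', X₀, hX₀, hX₀c, hno⟩ := h2
        refine ⟨T', List.mem_cons_of_mem _ hT', Q ∪ X₀,
          Finset.union_subset hQ (hX₀.trans Finset.sdiff_subset), ?_, ?_⟩
        · have h5 := Finset.card_union_le Q X₀
          rw [List.length_cons]
          omega
        · have h6 : X \ (Q ∪ X₀) = (X \ Q) \ X₀ := by
            ext x
            simp only [Finset.mem_sdiff, Finset.mem_union, not_or, and_assoc]
          rw [h6]
          exact hno
    · exact Or.inl hex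

/-- one shape. -/
theorem packs_one (T : Shape) (D : V → V → Prop) (X : Finset V) :
    Packs [T] D X ↔ ∃ Q : Finset V, Q ⊆ X ∧ IsCopy T D Q := by
  constructor
  · rintro ⟨Q, hQ, hc, -⟩
    exact ⟨Q, hQ, hc⟩
  · rintro ⟨Q, hQ, hc⟩
    exact ⟨Q, hQ, hc, trivial⟩

end MP_0a9719_co
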