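import Pool.Agent.Lib.MP_0a9719_co.GrP
import Pool.Agent.Lib.MP_0a9719_co.Pack
import Pool.Agent.Lib.MP_0a9719_co.Cfg
import Pool.Agent.Lib.MP_0a9719_co.Ana

/-! MP_0a9719_co, module Bnd: orientations without mixed vertices, and without good pairs.

`pureB_gen`: let `L = T :: L'` (for `L = []` the set is empty). By `greedy`, every `D` in the set has
no copy of some `T' ∈ L` in `X \ X₀` for some `X₀ ⊆ X` with at most `4 |L|` elements. For given
`X₀` and `T'`: `D ↦ rr (X \ X₀) D` has values in the orientations of `res (X \ X₀) H` without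
a copy of `T'`, at most `b₁^|X \ X₀| ≤ b₁^n` many (`packs_one`, `packs_rr`/`isCopy_rr`), and
fibres of at most `C (n+1)^C` elements (`cfg_pure`; use `fiber_le`). The number of pairs `(X₀, T')` is at most
`|L| (n+1)^(4|L|)`. So the total is at most `C' (n+1)^C' b₁^n ≤ b^n` for any
`b₁ < b < 2^s` (`poly_exp`).
`noPairB_gen`: same with `cfg_atMost` for `p = 2` (and `atMost_two`, `K` replaced by
`max K 1`: a pair that is not good for `K`... use: `GoodPair (K+1)` implies `GoodPair K`, so no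
good pair for `K` gives none for `K + 1`, hence `AtMost 2 (K+1)`): the first
alternative of `greedy` gives at most `b₀^n`, the second at most
`C'(n+1)^C' 2^n b₁^n`. -/

namespace MP_0a9719_co

private theorem bnd_card {V : Type} [Fintype V] [DecidableEq V] (X : Finset V) (m : ℕ) :
    (X.powerset.filter (fun Y => Y.card ≤ m)).card ≤ (X.card + 1) ^ (m + 1) := by
  refine le_trans ?_ (few_subsets X (m + 1))
  rw [← Set.ncard_coe_finset]
  refine Set.ncard_le_ncard_of_injOn (fun Y : Finset V => (Y : Set V)) (fun Y hY => ?_)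
    (fun Y _ Z _ h => Finset.coe_injective h) (Set.toFinite _)
  rw [Finset.mem_coe, Finset.mem_filter, Finset.mem_powerset] at hY
  refine ⟨Finset.coe_subset.2 hY.1, ?_⟩
  rw [Set.ncard_coe_finset]
  omega

private theorem bnd_core {V : Type} [Fintype V] [DecidableEq V] (L : List Shape) (m M : ℕ)
    (b₁ : ℝ) (h1 : 1 ≤ b₁) (H : SimpleGraph V) (X : Finset V) (S : Set (V → V → Prop))
    (hS : ∀ D ∈ S, IsOr (res X H) D ∧ ∃ T' ∈ L, ∃ X₀ : Finset V, X₀ ⊆ X ∧ X₀.card ≤ m ∧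
      ¬ ∃ Q : Finset V, Q ⊆ X \ X₀ ∧ IsCopy T' D Q)
    (hM : ∀ X₀ : Finset V, X₀ ⊆ X → X₀.card ≤ m → ∀ E : V → V → Prop,
      {D | D ∈ S ∧ rr (X \ X₀) D = E}.ncard ≤ M)
    (hb : ∀ T' ∈ L, ∀ Y : Finset V, (num [T'] H Y : ℝ) ≤ b₁ ^ Y.card) :
    (S.ncard : ℝ) ≤ (L.length : ℝ) * ((X.card : ℝ) + 1) ^ (m + 1) * (M * b₁ ^ X.card) := by
  classical
  set I : Finset (Shape × Finset V) :=
    L.toFinset ×ˢ (X.powerset.filter (fun Y => Y.card ≤ m)) with hI
  set B : Shape × Finset V → Set (V → V → Prop) := fun u =>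
    {D | D ∈ S ∧ ¬ ∃ Q : Finset V, Q ⊆ X \ u.2 ∧ IsCopy u.1 D Q} with hB
  have h2 := union_le S I B (M * b₁ ^ X.card) (fun D hD => ?_) (fun u hu => ?_)
  · refine h2.trans ?_
    apply mul_le_mul_of_nonneg_right _ (by positivity)
    have h3 : I.card ≤ L.length * (X.card + 1) ^ (m + 1) := by
      rw [hI, Finset.card_product]
      exact Nat.mul_le_mul (List.toFinset_card_le L) (bnd_card X m)
    calc (I.card : ℝ) ≤ ((L.length * (X.card + 1) ^ (m + 1) : ℕ) : ℝ) := by exact_mod_cast h3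
      _ = _ := by push_cast; ring
  · obtain ⟨_, T', hT', X₀, hX₀, hc, hQ⟩ := hS D hD
    refine ⟨(T', X₀), ?_, hD, hQ⟩
    rw [hI, Finset.mem_product, List.mem_toFinset, Finset.mem_filter, Finset.mem_powerset]
    exact ⟨hT', hX₀, hc⟩
  · obtain ⟨T', X₀⟩ := u
    rw [hI, Finset.mem_product, List.mem_toFinset, Finset.mem_filter, Finset.mem_powerset] at hu
    obtain ⟨hT', hX₀, hc⟩ := hu
    have h4 : (B (T', X₀)).ncard ≤ M * num [T'] H (X \ X₀) := by
      refine fiber_le _ _ (fun D => rr (X \ X₀) D) _ (fun D hD => ?_) (fun E _ => ?_)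
      · refine ⟨isOr_rr (hS D hD.1).1 Finset.sdiff_subset, ?_⟩
        rw [packs_rr _ D (Finset.Subset.refl _), packs_one]
        exact hD.2
      · refine le_trans (Set.ncard_le_ncard (fun D hD => ?_) (Set.toFinite _)) (hM X₀ hX₀ hc E)
        exact ⟨hD.1.1, hD.2⟩
    have h5 : ((B (T', X₀)).ncard : ℝ) ≤ (M : ℝ) * (num [T'] H (X \ X₀) : ℝ) := by
      exact_mod_cast h4
    refine h5.trans (mul_le_mul_of_nonneg_left ?_ (Nat.cast_nonneg _))
    refine (hb T' hT' (X \ X₀)).trans ?_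
    exact pow_le_pow_right₀ h1 (Finset.card_le_card Finset.sdiff_subset)

private theorem bnd_poly (a c m C n : ℕ) (b : ℝ) (hb : 0 ≤ b) :
    (a : ℝ) * ((n : ℝ) + 1) ^ (m + 1) * (((C * (n + 1) ^ C * c : ℕ) : ℝ) * b) ≤
      ((a * C + (m + 1) + C : ℕ) : ℝ) * ((n : ℝ) + 1) ^ (a * C + (m + 1) + C) * ((c : ℝ) * b) := by
  have h1 : (1 : ℝ) ≤ (n : ℝ) + 1 := by
    have : (0 : ℝ) ≤ n := Nat.cast_nonneg _
    linarith
  have h2 : (a : ℝ) * ((n : ℝ) + 1) ^ (m + 1) * (((C * (n + 1) ^ C * c : ℕ) : ℝ) * b) =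
      ((a * C : ℕ) : ℝ) * ((n : ℝ) + 1) ^ ((m + 1) + C) * ((c : ℝ) * b) := by
    push_cast
    rw [pow_add]
    ring
  rw [h2]
  apply mul_le_mul_of_nonneg_right _ (by positivity)
  apply mul_le_mul
  · exact_mod_cast (by omega : a * C ≤ a * C + (m + 1) + C)
  · exact pow_le_pow_right₀ h1 (by omega)
  · positivity
  · positivity

theorem pureB_gen (L : List Shape) (hL : ∀ T ∈ L, T.Valid) (s : ℕ) (b₁ : ℝ) (h1 : 1 ≤ b₁)
    (hs : b₁ < 2 ^ s)
    (hb : ∀ T ∈ L, ∀ (V : Type) [Fintype V] [DecidableEq V] (H : SimpleGraph V)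
      (X : Finset V), (num [T] H X : ℝ) ≤ b₁ ^ X.card) : PureB L s := by
  intro K
  obtain ⟨C, hC⟩ := cfg_pure (4 * L.length) K
  have hb0 : 0 < b₁ := by linarith
  obtain ⟨n₀, hn₀⟩ := poly_exp (L.length * C + (4 * L.length + 1) + C) b₁ ((b₁ + 2 ^ s) / 2) hb0
    (by linarith)
  refine ⟨(b₁ + 2 ^ s) / 2, by positivity, by linarith, n₀, fun V _ _ H X hX => ?_⟩
  have hcore := bnd_core L (4 * L.length) (C * (X.card + 1) ^ C) b₁ h1 H X
    {D : V → V → Prop | IsOr (res X H) D ∧ ¬ Packs L D X ∧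
        ∀ v ∈ X, ¬ (K ≤ ideg D X v ∧ K ≤ odeg D X v)} (fun D hD => ⟨hD.1, ?_⟩)
    (fun X₀ hX₀ hc E => ?_) (fun T' hT' Y => hb T' hT' V H Y)
  · refine hcore.trans ?_
    have h2 := bnd_poly L.length 1 (4 * L.length) C X.card (b₁ ^ X.card) (by positivity)
    have h3 := hn₀ X.card hX
    rw [mul_one, Nat.cast_one, one_mul] at h2
    exact h2.trans h3
  · match L, hL, hD with
    | [], _, hD => exact absurd trivial hD.2.1
    | T :: L', hL, hD =>
      rcases greedy T L' hL D X hD.2.1 with h | ⟨T', hT', X₀, hX₀, hc, hQ⟩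
      · refine ⟨T, List.mem_cons_self, ∅, Finset.empty_subset _, by simp, ?_⟩
        rw [Finset.sdiff_empty]
        exact h
      · refine ⟨T', List.mem_cons_of_mem _ hT', X₀, hX₀, ?_, hQ⟩
        rw [List.length_cons]
        omega
  · refine le_trans (Set.ncard_le_ncard (fun D hD => ?_) (Set.toFinite _)) (hC V H X X₀ E hX₀ hc)
    exact ⟨hD.1.1, hD.1.2.2, hD.2⟩

theorem noPairB_gen (T : Shape) (L : List Shape) (hL : ∀ T' ∈ T :: L, T'.Valid) (s : ℕ)
    (b₀ b₁ : ℝ) (h0 : 1 ≤ b₀) (h1 : 1 ≤ b₁) (hs0 : b₀ < 2 ^ s) (hs1 : 2 * b₁ < 2 ^ s)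
    (hb0 : ∀ (V : Type) [Fintype V] [DecidableEq V] (H : SimpleGraph V)
      (X : Finset V), (num [T] H X : ℝ) ≤ b₀ ^ X.card)
    (hb : ∀ T' ∈ L, ∀ (V : Type) [Fintype V] [DecidableEq V] (H : SimpleGraph V)
      (X : Finset V), (num [T'] H X : ℝ) ≤ b₁ ^ X.card) : NoPairB (T :: L) s := by
  intro K
  obtain ⟨C, hC⟩ := cfg_atMost (4 * L.length) 2 (max K 1) (by norm_num)
  have hb00 : 0 < b₀ := by linarith
  have hb10 : 0 < b₁ := by linarith
  set b : ℝ := (max b₀ (2 * b₁) + 2 ^ s) / 2 with hbd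
  have hmax : max b₀ (2 * b₁) < 2 ^ s := max_lt hs0 hs1
  have hb0b : b₀ < b := by
    have := le_max_left b₀ (2 * b₁)
    linarith
  have hb1b : 2 * b₁ < b := by
    have := le_max_right b₀ (2 * b₁)
    linarith
  obtain ⟨n₁, hn₁⟩ := poly_exp 2 b₀ b hb00 hb0b
  obtain ⟨n₂, hn₂⟩ := poly_exp (2 * (L.length * C + (4 * L.length + 1) + C)) (2 * b₁) b
    (by positivity) hb1b
  refine ⟨b, by linarith, by linarith, max n₁ n₂, fun V _ _ H X hX => ?_⟩
  have hX1 := hn₁ X.card ((le_max_left _ _).trans hX)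
  have hX2 := hn₂ X.card ((le_max_right _ _).trans hX)
  have hn1 : (1 : ℝ) ≤ (X.card : ℝ) + 1 := by
    have : (0 : ℝ) ≤ X.card := Nat.cast_nonneg _
    linarith
  -- splitting
  have hsplit := split_le
    {D : V → V → Prop | IsOr (res X H) D ∧ ¬ Packs (T :: L) D X ∧
        ∀ v ∈ X, ∀ w ∈ X, v ≠ w → ¬ GoodPair K D X v w}
    {D : V → V → Prop | IsOr (res X H) D ∧ ¬ Packs [T] D X}
    {D : V → V → Prop | (IsOr (res X H) D ∧
        ∀ v ∈ X, ∀ w ∈ X, v ≠ w → ¬ GoodPair K D X v w) ∧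
        ∃ T' ∈ L, ∃ X₀ : Finset V, X₀ ⊆ X ∧ X₀.card ≤ 4 * L.length ∧
      ¬ ∃ Q : Finset V, Q ⊆ X \ X₀ ∧ IsCopy T' D Q} (fun D hD => by
        rcases greedy T L hL D X hD.2.1 with h | h
        · left
          refine ⟨hD.1, ?_⟩
          rw [packs_one]
          exact h
        · exact Or.inr ⟨⟨hD.1, hD.2.2⟩, h⟩)
  have hcore := bnd_core L (4 * L.length) (C * (X.card + 1) ^ C * 2 ^ X.card) b₁ h1 H X
    {D : V → V → Prop | (IsOr (res X H) D ∧
        ∀ v ∈ X, ∀ w ∈ X, v ≠ w → ¬ GoodPair K D X v w) ∧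
        ∃ T' ∈ L, ∃ X₀ : Finset V, X₀ ⊆ X ∧ X₀.card ≤ 4 * L.length ∧
      ¬ ∃ Q : Finset V, Q ⊆ X \ X₀ ∧ IsCopy T' D Q} (fun D hD => ⟨hD.1.1, hD.2⟩)
    (fun X₀ hX₀ hc E => ?_) (fun T' hT' Y => hb T' hT' V H Y)
  · have h2 := bnd_poly L.length (2 ^ X.card) (4 * L.length) C X.card (b₁ ^ X.card)
      (by positivity)
    have h3 := hcore.trans h2
    have h4 : (((2 ^ X.card : ℕ) : ℝ) * b₁ ^ X.card) = (2 * b₁) ^ X.card := by
      push_cast
      rw [mul_pow]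
    rw [h4] at h3
    -- second part at most half
    set N : ℕ := L.length * C + (4 * L.length + 1) + C with hN
    have h5 : (N : ℝ) * ((X.card : ℝ) + 1) ^ N * (2 * b₁) ^ X.card ≤ b ^ X.card / 2 := by
      have h6 : ((X.card : ℝ) + 1) ^ N ≤ ((X.card : ℝ) + 1) ^ (2 * N) :=
        pow_le_pow_right₀ hn1 (by omega)
      have h7 : (N : ℝ) * ((X.card : ℝ) + 1) ^ N * (2 * b₁) ^ X.card ≤
          (N : ℝ) * ((X.card : ℝ) + 1) ^ (2 * N) * (2 * b₁) ^ X.card :=
        mul_le_mul_of_nonneg_right (mul_le_mul_of_nonneg_left h6 (Nat.cast_nonneg _))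
          (by positivity)
      push_cast at hX2
      linarith
    have h8 : b₀ ^ X.card ≤ b ^ X.card / 2 := by
      have h9 : (1 : ℝ) ≤ ((X.card : ℝ) + 1) ^ 2 := one_le_pow₀ hn1
      have h10 : 0 < b₀ ^ X.card := by positivity
      push_cast at hX1
      nlinarith
    have h11 : (({D : V → V → Prop | IsOr (res X H) D ∧ ¬ Packs [T] D X}.ncard : ℕ) : ℝ) ≤
        b₀ ^ X.card := hb0 V H X
    have h12 := (Nat.cast_le (α := ℝ)).2 hsplit
    rw [Nat.cast_add] at h12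
    refine h12.trans ?_
    have h13 := add_le_add (h11.trans h8) (h3.trans h5)
    rwa [add_halves] at h13
  · refine le_trans (Set.ncard_le_ncard (fun D hD => ?_) (Set.toFinite _)) (hC V H X X₀ E hX₀ hc)
    refine ⟨hD.1.1.1, ?_, hD.2⟩
    refine atMost_two (max K 1) (le_max_right _ _) H X X₀ hX₀ D hD.1.1.1
      (fun v hv w hw hvw hg => hD.1.1.2 v hv w hw hvw ?_)
    unfold GoodPair at hg ⊢
    refine hg.trans (Set.ncard_le_ncard (fun p hp => ?_) (Set.toFinite _))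
    exact (le_max_left K 1).trans hp

end MP_0a9719_co
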