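import Pool.Agent.Lib.MP_0a9719_co.FibOr

/-! MP_0a9719_co, module Cap: orientations with out-degrees at most prescribed capacities 0, 1, 2.

Weights `wt 0 = 1`, `wt 1 = 5/3`, `wt 2 = 16/5`.

Proof of `cap_bound`, by strong induction on `|X|` (for all `cap`). If `X = ∅` the set has
one element (`D = ⊥`) and the product is `1`. Let `X ≠ ∅`. If the set is empty there is nothing
to prove. Otherwise take one `D` in it: the number of edges of `res X H` is
`∑ v ∈ X, odeg D X v ≤ ∑ v ∈ X, cap v` and `∑ v ∈ X, deg H X v = 2 eX H X`, so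
`∑ (deg H X v) ≤ ∑ 2 cap v` and some `v ∈ X` has `d := deg H X v ≤ 2 c`, `c := cap v`. (The handshake:
`deg H X v = odeg D X v + ideg D X v` and `∑ odeg = ∑ ideg` by double counting of the pairs
`(u, v)` with `D u v`; so `∑ deg = 2 ∑ odeg ≤ 2 ∑ cap`, no edge sets needed.)
Let `N` be the set of neighbours of `v` in `X`, `|N| = d`. Classify the `D` by the set
`O ⊆ N` of out-neighbours of `v`, `|O| ≤ c`. Given `O`, `D` is determined by
`D' = rr (X.erase v) D`, an orientation of `res (X.erase v) H`, and every `u ∈ N \ O` has the arc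
`u → v`, so `cap u ≥ 1` and `odeg D' (X.erase v) u ≤ cap u - 1`; for the other `u` the out-degree
of `D'` is at most `cap u`. With `cap'_O u = cap u - 1` for `u ∈ N \ O` and `cap u` otherwise, the
induction hypothesis bounds the number for `O` by `∏ u ∈ X.erase v, wt (cap'_O u)` (if some
`u ∈ N \ O` has `cap u = 0` there is no such `D`), and this is at most
`(3/5)^(d - |O|) ∏ u ∈ X.erase v, wt (cap u)`, because `wt (k-1) ≤ (3/5) wt k` for `k = 1, 2`.
Summing over `O`: at most `(∏ u ∈ X.erase v, wt (cap u)) ∑_{i ≤ c} C(d, i) (3/5)^(d-i)`, and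
`∑_{i ≤ c} C(d, i) (3/5)^(d-i) ≤ wt c` for `d ≤ 2 c`: c = 0: 1; c = 1: d=0: 1, d=1: 8/5,
d=2: 39/25 (all <= 5/3); c = 2: d=0: 1, d=1: 8/5, d=2: 64/25, d=3: 387/125, d=4: 1971/625
(all <= 16/5). -/

namespace MP_0a9719_co

noncomputable def wt : ℕ → ℝ
  | 0 => 1
  | 1 => 5 / 3
  | _ => 16 / 5

private lemma cap_wt_pos (k : ℕ) : 0 < wt k := by
  rcases k with _ | _ | k <;> (unfold wt; norm_num)

private lemma cap_wt_step {k : ℕ} (h1 : 1 ≤ k) (h2 : k ≤ 2) :
    wt (k - 1) ≤ 3 / 5 * wt k := by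
  interval_cases k <;> (unfold wt; norm_num)

private lemma cap_odeg_eq {V : Type*} (D : V → V → Prop) [∀ u v, Decidable (D u v)]
    (X : Finset V) (v : V) : odeg D X v = (X.filter fun u => D v u).card := by
  unfold odeg
  rw [← Set.ncard_coe_finset]
  congr 1
  ext u
  simp

private lemma cap_ideg_eq {V : Type*} (D : V → V → Prop) [∀ u v, Decidable (D u v)]
    (X : Finset V) (v : V) : ideg D X v = (X.filter fun u => D u v).card := by
  unfold ideg
  rw [← Set.ncard_coe_finset]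
  congr 1
  ext u
  simp

private lemma cap_deg_eq {V : Type*} (H : SimpleGraph V) [∀ u v, Decidable (H.Adj u v)]
    (X : Finset V) (v : V) : deg H X v = (X.filter fun u => H.Adj v u).card := by
  unfold deg
  rw [← Set.ncard_coe_finset]
  congr 1
  ext u
  simp

private lemma cap_hand {V : Type*} [DecidableEq V] (H : SimpleGraph V) (X : Finset V)
    (D : V → V → Prop) (hD : IsOr (res X H) D) :
    ∑ v ∈ X, deg H X v = 2 * ∑ v ∈ X, odeg D X v := by
  classical
  have h1 : ∀ v ∈ X, deg H X v = odeg D X v + ideg D X v := by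
    intro v hv
    rw [cap_deg_eq, cap_odeg_eq, cap_ideg_eq, ← Finset.card_union_of_disjoint]
    · congr 1
      ext u
      simp only [Finset.mem_filter, Finset.mem_union]
      constructor
      · rintro ⟨hu, ha⟩
        rcases ((hD v u).1.1 ⟨ha, hv, hu⟩) with h | h
        · exact Or.inl ⟨hu, h⟩
        · exact Or.inr ⟨hu, h⟩
      · rintro (⟨hu, h⟩ | ⟨hu, h⟩)
        · exact ⟨hu, ((hD v u).1.2 (Or.inl h)).1⟩
        · exact ⟨hu, ((hD v u).1.2 (Or.inr h)).1⟩
    · rw [Finset.disjoint_left]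
      intro u hu hu'
      exact (hD v u).2 ⟨(Finset.mem_filter.1 hu).2, (Finset.mem_filter.1 hu').2⟩
  have h2 : ∑ v ∈ X, odeg D X v = ∑ v ∈ X, ideg D X v := by
    simp only [cap_odeg_eq, cap_ideg_eq]
    exact Finset.sum_card_bipartiteAbove_eq_sum_card_bipartiteBelow D
  rw [Finset.sum_congr rfl h1, Finset.sum_add_distrib, ← h2, two_mul]

private lemma cap_exists {V : Type*} [DecidableEq V] (H : SimpleGraph V) (X : Finset V)
    (cap : V → ℕ) (D : V → V → Prop) (hD : IsOr (res X H) D) (ho : ∀ v ∈ X, odeg D X v ≤ cap v)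
    (hX : X.Nonempty) : ∃ v ∈ X, deg H X v ≤ 2 * cap v := by
  by_contra hcon
  push Not at hcon
  have h1 : ∑ v ∈ X, 2 * cap v < ∑ v ∈ X, deg H X v := Finset.sum_lt_sum_of_nonempty hX hcon
  rw [cap_hand H X D hD, ← Finset.mul_sum] at h1
  have h2 : ∑ v ∈ X, odeg D X v ≤ ∑ v ∈ X, cap v := Finset.sum_le_sum ho
  omega

private lemma cap_num {c d : ℕ} (hc : c ≤ 2) (hd : d ≤ 2 * c) :
    ∑ m ∈ Finset.range (d + 1), (d.choose m : ℝ) * (if m ≤ c then (3 / 5 : ℝ) ^ (d - m) else 0) ≤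
      wt c := by
  interval_cases c
  · interval_cases d
    unfold wt
    norm_num [Finset.sum_range_succ]
  · interval_cases d <;> (unfold wt; norm_num [Finset.sum_range_succ, Nat.choose])
  · interval_cases d <;> (unfold wt; norm_num [Finset.sum_range_succ, Nat.choose])

/-- the orientations in which `v` has the out-neighbourhood `O`. -/
private lemma cap_fibre {V : Type*} [Fintype V] [DecidableEq V] (H : SimpleGraph V)
    (X : Finset V) (cap : V → ℕ) (hc : ∀ v, cap v ≤ 2) (v : V) (hv : v ∈ X)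
    (N : Finset V) (hN : ∀ u, u ∈ N ↔ u ∈ X ∧ H.Adj v u) (O : Finset V) (hO : O ⊆ N)
    (ih : ∀ cap' : V → ℕ, (∀ v, cap' v ≤ 2) →
      (({D : V → V → Prop | IsOr (res (X.erase v) H) D ∧
        ∀ u ∈ X.erase v, odeg D (X.erase v) u ≤ cap' u}.ncard : ℕ) : ℝ) ≤
      ∏ u ∈ X.erase v, wt (cap' u)) :
    (({D : V → V → Prop | (IsOr (res X H) D ∧ ∀ v ∈ X, odeg D X v ≤ cap v) ∧
      ∀ u, (u ∈ O ↔ u ∈ X ∧ D v u)}.ncard : ℕ) : ℝ) ≤
      (3 / 5) ^ (N.card - O.card) * ∏ u ∈ X.erase v, wt (cap u) := by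
  classical
  have hP : 0 ≤ ∏ u ∈ X.erase v, wt (cap u) := Finset.prod_nonneg fun u _ => (cap_wt_pos _).le
  set S := {D : V → V → Prop | (IsOr (res X H) D ∧ ∀ v ∈ X, odeg D X v ≤ cap v) ∧
      ∀ u, (u ∈ O ↔ u ∈ X ∧ D v u)} with hS
  rcases S.eq_empty_or_nonempty with he | ⟨D0, hD0⟩
  · rw [he, Set.ncard_empty, Nat.cast_zero]
    positivity
  have hNE : N \ O ⊆ X.erase v := by
    intro u hu
    have h := (hN u).1 (Finset.mem_sdiff.1 hu).1
    exact Finset.mem_erase.2 ⟨h.2.ne', h.1⟩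
  -- arcs towards `v`
  have harc : ∀ D ∈ S, ∀ u ∈ N \ O, D u v := by
    intro D hD u hu
    have h := (hN u).1 (Finset.mem_sdiff.1 hu).1
    have h2 : ¬ D v u := fun h3 => (Finset.mem_sdiff.1 hu).2 ((hD.2 u).2 ⟨h.1, h3⟩)
    rcases (hD.1.1 u v).1.1 ⟨h.2.symm, h.1, hv⟩ with h3 | h3
    · exact h3
    · exact absurd h3 h2
  have hdrop : ∀ D ∈ S, ∀ u ∈ N \ O, odeg D (X.erase v) u + 1 = odeg D X u := by
    intro D hD u hu
    rw [cap_odeg_eq, cap_odeg_eq]
    have h1 : (X.filter fun w => D u w) = insert v ((X.erase v).filter fun w => D u w) := by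
      ext w
      simp only [Finset.mem_filter, Finset.mem_insert, Finset.mem_erase]
      constructor
      · rintro ⟨h1, h2⟩
        by_cases hw : w = v
        · exact Or.inl hw
        · exact Or.inr ⟨⟨hw, h1⟩, h2⟩
      · rintro (h | ⟨⟨_, h1⟩, h2⟩)
        · rw [h]
          exact ⟨hv, harc D hD u hu⟩
        · exact ⟨h1, h2⟩
    rw [h1, Finset.card_insert_of_notMem (by simp)]
  have hcap1 : ∀ u ∈ N \ O, 1 ≤ cap u := by
    intro u hu
    have h1 := hdrop D0 hD0 u hu
    have h2 := hD0.1.2 u (Finset.mem_of_mem_erase (hNE hu))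
    omega
  set cap' : V → ℕ := fun u => if u ∈ N \ O then cap u - 1 else cap u with hcap'
  have hc' : ∀ u, cap' u ≤ 2 := by
    intro u
    rw [hcap']
    beta_reduce
    split_ifs
    · have := hc u
      omega
    · exact hc u
  have hih := ih cap' hc'
  have hle : S.ncard ≤ {D : V → V → Prop | IsOr (res (X.erase v) H) D ∧
        ∀ u ∈ X.erase v, odeg D (X.erase v) u ≤ cap' u}.ncard := by
    refine Set.ncard_le_ncard_of_injOn (fun D => rr (X.erase v) D) ?_ ?_ (Set.toFinite _)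
    · intro D hD
      refine ⟨?_, ?_⟩
      · intro a b
        have hab := hD.1.1 a b
        constructor
        · constructor
          · rintro ⟨h1, h2, h3⟩
            rcases hab.1.1 ⟨h1, Finset.mem_of_mem_erase h2, Finset.mem_of_mem_erase h3⟩ with h | h
            · exact Or.inl ⟨h, h2, h3⟩
            · exact Or.inr ⟨h, h3, h2⟩
          · rintro (⟨h1, h2, h3⟩ | ⟨h1, h2, h3⟩)
            · exact ⟨(hab.1.2 (Or.inl h1)).1, h2, h3⟩
            · exact ⟨(hab.1.2 (Or.inr h1)).1, h3, h2⟩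
        · rintro ⟨⟨h1, _⟩, ⟨h2, _⟩⟩
          exact hab.2 ⟨h1, h2⟩
      · intro u hu
        have h1 : odeg (rr (X.erase v) D) (X.erase v) u = odeg D (X.erase v) u := by
          unfold odeg
          congr 1
          ext w
          simp only [Set.mem_ofPred_eq, rr]
          exact ⟨fun h => ⟨h.1, h.2.1⟩, fun h => ⟨h.1, h.2, hu, h.1⟩⟩
        rw [h1, hcap']
        beta_reduce
        split_ifs with h
        · have h2 := hdrop D hD u h
          have h3 := hD.1.2 u (Finset.mem_of_mem_erase hu)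
          omega
        · refine le_trans ?_ (hD.1.2 u (Finset.mem_of_mem_erase hu))
          rw [cap_odeg_eq, cap_odeg_eq]
          exact Finset.card_le_card (Finset.filter_subset_filter _ (Finset.erase_subset _ _))
    · intro D hD E hE hDE
      have key : ∀ D ∈ S, ∀ a b, D a b ↔ (rr (X.erase v) D a b ∨ (a = v ∧ b ∈ O) ∨
          (b = v ∧ a ∈ N \ O)) := by
        intro D hD a b
        constructor
        · intro h
          have hm := (hD.1.1 a b).1.2 (Or.inl h)
          by_cases ha : a = v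
          · exact Or.inr (Or.inl ⟨ha, (hD.2 b).2 ⟨hm.2.2, ha ▸ h⟩⟩)
          by_cases hb : b = v
          · refine Or.inr (Or.inr ⟨hb, Finset.mem_sdiff.2 ⟨(hN a).2 ⟨hm.2.1, ?_⟩, fun h2 => ?_⟩⟩)
            · exact hb ▸ hm.1.symm
            · have h3 := ((hD.2 a).1 h2).2
              exact (hD.1.1 a b).2 ⟨h, hb ▸ h3⟩
          · exact Or.inl ⟨h, Finset.mem_erase.2 ⟨ha, hm.2.1⟩, Finset.mem_erase.2 ⟨hb, hm.2.2⟩⟩
        · rintro (h | ⟨rfl, h⟩ | ⟨rfl, h⟩)
          · exact h.1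
          · exact ((hD.2 b).1 h).2
          · exact harc D hD a h
      have hDE' : rr (X.erase v) D = rr (X.erase v) E := hDE
      funext a b
      apply propext
      rw [key D hD, key E hE, hDE']
  have hprod : ∏ u ∈ X.erase v, wt (cap' u) ≤
      ∏ u ∈ X.erase v, (if u ∈ N \ O then (3 / 5 : ℝ) else 1) * wt (cap u) := by
    refine Finset.prod_le_prod (fun u _ => (cap_wt_pos _).le) fun u hu => ?_
    rw [hcap']
    beta_reduce
    split_ifs with h
    · exact cap_wt_step (hcap1 u h) (hc u)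
    · rw [one_mul]
  rw [Finset.prod_mul_distrib, Finset.prod_ite_mem, Finset.inter_eq_right.2 hNE,
    Finset.prod_const, Finset.card_sdiff_of_subset hO] at hprod
  calc (S.ncard : ℝ) ≤ _ := by exact_mod_cast hle
    _ ≤ _ := hih
    _ ≤ _ := hprod

theorem cap_bound {V : Type*} [Fintype V] [DecidableEq V] (H : SimpleGraph V) (X : Finset V)
    (cap : V → ℕ) (hc : ∀ v, cap v ≤ 2) :
    (({D : V → V → Prop | IsOr (res X H) D ∧ ∀ v ∈ X, odeg D X v ≤ cap v}.ncard : ℕ) : ℝ) ≤
      ∏ v ∈ X, wt (cap v) := by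
  classical
  induction X using Finset.strongInduction generalizing cap with
  | H X ih =>
  rcases X.eq_empty_or_nonempty with rfl | hX
  · rw [Finset.prod_empty]
    have h1 : {D : V → V → Prop | IsOr (res ∅ H) D ∧ ∀ v ∈ (∅ : Finset V), odeg D ∅ v ≤ cap v} ⊆
        {fun _ _ => False} := by
      rintro D ⟨hD, -⟩
      rw [Set.mem_singleton_iff]
      funext a b
      apply propext
      refine ⟨fun h => ?_, False.elim⟩
      have := (hD a b).1.2 (Or.inl h)
      exact absurd this.2.1 (Finset.notMem_empty _)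
    have h2 := Set.ncard_le_ncard h1 (Set.toFinite _)
    rw [Set.ncard_singleton] at h2
    exact_mod_cast h2
  set S := {D : V → V → Prop | IsOr (res X H) D ∧ ∀ v ∈ X, odeg D X v ≤ cap v} with hS
  rcases S.eq_empty_or_nonempty with he | ⟨D0, hD0⟩
  · rw [he, Set.ncard_empty, Nat.cast_zero]
    exact Finset.prod_nonneg fun u _ => (cap_wt_pos _).le
  suffices key : ∀ v ∈ X, deg H X v ≤ 2 * cap v → (S.ncard : ℝ) ≤ ∏ v ∈ X, wt (cap v) by
    rcases cap_exists H X cap D0 hD0.1 hD0.2 hX with ⟨v, hv, hd⟩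
    exact key v hv hd
  intro v hv hd
  have hP : 0 ≤ ∏ u ∈ X.erase v, wt (cap u) := Finset.prod_nonneg fun u _ => (cap_wt_pos _).le
  set N := X.filter fun u => H.Adj v u with hNdef
  have hN : ∀ u, u ∈ N ↔ u ∈ X ∧ H.Adj v u := fun u => by rw [hNdef, Finset.mem_filter]
  have hNd : N.card = deg H X v := (cap_deg_eq H X v).symm
  have hfib : ∀ O ∈ N.powerset, (({D : V → V → Prop | D ∈ S ∧
      ∀ u, (u ∈ O ↔ u ∈ X ∧ D v u)}.ncard : ℕ) : ℝ) ≤
      (if O.card ≤ cap v then (3 / 5 : ℝ) ^ (N.card - O.card) else 0) *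
        ∏ u ∈ X.erase v, wt (cap u) := by
    intro O hO
    split_ifs with h
    · exact cap_fibre H X cap hc v hv N hN O (Finset.mem_powerset.1 hO)
        (fun cap' hc' => ih (X.erase v) (Finset.erase_ssubset hv) cap' hc')
    · have he : {D : V → V → Prop | D ∈ S ∧ ∀ u, (u ∈ O ↔ u ∈ X ∧ D v u)} = ∅ := by
        rw [Set.eq_empty_iff_forall_notMem]
        rintro D ⟨hD, hO'⟩
        apply h
        refine le_trans ?_ (hD.2 v hv)
        rw [cap_odeg_eq]
        refine Finset.card_le_card fun u hu => ?_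
        exact Finset.mem_filter.2 ((hO' u).1 hu)
      rw [he, Set.ncard_empty, Nat.cast_zero, zero_mul]
  have hcov : S ⊆ ⋃ O ∈ N.powerset, {D : V → V → Prop | D ∈ S ∧
      ∀ u, (u ∈ O ↔ u ∈ X ∧ D v u)} := by
    intro D hD
    rw [Set.mem_iUnion₂]
    refine ⟨X.filter fun u => D v u, Finset.mem_powerset.2 fun u hu => ?_, hD, fun u => ?_⟩
    · have h := Finset.mem_filter.1 hu
      exact (hN u).2 ⟨h.1, ((hD.1 v u).1.2 (Or.inl h.2)).1⟩
    · rw [Finset.mem_filter]
  have h1 : (S.ncard : ℝ) ≤ ∑ O ∈ N.powerset, (({D : V → V → Prop | D ∈ S ∧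
      ∀ u, (u ∈ O ↔ u ∈ X ∧ D v u)}.ncard : ℕ) : ℝ) := by
    have h2 := Set.ncard_le_ncard hcov (Set.toFinite _)
    have h3 := h2.trans (Finset.set_ncard_biUnion_le _ _)
    exact_mod_cast h3
  have h2 : ∑ O ∈ N.powerset, (if O.card ≤ cap v then (3 / 5 : ℝ) ^ (N.card - O.card) else 0) ≤
      wt (cap v) := by
    rw [Finset.sum_powerset_apply_card
      (fun m => if m ≤ cap v then (3 / 5 : ℝ) ^ (N.card - m) else 0)]
    have h3 := cap_num (hc v) (hNd ▸ hd : N.card ≤ 2 * cap v)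
    refine le_trans (le_of_eq ?_) h3
    refine Finset.sum_congr rfl fun m _ => ?_
    rw [nsmul_eq_mul]
  calc (S.ncard : ℝ) ≤ _ := h1
    _ ≤ ∑ O ∈ N.powerset, (if O.card ≤ cap v then (3 / 5 : ℝ) ^ (N.card - O.card) else 0) *
        ∏ u ∈ X.erase v, wt (cap u) := Finset.sum_le_sum hfib
    _ = (∑ O ∈ N.powerset, (if O.card ≤ cap v then (3 / 5 : ℝ) ^ (N.card - O.card) else 0)) *
        ∏ u ∈ X.erase v, wt (cap u) := by rw [Finset.sum_mul]
    _ ≤ wt (cap v) * ∏ u ∈ X.erase v, wt (cap u) := mul_le_mul_of_nonneg_right h2 hP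
    _ = ∏ u ∈ X, wt (cap u) := Finset.mul_prod_erase X (fun u => wt (cap u)) hv

/-- same for in-degrees at most one: reverse all arcs. -/
theorem ideg_one_bound {V : Type*} [Fintype V] [DecidableEq V] (H : SimpleGraph V)
    (X : Finset V) :
    (({D : V → V → Prop | IsOr (res X H) D ∧ ∀ v ∈ X, ideg D X v ≤ 1}.ncard : ℕ) : ℝ) ≤
      (5 / 3) ^ X.card := by
  have h1 : {D : V → V → Prop | IsOr (res X H) D ∧ ∀ v ∈ X, ideg D X v ≤ 1}.ncard ≤
      {D : V → V → Prop | IsOr (res X H) D ∧ ∀ v ∈ X, odeg D X v ≤ 1}.ncard := by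
    refine Set.ncard_le_ncard_of_injOn (fun D u v => D v u) ?_ ?_ (Set.toFinite _)
    · rintro D ⟨hD, hi⟩
      refine ⟨fun a b => ?_, fun v hv => hi v hv⟩
      have h := hD b a
      refine ⟨?_, h.2⟩
      rw [← h.1]
      exact ⟨fun h => h.symm, fun h => h.symm⟩
    · intro D _ E _ h
      funext a b
      exact congrFun (congrFun h b) a
  have h2 := cap_bound H X (fun _ => 1) (fun _ => by norm_num)
  have h3 : ∏ v ∈ X, wt ((fun _ : V => 1) v) = (5 / 3) ^ X.card := by
    rw [Finset.prod_const]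
    rfl
  rw [h3] at h2
  exact le_trans (by exact_mod_cast h1) h2

end MP_0a9719_co
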