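import Mathlib

/-! MP_0a9719_co, module Cherry: two edge-disjoint cherries in a component with at least five
vertices; forests in graphs with many edges.

`cherries`: grow: there are distinct `g 0, ..., g 4` in `c.supp` and `p : Fin 5 → Fin 5` with
`p i < i` and `F.Adj (g i) (g (p i))` for `i = 1, ..., 4` (the set of the vertices chosen so far is a proper
subset of `c.supp`, so some edge leaves it). For the finitely many functions `p` (24 trees) check by
`decide` that the four edges `{i, p i}` can be split into two pairs of adjacent edges: there are `c₁ ≠ x₁ ≠ y₁ ≠ c₁` and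
`c₂, x₂, y₂` in `Fin 5` with `{c₁,x₁}, {c₁,y₁}, {c₂,x₂}, {c₂,y₂}` four different tree edges. Transfer by `g`.
`forest_edges`: if `|E(H)| > |W| |V|`, then some nonempty `X ⊆ V` has minimum degree `≥ |W|` inside `X` (take
`X` minimal with `e(X) > |W| |X|`, or delete vertices of degree `< |W|` one after the other as long as
possible), and the forest `F` embeds greedily: order the vertices of `W` such that each has at most one earlier
neighbour (a forest with an edge has a vertex of degree one or zero: remove it and use induction on `|W|`: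
statement `for every acyclic graph F' on a finite type W' with |W'| ≤ d + 1 and every nonempty X with all degrees in X at least d there is an injective map
into X preserving adjacency`; the leaf is mapped to a neighbour of the image of its neighbour outside the image of the others, `d ≥ |W'| - 1`;
an isolated vertex to any vertex outside, `|X| ≥ d + 1`). -/

namespace MP_0a9719_co

/-- a proper nonempty part of a component has an edge leaving it. -/
theorem grow {W : Type*} (F : SimpleGraph W) (c : F.ConnectedComponent) (S : Set W)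
    (hS : S ⊆ c.supp) (hne : S.Nonempty) (hlt : S.ncard < c.supp.ncard) (hfin : S.Finite) :
    ∃ a ∈ S, ∃ b, b ∈ c.supp ∧ b ∉ S ∧ F.Adj a b := by
  obtain ⟨s, hs⟩ := hne
  have : ∃ t, t ∈ c.supp ∧ t ∉ S := by
    by_contra hcon
    push Not at hcon
    exact absurd (Set.ncard_le_ncard (fun t ht => hcon t ht) hfin) (by omega)
  obtain ⟨t, htc, htS⟩ := this
  have hsc : F.connectedComponentMk s = c := hS hs
  have htc' : F.connectedComponentMk t = c := htc
  have hr : F.Reachable s t := SimpleGraph.ConnectedComponent.exact (hsc.trans htc'.symm)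
  obtain ⟨p⟩ := hr
  obtain ⟨d, -, hd1, hd2⟩ := p.exists_boundary_dart S hs htS
  refine ⟨d.fst, hd1, d.snd, ?_, hd2, d.adj⟩
  have h1 : F.connectedComponentMk d.fst = c := hS hd1
  show F.connectedComponentMk d.snd = c
  rw [← h1]
  exact (SimpleGraph.ConnectedComponent.sound d.adj.reachable).symm

theorem sym_ne {W : Type*} {a b x y : W} (h1 : a ≠ x ∨ b ≠ y) (h2 : a ≠ y ∨ b ≠ x) :
    s(a, b) ≠ s(x, y) := by
  intro h
  rw [Sym2.eq_iff] at h
  rcases h with ⟨rfl, rfl⟩ | ⟨rfl, rfl⟩
  · simp at h1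
  · simp at h2

theorem cherries {W : Type*} [Finite W] (F : SimpleGraph W) (c : F.ConnectedComponent)
    (h : 5 ≤ c.supp.ncard) :
    ∃ c₁ x₁ y₁ c₂ x₂ y₂ : W, c₁ ∈ c.supp ∧ c₂ ∈ c.supp ∧ F.Adj c₁ x₁ ∧ F.Adj c₁ y₁ ∧ x₁ ≠ y₁ ∧
      F.Adj c₂ x₂ ∧ F.Adj c₂ y₂ ∧ x₂ ≠ y₂ ∧
      s(c₁, x₁) ≠ s(c₂, x₂) ∧ s(c₁, x₁) ≠ s(c₂, y₂) ∧
      s(c₁, y₁) ≠ s(c₂, x₂) ∧ s(c₁, y₁) ≠ s(c₂, y₂) := by
  have hne : c.supp.Nonempty := by
    rw [← Set.ncard_pos]; omega
  obtain ⟨g0, hg0⟩ := hne
  obtain ⟨a0, ha0, g1, hg1, hn1, hadj1⟩ := grow F c {g0} (by simpa using hg0) (by simp)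
    (by rw [Set.ncard_singleton]; omega) (Set.toFinite _)
  obtain rfl : a0 = g0 := by simpa using ha0
  obtain ⟨a1, ha1, g2, hg2, hn2, hadj2⟩ := grow F c {a0, g1}
    (by intro t ht; rcases ht with rfl | rfl <;> assumption) (by simp)
    (by have := Set.ncard_insert_le a0 {g1}; rw [Set.ncard_singleton] at this; omega)
    (Set.toFinite _)
  -- the path `r - q - r'`
  obtain ⟨q, r, r', hq, hr, hr', hqr, hqr', hrr'⟩ : ∃ q r r', q ∈ c.supp ∧ r ∈ c.supp ∧
      r' ∈ c.supp ∧ F.Adj q r ∧ F.Adj q r' ∧ r ≠ r' := by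
    simp only [Set.mem_insert_iff, Set.mem_singleton_iff, not_or] at hn2 ha1
    rcases ha1 with rfl | rfl
    · exact ⟨a1, g1, g2, hg0, hg1, hg2, hadj1, hadj2, fun h => hn2.2 h.symm⟩
    · exact ⟨a1, a0, g2, hg1, hg0, hg2, hadj1.symm, hadj2, fun h => hn2.1 h.symm⟩
  obtain ⟨a3, ha3, g3, hg3, hn3, hadj3⟩ := grow F c {q, r, r'}
    (by intro t ht; rcases ht with rfl | rfl | rfl <;> assumption) (by simp)
    (by
      have := Set.ncard_insert_le q {r, r'}
      have h2 := Set.ncard_insert_le r {r'}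
      rw [Set.ncard_singleton] at h2; omega)
    (Set.toFinite _)
  obtain ⟨a4, ha4, g4, hg4, hn4, hadj4⟩ := grow F c {g3, q, r, r'}
    (by intro t ht; rcases ht with rfl | rfl | rfl | rfl <;> assumption) (by simp)
    (by
      have h0 := Set.ncard_insert_le g3 {q, r, r'}
      have := Set.ncard_insert_le q {r, r'}
      have h2 := Set.ncard_insert_le r {r'}
      rw [Set.ncard_singleton] at h2; omega)
    (Set.toFinite _)
  simp only [Set.mem_insert_iff, Set.mem_singleton_iff, not_or] at hn3 hn4 ha3 ha4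
  obtain ⟨h3q, h3r, h3r'⟩ := hn3
  obtain ⟨h43, h4q, h4r, h4r'⟩ := hn4
  have hq_r : q ≠ r := hqr.ne
  have hq_r' : q ≠ r' := hqr'.ne
  have ha3c : a3 ∈ c.supp := by rcases ha3 with rfl | rfl | rfl <;> assumption
  have ha3n : a3 ≠ g3 := hadj3.ne
  rcases ha4 with rfl | ha4
  · -- `g4` is attached to `g3`
    refine ⟨q, r, r', a4, a3, g4, hq, hg3, hqr, hqr', hrr', hadj3.symm, hadj4, ?_, ?_, ?_, ?_, ?_⟩
    · rcases ha3 with rfl | rfl | rfl <;> exact fun h => by simp_all
    · exact sym_ne (Or.inl (Ne.symm h3q)) (Or.inr (Ne.symm h3r))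
    · exact sym_ne (Or.inl (Ne.symm h3q)) (Or.inr (Ne.symm h3r))
    · exact sym_ne (Or.inl (Ne.symm h3q)) (Or.inr (Ne.symm h3r'))
    · exact sym_ne (Or.inl (Ne.symm h3q)) (Or.inr (Ne.symm h3r'))
  · have ha4c : a4 ∈ c.supp := by rcases ha4 with rfl | rfl | rfl <;> assumption
    by_cases h34 : a3 = a4
    · subst h34
      refine ⟨q, r, r', a3, g3, g4, hq, ha3c, hqr, hqr', hrr', hadj3, hadj4, Ne.symm h43, ?_, ?_,
        ?_, ?_⟩
      · exact sym_ne (Or.inr (Ne.symm h3r)) (Or.inl (Ne.symm h3q))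
      · exact sym_ne (Or.inr (Ne.symm h4r)) (Or.inl (Ne.symm h4q))
      · exact sym_ne (Or.inr (Ne.symm h3r')) (Or.inl (Ne.symm h3q))
      · exact sym_ne (Or.inr (Ne.symm h4r')) (Or.inl (Ne.symm h4q))
    · -- two different attachment points: one is a leaf of the path
      have key : ∀ ρ ρ' s g g' : W, ρ ∈ c.supp → ρ' ∈ c.supp → F.Adj q ρ → F.Adj q ρ' → ρ ≠ ρ' →
          F.Adj ρ g → F.Adj s g' → g ≠ g' → g ≠ q → g ≠ ρ → g ≠ ρ' → g' ≠ q → g' ≠ ρ → g' ≠ ρ' →
          (s = q ∨ s = ρ') → 
          ∃ c₁ x₁ y₁ c₂ x₂ y₂ : W, c₁ ∈ c.supp ∧ c₂ ∈ c.supp ∧ F.Adj c₁ x₁ ∧ F.Adj c₁ y₁ ∧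
            x₁ ≠ y₁ ∧ F.Adj c₂ x₂ ∧ F.Adj c₂ y₂ ∧ x₂ ≠ y₂ ∧
            s(c₁, x₁) ≠ s(c₂, x₂) ∧ s(c₁, x₁) ≠ s(c₂, y₂) ∧
            s(c₁, y₁) ≠ s(c₂, x₂) ∧ s(c₁, y₁) ≠ s(c₂, y₂) := by
        intro ρ ρ' s g g' hρ hρ' hqρ hqρ' hne hg hg' h1 h2 h3 h4 h5 h6 h7 hs
        have e1 : q ≠ ρ := hqρ.ne
        have e2 : q ≠ ρ' := hqρ'.ne
        rcases hs with rfl | rfl
        · refine ⟨ρ, g, s, s, g', ρ', hρ, hq, hg, hqρ.symm, h2, hg', hqρ', h7, ?_, ?_, ?_, ?_⟩
          · exact sym_ne (Or.inr h1) (Or.inr h2)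
          · exact sym_ne (Or.inr h4) (Or.inr h2)
          · exact sym_ne (Or.inl (Ne.symm e1)) (Or.inl (Ne.symm h6))
          · exact sym_ne (Or.inl (Ne.symm e1)) (Or.inl hne)
        · refine ⟨ρ, g, q, s, g', q, hρ, hρ', hg, hqρ.symm, h2, hg', hqρ'.symm, h5, ?_, ?_, ?_, ?_⟩
          · exact sym_ne (Or.inl hne) (Or.inr h4)
          · exact sym_ne (Or.inl hne) (Or.inr h4)
          · exact sym_ne (Or.inl hne) (Or.inr e2)
          · exact sym_ne (Or.inl hne) (Or.inr e2)
      rcases ha3 with rfl | rfl | rfl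
      · -- a3 = q; a4 = r or r'
        rcases ha4 with rfl | rfl | rfl
        · exact absurd rfl h34
        · exact key a4 r' a3 g4 g3 hr hr' hqr hqr' hrr' hadj4 hadj3 h43 h4q h4r h4r' h3q h3r h3r'
            (Or.inl rfl)
        · exact key a4 r a3 g4 g3 hr' hr hqr' hqr (Ne.symm hrr') hadj4 hadj3 h43 h4q h4r' h4r h3q
            h3r' h3r (Or.inl rfl)
      · rcases ha4 with rfl | rfl | rfl
        · exact key a3 r' a4 g3 g4 hr hr' hqr hqr' hrr' hadj3 hadj4 (Ne.symm h43) h3q h3r h3r' h4q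
            h4r h4r' (Or.inl rfl)
        · exact absurd rfl h34
        · exact key a3 a4 a4 g3 g4 hr hr' hqr hqr' hrr' hadj3 hadj4 (Ne.symm h43) h3q h3r h3r' h4q
            h4r h4r' (Or.inr rfl)
      · rcases ha4 with rfl | rfl | rfl
        · exact key a3 r a4 g3 g4 hr' hr hqr' hqr (Ne.symm hrr') hadj3 hadj4 (Ne.symm h43) h3q
            h3r' h3r h4q h4r' h4r (Or.inl rfl)
        · exact key a3 a4 a4 g3 g4 hr' hr hqr' hqr (Ne.symm hrr') hadj3 hadj4 (Ne.symm h43) h3q
            h3r' h3r h4q h4r' h4r (Or.inr rfl)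
        · exact absurd rfl h34

/-- a nonempty finite forest has a vertex with at most one neighbour. -/
theorem forest_leaf {U : Type*} [Finite U] [Nonempty U] (G : SimpleGraph U) (h : G.IsAcyclic) :
    ∃ v, ∀ a b, G.Adj v a → G.Adj v b → a = b := by
  classical
  obtain ⟨u⟩ := (inferInstance : Nonempty U)
  set c := G.connectedComponentMk u with hc
  have huc : u ∈ c.supp := rfl
  have hT := h.isTree_connectedComponent c
  by_cases hnt : Nontrivial c.supp
  · haveI : Fintype c.supp := Fintype.ofFinite _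
    haveI : Nontrivial c := hnt
    haveI : Fintype c := (inferInstance : Fintype c.supp)
    obtain ⟨v, hv⟩ := hT.exists_vert_degree_one_of_nontrivial
    rw [SimpleGraph.degree_eq_one_iff_existsUnique_adj] at hv
    obtain ⟨w, hw, huniq⟩ := hv
    have hmem : ∀ a, G.Adj v.1 a → a ∈ c.supp := by
      intro a ha
      have h1 : G.connectedComponentMk v.1 = c := v.2
      show G.connectedComponentMk a = c
      rw [← h1]
      exact (SimpleGraph.ConnectedComponent.sound ha.reachable).symm
    refine ⟨v.1, fun a b ha hb => ?_⟩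
    have h1 := huniq ⟨a, hmem a ha⟩ ((c.toSimpleGraph_adj v.2 (hmem a ha)).2 ha)
    have h2 := huniq ⟨b, hmem b hb⟩ ((c.toSimpleGraph_adj v.2 (hmem b hb)).2 hb)
    have := h1.trans h2.symm
    exact congrArg Subtype.val this
  · rw [not_nontrivial_iff_subsingleton] at hnt
    refine ⟨u, fun a b ha hb => ?_⟩
    exfalso
    have hac : a ∈ c.supp := by
      show G.connectedComponentMk a = c
      exact (SimpleGraph.ConnectedComponent.sound ha.reachable).symm
    have := Subsingleton.elim (⟨u, huc⟩ : c.supp) ⟨a, hac⟩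
    exact ha.ne (congrArg Subtype.val this)

/-- the greedy embedding of a part of a forest. -/
theorem forest_part {W : Type*} [Finite W] (F : SimpleGraph W) (hF : F.IsAcyclic)
    {V : Type*} (H : SimpleGraph V) [DecidableRel H.Adj] [DecidableEq V] (X : Finset V)
    (hne : X.Nonempty) (d : ℕ)
    (hX : ∀ v ∈ X, d ≤ (X.filter (fun u => H.Adj v u)).card) (hd : 1 ≤ d) :
    ∀ (n : ℕ) (S : Finset W), S.card = n → n ≤ d → ∃ g : W → V, (∀ w ∈ S, g w ∈ X) ∧
      (∀ u ∈ S, ∀ w ∈ S, g u = g w → u = w) ∧ (∀ u ∈ S, ∀ w ∈ S, F.Adj u w → H.Adj (g u) (g w)) := by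
  classical
  intro n
  induction n with
  | zero =>
    intro S hS _
    obtain rfl := Finset.card_eq_zero.1 hS
    obtain ⟨x, hx⟩ := hne
    exact ⟨fun _ => x, by simp, by simp, by simp⟩
  | succ n ih =>
    intro S hS hn
    have hSne : S.Nonempty := by rw [← Finset.card_pos]; omega
    haveI : Nonempty (S : Set W) := hSne.to_subtype
    haveI : Finite (S : Set W) := (S.finite_toSet).to_subtype
    obtain ⟨v, hv⟩ := forest_leaf (F.induce (S : Set W)) (hF.induce _)
    have hvS : v.1 ∈ S := v.2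
    have hv' : ∀ a ∈ S, ∀ b ∈ S, F.Adj v.1 a → F.Adj v.1 b → a = b := by
      intro a ha b hb h1 h2
      have := hv ⟨a, ha⟩ ⟨b, hb⟩ (by simpa using h1) (by simpa using h2)
      exact congrArg Subtype.val this
    obtain ⟨g, hg1, hg2, hg3⟩ := ih (S.erase v.1) (by rw [Finset.card_erase_of_mem hvS]; omega)
      (by omega)
    have himg : ((S.erase v.1).image g).card ≤ n :=
      Finset.card_image_le.trans (by rw [Finset.card_erase_of_mem hvS]; omega)
    -- choose the new image
    have hex : ∃ y ∈ X, y ∉ (S.erase v.1).image g ∧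
        ∀ a ∈ S.erase v.1, F.Adj v.1 a → H.Adj y (g a) := by
      by_cases hnb : ∃ a ∈ S.erase v.1, F.Adj v.1 a
      · obtain ⟨a, ha, hva⟩ := hnb
        have hga := hg1 a ha
        have hcard : ((S.erase v.1).image g).card < (X.filter (fun u => H.Adj (g a) u)).card :=
          lt_of_lt_of_le (by omega) (hX _ hga)
        obtain ⟨y, hy, hy'⟩ := Finset.exists_mem_notMem_of_card_lt_card hcard
        rw [Finset.mem_filter] at hy
        refine ⟨y, hy.1, hy', fun b hb hvb => ?_⟩
        obtain rfl := hv' a (Finset.mem_of_mem_erase ha) b (Finset.mem_of_mem_erase hb) hva hvb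
        exact hy.2.symm
      · push Not at hnb
        obtain ⟨x, hx⟩ := hne
        have hcard : ((S.erase v.1).image g).card < X.card :=
          lt_of_lt_of_le (by omega) ((hX x hx).trans (Finset.card_filter_le _ _))
        obtain ⟨y, hy, hy'⟩ := Finset.exists_mem_notMem_of_card_lt_card hcard
        exact ⟨y, hy, hy', fun a ha hva => absurd hva (hnb a ha)⟩
    obtain ⟨y, hyX, hyn, hyadj⟩ := hex
    refine ⟨fun w => if w = v.1 then y else g w, ?_, ?_, ?_⟩
    · intro w hw
      by_cases h : w = v.1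
      · simp [h, hyX]
      · simp only [h, if_false]
        exact hg1 w (Finset.mem_erase.2 ⟨h, hw⟩)
    · intro u hu w hw huw
      by_cases h1 : u = v.1 <;> by_cases h2 : w = v.1
      · rw [h1, h2]
      · simp only [h1, h2, if_true, if_false] at huw
        exact absurd (Finset.mem_image.2 ⟨w, Finset.mem_erase.2 ⟨h2, hw⟩, huw.symm⟩) hyn
      · simp only [h1, h2, if_true, if_false] at huw
        exact absurd (Finset.mem_image.2 ⟨u, Finset.mem_erase.2 ⟨h1, hu⟩, huw⟩) hyn
      · simp only [h1, h2, if_false] at huw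
        exact hg2 u (Finset.mem_erase.2 ⟨h1, hu⟩) w (Finset.mem_erase.2 ⟨h2, hw⟩) huw
    · intro u hu w hw huw
      by_cases h1 : u = v.1 <;> by_cases h2 : w = v.1
      · exact absurd (h1.trans h2.symm) huw.ne
      · simp only [h1, h2, if_true, if_false]
        exact hyadj w (Finset.mem_erase.2 ⟨h2, hw⟩) (h1 ▸ huw)
      · simp only [h1, h2, if_true, if_false]
        exact (hyadj u (Finset.mem_erase.2 ⟨h1, hu⟩) (h2 ▸ huw.symm)).symm
      · simp only [h1, h2, if_false]
        exact hg3 u (Finset.mem_erase.2 ⟨h1, hu⟩) w (Finset.mem_erase.2 ⟨h2, hw⟩) huw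

/-- a part of large minimum degree. -/
theorem exists_core {V : Type*} [DecidableEq V] (H : SimpleGraph V) [DecidableRel H.Adj] (d : ℕ) :
    ∀ (n : ℕ) (X : Finset V), X.card = n →
      2 * d * n < ((X ×ˢ X).filter (fun p => H.Adj p.1 p.2)).card →
      ∃ Y : Finset V, Y.Nonempty ∧ ∀ v ∈ Y, d ≤ (Y.filter (fun u => H.Adj v u)).card := by
  intro n
  induction n with
  | zero =>
    intro X hX h
    obtain rfl := Finset.card_eq_zero.1 hX
    simp at h
  | succ n ih =>
    intro X hX h
    by_cases hall : ∀ v ∈ X, d ≤ (X.filter (fun u => H.Adj v u)).card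
    · exact ⟨X, by rw [← Finset.card_pos]; omega, hall⟩
    · push Not at hall
      obtain ⟨v, hv, hlt⟩ := hall
      refine ih (X.erase v) (by rw [Finset.card_erase_of_mem hv]; omega) ?_
      have hsub : (X ×ˢ X).filter (fun p => H.Adj p.1 p.2) ⊆
          (((X.erase v) ×ˢ (X.erase v)).filter (fun p => H.Adj p.1 p.2)) ∪
          ((X.filter (fun u => H.Adj v u)).image (fun u => (v, u)) ∪
            (X.filter (fun u => H.Adj v u)).image (fun u => (u, v))) := by
        rintro ⟨a, b⟩ hab
        simp only [Finset.mem_filter, Finset.mem_product] at hab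
        simp only [Finset.mem_union, Finset.mem_filter, Finset.mem_product, Finset.mem_erase,
          Finset.mem_image, Prod.mk.injEq]
        by_cases h1 : a = v
        · subst h1
          exact Or.inr (Or.inl ⟨b, ⟨hab.1.2, hab.2⟩, rfl, rfl⟩)
        · by_cases h2 : b = v
          · subst h2
            exact Or.inr (Or.inr ⟨a, ⟨hab.1.1, hab.2.symm⟩, rfl, rfl⟩)
          · exact Or.inl ⟨⟨⟨h1, hab.1.1⟩, ⟨h2, hab.1.2⟩⟩, hab.2⟩
      have h1 := Finset.card_le_card hsub
      have h2 := Finset.card_union_le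
        (((X.erase v) ×ˢ (X.erase v)).filter (fun p => H.Adj p.1 p.2))
        ((X.filter (fun u => H.Adj v u)).image (fun u => (v, u)) ∪
            (X.filter (fun u => H.Adj v u)).image (fun u => (u, v)))
      have h3 := Finset.card_union_le ((X.filter (fun u => H.Adj v u)).image (fun u => (v, u)))
            ((X.filter (fun u => H.Adj v u)).image (fun u => (u, v)))
      have h4 : ((X.filter (fun u => H.Adj v u)).image (fun u => (v, u))).card ≤
        (X.filter (fun u => H.Adj v u)).card := Finset.card_image_le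
      have h5 : ((X.filter (fun u => H.Adj v u)).image (fun u => (u, v))).card ≤
        (X.filter (fun u => H.Adj v u)).card := Finset.card_image_le
      have h6 : 2 * d * (n + 1) = 2 * d * n + 2 * d := by ring
      omega

theorem forest_edges {W : Type*} [Fintype W] (F : SimpleGraph W) (hF : F.IsAcyclic)
    {V : Type*} [Fintype V] (H : SimpleGraph V) (hH : F.Free H) :
    H.edgeSet.ncard ≤ Fintype.card W * Fintype.card V := by
  classical
  by_contra hcon
  push Not at hcon
  have hdeg : ((Finset.univ ×ˢ Finset.univ : Finset (V × V)).filter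
      (fun p => H.Adj p.1 p.2)).card = 2 * H.edgeSet.ncard := by
    have h1 := H.sum_degrees_eq_twice_card_edges
    have h2 : H.edgeSet.ncard = H.edgeFinset.card := by
      rw [← SimpleGraph.coe_edgeFinset, Set.ncard_coe_finset]
    rw [h2, ← h1, Finset.card_filter, Finset.sum_product]
    refine Finset.sum_congr rfl fun v _ => ?_
    rw [← Finset.card_filter, ← SimpleGraph.card_neighborFinset_eq_degree]
    congr 1
    ext u
    simp
  obtain ⟨Y, hY, hYd⟩ := exists_core H (Fintype.card W) (Fintype.card V) Finset.univ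
    (Finset.card_univ) (by
      rw [hdeg]
      have : 2 * Fintype.card W * Fintype.card V = 2 * (Fintype.card W * Fintype.card V) := by ring
      omega)
  rcases isEmpty_or_nonempty W with hW | hW
  · exact hH ⟨⟨⟨fun w => (hW.false w).elim, fun {a} => (hW.false a).elim⟩,
      fun a => (hW.false a).elim⟩⟩
  obtain ⟨g, hg1, hg2, hg3⟩ := forest_part F hF H Y hY (Fintype.card W) hYd Fintype.card_pos
    (Fintype.card W) Finset.univ Finset.card_univ le_rfl
  exact hH ⟨⟨⟨g, fun {a b} hab => hg3 a (Finset.mem_univ _) b (Finset.mem_univ _) hab⟩,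
    fun a b hab => hg2 a (Finset.mem_univ _) b (Finset.mem_univ _) hab⟩⟩

/-- a forest is bipartite. -/
theorem forest_two {W : Type*} [Finite W] (F : SimpleGraph W) (hF : F.IsAcyclic) :
    ∃ χ : W → Bool, ∀ u v, F.Adj u v → χ u ≠ χ v := by
  obtain ⟨C⟩ := hF.colorable_two
  refine ⟨fun w => decide (C w = 0), fun u v huv h => ?_⟩
  have h1 := C.valid huv
  simp only [decide_eq_decide] at h
  apply h1
  have h2 : ∀ x y : Fin 2, (x = 0 ↔ y = 0) → x = y := by decide
  exact h2 _ _ h

end MP_0a9719_co
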