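import Pool.Agent.Lib.MP_0a9719_co.Work

/-! MP_0a9719_co, module Cnt: the number of orientations of a graph.

Proof of `ncard_or`. Choose a linear order on `V` (e.g. from `Finite.exists_equiv_fin` or
`linearOrderOfSTO`, or `Fintype.equivFin`). Map an orientation `D` to the set of edges
`s(u, v)` of `G` with `u < v` and `D u v`. This is a bijection from the orientations of `G` onto
the subsets of `G.edgeSet` (inverse: `D u v` iff `G.Adj u v` and (`u < v` and `s(u,v) ∈ S`, or
`v < u` and `s(u,v) ∉ S`)). The powerset of a finite set with `m` elements has `2 ^ m` elements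
(`Set.ncard_powerset`). Alternative: induction on the number of edges. -/

namespace MP_0a9719_co

/-- the orientation given by a set of edges -/
private def Cnt_or {V : Type*} (f : V → ℕ) (G : SimpleGraph V) (S : Set (Sym2 V)) :
    V → V → Prop :=
  fun u v => G.Adj u v ∧ ((f u < f v ∧ s(u, v) ∈ S) ∨ (f v < f u ∧ s(u, v) ∉ S))

private theorem Cnt_isOr {V : Type*} (f : V → ℕ) (hf : Function.Injective f)
    (G : SimpleGraph V) (S : Set (Sym2 V)) : IsOr G (Cnt_or f G S) := by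
  intro u v
  refine ⟨⟨fun h => ?_, ?_⟩, ?_⟩
  · have hne : f u ≠ f v := fun h1 => h.ne (hf h1)
    rcases lt_or_gt_of_ne hne with h1 | h1
    · by_cases h2 : s(u, v) ∈ S
      · exact Or.inl ⟨h, Or.inl ⟨h1, h2⟩⟩
      · refine Or.inr ⟨h.symm, Or.inr ⟨h1, ?_⟩⟩
        rwa [Sym2.eq_swap]
    · by_cases h2 : s(u, v) ∈ S
      · refine Or.inr ⟨h.symm, Or.inl ⟨h1, ?_⟩⟩
        rwa [Sym2.eq_swap]
      · exact Or.inl ⟨h, Or.inr ⟨h1, h2⟩⟩
  · rintro (h | h)
    · exact h.1
    · exact h.1.symm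
  · rintro ⟨⟨-, h1⟩, -, h2⟩
    rw [Sym2.eq_swap (a := v) (b := u)] at h2
    rcases h1 with ⟨h1, h3⟩ | ⟨h1, h3⟩
    · rcases h2 with ⟨h2, h4⟩ | ⟨h2, h4⟩
      · omega
      · exact h4 h3
    · rcases h2 with ⟨h2, h4⟩ | ⟨h2, h4⟩
      · exact h3 h4
      · omega

private theorem Cnt_sub {V : Type*} (f : V → ℕ) (hf : Function.Injective f)
    (G : SimpleGraph V) {S T : Set (Sym2 V)} (hS : S ⊆ G.edgeSet)
    (h : Cnt_or f G S = Cnt_or f G T) : S ⊆ T := by
  intro e he
  induction e using Sym2.ind with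
  | _ u v =>
    have key : ∀ u v : V, s(u, v) ∈ S → G.Adj u v → f u < f v → s(u, v) ∈ T := by
      intro u v h1 h2 h3
      have h4 : Cnt_or f G S u v := ⟨h2, Or.inl ⟨h3, h1⟩⟩
      rw [h] at h4
      rcases h4.2 with h5 | h5
      · exact h5.2
      · exact absurd h3 (not_lt.2 h5.1.le)
    have hadj : G.Adj u v := hS he
    have hne : f u ≠ f v := fun h1 => hadj.ne (hf h1)
    rcases lt_or_gt_of_ne hne with h1 | h1
    · exact key u v he hadj h1
    · rw [Sym2.eq_swap] at he ⊢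
      exact key v u he hadj.symm h1

private theorem Cnt_surj {V : Type*} (f : V → ℕ) (hf : Function.Injective f)
    (G : SimpleGraph V) (D : V → V → Prop) (hD : IsOr G D) :
    ∃ S, ∃ _ : S ⊆ G.edgeSet, Cnt_or f G S = D := by
  refine ⟨{e | ∃ u v, e = s(u, v) ∧ f u < f v ∧ D u v}, ?_, ?_⟩
  · rintro _ ⟨u, v, rfl, -, h⟩
    exact (hD u v).1.2 (Or.inl h)
  · have key : ∀ u v : V, f u < f v →
        (s(u, v) ∈ {e | ∃ u v, e = s(u, v) ∧ f u < f v ∧ D u v} ↔ D u v) := by
      intro u v h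
      constructor
      · rintro ⟨u', v', h1, h2, h3⟩
        rcases Sym2.eq_iff.1 h1 with ⟨rfl, rfl⟩ | ⟨rfl, rfl⟩
        · exact h3
        · omega
      · intro h1
        exact ⟨u, v, rfl, h, h1⟩
    funext u v
    apply propext
    constructor
    · rintro ⟨hadj, ⟨h1, h2⟩ | ⟨h1, h2⟩⟩
      · exact (key u v h1).1 h2
      · rw [Sym2.eq_swap, key v u h1] at h2
        rcases (hD u v).1.1 hadj with h3 | h3
        · exact h3
        · exact absurd h3 h2
    · intro h
      have hadj : G.Adj u v := (hD u v).1.2 (Or.inl h)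
      have hne : f u ≠ f v := fun h1 => hadj.ne (hf h1)
      refine ⟨hadj, ?_⟩
      rcases lt_or_gt_of_ne hne with h1 | h1
      · exact Or.inl ⟨h1, (key u v h1).2 h⟩
      · refine Or.inr ⟨h1, ?_⟩
        rw [Sym2.eq_swap, key v u h1]
        exact fun h2 => (hD u v).2 ⟨h, h2⟩

theorem ncard_or {V : Type*} [Finite V] (G : SimpleGraph V) :
    {D : V → V → Prop | IsOr G D}.ncard = 2 ^ G.edgeSet.ncard := by
  obtain ⟨f, hf⟩ : ∃ f : V → ℕ, Function.Injective f := by
    obtain ⟨n, ⟨e⟩⟩ := Finite.exists_equiv_fin V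
    exact ⟨fun v => (e v : ℕ), fun u v h => e.injective (Fin.ext h)⟩
  have hfin : G.edgeSet.Finite := Set.toFinite _
  rw [← Set.ncard_powerset G.edgeSet hfin]
  symm
  refine Set.ncard_congr (fun S _ => Cnt_or f G S) ?_ ?_ ?_
  · intro S _
    exact Cnt_isOr f hf G S
  · intro S T hS hT h
    exact Set.Subset.antisymm (Cnt_sub f hf G hS h) (Cnt_sub f hf G hT h.symm)
  · intro D hD
    obtain ⟨S, hS, h⟩ := Cnt_surj f hf G D hD
    exact ⟨S, hS, h⟩

end MP_0a9719_co
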