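import Pool.Agent.Lib.MP_0a9719_co.Work

/-! MP_0a9719_co, module Comp: the components of a forest with two, three or four vertices.

`F.IsAcyclic`, `c` a connected component; `c.supp` its vertex set (`u ∈ c.supp` iff
`F.connectedComponentMk u = c`); adjacent vertices lie in the same component, and a proper nonempty
subset `S` of `c.supp` is joined to `c.supp \ S` by an edge (take a walk from `S` to the
complement; or: otherwise `S` is closed under adjacency and contains everything reachable).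
`comp_two`: the two vertices are joined. `comp_three`: `c.supp = {u, v, w}`; some edge, say `uv`, and `w`
is adjacent to `u` or `v`, not to both (a triangle is a cycle). `comp_star`: the three neighbours of
the vertex of degree three are in `c.supp`, no two of them are adjacent (triangle). `comp_path`:
start with three vertices `x, y, z` with `y` adjacent to `x` and `z` (grow from an edge), the fourth
vertex `w` is adjacent to some of them; not to `y` (then `y` would have degree `3`: all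
neighbours of `y` are in `c.supp`, so its neighbour set would be `{x, z, w}`); so `w` is adjacent
to `x` or `z`, not to both (4-cycle), and `x`, `z` are not adjacent (triangle). Cycles as walks:
`SimpleGraph.IsAcyclic` says every walk is not a cycle; for short cycles it is convenient to
use `SimpleGraph.isAcyclic_iff_path_unique` (two different paths between two vertices). -/

namespace MP_0a9719_co

variable {W : Type*} [Finite W]

omit [Finite W] in
private theorem Comp_adj {F : SimpleGraph W} {c : F.ConnectedComponent} {u v : W}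
    (hu : u ∈ c.supp) (h : F.Adj u v) : v ∈ c.supp :=
  (c.mem_supp_congr_adj h).1 hu

omit [Finite W] in
private theorem Comp_edge {F : SimpleGraph W} {c : F.ConnectedComponent} {S : Set W}
    (hS : S ⊆ c.supp) (hne : S.Nonempty) (hn : S ≠ c.supp) :
    ∃ a ∈ S, ∃ b ∈ c.supp, b ∉ S ∧ F.Adj a b := by
  obtain ⟨s, hs⟩ := hne
  obtain ⟨t, ht, htS⟩ : ∃ t ∈ c.supp, t ∉ S := by
    by_contra hcon
    push Not at hcon
    exact hn (Set.Subset.antisymm hS hcon)
  have h1 : F.connectedComponentMk s = F.connectedComponentMk t := by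
    have h2 : F.connectedComponentMk s = c := hS hs
    have h3 : F.connectedComponentMk t = c := ht
    rw [h2, h3]
  obtain ⟨p⟩ := SimpleGraph.ConnectedComponent.exact h1
  obtain ⟨d, -, hd1, hd2⟩ := p.exists_boundary_dart S hs htS
  exact ⟨d.fst, hd1, d.snd, Comp_adj (hS hd1) d.adj, hd2, d.adj⟩

omit [Finite W] in
private theorem Comp_tri {F : SimpleGraph W} (hF : F.IsAcyclic) {a b c : W} (hac : a ≠ c)
    (h1 : F.Adj a b) (h2 : F.Adj b c) : ¬ F.Adj a c := by
  intro h3
  have hab := h1.ne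
  have hbc := h2.ne
  have h := hF.path_unique
    (⟨.cons h1 (.cons h2 .nil), by simp [SimpleGraph.Walk.isPath_def, hab, hbc, hac]⟩ : F.Path a c)
    (⟨.cons h3 .nil, by simp [SimpleGraph.Walk.isPath_def, hac]⟩ : F.Path a c)
  have h4 := congrArg (fun p : F.Path a c => p.1.length) h
  simp at h4

omit [Finite W] in
private theorem Comp_sq {F : SimpleGraph W} (hF : F.IsAcyclic) {a b c d : W} (hac : a ≠ c)
    (had : a ≠ d) (hbd : b ≠ d) (h1 : F.Adj a b) (h2 : F.Adj b c) (h3 : F.Adj c d) :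
    ¬ F.Adj a d := by
  intro h5
  have hab := h1.ne
  have hbc := h2.ne
  have hcd := h3.ne
  have h := hF.path_unique
    (⟨.cons h1 (.cons h2 (.cons h3 .nil)), by
      simp [SimpleGraph.Walk.isPath_def, hab, hbc, hac, hcd, had, hbd]⟩ : F.Path a d)
    (⟨.cons h5 .nil, by simp [SimpleGraph.Walk.isPath_def, had]⟩ : F.Path a d)
  have h4 := congrArg (fun p : F.Path a d => p.1.length) h
  simp at h4

/-- a vertex with two neighbours in a component with at least three vertices -/
private theorem Comp_grow {F : SimpleGraph W} {c : F.ConnectedComponent}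
    (h : 3 ≤ c.supp.ncard) : ∃ x y z, x ≠ y ∧ x ≠ z ∧ y ≠ z ∧ F.Adj y x ∧ F.Adj y z ∧
      x ∈ c.supp ∧ y ∈ c.supp ∧ z ∈ c.supp := by
  obtain ⟨a, ha⟩ : c.supp.Nonempty := by
    rw [Set.nonempty_iff_ne_empty]
    intro h0
    rw [h0, Set.ncard_empty] at h
    omega
  have h1 : ({a} : Set W) ≠ c.supp := by
    intro h0
    rw [← h0, Set.ncard_singleton] at h
    omega
  obtain ⟨a', ha', u, hu, hua, hau⟩ := Comp_edge (Set.singleton_subset_iff.2 ha)
    (Set.singleton_nonempty a) h1
  rw [Set.mem_singleton_iff] at ha' hua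
  rw [ha'] at hau
  have h2 : ({a, u} : Set W) ≠ c.supp := by
    intro h0
    have := Set.ncard_insert_le a {u}
    rw [h0, Set.ncard_singleton] at this
    omega
  obtain ⟨p, hp, w, hw, hwS, hpw⟩ := Comp_edge (S := {a, u})
    (Set.insert_subset ha (Set.singleton_subset_iff.2 hu)) (Set.insert_nonempty a _) h2
  rw [Set.mem_insert_iff, Set.mem_singleton_iff, not_or] at hwS
  rcases hp with rfl | hp
  · exact ⟨u, p, w, hua, Ne.symm hwS.2, Ne.symm hwS.1, hau, hpw, hu, ha, hw⟩
  · rw [Set.mem_singleton_iff] at hp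
    rw [hp] at hpw
    exact ⟨a, u, w, Ne.symm hua, Ne.symm hwS.1, Ne.symm hwS.2, hau.symm, hpw, ha, hu, hw⟩

private theorem Comp_three {x y z : W} (h1 : x ≠ y) (h2 : x ≠ z) (h3 : y ≠ z) :
    ({x, y, z} : Set W).ncard = 3 := by
  rw [Set.ncard_eq_three]
  exact ⟨x, y, z, h1, h2, h3, rfl⟩

private theorem Comp_four {x y z w : W} (h1 : x ≠ y) (h2 : x ≠ z) (h3 : x ≠ w) (h4 : y ≠ z)
    (h5 : y ≠ w) (h6 : z ≠ w) : ({x, y, z, w} : Set W).ncard = 4 := by
  rw [Set.ncard_insert_of_notMem (by simp [h1, h2, h3]), Comp_three h4 h5 h6]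

private theorem Comp_supp {S T : Set W} (h : S ⊆ T) (hc : T.ncard = S.ncard) : T = S :=
  (Set.eq_of_subset_of_ncard_le h hc.le (Set.toFinite T)).symm

theorem comp_two (F : SimpleGraph W) (c : F.ConnectedComponent) (h : c.supp.ncard = 2) :
    ∃ u v, u ≠ v ∧ F.Adj u v ∧ c.supp = {u, v} := by
  obtain ⟨u, v, huv, hs⟩ := Set.ncard_eq_two.1 h
  have hu : u ∈ c.supp := by rw [hs]; exact Set.mem_insert _ _
  have h1 : ({u} : Set W) ≠ c.supp := by
    intro h0
    rw [← h0, Set.ncard_singleton] at h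
    omega
  obtain ⟨a, ha, b, hb, hba, hab⟩ := Comp_edge (Set.singleton_subset_iff.2 hu)
    (Set.singleton_nonempty u) h1
  rw [Set.mem_singleton_iff] at ha hba
  rw [ha] at hab
  rw [hs] at hb
  rcases hb with hb | hb
  · exact absurd hb hba
  · rw [Set.mem_singleton_iff] at hb
    rw [hb] at hab
    exact ⟨u, v, huv, hab, hs⟩

theorem comp_three (F : SimpleGraph W) (hF : F.IsAcyclic) (c : F.ConnectedComponent)
    (h : c.supp.ncard = 3) :
    ∃ x y z, x ≠ y ∧ x ≠ z ∧ y ≠ z ∧ F.Adj y x ∧ F.Adj y z ∧ ¬ F.Adj x z ∧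
      c.supp = {x, y, z} := by
  obtain ⟨x, y, z, h1, h2, h3, h4, h5, hx, hy, hz⟩ := Comp_grow (F := F) (c := c) (by omega)
  refine ⟨x, y, z, h1, h2, h3, h4, h5, Comp_tri hF h2 h4.symm h5, Comp_supp ?_ ?_⟩
  · intro t ht
    rcases ht with rfl | rfl | rfl
    · exact hx
    · exact hy
    · exact hz
  · rw [h, Comp_three h1 h2 h3]

theorem comp_star (F : SimpleGraph W) (hF : F.IsAcyclic) (c : F.ConnectedComponent)
    (h : c.supp.ncard = 4) (v : W) (hv : v ∈ c.supp) (h3 : (F.neighborSet v).ncard = 3) :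
    ∃ x y z, x ≠ y ∧ x ≠ z ∧ y ≠ z ∧ v ≠ x ∧ v ≠ y ∧ v ≠ z ∧ F.Adj v x ∧ F.Adj v y ∧
      F.Adj v z ∧ ¬ F.Adj x y ∧ ¬ F.Adj x z ∧ ¬ F.Adj y z ∧ c.supp = {v, x, y, z} := by
  obtain ⟨x, y, z, h4, h5, h6, hs⟩ := Set.ncard_eq_three.1 h3
  have hx : F.Adj v x := by
    have : x ∈ F.neighborSet v := by rw [hs]; simp
    exact this
  have hy : F.Adj v y := by
    have : y ∈ F.neighborSet v := by rw [hs]; simp
    exact this
  have hz : F.Adj v z := by
    have : z ∈ F.neighborSet v := by rw [hs]; simp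
    exact this
  refine ⟨x, y, z, h4, h5, h6, hx.ne, hy.ne, hz.ne, hx, hy, hz, Comp_tri hF h4 hx.symm hy,
    Comp_tri hF h5 hx.symm hz, Comp_tri hF h6 hy.symm hz, Comp_supp ?_ ?_⟩
  · intro t ht
    rcases ht with rfl | rfl | rfl | rfl
    · exact hv
    · exact Comp_adj hv hx
    · exact Comp_adj hv hy
    · exact Comp_adj hv hz
  · rw [h, Comp_four hx.ne hy.ne hz.ne h4 h5 h6]

theorem comp_path (F : SimpleGraph W) (hF : F.IsAcyclic) (c : F.ConnectedComponent)
    (h : c.supp.ncard = 4) (h3 : ∀ v ∈ c.supp, (F.neighborSet v).ncard ≠ 3) :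
    ∃ x y z w, x ≠ y ∧ x ≠ z ∧ x ≠ w ∧ y ≠ z ∧ y ≠ w ∧ z ≠ w ∧ F.Adj x y ∧ F.Adj y z ∧
      F.Adj z w ∧ ¬ F.Adj x z ∧ ¬ F.Adj x w ∧ ¬ F.Adj y w ∧ c.supp = {x, y, z, w} := by
  have key : ∀ x y z w : W, x ≠ y → x ≠ z → x ≠ w → y ≠ z → y ≠ w → z ≠ w → F.Adj x y →
      F.Adj y z → F.Adj z w → x ∈ c.supp → y ∈ c.supp → z ∈ c.supp → w ∈ c.supp →
      ∃ x y z w, x ≠ y ∧ x ≠ z ∧ x ≠ w ∧ y ≠ z ∧ y ≠ w ∧ z ≠ w ∧ F.Adj x y ∧ F.Adj y z ∧
      F.Adj z w ∧ ¬ F.Adj x z ∧ ¬ F.Adj x w ∧ ¬ F.Adj y w ∧ c.supp = {x, y, z, w} := by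
    intro x y z w h1 h2 h4 h5 h6 h7 hxy hyz hzw hx hy hz hw
    refine ⟨x, y, z, w, h1, h2, h4, h5, h6, h7, hxy, hyz, hzw, Comp_tri hF h2 hxy hyz,
      Comp_sq hF h2 h4 h6 hxy hyz hzw, Comp_tri hF h6 hyz hzw, Comp_supp ?_ ?_⟩
    · intro t ht
      rcases ht with rfl | rfl | rfl | rfl
      · exact hx
      · exact hy
      · exact hz
      · exact hw
    · rw [h, Comp_four h1 h2 h4 h5 h6 h7]
  obtain ⟨x, y, z, h1, h2, h4, hyx, hyz, hx, hy, hz⟩ := Comp_grow (F := F) (c := c) (by omega)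
  have hn : ({x, y, z} : Set W) ≠ c.supp := by
    intro h0
    rw [← h0, Comp_three h1 h2 h4] at h
    omega
  have hsub : ({x, y, z} : Set W) ⊆ c.supp := by
    intro t ht
    rcases ht with rfl | rfl | rfl
    · exact hx
    · exact hy
    · exact hz
  obtain ⟨p, hp, w, hw, hwS, hpw⟩ := Comp_edge hsub (Set.insert_nonempty x _) hn
  simp only [Set.mem_insert_iff, Set.mem_singleton_iff, not_or] at hwS hp
  obtain ⟨hwx, hwy, hwz⟩ := hwS
  rcases hp with rfl | rfl | rfl
  · exact key w p y z hwx hwy hwz h1 h2 h4 hpw.symm hyx.symm hyz hw hx hy hz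
  · exfalso
    refine h3 p hy ?_
    have hs : c.supp = {p, x, z, w} := by
      refine Comp_supp ?_ ?_
      · intro t ht
        rcases ht with rfl | rfl | rfl | rfl
        · exact hy
        · exact hx
        · exact hz
        · exact hw
      · rw [h, Comp_four (Ne.symm h1) h4 (Ne.symm hwy) h2 (Ne.symm hwx) (Ne.symm hwz)]
    have hN : F.neighborSet p = {x, z, w} := by
      ext t
      constructor
      · intro ht
        have ht1 : F.Adj p t := ht
        have ht2 := Comp_adj hy ht1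
        rw [hs] at ht2
        rcases ht2 with rfl | ht2
        · exact absurd rfl ht1.ne
        · exact ht2
      · rintro (rfl | rfl | rfl)
        · exact hyx
        · exact hyz
        · exact hpw
    rw [hN, Comp_three h2 (Ne.symm hwx) (Ne.symm hwz)]
  · exact key x y p w h1 h2 (Ne.symm hwx) h4 (Ne.symm hwy) (Ne.symm hwz) hyx.symm hyz hpw hx hy
      hz hw

end MP_0a9719_co
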