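import Pool.Agent.Lib.MP_0a9719_co.Cnt

/-! MP_0a9719_co, module Crit: criterion for property (P).

`numFree_free`: if `F.Free H` and `IsOr F A` then no orientation `D` of `H` contains `A` (a copy
`f` of `A` in `D` is an injective homomorphism from `F` to `H`: `F.Adj u v` gives `A u v` or `A v u`),
so `numFree A H = 2 ^ |E(H)|` by `ncard_or`.
`numFree_le`: `numFree A H ≤ 2 ^ |E(H)|`.
`numFree_iso`: transport along a bijection of the vertex sets.
`criterion`: given `n₀` take `n`, `V`, `H` and a bijection `V ≃ Fin n`; replace `H` by `H₀` on `Fin n`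
(`F.Free` and the number of edges are also transported). Among the finitely many graphs on
`Fin n` let `H₁` maximise `numFree A`. If `H₁` is not `EdgeExtremal F` we are done. Otherwise
`F.Free H₁` and `numFree A H₁ = 2 ^ |E(H₁)|`. Second alternative: `numFree A H₀ > numFree A H₁`,
contradiction. First alternative: `numFree A H₀ ≥ numFree A H₁`, so `H₀` is `OrExtremal A`, and it is
not `EdgeExtremal F` because `F` is contained in `H₀`. -/

namespace MP_0a9719_co

theorem numFree_free {W V : Type*} [Finite V] (F : SimpleGraph W) (A : W → W → Prop)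
    (hA : IsOr F A) (H : SimpleGraph V) (h : F.Free H) :
    numFree A H = 2 ^ H.edgeSet.ncard := by
  rw [← ncard_or H]
  unfold numFree
  congr 1
  ext D
  simp only [Set.mem_ofPred_eq, and_iff_left_iff_imp]
  rintro hD ⟨f, hf, hfA⟩
  refine h ⟨⟨⟨f, ?_⟩, hf⟩⟩
  intro u v huv
  rcases (hA u v).1.1 huv with h1 | h1
  · exact (hD _ _).1.2 (Or.inl (hfA _ _ h1))
  · exact (hD _ _).1.2 (Or.inr (hfA _ _ h1))

theorem numFree_iso {W V V' : Type*} (A : W → W → Prop) (H : SimpleGraph V) (e : V ≃ V') :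
    numFree A (H.map e.toEmbedding) = numFree A H := by
  set T : (V' → V' → Prop) → (V → V → Prop) := fun D u v => D (e u) (e v) with hT
  have hTinj : Function.Injective T := by
    intro D D' hDD
    funext u v
    have := congrFun (congrFun hDD (e.symm u)) (e.symm v)
    simpa [hT] using this
  unfold numFree
  rw [← Set.ncard_image_of_injective _ hTinj]
  congr 1
  ext D
  simp only [Set.mem_image, Set.mem_ofPred_eq]
  have hadj : ∀ u v, (H.map e.toEmbedding).Adj (e u) (e v) ↔ H.Adj u v := fun u v =>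
    SimpleGraph.map_adj_apply (f := e.toEmbedding)
  constructor
  · rintro ⟨D', ⟨h1, h2⟩, rfl⟩
    refine ⟨fun u v => ?_, ?_⟩
    · rw [← hadj]
      exact h1 (e u) (e v)
    · rintro ⟨f, hf, hfA⟩
      exact h2 ⟨fun x => e (f x), e.injective.comp hf, fun u v h => hfA u v h⟩
  · rintro ⟨h1, h2⟩
    refine ⟨fun u v => D (e.symm u) (e.symm v), ⟨fun u v => ?_, ?_⟩, ?_⟩
    · have h3 := h1 (e.symm u) (e.symm v)
      rw [← hadj, e.apply_symm_apply, e.apply_symm_apply] at h3
      exact h3
    · rintro ⟨f, hf, hfA⟩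
      exact h2 ⟨fun x => e.symm (f x), e.symm.injective.comp hf, fun u v h => hfA u v h⟩
    · funext u v
      simp [hT]

theorem criterion {W : Type*} (F : SimpleGraph W) (A : W → W → Prop)
    (hA : IsOr F A)
    (h : ∀ n₀ : ℕ, ∃ n, n₀ ≤ n ∧ ∃ (V : Type) (_ : Fintype V) (H : SimpleGraph V),
      Fintype.card V = n ∧
      ((F.IsContained H ∧ ∀ H' : SimpleGraph V, F.Free H' →
          2 ^ H'.edgeSet.ncard ≤ numFree A H) ∨
        ∀ H' : SimpleGraph V, F.Free H' → 2 ^ H'.edgeSet.ncard < numFree A H)) :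
    PropertyP F := by
  refine ⟨A, hA, fun n₀ => ?_⟩
  obtain ⟨n, hn, V, _, H, hcard, halt⟩ := h n₀
  refine ⟨n, hn, ?_⟩
  set e : V ≃ Fin n := Fintype.equivFinOfCardEq hcard with he
  obtain ⟨H₁, hH₁⟩ := Finite.exists_max (fun H' : SimpleGraph (Fin n) => numFree A H')
  by_cases hE : EdgeExtremal F H₁
  swap
  · exact ⟨H₁, hH₁, hE⟩
  have h1 : numFree A H₁ = 2 ^ H₁.edgeSet.ncard := numFree_free F A hA H₁ hE.1
  have hiso : H₁ ≃g H₁.map e.symm.toEmbedding := SimpleGraph.Iso.map e.symm H₁
  have hfree : F.Free (H₁.map e.symm.toEmbedding) :=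
    (SimpleGraph.free_congr_right hiso).1 hE.1
  have hedges : (H₁.map e.symm.toEmbedding).edgeSet.ncard = H₁.edgeSet.ncard := by
    rw [← Nat.card_coe_set_eq, ← Nat.card_coe_set_eq]
    exact (Nat.card_congr hiso.mapEdgeSet).symm
  have h2 : numFree A (H.map e.toEmbedding) = numFree A H := numFree_iso A H e
  rcases halt with ⟨hcont, halt⟩ | halt
  · have h3 := halt _ hfree
    rw [hedges, ← h1, ← h2] at h3
    refine ⟨H.map e.toEmbedding, fun H' => (hH₁ H').trans h3, fun hEE => hEE.1 ?_⟩
    exact hcont.trans (SimpleGraph.Iso.map e H).isContained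
  · exfalso
    have h3 := halt _ hfree
    rw [hedges, ← h1, ← h2] at h3
    exact absurd (hH₁ (H.map e.toEmbedding)) (not_le.2 h3)

end MP_0a9719_co
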