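import Mathlib

/-! MP_0a9719_co (orientation-extremal versus edge-extremal graphs): the definitions of the
problem. An orientation of a graph `H` on `V` is a relation `D` on `V`. -/

namespace MP_0a9719_co

/-- `D` is an orientation of the graph `H`: `u`, `v` are adjacent iff `D u v` or `D v u`, and
never both. -/
def IsOr {V : Type*} (H : SimpleGraph V) (D : V → V → Prop) : Prop :=
  ∀ u v, (H.Adj u v ↔ (D u v ∨ D v u)) ∧ ¬ (D u v ∧ D v u)

/-- `D` contains a copy (not necessarily induced) of the oriented graph `A`. -/
def Contains {W V : Type*} (A : W → W → Prop) (D : V → V → Prop) : Prop :=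
  ∃ f : W → V, Function.Injective f ∧ ∀ u v, A u v → D (f u) (f v)

/-- the number of `A`-free orientations of `H`. -/
noncomputable def numFree {W V : Type*} (A : W → W → Prop) (H : SimpleGraph V) : ℕ :=
  {D : V → V → Prop | IsOr H D ∧ ¬ Contains A D}.ncard

/-- the `n`-vertex graph `H` is `A`-extremal: it has the largest number of `A`-free
orientations. -/
def OrExtremal {W : Type*} (A : W → W → Prop) {n : ℕ} (H : SimpleGraph (Fin n)) : Prop :=
  ∀ H' : SimpleGraph (Fin n), numFree A H' ≤ numFree A H

/-- the `n`-vertex graph `H` is `F`-extremal: it is `F`-free and has the largest number of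
edges. -/
def EdgeExtremal {W : Type*} (F : SimpleGraph W) {n : ℕ} (H : SimpleGraph (Fin n)) : Prop :=
  F.Free H ∧ ∀ H' : SimpleGraph (Fin n), F.Free H' → H'.edgeSet.ncard ≤ H.edgeSet.ncard

/-- property (P) of the problem. -/
def PropertyP {W : Type*} (F : SimpleGraph W) : Prop :=
  ∃ A : W → W → Prop, IsOr F A ∧
    ∀ n₀ : ℕ, ∃ n, n₀ ≤ n ∧ ∃ H : SimpleGraph (Fin n), OrExtremal A H ∧ ¬ EdgeExtremal F H

/-- the number of connected components of `F` with exactly two vertices, or with exactly four
vertices none of which has degree three (for a forest: the components `K_2` and `P_4`). -/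
noncomputable def smallPairs {W : Type*} (F : SimpleGraph W) : ℕ :=
  {c : F.ConnectedComponent | c.supp.ncard = 2 ∨
    (c.supp.ncard = 4 ∧ ∀ v ∈ c.supp, (F.neighborSet v).ncard ≠ 3)}.ncard

end MP_0a9719_co
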