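import Pool.Agent.Lib.MP_0a9719_co.Comp

/-! MP_0a9719_co, module Desc: every component with two to four vertices has a shape.

`Desc A S T`: copies of the shape `T` in any `D` are exactly the images of the oriented graph `A`
on `S`. Two vertices: `T = star 0 1` (`A u v` or `A v u` by `IsOr`). Three vertices `{x, y, z}`
with centre `y`: `T = star i o`, `o` = number of out-arcs of `y`, `i = 2 - o`. Four vertices with a
vertex of degree three: `T = star i o`, `i + o = 3`. Path `x y z w`: `T = p4 a b c` with `a = true` iff `A x y`, `b = true`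
iff `A y z`, `c = true` iff `A z w` (decidable by choice). In each case the equivalence is
unfolding: from a copy define `f` on the vertices of `S` (and arbitrarily elsewhere, e.g. with
`Function.update` or if-then-else), conversely take the images. `A u v` implies `F.Adj u v`, so the
only arcs of `A` inside `S` are those of the listed edges. -/

namespace MP_0a9719_co

/-- copies of `T` are the images of `A` restricted to `S`. -/
def Desc {W : Type*} (A : W → W → Prop) (S : Set W) (T : Shape) : Prop :=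
  ∀ (V : Type) [Fintype V] [DecidableEq V] (D : V → V → Prop) (Q : Finset V),
    IsCopy T D Q ↔ ∃ f : W → V, Set.InjOn f S ∧ f '' S = (Q : Set V) ∧
      ∀ u ∈ S, ∀ v ∈ S, A u v → D (f u) (f v)

private theorem Desc_bij {W V : Type*} [DecidableEq V] (s : Finset W) (t : Finset V)
    (c : V) (h : s.card = t.card) : ∃ f : W → V, Set.InjOn f s ∧ f '' s = t := by
  have hne : Nonempty V := ⟨c⟩
  obtain ⟨f, hf⟩ := s.finite_toSet.exists_bijOn_of_encard_eq (t := (t : Set V))
    (by rw [Set.encard_coe_eq_coe_finsetCard, Set.encard_coe_eq_coe_finsetCard, h])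
  exact ⟨f, hf.injOn, hf.image_eq⟩

/-- stars: the centre `y`, the sources `I₀` and the targets `O₀` -/
private theorem Desc_starAux {W : Type*} (A : W → W → Prop) (y : W) (I₀ O₀ : Finset W)
    (hyI : y ∉ I₀) (hyO : y ∉ O₀) (hd : Disjoint I₀ O₀) (hI : ∀ x ∈ I₀, A x y)
    (hO : ∀ x ∈ O₀, A y x) (S : Set W) (hS : ∀ x, x ∈ S ↔ x = y ∨ x ∈ I₀ ∨ x ∈ O₀)
    (hon : ∀ u ∈ S, ∀ v ∈ S, A u v → (v = y ∧ u ∈ I₀) ∨ (u = y ∧ v ∈ O₀)) :
    Desc A S (.star I₀.card O₀.card) := by
  classical
  intro V _ _ D Q
  have hSy : y ∈ S := (hS y).2 (Or.inl rfl)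
  have hSI : ∀ x ∈ I₀, x ∈ S := fun x hx => (hS x).2 (Or.inr (Or.inl hx))
  have hSO : ∀ x ∈ O₀, x ∈ S := fun x hx => (hS x).2 (Or.inr (Or.inr hx))
  constructor
  · rintro ⟨c, I, O, hcI, hcO, hIO, hIc, hOc, hDI, hDO, rfl⟩
    obtain ⟨f1, hf1, hf1'⟩ := Desc_bij I₀ I c hIc.symm
    obtain ⟨f2, hf2, hf2'⟩ := Desc_bij O₀ O c hOc.symm
    have m1 : ∀ x ∈ I₀, f1 x ∈ I := fun x hx => by
      have h1 : f1 x ∈ f1 '' (I₀ : Set W) := ⟨x, hx, rfl⟩
      rw [hf1'] at h1
      exact h1
    have m2 : ∀ x ∈ O₀, f2 x ∈ O := fun x hx => by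
      have h1 : f2 x ∈ f2 '' (O₀ : Set W) := ⟨x, hx, rfl⟩
      rw [hf2'] at h1
      exact h1
    let f : W → V := fun x => if x = y then c else if x ∈ I₀ then f1 x else f2 x
    have fy : f y = c := if_pos rfl
    have fI : ∀ x ∈ I₀, f x = f1 x := fun x hx => by
      have h1 : x ≠ y := fun h => hyI (h ▸ hx)
      simp only [f, if_neg h1, if_pos hx]
    have fO : ∀ x ∈ O₀, f x = f2 x := fun x hx => by
      have h1 : x ≠ y := fun h => hyO (h ▸ hx)
      have h2 : x ∉ I₀ := fun h => Finset.disjoint_left.1 hd h hx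
      simp only [f, if_neg h1, if_neg h2]
    refine ⟨f, ?_, ?_, ?_⟩
    · intro u hu v hv huv
      rcases (hS u).1 hu with h1 | h1 | h1 <;> rcases (hS v).1 hv with h2 | h2 | h2
      · rw [h1, h2]
      · rw [h1, fy, fI v h2] at huv
        exact absurd (huv ▸ m1 v h2) hcI
      · rw [h1, fy, fO v h2] at huv
        exact absurd (huv ▸ m2 v h2) hcO
      · rw [h2, fy, fI u h1] at huv
        exact absurd (huv ▸ m1 u h1) hcI
      · rw [fI u h1, fI v h2] at huv
        exact hf1 h1 h2 huv
      · rw [fI u h1, fO v h2] at huv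
        exact absurd (huv ▸ m1 u h1) (fun h => Finset.disjoint_left.1 hIO h (m2 v h2))
      · rw [h2, fy, fO u h1] at huv
        exact absurd (huv ▸ m2 u h1) hcO
      · rw [fO u h1, fI v h2] at huv
        exact absurd (m1 v h2) (fun h => Finset.disjoint_left.1 hIO h (huv ▸ m2 u h1))
      · rw [fO u h1, fO v h2] at huv
        exact hf2 h1 h2 huv
    · ext p
      rw [Finset.mem_coe, Finset.mem_insert, Finset.mem_union]
      constructor
      · rintro ⟨u, hu, rfl⟩
        rcases (hS u).1 hu with h1 | h1 | h1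
        · exact Or.inl (by rw [h1, fy])
        · exact Or.inr (Or.inl (by rw [fI u h1]; exact m1 u h1))
        · exact Or.inr (Or.inr (by rw [fO u h1]; exact m2 u h1))
      · rintro (h1 | h1 | h1)
        · exact ⟨y, hSy, by rw [fy, h1]⟩
        · rw [← Finset.mem_coe, ← hf1'] at h1
          obtain ⟨u, hu, rfl⟩ := h1
          exact ⟨u, hSI u hu, fI u hu⟩
        · rw [← Finset.mem_coe, ← hf2'] at h1
          obtain ⟨u, hu, rfl⟩ := h1
          exact ⟨u, hSO u hu, fO u hu⟩
    · intro u hu v hv huv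
      rcases hon u hu v hv huv with ⟨h1, h2⟩ | ⟨h1, h2⟩
      · rw [h1, fy, fI u h2]
        exact hDI _ (m1 u h2)
      · rw [h1, fy, fO v h2]
        exact hDO _ (m2 v h2)
  · rintro ⟨f, hf, hfS, hfA⟩
    refine ⟨f y, I₀.image f, O₀.image f, ?_, ?_, ?_, ?_, ?_, ?_, ?_, ?_⟩
    · intro h
      obtain ⟨x, hx, hxy⟩ := Finset.mem_image.1 h
      exact hyI (hf (hSI x hx) hSy hxy ▸ hx)
    · intro h
      obtain ⟨x, hx, hxy⟩ := Finset.mem_image.1 h
      exact hyO (hf (hSO x hx) hSy hxy ▸ hx)
    · rw [Finset.disjoint_left]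
      intro p h1 h2
      obtain ⟨x, hx, rfl⟩ := Finset.mem_image.1 h1
      obtain ⟨x', hx', hxx⟩ := Finset.mem_image.1 h2
      exact Finset.disjoint_left.1 hd hx (hf (hSO x' hx') (hSI x hx) hxx ▸ hx')
    · exact Finset.card_image_of_injOn fun u hu v hv h => hf (hSI u hu) (hSI v hv) h
    · exact Finset.card_image_of_injOn fun u hu v hv h => hf (hSO u hu) (hSO v hv) h
    · intro p hp
      obtain ⟨x, hx, rfl⟩ := Finset.mem_image.1 hp
      exact hfA x (hSI x hx) y hSy (hI x hx)
    · intro p hp
      obtain ⟨x, hx, rfl⟩ := Finset.mem_image.1 hp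
      exact hfA y hSy x (hSO x hx) (hO x hx)
    · ext p
      rw [← Finset.mem_coe, ← hfS, Finset.mem_insert, Finset.mem_union]
      constructor
      · rintro ⟨u, hu, rfl⟩
        rcases (hS u).1 hu with h1 | h1 | h1
        · exact Or.inl (by rw [h1])
        · exact Or.inr (Or.inl (Finset.mem_image_of_mem f h1))
        · exact Or.inr (Or.inr (Finset.mem_image_of_mem f h1))
      · rintro (h1 | h1 | h1)
        · exact ⟨y, hSy, h1.symm⟩
        · obtain ⟨x, hx, rfl⟩ := Finset.mem_image.1 h1
          exact ⟨x, hSI x hx, rfl⟩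
        · obtain ⟨x, hx, rfl⟩ := Finset.mem_image.1 h1
          exact ⟨x, hSO x hx, rfl⟩

/-- a star in `F` with centre `y` and the set `L` of leaves -/
private theorem Desc_star {W : Type*} {F : SimpleGraph W} {A : W → W → Prop} (hA : IsOr F A)
    (y : W) (L : Finset W) (hy : y ∉ L) (h1 : ∀ x ∈ L, F.Adj y x)
    (h2 : ∀ x ∈ L, ∀ x' ∈ L, ¬ F.Adj x x') (S : Set W) (hS : ∀ x, x ∈ S ↔ x = y ∨ x ∈ L) :
    ∃ i o : ℕ, i + o = L.card ∧ Desc A S (.star i o) := by
  classical
  have hnot : ∀ x ∈ L, (¬ A x y ↔ A y x) := by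
    intro x hx
    have h3 := hA y x
    have h4 := h3.1.1 (h1 x hx)
    have h5 := h3.2
    tauto
  refine ⟨_, _, ?_, Desc_starAux A y (L.filter fun x => A x y) (L.filter fun x => A y x)
    (fun h => hy (Finset.mem_filter.1 h).1) (fun h => hy (Finset.mem_filter.1 h).1) ?_
    (fun x hx => (Finset.mem_filter.1 hx).2) (fun x hx => (Finset.mem_filter.1 hx).2) S ?_ ?_⟩
  · rw [← Finset.card_filter_add_card_filter_not (s := L) (fun x => A x y)]
    congr 2
    exact Finset.filter_congr fun x hx => (hnot x hx).symm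
  · rw [Finset.disjoint_left]
    intro x hx hx'
    rw [Finset.mem_filter] at hx hx'
    exact (hnot x hx.1).2 hx'.2 hx.2
  · intro x
    rw [hS x, Finset.mem_filter, Finset.mem_filter]
    constructor
    · rintro (h3 | h3)
      · exact Or.inl h3
      · by_cases h4 : A x y
        · exact Or.inr (Or.inl ⟨h3, h4⟩)
        · exact Or.inr (Or.inr ⟨h3, (hnot x h3).1 h4⟩)
    · rintro (h3 | h3 | h3)
      · exact Or.inl h3
      · exact Or.inr h3.1
      · exact Or.inr h3.1
  · intro u hu v hv huv
    have hadj : F.Adj u v := (hA u v).1.2 (Or.inl huv)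
    rcases (hS u).1 hu with h3 | h3 <;> rcases (hS v).1 hv with h4 | h4
    · rw [h3, h4] at hadj
      exact absurd hadj (F.loopless.irrefl y)
    · exact Or.inr ⟨h3, Finset.mem_filter.2 ⟨h4, h3 ▸ huv⟩⟩
    · exact Or.inl ⟨h4, Finset.mem_filter.2 ⟨h3, h4 ▸ huv⟩⟩
    · exact absurd hadj (h2 u h3 v h4)

private theorem Desc_arc {W V : Type*} {F : SimpleGraph W} {A : W → W → Prop} (hA : IsOr F A)
    {x y : W} (hxy : F.Adj x y) {a : Bool} (ha : a = true ↔ A x y) (D : V → V → Prop)
    (p q : V) : arc a D p q ↔ ((A x y → D p q) ∧ (A y x → D q p)) := by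
  have h3 := (hA x y).2
  have h4 := (hA x y).1.1 hxy
  cases a with
  | true =>
    have h5 : A x y := ha.1 rfl
    change D p q ↔ _
    tauto
  | false =>
    have h5 : ¬ A x y := fun h => absurd (ha.2 h) (by simp)
    change D q p ↔ _
    tauto

private theorem Desc_path {W : Type*} {F : SimpleGraph W} {A : W → W → Prop} (hA : IsOr F A)
    {x y z w : W} (hxy : x ≠ y) (hxz : x ≠ z) (hxw : x ≠ w) (hyz : y ≠ z) (hyw : y ≠ w)
    (hzw : z ≠ w) (axy : F.Adj x y) (ayz : F.Adj y z) (azw : F.Adj z w) (nxz : ¬ F.Adj x z)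
    (nxw : ¬ F.Adj x w) (nyw : ¬ F.Adj y w) :
    ∃ a b c, Desc A ({x, y, z, w} : Set W) (.p4 a b c) := by
  classical
  refine ⟨decide (A x y), decide (A y z), decide (A z w), ?_⟩
  intro V _ _ D Q
  have ea := Desc_arc hA axy (a := decide (A x y)) decide_eq_true_iff D
  have eb := Desc_arc hA ayz (a := decide (A y z)) decide_eq_true_iff D
  have ec := Desc_arc hA azw (a := decide (A z w)) decide_eq_true_iff D
  have hnA : ∀ {u v : W}, ¬ F.Adj u v → ¬ A u v ∧ ¬ A v u := by
    intro u v h
    have h1 := (hA u v).1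
    tauto
  constructor
  · rintro ⟨x0, x1, x2, x3, h01, h02, h03, h12, h13, h23, ha, hb, hc, rfl⟩
    rw [ea] at ha
    rw [eb] at hb
    rw [ec] at hc
    let f : W → V := fun u => if u = x then x0 else if u = y then x1 else if u = z then x2 else x3
    have fx : f x = x0 := if_pos rfl
    have fy : f y = x1 := by simp only [f, if_neg hxy.symm, if_pos]
    have fz : f z = x2 := by simp only [f, if_neg hxz.symm, if_neg hyz.symm, if_pos]
    have fw : f w = x3 := by simp only [f, if_neg hxw.symm, if_neg hyw.symm, if_neg hzw.symm]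
    refine ⟨f, ?_, ?_, ?_⟩
    · intro u hu v hv huv
      rcases hu with rfl | rfl | rfl | rfl <;> rcases hv with rfl | rfl | rfl | rfl <;>
        first
        | rfl
        | (exfalso
           simp only [fx, fy, fz, fw] at huv
           first
           | exact h01 huv | exact h02 huv | exact h03 huv | exact h12 huv | exact h13 huv
           | exact h23 huv | exact h01 huv.symm | exact h02 huv.symm | exact h03 huv.symm
           | exact h12 huv.symm | exact h13 huv.symm | exact h23 huv.symm)
    · rw [Set.image_insert_eq, Set.image_insert_eq, Set.image_insert_eq, Set.image_singleton,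
        fx, fy, fz, fw]
      push_cast
      rfl
    · intro u hu v hv huv
      have hadj : F.Adj u v := (hA u v).1.2 (Or.inl huv)
      rcases hu with rfl | rfl | rfl | rfl <;> rcases hv with rfl | rfl | rfl | rfl <;>
        simp only [fx, fy, fz, fw]
      · exact absurd hadj (F.loopless.irrefl _)
      · exact ha.1 huv
      · exact absurd hadj nxz
      · exact absurd hadj nxw
      · exact ha.2 huv
      · exact absurd hadj (F.loopless.irrefl _)
      · exact hb.1 huv
      · exact absurd hadj nyw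
      · exact absurd hadj.symm nxz
      · exact hb.2 huv
      · exact absurd hadj (F.loopless.irrefl _)
      · exact hc.1 huv
      · exact absurd hadj.symm nxw
      · exact absurd hadj.symm nyw
      · exact hc.2 huv
      · exact absurd hadj (F.loopless.irrefl _)
  · rintro ⟨f, hf, hfS, hfA⟩
    have mx : x ∈ ({x, y, z, w} : Set W) := by simp
    have my : y ∈ ({x, y, z, w} : Set W) := by simp
    have mz : z ∈ ({x, y, z, w} : Set W) := by simp
    have mw : w ∈ ({x, y, z, w} : Set W) := by simp
    refine ⟨f x, f y, f z, f w, fun h => hxy (hf mx my h), fun h => hxz (hf mx mz h),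
      fun h => hxw (hf mx mw h), fun h => hyz (hf my mz h), fun h => hyw (hf my mw h),
      fun h => hzw (hf mz mw h), ?_, ?_, ?_, ?_⟩
    · exact (ea _ _).2 ⟨hfA x mx y my, hfA y my x mx⟩
    · exact (eb _ _).2 ⟨hfA y my z mz, hfA z mz y my⟩
    · exact (ec _ _).2 ⟨hfA z mz w mw, hfA w mw z mz⟩
    · rw [← Finset.coe_inj, ← hfS, Set.image_insert_eq, Set.image_insert_eq,
        Set.image_insert_eq, Set.image_singleton]
      push_cast
      rfl

theorem exists_desc {W : Type*} [Finite W] (F : SimpleGraph W) (hF : F.IsAcyclic)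
    (A : W → W → Prop) (hA : IsOr F A) (c : F.ConnectedComponent) (h2 : 2 ≤ c.supp.ncard)
    (h4 : c.supp.ncard ≤ 4) :
    ∃ T : Shape, T.Valid ∧ Desc A c.supp T ∧
      (T.isT = true ↔ (c.supp.ncard = 2 ∨
        (c.supp.ncard = 4 ∧ ∀ v ∈ c.supp, (F.neighborSet v).ncard ≠ 3))) ∧
      (T.isC = true ↔ c.supp.ncard = 3) ∧
      ((∃ a b c, T = .p4 a b c) ↔
        (c.supp.ncard = 4 ∧ ∀ v ∈ c.supp, (F.neighborSet v).ncard ≠ 3)) := by
  classical
  have hcases : c.supp.ncard = 2 ∨ c.supp.ncard = 3 ∨ c.supp.ncard = 4 := by omega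
  rcases hcases with hn | hn | hn
  · obtain ⟨u, v, huv, hadj, hS⟩ := comp_two F c hn
    obtain ⟨i, o, hio, hD⟩ := Desc_star hA v {u} (by simpa using huv.symm)
      (fun x hx => by rw [Finset.mem_singleton.1 hx]; exact hadj.symm)
      (fun x hx x' hx' => by
        rw [Finset.mem_singleton.1 hx, Finset.mem_singleton.1 hx']
        exact F.loopless.irrefl u) c.supp
      (fun x => by rw [hS, Finset.mem_singleton]; exact Or.comm)
    rw [Finset.card_singleton] at hio
    refine ⟨.star i o, ⟨by omega, by omega⟩, hD, ?_, ?_, ?_⟩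
    · simp [Shape.isT, hio, hn]
    · simp [Shape.isC, hio, hn]
    · simp [hn]
  · obtain ⟨x, y, z, hxy, hxz, hyz, ayx, ayz, nxz, hS⟩ := comp_three F hF c hn
    obtain ⟨i, o, hio, hD⟩ := Desc_star hA y {x, z} (by simp [hxy.symm, hyz])
      (fun p hp => by
        rw [Finset.mem_insert, Finset.mem_singleton] at hp
        rcases hp with rfl | rfl
        · exact ayx
        · exact ayz)
      (fun p hp p' hp' => by
        rw [Finset.mem_insert, Finset.mem_singleton] at hp hp'
        rcases hp with rfl | rfl <;> rcases hp' with rfl | rfl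
        · exact F.loopless.irrefl _
        · exact nxz
        · exact fun h => nxz h.symm
        · exact F.loopless.irrefl _) c.supp
      (fun p => by
        rw [hS, Finset.mem_insert, Finset.mem_singleton, Set.mem_insert_iff,
          Set.mem_insert_iff, Set.mem_singleton_iff]
        tauto)
    rw [Finset.card_pair hxz] at hio
    refine ⟨.star i o, ⟨by omega, by omega⟩, hD, ?_, ?_, ?_⟩
    · simp [Shape.isT, hio, hn]
    · simp [Shape.isC, hio, hn]
    · simp [hn]
  · by_cases h3 : ∀ v ∈ c.supp, (F.neighborSet v).ncard ≠ 3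
    · obtain ⟨x, y, z, w, hxy, hxz, hxw, hyz, hyw, hzw, axy, ayz, azw, nxz, nxw, nyw, hS⟩ :=
        comp_path F hF c hn h3
      obtain ⟨a, b, d, hD⟩ := Desc_path hA hxy hxz hxw hyz hyw hzw axy ayz azw nxz nxw nyw
      rw [← hS] at hD
      refine ⟨.p4 a b d, trivial, hD, ?_, ?_, ?_⟩
      · exact ⟨fun _ => Or.inr ⟨hn, h3⟩, fun _ => rfl⟩
      · simp [Shape.isC, hn]
      · exact ⟨fun _ => ⟨hn, h3⟩, fun _ => ⟨a, b, d, rfl⟩⟩
    · have h3' := h3
      push Not at h3'
      obtain ⟨v, hv, hv3⟩ := h3'
      obtain ⟨x, y, z, hxy, hxz, hyz, hvx, hvy, hvz, avx, avy, avz, nxy, nxz, nyz, hS⟩ :=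
        comp_star F hF c hn v hv hv3
      obtain ⟨i, o, hio, hD⟩ := Desc_star hA v {x, y, z} (by simp [hvx, hvy, hvz])
        (fun p hp => by
          rw [Finset.mem_insert, Finset.mem_insert, Finset.mem_singleton] at hp
          rcases hp with rfl | rfl | rfl
          · exact avx
          · exact avy
          · exact avz)
        (fun p hp p' hp' => by
          rw [Finset.mem_insert, Finset.mem_insert, Finset.mem_singleton] at hp hp'
          rcases hp with rfl | rfl | rfl <;> rcases hp' with rfl | rfl | rfl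
          · exact F.loopless.irrefl _
          · exact nxy
          · exact nxz
          · exact fun h => nxy h.symm
          · exact F.loopless.irrefl _
          · exact nyz
          · exact fun h => nxz h.symm
          · exact fun h => nyz h.symm
          · exact F.loopless.irrefl _) c.supp
        (fun p => by
          rw [hS, Finset.mem_insert, Finset.mem_insert, Finset.mem_singleton,
            Set.mem_insert_iff, Set.mem_insert_iff, Set.mem_insert_iff, Set.mem_singleton_iff])
      have hc3 : ({x, y, z} : Finset W).card = 3 :=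
        Finset.card_eq_three.2 ⟨x, y, z, hxy, hxz, hyz, rfl⟩
      rw [hc3] at hio
      refine ⟨.star i o, ⟨by omega, by omega⟩, hD, ?_, ?_, ?_⟩
      · constructor
        · intro h
          simp [Shape.isT, hio] at h
        · rintro (h | h)
          · omega
          · exact absurd h.2 h3
      · simp [Shape.isC, hio, hn]
      · constructor
        · rintro ⟨a, b, d, h⟩
          exact absurd h (by simp)
        · intro h
          exact absurd h.2 h3

end MP_0a9719_co
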