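import Pool.Agent.Lib.MP_0a9719_co.Work

/-! MP_0a9719_co, module Res: restriction of orientations to subsets. All proofs are direct
unfoldings: a copy of a shape with vertex set `Q ⊆ X` uses only arcs inside `X`. -/

namespace MP_0a9719_co

variable {V : Type*}

theorem isOr_rr {X X' : Finset V} {H : SimpleGraph V} {D : V → V → Prop}
    (h : IsOr (res X H) D) (hX : X' ⊆ X) : IsOr (res X' H) (rr X' D) := by
  intro u v
  refine ⟨⟨fun huv => ?_, fun huv => ?_⟩, fun huv => (h u v).2 ⟨huv.1.1, huv.2.1⟩⟩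
  · rcases (h u v).1.1 ⟨huv.1, hX huv.2.1, hX huv.2.2⟩ with h1 | h1
    · exact Or.inl ⟨h1, huv.2.1, huv.2.2⟩
    · exact Or.inr ⟨h1, huv.2.2, huv.2.1⟩
  · rcases huv with h1 | h1
    · exact ⟨((h u v).1.2 (Or.inl h1.1)).1, h1.2.1, h1.2.2⟩
    · exact ⟨((h u v).1.2 (Or.inr h1.1)).1, h1.2.2, h1.2.1⟩

theorem rr_self {X : Finset V} {H : SimpleGraph V} {D : V → V → Prop}
    (h : IsOr (res X H) D) : rr X D = D := by
  funext u v
  refine propext ⟨fun huv => huv.1, fun huv => ⟨huv, ?_⟩⟩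
  exact ((h u v).1.2 (Or.inl huv)).2

theorem rr_rr {X X' : Finset V} (D : V → V → Prop) (hX : X' ⊆ X) :
    rr X' (rr X D) = rr X' D := by
  funext u v
  refine propext ⟨fun h => ⟨h.1.1, h.2⟩, fun h => ⟨⟨h.1, hX h.2.1, hX h.2.2⟩, h.2⟩⟩

private theorem Res_arc {a : Bool} {D : V → V → Prop} {X : Finset V} {u v : V} (hu : u ∈ X)
    (hv : v ∈ X) : arc a (rr X D) u v ↔ arc a D u v := by
  cases a
  · exact ⟨fun h => h.1, fun h => ⟨h, hv, hu⟩⟩
  · exact ⟨fun h => h.1, fun h => ⟨h, hu, hv⟩⟩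

theorem isCopy_rr [DecidableEq V] (T : Shape) (D : V → V → Prop) {X Q : Finset V}
    (hQ : Q ⊆ X) : IsCopy T (rr X D) Q ↔ IsCopy T D Q := by
  cases T with
  | star i o =>
    constructor
    · rintro ⟨c, I, O, h1, h2, h3, h4, h5, h6, h7, h8⟩
      exact ⟨c, I, O, h1, h2, h3, h4, h5, fun x hx => (h6 x hx).1, fun x hx => (h7 x hx).1, h8⟩
    · rintro ⟨c, I, O, h1, h2, h3, h4, h5, h6, h7, h8⟩
      have hc : c ∈ X := hQ (by rw [h8]; exact Finset.mem_insert_self _ _)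
      refine ⟨c, I, O, h1, h2, h3, h4, h5, fun x hx => ⟨h6 x hx, hQ ?_, hc⟩,
        fun x hx => ⟨h7 x hx, hc, hQ ?_⟩, h8⟩
      · rw [h8]
        exact Finset.mem_insert_of_mem (Finset.mem_union_left _ hx)
      · rw [h8]
        exact Finset.mem_insert_of_mem (Finset.mem_union_right _ hx)
  | p4 a b c =>
    constructor
    · rintro ⟨x0, x1, x2, x3, h1, h2, h3, h4, h5, h6, h7, h8, h9, h10⟩
      have m0 : x0 ∈ X := hQ (by rw [h10]; simp)
      have m1 : x1 ∈ X := hQ (by rw [h10]; simp)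
      have m2 : x2 ∈ X := hQ (by rw [h10]; simp)
      have m3 : x3 ∈ X := hQ (by rw [h10]; simp)
      exact ⟨x0, x1, x2, x3, h1, h2, h3, h4, h5, h6, (Res_arc m0 m1).1 h7,
        (Res_arc m1 m2).1 h8, (Res_arc m2 m3).1 h9, h10⟩
    · rintro ⟨x0, x1, x2, x3, h1, h2, h3, h4, h5, h6, h7, h8, h9, h10⟩
      have m0 : x0 ∈ X := hQ (by rw [h10]; simp)
      have m1 : x1 ∈ X := hQ (by rw [h10]; simp)
      have m2 : x2 ∈ X := hQ (by rw [h10]; simp)
      have m3 : x3 ∈ X := hQ (by rw [h10]; simp)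
      exact ⟨x0, x1, x2, x3, h1, h2, h3, h4, h5, h6, (Res_arc m0 m1).2 h7,
        (Res_arc m1 m2).2 h8, (Res_arc m2 m3).2 h9, h10⟩

theorem packs_rr [DecidableEq V] (L : List Shape) (D : V → V → Prop) {X X' : Finset V}
    (hX : X' ⊆ X) : Packs L (rr X D) X' ↔ Packs L D X' := by
  induction L generalizing X' with
  | nil => exact Iff.rfl
  | cons T L ih =>
    constructor
    · rintro ⟨Q, h1, h2, h3⟩
      exact ⟨Q, h1, (isCopy_rr T D (h1.trans hX)).1 h2,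
        (ih (Finset.sdiff_subset.trans hX)).1 h3⟩
    · rintro ⟨Q, h1, h2, h3⟩
      exact ⟨Q, h1, (isCopy_rr T D (h1.trans hX)).2 h2,
        (ih (Finset.sdiff_subset.trans hX)).2 h3⟩

theorem ideg_rr (D : V → V → Prop) {X X' : Finset V} (hX : X' ⊆ X) {v : V} (hv : v ∈ X) :
    ideg (rr X D) X' v = ideg D X' v := by
  unfold ideg
  congr 1
  ext u
  exact ⟨fun h => ⟨h.1, h.2.1⟩, fun h => ⟨h.1, h.2, hX h.1, hv⟩⟩

theorem odeg_rr (D : V → V → Prop) {X X' : Finset V} (hX : X' ⊆ X) {v : V} (hv : v ∈ X) :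
    odeg (rr X D) X' v = odeg D X' v := by
  unfold odeg
  congr 1
  ext u
  exact ⟨fun h => ⟨h.1, h.2.1⟩, fun h => ⟨h.1, h.2, hv, hX h.1⟩⟩

theorem goodPair_rr (K : ℕ) (D : V → V → Prop) {X X' : Finset V} (hX : X' ⊆ X) {v w : V}
    (hv : v ∈ X) (hw : w ∈ X) : GoodPair K (rr X D) X' v w ↔ GoodPair K D X' v w := by
  have h1 : ∀ p : Bool × Bool, {x | x ∈ X' ∧ x ≠ v ∧ x ≠ w ∧ arc p.1 (rr X D) v x ∧
      arc p.2 (rr X D) w x} = {x | x ∈ X' ∧ x ≠ v ∧ x ≠ w ∧ arc p.1 D v x ∧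
      arc p.2 D w x} := by
    intro p
    ext x
    constructor
    · rintro ⟨h1, h2, h3, h4, h5⟩
      exact ⟨h1, h2, h3, (Res_arc hv (hX h1)).1 h4, (Res_arc hw (hX h1)).1 h5⟩
    · rintro ⟨h1, h2, h3, h4, h5⟩
      exact ⟨h1, h2, h3, (Res_arc hv (hX h1)).2 h4, (Res_arc hw (hX h1)).2 h5⟩
  unfold GoodPair
  simp only [h1]

theorem goodPair_mono [Finite V] (K : ℕ) (D : V → V → Prop) {X X' : Finset V} (hX : X' ⊆ X)
    {v w : V} (h : GoodPair K D X' v w) : GoodPair K D X v w := by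
  unfold GoodPair at h ⊢
  refine h.trans (Set.ncard_le_ncard (fun p hp => ?_) (Set.toFinite _))
  refine le_trans (Set.mem_ofPred_eq.mp hp) (Set.ncard_le_ncard (fun x hx => ?_)
    (Set.toFinite _))
  exact ⟨hX hx.1, hx.2⟩

theorem ideg_mono [Finite V] (D : V → V → Prop) {X X' : Finset V} (hX : X' ⊆ X) (v : V) :
    ideg D X' v ≤ ideg D X v :=
  Set.ncard_le_ncard (fun _ hx => ⟨hX hx.1, hx.2⟩) (Set.toFinite _)

theorem odeg_mono [Finite V] (D : V → V → Prop) {X X' : Finset V} (hX : X' ⊆ X) (v : V) :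
    odeg D X' v ≤ odeg D X v :=
  Set.ncard_le_ncard (fun _ hx => ⟨hX hx.1, hx.2⟩) (Set.toFinite _)

theorem deg_le [Finite V] (H : SimpleGraph V) (X : Finset V) {v : V} (hv : v ∈ X) :
    deg H X v ≤ X.card - 1 := by
  classical
  have h1 : deg H X v ≤ (X.erase v : Set V).ncard := by
    refine Set.ncard_le_ncard (fun x hx => ?_) (Set.toFinite _)
    rw [Finset.mem_coe, Finset.mem_erase]
    exact ⟨hx.2.ne', hx.1⟩
  rwa [Set.ncard_coe_finset, Finset.card_erase_of_mem hv] at h1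

theorem deg_erase_le [Finite V] [DecidableEq V] (H : SimpleGraph V) (X : Finset V) (v w : V) :
    deg H X w ≤ deg H (X.erase v) w + 1 := by
  unfold deg
  refine (Set.ncard_le_ncard (t := insert v {u | u ∈ X.erase v ∧ H.Adj w u})
    (fun x hx => ?_) (Set.toFinite _)).trans (Set.ncard_insert_le _ _)
  by_cases h : x = v
  · exact Or.inl h
  · exact Or.inr ⟨Finset.mem_erase.2 ⟨h, hx.1⟩, hx.2⟩

/-- an orientation of `res X H` has `D u v ∨ D v u` for adjacent `u v ∈ X`. -/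
theorem isOr_adj {X : Finset V} {H : SimpleGraph V} {D : V → V → Prop}
    (h : IsOr (res X H) D) {u v : V} (hu : u ∈ X) (hv : v ∈ X) (huv : H.Adj u v) :
    D u v ∨ D v u :=
  (h u v).1.1 ⟨huv, hu, hv⟩

theorem isOr_mem {X : Finset V} {H : SimpleGraph V} {D : V → V → Prop}
    (h : IsOr (res X H) D) {u v : V} (huv : D u v) : u ∈ X ∧ v ∈ X ∧ H.Adj u v ∧ ¬ D v u := by
  have h1 := (h u v).1.2 (Or.inl huv)
  exact ⟨h1.2.1, h1.2.2, h1.1, fun h2 => (h u v).2 ⟨huv, h2⟩⟩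

end MP_0a9719_co
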