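import Pool.Agent.Lib.MP_0a9719_co.Cnt
import Pool.Agent.Lib.MP_0a9719_co.Fib
import Pool.Agent.Lib.MP_0a9719_co.Res

/-! MP_0a9719_co, module FibOr: number of orientations with a prescribed restriction.

Proofs. `fiber_or`: let `G'` be the graph with the edges of `res X H` that are not edges of
`res X' H` (`G' = res X H \ res X' H`). For `D` in the set let `D' u v := D u v ∧ ¬ (u ∈ X' ∧
v ∈ X')`; `D'` is an orientation of `G'`, and `D` is determined by `D'` and `E` (`inj_le`).
By `ncard_or` there are `2 ^ |E(G')|` orientations of `G'`, and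
`|E(G')| = eX H X - eX H X'` (`Set.ncard_diff`; `(res X' H).edgeSet ⊆ (res X H).edgeSet`).
`eX_erase`: the edges of `res X H` not inside `X.erase v` are the `s(v, u)`, `u ∈ X`
adjacent to `v`: a bijection with the neighbours of `v` in `X`.
`fiber_one`, `fiber_two`: from `fiber_or` and `eX_erase`.
`eX_two_le`: `eX H X = deg H X v + deg H (X.erase v) w + eX H (..)`, and `deg H X v ≤ n - 1`,
`deg H (X.erase v) w ≤ n - 2`.
`fiber_pure`: `D` is determined by `E` and the set `{u ∈ X | D u v}` of in-neighbours (the other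
neighbours of `v` in `X` are out-neighbours), and also by the set of out-neighbours. If
`ideg D X v < K` the first set is a subset of `X` with fewer than `K` elements, there are
at most `(|X| + 1) ^ K` such subsets (for instance: a set with fewer than `K` elements is the
image of a function `Fin K → Option X`); similarly for the out-neighbours. -/

namespace MP_0a9719_co

variable {V : Type*} [Fintype V] [DecidableEq V]

theorem fiber_or (H : SimpleGraph V) {X X' : Finset V} (h : X' ⊆ X) (E : V → V → Prop) :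
    {D : V → V → Prop | IsOr (res X H) D ∧ rr X' D = E}.ncard ≤ 2 ^ (eX H X - eX H X') := by
  have hle : (res X' H).edgeSet ⊆ (res X H).edgeSet := by
    rw [SimpleGraph.edgeSet_subset_edgeSet]
    intro u w huw
    exact ⟨huw.1, h huw.2.1, h huw.2.2⟩
  have hc : (res X H \ res X' H).edgeSet.ncard = eX H X - eX H X' := by
    rw [SimpleGraph.edgeSet_sdiff, Set.ncard_diff hle (Set.toFinite _)]
    rfl
  rw [← hc, ← ncard_or]
  refine inj_le _ _ (fun D u w => D u w ∧ ¬ (u ∈ X' ∧ w ∈ X')) ?_ ?_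
  · rintro D ⟨hD, -⟩ u w
    constructor
    · constructor
      · intro huw
        have h1 : (res X H).Adj u w ∧ ¬ (res X' H).Adj u w := by
          simpa using huw
        have h2 : ¬ (u ∈ X' ∧ w ∈ X') := fun h3 => h1.2 ⟨h1.1.1, h3.1, h3.2⟩
        rcases (hD u w).1.1 h1.1 with h3 | h3
        · exact Or.inl ⟨h3, h2⟩
        · exact Or.inr ⟨h3, fun h4 => h2 ⟨h4.2, h4.1⟩⟩
      · rintro (⟨h3, h4⟩ | ⟨h3, h4⟩)
        · have h5 := (hD u w).1.2 (Or.inl h3)
          have h6 : ¬ (res X' H).Adj u w := fun h7 => h4 ⟨h7.2.1, h7.2.2⟩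
          simpa using And.intro h5 h6
        · have h5 := (hD u w).1.2 (Or.inr h3)
          have h6 : ¬ (res X' H).Adj u w := fun h7 => h4 ⟨h7.2.2, h7.2.1⟩
          simpa using And.intro h5 h6
    · rintro ⟨h3, h4⟩
      exact (hD u w).2 ⟨h3.1, h4.1⟩
  · rintro D ⟨-, hD⟩ D₂ ⟨-, hD₂⟩ heq
    funext u w
    by_cases huw : u ∈ X' ∧ w ∈ X'
    · have h1 := congrFun (congrFun (hD.trans hD₂.symm) u) w
      simp only [rr, huw, and_self, and_true] at h1
      exact h1
    · have h1 := congrFun (congrFun heq u) w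
      simp only [huw, not_false_eq_true, and_true] at h1
      exact h1

theorem eX_erase (H : SimpleGraph V) {X : Finset V} {v : V} (hv : v ∈ X) :
    eX H X = deg H X v + eX H (X.erase v) := by
  have h1 : (res X H).edgeSet =
      (fun u => s(v, u)) '' {u | u ∈ X ∧ H.Adj v u} ∪ (res (X.erase v) H).edgeSet := by
    ext e
    induction e using Sym2.ind with
    | _ a b =>
      rw [Set.mem_union, SimpleGraph.mem_edgeSet, SimpleGraph.mem_edgeSet]
      constructor
      · rintro ⟨hab, ha, hb⟩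
        by_cases hav : a = v
        · left
          exact ⟨b, ⟨hb, hav ▸ hab⟩, by rw [hav]⟩
        · by_cases hbv : b = v
          · left
            exact ⟨a, ⟨ha, hbv ▸ hab.symm⟩, by rw [hbv]; exact Sym2.eq_swap⟩
          · right
            exact ⟨hab, Finset.mem_erase.2 ⟨hav, ha⟩, Finset.mem_erase.2 ⟨hbv, hb⟩⟩
      · rintro (⟨u, ⟨hu, hvu⟩, he⟩ | ⟨hab, ha, hb⟩)
        · rcases Sym2.eq_iff.1 he with ⟨rfl, rfl⟩ | ⟨rfl, rfl⟩
          · exact ⟨hvu, hv, hu⟩
          · exact ⟨hvu.symm, hu, hv⟩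
        · exact ⟨hab, Finset.mem_of_mem_erase ha, Finset.mem_of_mem_erase hb⟩
  have h2 : Disjoint ((fun u => s(v, u)) '' {u | u ∈ X ∧ H.Adj v u})
      (res (X.erase v) H).edgeSet := by
    rw [Set.disjoint_left]
    rintro e ⟨u, -, rfl⟩ h3
    have h4 : (res (X.erase v) H).Adj v u := h3
    exact (Finset.notMem_erase v X) h4.2.1
  rw [eX, h1, Set.ncard_union_eq h2 (Set.toFinite _) (Set.toFinite _), eX, deg,
    Set.ncard_image_of_injOn]
  intro a _ b _ hab
  exact Sym2.congr_right.1 hab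

theorem fiber_one (H : SimpleGraph V) {X : Finset V} {v : V} (hv : v ∈ X) (E : V → V → Prop) :
    {D : V → V → Prop | IsOr (res X H) D ∧ rr (X.erase v) D = E}.ncard ≤ 2 ^ deg H X v := by
  have h1 := fiber_or H (Finset.erase_subset v X) E
  rwa [eX_erase H hv, Nat.add_sub_cancel] at h1

theorem fiber_two (H : SimpleGraph V) {X : Finset V} {v w : V} (hv : v ∈ X) (hw : w ∈ X)
    (hvw : v ≠ w) (E : V → V → Prop) :
    {D : V → V → Prop | IsOr (res X H) D ∧ rr ((X.erase v).erase w) D = E}.ncard ≤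
      2 ^ (deg H X v + deg H X w) ∧
    {D : V → V → Prop | IsOr (res X H) D ∧ rr ((X.erase v).erase w) D = E}.ncard ≤
      2 ^ (2 * X.card - 3) := by
  have hw' : w ∈ X.erase v := Finset.mem_erase.2 ⟨hvw.symm, hw⟩
  have h1 := fiber_or H ((Finset.erase_subset w (X.erase v)).trans (Finset.erase_subset v X)) E
  have h2 : eX H X - eX H ((X.erase v).erase w) = deg H X v + deg H (X.erase v) w := by
    rw [eX_erase H hv, eX_erase H hw']
    omega
  rw [h2] at h1
  have h3 : deg H (X.erase v) w ≤ deg H X w :=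
    Set.ncard_le_ncard (fun u hu => ⟨Finset.mem_of_mem_erase hu.1, hu.2⟩) (Set.toFinite _)
  have h4 := deg_le H X hv
  have h5 := deg_le H (X.erase v) hw'
  rw [Finset.card_erase_of_mem hv] at h5
  have h6 : 2 ≤ X.card := Finset.one_lt_card.2 ⟨v, hv, w, hw, hvw⟩
  exact ⟨h1.trans (Nat.pow_le_pow_right (by omega) (by omega)),
    h1.trans (Nat.pow_le_pow_right (by omega) (by omega))⟩

/-- few subsets with fewer than `K` elements. -/
theorem few_subsets (X : Finset V) (K : ℕ) :
    {S : Set V | S ⊆ (X : Set V) ∧ S.ncard < K}.ncard ≤ (X.card + 1) ^ K := by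
  have h1 : {S : Set V | S ⊆ (X : Set V) ∧ S.ncard < K} ⊆
      (fun φ : Fin K → Option X => {x : V | ∃ i y, φ i = some y ∧ (y : V) = x}) '' Set.univ := by
    rintro S ⟨hS, hK⟩
    have hf : S.Finite := Set.toFinite S
    have e : Fin S.ncard ≃ S := by
      have : Nat.card S = S.ncard := rfl
      exact (Finite.equivFinOfCardEq this).symm
    refine ⟨fun i => if h : i.1 < S.ncard then some ⟨(e ⟨i.1, h⟩ : V), hS (e ⟨i.1, h⟩).2⟩
      else none, Set.mem_univ _, ?_⟩
    ext x
    constructor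
    · rintro ⟨i, y, hi, rfl⟩
      simp only at hi
      split_ifs at hi with h
      obtain rfl := Option.some.inj hi
      exact (e ⟨i.1, h⟩).2
    · intro hx
      refine ⟨⟨(e.symm ⟨x, hx⟩).1, lt_trans (e.symm ⟨x, hx⟩).2 hK⟩, ⟨x, hS hx⟩, ?_, rfl⟩
      simp only
      rw [dif_pos (e.symm ⟨x, hx⟩).2]
      simp
  calc {S : Set V | S ⊆ (X : Set V) ∧ S.ncard < K}.ncard
      ≤ ((fun φ : Fin K → Option X => {x : V | ∃ i y, φ i = some y ∧ (y : V) = x}) ''
        Set.univ).ncard := Set.ncard_le_ncard h1 (Set.toFinite _)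
    _ ≤ (Set.univ : Set (Fin K → Option X)).ncard := Set.ncard_image_le (Set.toFinite _)
    _ = (X.card + 1) ^ K := by
        rw [Set.ncard_univ, Nat.card_eq_fintype_card, Fintype.card_fun, Fintype.card_option,
          Fintype.card_coe, Fintype.card_fin]

private theorem FibOr_det (H : SimpleGraph V) {X : Finset V} {v : V}
    {D D₂ : V → V → Prop} (hD : IsOr (res X H) D) (hD₂ : IsOr (res X H) D₂)
    (hr : rr (X.erase v) D = rr (X.erase v) D₂) (hin : ∀ u ∈ X, (D u v ↔ D₂ u v))
    (hout : ∀ u ∈ X, (D v u ↔ D₂ v u)) : D = D₂ := by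
  funext a b
  apply propext
  by_cases ha : a ∈ X
  · by_cases hb : b ∈ X
    · by_cases hav : a = v
      · rw [hav]
        exact hout b hb
      · by_cases hbv : b = v
        · rw [hbv]
          exact hin a ha
        · have h1 := congrFun (congrFun hr a) b
          have h2 : a ∈ X.erase v ∧ b ∈ X.erase v :=
            ⟨Finset.mem_erase.2 ⟨hav, ha⟩, Finset.mem_erase.2 ⟨hbv, hb⟩⟩
          simp only [rr, h2, and_self, and_true] at h1
          exact Iff.of_eq h1
    · exact ⟨fun h => absurd (isOr_mem hD h).2.1 hb, fun h => absurd (isOr_mem hD₂ h).2.1 hb⟩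
  · exact ⟨fun h => absurd (isOr_mem hD h).1 ha, fun h => absurd (isOr_mem hD₂ h).1 ha⟩

private theorem FibOr_iff (H : SimpleGraph V) {X : Finset V}
    {D D₂ : V → V → Prop} (hD : IsOr (res X H) D) (hD₂ : IsOr (res X H) D₂) {a b : V}
    (h : D a b ↔ D₂ a b) : D b a ↔ D₂ b a := by
  constructor
  · intro h1
    have h2 := (hD b a).1.2 (Or.inl h1)
    rcases (hD₂ b a).1.1 h2 with h3 | h3
    · exact h3
    · exact absurd ⟨h1, h.2 h3⟩ (hD b a).2
  · intro h1
    have h2 := (hD₂ b a).1.2 (Or.inl h1)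
    rcases (hD b a).1.1 h2 with h3 | h3
    · exact h3
    · exact absurd ⟨h1, h.1 h3⟩ (hD₂ b a).2

theorem fiber_pure (H : SimpleGraph V) {X : Finset V} {v : V} (hv : v ∈ X) (K : ℕ)
    (E : V → V → Prop) :
    {D : V → V → Prop | IsOr (res X H) D ∧ ¬ (K ≤ ideg D X v ∧ K ≤ odeg D X v) ∧
      rr (X.erase v) D = E}.ncard ≤ 2 * (X.card + 1) ^ K := by
  have h0 := split_le {D : V → V → Prop | IsOr (res X H) D ∧
      ¬ (K ≤ ideg D X v ∧ K ≤ odeg D X v) ∧ rr (X.erase v) D = E}
    {D : V → V → Prop | IsOr (res X H) D ∧ ideg D X v < K ∧ rr (X.erase v) D = E}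
    {D : V → V → Prop | IsOr (res X H) D ∧ odeg D X v < K ∧ rr (X.erase v) D = E} (by
      rintro D ⟨h1, h2, h3⟩
      by_cases h4 : K ≤ ideg D X v
      · right
        exact ⟨h1, by by_contra h5; exact h2 ⟨h4, not_lt.1 h5⟩, h3⟩
      · left
        exact ⟨h1, not_le.1 h4, h3⟩)
  have h1 : {D : V → V → Prop | IsOr (res X H) D ∧ ideg D X v < K ∧
      rr (X.erase v) D = E}.ncard ≤ (X.card + 1) ^ K := by
    refine (inj_le _ {S : Set V | S ⊆ (X : Set V) ∧ S.ncard < K}
      (fun D => {u | u ∈ X ∧ D u v}) ?_ ?_).trans (few_subsets X K)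
    · rintro D ⟨-, h2, -⟩
      exact ⟨fun u hu => hu.1, h2⟩
    · rintro D ⟨hD, -, hr⟩ D₂ ⟨hD₂, -, hr₂⟩ heq
      have hin : ∀ u ∈ X, (D u v ↔ D₂ u v) := by
        intro u hu
        have h3 := Set.ext_iff.1 heq u
        simp only [Set.mem_setOf_eq, hu, true_and] at h3
        exact h3
      exact FibOr_det H hD hD₂ (hr.trans hr₂.symm) hin
        fun u hu => FibOr_iff H hD hD₂ (hin u hu)
  have h2 : {D : V → V → Prop | IsOr (res X H) D ∧ odeg D X v < K ∧
      rr (X.erase v) D = E}.ncard ≤ (X.card + 1) ^ K := by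
    refine (inj_le _ {S : Set V | S ⊆ (X : Set V) ∧ S.ncard < K}
      (fun D => {u | u ∈ X ∧ D v u}) ?_ ?_).trans (few_subsets X K)
    · rintro D ⟨-, h2, -⟩
      exact ⟨fun u hu => hu.1, h2⟩
    · rintro D ⟨hD, -, hr⟩ D₂ ⟨hD₂, -, hr₂⟩ heq
      have hout : ∀ u ∈ X, (D v u ↔ D₂ v u) := by
        intro u hu
        have h3 := Set.ext_iff.1 heq u
        simp only [Set.mem_setOf_eq, hu, true_and] at h3
        exact h3
      exact FibOr_det H hD hD₂ (hr.trans hr₂.symm)
        (fun u hu => FibOr_iff H hD hD₂ (hout u hu)) hout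
  omega

end MP_0a9719_co
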