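import Pool.Agent.Lib.MP_0a9719_co.Cherry
import Pool.Agent.Lib.MP_0a9719_co.Crit

/-! MP_0a9719_co, module PosA: forests with a component with at least five vertices.

`χ` from `forest_two`, the cherries from `cherries` for the component `c`. Orientation: `A u v := F.Adj u v ∧
(if s(u, v) ∈ {s(c₂, x₂), s(c₂, y₂)} then χ u = false else χ u = true)`. So the edges
of the first cherry are directed from the class `true` to the class `false`, those of the second
from `false` to `true`. `IsOr F A` (`χ u ≠ χ v` for adjacent `u v`).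
`V = Fin m ⊕ Fin m`, `H` complete bipartite (`completeBipartiteGraph`). For a permutation `σ` of `Fin m` let `D_σ` have the arcs
`inl i → inr (σ i)` and `inr j → inl i` for `j ≠ σ i`: an orientation of `H`, `σ ↦ D_σ`
injective. CLAIM: `D_σ` does not contain `A`. Let `f` be a copy. `side u := (f u is inl)`. For adjacent `u v` of `F` the vertices `f u`, `f v` are on different sides, so on
`c.supp` (connected) either `side u ↔ χ u = true` for all `u ∈ c.supp`, or `side u ↔ χ u = false` for all. In the first case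
the first cherry gives two arcs of `D_σ` from `inl` to `inr` with a common end, with different
other ends, impossible (each `inl i` has exactly one out-neighbour and each `inr j` exactly one
in-neighbour). In the second case the second cherry does.
So `numFree A H ≥ m!` (`Fintype.card_perm`), and if `F.Free H'` then `2 ^ e(H') ≤ 2 ^ (|W| 2 m) < m!` for `m` large
(`forest_edges`; `(4^|W|)^m < m!` eventually, e.g. `FloorSemiring.tendsto_pow_div_factorial_atTop`). Strict
alternative of `criterion` with `n = 2 m`. -/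

namespace MP_0a9719_co

/-- the orientation of the complete bipartite graph given by a permutation. -/
def DSig {m : ℕ} (σ : Equiv.Perm (Fin m)) : Fin m ⊕ Fin m → Fin m ⊕ Fin m → Prop
  | Sum.inl i, Sum.inr j => j = σ i
  | Sum.inr j, Sum.inl i => j ≠ σ i
  | Sum.inl _, Sum.inl _ => False
  | Sum.inr _, Sum.inr _ => False

theorem DSig_inj {m : ℕ} : Function.Injective (DSig (m := m)) := by
  intro σ τ h
  ext i
  have h1 := congrFun (congrFun h (Sum.inl i)) (Sum.inr (σ i))
  simp only [DSig] at h1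
  have h2 : σ i = τ i := h1.mp trivial
  rw [h2]

theorem DSig_or {m : ℕ} (σ : Equiv.Perm (Fin m)) :
    IsOr (completeBipartiteGraph (Fin m) (Fin m)) (DSig σ) := by
  rintro (i | i) (j | j)
  · simp [DSig]
  · by_cases h : j = σ i <;> simp [DSig, h]
  · by_cases h : i = σ j <;> simp [DSig, h]
  · simp [DSig]

theorem DSig_side {m : ℕ} (σ : Equiv.Perm (Fin m)) (p q : Fin m ⊕ Fin m) (h : DSig σ p q) :
    p.isLeft ≠ q.isLeft := by
  rcases p with i | i <;> rcases q with j | j <;> simp_all [DSig]

theorem DSig_left {m : ℕ} (σ : Equiv.Perm (Fin m)) (p q q' : Fin m ⊕ Fin m)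
    (hp : p.isLeft = true) (h : DSig σ p q) (h' : DSig σ p q') : q = q' := by
  rcases p with i | i <;> rcases q with j | j <;> rcases q' with j' | j' <;> simp_all [DSig]

theorem DSig_right {m : ℕ} (σ : Equiv.Perm (Fin m)) (p q q' : Fin m ⊕ Fin m)
    (hp : p.isLeft = false) (h : DSig σ q p) (h' : DSig σ q' p) : q = q' := by
  rcases p with i | i
  · simp at hp
  · rcases q with j | j
    · rcases q' with j' | j'
      · simp only [DSig] at h h'
        exact congrArg _ (σ.injective (h.symm.trans h'))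
      · simp [DSig] at h'
    · simp [DSig] at h

/-- the oriented cherries exclude a copy. -/
theorem cherry_false {W : Type*} {m : ℕ} (σ : Equiv.Perm (Fin m)) (A : W → W → Prop)
    (f : W → Fin m ⊕ Fin m) (hf : Function.Injective f) (hfA : ∀ u v, A u v → DSig σ (f u) (f v))
    (F : SimpleGraph W) (χ : W → Bool) (c x y : W) (hxy : x ≠ y) (hx : F.Adj c x)
    (hy : F.Adj c y) (hχx : χ c ≠ χ x) (hχy : χ c ≠ χ y) (b : Bool)
    (hAx : (χ c = b → A c x) ∧ (χ x = b → A x c))
    (hAy : (χ c = b → A c y) ∧ (χ y = b → A y c))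
    (hside : (f c).isLeft = (χ c == b)) : False := by
  by_cases hb : χ c = b
  · have h1 : (f c).isLeft = true := by rw [hside, hb]; simp
    exact hxy (hf (DSig_left σ _ _ _ h1 (hfA _ _ (hAx.1 hb)) (hfA _ _ (hAy.1 hb))))
  · have h1 : (f c).isLeft = false := by rw [hside]; simpa using hb
    have h2 : χ x = b := by
      revert hχx hb; cases χ c <;> cases χ x <;> cases b <;> simp
    have h3 : χ y = b := by
      revert hχy hb; cases χ c <;> cases χ y <;> cases b <;> simp
    exact hxy (hf (DSig_right σ _ _ _ h1 (hfA _ _ (hAx.2 h2)) (hfA _ _ (hAy.2 h3))))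

theorem pos_A {W : Type*} [Fintype W] (F : SimpleGraph W) (hF : F.IsAcyclic)
    (h : ∃ c : F.ConnectedComponent, 5 ≤ c.supp.ncard) : PropertyP F := by
  classical
  obtain ⟨c, hc⟩ := h
  obtain ⟨χ, hχ⟩ := forest_two F hF
  obtain ⟨c₁, x₁, y₁, c₂, x₂, y₂, hc₁, hc₂, hx₁, hy₁, hxy₁, hx₂, hy₂, hxy₂, n1, n2, n3, n4⟩ :=
    cherries F c hc
  set A : W → W → Prop := fun u v => F.Adj u v ∧
    (if s(u, v) = s(c₂, x₂) ∨ s(u, v) = s(c₂, y₂) then χ u = false else χ u = true) with hA
  have hIs : IsOr F A := by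
    intro u v
    by_cases huv : F.Adj u v
    · have h1 := hχ u v huv
      have h2 : s(v, u) = s(u, v) := Sym2.eq_swap
      simp only [hA, h2, huv, huv.symm, true_and]
      by_cases hcond : s(u, v) = s(c₂, x₂) ∨ s(u, v) = s(c₂, y₂)
      · simp only [hcond, if_true]
        revert h1; cases χ u <;> cases χ v <;> simp
      · simp only [hcond, if_false]
        revert h1; cases χ u <;> cases χ v <;> simp
    · have huv' : ¬ F.Adj v u := fun h => huv h.symm
      simp [hA, huv, huv']
  refine criterion F A hIs fun n₀ => ?_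
  -- the size
  obtain ⟨m, hm, hmn⟩ : ∃ m : ℕ, (4 ^ Fintype.card W) ^ m < m.factorial ∧ n₀ ≤ m := by
    have h1 := Nat.eventually_pow_lt_factorial_sub (4 ^ Fintype.card W) 0
    obtain ⟨m, h2, h3⟩ := (h1.and (Filter.eventually_ge_atTop n₀)).exists
    exact ⟨m, by simpa using h2, h3⟩
  refine ⟨m + m, by omega, Fin m ⊕ Fin m, inferInstance, completeBipartiteGraph (Fin m) (Fin m),
    by simp, Or.inr fun H' hH' => ?_⟩
  have hedge := forest_edges F hF H' hH'
  have hbig : m.factorial ≤ numFree A (completeBipartiteGraph (Fin m) (Fin m)) := by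
    have h1 : (Set.range (DSig (m := m))).ncard = m.factorial := by
      rw [← Set.image_univ, Set.ncard_image_of_injective _ DSig_inj, Set.ncard_univ, Nat.card_perm,
        Nat.card_fin]
    rw [← h1]
    refine Set.ncard_le_ncard ?_ (Set.toFinite _)
    rintro D ⟨σ, rfl⟩
    refine ⟨DSig_or σ, ?_⟩
    rintro ⟨f, hf, hfA⟩
    -- the sides
    have hstep : ∀ u v, F.Adj u v → xor (f u).isLeft (χ u) = xor (f v).isLeft (χ v) := by
      intro u v huv
      have h1 := hχ u v huv
      have h2 : (f u).isLeft ≠ (f v).isLeft := by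
        rcases (hIs u v).1.1 huv with h | h
        · exact DSig_side σ _ _ (hfA _ _ h)
        · exact (DSig_side σ _ _ (hfA _ _ h)).symm
      revert h1 h2
      cases χ u <;> cases χ v <;> cases (f u).isLeft <;> cases (f v).isLeft <;> simp
    have hreach : ∀ u v, F.Reachable u v → xor (f u).isLeft (χ u) = xor (f v).isLeft (χ v) := by
      rintro u v ⟨p⟩
      induction p with
      | nil => rfl
      | cons hadj p ih => exact (hstep _ _ hadj).trans ih
    have h12 : F.Reachable c₁ c₂ := by
      apply SimpleGraph.ConnectedComponent.exact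
      exact (show F.connectedComponentMk c₁ = c from hc₁).trans
        (show F.connectedComponentMk c₂ = c from hc₂).symm
    have hτ := hreach _ _ h12
    -- the arcs of the cherries
    have ha1 : ∀ z, F.Adj c₁ z → (z = x₁ ∨ z = y₁) →
        (χ c₁ = true → A c₁ z) ∧ (χ z = true → A z c₁) := by
      intro z hz hz'
      have hcond : ¬ (s(c₁, z) = s(c₂, x₂) ∨ s(c₁, z) = s(c₂, y₂)) := by
        rcases hz' with rfl | rfl
        · exact not_or.2 ⟨n1, n2⟩
        · exact not_or.2 ⟨n3, n4⟩
      have hcond' : ¬ (s(z, c₁) = s(c₂, x₂) ∨ s(z, c₁) = s(c₂, y₂)) := by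
        rwa [Sym2.eq_swap]
      refine ⟨fun hχ1 => ⟨hz, ?_⟩, fun hχ1 => ⟨hz.symm, ?_⟩⟩
      · rw [if_neg hcond]; exact hχ1
      · rw [if_neg hcond']; exact hχ1
    have ha2 : ∀ z, F.Adj c₂ z → (z = x₂ ∨ z = y₂) →
        (χ c₂ = false → A c₂ z) ∧ (χ z = false → A z c₂) := by
      intro z hz hz'
      have hcond : (s(c₂, z) = s(c₂, x₂) ∨ s(c₂, z) = s(c₂, y₂)) := by
        rcases hz' with rfl | rfl
        · exact Or.inl rfl
        · exact Or.inr rfl
      have hcond' : (s(z, c₂) = s(c₂, x₂) ∨ s(z, c₂) = s(c₂, y₂)) := by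
        rwa [Sym2.eq_swap]
      refine ⟨fun hχ1 => ⟨hz, ?_⟩, fun hχ1 => ⟨hz.symm, ?_⟩⟩
      · rw [if_pos hcond]; exact hχ1
      · rw [if_pos hcond']; exact hχ1
    by_cases hcase : xor (f c₁).isLeft (χ c₁) = true
    · -- `isLeft = ! χ`
      rw [hτ] at hcase
      refine cherry_false σ A f hf hfA F χ c₂ x₂ y₂ hxy₂ hx₂ hy₂ (hχ _ _ hx₂) (hχ _ _ hy₂) false
        (ha2 _ hx₂ (Or.inl rfl)) (ha2 _ hy₂ (Or.inr rfl)) ?_
      revert hcase
      cases (f c₂).isLeft <;> cases χ c₂ <;> simp
    · refine cherry_false σ A f hf hfA F χ c₁ x₁ y₁ hxy₁ hx₁ hy₁ (hχ _ _ hx₁) (hχ _ _ hy₁) true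
        (ha1 _ hx₁ (Or.inl rfl)) (ha1 _ hy₁ (Or.inr rfl)) ?_
      revert hcase
      cases (f c₁).isLeft <;> cases χ c₁ <;> simp
  calc 2 ^ H'.edgeSet.ncard ≤ 2 ^ (Fintype.card W * Fintype.card (Fin m ⊕ Fin m)) :=
        Nat.pow_le_pow_right (by norm_num) hedge
    _ = (4 ^ Fintype.card W) ^ m := by
        rw [Fintype.card_sum, Fintype.card_fin, show (4 : ℕ) = 2 ^ 2 by norm_num, ← pow_mul,
          ← pow_mul]
        congr 1
        ring
    _ < m.factorial := hm
    _ ≤ _ := hbig

end MP_0a9719_co
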