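import Pool.Agent.Lib.MP_0a9719_co.PosB1

/-! MP_0a9719_co, module PosB2: forests with `a ≥ 1` components `K_{1,3}`, at most one component
`K_2`, and isolated vertices.

`A` from `exists_out`, `L` from `link`. No shape of `L` is a `p4` (no component with four vertices without a vertex of
degree three), none has two leaves, so every shape is a star with three leaves or with one leaf;
`L.countP isT = smallPairs F ≤ 1`. `a := L.countP isS = L.length - L.countP isT` is the number of components with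
four vertices. Each of these has a vertex with three out-neighbours in it (`comp_star`, degrees `3` and
`1`). `V = Fin (a-1) ⊕ (Fin r × Fin 4)`, `H = joinG (a-1) (copies r ⊤)`, `G` = orientations of
`copies r ⊤` with all out-degrees `≤ 2`, `|G| ≥ 32^r` (`copies_count`, `count_K4`). `hfree`: `hub_free` with the
`a` components with four vertices. So `numFree A H ≥ 2^((a-1).choose 2 + (a-1) 4 r) 32^r ≥ 2^(4 a r + r)`. `F.Free H'`:
`e(H') ≤ a (a - 1 + 4 r) + C` (`ex_B2`, `free_packs`), smaller than `4 a r + r` for `r` large. Strict alternative of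
`criterion`. -/

namespace MP_0a9719_co

private theorem posB2_count (L : List Shape)
    (h : ∀ T ∈ L, (T.isS = true ∧ T.isT = false) ∨ (T.isS = false ∧ T.isT = true)) :
    L.countP Shape.isS + L.countP Shape.isT = L.length := by
  induction L with
  | nil => simp
  | cons T L ih =>
    have h1 := ih (fun T' hT' => h T' (List.mem_cons_of_mem _ hT'))
    rw [List.countP_cons, List.countP_cons, List.length_cons]
    rcases h T List.mem_cons_self with ⟨h2, h3⟩ | ⟨h2, h3⟩
    · rw [h2, h3]
      simp only [Bool.false_eq_true, if_false, if_true]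
      omega
    · rw [h2, h3]
      simp only [Bool.false_eq_true, if_false, if_true]
      omega

private theorem posB2_out {W : Type*} [Finite W] (F : SimpleGraph W) (hF : F.IsAcyclic)
    (A : W → W → Prop)
    (hA : ∀ u v, F.Adj u v → (F.neighborSet v).ncard < (F.neighborSet u).ncard → A u v)
    (c : F.ConnectedComponent) (hc : c.supp.ncard = 4)
    (hP : ∃ v ∈ c.supp, (F.neighborSet v).ncard = 3) :
    ∃ v x y z, v ∈ c.supp ∧ x ∈ c.supp ∧ y ∈ c.supp ∧ z ∈ c.supp ∧ x ≠ y ∧ x ≠ z ∧ y ≠ z ∧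
      A v x ∧ A v y ∧ A v z := by
  obtain ⟨v, hv, h3⟩ := hP
  obtain ⟨x, y, z, hxy, hxz, hyz, hvx, hvy, hvz, ax, ay, az, nxy, nxz, nyz, hsupp⟩ :=
    comp_star F hF c hc v hv h3
  have hmem : ∀ w, w ∈ c.supp ↔ w = v ∨ w = x ∨ w = y ∨ w = z := by
    intro w
    rw [hsupp]
    simp
  have hnb : ∀ w, w ∈ c.supp → ∀ w', F.Adj w w' → w' ∈ c.supp := by
    intro w hw w' hww
    rw [SimpleGraph.ConnectedComponent.mem_supp_iff] at hw ⊢
    rw [← hw]
    exact (SimpleGraph.ConnectedComponent.connectedComponentMk_eq_of_adj hww).symm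
  have hone : ∀ w, w ∈ c.supp → (∀ w' ∈ c.supp, F.Adj w w' → w' = v) →
      (F.neighborSet w).ncard < (F.neighborSet v).ncard := by
    intro w hw h
    rw [h3]
    have : F.neighborSet w ⊆ {v} := by
      intro w' hw'
      exact h w' (hnb w hw w' hw') hw'
    have h5 := Set.ncard_le_ncard this
    rw [Set.ncard_singleton] at h5
    omega
  have mx : x ∈ c.supp := (hmem x).mpr (by tauto)
  have my : y ∈ c.supp := (hmem y).mpr (by tauto)
  have mz : z ∈ c.supp := (hmem z).mpr (by tauto)
  refine ⟨v, x, y, z, hv, mx, my, mz, hxy, hxz, hyz, hA v x ax (hone x mx ?_),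
    hA v y ay (hone y my ?_), hA v z az (hone z mz ?_)⟩
  · intro w' hw' had
    rcases (hmem w').mp hw' with rfl | rfl | rfl | rfl
    · rfl
    · exact absurd had (F.loopless.irrefl _)
    · exact absurd had nxy
    · exact absurd had nxz
  · intro w' hw' had
    rcases (hmem w').mp hw' with rfl | rfl | rfl | rfl
    · rfl
    · exact absurd had.symm nxy
    · exact absurd had (F.loopless.irrefl _)
    · exact absurd had nyz
  · intro w' hw' had
    rcases (hmem w').mp hw' with rfl | rfl | rfl | rfl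
    · rfl
    · exact absurd had.symm nxz
    · exact absurd had.symm nyz
    · exact absurd had (F.loopless.irrefl _)

theorem pos_B2 {W : Type*} [Fintype W] (F : SimpleGraph W) (hF : F.IsAcyclic)
    (hs : ∀ c : F.ConnectedComponent, c.supp.ncard ≤ 4) (h1 : smallPairs F ≤ 1)
    (h3 : ∀ c : F.ConnectedComponent, c.supp.ncard ≠ 3)
    (hP : ∀ c : F.ConnectedComponent, c.supp.ncard = 4 →
      ∃ v ∈ c.supp, (F.neighborSet v).ncard = 3)
    (hS : ∃ c : F.ConnectedComponent, c.supp.ncard = 4) : PropertyP F := by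
  classical
  haveI : Finite F.ConnectedComponent := Quot.finite _
  obtain ⟨A, hA, hAo⟩ := exists_out F
  obtain ⟨L, hV, hT, hC, hlen, -, hp4, -, hpc⟩ := link F hF hs A hA
  have hC0 : L.countP Shape.isC = 0 := by
    rw [hC]
    have : {c : F.ConnectedComponent | c.supp.ncard = 3} = ∅ := by
      rw [Set.eq_empty_iff_forall_notMem]
      exact fun c hc => h3 c hc
    rw [this, Set.ncard_empty]
  have hnp : ∀ T ∈ L, ¬ ∃ a b c, T = .p4 a b c := by
    intro T hTL h
    obtain ⟨c, hc, hc3⟩ := hp4.mp ⟨T, hTL, h⟩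
    obtain ⟨v, hv, hv3⟩ := hP c hc
    exact hc3 v hv hv3
  have hshape : ∀ T ∈ L, ∃ i o, T = .star i o ∧ (i + o = 1 ∨ i + o = 3) := by
    intro T hTL
    rcases T with ⟨i, o⟩ | ⟨a, b, c⟩
    · have h4 : 1 ≤ i + o ∧ i + o ≤ 3 := hV _ hTL
      have h5 := List.countP_eq_zero.mp hC0 _ hTL
      have h6 : i + o ≠ 2 := by
        intro h
        apply h5
        simp [Shape.isC, h]
      exact ⟨i, o, rfl, by omega⟩
    · exact absurd ⟨a, b, c, rfl⟩ (hnp _ hTL)
  have hST : ∀ T ∈ L, (T.isS = true ∧ T.isT = false) ∨ (T.isS = false ∧ T.isT = true) := by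
    intro T hTL
    obtain ⟨i, o, rfl, h | h⟩ := hshape T hTL
    · right; simp [Shape.isS, Shape.isT, h]
    · left; simp [Shape.isS, Shape.isT, h]
  have hcnt := posB2_count L hST
  set S4 : Set F.ConnectedComponent := {c | c.supp.ncard = 4} with hS4
  have hsp : smallPairs F = {c : F.ConnectedComponent | c.supp.ncard = 2}.ncard := by
    unfold smallPairs
    congr 1
    ext c
    constructor
    · rintro (h | ⟨h, h'⟩)
      · exact h
      · obtain ⟨v, hv, hv3⟩ := hP c h
        exact absurd hv3 (h' v hv)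
    · exact fun h => Or.inl h
  have hun : {c : F.ConnectedComponent | 2 ≤ c.supp.ncard} =
      {c : F.ConnectedComponent | c.supp.ncard = 2} ∪ S4 := by
    ext c
    have h5 := hs c
    have h6 := h3 c
    constructor
    · intro h
      have h7 : 2 ≤ c.supp.ncard := h
      have h8 : c.supp.ncard = 2 ∨ c.supp.ncard = 4 := by omega
      exact h8
    · rintro (h | h)
      · have h7 : c.supp.ncard = 2 := h
        show 2 ≤ c.supp.ncard
        omega
      · have h7 : c.supp.ncard = 4 := h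
        show 2 ≤ c.supp.ncard
        omega
  have hS4c : L.countP Shape.isS = S4.ncard := by
    have h5 : ({c : F.ConnectedComponent | c.supp.ncard = 2} ∪ S4).ncard =
        {c : F.ConnectedComponent | c.supp.ncard = 2}.ncard + S4.ncard := by
      apply Set.ncard_union_eq
      · rw [Set.disjoint_left]
        intro c hc hc'
        have h7 : c.supp.ncard = 2 := hc
        have h8 : c.supp.ncard = 4 := hc'
        omega
      · exact Set.toFinite _
      · exact Set.toFinite _
    rw [hun, h5, ← hsp, ← hT] at hlen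
    omega
  have ha1 : 1 ≤ S4.ncard := by
    rw [Nat.one_le_iff_ne_zero, Ne, Set.ncard_eq_zero (Set.toFinite _)]
    intro h
    obtain ⟨c, hc⟩ := hS
    have : c ∈ S4 := hc
    rw [h] at this
    exact this
  obtain ⟨k, hk⟩ : ∃ k, S4.ncard = k + 1 := ⟨S4.ncard - 1, by omega⟩
  let e : S4 ≃ Fin (k + 1) := Finite.equivFinOfCardEq (by rw [Nat.card_coe_set_eq, hk])
  obtain ⟨C, hCb⟩ := ex_B2 L
    (fun T hTL => by
      obtain ⟨i, o, rfl, h | h⟩ := hshape T hTL
      · right; exact ⟨i, o, h, rfl⟩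
      · left; simp [Shape.isS, h])
    (by rw [hT]; exact h1) (by rw [hS4c]; exact ha1)
  refine criterion F A hA (fun n₀ => ?_)
  set r : ℕ := (k + 1) * k + C + 1 + n₀ + Fintype.card W with hr
  set Q : SimpleGraph (Fin r × Fin 4) := copies r (⊤ : SimpleGraph (Fin 4)) with hQ
  set G₀ : Set (Fin 4 → Fin 4 → Prop) := {D | IsOr ⊤ D ∧ ∀ v, {u | D v u}.ncard ≤ 2} with hG₀
  set G : Set (Fin r × Fin 4 → Fin r × Fin 4 → Prop) := {E | IsOr (copies r ⊤) E ∧
      ∀ i, (fun a b => E (i, a) (i, b)) ∈ G₀} with hG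
  have hGc : 32 ^ r ≤ G.ncard :=
    (Nat.pow_le_pow_left count_K4 r).trans (copies_count r 4 ⊤ G₀ (fun E hE => hE.1))
  have hfree : ∀ E ∈ G, ∀ D : Fin k ⊕ (Fin r × Fin 4) → Fin k ⊕ (Fin r × Fin 4) → Prop,
      IsOr (joinG k Q) D → (∀ a b, D (Sum.inr a) (Sum.inr b) ↔ E a b) → ¬ Contains A D := by
    rintro E ⟨hE, hE2⟩ D - hDE ⟨f, hf, hfA⟩
    obtain ⟨i, hi⟩ := hub_free k (fun i => ((e.symm i).1 : F.ConnectedComponent).supp)
      (by
        intro i i' hii
        rw [Set.disjoint_left]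
        intro u hu hu'
        rw [SimpleGraph.ConnectedComponent.mem_supp_iff] at hu hu'
        apply hii
        apply e.symm.injective
        apply Subtype.ext
        rw [← hu, ← hu']) f hf
    have hc4 : ((e.symm i).1 : F.ConnectedComponent).supp.ncard = 4 := (e.symm i).2
    obtain ⟨v, x, y, z, mv, mx, my, mz, hxy, hxz, hyz, ax, ay, az⟩ :=
      posB2_out F hF A hAo _ hc4 (hP _ hc4)
    obtain ⟨v', hv'⟩ := hi v mv
    obtain ⟨x', hx'⟩ := hi x mx
    obtain ⟨y', hy'⟩ := hi y my
    obtain ⟨z', hz'⟩ := hi z mz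
    have key : ∀ w w', f w = Sum.inr w' → A v w → v'.1 = w'.1 ∧ E (v'.1, v'.2) (v'.1, w'.2) := by
      intro w w' hw haw
      have h5 := hfA v w haw
      rw [hv', hw] at h5
      have h6 : E v' w' := (hDE v' w').mp h5
      have h7 := (hE v' w').1.mpr (Or.inl h6)
      have h8 : v'.1 = w'.1 := h7.1
      refine ⟨h8, ?_⟩
      have h9 : (v'.1, w'.2) = w' := by rw [h8]
      rw [h9]
      exact h6
    obtain ⟨kx, ex⟩ := key x x' hx' ax
    obtain ⟨ky, ey⟩ := key y y' hy' ay
    obtain ⟨kz, ez⟩ := key z z' hz' az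
    have hne : ∀ w₁ w₂ (w₁' w₂' : Fin r × Fin 4), f w₁ = Sum.inr w₁' → f w₂ = Sum.inr w₂' →
        w₁ ≠ w₂ → v'.1 = w₁'.1 → v'.1 = w₂'.1 → w₁'.2 ≠ w₂'.2 := by
      intro w₁ w₂ w₁' w₂' h5 h6 h7 h8 h9 h10
      apply h7
      apply hf
      rw [h5, h6]
      congr 1
      exact Prod.ext (h8.symm.trans h9) h10
    have hsub : ({x'.2, y'.2, z'.2} : Set (Fin 4)) ⊆
        {u | E (v'.1, v'.2) (v'.1, u)} := by
      intro u hu
      simp only [Set.mem_insert_iff, Set.mem_singleton_iff] at hu
      rcases hu with rfl | rfl | rfl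
      · exact ex
      · exact ey
      · exact ez
    have h5 := Set.ncard_le_ncard hsub (Set.toFinite _)
    have h6 : ({x'.2, y'.2, z'.2} : Set (Fin 4)).ncard = 3 := by
      rw [Set.ncard_eq_three]
      exact ⟨_, _, _, hne x y x' y' hx' hy' hxy kx ky, hne x z x' z' hx' hz' hxz kx kz,
        hne y z y' z' hy' hz' hyz ky kz, rfl⟩
    have h7 := (hE2 v'.1).2 v'.2
    rw [h6] at h5
    exact absurd (h5.trans h7) (by norm_num)
  have hjoin := join_count k Q A G (fun E hE => hE.1) hfree
  have hcard : Fintype.card (Fin k ⊕ (Fin r × Fin 4)) = k + r * 4 := by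
    simp
  refine ⟨k + r * 4, by omega, Fin k ⊕ (Fin r × Fin 4), inferInstance, joinG k Q, hcard,
    Or.inr ?_⟩
  intro H' hH'
  obtain ⟨hpk, heq⟩ := free_packs F A hA L hpc (Fin k ⊕ (Fin r × Fin 4))
    (by rw [hcard]; omega) H' hH'
  have h5 := hCb (Fin k ⊕ (Fin r × Fin 4)) H' Finset.univ hpk
  rw [← heq, hS4c, hk, Finset.card_univ, hcard] at h5
  refine lt_of_lt_of_le ?_ hjoin
  have h6 : Fintype.card (Fin r × Fin 4) = r * 4 := by simp
  rw [h6]
  have h7 : (2 : ℕ) ^ (k.choose 2 + k * (r * 4)) * 32 ^ r ≤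
      2 ^ (k.choose 2 + k * (r * 4)) * G.ncard := Nat.mul_le_mul_left _ hGc
  refine lt_of_lt_of_le ?_ h7
  have h8 : (32 : ℕ) ^ r = 2 ^ (5 * r) := by
    rw [pow_mul]
    norm_num
  rw [h8, ← pow_add]
  apply Nat.pow_lt_pow_right (by norm_num)
  have h9 : (k + 1) * (k + r * 4) + C = (k + 1) * k + k * (r * 4) + r * 4 + C := by ring
  omega

end MP_0a9719_co
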