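import Pool.Agent.Lib.MP_0a9719_co.PosB1

/-! MP_0a9719_co, module PosD: forests whose nontrivial components are `a ≥ 0` stars `K_{1,3}` and
one path `P_4`.

Let `c₀` be the component `P_4` (the only component counted by `smallPairs`), with the path
`x y z w` of `comp_path`. `exists_orD`: `A u v := F.Adj u v ∧` (if `u ∈ c₀.supp` then
`(u, v)` is one of `(x, y), (z, y), (z, w)`, else `d u < d v ∨ (d u = d v ∧ u < v)`): an orientation of `F`; in the other components with four vertices
(stars, `comp_star`) all arcs point to the centre, which has three in-neighbours.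
`L` from `link`: one `p4`, all others stars with three leaves (`L.countP isT = 1`, no
`isC`, there is a `p4` in `L`, so the only shape with `isT` is a `p4`); `a = L.length - 1`.
`Λ = (Fin r × Fin 3) ⊕ Fin 4`, `Q = sumG (copies r ⊤) paw`, `H = joinG a Q` on `V = Fin a ⊕ Λ`, `N = |Λ| = 3 r + 4`,
`n = a + N`. `G` = orientations of `Q` whose restriction to `Fin 4` is in the set of `count_paw`:
`|G| ≥ 8^r 8` (`sum_count`, `copies_count`, `count_K3`, `count_paw`). `hfree`: a copy `f` of `A` in `D`; by
`hub_free` with the `a + 1` components with at least two vertices some component `c` is mapped into `Λ`. It is connected with four vertices, so its image lies in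
`Fin 4` (adjacent vertices of `Q` lie in the same triangle or both in `Fin 4`; a triangle has only
three vertices): for `c = c₀`: `x, y, z, w` are mapped to `x0 → x1 ← x2 → x3` in `Fin 4`, excluded; for a star: the
centre has three in-neighbours in `Fin 4`, excluded. (For the star: the three leaves are all adjacent to the
centre, so they lie in the part of the centre. For the path: consecutive vertices.)
So `numFree A H ≥ 2^(a.choose 2 + a N) 8^(r+1) = 2^(a.choose 2 + a N + 3 r + 3)`. If `F.Free H'`, `|V| = n` large: `e(H') + 1 ≤ a.choose 2 +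
(a+1) N` (`ex_D`, `N = 3 r + 4`, `N % 3 = 1`), so `2^(e(H')) ≤ numFree A H`. `F` is contained in `H`: by `link` for the relation `H.Adj` it
suffices that `Packs L H.Adj univ`, and (`packs_perm`) that `Packs (stars ++ [p4]) H.Adj univ`: the path `3 - 0 - 1 - 2` of
the paw is a copy of any `p4` in `H.Adj`; then add the hubs one after the other with `sym_host` (degree of a hub in the set of `Λ` and
the hubs already used is at least `N ≥ 4 L.length + 4` for `r` large). First alternative of
`criterion`. -/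

namespace MP_0a9719_co

/-- the lower graph: `r` triangles and a paw. -/
abbrev LowG (r : ℕ) : SimpleGraph ((Fin r × Fin 3) ⊕ Fin 4) :=
  sumG (copies r (⊤ : SimpleGraph (Fin 3))) paw

/-- the part of a vertex of the lower graph. -/
def part {r : ℕ} : (Fin r × Fin 3) ⊕ Fin 4 → Option (Fin r)
  | Sum.inl p => some p.1
  | Sum.inr _ => none

theorem LowG_part {r : ℕ} {p q : (Fin r × Fin 3) ⊕ Fin 4} (h : (LowG r).Adj p q) :
    part p = part q := by
  rcases p with p | p <;> rcases q with q | q
  · exact congrArg some h.1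
  · exact h.elim
  · exact h.elim
  · rfl

theorem part_four {r : ℕ} (p q s t : (Fin r × Fin 3) ⊕ Fin 4) (h1 : p ≠ q) (h2 : p ≠ s)
    (h3 : p ≠ t) (h4 : q ≠ s) (h5 : q ≠ t) (h6 : s ≠ t) (e1 : part p = part q)
    (e2 : part q = part s) (e3 : part s = part t) :
    ∃ p' q' s' t' : Fin 4, p = Sum.inr p' ∧ q = Sum.inr q' ∧ s = Sum.inr s' ∧ t = Sum.inr t' := by
  rcases p with ⟨i, p⟩ | p
  · exfalso
    rcases q with ⟨j, q⟩ | q
    swap
    · simp [part] at e1
    rcases s with ⟨k, s⟩ | s
    swap
    · simp [part] at e2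
    rcases t with ⟨l, t⟩ | t
    swap
    · simp [part] at e3
    simp only [part, Option.some.injEq] at e1 e2 e3
    subst e1 e2 e3
    simp only [ne_eq, Sum.inl.injEq, Prod.mk.injEq, true_and] at h1 h2 h3 h4 h5 h6
    omega
  · rcases q with ⟨j, q⟩ | q
    · simp [part] at e1
    rcases s with ⟨k, s⟩ | s
    · simp [part] at e2
    rcases t with ⟨l, t⟩ | t
    · simp [part] at e3
    exact ⟨p, q, s, t, rfl, rfl, rfl, rfl⟩

/-- the good orientations of the paw. -/
def goodPaw : Set (Fin 4 → Fin 4 → Prop) := {D | IsOr paw D ∧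
    (∀ v, {u | D u v}.ncard ≤ 2) ∧
    ¬ ∃ x0 x1 x2 x3 : Fin 4, x0 ≠ x1 ∧ x0 ≠ x2 ∧ x0 ≠ x3 ∧ x1 ≠ x2 ∧ x1 ≠ x3 ∧ x2 ≠ x3 ∧
      D x0 x1 ∧ D x2 x1 ∧ D x2 x3}

/-- the good orientations of the lower graph. -/
def goodLow (r : ℕ) : Set ((Fin r × Fin 3) ⊕ Fin 4 → (Fin r × Fin 3) ⊕ Fin 4 → Prop) :=
  {E | IsOr (LowG r) E ∧ (fun a b => E (Sum.inr a) (Sum.inr b)) ∈ goodPaw}

theorem goodLow_card (r : ℕ) : 8 ^ (r + 1) ≤ (goodLow r).ncard := by
  have h1 := copies_count r 3 ⊤ {D : Fin 3 → Fin 3 → Prop | IsOr ⊤ D} (fun E hE => hE)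
  have h2 := sum_count (copies r (⊤ : SimpleGraph (Fin 3))) paw
    {E : Fin r × Fin 3 → Fin r × Fin 3 → Prop | IsOr (copies r (⊤ : SimpleGraph (Fin 3))) E ∧
      ∀ i, (fun a b => E (i, a) (i, b)) ∈ {D : Fin 3 → Fin 3 → Prop | IsOr ⊤ D}}
    goodPaw (fun E hE => hE.1) (fun E hE => hE.1)
  have h3 : 8 ≤ goodPaw.ncard := count_paw
  have h4 : 8 ^ r ≤ {D : Fin 3 → Fin 3 → Prop | IsOr ⊤ D}.ncard ^ r :=
    Nat.pow_le_pow_left count_K3 r
  calc 8 ^ (r + 1) = 8 ^ r * 8 := pow_succ _ _
    _ ≤ _ := Nat.mul_le_mul (h4.trans h1) h3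
    _ ≤ _ := h2
    _ ≤ (goodLow r).ncard := by
        refine Set.ncard_le_ncard ?_ (Set.toFinite _)
        intro E hE
        exact ⟨hE.1, hE.2.2⟩

/-- a path oriented as in `pos_D` is not in a good orientation. -/
theorem goodLow_path {r : ℕ} {E : (Fin r × Fin 3) ⊕ Fin 4 → (Fin r × Fin 3) ⊕ Fin 4 → Prop}
    (hE : E ∈ goodLow r) (p q s t : (Fin r × Fin 3) ⊕ Fin 4) (h1 : p ≠ q) (h2 : p ≠ s)
    (h3 : p ≠ t) (h4 : q ≠ s) (h5 : q ≠ t) (h6 : s ≠ t) (e1 : E p q) (e2 : E s q)
    (e3 : E s t) : False := by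
  have a1 : (LowG r).Adj p q := (hE.1 _ _).1.2 (Or.inl e1)
  have a2 : (LowG r).Adj s q := (hE.1 _ _).1.2 (Or.inl e2)
  have a3 : (LowG r).Adj s t := (hE.1 _ _).1.2 (Or.inl e3)
  obtain ⟨p', q', s', t', rfl, rfl, rfl, rfl⟩ := part_four p q s t h1 h2 h3 h4 h5 h6
    (LowG_part a1) (LowG_part a2).symm (LowG_part a3)
  simp only [ne_eq, Sum.inr.injEq] at h1 h2 h3 h4 h5 h6
  exact hE.2.2.2 ⟨p', q', s', t', h1, h2, h3, h4, h5, h6, e1, e2, e3⟩

/-- a star with all arcs to the centre is not in a good orientation. -/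
theorem goodLow_star {r : ℕ} {E : (Fin r × Fin 3) ⊕ Fin 4 → (Fin r × Fin 3) ⊕ Fin 4 → Prop}
    (hE : E ∈ goodLow r) (p q s t : (Fin r × Fin 3) ⊕ Fin 4) (h1 : p ≠ q) (h2 : p ≠ s)
    (h3 : p ≠ t) (h4 : q ≠ s) (h5 : q ≠ t) (h6 : s ≠ t) (e1 : E q p) (e2 : E s p)
    (e3 : E t p) : False := by
  have a1 : (LowG r).Adj q p := (hE.1 _ _).1.2 (Or.inl e1)
  have a2 : (LowG r).Adj s p := (hE.1 _ _).1.2 (Or.inl e2)
  have a3 : (LowG r).Adj t p := (hE.1 _ _).1.2 (Or.inl e3)
  obtain ⟨p', q', s', t', rfl, rfl, rfl, rfl⟩ := part_four p q s t h1 h2 h3 h4 h5 h6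
    (LowG_part a1).symm ((LowG_part a1).trans (LowG_part a2).symm)
    ((LowG_part a2).trans (LowG_part a3).symm)
  simp only [ne_eq, Sum.inr.injEq] at h1 h2 h3 h4 h5 h6
  have h7 := hE.2.2.1 p'
  have h8 : ({q', s', t'} : Set (Fin 4)) ⊆ {u | E (Sum.inr u) (Sum.inr p')} := by
    rintro u (rfl | rfl | rfl)
    · exact e1
    · exact e2
    · exact e3
  have h9 := Set.ncard_le_ncard h8 (Set.toFinite _)
  have h10 : ({q', s', t'} : Set (Fin 4)).ncard = 3 := by
    rw [Set.ncard_eq_three]
    exact ⟨q', s', t', h4, h5, h6, rfl⟩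
  rw [h10] at h9
  exact absurd (h9.trans h7) (by norm_num)

/-- the stars and the path can be packed. -/
theorem pack_join (a r : ℕ) (T : Shape) (hT : ∃ x y z, T = .p4 x y z) (hr : 4 * (a + 1) + 4 ≤ r) :
    ∀ (L : List Shape), (∀ T' ∈ L, T'.isS = true) → L.length ≤ a →
      ∀ X : Finset (Fin a ⊕ ((Fin r × Fin 3) ⊕ Fin 4)), (∀ p, Sum.inr p ∈ X) →
        Fintype.card ((Fin r × Fin 3) ⊕ Fin 4) + L.length ≤ X.card →
        Packs (L ++ [T]) (joinG a (LowG r)).Adj X := by
  intro L
  induction L with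
  | nil =>
    intro _ _ X hX _
    rw [List.nil_append, packs_one]
    obtain ⟨x, y, z, rfl⟩ := hT
    refine ⟨{Sum.inr (Sum.inr 3), Sum.inr (Sum.inr 0), Sum.inr (Sum.inr 1), Sum.inr (Sum.inr 2)},
      ?_, Sum.inr (Sum.inr 3), Sum.inr (Sum.inr 0), Sum.inr (Sum.inr 1), Sum.inr (Sum.inr 2),
      by simp, by simp, by simp, by simp, by simp, by simp, ?_, ?_, ?_, rfl⟩
    · intro p hp
      simp only [Finset.mem_insert, Finset.mem_singleton] at hp
      rcases hp with rfl | rfl | rfl | rfl <;> exact hX _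
    · have h1 : (joinG a (LowG r)).Adj (Sum.inr (Sum.inr 3)) (Sum.inr (Sum.inr 0)) :=
        show paw.Adj 3 0 from ⟨by decide, by decide⟩
      cases x
      · exact h1.symm
      · exact h1
    · have h1 : (joinG a (LowG r)).Adj (Sum.inr (Sum.inr 0)) (Sum.inr (Sum.inr 1)) :=
        show paw.Adj 0 1 from ⟨by decide, by decide⟩
      cases y
      · exact h1.symm
      · exact h1
    · have h1 : (joinG a (LowG r)).Adj (Sum.inr (Sum.inr 1)) (Sum.inr (Sum.inr 2)) :=
        show paw.Adj 1 2 from ⟨by decide, by decide⟩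
      cases z
      · exact h1.symm
      · exact h1
  | cons S L ih =>
    intro hL hlen X hX hcard
    simp only [List.length_cons] at hlen hcard
    have hS := hL S List.mem_cons_self
    obtain ⟨i, o, hio, rfl⟩ : ∃ i o, i + o = 3 ∧ S = .star i o := by
      cases S with
      | star i o => exact ⟨i, o, by simpa [Shape.isS] using hS, rfl⟩
      | p4 x y z => simp [Shape.isS] at hS
    -- a hub in `X`
    obtain ⟨v, hvX, hv⟩ : ∃ v ∈ X, v ∉ (Finset.univ : Finset ((Fin r × Fin 3) ⊕ Fin 4)).map
        ⟨Sum.inr, Sum.inr_injective⟩ := by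
      apply Finset.exists_mem_notMem_of_card_lt_card
      rw [Finset.card_map, Finset.card_univ]
      omega
    obtain ⟨b, rfl⟩ : ∃ b, v = Sum.inl b := by
      rcases v with b | p
      · exact ⟨b, rfl⟩
      · exact absurd (Finset.mem_map.2 ⟨p, Finset.mem_univ _, rfl⟩) hv
    rw [List.cons_append]
    refine sym_host i o (by omega) (L ++ [T]) ?_ _ X (Sum.inl b) hvX ?_ ?_
    · intro T' hT'
      rw [List.mem_append, List.mem_singleton] at hT'
      rcases hT' with h | rfl
      · have h1 := hL T' (List.mem_cons_of_mem _ h)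
        cases T' with
        | star i o =>
          have : i + o = 3 := by simpa [Shape.isS] using h1
          exact ⟨by omega, by omega⟩
        | p4 x y z => trivial
      · obtain ⟨x, y, z, rfl⟩ := hT
        trivial
    · have h1 : (Sum.inr '' (Set.univ : Set ((Fin r × Fin 3) ⊕ Fin 4)) :
          Set (Fin a ⊕ ((Fin r × Fin 3) ⊕ Fin 4))) ⊆
          {u | u ∈ X ∧ (joinG a (LowG r)).Adj (Sum.inl b) u} := by
        rintro _ ⟨p, -, rfl⟩
        exact ⟨hX p, trivial⟩
      have h2 := Set.ncard_le_ncard h1 (Set.toFinite _)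
      rw [Set.ncard_image_of_injective _ Sum.inr_injective, Set.ncard_univ,
        Nat.card_eq_fintype_card] at h2
      have h3 : Fintype.card ((Fin r × Fin 3) ⊕ Fin 4) = r * 3 + 4 := by simp
      unfold deg
      rw [List.length_append, List.length_singleton]
      omega
    · refine ih (fun T' hT' => hL T' (List.mem_cons_of_mem _ hT')) (by omega) _ ?_ ?_
      · intro p
        exact Finset.mem_erase.2 ⟨by simp, hX p⟩
      · rw [Finset.card_erase_of_mem hvX]
        omega

theorem pos_D {W : Type*} [Fintype W] (F : SimpleGraph W) (hF : F.IsAcyclic)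
    (hs : ∀ c : F.ConnectedComponent, c.supp.ncard ≤ 4) (h1 : smallPairs F = 1)
    (h3 : ∀ c : F.ConnectedComponent, c.supp.ncard ≠ 3)
    (hP : ∃ c : F.ConnectedComponent, c.supp.ncard = 4 ∧
      ∀ v ∈ c.supp, (F.neighborSet v).ncard ≠ 3) : PropertyP F := by
  classical
  obtain ⟨c₀, hc₀, hc₀'⟩ := hP
  obtain ⟨x, y, z, w, xy, xz, xw, yz, yw, zw, axy, ayz, azw, nxz, nxw, nyw, hsupp⟩ :=
    comp_path F hF c₀ hc₀ hc₀'
  have hadjc : ∀ {u v : W} {c : F.ConnectedComponent}, u ∈ c.supp → F.Adj u v → v ∈ c.supp :=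
    fun {u v c} hu h => (c.mem_supp_congr_adj h).1 hu
  -- the other components are stars
  have hstar : ∀ c : F.ConnectedComponent, c ≠ c₀ → 2 ≤ c.supp.ncard →
      c.supp.ncard = 4 ∧ ∃ v ∈ c.supp, (F.neighborSet v).ncard = 3 := by
    intro c hc h2
    obtain ⟨a, ha⟩ := Set.ncard_eq_one.1 h1
    have h4 : c₀ = a := by
      have : c₀ ∈ ({a} : Set F.ConnectedComponent) := by
        rw [← ha]; exact Or.inr ⟨hc₀, hc₀'⟩
      exact this
    have h5 : ¬ (c.supp.ncard = 2 ∨
        (c.supp.ncard = 4 ∧ ∀ v ∈ c.supp, (F.neighborSet v).ncard ≠ 3)) := by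
      intro h6
      have : c ∈ ({a} : Set F.ConnectedComponent) := by
        rw [← ha]; exact h6
      exact hc (this.trans h4.symm)
    have h6 := hs c
    have h7 := h3 c
    have h8 : c.supp.ncard = 4 := by
      by_contra h9
      exact h5 (Or.inl (by omega))
    refine ⟨h8, ?_⟩
    by_contra h9
    push Not at h9
    exact h5 (Or.inr ⟨h8, h9⟩)
  -- degrees in the stars
  have hstar' : ∀ c : F.ConnectedComponent, c ≠ c₀ → 2 ≤ c.supp.ncard →
      ∃ v p q s, p ≠ q ∧ p ≠ s ∧ q ≠ s ∧ v ≠ p ∧ v ≠ q ∧ v ≠ s ∧ F.Adj v p ∧ F.Adj v q ∧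
        F.Adj v s ∧ (F.neighborSet v).ncard = 3 ∧
        (∀ u ∈ c.supp, u ≠ v → (F.neighborSet u).ncard = 1 ∧ F.neighborSet u = {v}) ∧
        c.supp = {v, p, q, s} := by
    intro c hc h2
    obtain ⟨h4, v, hv, hv3⟩ := hstar c hc h2
    obtain ⟨p, q, s, pq, ps, qs, vp, vq, vs, avp, avq, avs, npq, nps, nqs, hsu⟩ :=
      comp_star F hF c h4 v hv hv3
    refine ⟨v, p, q, s, pq, ps, qs, vp, vq, vs, avp, avq, avs, hv3, ?_, hsu⟩
    have hnb : ∀ u ∈ c.supp, u ≠ v → F.neighborSet u = {v} := by
      intro u hu huv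
      have hu' := hu
      rw [hsu] at hu
      ext t
      rw [SimpleGraph.mem_neighborSet, Set.mem_singleton_iff]
      constructor
      · intro h
        have ht := hadjc hu' h
        rw [hsu] at ht
        simp only [Set.mem_insert_iff, Set.mem_singleton_iff] at hu ht
        rcases ht with rfl | rfl | rfl | rfl
        · rfl
        · exfalso
          rcases hu with rfl | rfl | rfl | rfl
          · exact huv rfl
          · exact h.ne rfl
          · exact npq h.symm
          · exact nps h.symm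
        · exfalso
          rcases hu with rfl | rfl | rfl | rfl
          · exact huv rfl
          · exact npq h
          · exact h.ne rfl
          · exact nqs h.symm
        · exfalso
          rcases hu with rfl | rfl | rfl | rfl
          · exact huv rfl
          · exact nps h
          · exact nqs h
          · exact h.ne rfl
      · rintro rfl
        simp only [Set.mem_insert_iff, Set.mem_singleton_iff] at hu
        rcases hu with rfl | rfl | rfl | rfl
        · exact absurd rfl huv
        · exact avp.symm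
        · exact avq.symm
        · exact avs.symm
    intro u hu huv
    have := hnb u hu huv
    exact ⟨by rw [this, Set.ncard_singleton], this⟩
  -- the orientation
  set A : W → W → Prop := fun u v => F.Adj u v ∧
    (if u ∈ c₀.supp then ((u = x ∧ v = y) ∨ (u = z ∧ v = y) ∨ (u = z ∧ v = w))
      else (F.neighborSet u).ncard < (F.neighborSet v).ncard) with hA
  have hIs : IsOr F A := by
    intro u v
    by_cases huv : F.Adj u v
    swap
    · have huv' : ¬ F.Adj v u := fun h => huv h.symm
      simp [hA, huv, huv']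
    by_cases hu : u ∈ c₀.supp
    · have hv : v ∈ c₀.supp := hadjc hu huv
      simp only [hA, huv, huv.symm, hu, hv, if_true, true_and]
      have hu' := hu
      have hv' := hv
      rw [hsupp] at hu' hv'
      simp only [Set.mem_insert_iff, Set.mem_singleton_iff] at hu' hv'
      have nzx : ¬ F.Adj z x := fun h => nxz h.symm
      have nwx : ¬ F.Adj w x := fun h => nxw h.symm
      have nwy : ¬ F.Adj w y := fun h => nyw h.symm
      rcases hu' with rfl | rfl | rfl | rfl <;> rcases hv' with rfl | rfl | rfl | rfl <;>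
        first
          | exact absurd rfl huv.ne
          | exact absurd huv (by assumption)
          | (simp only [and_true, true_and]; tauto)
    · have hv : v ∉ c₀.supp := fun h => hu (hadjc h huv.symm)
      simp only [hA, huv, huv.symm, hu, hv, if_false, true_and, true_iff]
      set c := F.connectedComponentMk u with hc
      have huc : u ∈ c.supp := rfl
      have hvc : v ∈ c.supp := hadjc huc huv
      have hcc : c ≠ c₀ := by
        rintro h
        exact hu (by rw [← h]; exact huc)
      have h2 : 2 ≤ c.supp.ncard := by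
        have h4 : ({u, v} : Set W) ⊆ c.supp := by
          rintro t (rfl | rfl) <;> assumption
        have h5 := Set.ncard_le_ncard h4 (Set.toFinite _)
        rwa [Set.ncard_pair huv.ne] at h5
      obtain ⟨s, -, -, -, -, -, -, -, -, -, -, -, -, hs3, hother, -⟩ := hstar' c hcc h2
      by_cases hus : u = s
      · subst hus
        have h4 := (hother v hvc huv.ne').1
        omega
      · by_cases hvs : v = s
        · subst hvs
          have h4 := (hother u huc hus).1
          omega
        · exfalso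
          have h4 := (hother u huc hus).2
          have h5 : v ∈ F.neighborSet u := huv
          rw [h4] at h5
          exact hvs h5
  obtain ⟨L, hLv, hLT, hLC, hLlen, -, hLp, -, hLink⟩ := link F hF hs A hIs
  obtain ⟨T₀, hT₀, hT₀'⟩ := hLp.2 ⟨c₀, hc₀, hc₀'⟩
  rw [h1] at hLT
  have hC0 : L.countP Shape.isC = 0 := by
    rw [hLC, Set.ncard_eq_zero (Set.toFinite _)]
    ext c
    simp [h3 c]
  -- all other shapes are stars with three leaves
  have hperm : L.Perm (T₀ :: L.erase T₀) := List.perm_cons_erase hT₀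
  have hT₀T : T₀.isT = true := by
    obtain ⟨a, b, c, rfl⟩ := hT₀'
    rfl
  have hrest : ∀ T ∈ L.erase T₀, T.isS = true := by
    intro T hT
    have hTL : T ∈ L := List.mem_of_mem_erase hT
    have h4 : T.isC ≠ true := by
      intro h
      rw [List.countP_eq_zero] at hC0
      exact hC0 T hTL h
    have h5 : T.isT ≠ true := by
      intro h
      have h6 := hperm.countP_eq Shape.isT
      rw [List.countP_cons, hLT, hT₀T] at h6
      have h7 : (L.erase T₀).countP Shape.isT = 0 := by
        simp only [if_true] at h6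
        omega
      rw [List.countP_eq_zero] at h7
      exact h7 T hT h
    have h6 := hLv T hTL
    cases T with
    | star i o =>
      simp only [Shape.isC, Shape.isT, Shape.isS, beq_iff_eq, ne_eq] at h4 h5 ⊢
      obtain ⟨h7, h8⟩ := h6
      omega
    | p4 a b c => exact absurd rfl h5
  have hall : ∀ T ∈ L, T.isS = true ∨ ∃ a b c, T = .p4 a b c := by
    intro T hT
    rw [hperm.mem_iff, List.mem_cons] at hT
    rcases hT with rfl | hT
    · exact Or.inr hT₀'
    · exact Or.inl (hrest T hT)
  obtain ⟨n₁, hn₁⟩ := ex_D L hall hLT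
  obtain ⟨a, ha⟩ : ∃ a, L.length = a + 1 := by
    refine ⟨L.length - 1, ?_⟩
    have := List.length_pos_of_mem hT₀
    omega
  have hea : (L.erase T₀).length = a := by
    rw [List.length_erase_of_mem hT₀, ha]
    rfl
  rw [ha] at hn₁ hLlen
  simp only [Nat.add_sub_cancel] at hn₁
  -- enumeration of the components
  have hcomp : ∃ e : Fin (a + 1) ≃ {c : F.ConnectedComponent | 2 ≤ c.supp.ncard}, True := by
    haveI : Finite {c : F.ConnectedComponent | 2 ≤ c.supp.ncard} := Set.toFinite _
    haveI : Fintype {c : F.ConnectedComponent | 2 ≤ c.supp.ncard} := Fintype.ofFinite _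
    refine ⟨(Fintype.equivFinOfCardEq ?_).symm, trivial⟩
    rw [← Nat.card_eq_fintype_card, Nat.card_coe_set_eq, hLlen]
  obtain ⟨e, -⟩ := hcomp
  refine criterion F A hIs fun n₀ => ?_
  obtain ⟨r, hr⟩ : ∃ r, r = n₀ + n₁ + Fintype.card W + (4 * (a + 1) + 4) := ⟨_, rfl⟩
  have hΛ : Fintype.card ((Fin r × Fin 3) ⊕ Fin 4) = 3 * r + 4 := by simp; ring
  have hV : Fintype.card (Fin a ⊕ ((Fin r × Fin 3) ⊕ Fin 4)) = a + (3 * r + 4) := by
    rw [Fintype.card_sum, hΛ, Fintype.card_fin]
  refine ⟨a + (3 * r + 4), by omega, Fin a ⊕ ((Fin r × Fin 3) ⊕ Fin 4), inferInstance,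
    joinG a (LowG r), hV, Or.inl ⟨?_, ?_⟩⟩
  · -- `F` is contained in the host
    have hpk : Packs L (joinG a (LowG r)).Adj Finset.univ := by
      have h4 : L.Perm (L.erase T₀ ++ [T₀]) :=
        hperm.trans (List.perm_append_singleton T₀ (L.erase T₀)).symm
      rw [packs_perm h4]
      refine pack_join a r T₀ hT₀' (by omega) (L.erase T₀) hrest (by omega) Finset.univ
        (fun p => Finset.mem_univ _) ?_
      rw [Finset.card_univ, hV, hΛ, hea]
      omega
    obtain ⟨f, hf, hfA⟩ := hLink _ _ (by rw [hV]; omega) hpk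
    refine ⟨⟨⟨f, ?_⟩, hf⟩⟩
    intro u v huv
    rcases (hIs u v).1.1 huv with h | h
    · exact hfA _ _ h
    · exact (hfA _ _ h).symm
  · intro H' hH'
    obtain ⟨h4, h5⟩ := free_packs F A hIs L hLink _ (by rw [hV]; omega) H' hH'
    have h6 := hn₁ _ H' Finset.univ (by rw [Finset.card_univ, hV]; omega)
      (by rw [Finset.card_univ, hV]; omega) h4
    rw [← h5, Finset.card_univ, hV] at h6
    have h7 : (a + 1) * (a + (3 * r + 4) - a) = a * (3 * r + 4) + (3 * r + 4) := by
      rw [Nat.add_sub_cancel_left]; ring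
    rw [h7] at h6
    have h8 := join_count a (LowG r) A (goodLow r) (fun E hE => hE.1) ?_
    · rw [hΛ] at h8
      refine le_trans ?_ h8
      calc 2 ^ H'.edgeSet.ncard ≤ 2 ^ (a.choose 2 + a * (3 * r + 4) + 3 * (r + 1)) :=
            Nat.pow_le_pow_right (by norm_num) (by omega)
        _ = 2 ^ (a.choose 2 + a * (3 * r + 4)) * 8 ^ (r + 1) := by
            rw [pow_add, pow_mul]; norm_num
        _ ≤ _ := Nat.mul_le_mul_left _ (goodLow_card r)
    · -- the host has no copy in a good orientation
      rintro E hE D hD hDE ⟨f, hf, hfA⟩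
      have hdisj : ∀ i j, i ≠ j → Disjoint ((e i).1.supp) ((e j).1.supp) := by
        intro i j hij
        rw [Set.disjoint_left]
        intro u hu hu'
        have h9 : F.connectedComponentMk u = (e i).1 := hu
        have h10 : F.connectedComponentMk u = (e j).1 := hu'
        exact hij (e.injective (Subtype.ext (h9.symm.trans h10)))
      obtain ⟨i, hi⟩ := hub_free a (fun i => (e i).1.supp) hdisj f hf
      · have hc2 : 2 ≤ (e i).1.supp.ncard := (e i).2
        by_cases hic : (e i).1 = c₀
        · rw [hic, hsupp] at hi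
          obtain ⟨x', hx'⟩ := hi x (by simp)
          obtain ⟨y', hy'⟩ := hi y (by simp)
          obtain ⟨z', hz'⟩ := hi z (by simp)
          obtain ⟨w', hw'⟩ := hi w (by simp)
          have hne : ∀ {p q : W} {p' q' : (Fin r × Fin 3) ⊕ Fin 4}, f p = Sum.inr p' →
              f q = Sum.inr q' → p ≠ q → p' ≠ q' := by
            intro p q p' q' hp hq hpq h
            subst h
            exact hpq (hf (hp.trans hq.symm))
          have hx0 : x ∈ c₀.supp := by rw [hsupp]; simp
          have hz0 : z ∈ c₀.supp := by rw [hsupp]; simp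
          have A1 : A x y := ⟨axy, by rw [if_pos hx0]; exact Or.inl ⟨rfl, rfl⟩⟩
          have A2 : A z y := ⟨ayz.symm, by rw [if_pos hz0]; exact Or.inr (Or.inl ⟨rfl, rfl⟩)⟩
          have A3 : A z w := ⟨azw, by rw [if_pos hz0]; exact Or.inr (Or.inr ⟨rfl, rfl⟩)⟩
          have E1 := hfA _ _ A1
          have E2 := hfA _ _ A2
          have E3 := hfA _ _ A3
          rw [hx', hy', hDE] at E1
          rw [hz', hy', hDE] at E2
          rw [hz', hw', hDE] at E3
          exact goodLow_path hE x' y' z' w' (hne hx' hy' xy) (hne hx' hz' xz) (hne hx' hw' xw)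
            (hne hy' hz' yz) (hne hy' hw' yw) (hne hz' hw' zw) E1 E2 E3
        · obtain ⟨v, p, q, s, pq, ps, qs, vp, vq, vs, avp, avq, avs, hv3, hother, hsu⟩ :=
            hstar' _ hic hc2
          have hnot : ∀ u ∈ (e i).1.supp, u ∉ c₀.supp := by
            intro u hu hu0
            have h9 : F.connectedComponentMk u = (e i).1 := hu
            have h10 : F.connectedComponentMk u = c₀ := hu0
            exact hic (h9.symm.trans h10)
          have hm : v ∈ (e i).1.supp ∧ p ∈ (e i).1.supp ∧ q ∈ (e i).1.supp ∧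
              s ∈ (e i).1.supp := by
            rw [hsu]; simp
          have arcs : ∀ u ∈ (e i).1.supp, u ≠ v → F.Adj v u → A u v := by
            intro u hu huv hadj
            refine ⟨hadj.symm, ?_⟩
            rw [if_neg (hnot u hu), (hother u hu huv).1, hv3]
            norm_num
          obtain ⟨v', hv'⟩ := hi v hm.1
          obtain ⟨p', hp'⟩ := hi p hm.2.1
          obtain ⟨q', hq'⟩ := hi q hm.2.2.1
          obtain ⟨s', hs'⟩ := hi s hm.2.2.2
          have hne : ∀ {p q : W} {p' q' : (Fin r × Fin 3) ⊕ Fin 4}, f p = Sum.inr p' →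
              f q = Sum.inr q' → p ≠ q → p' ≠ q' := by
            intro p q p' q' hp hq hpq h
            subst h
            exact hpq (hf (hp.trans hq.symm))
          have E1 := hfA _ _ (arcs p hm.2.1 vp.symm avp)
          have E2 := hfA _ _ (arcs q hm.2.2.1 vq.symm avq)
          have E3 := hfA _ _ (arcs s hm.2.2.2 vs.symm avs)
          rw [hp', hv', hDE] at E1
          rw [hq', hv', hDE] at E2
          rw [hs', hv', hDE] at E3
          exact goodLow_star hE v' p' q' s' (hne hv' hp' vp) (hne hv' hq' vq) (hne hv' hs' vs)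
            (hne hp' hq' pq) (hne hp' hs' ps) (hne hq' hs' qs) E1 E2 E3

end MP_0a9719_co
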