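import Pool.Agent.Lib.MP_0a9719_co.NegFin
import Pool.Agent.Lib.MP_0a9719_co.PosA
import Pool.Agent.Lib.MP_0a9719_co.PosB2
import Pool.Agent.Lib.MP_0a9719_co.PosD

/-! MP_0a9719_co, assembly: the classification of the forests with property (P). -/

namespace MP_0a9719_co

theorem classification {W : Type*} [Fintype W] (F : SimpleGraph W) (hF : F.IsAcyclic)
    (hne : F ≠ ⊥) :
    PropertyP F ↔ (∃ c : F.ConnectedComponent, 5 ≤ c.supp.ncard) ∨ smallPairs F = 0 ∨
      (smallPairs F = 1 ∧ (∀ c : F.ConnectedComponent, c.supp.ncard ≠ 3) ∧
        F.edgeSet.ncard ≠ 1) := by
  classical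
  by_cases h5 : ∃ c : F.ConnectedComponent, 5 ≤ c.supp.ncard
  · exact ⟨fun _ => Or.inl h5, fun _ => pos_A F hF h5⟩
  have hs : ∀ c : F.ConnectedComponent, c.supp.ncard ≤ 4 := by
    intro c
    by_contra hc
    exact h5 ⟨c, by omega⟩
  constructor
  · intro hP
    by_contra hcon
    push Not at hcon
    obtain ⟨-, h0, hcon⟩ := hcon
    refine neg_final F hF hs ?_ hP
    by_cases h2 : 2 ≤ smallPairs F
    · exact Or.inl h2
    have h1 : smallPairs F = 1 := by omega
    by_cases h3 : ∃ c : F.ConnectedComponent, c.supp.ncard = 3
    · obtain ⟨c, hc⟩ := h3
      right; left
      refine ⟨by omega, ?_⟩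
      have : (0 : ℕ) < {c : F.ConnectedComponent | c.supp.ncard = 3}.ncard := by
        rw [Set.ncard_pos (Set.toFinite _)]
        exact ⟨c, hc⟩
      omega
    · push Not at h3
      right; right
      exact hcon h1 h3
  · rintro (h | h0 | ⟨h1, h3, he⟩)
    · exact absurd h h5
    · by_cases h3 : ∃ c : F.ConnectedComponent, c.supp.ncard = 3
      · exact pos_B1 F hF hs h0 h3
      · push Not at h3
        have hnoT : ∀ c : F.ConnectedComponent, ¬ (c.supp.ncard = 2 ∨
            (c.supp.ncard = 4 ∧ ∀ v ∈ c.supp, (F.neighborSet v).ncard ≠ 3)) := by
          intro c hc
          have : (0 : ℕ) < smallPairs F := by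
            unfold smallPairs
            rw [Set.ncard_pos (Set.toFinite _)]
            exact ⟨c, hc⟩
          omega
        refine pos_B2 F hF hs (by omega) h3 ?_ ?_
        · intro c hc
          have := hnoT c
          push Not at this
          exact this.2 hc
        · obtain ⟨u, v, huv⟩ : ∃ u v, F.Adj u v := by
            by_contra hcon
            push Not at hcon
            apply hne
            ext u v
            simpa using hcon u v
          refine ⟨F.connectedComponentMk u, ?_⟩
          have hu : u ∈ (F.connectedComponentMk u).supp := rfl
          have hv : v ∈ (F.connectedComponentMk u).supp := by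
            simp only [SimpleGraph.ConnectedComponent.mem_supp_iff]
            exact (SimpleGraph.ConnectedComponent.eq.2 huv.symm.reachable)
          have h2 : 2 ≤ (F.connectedComponentMk u).supp.ncard := by
            have : ({u, v} : Set W) ⊆ (F.connectedComponentMk u).supp := by
              rintro x (rfl | rfl)
              · exact hu
              · exact hv
            calc 2 = ({u, v} : Set W).ncard := (Set.ncard_pair huv.ne).symm
              _ ≤ _ := Set.ncard_le_ncard this (Set.toFinite _)
          have := hnoT (F.connectedComponentMk u)
          push Not at this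
          have h4 := hs (F.connectedComponentMk u)
          have h33 := h3 (F.connectedComponentMk u)
          have h22 := this.1
          omega
    · by_cases hP : ∃ c : F.ConnectedComponent, c.supp.ncard = 4 ∧
          ∀ v ∈ c.supp, (F.neighborSet v).ncard ≠ 3
      · exact pos_D F hF hs h1 h3 hP
      · push Not at hP
        refine pos_B2 F hF hs (by omega) h3 hP ?_
        -- some component has four vertices
        by_contra hno
        push Not at hno
        have hsub : {c : F.ConnectedComponent | c.supp.ncard = 2 ∨
            (c.supp.ncard = 4 ∧ ∀ v ∈ c.supp, (F.neighborSet v).ncard ≠ 3)} =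
            {c : F.ConnectedComponent | 2 ≤ c.supp.ncard} := by
          ext c
          simp only [Set.mem_setOf_eq]
          have a1 := hs c
          have a2 := h3 c
          have a3 := hno c
          constructor
          · rintro (h | h) <;> omega
          · intro h; left; omega
        have hcard : {c : F.ConnectedComponent | 2 ≤ c.supp.ncard}.ncard = 1 := by
          rw [← hsub]; exact h1
        obtain ⟨c₀, hc₀⟩ := Set.ncard_eq_one.1 hcard
        have hc₀2 : c₀.supp.ncard = 2 := by
          have : c₀ ∈ {c : F.ConnectedComponent | 2 ≤ c.supp.ncard} := by rw [hc₀]; rfl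
          have a0 : 2 ≤ c₀.supp.ncard := this
          have a1 := hs c₀
          have a2 := h3 c₀
          have a3 := hno c₀
          omega
        obtain ⟨u, v, huv, hadj, hsupp⟩ := comp_two F c₀ hc₀2
        apply he
        rw [Set.ncard_eq_one]
        refine ⟨s(u, v), ?_⟩
        ext e
        induction e with
        | _ x y =>
          simp only [SimpleGraph.mem_edgeSet, Set.mem_singleton_iff]
          constructor
          · intro hxy
            have hx : x ∈ (F.connectedComponentMk x).supp := rfl
            have hy : y ∈ (F.connectedComponentMk x).supp := by
              simp only [SimpleGraph.ConnectedComponent.mem_supp_iff]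
              exact (SimpleGraph.ConnectedComponent.eq.2 hxy.symm.reachable)
            have h2 : 2 ≤ (F.connectedComponentMk x).supp.ncard := by
              have : ({x, y} : Set W) ⊆ (F.connectedComponentMk x).supp := by
                rintro z (rfl | rfl)
                · exact hx
                · exact hy
              calc 2 = ({x, y} : Set W).ncard := (Set.ncard_pair hxy.ne).symm
                _ ≤ _ := Set.ncard_le_ncard this (Set.toFinite _)
            have hmem : F.connectedComponentMk x ∈
                {c : F.ConnectedComponent | 2 ≤ c.supp.ncard} := h2
            rw [hc₀, Set.mem_singleton_iff] at hmem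
            rw [hmem, hsupp] at hx hy
            have hne' := hxy.ne
            simp only [Set.mem_insert_iff, Set.mem_singleton_iff] at hx hy
            rcases hx with rfl | rfl <;> rcases hy with rfl | rfl
            · exact absurd rfl hne'
            · rfl
            · exact Sym2.eq_swap
            · exact absurd rfl hne'
          · intro h
            rw [Sym2.eq_iff] at h
            rcases h with ⟨rfl, rfl⟩ | ⟨rfl, rfl⟩
            · exact hadj
            · exact hadj.symm

end MP_0a9719_co
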