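import Pool.Agent.Lib.MP_0a9719_co.Work

/-! MP_0a9719_co, module Forced: arcs forced at a hub.

`w ∉ R`, `w` has at least `4` in- and at least `4` out-neighbours in `R`, and `D` has no copy of the
path shape with vertex set inside `insert w R`. `D` is an orientation (`D x y → ¬ D y x`).
Choose, given the (at most three) vertices already used, a new in-neighbour / out-neighbour `z ∈ R` of `w`.
Type TTT (`x0 → x1 → x2 → x3`), `u → v` in `R`: `v → w` gives `u → v → w → z`; `w → u` gives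
`z → w → u → v`.
Type TFT (`x0 → x1 ← x2 → x3`), `u → v`: `w → v` gives `u → v ← w → z`; `u → w` gives
`z → w ← u → v`.
Type TTF (`x0 → x1 → x2 ← x3`), `u → v`: `v → w` gives `u → v → w ← z`; `w → v` gives
`z → w → v ← u`. And for `x → v`, `y → v`, `x ≠ y` in `R`: `w → x` gives `w → x → v ← y`. -/

namespace MP_0a9719_co

variable {V : Type*} [Fintype V] [DecidableEq V]

private theorem Forced_pick (P : V → Prop) (R : Finset V) (h : 4 ≤ {z | z ∈ R ∧ P z}.ncard)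
    (a b : V) : ∃ z ∈ R, P z ∧ z ≠ a ∧ z ≠ b := by
  by_contra hc
  push Not at hc
  have h1 : {z | z ∈ R ∧ P z} ⊆ ({a, b} : Set V) := by
    rintro z ⟨hz, hP⟩
    by_cases hza : z = a
    · exact Or.inl hza
    · exact Or.inr (hc z hz hP hza)
  have h2 := Set.ncard_le_ncard h1 (Set.toFinite _)
  have h3 : ({a, b} : Set V).ncard ≤ 2 := (Set.ncard_insert_le _ _).trans (by simp)
  omega

private theorem Forced_ne {D : V → V → Prop} (hD : ∀ x y, D x y → ¬ D y x) {u v : V}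
    (h : D u v) : u ≠ v := by
  rintro rfl
  exact hD _ _ h h

private theorem Forced_sub {R : Finset V} {w a b c d : V} (ha : a = w ∨ a ∈ R)
    (hb : b = w ∨ b ∈ R) (hc : c = w ∨ c ∈ R) (hd : d = w ∨ d ∈ R) :
    ({a, b, c, d} : Finset V) ⊆ insert w R := by
  intro x hx
  simp only [Finset.mem_insert, Finset.mem_singleton] at hx
  rw [Finset.mem_insert]
  rcases hx with rfl | rfl | rfl | rfl <;> assumption

theorem forced_A (D : V → V → Prop) (hD : ∀ x y, D x y → ¬ D y x) (R : Finset V) (w : V)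
    (hw : w ∉ R) (hi : 4 ≤ ideg D R w) (ho : 4 ≤ odeg D R w)
    (hf : ¬ ∃ Q : Finset V, Q ⊆ insert w R ∧ IsCopy (.p4 true true true) D Q)
    (u v : V) (hu : u ∈ R) (hv : v ∈ R) (huv : D u v) : ¬ D v w ∧ ¬ D w u := by
  have huv' := Forced_ne hD huv
  have huw : u ≠ w := fun h => hw (h ▸ hu)
  have hvw : v ≠ w := fun h => hw (h ▸ hv)
  constructor
  · intro h
    obtain ⟨z, hz, hwz, hzu, hzv⟩ := Forced_pick (fun z => D w z) R ho u v
    have hzw : z ≠ w := fun h => hw (h ▸ hz)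
    exact hf ⟨{u, v, w, z}, Forced_sub (Or.inr hu) (Or.inr hv) (Or.inl rfl) (Or.inr hz),
      u, v, w, z, huv', huw, hzu.symm, hvw, hzv.symm, hzw.symm, huv, h, hwz, rfl⟩
  · intro h
    obtain ⟨z, hz, hwz, hzu, hzv⟩ := Forced_pick (fun z => D z w) R hi u v
    have hzw : z ≠ w := fun h => hw (h ▸ hz)
    exact hf ⟨{z, w, u, v}, Forced_sub (Or.inr hz) (Or.inl rfl) (Or.inr hu) (Or.inr hv),
      z, w, u, v, hzw, hzu, hzv, huw.symm, hvw.symm, huv', hwz, h, huv, rfl⟩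

theorem forced_C (D : V → V → Prop) (hD : ∀ x y, D x y → ¬ D y x) (R : Finset V) (w : V)
    (hw : w ∉ R) (hi : 4 ≤ ideg D R w) (ho : 4 ≤ odeg D R w)
    (hf : ¬ ∃ Q : Finset V, Q ⊆ insert w R ∧ IsCopy (.p4 true false true) D Q)
    (u v : V) (hu : u ∈ R) (hv : v ∈ R) (huv : D u v) : ¬ D w v ∧ ¬ D u w := by
  have huv' := Forced_ne hD huv
  have huw : u ≠ w := fun h => hw (h ▸ hu)
  have hvw : v ≠ w := fun h => hw (h ▸ hv)
  constructor
  · intro h
    obtain ⟨z, hz, hwz, hzu, hzv⟩ := Forced_pick (fun z => D w z) R ho u v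
    have hzw : z ≠ w := fun h => hw (h ▸ hz)
    exact hf ⟨{u, v, w, z}, Forced_sub (Or.inr hu) (Or.inr hv) (Or.inl rfl) (Or.inr hz),
      u, v, w, z, huv', huw, hzu.symm, hvw, hzv.symm, hzw.symm, huv, h, hwz, rfl⟩
  · intro h
    obtain ⟨z, hz, hwz, hzu, hzv⟩ := Forced_pick (fun z => D z w) R hi u v
    have hzw : z ≠ w := fun h => hw (h ▸ hz)
    exact hf ⟨{z, w, u, v}, Forced_sub (Or.inr hz) (Or.inl rfl) (Or.inr hu) (Or.inr hv),
      z, w, u, v, hzw, hzu, hzv, huw.symm, hvw.symm, huv', hwz, h, huv, rfl⟩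

theorem forced_B (D : V → V → Prop) (hD : ∀ x y, D x y → ¬ D y x) (R : Finset V) (w : V)
    (hw : w ∉ R) (hi : 4 ≤ ideg D R w) (ho : 4 ≤ odeg D R w)
    (hf : ¬ ∃ Q : Finset V, Q ⊆ insert w R ∧ IsCopy (.p4 true true false) D Q)
    (u v : V) (hu : u ∈ R) (hv : v ∈ R) (huv : D u v) : ¬ D v w ∧ ¬ D w v := by
  have huv' := Forced_ne hD huv
  have huw : u ≠ w := fun h => hw (h ▸ hu)
  have hvw : v ≠ w := fun h => hw (h ▸ hv)
  obtain ⟨z, hz, hwz, hzu, hzv⟩ := Forced_pick (fun z => D z w) R hi u v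
  have hzw : z ≠ w := fun h => hw (h ▸ hz)
  constructor
  · intro h
    exact hf ⟨{u, v, w, z}, Forced_sub (Or.inr hu) (Or.inr hv) (Or.inl rfl) (Or.inr hz),
      u, v, w, z, huv', huw, hzu.symm, hvw, hzv.symm, hzw.symm, huv, h, hwz, rfl⟩
  · intro h
    exact hf ⟨{z, w, v, u}, Forced_sub (Or.inr hz) (Or.inl rfl) (Or.inr hv) (Or.inr hu),
      z, w, v, u, hzw, hzv, hzu, hvw.symm, huw.symm, huv'.symm, hwz, h, huv, rfl⟩

theorem forced_B' (D : V → V → Prop) (hD : ∀ x y, D x y → ¬ D y x) (R : Finset V) (w : V)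
    (hw : w ∉ R)
    (hf : ¬ ∃ Q : Finset V, Q ⊆ insert w R ∧ IsCopy (.p4 true true false) D Q)
    (x y v : V) (hx : x ∈ R) (hy : y ∈ R) (hv : v ∈ R) (hxy : x ≠ y) (hxv : D x v)
    (hyv : D y v) : ¬ D w x := by
  have hxv' := Forced_ne hD hxv
  have hyv' := Forced_ne hD hyv
  have hxw : x ≠ w := fun h => hw (h ▸ hx)
  have hyw : y ≠ w := fun h => hw (h ▸ hy)
  have hvw : v ≠ w := fun h => hw (h ▸ hv)
  intro h
  exact hf ⟨{w, x, v, y}, Forced_sub (Or.inl rfl) (Or.inr hx) (Or.inr hv) (Or.inr hy),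
    w, x, v, y, hxw.symm, hvw.symm, hyw.symm, hxv', hxy, hyv'.symm, h, hxv, hyv, rfl⟩

end MP_0a9719_co
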