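import Pool.Agent.Lib.MP_0a9719_co.GrX

/-! MP_0a9719_co, module GrA: orientations without a directed path with three arcs.

Let `D` be an orientation of `res X H` without a copy of `p4 true true true` in `X`
(`x0 → x1 → x2 → x3`, distinct). Let `S` = vertices of `X` with in-degree `0`, `P` = vertices of
`X \ S` with out-degree `0`, `M = X \ (S ∪ P)` (in- and out-degree positive; all degrees in `X`).
Edges at `S` are directed out of `S` (an edge inside `S` is impossible). Edges between `M` and `P`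
are directed into `P`; an edge inside `P` is impossible. So `D` is determined by `S`, `P` and
`rr M D` (injectivity). CLAIM: `ideg D M v ≤ 1` for `v ∈ M`. Let `u → v` with `u, v ∈ M`. `u` has an
in-neighbour `x`, `v` has an out-neighbour `w`, and `x → u → v → w`; `x ≠ v`, `w ≠ u`, `x ≠ u`,
`w ≠ v` (orientation). If `x ≠ w` this is a copy. So EVERY in-neighbour `x` of `u` equals every
out-neighbour `w` of `v`: there is `x` with `in(u) = {x}`, `out(v) = {x}`. So `x → u`, `v → x`, all in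
`M`: apply the same statement to the arc `v → x` (both in `M`: `x` has the in-neighbour `v` and the
out-neighbour `u`): `in(v) = out(x)` are one and the same singleton, and `u ∈ out(x)`; so
`in(v) = {u}` and `ideg D M v ≤ 1`.
By `ideg_one_bound` on `M` the number of `D` is at most
`∑_{(S, M, P) partition of X} (5/3)^|M| = (1 + 5/3 + 1)^|X| = (11/3)^|X|`.
(Sum over functions `X → {S, M, P}`: `Finset.prod_univ_sum` / `Finset.prod_add`; or sum over
`M ⊆ X` of `2^(|X| - |M|) (5/3)^|M|` = `(5/3 + 2)^|X|`, since `S ⊆ X \ M` has `2^(|X \ M|)`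
values: `Finset.sum_pow_mul_eq_add_pow`.) -/

namespace MP_0a9719_co

theorem num_A {V : Type*} [Fintype V] [DecidableEq V] (H : SimpleGraph V) (X : Finset V) :
    (num [.p4 true true true] H X : ℝ) ≤ (11 / 3) ^ X.card := by
  classical
  set A : Set (V → V → Prop) :=
    {D | IsOr (res X H) D ∧ ¬ Packs [.p4 true true true] D X} with hA
  have hfree : ∀ D ∈ A, ∀ x u v w, D x u → D u v → D v w → x = w := by
    rintro D ⟨hD, hP⟩ x u v w h1 h2 h3
    by_contra hne
    apply hP
    rw [grx_packs_one]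
    obtain ⟨hx, hu, -, hux⟩ := isOr_mem hD h1
    obtain ⟨-, hv, -, hvu⟩ := isOr_mem hD h2
    obtain ⟨-, hw, -, hwv⟩ := isOr_mem hD h3
    refine ⟨{x, u, v, w}, ?_, x, u, v, w, ?_, ?_, hne, ?_, ?_, ?_, h1, h2, h3, rfl⟩
    · intro y hy
      simp only [Finset.mem_insert, Finset.mem_singleton] at hy
      rcases hy with rfl | rfl | rfl | rfl <;> assumption
    · rintro rfl; exact hux h1
    · rintro rfl; exact hux h2
    · rintro rfl; exact hvu h2
    · rintro rfl; exact hvu h3
    · rintro rfl; exact hwv h3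
  set fM : (V → V → Prop) → Finset V := fun D => X.filter fun v => (∃ x, D x v) ∧ ∃ y, D v y
    with hfM
  set fS : (V → V → Prop) → Finset V := fun D => X.filter fun v => ¬ ∃ x, D x v with hfS
  have hM : ∀ D v, v ∈ fM D ↔ v ∈ X ∧ (∃ x, D x v) ∧ ∃ y, D v y := by
    intro D v
    simp only [hfM, Finset.mem_filter]
  have hS : ∀ D v, v ∈ fS D ↔ v ∈ X ∧ ¬ ∃ x, D x v := by
    intro D v
    simp only [hfS, Finset.mem_filter]
  have hMX : ∀ D, fM D ⊆ X := fun D => Finset.filter_subset _ _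
  have hsub : ∀ D ∈ A, ∀ D' ∈ A, fM D = fM D' → fS D = fS D' → rr (fM D) D = rr (fM D) D' →
      ∀ u v, D u v → D' u v := by
    intro D hD D' hD' e1 e2 e3 u v huv
    obtain ⟨hu, hv, hadj, hvu⟩ := isOr_mem hD.1 huv
    rcases isOr_adj hD'.1 hu hv hadj with h | h
    · exact h
    exfalso
    have hu1 : u ∉ fS D := by
      rw [e2, hS]
      rintro ⟨-, h4⟩
      exact h4 ⟨v, h⟩
    have hv1 : v ∉ fS D' := by
      rw [← e2, hS]
      rintro ⟨-, h4⟩
      exact h4 ⟨u, huv⟩
    have hu2 : ∃ x, D x u := by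
      by_contra hcon
      exact hu1 ((hS D u).mpr ⟨hu, hcon⟩)
    have hv2 : ∃ x, D' x v := by
      by_contra hcon
      exact hv1 ((hS D' v).mpr ⟨hv, hcon⟩)
    have hu3 : u ∈ fM D := (hM D u).mpr ⟨hu, hu2, ⟨v, huv⟩⟩
    have hv3 : v ∈ fM D := by
      rw [e1]
      exact (hM D' v).mpr ⟨hv, hv2, ⟨u, h⟩⟩
    have h5 : rr (fM D) D u v := ⟨huv, hu3, hv3⟩
    rw [e3] at h5
    exact (isOr_mem hD'.1 h5.1).2.2.2 h
  refine grx_bound H X A fM fS (fun D _ => hMX D) ?_ ?_ ?_
  · intro D _ v hv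
    rw [Finset.mem_sdiff]
    refine ⟨((hS D v).mp hv).1, fun h => ((hS D v).mp hv).2 ((hM D v).mp h).2.1⟩
  · intro D hD
    refine ⟨isOr_rr hD.1 (hMX D), fun v hv => ?_⟩
    rw [ideg, Set.ncard_le_one (Set.toFinite _)]
    rintro a ⟨-, ha, haM, -⟩ b ⟨-, hb, hbM, -⟩
    obtain ⟨-, -, w, hw⟩ := (hM D v).mp hv
    obtain ⟨-, ⟨x, hx⟩, -⟩ := (hM D a).mp haM
    have e1 := hfree D hD x a v w hx ha hw
    rw [e1] at hx
    exact (hfree D hD b v w a hb hw hx).symm
  · intro D hD D' hD' e1 e2 e3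
    funext u v
    apply propext
    refine ⟨hsub D hD D' hD' e1 e2 e3 u v, hsub D' hD' D hD e1.symm e2.symm ?_ u v⟩
    rw [← e1]
    exact e3.symm

end MP_0a9719_co
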