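import Pool.Agent.Lib.MP_0a9719_co.GrX

/-! MP_0a9719_co, module GrB: orientations without `x0 → x1 → x2 ← x3` (distinct vertices).

Let `D` be an orientation of `res X H` without a copy of `p4 true true false` in `X`. All
degrees are in `X`. Let `S`, `M`, `P` be the sets of vertices of in-degree `0`, exactly `1`, at
least `2`.
(1) If `u → v` and `x → u` then `in(v) ⊆ {u, x}`: for `y ∈ in(v)`, `y ≠ u`, `y ≠ x` the vertices
`x, u, v, y` are distinct (`x ≠ v` since `D` is an orientation) and `x → u → v ← y`.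
(2) No edge inside `P`: `u → v`, `u ∈ P` has two in-neighbours `x ≠ x'`, so
`in(v) ⊆ {u, x} ∩ {u, x'} = {u}` and `v` is not in `P`.
(3) Let `m ∈ M`, `p ∈ P` be adjacent, `r` the in-neighbour of `m`. If `r ∈ P` then `r` is the only
neighbour of `m` in `P`, so every edge between `m` and `P` is directed into `m`: suppose
`p' ≠ r`, `p' ∈ P` is adjacent to `m`; then `m → p'` (`r` is the only in-neighbour of `m`),
by (1) `in(p') ⊆ {m, r}` and `|in(p')| ≥ 2`, so `r → p'`, an edge inside `P`,
contradiction. If `r` is not in `P`, all edges between `m` and `P` are directed `m → p`.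
(4) `D` is determined by `S`, `M`, `P` and `rr M D`: edges at `S` are directed out of `S`
(no edge inside `S`); no edge inside `P`; for `m ∈ M`: if `m` has an in-neighbour in `M`
(seen in `rr M D`) or a neighbour in `S` then `r` is not in `P` and all edges from `m` to `P` are directed
into `P`; otherwise `r ∈ P` and all edges between `m` and `P` are directed into `m`.
(5) `ideg D M v ≤ 1` for `v ∈ M`, so by `ideg_one_bound` the number of `D` is at most
`∑_{M ⊆ X} 2^(|X| - |M|) (5/3)^|M| = (11/3)^|X|` (`S ⊆ X \ M` arbitrary;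
`Finset.sum_pow_mul_eq_add_pow`). -/

namespace MP_0a9719_co

theorem num_B {V : Type*} [Fintype V] [DecidableEq V] (H : SimpleGraph V) (X : Finset V) :
    (num [.p4 true true false] H X : ℝ) ≤ (11 / 3) ^ X.card := by
  classical
  set A : Set (V → V → Prop) :=
    {D | IsOr (res X H) D ∧ ¬ Packs [.p4 true true false] D X} with hA
  have hfree : ∀ D ∈ A, ∀ x u v y, D x u → D u v → D y v → y = u ∨ y = x := by
    rintro D ⟨hD, hP⟩ x u v y h1 h2 h3
    by_contra hne
    push Not at hne
    apply hP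
    rw [grx_packs_one]
    obtain ⟨hx, hu, -, hux⟩ := isOr_mem hD h1
    obtain ⟨-, hv, -, hvu⟩ := isOr_mem hD h2
    obtain ⟨hy, -, -, hvy⟩ := isOr_mem hD h3
    refine ⟨{x, u, v, y}, ?_, x, u, v, y, ?_, ?_, hne.2.symm, ?_, hne.1.symm, ?_, h1, h2, h3, rfl⟩
    · intro z hz
      simp only [Finset.mem_insert, Finset.mem_singleton] at hz
      rcases hz with rfl | rfl | rfl | rfl <;> assumption
    · rintro rfl; exact hux h1
    · rintro rfl; exact hux h2
    · rintro rfl; exact hvu h2
    · rintro rfl; exact hvy h3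
  set fM : (V → V → Prop) → Finset V := fun D => X.filter fun v => ∃ x, D x v ∧ ∀ y, D y v → y = x
    with hfM
  set fS : (V → V → Prop) → Finset V := fun D => X.filter fun v => ¬ ∃ x, D x v with hfS
  have hM : ∀ D v, v ∈ fM D ↔ v ∈ X ∧ ∃ x, D x v ∧ ∀ y, D y v → y = x := by
    intro D v
    simp only [hfM, Finset.mem_filter]
  have hS : ∀ D v, v ∈ fS D ↔ v ∈ X ∧ ¬ ∃ x, D x v := by
    intro D v
    simp only [hfS, Finset.mem_filter]
  have hMX : ∀ D, fM D ⊆ X := fun D => Finset.filter_subset _ _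
  -- vertices of in-degree at least two
  have hP : ∀ D v, v ∈ X → v ∉ fM D → v ∉ fS D → ∃ x x', x ≠ x' ∧ D x v ∧ D x' v := by
    intro D v hv h1 h2
    obtain ⟨x, hx⟩ : ∃ x, D x v := by
      by_contra hcon
      exact h2 ((hS D v).mpr ⟨hv, hcon⟩)
    by_contra hcon
    push Not at hcon
    apply h1
    rw [hM]
    refine ⟨hv, x, hx, fun y hy => ?_⟩
    by_contra hne
    exact hcon y x hne hy hx
  -- no arc inside P
  have hPP : ∀ D ∈ A, ∀ u v, (∃ x x', x ≠ x' ∧ D x u ∧ D x' u) →
      (∃ x x', x ≠ x' ∧ D x v ∧ D x' v) → ¬ D u v := by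
    rintro D hD u v ⟨x, x', hne, hx, hx'⟩ ⟨y, y', hne', hy, hy'⟩ huv
    have key : ∀ z, D z v → z = u := by
      intro z hz
      rcases hfree D hD x u v z hx huv hz with h | h
      · exact h
      · rcases hfree D hD x' u v z hx' huv hz with h' | h'
        · exact h'
        · exact absurd (h.symm.trans h') hne
    exact hne' ((key y hy).trans (key y' hy').symm)
  have hcase : ∀ D ∈ A, ∀ D' ∈ A, fM D = fM D' → fS D = fS D' → rr (fM D) D = rr (fM D) D' →
      ∀ u m, u ∉ fM D → m ∈ fM D → D u m → D' m u → False := by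
    intro D hD D' hD' e1 e2 e3 u m huM hmM hum hmu
    obtain ⟨hu, hm, hadj, hnot⟩ := isOr_mem hD.1 hum
    -- u is in P for both
    have huS : u ∉ fS D' := by
      rw [hS]
      rintro ⟨-, h⟩
      exact h ⟨m, hmu⟩
    have huP' := hP D' u hu (e1 ▸ huM) huS
    obtain ⟨-, r, hr, hruniq⟩ := (hM D m).mp hmM
    have hru : u = r := hruniq u hum
    subst hru
    -- the in-neighbour of m in D'
    obtain ⟨-, r', hr', -⟩ := (hM D' m).mp (e1 ▸ hmM)
    obtain ⟨hr'X, -, hadj', -⟩ := isOr_mem hD'.1 hr'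
    have hr'S : r' ∉ fS D := by
      intro h
      have h4 := (hS D r').mp h
      rcases isOr_adj hD.1 hr'X hm hadj' with h5 | h5
      · have h6 := hruniq r' h5
        rw [h6] at h
        rw [e2] at h
        exact huS h
      · exact h4.2 ⟨m, h5⟩
    by_cases hr'M : r' ∈ fM D
    · have h5 : rr (fM D) D' r' m := ⟨hr', hr'M, hmM⟩
      rw [← e3] at h5
      have h6 := hruniq r' h5.1
      rw [h6] at hr'M
      exact huM hr'M
    · have hr'P := hP D' r' hr'X (e1 ▸ hr'M) (e2 ▸ hr'S)
      -- in D': r' → m → u, so in(u) ⊆ {m, r'}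
      have h7 : D' r' u := by
        obtain ⟨y, y', hne, hy, hy'⟩ := huP'
        rcases hfree D' hD' r' m u y hr' hmu hy with h8 | h8
        · rcases hfree D' hD' r' m u y' hr' hmu hy' with h9 | h9
          · exact absurd (h8.trans h9.symm) hne
          · rwa [h9] at hy'
        · rwa [h8] at hy
      exact hPP D' hD' r' u hr'P huP' h7
  have hsub : ∀ D ∈ A, ∀ D' ∈ A, fM D = fM D' → fS D = fS D' → rr (fM D) D = rr (fM D) D' →
      ∀ u v, D u v → D' u v := by
    intro D hD D' hD' e1 e2 e3 u v huv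
    obtain ⟨hu, hv, hadj, hvu⟩ := isOr_mem hD.1 huv
    rcases isOr_adj hD'.1 hu hv hadj with h | h
    · exact h
    exfalso
    have hu1 : u ∉ fS D := by
      rw [e2, hS]
      rintro ⟨-, h4⟩
      exact h4 ⟨v, h⟩
    have hv1 : v ∉ fS D := by
      rw [hS]
      rintro ⟨-, h4⟩
      exact h4 ⟨u, huv⟩
    by_cases huM : u ∈ fM D
    · by_cases hvM : v ∈ fM D
      · have h5 : rr (fM D) D u v := ⟨huv, huM, hvM⟩
        rw [e3] at h5
        exact (isOr_mem hD'.1 h5.1).2.2.2 h
      · exact hcase D' hD' D hD e1.symm e2.symm (by rw [← e1]; exact e3.symm) v u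
          (by rw [← e1]; exact hvM) (by rw [← e1]; exact huM) h huv
    · by_cases hvM : v ∈ fM D
      · exact hcase D hD D' hD' e1 e2 e3 u v huM hvM huv h
      · exact hPP D hD u v (hP D u hu huM hu1) (hP D v hv hvM hv1) huv
  refine grx_bound H X A fM fS (fun D _ => hMX D) ?_ ?_ ?_
  · intro D _ v hv
    rw [Finset.mem_sdiff]
    refine ⟨((hS D v).mp hv).1, fun h => ?_⟩
    obtain ⟨-, x, hx, -⟩ := (hM D v).mp h
    exact ((hS D v).mp hv).2 ⟨x, hx⟩
  · intro D hD
    refine ⟨isOr_rr hD.1 (hMX D), fun v hv => ?_⟩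
    rw [ideg, Set.ncard_le_one (Set.toFinite _)]
    rintro a ⟨-, ha, haM, -⟩ b ⟨-, hb, hbM, -⟩
    obtain ⟨-, x, -, hx⟩ := (hM D v).mp hv
    exact (hx a ha).trans (hx b hb).symm
  · intro D hD D' hD' e1 e2 e3
    funext u v
    apply propext
    refine ⟨hsub D hD D' hD' e1 e2 e3 u v, hsub D' hD' D hD e1.symm e2.symm ?_ u v⟩
    rw [← e1]
    exact e3.symm

end MP_0a9719_co
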