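import Pool.Agent.Lib.MP_0a9719_co.GrX

/-! MP_0a9719_co, module GrC: orientations without `x0 → x1 ← x2 → x3` (distinct vertices).

Let `D` be an orientation of `res X H` without a copy of `p4 true false true` in `X`. All
degrees are in `X`.
(1) If `z → y`, `x → y`, `x ≠ z` then `out(z) ⊆ {y, x}` (for `w ∈ out(z)`, `w ≠ y`, `w ≠ x`:
`x → y ← z → w`).
(2) CLAIM: if `X ≠ ∅` then some `v ∈ X` has degree at most `2`. Suppose all degrees are `≥ 3`.
Let `z → y` be an arc with in-degree of `y` at least `2` and out-degree of `z` at least `2`.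
Let `x ∈ in(y)`, `x ≠ z`; by (1) `out(z) = {y, x}`, so `z → x`. `x` is the only element of
`in(y)` other than `z` (another `x'` would give `out(z) ⊆ {y, x} ∩ {y, x'}`), so `in(y) = {x, z}`.
(1) for `x → y`, `z → y`: `out(x) ⊆ {y, z}`, and `z → x`, so `out(x) = {y}`. As `x` has degree
`≥ 3` it has another in-neighbour `z' ≠ z`. (1) for `z → x`, `z' → x`: `out(z) ⊆ {x, z'}`, so
`y = z'` and `y → x`, contradiction to `x → y`. So every arc `z → y` has in-degree of `y`
equal to `1` or out-degree of `z` equal to `1`. Let `I` / `O` be the sets of vertices of in-degree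
`1` / out-degree `1`; they are disjoint (degree `≥ 3`), so the number of arcs is at most
`|I| + |O| ≤ |X|`, but it is at least `3 |X| / 2`. Contradiction.
(3) Induction on `|X|`, bound `(11/3)^|X|` (even `3^|X|`). Let `v` be as in (2) (if there is at
least one such `D`; otherwise the number is `0`).
Degree `0` or `1`: `num(X) ≤ 2 num(X.erase v)` (`fiber_one`).
Degree `2`, neighbours `a, b`. If `a` or `b` has a neighbour in `X` outside `{v, a, b}`:
for every orientation `E` of `res (X.erase v) H` at most THREE of the four extensions to `v` are free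
of copies: if `a → v, b → v` is free, then by (1) (with `z = a`, `y = v`, `x = b`)
`out(a) ⊆ {v, b}` and symmetrically `out(b) ⊆ {v, a}`; if `v → a, v → b` is free, then for an
in-neighbour `x ≠ v` of `a`, (1) with `z = v`, `y = a` gives `out(v) = {a, b} ⊆ {a, x}`, `x = b`;
symmetrically the in-neighbours of `b` are in `{v, a}`. If both are free, all neighbours of `a`
and `b` are in `{v, a, b}` (the arcs of `E` at `a`, `b` are the same in both extensions),
contradiction. So `num(X) ≤ 3 num(X.erase v)` (`fiber_le` with the fibres of `rr (X.erase v)`).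
If `a` and `b` have no neighbour in `X` outside `{v, a, b}`: `D` is determined by
`rr (X \ {v, a, b}) D` and at most three directions, so `num(X) ≤ 8 num(X \ {v, a, b})`
(`fiber_or`, at most `3` edges), and `8 ≤ 27 ≤ (11/3)^3`. -/

namespace MP_0a9719_co

theorem grc_pair {V : Type*} (a b : V) : ({a, b} : Set V).ncard ≤ 2 := by
  classical
  have h := Finset.card_le_two (a := a) (b := b)
  rw [← Set.ncard_coe_finset] at h
  simpa using h

theorem grc_free {V : Type*} [DecidableEq V] {H : SimpleGraph V} {X : Finset V}
    {D : V → V → Prop}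
    (h : D ∈ {D : V → V → Prop | IsOr (res X H) D ∧ ¬ Packs [.p4 true false true] D X}) :
    ∀ x y z w, D x y → D z y → D z w → x = z ∨ w = y ∨ w = x := by
  obtain ⟨hD, hP⟩ := h
  intro x y z w h1 h2 h3
  by_contra hne
  push Not at hne
  apply hP
  rw [grx_packs_one]
  obtain ⟨hx, hy, -, hyx⟩ := isOr_mem hD h1
  obtain ⟨hz, -, -, hyz⟩ := isOr_mem hD h2
  obtain ⟨-, hw, -, hwz⟩ := isOr_mem hD h3
  refine ⟨{x, y, z, w}, ?_, x, y, z, w, ?_, hne.1, hne.2.2.symm, ?_, hne.2.1.symm, ?_, h1, h2, h3,
    rfl⟩
  · intro u hu
    simp only [Finset.mem_insert, Finset.mem_singleton] at hu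
    rcases hu with rfl | rfl | rfl | rfl <;> assumption
  · rintro rfl; exact hyx h1
  · rintro rfl; exact hyz h2
  · rintro rfl; exact hwz h3

theorem grc_small {V : Type*} [Fintype V] [DecidableEq V] {H : SimpleGraph V} {X : Finset V}
    {D : V → V → Prop} (hD : IsOr (res X H) D)
    (hf : ∀ x y z w, D x y → D z y → D z w → x = z ∨ w = y ∨ w = x) (hne : X.Nonempty) :
    ∃ v ∈ X, deg H X v ≤ 2 := by
  classical
  by_contra hcon
  push Not at hcon
  -- an arc with two in-neighbours of the head and two out-neighbours of the tail is impossible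
  have key : ∀ z y x w, D z y → D x y → x ≠ z → D z w → w ≠ y → False := by
    intro z y x w hzy hxy hxz hzw hwy
    have hwx : w = x := by
      rcases hf x y z w hxy hzy hzw with h | h | h
      · exact absurd h hxz
      · exact absurd h hwy
      · exact h
    subst hwx
    -- now z → y, x → y, z → x with x = w
    obtain ⟨hw, hy, hwyadj, hyw⟩ := isOr_mem hD hxy
    obtain ⟨hz, -, -, hwz⟩ := isOr_mem hD hzw
    have hoout : ∀ u, D w u → u = y := by
      intro u hu
      rcases hf z y w u hzy hxy hu with h | h | h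
      · exact absurd h.symm hxz
      · exact h
      · rw [h] at hu
        exact absurd hu hwz
    have h3 := hcon w hw
    have hsub : {u | u ∈ X ∧ H.Adj w u} ⊆ {y, z} := by
      rintro u ⟨hu, hwu⟩
      rcases isOr_adj hD hw hu hwu with h | h
      · rw [hoout u h]; simp
      · by_cases huz : u = z
        · rw [huz]; simp
        · exfalso
          rcases hf u w z y h hzw hzy with h4 | h4 | h4
          · exact huz h4
          · exact hwy h4.symm
          · rw [← h4] at h
            exact hyw h
    have h4 : deg H X w ≤ 2 := (Set.ncard_le_ncard hsub (Set.toFinite _)).trans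
      (grc_pair y z)
    omega
  -- counting
  set A : Finset (V × V) := Finset.univ.filter fun p => D p.1 p.2 with hA
  have hAm : ∀ p : V × V, p ∈ A ↔ D p.1 p.2 := by
    intro p
    simp [hA]
  have e1 : A.card = ∑ v ∈ X, (A.filter fun p => p.1 = v).card :=
    Finset.card_eq_sum_card_fiberwise fun p hp => (isOr_mem hD ((hAm p).mp hp)).1
  have e2 : A.card = ∑ v ∈ X, (A.filter fun p => p.2 = v).card :=
    Finset.card_eq_sum_card_fiberwise fun p hp => (isOr_mem hD ((hAm p).mp hp)).2.1
  have e3 : ∀ v ∈ X, deg H X v ≤ (A.filter fun p => p.1 = v).card +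
      (A.filter fun p => p.2 = v).card := by
    intro v hv
    have h1 : {u | u ∈ X ∧ H.Adj v u} ⊆
        ((((A.filter fun p => p.1 = v).image Prod.snd) ∪
          ((A.filter fun p => p.2 = v).image Prod.fst) : Finset V) : Set V) := by
      rintro u ⟨hu, hvu⟩
      simp only [Finset.coe_union, Set.mem_union, Finset.mem_coe, Finset.mem_image,
        Finset.mem_filter]
      rcases isOr_adj hD hv hu hvu with h | h
      · exact Or.inl ⟨(v, u), ⟨(hAm _).mpr h, rfl⟩, rfl⟩
      · exact Or.inr ⟨(u, v), ⟨(hAm _).mpr h, rfl⟩, rfl⟩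
    calc deg H X v ≤ _ := Set.ncard_le_ncard h1 (Finset.finite_toSet _)
      _ = _ := Set.ncard_coe_finset _
      _ ≤ _ := Finset.card_union_le _ _
      _ ≤ _ := Nat.add_le_add Finset.card_image_le Finset.card_image_le
  have e4 : A.card ≤ X.card := by
    set f : V × V → V := fun p => if ∀ x, D x p.2 → x = p.1 then p.2 else p.1 with hfdef
    apply Finset.card_le_card_of_injOn f
    · intro p hp
      have h := isOr_mem hD ((hAm p).mp hp)
      simp only [hfdef]
      split_ifs
      · exact h.2.1
      · exact h.1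
    · intro p hp p' hp' he
      have hp1 := (hAm p).mp hp
      have hp1' := (hAm p').mp hp'
      -- if not all in-neighbours are equal then the out-neighbours are
      have hO : ∀ q : V × V, D q.1 q.2 → ¬ (∀ x, D x q.2 → x = q.1) → ∀ w, D q.1 w → w = q.2 := by
        intro q hq hn w hw
        push Not at hn
        obtain ⟨x, hx, hxne⟩ := hn
        by_contra hwne
        exact key q.1 q.2 x w hq hx hxne hw hwne
      have hmix : ∀ q q' : V × V, D q.1 q.2 → D q'.1 q'.2 → (∀ x, D x q.2 → x = q.1) →
          ¬ (∀ x, D x q'.2 → x = q'.1) → q.2 = q'.1 → False := by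
        intro q q' hq hq' hin hn hee
        have hout := hO q' hq' hn
        have h3 := hcon q.2 (isOr_mem hD hq).2.1
        have hsub : {u | u ∈ X ∧ H.Adj q.2 u} ⊆ {q.1, q'.2} := by
          rintro u ⟨hu, hwu⟩
          rcases isOr_adj hD (isOr_mem hD hq).2.1 hu hwu with h | h
          · rw [hee] at h
            rw [hout u h]; simp
          · rw [hin u h]; simp
        have h4 : deg H X q.2 ≤ 2 := (Set.ncard_le_ncard hsub (Set.toFinite _)).trans
          (grc_pair _ _)
        omega
      simp only [hfdef] at he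
      by_cases c1 : ∀ x, D x p.2 → x = p.1
      · by_cases c2 : ∀ x, D x p'.2 → x = p'.1
        · rw [if_pos c1, if_pos c2] at he
          have h5 : p'.1 = p.1 := c1 p'.1 (by rw [he]; exact hp1')
          exact Prod.ext h5.symm he
        · rw [if_pos c1, if_neg c2] at he
          exact (hmix p p' hp1 hp1' c1 c2 he).elim
      · by_cases c2 : ∀ x, D x p'.2 → x = p'.1
        · rw [if_neg c1, if_pos c2] at he
          exact (hmix p' p hp1' hp1 c2 c1 he.symm).elim
        · rw [if_neg c1, if_neg c2] at he
          have h5 : p'.2 = p.2 := hO p hp1 c1 p'.2 (by rw [he]; exact hp1')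
          exact Prod.ext he h5.symm
  have e5 : 3 * X.card ≤ ∑ v ∈ X, deg H X v := by
    calc 3 * X.card = ∑ _v ∈ X, 3 := by rw [Finset.sum_const, smul_eq_mul, mul_comm]
      _ ≤ _ := Finset.sum_le_sum fun v hv => hcon v hv
  have e6 : ∑ v ∈ X, deg H X v ≤ A.card + A.card := by
    calc _ ≤ ∑ v ∈ X, ((A.filter fun p => p.1 = v).card + (A.filter fun p => p.2 = v).card) :=
          Finset.sum_le_sum e3
      _ = _ := by rw [Finset.sum_add_distrib, ← e1, ← e2]
  have hpos := Finset.card_pos.mpr hne
  omega

theorem grc_three {V : Type*} [Fintype V] [DecidableEq V] {H : SimpleGraph V} {X : Finset V}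
    {v a b c : V} (hv : v ∈ X) (hvN : ∀ u, u ∈ X → H.Adj v u → u = a ∨ u = b)
    (hva : H.Adj v a) (hvb : H.Adj v b) (ha : a ∈ X) (hb : b ∈ X) (hab : a ≠ b) (hc : c ∈ X)
    (hadj : H.Adj a c ∨ H.Adj b c) (hcv : c ≠ v) (hca : c ≠ a) (hcb : c ≠ b)
    (E : V → V → Prop) : {D : V → V → Prop | (IsOr (res X H) D ∧
          ¬ Packs [.p4 true false true] D X) ∧ rr (X.erase v) D = E}.ncard ≤ 3 := by
  classical
  set S : Set (V → V → Prop) := {D : V → V → Prop | (IsOr (res X H) D ∧
          ¬ Packs [.p4 true false true] D X) ∧ rr (X.erase v) D = E} with hS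
  set g : (V → V → Prop) → Bool × Bool := fun D => (decide (D a v), decide (D b v)) with hg
  have hE : ∀ D ∈ S, ∀ x y, x ∈ X.erase v → y ∈ X.erase v → (D x y ↔ E x y) := by
    rintro D ⟨-, hD⟩ x y hx hy
    rw [← hD]
    exact ⟨fun h => ⟨h, hx, hy⟩, fun h => h.1⟩
  have hrev : ∀ D ∈ S, ∀ u, H.Adj v u → u ∈ X → (D v u ↔ ¬ D u v) := by
    rintro D ⟨⟨hD, -⟩, -⟩ u huv hu
    constructor
    · intro h
      exact (isOr_mem hD h).2.2.2
    · intro h
      rcases isOr_adj hD hv hu huv with h' | h'
      · exact h'
      · exact absurd h' h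
  have hinj : Set.InjOn g S := by
    have hle : ∀ D ∈ S, ∀ D' ∈ S, g D = g D' → ∀ x y, D x y → D' x y := by
      intro D hD D' hD' he x y hxy
      simp only [hg, Prod.mk.injEq, decide_eq_decide] at he
      obtain ⟨hx, hy, hadj, -⟩ := isOr_mem hD.1.1 hxy
      by_cases hxv : x = v
      · rw [hxv] at hxy hadj ⊢
        rcases hvN y hy hadj with h | h
        · rw [h] at hxy ⊢
          rw [hrev D hD a hva ha, he.1] at hxy
          exact (hrev D' hD' a hva ha).mpr hxy
        · rw [h] at hxy ⊢
          rw [hrev D hD b hvb hb, he.2] at hxy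
          exact (hrev D' hD' b hvb hb).mpr hxy
      · by_cases hyv : y = v
        · rw [hyv] at hxy hadj ⊢
          rcases hvN x hx hadj.symm with h | h
          · rw [h] at hxy ⊢
            exact he.1.mp hxy
          · rw [h] at hxy ⊢
            exact he.2.mp hxy
        · have hx' : x ∈ X.erase v := Finset.mem_erase.mpr ⟨hxv, hx⟩
          have hy' : y ∈ X.erase v := Finset.mem_erase.mpr ⟨hyv, hy⟩
          rw [hE D' hD' x y hx' hy', ← hE D hD x y hx' hy']
          exact hxy
    intro D hD D' hD' he
    funext x y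
    exact propext ⟨hle D hD D' hD' he x y, hle D' hD' D hD he.symm x y⟩
  have hnot : ¬ ((true, true) ∈ g '' S ∧ (false, false) ∈ g '' S) := by
    rintro ⟨⟨D1, hD1, h1⟩, ⟨D2, hD2, h2⟩⟩
    simp only [hg, Prod.mk.injEq, decide_eq_true_eq, decide_eq_false_iff_not] at h1 h2
    have h2a : D2 v a := (hrev D2 hD2 a hva ha).mpr h2.1
    have h2b : D2 v b := (hrev D2 hD2 b hvb hb).mpr h2.2
    have f1 := grc_free hD1.1
    have f2 := grc_free hD2.1
    have hcX : c ∈ X.erase v := Finset.mem_erase.mpr ⟨hcv, hc⟩
    have haX : a ∈ X.erase v := Finset.mem_erase.mpr ⟨hva.ne', ha⟩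
    have hbX : b ∈ X.erase v := Finset.mem_erase.mpr ⟨hvb.ne', hb⟩
    rcases hadj with h | h
    · rcases isOr_adj hD1.1.1 ha hc h with h3 | h3
      · rcases f1 b v a c h1.2 h1.1 h3 with h4 | h4 | h4
        · exact hab h4.symm
        · exact hcv h4
        · exact hcb h4
      · rw [hE D1 hD1 c a hcX haX, ← hE D2 hD2 c a hcX haX] at h3
        rcases f2 c a v b h3 h2a h2b with h4 | h4 | h4
        · exact hcv h4
        · exact hab h4.symm
        · exact hcb h4.symm
    · rcases isOr_adj hD1.1.1 hb hc h with h3 | h3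
      · rcases f1 a v b c h1.1 h1.2 h3 with h4 | h4 | h4
        · exact hab h4
        · exact hcv h4
        · exact hca h4
      · rw [hE D1 hD1 c b hcX hbX, ← hE D2 hD2 c b hcX hbX] at h3
        rcases f2 c b v a h3 h2b h2a with h4 | h4 | h4
        · exact hcv h4
        · exact hab h4
        · exact hca h4.symm
  rw [← hinj.ncard_image]
  by_cases htt : (true, true) ∈ g '' S
  · have hff : (false, false) ∉ g '' S := fun h => hnot ⟨htt, h⟩
    have hsub : g '' S ⊆ ((Finset.univ.erase (false, false) : Finset (Bool × Bool)) :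
        Set (Bool × Bool)) := by
      intro p hp
      rw [Finset.mem_coe, Finset.mem_erase]
      exact ⟨fun h => hff (h ▸ hp), Finset.mem_univ _⟩
    refine (Set.ncard_le_ncard hsub (Set.toFinite _)).trans ?_
    rw [Set.ncard_coe_finset]
    decide
  · have hsub : g '' S ⊆ ((Finset.univ.erase (true, true) : Finset (Bool × Bool)) :
        Set (Bool × Bool)) := by
      intro p hp
      rw [Finset.mem_coe, Finset.mem_erase]
      exact ⟨fun h => htt (h ▸ hp), Finset.mem_univ _⟩
    refine (Set.ncard_le_ncard hsub (Set.toFinite _)).trans ?_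
    rw [Set.ncard_coe_finset]
    decide

theorem num_C {V : Type*} [Fintype V] [DecidableEq V] (H : SimpleGraph V) (X : Finset V) :
    (num [.p4 true false true] H X : ℝ) ≤ (11 / 3) ^ X.card := by
  classical
  have main : ∀ n : ℕ, ∀ X : Finset V, X.card = n →
      (num [.p4 true false true] H X : ℝ) ≤ (11 / 3) ^ X.card := by
    intro n
    induction n using Nat.strong_induction_on with
    | _ n ih =>
    intro X hXn
    rcases Set.eq_empty_or_nonempty
      {D : V → V → Prop | IsOr (res X H) D ∧ ¬ Packs [.p4 true false true] D X} with he | ⟨D₀, hD₀⟩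
    · rw [num, he, Set.ncard_empty]
      push_cast
      positivity
    rcases Finset.eq_empty_or_nonempty X with rfl | hne
    · have h1 : num [.p4 true false true] H (∅ : Finset V) ≤ 1 := by
        rw [num, Set.ncard_le_one (Set.toFinite _)]
        rintro D ⟨hD, -⟩ D' ⟨hD', -⟩
        funext u v
        apply propext
        constructor
        · intro h
          exact absurd (isOr_mem hD h).1 (Finset.notMem_empty _)
        · intro h
          exact absurd (isOr_mem hD' h).1 (Finset.notMem_empty _)
      rw [Finset.card_empty, pow_zero]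
      exact_mod_cast h1
    obtain ⟨v, hv, hdeg⟩ := grc_small hD₀.1 (grc_free hD₀) hne
    have hcard : (X.erase v).card = n - 1 := by rw [Finset.card_erase_of_mem hv, hXn]
    have hn : 0 < n := by rw [← hXn]; exact Finset.card_pos.mpr hne
    have ihv := ih (n - 1) (by omega) (X.erase v) hcard
    -- reduction to the number of extensions
    have hred : ∀ (X' : Finset V) (m : ℕ), X' ⊆ X →
        (∀ E : V → V → Prop, {D : V → V → Prop | (IsOr (res X H) D ∧
          ¬ Packs [.p4 true false true] D X) ∧ rr X' D = E}.ncard ≤ m) →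
        num [.p4 true false true] H X ≤ m * num [.p4 true false true] H X' := by
      intro X' m hX' hm
      rw [num, num]
      refine fiber_le _ _ (fun D => rr X' D) m ?_ ?_
      · rintro D ⟨hD, hP⟩
        refine ⟨isOr_rr hD hX', fun h => hP ?_⟩
        rw [packs_rr _ _ (subset_refl X'), grx_packs_one] at h
        obtain ⟨Q, hQ, hc⟩ := h
        rw [grx_packs_one]
        exact ⟨Q, hQ.trans hX', hc⟩
      · intro E _
        exact hm E
    by_cases hd1 : deg H X v ≤ 1
    · have h1 := hred (X.erase v) 2 (Finset.erase_subset _ _) (fun E => by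
        calc _ ≤ {D : V → V → Prop | IsOr (res X H) D ∧ rr (X.erase v) D = E}.ncard := by
              apply Set.ncard_le_ncard _ (Set.toFinite _)
              rintro D ⟨⟨h2, -⟩, h3⟩
              exact ⟨h2, h3⟩
          _ ≤ 2 ^ deg H X v := fiber_one H hv E
          _ ≤ 2 ^ 1 := Nat.pow_le_pow_right (by norm_num) hd1
          _ = 2 := by norm_num)
      have h2 : (num [.p4 true false true] H X : ℝ) ≤
          2 * (num [.p4 true false true] H (X.erase v) : ℝ) := by exact_mod_cast h1
      refine h2.trans ?_
      rw [hcard] at ihv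
      rw [hXn]
      obtain ⟨k, rfl⟩ : ∃ k, n = k + 1 := ⟨n - 1, by omega⟩
      rw [pow_succ]
      simp only [Nat.add_sub_cancel] at ihv
      nlinarith [pow_pos (by norm_num : (0 : ℝ) < 11 / 3) k]
    -- two neighbours
    have hd2 : deg H X v = 2 := by omega
    obtain ⟨a, b, hab, hNv⟩ := Set.ncard_eq_two.mp hd2
    have haN : a ∈ X ∧ H.Adj v a := by
      have : a ∈ {u | u ∈ X ∧ H.Adj v u} := by rw [hNv]; simp
      exact this
    have hbN : b ∈ X ∧ H.Adj v b := by
      have : b ∈ {u | u ∈ X ∧ H.Adj v u} := by rw [hNv]; simp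
      exact this
    have hva : v ≠ a := haN.2.ne
    have hvb : v ≠ b := hbN.2.ne
    have hvN : ∀ u, u ∈ X → H.Adj v u → u = a ∨ u = b := by
      intro u hu huv
      have : u ∈ {u | u ∈ X ∧ H.Adj v u} := ⟨hu, huv⟩
      rw [hNv] at this
      simpa using this
    by_cases hout : ∀ c ∈ X, (H.Adj a c ∨ H.Adj b c) → c = v ∨ c = a ∨ c = b
    · -- all neighbours inside
      set X' : Finset V := ((X.erase v).erase a).erase b with hX'
      have hsub : X' ⊆ X := (Finset.erase_subset _ _).trans ((Finset.erase_subset _ _).trans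
        (Finset.erase_subset _ _))
      have haX : a ∈ X.erase v := Finset.mem_erase.mpr ⟨hva.symm, haN.1⟩
      have hbX : b ∈ (X.erase v).erase a :=
        Finset.mem_erase.mpr ⟨hab.symm, Finset.mem_erase.mpr ⟨hvb.symm, hbN.1⟩⟩
      have e1 := eX_erase H hv
      have e2 := eX_erase H haX
      have e3 : eX H ((X.erase v).erase a) = deg H ((X.erase v).erase a) b + eX H X' :=
        eX_erase H hbX
      have d2 : deg H (X.erase v) a ≤ 1 := by
        rw [deg, Set.ncard_le_one (Set.toFinite _)]
        rintro x ⟨hx, hxa⟩ y ⟨hy, hya⟩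
        rw [Finset.mem_erase] at hx hy
        rcases hout x hx.2 (Or.inl hxa) with h | h | h
        · exact absurd h hx.1
        · exact absurd h hxa.ne'
        · rcases hout y hy.2 (Or.inl hya) with h' | h' | h'
          · exact absurd h' hy.1
          · exact absurd h' hya.ne'
          · exact h.trans h'.symm
      have d3 : deg H ((X.erase v).erase a) b = 0 := by
        rw [deg, Set.ncard_eq_zero (Set.toFinite _)]
        apply Set.eq_empty_of_forall_notMem
        rintro x ⟨hx, hxb⟩
        rw [Finset.mem_erase, Finset.mem_erase] at hx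
        rcases hout x hx.2.2 (Or.inr hxb) with h | h | h
        · exact hx.2.1 h
        · exact hx.1 h
        · exact hxb.ne' h
      have hcard' : X'.card = n - 3 := by
        rw [hX', Finset.card_erase_of_mem hbX, Finset.card_erase_of_mem haX,
          Finset.card_erase_of_mem hv, hXn]
        omega
      have hn3 : 3 ≤ n := by
        have h4 : 0 < ((X.erase v).erase a).card := Finset.card_pos.mpr ⟨b, hbX⟩
        rw [Finset.card_erase_of_mem haX, Finset.card_erase_of_mem hv, hXn] at h4
        omega
      have h1 := hred X' 8 hsub (fun E => by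
        calc _ ≤ {D : V → V → Prop | IsOr (res X H) D ∧ rr X' D = E}.ncard := by
              apply Set.ncard_le_ncard _ (Set.toFinite _)
              rintro D ⟨⟨h2, -⟩, h3⟩
              exact ⟨h2, h3⟩
          _ ≤ 2 ^ (eX H X - eX H X') := fiber_or H hsub E
          _ ≤ 2 ^ 3 := Nat.pow_le_pow_right (by norm_num) (by omega)
          _ = 8 := by norm_num)
      have h2 : (num [.p4 true false true] H X : ℝ) ≤
          8 * (num [.p4 true false true] H X' : ℝ) := by exact_mod_cast h1
      refine h2.trans ?_
      have ih3 := ih (n - 3) (by omega) X' hcard'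
      rw [hcard'] at ih3
      rw [hXn]
      obtain ⟨k, rfl⟩ : ∃ k, n = k + 3 := ⟨n - 3, by omega⟩
      rw [pow_add]
      simp only [Nat.add_sub_cancel] at ih3
      have h5 := pow_pos (by norm_num : (0 : ℝ) < 11 / 3) k
      nlinarith
    · -- three extensions
      push Not at hout
      obtain ⟨c, hc, hadj, hcv, hca, hcb⟩ := hout
      have h1 := hred (X.erase v) 3 (Finset.erase_subset _ _) (fun E => by
        exact grc_three hv hvN haN.2 hbN.2 haN.1 hbN.1 hab hc hadj hcv hca hcb E)
      have h2 : (num [.p4 true false true] H X : ℝ) ≤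
          3 * (num [.p4 true false true] H (X.erase v) : ℝ) := by exact_mod_cast h1
      refine h2.trans ?_
      rw [hcard] at ihv
      rw [hXn]
      obtain ⟨k, rfl⟩ : ∃ k, n = k + 1 := ⟨n - 1, by omega⟩
      rw [pow_succ]
      simp only [Nat.add_sub_cancel] at ihv
      nlinarith [pow_pos (by norm_num : (0 : ℝ) < 11 / 3) k]
  exact main X.card X rfl

end MP_0a9719_co
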