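import Pool.Agent.Lib.MP_0a9719_co.GrSt
import Pool.Agent.Lib.MP_0a9719_co.GrA
import Pool.Agent.Lib.MP_0a9719_co.GrB
import Pool.Agent.Lib.MP_0a9719_co.GrC

/-! MP_0a9719_co, module GrP: all oriented paths with three edges, all valid shapes. The eight
types reduce to the three of GrA, GrB, GrC by `num_rev` and `num_read`:
`FFF = rev TTT`; `TTF`: GrB; `FFT = rev TTF`; `TFF = read TTF` (`(!F, !T, !T)`); `FTT = rev TFF`;
`TFT`: GrC; `FTF = rev TFT`. -/

namespace MP_0a9719_co

theorem num_p4 {V : Type*} [Fintype V] [DecidableEq V] (a b c : Bool) (H : SimpleGraph V)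
    (X : Finset V) : (num [.p4 a b c] H X : ℝ) ≤ (11 / 3) ^ X.card := by
  have h0 : ∀ a b c : Bool, num [.p4 (!a) (!b) (!c)] H X = num [.p4 a b c] H X := fun a b c =>
    num_rev [.p4 a b c] H X
  have h1 : ∀ a b c : Bool, num [.p4 (!c) (!b) (!a)] H X = num [.p4 a b c] H X := fun a b c =>
    num_read a b c H X
  have hTTT := num_A H X
  have hTTF := num_B H X
  have hTFT := num_C H X
  have hTFF : (num [.p4 true false false] H X : ℝ) ≤ (11 / 3) ^ X.card := by
    have h2 := h1 true true false
    simp only [Bool.not_false, Bool.not_true] at h2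
    rw [h2]
    exact hTTF
  rcases a with _ | _ <;> rcases b with _ | _ <;> rcases c with _ | _
  · have h2 := h0 true true true
    simp only [Bool.not_true] at h2
    rw [h2]
    exact hTTT
  · have h2 := h0 true true false
    simp only [Bool.not_true, Bool.not_false] at h2
    rw [h2]
    exact hTTF
  · have h2 := h0 true false true
    simp only [Bool.not_true, Bool.not_false] at h2
    rw [h2]
    exact hTFT
  · have h2 := h0 true false false
    simp only [Bool.not_true, Bool.not_false] at h2
    rw [h2]
    exact hTFF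
  · exact hTFF
  · exact hTFT
  · exact hTTF
  · exact hTTT

theorem num_valid {V : Type*} [Fintype V] [DecidableEq V] (T : Shape) (hT : T.Valid)
    (H : SimpleGraph V) (X : Finset V) : (num [T] H X : ℝ) ≤ (11 / 3) ^ X.card := by
  rcases T with ⟨i, o⟩ | ⟨a, b, c⟩
  · obtain ⟨h1, h2⟩ := hT
    have h3 : i + o = 1 ∨ i + o = 2 ∨ i + o = 3 := by omega
    rcases h3 with h | h | h
    · exact (num_star_one i o h H X).trans
        (pow_le_pow_left₀ (by norm_num) (by norm_num) _)
    · exact (num_star_two i o h H X).trans
        (pow_le_pow_left₀ (by norm_num) (by norm_num) _)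
    · exact (num_star_three i o h H X).trans
        (pow_le_pow_left₀ (by norm_num) (by norm_num) _)
  · exact num_p4 a b c H X

end MP_0a9719_co
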