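import Pool.Agent.Lib.MP_0a9719_co.Fib
import Pool.Agent.Lib.MP_0a9719_co.Res

/-! MP_0a9719_co, module Rev: reversing all arcs, and reading a path backwards.

`D ↦ fun u v => D v u` is an involution on the orientations of a graph; it exchanges the shapes
`T` and `T.rev`. Reading the path `x0 x1 x2 x3` backwards gives the type
`(!c, !b, !a)` from the type `(a, b, c)` (`arc (!a) D u v ↔ arc a D v u`). -/

namespace MP_0a9719_co

variable {V : Type*}

private theorem Rev_arc (a : Bool) (D : V → V → Prop) (u v : V) :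
    arc (!a) D u v ↔ arc a D v u := by
  cases a <;> rfl

private theorem Rev_arc' (a : Bool) (D : V → V → Prop) (u v : V) :
    arc (!a) (fun u v => D v u) u v ↔ arc a D u v := by
  cases a <;> rfl

theorem isOr_rev {G : SimpleGraph V} {D : V → V → Prop} (h : IsOr G D) :
    IsOr G (fun u v => D v u) := by
  intro u v
  refine ⟨(h u v).1.trans or_comm, fun h1 => (h u v).2 ⟨h1.2, h1.1⟩⟩

theorem isCopy_rev [DecidableEq V] (T : Shape) (D : V → V → Prop) (Q : Finset V) :
    IsCopy T.rev (fun u v => D v u) Q ↔ IsCopy T D Q := by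
  cases T with
  | star i o =>
    constructor
    · rintro ⟨c, I, O, h1, h2, h3, h4, h5, h6, h7, h8⟩
      exact ⟨c, O, I, h2, h1, h3.symm, h5, h4, h7, h6, by rw [h8, Finset.union_comm]⟩
    · rintro ⟨c, I, O, h1, h2, h3, h4, h5, h6, h7, h8⟩
      exact ⟨c, O, I, h2, h1, h3.symm, h5, h4, h7, h6, by rw [h8, Finset.union_comm]⟩
  | p4 a b c =>
    constructor
    · rintro ⟨x0, x1, x2, x3, h1, h2, h3, h4, h5, h6, h7, h8, h9, h10⟩
      exact ⟨x0, x1, x2, x3, h1, h2, h3, h4, h5, h6, (Rev_arc' a D _ _).1 h7,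
        (Rev_arc' b D _ _).1 h8, (Rev_arc' c D _ _).1 h9, h10⟩
    · rintro ⟨x0, x1, x2, x3, h1, h2, h3, h4, h5, h6, h7, h8, h9, h10⟩
      exact ⟨x0, x1, x2, x3, h1, h2, h3, h4, h5, h6, (Rev_arc' a D _ _).2 h7,
        (Rev_arc' b D _ _).2 h8, (Rev_arc' c D _ _).2 h9, h10⟩

private theorem Rev_read [DecidableEq V] {a b c : Bool} {D : V → V → Prop} {Q : Finset V}
    (h : IsCopy (.p4 a b c) D Q) : IsCopy (.p4 (!c) (!b) (!a)) D Q := by
  obtain ⟨x0, x1, x2, x3, h1, h2, h3, h4, h5, h6, h7, h8, h9, h10⟩ := h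
  refine ⟨x3, x2, x1, x0, h6.symm, h5.symm, h3.symm, h4.symm, h2.symm, h1.symm,
    (Rev_arc c D _ _).2 h9, (Rev_arc b D _ _).2 h8, (Rev_arc a D _ _).2 h7, ?_⟩
  rw [h10]
  ext x
  simp only [Finset.mem_insert, Finset.mem_singleton]
  tauto

theorem isCopy_read [DecidableEq V] (a b c : Bool) (D : V → V → Prop) (Q : Finset V) :
    IsCopy (.p4 (!c) (!b) (!a)) D Q ↔ IsCopy (.p4 a b c) D Q := by
  refine ⟨fun h => ?_, Rev_read⟩
  have h1 := Rev_read h
  rwa [Bool.not_not, Bool.not_not, Bool.not_not] at h1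

theorem packs_rev [DecidableEq V] (L : List Shape) (D : V → V → Prop) (X : Finset V) :
    Packs (L.map Shape.rev) (fun u v => D v u) X ↔ Packs L D X := by
  induction L generalizing X with
  | nil => exact Iff.rfl
  | cons T L ih =>
    constructor
    · rintro ⟨Q, h1, h2, h3⟩
      exact ⟨Q, h1, (isCopy_rev T D Q).1 h2, (ih _).1 h3⟩
    · rintro ⟨Q, h1, h2, h3⟩
      exact ⟨Q, h1, (isCopy_rev T D Q).2 h2, (ih _).2 h3⟩

theorem num_rev [Fintype V] [DecidableEq V] (L : List Shape) (H : SimpleGraph V)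
    (X : Finset V) : num (L.map Shape.rev) H X = num L H X := by
  unfold num
  have hinj : Function.Injective (fun (D : V → V → Prop) => fun u v => D v u) := by
    intro D D' h
    funext u v
    exact congrFun (congrFun h v) u
  rw [← Set.ncard_image_of_injective _ hinj]
  congr 1
  ext D
  constructor
  · rintro ⟨D', ⟨h1, h2⟩, rfl⟩
    exact ⟨isOr_rev h1, fun h => h2 ((packs_rev L (fun u v => D' v u) X).2 h)⟩
  · rintro ⟨h1, h2⟩
    exact ⟨fun u v => D v u, ⟨isOr_rev h1, fun h => h2 ((packs_rev L D X).1 h)⟩, rfl⟩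

theorem num_read [Fintype V] [DecidableEq V] (a b c : Bool) (H : SimpleGraph V)
    (X : Finset V) : num [.p4 (!c) (!b) (!a)] H X = num [.p4 a b c] H X := by
  unfold num
  congr 1
  ext D
  refine and_congr_right fun _ => not_congr (exists_congr fun Q => and_congr_right fun _ => ?_)
  exact and_congr_left fun _ => isCopy_read a b c D Q

end MP_0a9719_co
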