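import Pool.Agent.Lib.MP_0a9719_co.Cap
import Pool.Agent.Lib.MP_0a9719_co.Rev

/-! MP_0a9719_co, module GrSt: orientations without a given star with at most three leaves.

`Packs [T] D X` iff some `Q ⊆ X` has `IsCopy T D Q`.
(1) `i + o = 1`: a copy of `star i o` in `D` is an arc; if `res X H` has an edge then every
orientation has an arc and the number is `0`, otherwise it is at most `1 = 2^0` (`ncard_or`).
(2) `i + o = 2`. `star 0 2`-free: all out-degrees in `X` are at most `1`: `cap_bound` with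
`cap = 1` gives `(5/3)^|X|`. `star 2 0`: `num_rev` (`Shape.rev (star 2 0) = star 0 2`).
`star 1 1`-free: no `x → c → y` with `x ≠ y`, so (an orientation never has `x → c → x`) no vertex has both in- and out-neighbours.
Induction on `|X|`: if `res X H` has no edge the number is `≤ 1`. If `u v ∈ X` are adjacent: `D`
is determined by the direction of `uv` and `rr ((X.erase u).erase v) D`: if `u → v` then `u`
has no in-neighbour, so all edges at `u` are directed out of `u`, and all edges at `v` into `v`;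
symmetrically if `v → u`. So the number is at most `2 (5/3)^(|X|-2) ≤ (5/3)^|X|`.
(3) `i + o = 3`. `star 0 3`-free: out-degrees at most `2`: `cap_bound` with `cap = 2`;
`star 3 0` by `num_rev`. `star 1 2`-free: every vertex `v` has in-degree `0` or out-degree at
most `1` in `X`. For `D` let `S ⊆ X` be the set of `v ∈ X` with in-degree `0`. Given `S`, `D` is
determined by `rr (X \ S) D` (edges at `S` are directed out of `S`; an edge inside `S` is
impossible), which has all out-degrees at most `1`, so `cap_bound` on `X \ S` gives at most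
`∑_{S ⊆ X} (5/3)^(|X| - |S|) = (1 + 5/3)^|X| ≤ (16/5)^|X|` (`Finset.prod_one_add` /
`Finset.sum_pow_mul_eq_add_pow`). `star 2 1` by `num_rev`. -/

namespace MP_0a9719_co

variable {V : Type*} [Fintype V] [DecidableEq V]

namespace GrSt

omit [Fintype V] in
/-- a star in an orientation of a restricted graph -/
theorem packs_of {H : SimpleGraph V} {X : Finset V} {D : V → V → Prop}
    (hD : IsOr (res X H) D) {i o : ℕ} (hio : 1 ≤ i + o) (c : V) (I O : Finset V)
    (hdis : Disjoint I O) (hI : I.card = i) (hO : O.card = o)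
    (h1 : ∀ x ∈ I, D x c) (h2 : ∀ x ∈ O, D c x) : Packs [.star i o] D X := by
  have hirr : ∀ x, ¬ D x x := fun x h => (isOr_mem hD h).2.2.2 h
  refine ⟨insert c (I ∪ O), ?_, ⟨c, I, O, fun h => hirr c (h1 c h), fun h => hirr c (h2 c h),
    hdis, hI, hO, h1, h2, rfl⟩, trivial⟩
  intro x hx
  rw [Finset.mem_insert, Finset.mem_union] at hx
  rcases hx with rfl | hx | hx
  · have h3 : (I ∪ O).Nonempty := by
      rw [← Finset.card_pos, Finset.card_union_of_disjoint hdis]
      omega
    obtain ⟨y, hy⟩ := h3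
    rw [Finset.mem_union] at hy
    rcases hy with hy | hy
    · exact (isOr_mem hD (h1 y hy)).2.1
    · exact (isOr_mem hD (h2 y hy)).1
  · exact (isOr_mem hD (h1 x hx)).1
  · exact (isOr_mem hD (h2 x hx)).2.1

/-- `star 0 (k + 1)`-free orientations -/
theorem num_out (k : ℕ) (hk : k ≤ 2) (H : SimpleGraph V) (X : Finset V) :
    (num [.star 0 (k + 1)] H X : ℝ) ≤ (wt k) ^ X.card := by
  have h1 := cap_bound H X (fun _ => k) (fun _ => hk)
  rw [Finset.prod_const] at h1
  refine le_trans ?_ h1
  norm_cast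
  refine Set.ncard_le_ncard ?_ (Set.toFinite _)
  rintro D ⟨hD, hP⟩
  refine ⟨hD, fun v hv => ?_⟩
  by_contra hc
  push Not at hc
  apply hP
  have h2 : k + 1 ≤ ((Set.toFinite {u | u ∈ X ∧ D v u}).toFinset).card := by
    rw [← Set.ncard_eq_toFinset_card]
    exact hc
  obtain ⟨O, hO, hO'⟩ := Finset.exists_subset_card_eq h2
  refine packs_of hD (by omega) v ∅ O (Finset.disjoint_empty_left _) rfl hO' ?_ ?_
  · intro x hx
    exact absurd hx (Finset.notMem_empty x)
  · intro x hx
    have := hO hx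
    rw [Set.Finite.mem_toFinset] at this
    exact this.2

theorem num_in (k : ℕ) (hk : k ≤ 2) (H : SimpleGraph V) (X : Finset V) :
    (num [.star (k + 1) 0] H X : ℝ) ≤ (wt k) ^ X.card := by
  have h := num_rev [.star 0 (k + 1)] H X
  have h2 : ([.star 0 (k + 1)] : List Shape).map Shape.rev = [.star (k + 1) 0] := rfl
  rw [h2] at h
  rw [h]
  exact num_out k hk H X

omit [Fintype V] in
theorem free_rr {T : Shape} {H : SimpleGraph V} {X X' : Finset V} {D : V → V → Prop}
    (hX : X' ⊆ X) (hD : IsOr (res X H) D ∧ ¬ Packs [T] D X) :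
    IsOr (res X' H) (rr X' D) ∧ ¬ Packs [T] (rr X' D) X' := by
  refine ⟨isOr_rr hD.1 hX, fun h => hD.2 ?_⟩
  rw [packs_rr [T] D (Finset.Subset.refl X')] at h
  obtain ⟨Q, hQ, hc, -⟩ := h
  exact ⟨Q, hQ.trans hX, hc, trivial⟩

omit [Fintype V] in
/-- no path of length two in a `star 1 1`-free orientation -/
theorem no_path {H : SimpleGraph V} {X : Finset V} {D : V → V → Prop}
    (hD : IsOr (res X H) D ∧ ¬ Packs [.star 1 1] D X) {x c y : V} (h1 : D x c) (h2 : D c y) :
    False := by
  have hxy : x ≠ y := by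
    rintro rfl
    exact (isOr_mem hD.1 h1).2.2.2 h2
  apply hD.2
  refine packs_of hD.1 (by norm_num) c {x} {y} (Finset.disjoint_singleton.2 hxy) rfl rfl ?_ ?_
  · intro z hz
    rw [Finset.mem_singleton.1 hz]
    exact h1
  · intro z hz
    rw [Finset.mem_singleton.1 hz]
    exact h2

omit [Fintype V] in
theorem det_one {H : SimpleGraph V} {X X' : Finset V} {D : V → V → Prop} {u v : V}
    (hX' : ∀ x, x ∈ X' ↔ x ∈ X ∧ x ≠ u ∧ x ≠ v)
    (hD : IsOr (res X H) D ∧ ¬ Packs [.star 1 1] D X) (huv : D u v) (x y : V) :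
    D x y ↔ rr X' D x y ∨ (x = u ∧ H.Adj x y ∧ x ∈ X ∧ y ∈ X) ∨
      (y = v ∧ H.Adj x y ∧ x ∈ X ∧ y ∈ X) := by
  constructor
  · intro h
    have hm := isOr_mem hD.1 h
    by_cases hxu : x = u
    · exact Or.inr (Or.inl ⟨hxu, hm.2.2.1, hm.1, hm.2.1⟩)
    by_cases hyv : y = v
    · exact Or.inr (Or.inr ⟨hyv, hm.2.2.1, hm.1, hm.2.1⟩)
    left
    have hyu : y ≠ u := by
      rintro rfl
      exact no_path hD h huv
    have hxv : x ≠ v := by
      rintro rfl
      exact no_path hD huv h
    exact ⟨h, (hX' x).2 ⟨hm.1, hxu, hxv⟩, (hX' y).2 ⟨hm.2.1, hyu, hyv⟩⟩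
  · rintro (h | ⟨rfl, h1, h2, h3⟩ | ⟨rfl, h1, h2, h3⟩)
    · exact h.1
    · rcases isOr_adj hD.1 h2 h3 h1 with h4 | h4
      · exact h4
      · exact (no_path hD h4 huv).elim
    · rcases isOr_adj hD.1 h2 h3 h1 with h4 | h4
      · exact h4
      · exact (no_path hD huv h4).elim

theorem num_mid (n : ℕ) : ∀ (H : SimpleGraph V) (X : Finset V), X.card = n →
    (num [.star 1 1] H X : ℝ) ≤ (5 / 3) ^ n := by
  induction n using Nat.strong_induction_on with
  | _ n ih =>
  intro H X hX
  by_cases hE : ∃ u ∈ X, ∃ v ∈ X, H.Adj u v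
  · obtain ⟨u, hu, v, hv, huv⟩ := hE
    let X' : Finset V := (X.erase u).erase v
    have hX' : ∀ x, x ∈ X' ↔ x ∈ X ∧ x ≠ u ∧ x ≠ v := by
      intro x
      simp only [X', Finset.mem_erase]
      tauto
    have hX'' : ∀ x, x ∈ X' ↔ x ∈ X ∧ x ≠ v ∧ x ≠ u := by
      intro x
      rw [hX']
      tauto
    have hcard : X'.card + 2 = X.card := by
      have h1 : v ∈ X.erase u := Finset.mem_erase.2 ⟨huv.ne.symm, hv⟩
      have h2 := Finset.card_erase_add_one hu
      have h3 := Finset.card_erase_add_one h1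
      simp only [X']
      omega
    have hsub : X' ⊆ X := fun x hx => ((hX' x).1 hx).1
    have hle := fiber_le {D : V → V → Prop | IsOr (res X H) D ∧ ¬ Packs [.star 1 1] D X}
      {D : V → V → Prop | IsOr (res X' H) D ∧ ¬ Packs [.star 1 1] D X'} (rr X') 2
      (fun D hD => free_rr hsub hD) (by
        intro E _
        have h := inj_le {D : V → V → Prop |
          D ∈ {D : V → V → Prop | IsOr (res X H) D ∧ ¬ Packs [.star 1 1] D X} ∧ rr X' D = E}
          (Set.univ : Set Prop) (fun D => D u v) (fun _ _ => Set.mem_univ _) (by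
            rintro D₁ ⟨h1, h1'⟩ D₂ ⟨h2, h2'⟩ he
            by_cases hd : D₁ u v
            · have hd2 : D₂ u v := he ▸ hd
              funext x y
              apply propext
              rw [det_one hX' h1 hd x y, det_one hX' h2 hd2 x y, h1', h2']
            · have hd2 : ¬ D₂ u v := he ▸ hd
              have hv1 : D₁ v u := (isOr_adj h1.1 hu hv huv).resolve_left hd
              have hv2 : D₂ v u := (isOr_adj h2.1 hu hv huv).resolve_left hd2
              funext x y
              apply propext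
              rw [det_one hX'' h1 hv1 x y, det_one hX'' h2 hv2 x y, h1', h2'])
        have h2 : (Set.univ : Set Prop).ncard = 2 := by
          rw [Set.ncard_univ, Nat.card_eq_fintype_card, Fintype.card_prop]
        rwa [h2] at h)
    have h1 := ih X'.card (by omega) H X' rfl
    have h3 : (num [.star 1 1] H X : ℝ) ≤ 2 * (num [.star 1 1] H X' : ℝ) := by
      exact_mod_cast hle
    have h4 : (5 / 3 : ℝ) ^ n = (5 / 3) ^ X'.card * (25 / 9) := by
      rw [← hX, ← hcard, pow_add]
      norm_num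
    rw [h4]
    have h5 : (0 : ℝ) < (5 / 3) ^ X'.card := by positivity
    nlinarith
  · push Not at hE
    have h1 : num [.star 1 1] H X ≤ 1 := by
      unfold num
      rw [Set.ncard_le_one (Set.toFinite _)]
      rintro D₁ ⟨h1, -⟩ D₂ ⟨h2, -⟩
      funext x y
      apply propext
      constructor
      · intro h
        have := isOr_mem h1 h
        exact absurd this.2.2.1 (hE x this.1 y this.2.1)
      · intro h
        have := isOr_mem h2 h
        exact absurd this.2.2.1 (hE x this.1 y this.2.1)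
    calc (num [.star 1 1] H X : ℝ) ≤ 1 := by exact_mod_cast h1
      _ ≤ (5 / 3) ^ n := one_le_pow₀ (by norm_num)

omit [Fintype V] in
theorem det_src {H : SimpleGraph V} {X T : Finset V} {D : V → V → Prop}
    (hT : ∀ x, x ∈ T ↔ x ∈ X ∧ ∀ u, ¬ D u x)
    (hD : IsOr (res X H) D) (x y : V) :
    D x y ↔ rr (X \ T) D x y ∨ (x ∈ T ∧ H.Adj x y ∧ y ∈ X) := by
  constructor
  · intro h
    have hm := isOr_mem hD h
    by_cases hx : x ∈ T
    · exact Or.inr ⟨hx, hm.2.2.1, hm.2.1⟩
    · have hy : y ∉ T := fun hy => ((hT y).1 hy).2 x h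
      exact Or.inl ⟨h, Finset.mem_sdiff.2 ⟨hm.1, hx⟩, Finset.mem_sdiff.2 ⟨hm.2.1, hy⟩⟩
  · rintro (h | ⟨h1, h2, h3⟩)
    · exact h.1
    · rcases isOr_adj hD ((hT x).1 h1).1 h3 h2 with h4 | h4
      · exact h4
      · exact (((hT x).1 h1).2 y h4).elim

theorem num_onetwo (H : SimpleGraph V) (X : Finset V) :
    (num [.star 1 2] H X : ℝ) ≤ (16 / 5) ^ X.card := by
  classical
  let S : Set (V → V → Prop) := {D | IsOr (res X H) D ∧ ¬ Packs [.star 1 2] D X}
  let s : Finset (V → V → Prop) := (Set.toFinite S).toFinset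
  let f : (V → V → Prop) → Finset V := fun D => X.filter fun v => ∀ u, ¬ D u v
  have hmaps : ∀ D ∈ s, f D ∈ X.powerset := fun D _ =>
    Finset.mem_powerset.2 (Finset.filter_subset _ _)
  have hcard : s.card = ∑ T ∈ X.powerset, (s.filter fun D => f D = T).card :=
    Finset.card_eq_sum_card_fiberwise hmaps
  have hfib : ∀ T ∈ X.powerset, ((s.filter fun D => f D = T).card : ℝ) ≤
      1 ^ T.card * (5 / 3) ^ (X.card - T.card) := by
    intro T hT
    rw [Finset.mem_powerset] at hT
    have h1 := cap_bound H (X \ T) (fun _ => 1) (fun _ => by norm_num)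
    rw [Finset.prod_const, Finset.card_sdiff_of_subset hT] at h1
    rw [one_pow, one_mul]
    refine le_trans ?_ h1
    norm_cast
    rw [← Set.ncard_coe_finset]
    refine inj_le _ _ (rr (X \ T)) ?_ ?_
    · intro D hD
      rw [Finset.mem_coe, Finset.mem_filter, Set.Finite.mem_toFinset] at hD
      obtain ⟨hD, hT'⟩ := hD
      refine ⟨isOr_rr hD.1 Finset.sdiff_subset, fun v hv => ?_⟩
      rw [odeg_rr D (Finset.Subset.refl _) hv]
      by_contra hc
      push Not at hc
      rw [Finset.mem_sdiff] at hv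
      have hin : ∃ u, D u v := by
        by_contra hn
        push Not at hn
        apply hv.2
        rw [← hT']
        exact Finset.mem_filter.2 ⟨hv.1, hn⟩
      obtain ⟨u, hu⟩ := hin
      have h2 : 2 ≤ ((Set.toFinite {u | u ∈ X \ T ∧ D v u}).toFinset).card := by
        rw [← Set.ncard_eq_toFinset_card]
        exact hc
      obtain ⟨O, hO, hO'⟩ := Finset.exists_subset_card_eq h2
      have hOD : ∀ x ∈ O, D v x := by
        intro x hx
        have := hO hx
        rw [Set.Finite.mem_toFinset] at this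
        exact this.2
      apply hD.2
      refine packs_of hD.1 (by norm_num) v {u} O ?_ rfl hO' ?_ hOD
      · rw [Finset.disjoint_singleton_left]
        intro hu2
        exact (isOr_mem hD.1 hu).2.2.2 (hOD u hu2)
      · intro z hz
        rw [Finset.mem_singleton.1 hz]
        exact hu
    · intro D₁ hD₁ D₂ hD₂ he
      rw [Finset.mem_coe, Finset.mem_filter, Set.Finite.mem_toFinset] at hD₁ hD₂
      have ht1 : ∀ x, x ∈ T ↔ x ∈ X ∧ ∀ u, ¬ D₁ u x := by
        intro x
        rw [← hD₁.2]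
        exact Finset.mem_filter
      have ht2 : ∀ x, x ∈ T ↔ x ∈ X ∧ ∀ u, ¬ D₂ u x := by
        intro x
        rw [← hD₂.2]
        exact Finset.mem_filter
      funext x y
      apply propext
      rw [det_src ht1 hD₁.1.1 x y, det_src ht2 hD₂.1.1 x y, he]
  have hnum : num [.star 1 2] H X = s.card := Set.ncard_eq_toFinset_card S (Set.toFinite S)
  rw [hnum, hcard, Nat.cast_sum]
  refine (Finset.sum_le_sum hfib).trans ?_
  rw [Finset.sum_pow_mul_eq_add_pow]
  exact pow_le_pow_left₀ (by norm_num) (by norm_num) _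

theorem num_twoone (H : SimpleGraph V) (X : Finset V) :
    (num [.star 2 1] H X : ℝ) ≤ (16 / 5) ^ X.card := by
  have h := num_rev [.star 1 2] H X
  have h2 : ([.star 1 2] : List Shape).map Shape.rev = [.star 2 1] := rfl
  rw [h2] at h
  rw [h]
  exact num_onetwo H X

end GrSt

theorem num_star_one (i o : ℕ) (h : i + o = 1) (H : SimpleGraph V) (X : Finset V) :
    (num [.star i o] H X : ℝ) ≤ 1 ^ X.card := by
  have : (i = 0 ∧ o = 1) ∨ (i = 1 ∧ o = 0) := by omega
  rcases this with ⟨rfl, rfl⟩ | ⟨rfl, rfl⟩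
  · exact GrSt.num_out 0 (by norm_num) H X
  · exact GrSt.num_in 0 (by norm_num) H X

theorem num_star_two (i o : ℕ) (h : i + o = 2) (H : SimpleGraph V) (X : Finset V) :
    (num [.star i o] H X : ℝ) ≤ (5 / 3) ^ X.card := by
  have : (i = 0 ∧ o = 2) ∨ (i = 2 ∧ o = 0) ∨ (i = 1 ∧ o = 1) := by omega
  rcases this with ⟨rfl, rfl⟩ | ⟨rfl, rfl⟩ | ⟨rfl, rfl⟩
  · exact GrSt.num_out 1 (by norm_num) H X
  · exact GrSt.num_in 1 (by norm_num) H X
  · exact GrSt.num_mid X.card H X rfl

theorem num_star_three (i o : ℕ) (h : i + o = 3) (H : SimpleGraph V) (X : Finset V) :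
    (num [.star i o] H X : ℝ) ≤ (16 / 5) ^ X.card := by
  have : (i = 0 ∧ o = 3) ∨ (i = 3 ∧ o = 0) ∨ (i = 1 ∧ o = 2) ∨ (i = 2 ∧ o = 1) := by omega
  rcases this with ⟨rfl, rfl⟩ | ⟨rfl, rfl⟩ | ⟨rfl, rfl⟩ | ⟨rfl, rfl⟩
  · exact GrSt.num_out 2 (by norm_num) H X
  · exact GrSt.num_in 2 (by norm_num) H X
  · exact GrSt.num_onetwo H X
  · exact GrSt.num_twoone H X

end MP_0a9719_co
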