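import Pool.Agent.Lib.MP_0a9719_co.Cap

/-! MP_0a9719_co, module GrX: auxiliary lemmas for GrA, GrB, GrC. -/

namespace MP_0a9719_co

theorem grx_packs_one {V : Type*} [DecidableEq V] (T : Shape) (D : V → V → Prop) (X : Finset V) :
    Packs [T] D X ↔ ∃ Q : Finset V, Q ⊆ X ∧ IsCopy T D Q := by
  simp [Packs]

/-- If every `D` in the set is determined by `M D ⊆ X`, `S D ⊆ X \ M D` and `rr (M D) D`, and
the latter has in-degrees at most one then there are at most `(11/3)^|X|` elements. -/
theorem grx_bound {V : Type*} [Fintype V] [DecidableEq V] (H : SimpleGraph V) (X : Finset V)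
    (A : Set (V → V → Prop)) (fM fS : (V → V → Prop) → Finset V)
    (h1 : ∀ D ∈ A, fM D ⊆ X) (h2 : ∀ D ∈ A, fS D ⊆ X \ fM D)
    (h3 : ∀ D ∈ A, IsOr (res (fM D) H) (rr (fM D) D) ∧
      ∀ v ∈ fM D, ideg (rr (fM D) D) (fM D) v ≤ 1)
    (hinj : ∀ D ∈ A, ∀ D' ∈ A, fM D = fM D' → fS D = fS D' → rr (fM D) D = rr (fM D) D' →
      D = D') : (A.ncard : ℝ) ≤ (11 / 3) ^ X.card := by
  classical
  have hA : A.Finite := Set.toFinite A
  set s : Finset (V → V → Prop) := hA.toFinset with hs
  have hmem : ∀ D, D ∈ s ↔ D ∈ A := fun D => hA.mem_toFinset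
  have hcard : A.ncard = s.card := Set.ncard_eq_toFinset_card A hA
  have e1 : s.card = ∑ M ∈ X.powerset, (s.filter fun D => fM D = M).card :=
    Finset.card_eq_sum_card_fiberwise fun D hD => by
      simp only [Finset.coe_powerset, Set.mem_preimage, Set.mem_powerset_iff, Finset.coe_subset]
      exact h1 D ((hmem D).mp hD)
  have e2 : ∀ M ∈ X.powerset, ((s.filter fun D => fM D = M).card : ℝ) ≤
      (5 / 3 : ℝ) ^ M.card * 2 ^ (X.card - M.card) := by
    intro M hM
    rw [Finset.mem_powerset] at hM
    have e3 : (s.filter fun D => fM D = M).card = ∑ S ∈ (X \ M).powerset,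
        ((s.filter fun D => fM D = M).filter fun D => fS D = S).card :=
      Finset.card_eq_sum_card_fiberwise fun D hD => by
        simp only [Finset.coe_filter, Set.mem_ofPred_eq] at hD
        simp only [Finset.coe_powerset, Set.mem_preimage, Set.mem_powerset_iff, Finset.coe_subset]
        have := h2 D ((hmem D).mp hD.1)
        rwa [hD.2] at this
    have e4 : ∀ S ∈ (X \ M).powerset,
        (((s.filter fun D => fM D = M).filter fun D => fS D = S).card : ℝ) ≤
          (5 / 3 : ℝ) ^ M.card := by
      intro S _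
      have h4 : (((s.filter fun D => fM D = M).filter fun D => fS D = S).card) ≤
          {E : V → V → Prop | IsOr (res M H) E ∧ ∀ v ∈ M, ideg E M v ≤ 1}.ncard := by
        rw [← Set.ncard_coe_finset]
        apply inj_le _ _ (fun D => rr M D)
        · intro D hD
          simp only [Finset.coe_filter, Finset.mem_filter, Set.mem_ofPred_eq] at hD
          have h5 := h3 D ((hmem D).mp hD.1.1)
          rw [hD.1.2] at h5
          exact h5
        · intro D hD D' hD' he
          simp only [Finset.coe_filter, Finset.mem_filter, Set.mem_ofPred_eq] at hD hD'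
          refine hinj D ((hmem D).mp hD.1.1) D' ((hmem D').mp hD'.1.1)
            (hD.1.2.trans hD'.1.2.symm) (hD.2.trans hD'.2.symm) ?_
          rw [hD.1.2]
          exact he
      calc (((s.filter fun D => fM D = M).filter fun D => fS D = S).card : ℝ) ≤
          ({E : V → V → Prop | IsOr (res M H) E ∧ ∀ v ∈ M, ideg E M v ≤ 1}.ncard : ℝ) := by
            exact_mod_cast h4
        _ ≤ _ := ideg_one_bound H M
    rw [e3]
    push_cast
    calc _ ≤ ∑ S ∈ (X \ M).powerset, (5 / 3 : ℝ) ^ M.card := Finset.sum_le_sum e4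
      _ = (5 / 3 : ℝ) ^ M.card * 2 ^ (X.card - M.card) := by
        rw [Finset.sum_const, Finset.card_powerset, Finset.card_sdiff_of_subset hM,
          nsmul_eq_mul]
        push_cast
        ring
  rw [hcard, e1]
  push_cast
  calc _ ≤ ∑ M ∈ X.powerset, (5 / 3 : ℝ) ^ M.card * 2 ^ (X.card - M.card) :=
        Finset.sum_le_sum e2
    _ = (5 / 3 + 2 : ℝ) ^ X.card := Finset.sum_pow_mul_eq_add_pow _ _ _
    _ = (11 / 3) ^ X.card := by norm_num

end MP_0a9719_co
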