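import Pool.Agent.Lib.MP_0a9719_co.Work
import Pool.Agent.Lib.MP_0a9719_co.FibOr
import Pool.Agent.Lib.MP_0a9719_co.Cover

/-! MP_0a9719_co, module Gs: the join of `K_s` with an independent set.

`gs s n`: vertices `Fin n`, `u ≠ v` adjacent iff one of them is `< s`. Number of edges for
`s ≤ n`: `s.choose 2 + s (n - s)`. E.g. by induction on `s`, or: remove the vertices `0, ..., s-1`
one after the other (`eX_erase`), or count the pairs `(u, v)` with `u < v`, `u < s`:
`∑_{u < s} (n - 1 - u)`. -/

namespace MP_0a9719_co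

/-- `K_s` joined to an independent set, `n` vertices. -/
def gs (s n : ℕ) : SimpleGraph (Fin n) where
  Adj u v := u ≠ v ∧ (u.val < s ∨ v.val < s)
  symm := ⟨fun _ _ h => ⟨h.1.symm, h.2.symm⟩⟩
  loopless := ⟨fun _ h => h.1 rfl⟩

private theorem Gs_aux {V : Type*} [Fintype V] [DecidableEq V] (H : SimpleGraph V) (s : ℕ) :
    ∀ (X Y : Finset V), Y ⊆ X → Y.card = s →
      (∀ u ∈ X, ∀ v ∈ X, H.Adj u v ↔ u ≠ v ∧ (u ∈ Y ∨ v ∈ Y)) → eX H X = ext s X.card := by
  induction s with
  | zero =>
    intro X Y hY hc hadj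
    have hY0 : Y = ∅ := Finset.card_eq_zero.1 hc
    subst hY0
    unfold eX ext
    have h1 : res X H = ⊥ := by
      ext u v
      simp only [res, SimpleGraph.bot_adj, iff_false]
      rintro ⟨h1, h2, h3⟩
      have h4 := (hadj u h2 v h3).1 h1
      simp at h4
    rw [h1, SimpleGraph.edgeSet_bot, Set.ncard_empty]
    simp
  | succ s ih =>
    intro X Y hY hc hadj
    obtain ⟨v, hv⟩ : Y.Nonempty := by
      rw [← Finset.card_pos, hc]
      exact Nat.succ_pos s
    have hvX := hY hv
    have hcard : (X.erase v).card = X.card - 1 := Finset.card_erase_of_mem hvX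
    have hYc : (Y.erase v).card = s := by
      rw [Finset.card_erase_of_mem hv, hc]
      rfl
    have hXY : Y.card ≤ X.card := Finset.card_le_card hY
    have h1 := ih (X.erase v) (Y.erase v) (Finset.erase_subset_erase v hY) hYc (by
      intro u hu w hw
      rw [Finset.mem_erase] at hu hw
      rw [hadj u hu.2 w hw.2, Finset.mem_erase, Finset.mem_erase]
      refine and_congr_right fun _ => or_congr ?_ ?_
      · exact ⟨fun h => ⟨hu.1, h⟩, fun h => h.2⟩
      · exact ⟨fun h => ⟨hw.1, h⟩, fun h => h.2⟩)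
    have h2 : deg H X v = X.card - 1 := by
      have h3 : {u | u ∈ X ∧ H.Adj v u} = ((X.erase v : Finset V) : Set V) := by
        ext u
        rw [Finset.mem_coe, Finset.mem_erase]
        constructor
        · rintro ⟨h4, h5⟩
          exact ⟨((hadj v hvX u h4).1 h5).1.symm, h4⟩
        · rintro ⟨h4, h5⟩
          exact ⟨h5, (hadj v hvX u h5).2 ⟨h4.symm, Or.inl hv⟩⟩
      unfold deg
      rw [h3, Set.ncard_coe_finset, hcard]
    rw [eX_erase H hvX, h2, h1, hcard]
    have h3 := ext_succ s (X.card - 1) (by omega)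
    have h4 : X.card - 1 + 1 = X.card := by omega
    rw [h4] at h3
    omega

theorem gs_edges (s n : ℕ) (h : s ≤ n) : (gs s n).edgeSet.ncard = ext s n := by
  have h1 := Gs_aux (gs s n) s Finset.univ (Finset.univ.filter fun u : Fin n => u.val < s)
    (Finset.subset_univ _) (by
      have h2 : (Finset.univ.filter fun u : Fin n => u.val < s) =
          Finset.univ.map (Fin.castLEEmb h) := by
        ext u
        rw [Finset.mem_filter, Finset.mem_map]
        constructor
        · rintro ⟨-, h3⟩
          exact ⟨⟨u.val, h3⟩, Finset.mem_univ _, Fin.ext rfl⟩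
        · rintro ⟨v, -, rfl⟩
          exact ⟨Finset.mem_univ _, v.2⟩
      rw [h2, Finset.card_map, Finset.card_univ, Fintype.card_fin]) (by
      intro u _ v _
      rw [Finset.mem_filter, Finset.mem_filter]
      refine ⟨fun h3 => ⟨h3.1, h3.2.imp (fun h => ⟨Finset.mem_univ _, h⟩)
        (fun h => ⟨Finset.mem_univ _, h⟩)⟩, fun h3 => ⟨h3.1, h3.2.imp (fun h => h.2)
        (fun h => h.2)⟩⟩)
  rw [Finset.card_univ, Fintype.card_fin] at h1
  rw [← h1]
  unfold eX
  congr 2
  ext u v
  simp [res]

end MP_0a9719_co
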