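import Pool.Agent.Lib.MP_0a9719_co.Cnt
import Pool.Agent.Lib.MP_0a9719_co.Fib

/-! MP_0a9719_co, module Join: hubs joined to a lower graph, disjoint copies.

`hub_free`: otherwise choose `u i ∈ P i` with `f (u i) = Sum.inl (h i)`; `i ↦ h i` is injective
(`f` injective, the `P i` disjoint), impossible from `Fin (j+1)` to `Fin j`.
`join_count`: for `E ∈ G` the orientations `D` of `joinG j Q` with `D (inr a) (inr b) ↔ E a b` are
in bijection with the orientations of the graph with the other edges (inside `Fin j`: `j.choose 2`,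
between: `j * |Λ|`), so there are `2^(j.choose 2 + j |Λ|)` of them, all `A`-free; different `E` give
disjoint sets. (Injection into the set of `numFree`: `(E, S, T) ↦ D` with `S : Set of pairs u < v in
Fin j`, `T : Set (Fin j × Λ)`; the number of the sets `S` of pairs `u < v` is `2 ^ (j.choose 2)`, e.g.
`ncard_or` for `⊤ : SimpleGraph (Fin j)` with `SimpleGraph.card_edgeFinset_top_eq_card_choose_two`.)
`copies_count`, `sum_count`: `(E_i) ↦ E`, `E (i,a) (i',b) ↔ i = i' ∧ E_i a b`, injective;
`|G0|^r` functions `Fin r → G0`. -/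

namespace MP_0a9719_co

/-- `K_j` joined to the graph `Q`. -/
def joinG {Λ : Type*} (j : ℕ) (Q : SimpleGraph Λ) : SimpleGraph (Fin j ⊕ Λ) where
  Adj x y := match x, y with
    | Sum.inl a, Sum.inl b => a ≠ b
    | Sum.inl _, Sum.inr _ => True
    | Sum.inr _, Sum.inl _ => True
    | Sum.inr a, Sum.inr b => Q.Adj a b
  symm := ⟨fun x y h => by
    rcases x with a | a <;> rcases y with b | b
    · exact fun hab => h hab.symm
    · trivial
    · trivial
    · exact Q.symm.symm _ _ h⟩
  loopless := ⟨fun x h => by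
    rcases x with a | a
    · exact h rfl
    · exact Q.loopless.irrefl _ h⟩

/-- disjoint copies of `Q₀`. -/
def copies (r : ℕ) {q : ℕ} (Q₀ : SimpleGraph (Fin q)) : SimpleGraph (Fin r × Fin q) where
  Adj x y := x.1 = y.1 ∧ Q₀.Adj x.2 y.2
  symm := ⟨fun _ _ h => ⟨h.1.symm, h.2.symm⟩⟩
  loopless := ⟨fun _ h => Q₀.loopless.irrefl _ h.2⟩

/-- disjoint union. -/
def sumG {Λ M : Type*} (Q₁ : SimpleGraph Λ) (Q₂ : SimpleGraph M) : SimpleGraph (Λ ⊕ M) where
  Adj x y := match x, y with
    | Sum.inl a, Sum.inl b => Q₁.Adj a b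
    | Sum.inr a, Sum.inr b => Q₂.Adj a b
    | _, _ => False
  symm := ⟨fun x y h => by
    rcases x with a | a <;> rcases y with b | b
    · exact Q₁.symm.symm _ _ h
    · exact h.elim
    · exact h.elim
    · exact Q₂.symm.symm _ _ h⟩
  loopless := ⟨fun x h => by
    rcases x with a | a
    · exact Q₁.loopless.irrefl _ h
    · exact Q₂.loopless.irrefl _ h⟩

theorem hub_free {W Λ : Type*} (j : ℕ) (P : Fin (j + 1) → Set W)
    (hP : ∀ i i', i ≠ i' → Disjoint (P i) (P i')) (f : W → Fin j ⊕ Λ)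
    (hf : Function.Injective f) : ∃ i, ∀ u ∈ P i, ∃ x, f u = Sum.inr x := by
  by_contra hc
  push Not at hc
  choose u hu hx using hc
  have h1 : ∀ i, ∃ a, f (u i) = Sum.inl a := by
    intro i
    rcases h : f (u i) with a | x
    · exact ⟨a, rfl⟩
    · exact absurd h (hx i x)
  choose g hg using h1
  have hinj : Function.Injective g := by
    intro i i' hii
    by_contra hne
    have h2 : f (u i) = f (u i') := by rw [hg, hg, hii]
    have h3 := hf h2
    have h4 := hu i
    rw [h3] at h4
    exact Set.disjoint_left.mp (hP i i' hne) h4 (hu i')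
  have := Fintype.card_le_of_injective g hinj
  simp at this

theorem join_count {Λ W : Type*} [Fintype Λ] (j : ℕ) (Q : SimpleGraph Λ)
    (A : W → W → Prop) (G : Set (Λ → Λ → Prop)) (hG : ∀ E ∈ G, IsOr Q E)
    (hfree : ∀ E ∈ G, ∀ D : Fin j ⊕ Λ → Fin j ⊕ Λ → Prop, IsOr (joinG j Q) D →
      (∀ a b, D (Sum.inr a) (Sum.inr b) ↔ E a b) → ¬ Contains A D) :
    2 ^ (j.choose 2 + j * Fintype.card Λ) * G.ncard ≤ numFree A (joinG j Q) := by
  classical
  have hT : {D : Fin j → Fin j → Prop | IsOr (⊤ : SimpleGraph (Fin j)) D}.ncard =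
      2 ^ (j.choose 2) := by
    rw [ncard_or]
    congr 1
    have h := SimpleGraph.card_edgeFinset_top_eq_card_choose_two (V := Fin j)
    rw [Fintype.card_fin] at h
    rw [← h, ← SimpleGraph.coe_edgeFinset, Set.ncard_coe_finset]
  have hS : (Set.univ : Set (Set (Fin j × Λ))).ncard = 2 ^ (j * Fintype.card Λ) := by
    rw [Set.ncard_univ, Nat.card_eq_fintype_card, Fintype.card_set, Fintype.card_prod,
      Fintype.card_fin]
  have key : ({D : Fin j → Fin j → Prop | IsOr (⊤ : SimpleGraph (Fin j)) D} ×ˢ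
      ((Set.univ : Set (Set (Fin j × Λ))) ×ˢ G)).ncard ≤ numFree A (joinG j Q) := by
    unfold numFree
    refine Set.ncard_le_ncard_of_injOn
      (fun t : (Fin j → Fin j → Prop) × (Set (Fin j × Λ)) × (Λ → Λ → Prop) =>
        (fun x y : Fin j ⊕ Λ => match x, y with
          | Sum.inl a, Sum.inl b => t.1 a b
          | Sum.inl a, Sum.inr x => (a, x) ∈ t.2.1
          | Sum.inr x, Sum.inl a => (a, x) ∉ t.2.1
          | Sum.inr x, Sum.inr y => t.2.2 x y)) ?_ ?_ (Set.toFinite _)
    · rintro ⟨D, S, E⟩ ⟨hD, -, hE⟩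
      have hor : IsOr (joinG j Q) (fun x y : Fin j ⊕ Λ => match x, y with
          | Sum.inl a, Sum.inl b => D a b
          | Sum.inl a, Sum.inr x => (a, x) ∈ S
          | Sum.inr x, Sum.inl a => (a, x) ∉ S
          | Sum.inr x, Sum.inr y => E x y) := by
        intro x y
        rcases x with a | x <;> rcases y with b | y
        · have := hD a b
          simpa [joinG] using this
        · constructor
          · show True ↔ _
            by_cases h : (a, y) ∈ S <;> simp [h]
          · rintro ⟨h1, h2⟩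
            exact h2 h1
        · constructor
          · show True ↔ _
            by_cases h : (b, x) ∈ S <;> simp [h]
          · rintro ⟨h1, h2⟩
            exact h1 h2
        · exact hG E hE x y
      exact ⟨hor, hfree E hE _ hor (fun a b => Iff.rfl)⟩
    · rintro ⟨D, S, E⟩ - ⟨D', S', E'⟩ - h
      have h' := fun x y => congrFun (congrFun h x) y
      have h1 : D = D' := by
        funext a b
        exact h' (Sum.inl a) (Sum.inl b)
      have h2 : S = S' := by
        ext ⟨a, x⟩
        exact iff_of_eq (h' (Sum.inl a) (Sum.inr x))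
      have h3 : E = E' := by
        funext a b
        exact h' (Sum.inr a) (Sum.inr b)
      rw [h1, h2, h3]
  rw [Set.ncard_prod, Set.ncard_prod, hT, hS] at key
  calc _ = 2 ^ j.choose 2 * (2 ^ (j * Fintype.card Λ) * G.ncard) := by rw [pow_add]; ring
    _ ≤ _ := key

theorem copies_count (r q : ℕ) (Q₀ : SimpleGraph (Fin q)) (G₀ : Set (Fin q → Fin q → Prop))
    (h : ∀ E ∈ G₀, IsOr Q₀ E) :
    G₀.ncard ^ r ≤ {E : Fin r × Fin q → Fin r × Fin q → Prop | IsOr (copies r Q₀) E ∧
      ∀ i, (fun a b => E (i, a) (i, b)) ∈ G₀}.ncard := by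
  classical
  rw [← Nat.card_coe_set_eq, ← Nat.card_coe_set_eq]
  have h1 : Nat.card (Fin r → G₀) = Nat.card G₀ ^ r := by
    rw [Nat.card_fun, Nat.card_eq_fintype_card (α := Fin r), Fintype.card_fin]
  rw [← h1]
  refine Nat.card_le_card_of_injective
    (fun F : Fin r → G₀ => (⟨fun x y => x.1 = y.1 ∧ (F x.1).1 x.2 y.2, ?_, ?_⟩ :
      {E : Fin r × Fin q → Fin r × Fin q → Prop | IsOr (copies r Q₀) E ∧
      ∀ i, (fun a b => E (i, a) (i, b)) ∈ G₀})) ?_
  · rintro ⟨i, a⟩ ⟨i', b⟩
    by_cases hi : i = i'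
    · subst hi
      have := h (F i).1 (F i).2 a b
      simpa [copies] using this
    · have hi' : ¬ i' = i := fun h => hi h.symm
      simp [copies, hi, hi']
  · intro i
    have : (fun a b => (i = i) ∧ (F i).1 a b) = (F i).1 := by
      funext a b
      simp
    show (fun a b => (i = i) ∧ (F i).1 a b) ∈ G₀
    rw [this]
    exact (F i).2
  · intro F F' hF
    funext i
    apply Subtype.ext
    funext a b
    have h2 := congrFun (congrFun (Subtype.ext_iff.mp hF) (i, a)) (i, b)
    simpa using h2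

theorem sum_count {Λ M : Type*} [Finite Λ] [Finite M] (Q₁ : SimpleGraph Λ)
    (Q₂ : SimpleGraph M) (G₁ : Set (Λ → Λ → Prop)) (G₂ : Set (M → M → Prop))
    (h₁ : ∀ E ∈ G₁, IsOr Q₁ E) (h₂ : ∀ E ∈ G₂, IsOr Q₂ E) :
    G₁.ncard * G₂.ncard ≤ {E : Λ ⊕ M → Λ ⊕ M → Prop | IsOr (sumG Q₁ Q₂) E ∧
      (fun a b => E (Sum.inl a) (Sum.inl b)) ∈ G₁ ∧
      (fun a b => E (Sum.inr a) (Sum.inr b)) ∈ G₂}.ncard := by
  classical
  rw [← Set.ncard_prod]
  refine Set.ncard_le_ncard_of_injOn
      (fun t : (Λ → Λ → Prop) × (M → M → Prop) =>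
        (fun x y : Λ ⊕ M => match x, y with
          | Sum.inl a, Sum.inl b => t.1 a b
          | Sum.inr x, Sum.inr y => t.2 x y
          | _, _ => False)) ?_ ?_ (Set.toFinite _)
  · rintro ⟨D, E⟩ ⟨hD, hE⟩
    refine ⟨?_, hD, hE⟩
    intro x y
    rcases x with a | x <;> rcases y with b | y
    · exact h₁ D hD a b
    · simp [sumG]
    · simp [sumG]
    · exact h₂ E hE x y
  · rintro ⟨D, E⟩ - ⟨D', E'⟩ - h
    have h' := fun x y => congrFun (congrFun h x) y
    have h1 : D = D' := by
      funext a b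
      exact h' (Sum.inl a) (Sum.inl b)
    have h3 : E = E' := by
      funext a b
      exact h' (Sum.inr a) (Sum.inr b)
    rw [h1, h3]

end MP_0a9719_co
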