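import Pool.Agent.Lib.MP_0a9719_co.Desc
import Pool.Agent.Lib.MP_0a9719_co.Pack

/-! MP_0a9719_co, module Link: from forests with small components to lists of shapes.

Let `cs` be a duplicate-free list of the components with at least two vertices (the set of
components is finite), `sh c` the shape of `c` from `exists_desc` (choice), `L = cs.map sh`.
Counts: `L.countP isT` is the number of `c` in `cs` with the property of `smallPairs` (components with
`ncard = 2` or `4` are in `cs`), etc. `F.edgeSet.ncard = 1`: the only component with at least two vertices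
contains the only edge and has two vertices (a component with at least three vertices has at least two
edges: connected): `L = [sh c]` and `(sh c).isT = true`, not a `p4`, so `sh c = star i o`, `i + o = 1`.
`Contains A D → Packs L D univ`: by induction on the list: for an injective `f` with
`A u v → D (f u) (f v)` and `X ⊇ f '' c.supp` for all `c ∈ cs'`: `Packs (cs'.map sh) D X` (the copy of
the first component is `f '' c.supp`, disjoint from the images of the others).
Conversely, by induction on the list: `Packs (cs'.map sh) D X` gives `f : W → V`, injective on the union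
`S` of the supports, mapping `S` into `X`, with `A u v → D (f u) (f v)` for `u, v ∈ S` (an arc of
`A` joins vertices of the same component; combine the maps of the first component and of the rest by
if-then-else). For `cs' = cs`, `X = univ`: the vertices outside `S` are isolated (components
with one vertex); extend `f` injectively to them: `Wᶜ`-part has
`|W| - |S| ≤ |V| - |f '' S|` elements. -/

namespace MP_0a9719_co

private theorem Link_count {α : Type*} (l : List α) (hl : l.Nodup) (p : α → Bool)
    (q : α → Prop) (h : ∀ a, (a ∈ l ∧ p a = true) ↔ q a) : l.countP p = {a | q a}.ncard := by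
  classical
  have h1 : {a | q a} = ((l.filter p).toFinset : Set α) := by
    ext a
    simp only [Set.mem_ofPred_eq, List.coe_toFinset, List.mem_filter]
    exact (h a).symm
  rw [h1, Set.ncard_coe_finset, List.toFinset_card_of_nodup (hl.filter p),
    List.countP_eq_length_filter]

private theorem Link_fwd {W : Type*} [Fintype W] (F : SimpleGraph W) (A : W → W → Prop)
    (sh : F.ConnectedComponent → Shape) (V : Type) [Fintype V] [DecidableEq V]
    (D : V → V → Prop) (f : W → V) (hf : Function.Injective f)
    (hfA : ∀ u v, A u v → D (f u) (f v)) (l : List F.ConnectedComponent) (hl : l.Nodup)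
    (hd : ∀ c ∈ l, Desc A c.supp (sh c)) :
    ∀ X : Finset V, (∀ c ∈ l, ∀ w ∈ c.supp, f w ∈ X) → Packs (l.map sh) D X := by
  classical
  induction l with
  | nil => intro X _; trivial
  | cons c l ih =>
    intro X hX
    rw [List.nodup_cons] at hl
    have hcQ : ((Set.toFinite (f '' c.supp)).toFinset : Set V) = f '' c.supp :=
      Set.Finite.coe_toFinset _
    have hmQ : ∀ x, x ∈ (Set.toFinite (f '' c.supp)).toFinset ↔ ∃ w ∈ c.supp, f w = x := by
      intro x
      rw [Set.Finite.mem_toFinset]
      exact Iff.rfl
    refine ⟨(Set.toFinite (f '' c.supp)).toFinset, ?_, ?_, ?_⟩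
    · intro x hx
      obtain ⟨w, hw, rfl⟩ := (hmQ x).1 hx
      exact hX c List.mem_cons_self w hw
    · exact (hd c List.mem_cons_self V D _).2 ⟨f, hf.injOn, hcQ.symm,
        fun u _ v _ h => hfA u v h⟩
    · refine ih hl.2 (fun c' hc' => hd c' (List.mem_cons_of_mem _ hc')) _ ?_
      intro c' hc' w hw
      refine Finset.mem_sdiff.2 ⟨hX c' (List.mem_cons_of_mem _ hc') w hw, ?_⟩
      intro h
      obtain ⟨w', hw', h1⟩ := (hmQ _).1 h
      have h2 : w' = w := hf h1
      rw [SimpleGraph.ConnectedComponent.mem_supp_iff] at hw hw'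
      rw [h2, hw] at hw'
      rw [hw'] at hc'
      exact hl.1 hc'

private theorem Link_bwd {W : Type*} [Fintype W] (F : SimpleGraph W) (A : W → W → Prop)
    (hA : IsOr F A) (sh : F.ConnectedComponent → Shape) (V : Type) [Fintype V] [DecidableEq V]
    (D : V → V → Prop) (g₀ : W → V) (l : List F.ConnectedComponent) (hl : l.Nodup)
    (hd : ∀ c ∈ l, Desc A c.supp (sh c)) :
    ∀ X : Finset V, Packs (l.map sh) D X →
      ∃ f : W → V, Set.InjOn f {w | F.connectedComponentMk w ∈ l} ∧
        (∀ w, F.connectedComponentMk w ∈ l → f w ∈ X) ∧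
        ∀ u v, F.connectedComponentMk u ∈ l → A u v → D (f u) (f v) := by
  classical
  induction l with
  | nil =>
    intro X _
    refine ⟨g₀, ?_, ?_, ?_⟩
    · intro w hw
      exact absurd hw List.not_mem_nil
    · intro w hw
      exact absurd hw List.not_mem_nil
    · intro u v hu
      exact absurd hu List.not_mem_nil
  | cons c l ih =>
    rintro X ⟨Q, hQX, hcopy, hp⟩
    rw [List.nodup_cons] at hl
    obtain ⟨f₁, hf₁, hf₁Q, hf₁A⟩ := (hd c List.mem_cons_self V D Q).1 hcopy
    obtain ⟨f₂, hf₂, hf₂X, hf₂A⟩ := ih hl.2 (fun c' hc' => hd c' (List.mem_cons_of_mem _ hc'))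
      _ hp
    have hQ1 : ∀ w, F.connectedComponentMk w = c → f₁ w ∈ Q := by
      intro w hw
      have h1 : f₁ w ∈ (Q : Set V) := by
        rw [← hf₁Q]
        exact ⟨w, hw, rfl⟩
      exact h1
    refine ⟨fun w => if F.connectedComponentMk w = c then f₁ w else f₂ w, ?_, ?_, ?_⟩
    · intro u hu v hv huv
      dsimp only at huv
      by_cases h1 : F.connectedComponentMk u = c
      · by_cases h2 : F.connectedComponentMk v = c
        · rw [if_pos h1, if_pos h2] at huv
          exact hf₁ h1 h2 huv
        · rw [if_pos h1, if_neg h2] at huv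
          have h3 := hf₂X v ((List.mem_cons.1 hv).resolve_left h2)
          rw [← huv] at h3
          exact absurd (hQ1 u h1) (Finset.mem_sdiff.1 h3).2
      · by_cases h2 : F.connectedComponentMk v = c
        · rw [if_neg h1, if_pos h2] at huv
          have h3 := hf₂X u ((List.mem_cons.1 hu).resolve_left h1)
          rw [huv] at h3
          exact absurd (hQ1 v h2) (Finset.mem_sdiff.1 h3).2
        · rw [if_neg h1, if_neg h2] at huv
          exact hf₂ ((List.mem_cons.1 hu).resolve_left h1) ((List.mem_cons.1 hv).resolve_left h2)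
            huv
    · intro w hw
      dsimp only
      by_cases h1 : F.connectedComponentMk w = c
      · rw [if_pos h1]
        exact hQX (hQ1 w h1)
      · rw [if_neg h1]
        exact (Finset.mem_sdiff.1 (hf₂X w ((List.mem_cons.1 hw).resolve_left h1))).1
    · intro u v hu huv
      have hadj : F.Adj u v := (hA u v).1.2 (Or.inl huv)
      have huvc : F.connectedComponentMk u = F.connectedComponentMk v :=
        SimpleGraph.ConnectedComponent.connectedComponentMk_eq_of_adj hadj
      dsimp only
      by_cases h1 : F.connectedComponentMk u = c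
      · have h2 : F.connectedComponentMk v = c := huvc ▸ h1
        rw [if_pos h1, if_pos h2]
        exact hf₁A u h1 v h2 huv
      · have h2 : ¬ F.connectedComponentMk v = c := huvc ▸ h1
        rw [if_neg h1, if_neg h2]
        exact hf₂A u v ((List.mem_cons.1 hu).resolve_left h1) huv

/-- a component with at least two vertices: every vertex has a neighbour. -/
private theorem Link_nbr {W : Type*} [Fintype W] (F : SimpleGraph W) (c : F.ConnectedComponent)
    (hc : 2 ≤ c.supp.ncard) (x : W) (hx : x ∈ c.supp) : ∃ y, F.Adj x y := by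
  obtain ⟨y, hy, hyx⟩ := Set.exists_ne_of_one_lt_ncard (by omega : 1 < c.supp.ncard) x
  have h1 : F.Reachable x y := by
    rw [SimpleGraph.ConnectedComponent.mem_supp_iff] at hx hy
    exact SimpleGraph.ConnectedComponent.exact (hx.trans hy.symm)
  obtain ⟨p⟩ := h1
  cases p with
  | nil => exact absurd rfl hyx
  | cons h _ => exact ⟨_, h⟩

theorem link {W : Type*} [Fintype W] (F : SimpleGraph W) (hF : F.IsAcyclic)
    (hs : ∀ c : F.ConnectedComponent, c.supp.ncard ≤ 4) (A : W → W → Prop) (hA : IsOr F A) :
    ∃ L : List Shape, (∀ T ∈ L, T.Valid) ∧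
      L.countP Shape.isT = smallPairs F ∧
      L.countP Shape.isC = {c : F.ConnectedComponent | c.supp.ncard = 3}.ncard ∧
      L.length = {c : F.ConnectedComponent | 2 ≤ c.supp.ncard}.ncard ∧
      (F.edgeSet.ncard = 1 → ∃ i o, i + o = 1 ∧ L = [.star i o]) ∧
      ((∃ T ∈ L, ∃ a b c, T = .p4 a b c) ↔ ∃ c : F.ConnectedComponent, c.supp.ncard = 4 ∧
        ∀ v ∈ c.supp, (F.neighborSet v).ncard ≠ 3) ∧
      (∀ (V : Type) [Fintype V] [DecidableEq V] (D : V → V → Prop),
        Contains A D → Packs L D Finset.univ) ∧
      (∀ (V : Type) [Fintype V] [DecidableEq V] (D : V → V → Prop),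
        Fintype.card W ≤ Fintype.card V → Packs L D Finset.univ → Contains A D) := by
  classical
  have hfin : Finite F.ConnectedComponent := inferInstanceAs (Finite (Quot F.Reachable))
  have hex : ∀ c : F.ConnectedComponent, ∃ T : Shape, 2 ≤ c.supp.ncard →
      T.Valid ∧ Desc A c.supp T ∧
      (T.isT = true ↔ (c.supp.ncard = 2 ∨
        (c.supp.ncard = 4 ∧ ∀ v ∈ c.supp, (F.neighborSet v).ncard ≠ 3))) ∧
      (T.isC = true ↔ c.supp.ncard = 3) ∧
      ((∃ a b c, T = .p4 a b c) ↔
        (c.supp.ncard = 4 ∧ ∀ v ∈ c.supp, (F.neighborSet v).ncard ≠ 3)) := by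
    intro c
    by_cases h2 : 2 ≤ c.supp.ncard
    · obtain ⟨T, hT⟩ := exists_desc F hF A hA c h2 (hs c)
      exact ⟨T, fun _ => hT⟩
    · exact ⟨.star 0 0, fun h => absurd h h2⟩
  choose sh hsh using hex
  let S : Finset F.ConnectedComponent :=
    (Set.toFinite {c : F.ConnectedComponent | 2 ≤ c.supp.ncard}).toFinset
  have hS : ∀ c, c ∈ S ↔ 2 ≤ c.supp.ncard := by
    intro c
    rw [Set.Finite.mem_toFinset]
    exact Iff.rfl
  have hcs : ∀ c, c ∈ S.toList ↔ 2 ≤ c.supp.ncard := by
    intro c
    rw [Finset.mem_toList]
    exact hS c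
  have hnd : S.toList.Nodup := S.nodup_toList
  refine ⟨S.toList.map sh, ?_, ?_, ?_, ?_, ?_, ?_, ?_, ?_⟩
  · intro T hT
    obtain ⟨c, hc, rfl⟩ := List.mem_map.1 hT
    exact (hsh c ((hcs c).1 hc)).1
  · rw [List.countP_map]
    refine Link_count _ hnd _ _ fun c => ?_
    constructor
    · rintro ⟨h1, h2⟩
      exact (hsh c ((hcs c).1 h1)).2.2.1.1 h2
    · intro h
      have h2 : 2 ≤ c.supp.ncard := by
        rcases h with h | h
        · omega
        · omega
      exact ⟨(hcs c).2 h2, (hsh c h2).2.2.1.2 h⟩
  · rw [List.countP_map]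
    refine Link_count _ hnd _ _ fun c => ?_
    constructor
    · rintro ⟨h1, h2⟩
      exact (hsh c ((hcs c).1 h1)).2.2.2.1.1 h2
    · intro h
      have h2 : 2 ≤ c.supp.ncard := by omega
      exact ⟨(hcs c).2 h2, (hsh c h2).2.2.2.1.2 h⟩
  · rw [List.length_map, Finset.length_toList, ← Set.ncard_coe_finset, Set.Finite.coe_toFinset]
  · intro he
    obtain ⟨e, he⟩ := Set.ncard_eq_one.1 he
    induction e using Sym2.ind with
    | _ u v =>
      have hadj : F.Adj u v := by
        have h1 : s(u, v) ∈ F.edgeSet := by
          rw [he]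
          exact rfl
        exact h1
      have honly : ∀ x y, F.Adj x y → (x = u ∨ x = v) := by
        intro x y h
        have h1 : s(x, y) ∈ F.edgeSet := h
        rw [he, Set.mem_singleton_iff, Sym2.eq_iff] at h1
        rcases h1 with h1 | h1
        · exact Or.inl h1.1
        · exact Or.inr h1.1
      have huv : F.connectedComponentMk v = F.connectedComponentMk u :=
        (SimpleGraph.ConnectedComponent.connectedComponentMk_eq_of_adj hadj).symm
      have hcomp : ∀ c : F.ConnectedComponent, 2 ≤ c.supp.ncard →
          c.supp ⊆ {u, v} ∧ c = F.connectedComponentMk u := by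
        intro c hc
        have h1 : c.supp ⊆ {u, v} := by
          intro x hx
          obtain ⟨y, hy⟩ := Link_nbr F c hc x hx
          exact honly x y hy
        refine ⟨h1, ?_⟩
        have h2 : c.supp.Nonempty := by
          rw [Set.nonempty_iff_ne_empty]
          intro h3
          rw [h3, Set.ncard_empty] at hc
          omega
        obtain ⟨x, hx⟩ := h2
        have hx' : F.connectedComponentMk x = c := hx
        rcases h1 hx with h3 | h3
        · rw [← hx', h3]
        · rw [← hx', Set.mem_singleton_iff.1 h3, huv]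
      have hle : ({u, v} : Set W).ncard = 2 := Set.ncard_pair hadj.ne
      have hsub : ({u, v} : Set W) ⊆ (F.connectedComponentMk u).supp := by
        rintro x (rfl | hx)
        · exact rfl
        · rw [Set.mem_singleton_iff.1 hx]
          exact huv
      have hge : 2 ≤ (F.connectedComponentMk u).supp.ncard := by
        rw [← hle]
        exact Set.ncard_le_ncard hsub (Set.toFinite _)
      have hle2 : (F.connectedComponentMk u).supp.ncard ≤ 2 := by
        rw [← hle]
        exact Set.ncard_le_ncard (hcomp _ hge).1 (Set.toFinite _)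
      have hSs : S = {F.connectedComponentMk u} := by
        ext c
        rw [hS, Finset.mem_singleton]
        constructor
        · intro h
          exact (hcomp c h).2
        · rintro rfl
          exact hge
      have hT := hsh _ hge
      have h5 : (sh (F.connectedComponentMk u)).isT = true := hT.2.2.1.2 (Or.inl (by omega))
      have h6 : ¬ ∃ a b c, sh (F.connectedComponentMk u) = .p4 a b c := by
        intro h
        have := (hT.2.2.2.2.1 h).1
        omega
      rw [hSs, Finset.toList_singleton, List.map_singleton]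
      cases hsu : sh (F.connectedComponentMk u) with
      | star i o =>
        rw [hsu] at h5
        exact ⟨i, o, by simpa [Shape.isT] using h5, rfl⟩
      | p4 a b c => exact absurd ⟨a, b, c, hsu⟩ h6
  · constructor
    · rintro ⟨T, hT, h⟩
      obtain ⟨c, hc, rfl⟩ := List.mem_map.1 hT
      exact ⟨c, (hsh c ((hcs c).1 hc)).2.2.2.2.1 h⟩
    · rintro ⟨c, h⟩
      have h2 : 2 ≤ c.supp.ncard := by omega
      exact ⟨sh c, List.mem_map.2 ⟨c, (hcs c).2 h2, rfl⟩, (hsh c h2).2.2.2.2.2 h⟩
  · rintro V _ _ D ⟨f, hf, hfA⟩
    exact Link_fwd F A sh V D f hf hfA S.toList hnd (fun c hc => (hsh c ((hcs c).1 hc)).2.1)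
      Finset.univ (fun _ _ _ _ => Finset.mem_univ _)
  · intro V _ _ D hWV hp
    obtain ⟨g₀⟩ := Function.Embedding.nonempty_of_card_le hWV
    obtain ⟨f, hf, -, hfA⟩ := Link_bwd F A hA sh V D g₀ S.toList hnd
      (fun c hc => (hsh c ((hcs c).1 hc)).2.1) Finset.univ hp
    let Z : Set W := {w | F.connectedComponentMk w ∈ S.toList}
    let fZ : Finset V := (Set.toFinite (f '' Z)).toFinset
    have hfZ : (fZ : Set V) = f '' Z := Set.Finite.coe_toFinset _
    have hcard : fZ.card ≤ Fintype.card W := by
      rw [← Set.ncard_coe_finset, hfZ]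
      refine (Set.ncard_image_le (Set.toFinite _)).trans ?_
      rw [← Nat.card_eq_fintype_card, ← Set.ncard_univ]
      exact Set.ncard_le_ncard (Set.subset_univ _) (Set.toFinite _)
    obtain ⟨t, ht1, -, ht2⟩ := Finset.exists_subsuperset_card_eq (Finset.subset_univ fZ) hcard
      (by rw [Finset.card_univ]; exact hWV)
    have hmaps : Set.MapsTo f Z t := by
      intro w hw
      refine ht1 ?_
      have h1 : f w ∈ (fZ : Set V) := by
        rw [hfZ]
        exact ⟨w, hw, rfl⟩
      exact h1
    obtain ⟨g, hg⟩ := hmaps.exists_equiv_extend_of_card_eq ht2.symm hf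
    refine ⟨fun w => (g w : V), fun a b h => g.injective (Subtype.ext h), ?_⟩
    intro u v huv
    have hadj : F.Adj u v := (hA u v).1.2 (Or.inl huv)
    have huvc : F.connectedComponentMk v = F.connectedComponentMk u :=
      (SimpleGraph.ConnectedComponent.connectedComponentMk_eq_of_adj hadj).symm
    have h2 : 2 ≤ (F.connectedComponentMk u).supp.ncard := by
      rw [← Set.ncard_pair hadj.ne]
      refine Set.ncard_le_ncard ?_ (Set.toFinite _)
      rintro x (rfl | hx)
      · exact rfl
      · rw [Set.mem_singleton_iff.1 hx]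
        exact huvc
    have hu : u ∈ Z := (hcs _).2 h2
    have hv : v ∈ Z := by
      change F.connectedComponentMk v ∈ S.toList
      rw [huvc]
      exact hu
    dsimp only
    rw [hg u hu, hg v hv]
    exact hfA u v hu huv

end MP_0a9719_co
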