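import Pool.Agent.Lib.MP_0a9719_co.Forced
import Pool.Agent.Lib.MP_0a9719_co.GrP
import Pool.Agent.Lib.MP_0a9719_co.Pack
import Pool.Agent.Lib.MP_0a9719_co.FibOr

/-! MP_0a9719_co, module MainA: counting the main configurations, types TTT and TFT.

`W ⊆ X`, `|W| = s ≥ 2`, `R = X \ W`. `x ∈ R` is isolated if it has no neighbour in `R`; `R₀` =
isolated
vertices, `R₁ = R \ R₀`. `fW` is the factor of a vertex `x ∈ R`.

The map `D ↦ (rr W D, rr R₁ D, (x ∈ R₀ ↦ {w ∈ W | D w x}))` is injective on the set: all edges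
inside `R` are inside `R₁`; for `x ∈ R₁` there is a neighbour `y ∈ R₁`, so `x` has an
arc in `rr R₁ D`, and by `forced_A` / `forced_C` (with `R`, each `w ∈ W`) the directions
of all edges between `x` and `W` are determined by that arc (TTT: `x → y` forces `x → w` for all
neighbours `w ∈ W` of `x`, `y → x` forces `w → x`; TFT: `x → y` forces `w → x`, `y → x` forces
`x → w`). Numbers: `rr W D`: at most `2^(eX H W) ≤ 2^(s.choose 2)`; `rr R₁ D`: an
orientation of `res R₁ H` without a copy of the path in `R₁` (take any `w ∈ W`), at most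
`(11/3)^|R₁| ≤ (2^s (24/25))^|R₁|` (`s ≥ 2`, `11/3 ≤ 4 * 24/25 = 3.84`); for `x ∈ R₀`:
`2^(deg H W x)`. -/

namespace MP_0a9719_co

open Classical in
/-- the factor of a vertex outside `W`. -/
noncomputable def fW {V : Type*} [DecidableEq V] (s : ℕ) (H : SimpleGraph V) (X W : Finset V)
    (x : V) : ℝ :=
  if ∃ y ∈ X \ W, H.Adj x y then 2 ^ s * (24 / 25) else 2 ^ deg H W x

variable {V : Type*} [Fintype V] [DecidableEq V]

/-- at most `|W|.choose 2` edges in `W`. -/
theorem MainA_eX_le (H : SimpleGraph V) (W : Finset V) : eX H W ≤ W.card.choose 2 := by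
  induction W using Finset.induction_on with
  | empty =>
    have h : (res (∅ : Finset V) H).edgeSet = ∅ := by
      ext e
      induction e using Sym2.ind with
      | _ a b =>
        rw [SimpleGraph.mem_edgeSet]
        constructor
        · rintro ⟨_, h, _⟩
          exact absurd h (Finset.notMem_empty a)
        · intro h
          exact absurd h (Set.notMem_empty _)
    unfold eX
    rw [h, Set.ncard_empty]
    exact Nat.zero_le _
  | insert a W ha ih =>
    have h1 := eX_erase H (Finset.mem_insert_self a W)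
    rw [Finset.erase_insert ha] at h1
    have h2 := deg_le H (insert a W) (Finset.mem_insert_self a W)
    rw [Finset.card_insert_of_notMem ha] at h2 ⊢
    have h3 : (W.card + 1).choose 2 = W.card + W.card.choose 2 := by
      rw [Nat.choose_succ_succ' W.card 1, Nat.choose_one_right]
    omega

/-- edges in `W ∪ Z`, `Z` independent. -/
theorem MainA_eX_union (H : SimpleGraph V) (W Z : Finset V) (hWZ : Disjoint W Z)
    (hind : ∀ x ∈ Z, ∀ y ∈ Z, ¬ H.Adj x y) :
    eX H (W ∪ Z) ≤ W.card.choose 2 + ∑ x ∈ Z, deg H W x := by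
  induction Z using Finset.induction_on with
  | empty =>
    rw [Finset.union_empty, Finset.sum_empty, add_zero]
    exact MainA_eX_le H W
  | insert a Z ha ih =>
    have haW : a ∉ W := fun h => (Finset.disjoint_left.1 hWZ h) (Finset.mem_insert_self a Z)
    have h0 := ih (hWZ.mono_right (Finset.subset_insert a Z)) fun x hx y hy =>
      hind x (Finset.mem_insert_of_mem hx) y (Finset.mem_insert_of_mem hy)
    have ha' : a ∈ W ∪ insert a Z := Finset.mem_union_right _ (Finset.mem_insert_self a Z)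
    have h1 := eX_erase H ha'
    have h2 : (W ∪ insert a Z).erase a = W ∪ Z := by
      rw [Finset.union_insert, Finset.erase_insert]
      rw [Finset.mem_union]
      rintro (h | h)
      · exact haW h
      · exact ha h
    have h3 : deg H (W ∪ insert a Z) a = deg H W a := by
      unfold deg
      congr 1
      ext u
      constructor
      · rintro ⟨hu, hau⟩
        refine ⟨?_, hau⟩
        rcases Finset.mem_union.1 hu with h | h
        · exact h
        · exact absurd hau (hind a (Finset.mem_insert_self a Z) u h)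
      · rintro ⟨hu, hau⟩
        exact ⟨Finset.mem_union_left _ hu, hau⟩
    rw [h2, h3] at h1
    rw [Finset.sum_insert ha, h1]
    omega

/-- the set of the main configurations. -/
def MainA_S (a b c : Bool) (H : SimpleGraph V) (X W : Finset V) : Set (V → V → Prop) :=
  {D : V → V → Prop | IsOr (res X H) D ∧ MainD a b c D X W}

theorem MainA_gen (a b c : Bool) (H : SimpleGraph V) (X W : Finset V) (s : ℕ) (hs : 2 ≤ s)
    (hW : W ⊆ X) (hWs : W.card = s) (Z R' : Finset V) (hZ : Z ⊆ X \ W) (hR' : R' ⊆ X \ W)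
    (hind : ∀ x ∈ Z, ∀ y ∈ Z, ¬ H.Adj x y)
    (hinj : ∀ D ∈ MainA_S a b c H X W, ∀ D' ∈ MainA_S a b c H X W, rr R' D = rr R' D' →
      rr (W ∪ Z) D = rr (W ∪ Z) D' → D = D') :
    ((MainA_S a b c H X W).ncard : ℝ) ≤
      (11 / 3) ^ R'.card * (2 ^ s.choose 2 * ∏ x ∈ Z, (2 : ℝ) ^ deg H W x) := by
  have hZX : W ∪ Z ⊆ X := Finset.union_subset hW (hZ.trans Finset.sdiff_subset)
  have hRX : R' ⊆ X := hR'.trans Finset.sdiff_subset
  have hne : W.Nonempty := Finset.card_pos.1 (by omega)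
  obtain ⟨w, hw⟩ := hne
  have h1 : (MainA_S a b c H X W).ncard ≤
      ({D : V → V → Prop | IsOr (res R' H) D ∧ ¬ Packs [.p4 a b c] D R'} ×ˢ
        {D : V → V → Prop | IsOr (res (W ∪ Z) H) D}).ncard := by
    refine inj_le _ _ (fun D => (rr R' D, rr (W ∪ Z) D)) ?_ ?_
    · rintro D ⟨hD, hM⟩
      refine ⟨⟨isOr_rr hD hRX, fun h => ?_⟩, isOr_rr hD hZX⟩
      rw [packs_rr _ _ (Finset.Subset.refl R'), packs_one] at h
      obtain ⟨Q, hQ, hc⟩ := h
      exact (hM w hw).2.2 ⟨Q, (hQ.trans hR').trans (Finset.subset_insert _ _), hc⟩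
    · intro D hD D' hD' h
      exact hinj D hD D' hD' (Prod.mk.inj h).1 (Prod.mk.inj h).2
  rw [Set.ncard_prod, ncard_or] at h1
  have h2 : ((MainA_S a b c H X W).ncard : ℝ) ≤
      (num [.p4 a b c] H R' : ℝ) * 2 ^ eX H (W ∪ Z) := by exact_mod_cast h1
  have h3 := num_p4 a b c H R'
  have h4 := MainA_eX_union H W Z (Finset.disjoint_left.2 fun x hx hz =>
    (Finset.mem_sdiff.1 (hZ hz)).2 hx) hind
  rw [hWs] at h4
  have h5 : (2 : ℝ) ^ eX H (W ∪ Z) ≤ 2 ^ s.choose 2 * ∏ x ∈ Z, (2 : ℝ) ^ deg H W x := by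
    rw [Finset.prod_pow_eq_pow_sum, ← pow_add]
    exact pow_le_pow_right₀ (by norm_num) h4
  exact h2.trans (mul_le_mul h3 h5 (by positivity) (by positivity))

open Classical in
/-- the vertices outside `W` with a neighbour outside `W`. -/
noncomputable def MainA_R1 (H : SimpleGraph V) (X W : Finset V) : Finset V :=
  (X \ W).filter fun x => ∃ y ∈ X \ W, H.Adj x y

open Classical in
/-- the other vertices outside `W`. -/
noncomputable def MainA_R0 (H : SimpleGraph V) (X W : Finset V) : Finset V :=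
  (X \ W).filter fun x => ¬ ∃ y ∈ X \ W, H.Adj x y

omit [Fintype V] in
theorem MainA_mem1 {H : SimpleGraph V} {X W : Finset V} {x : V} :
    x ∈ MainA_R1 H X W ↔ x ∈ X \ W ∧ ∃ y ∈ X \ W, H.Adj x y := by
  classical
  unfold MainA_R1
  exact Finset.mem_filter

omit [Fintype V] in
theorem MainA_mem0 {H : SimpleGraph V} {X W : Finset V} {x : V} :
    x ∈ MainA_R0 H X W ↔ x ∈ X \ W ∧ ¬ ∃ y ∈ X \ W, H.Adj x y := by
  classical
  unfold MainA_R0
  exact Finset.mem_filter

omit [Fintype V] in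
theorem MainA_prod (H : SimpleGraph V) (X W : Finset V) (s : ℕ) :
    ∏ x ∈ X \ W, fW s H X W x = (2 ^ s * (24 / 25)) ^ (MainA_R1 H X W).card *
      ∏ x ∈ MainA_R0 H X W, (2 : ℝ) ^ deg H W x := by
  classical
  unfold fW MainA_R1 MainA_R0
  rw [Finset.prod_ite, Finset.prod_const]

omit [Fintype V] in
/-- two orientations with the same arcs in `R₁` and in `W ∪ R₀`, in which the arcs between
`R₁` and `W` are the same, are equal. -/
theorem MainA_ext (H : SimpleGraph V) (X W : Finset V) (D D' : V → V → Prop)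
    (hD : IsOr (res X H) D)
    (h1 : rr (MainA_R1 H X W) D = rr (MainA_R1 H X W) D')
    (h2 : rr (W ∪ MainA_R0 H X W) D = rr (W ∪ MainA_R0 H X W) D')
    (h3 : ∀ x ∈ MainA_R1 H X W, ∀ w ∈ W, (D x w → D' x w) ∧ (D w x → D' w x))
    (u v : V) (h : D u v) : D' u v := by
  obtain ⟨hu, hv, hA, -⟩ := isOr_mem hD h
  have hc : ∀ x ∈ X, x ∈ W ∨ x ∈ MainA_R0 H X W ∨ x ∈ MainA_R1 H X W := by
    intro x hx
    by_cases hxW : x ∈ W
    · exact Or.inl hxW
    · have hx' : x ∈ X \ W := Finset.mem_sdiff.2 ⟨hx, hxW⟩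
      by_cases hy : ∃ y ∈ X \ W, H.Adj x y
      · exact Or.inr (Or.inr (MainA_mem1.2 ⟨hx', hy⟩))
      · exact Or.inr (Or.inl (MainA_mem0.2 ⟨hx', hy⟩))
  have hr1 : ∀ {a b : V}, a ∈ MainA_R1 H X W → b ∈ MainA_R1 H X W → D a b → D' a b := by
    intro a b ha hb hab
    have e : rr (MainA_R1 H X W) D a b := ⟨hab, ha, hb⟩
    rw [h1] at e
    exact e.1
  have hr2 : ∀ {a b : V}, a ∈ W ∪ MainA_R0 H X W → b ∈ W ∪ MainA_R0 H X W → D a b →
      D' a b := by
    intro a b ha hb hab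
    have e : rr (W ∪ MainA_R0 H X W) D a b := ⟨hab, ha, hb⟩
    rw [h2] at e
    exact e.1
  rcases hc u hu with hu' | hu' | hu' <;> rcases hc v hv with hv' | hv' | hv'
  · exact hr2 (Finset.mem_union_left _ hu') (Finset.mem_union_left _ hv') h
  · exact hr2 (Finset.mem_union_left _ hu') (Finset.mem_union_right _ hv') h
  · exact (h3 v hv' u hu').2 h
  · exact hr2 (Finset.mem_union_right _ hu') (Finset.mem_union_left _ hv') h
  · exact hr2 (Finset.mem_union_right _ hu') (Finset.mem_union_right _ hv') h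
  · exact absurd ⟨v, (MainA_mem1.1 hv').1, hA⟩ (MainA_mem0.1 hu').2
  · exact (h3 u hu' v hv').1 h
  · exact absurd ⟨u, (MainA_mem1.1 hu').1, hA.symm⟩ (MainA_mem0.1 hv').2
  · exact hr1 hu' hv' h

theorem MainA_fin (a b c : Bool) (H : SimpleGraph V) (X W : Finset V) (s : ℕ) (hs : 2 ≤ s)
    (hW : W ⊆ X) (hWs : W.card = s)
    (h : ∀ D ∈ MainA_S a b c H X W, ∀ D' ∈ MainA_S a b c H X W,
      rr (MainA_R1 H X W) D = rr (MainA_R1 H X W) D' →
      ∀ x ∈ MainA_R1 H X W, ∀ w ∈ W, (D x w → D' x w) ∧ (D w x → D' w x)) :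
    ((MainA_S a b c H X W).ncard : ℝ) ≤ 2 ^ s.choose 2 * ∏ x ∈ X \ W, fW s H X W x := by
  have h1 := MainA_gen a b c H X W s hs hW hWs (MainA_R0 H X W) (MainA_R1 H X W)
    (fun x hx => (MainA_mem0.1 hx).1) (fun x hx => (MainA_mem1.1 hx).1)
    (fun x hx y hy hxy => (MainA_mem0.1 hx).2 ⟨y, (MainA_mem0.1 hy).1, hxy⟩) ?_
  · rw [MainA_prod]
    refine h1.trans ?_
    have h2 : (11 / 3 : ℝ) ≤ 2 ^ s * (24 / 25) := by
      have h3 : (2 : ℝ) ^ 2 ≤ 2 ^ s := pow_le_pow_right₀ (by norm_num) hs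
      linarith
    have h3 : (11 / 3 : ℝ) ^ (MainA_R1 H X W).card ≤
        (2 ^ s * (24 / 25)) ^ (MainA_R1 H X W).card :=
      pow_le_pow_left₀ (by norm_num) h2 _
    have h4 : (0 : ℝ) ≤ 2 ^ s.choose 2 * ∏ x ∈ MainA_R0 H X W, (2 : ℝ) ^ deg H W x := by
      positivity
    calc _ ≤ (2 ^ s * (24 / 25)) ^ (MainA_R1 H X W).card *
          (2 ^ s.choose 2 * ∏ x ∈ MainA_R0 H X W, (2 : ℝ) ^ deg H W x) :=
          mul_le_mul_of_nonneg_right h3 h4
      _ = _ := by ring
  · intro D hD D' hD' e1 e2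
    funext u v
    exact propext ⟨MainA_ext H X W D D' hD.1 e1 e2 (h D hD D' hD' e1) u v,
      MainA_ext H X W D' D hD'.1 e1.symm e2.symm (h D' hD' D hD e1.symm) u v⟩

omit [Fintype V] [DecidableEq V] in
theorem MainA_asym {H : SimpleGraph V} {X : Finset V} {D : V → V → Prop}
    (h : IsOr (res X H) D) (x y : V) (hxy : D x y) : ¬ D y x := (isOr_mem h hxy).2.2.2

omit [Fintype V] in
theorem MainA_nb {H : SimpleGraph V} {X W : Finset V} {x : V} (hx : x ∈ MainA_R1 H X W) :
    ∃ y ∈ MainA_R1 H X W, H.Adj x y := by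
  obtain ⟨hx1, y, hy, hxy⟩ := MainA_mem1.1 hx
  exact ⟨y, MainA_mem1.2 ⟨hy, x, hx1, hxy.symm⟩, hxy⟩

omit [Fintype V] [DecidableEq V] in
theorem MainA_rr {R : Finset V} {D D' : V → V → Prop} (h : rr R D = rr R D') {x y : V}
    (hx : x ∈ R) (hy : y ∈ R) (hxy : D x y) : D' x y := by
  have e : rr R D x y := ⟨hxy, hx, hy⟩
  rw [h] at e
  exact e.1

theorem main_A (H : SimpleGraph V) (X W : Finset V) (s : ℕ) (hs : 2 ≤ s) (hW : W ⊆ X)
    (hWs : W.card = s) :
    (({D : V → V → Prop | IsOr (res X H) D ∧ MainD true true true D X W}.ncard : ℕ) : ℝ) ≤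
      2 ^ s.choose 2 * ∏ x ∈ X \ W, fW s H X W x := by
  refine MainA_fin true true true H X W s hs hW hWs ?_
  rintro D ⟨hD, hM⟩ D' ⟨hD', hM'⟩ e x hx w hw
  obtain ⟨y, hy, hxy⟩ := MainA_nb hx
  have hxR := (MainA_mem1.1 hx).1
  have hyR := (MainA_mem1.1 hy).1
  have hxX := (Finset.mem_sdiff.1 hxR).1
  have hyX := (Finset.mem_sdiff.1 hyR).1
  have hwR : w ∉ X \ W := fun h => (Finset.mem_sdiff.1 h).2 hw
  have F := fun u v hu hv huv => forced_A D (MainA_asym hD) (X \ W) w hwR (hM w hw).1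
    (hM w hw).2.1 (hM w hw).2.2 u v hu hv huv
  have F' := fun u v hu hv huv => forced_A D' (MainA_asym hD') (X \ W) w hwR (hM' w hw).1
    (hM' w hw).2.1 (hM' w hw).2.2 u v hu hv huv
  rcases isOr_adj hD hxX hyX hxy with h | h
  · have h' := MainA_rr e hx hy h
    refine ⟨fun hxw => ?_, fun hwx => absurd hwx (F x y hxR hyR h).2⟩
    obtain ⟨_, hwX, hA, _⟩ := isOr_mem hD hxw
    rcases isOr_adj hD' hxX hwX hA with h1 | h1
    · exact h1
    · exact absurd h1 (F' x y hxR hyR h').2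
  · have h' := MainA_rr e hy hx h
    refine ⟨fun hxw => absurd hxw (F y x hyR hxR h).1, fun hwx => ?_⟩
    obtain ⟨hwX, _, hA, _⟩ := isOr_mem hD hwx
    rcases isOr_adj hD' hwX hxX hA with h1 | h1
    · exact h1
    · exact absurd h1 (F' y x hyR hxR h').1

theorem main_C (H : SimpleGraph V) (X W : Finset V) (s : ℕ) (hs : 2 ≤ s) (hW : W ⊆ X)
    (hWs : W.card = s) :
    (({D : V → V → Prop | IsOr (res X H) D ∧ MainD true false true D X W}.ncard : ℕ) : ℝ) ≤
      2 ^ s.choose 2 * ∏ x ∈ X \ W, fW s H X W x := by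
  refine MainA_fin true false true H X W s hs hW hWs ?_
  rintro D ⟨hD, hM⟩ D' ⟨hD', hM'⟩ e x hx w hw
  obtain ⟨y, hy, hxy⟩ := MainA_nb hx
  have hxR := (MainA_mem1.1 hx).1
  have hyR := (MainA_mem1.1 hy).1
  have hxX := (Finset.mem_sdiff.1 hxR).1
  have hyX := (Finset.mem_sdiff.1 hyR).1
  have hwR : w ∉ X \ W := fun h => (Finset.mem_sdiff.1 h).2 hw
  have F := fun u v hu hv huv => forced_C D (MainA_asym hD) (X \ W) w hwR (hM w hw).1
    (hM w hw).2.1 (hM w hw).2.2 u v hu hv huv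
  have F' := fun u v hu hv huv => forced_C D' (MainA_asym hD') (X \ W) w hwR (hM' w hw).1
    (hM' w hw).2.1 (hM' w hw).2.2 u v hu hv huv
  rcases isOr_adj hD hxX hyX hxy with h | h
  · have h' := MainA_rr e hx hy h
    refine ⟨fun hxw => absurd hxw (F x y hxR hyR h).2, fun hwx => ?_⟩
    obtain ⟨hwX, _, hA, _⟩ := isOr_mem hD hwx
    rcases isOr_adj hD' hwX hxX hA with h1 | h1
    · exact h1
    · exact absurd h1 (F' x y hxR hyR h').2
  · have h' := MainA_rr e hy hx h
    refine ⟨fun hxw => ?_, fun hwx => absurd hwx (F y x hyR hxR h).1⟩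
    obtain ⟨_, hwX, hA, _⟩ := isOr_mem hD hxw
    rcases isOr_adj hD' hxX hwX hA with h1 | h1
    · exact h1
    · exact absurd h1 (F' y x hyR hxR h').1

end MP_0a9719_co
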