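import Pool.Agent.Lib.MP_0a9719_co.MainB

/-! MP_0a9719_co, module MainAll: all types, by reversing all arcs and reading backwards.

`MainD a b c D X W ↔ MainD (!a) (!b) (!c) (fun u v => D v u) X W` (in- and out-degrees are
exchanged, `isCopy_rev`), and `MainD a b c D X W ↔ MainD (!c) (!b) (!a) D X W` (`isCopy_read`);
see GrP for the reduction of the eight types. -/

namespace MP_0a9719_co

private theorem MainAll_read {V : Type*} [DecidableEq V] (a b c : Bool) (D : V → V → Prop)
    (X W : Finset V) : MainD (!c) (!b) (!a) D X W ↔ MainD a b c D X W := by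
  unfold MainD
  refine forall_congr' fun w => forall_congr' fun _ => and_congr_right fun _ =>
    and_congr_right fun _ => not_congr (exists_congr fun Q => and_congr_right fun _ => ?_)
  exact isCopy_read a b c D Q

private theorem MainAll_rev {V : Type*} [DecidableEq V] (a b c : Bool) (D : V → V → Prop)
    (X W : Finset V) :
    MainD (!a) (!b) (!c) (fun u v => D v u) X W ↔ MainD a b c D X W := by
  unfold MainD
  refine forall_congr' fun w => forall_congr' fun _ => ?_
  have h1 : (∃ Q : Finset V, Q ⊆ insert w (X \ W) ∧
      IsCopy (.p4 (!a) (!b) (!c)) (fun u v => D v u) Q) ↔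
      ∃ Q : Finset V, Q ⊆ insert w (X \ W) ∧ IsCopy (.p4 a b c) D Q :=
    exists_congr fun Q => and_congr_right fun _ => isCopy_rev (.p4 a b c) D Q
  rw [h1]
  constructor
  · rintro ⟨h2, h3, h4⟩
    exact ⟨h3, h2, h4⟩
  · rintro ⟨h2, h3, h4⟩
    exact ⟨h3, h2, h4⟩

private theorem MainAll_card_read {V : Type*} [Fintype V] [DecidableEq V] (a b c : Bool)
    (H : SimpleGraph V) (X W : Finset V) :
    {D : V → V → Prop | IsOr (res X H) D ∧ MainD (!c) (!b) (!a) D X W}.ncard =
      {D : V → V → Prop | IsOr (res X H) D ∧ MainD a b c D X W}.ncard := by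
  congr 1
  ext D
  exact and_congr_right fun _ => MainAll_read a b c D X W

private theorem MainAll_card_rev {V : Type*} [Fintype V] [DecidableEq V] (a b c : Bool)
    (H : SimpleGraph V) (X W : Finset V) :
    {D : V → V → Prop | IsOr (res X H) D ∧ MainD (!a) (!b) (!c) D X W}.ncard =
      {D : V → V → Prop | IsOr (res X H) D ∧ MainD a b c D X W}.ncard := by
  have hinj : Function.Injective (fun (D : V → V → Prop) => fun u v => D v u) := by
    intro D D' h
    funext u v
    exact congrFun (congrFun h v) u
  symm
  rw [← Set.ncard_image_of_injective _ hinj]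
  congr 1
  ext D
  constructor
  · rintro ⟨D', ⟨h1, h2⟩, rfl⟩
    exact ⟨isOr_rev h1, (MainAll_rev a b c D' X W).2 h2⟩
  · rintro ⟨h1, h2⟩
    exact ⟨fun u v => D v u, ⟨isOr_rev h1,
      (MainAll_rev a b c (fun u v => D v u) X W).1 h2⟩, rfl⟩

theorem main_all {V : Type*} [Fintype V] [DecidableEq V] (a b c : Bool) (H : SimpleGraph V)
    (X W : Finset V) (s : ℕ) (hs : 2 ≤ s) (hW : W ⊆ X) (hWs : W.card = s) :
    (({D : V → V → Prop | IsOr (res X H) D ∧ MainD a b c D X W}.ncard : ℕ) : ℝ) ≤
      2 ^ s.choose 2 * ∏ x ∈ X \ W, fW s H X W x := by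
  have hA := main_A H X W s hs hW hWs
  have hB := main_B H X W s hs hW hWs
  have hC := main_C H X W s hs hW hWs
  have hB' := hB
  rw [← MainAll_card_rev] at hB'
  cases a <;> cases b <;> cases c
  · have h := MainAll_card_read true true true H X W
    simp only [Bool.not_true] at h
    rwa [h]
  · exact hB'
  · have h := MainAll_card_read true false true H X W
    simp only [Bool.not_true, Bool.not_false] at h
    rwa [h]
  · have h := MainAll_card_read false false true H X W
    simp only [Bool.not_true, Bool.not_false] at h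
    rwa [h]
  · have h := MainAll_card_read true true false H X W
    simp only [Bool.not_true, Bool.not_false] at h
    rwa [h]
  · exact hC
  · exact hB
  · exact hA

end MP_0a9719_co
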