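import Pool.Agent.Lib.MP_0a9719_co.MainA

/-! MP_0a9719_co, module MainB: counting the main configurations, type TTF.

Notation of MainA. Let `I` = vertices of `R₁` with a neighbour in `W`, `R₂ = R₁ \ I`. Suppose the
set is
nonempty. By `forced_B`, `u → v` inside `R` implies that `v` has no neighbour in `W` (an edge
between `v` and `W` is directed one way or the other). So all edges of `H` inside `R` at a vertex
of `I` are directed out of `I`, and no two vertices of `I` are adjacent. Let `I'` be the set of `x ∈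
I`
such that every neighbour `v ∈ R` of `x` (these are in `R₂`) has `x` as its ONLY neighbour in `I`.
If `x ∈ I \ I'`, some neighbour `v ∈ R₂` of `x` has another neighbour `y ∈ I`, `x → v`, `y → v`,
and `forced_B'` gives `¬ D w x` for all `w ∈ W`: all edges between `x` and `W` are directed `x → w`.
So `D ↦ (rr W D, rr R₂ D, (x ∈ R₀ ∪ I' ↦ {w ∈ W | D w x}))` is injective. Numbers:
`2^(s.choose 2)`, `(11/3)^|R₂|` (`rr R₂ D` has no copy of the path), `∏_{x ∈ R₀} 2^(deg H W x)`,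
`2^(s |I'|)`. Map every `x ∈ I'` to a neighbour of it in `R₂` (exists, `x` is not isolated in `R`):
injective by the
definition of `I'`; so `|I'| ≤ min (|I|, |R₂|)`. It remains to see
`(11/3)^r 2^(s j) ≤ (2^s 24/25)^(i + r)` for `i = |I|`, `r = |R₂|`, `j ≤ i`, `j ≤ r`, `s ≥ 2`. If `i
≤ r`:
left side `≤ 2^(s(i+r)) (11/12)^r` (`11/3 = 4 * 11/12 ≤ 2^s * 11/12`), and
`(11/12)^r ≤ (24/25)^(2r) ≤ (24/25)^(i+r)` (`(24/25)^2 = 576/625 ≥ 11/12`). If `r < i`: left side
`≤ (11/3)^r 2^(s r) = 2^(s (i+r)) (11/3)^r 2^(-s i) ≤ 2^(s(i+r)) (11/12)^i` and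
`(11/12)^i ≤ (24/25)^(2 i) ≤ (24/25)^(i + r)`. -/

namespace MP_0a9719_co

variable {V : Type*} [Fintype V] [DecidableEq V]

theorem MainB_num (s i r j : ℕ) (hs : 2 ≤ s) (hji : j ≤ i) (hjr : j ≤ r) :
    (11 / 3 : ℝ) ^ r * ((2 : ℝ) ^ s) ^ j ≤ (2 ^ s * (24 / 25)) ^ (i + r) := by
  have hA : (4 : ℝ) ≤ 2 ^ s := by
    have h3 : (2 : ℝ) ^ 2 ≤ 2 ^ s := pow_le_pow_right₀ (by norm_num) hs
    linarith
  have h11 : (11 / 3 : ℝ) ≤ 2 ^ s * (11 / 12) := by linarith
  have h12 : ∀ n m : ℕ, m ≤ 2 * n → (11 / 12 : ℝ) ^ n ≤ (24 / 25) ^ m := by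
    intro n m hm
    calc (11 / 12 : ℝ) ^ n ≤ ((24 / 25) ^ 2) ^ n := pow_le_pow_left₀ (by norm_num) (by norm_num) n
      _ = (24 / 25) ^ (2 * n) := by rw [← pow_mul]
      _ ≤ (24 / 25) ^ m := pow_le_pow_of_le_one (by norm_num) (by norm_num) hm
  rw [mul_pow (2 ^ s : ℝ), pow_add (2 ^ s : ℝ)]
  rcases le_or_gt i r with h | h
  · calc (11 / 3 : ℝ) ^ r * ((2 : ℝ) ^ s) ^ j ≤ (2 ^ s * (11 / 12)) ^ r * ((2 : ℝ) ^ s) ^ i :=
          mul_le_mul (pow_le_pow_left₀ (by norm_num) h11 r)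
            (pow_le_pow_right₀ (by linarith) hji) (by positivity) (by positivity)
      _ = (2 ^ s) ^ i * (2 ^ s) ^ r * (11 / 12) ^ r := by rw [mul_pow]; ring
      _ ≤ (2 ^ s) ^ i * (2 ^ s) ^ r * (24 / 25) ^ (i + r) :=
          mul_le_mul_of_nonneg_left (h12 r (i + r) (by omega)) (by positivity)
  · calc (11 / 3 : ℝ) ^ r * ((2 : ℝ) ^ s) ^ j ≤ (11 / 3 : ℝ) ^ i * ((2 : ℝ) ^ s) ^ r :=
          mul_le_mul (pow_le_pow_right₀ (by norm_num) h.le)
            (pow_le_pow_right₀ (by linarith) hjr) (by positivity) (by positivity)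
      _ ≤ (2 ^ s * (11 / 12)) ^ i * ((2 : ℝ) ^ s) ^ r :=
          mul_le_mul_of_nonneg_right (pow_le_pow_left₀ (by norm_num) h11 i) (by positivity)
      _ = (2 ^ s) ^ i * (2 ^ s) ^ r * (11 / 12) ^ i := by rw [mul_pow]; ring
      _ ≤ (2 ^ s) ^ i * (2 ^ s) ^ r * (24 / 25) ^ (i + r) :=
          mul_le_mul_of_nonneg_left (h12 i (i + r) (by omega)) (by positivity)

open Classical in
/-- the vertices of `R₁` with a neighbour in `W`. -/
noncomputable def MainB_I (H : SimpleGraph V) (X W : Finset V) : Finset V :=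
  (MainA_R1 H X W).filter fun x => ∃ w ∈ W, H.Adj x w

open Classical in
/-- the other vertices of `R₁`. -/
noncomputable def MainB_R2 (H : SimpleGraph V) (X W : Finset V) : Finset V :=
  (MainA_R1 H X W).filter fun x => ¬ ∃ w ∈ W, H.Adj x w

open Classical in
/-- the vertices of `I` which do not share a neighbour with another vertex of `I`. -/
noncomputable def MainB_J (H : SimpleGraph V) (X W : Finset V) : Finset V :=
  (MainB_I H X W).filter fun x => ∀ v ∈ X \ W, H.Adj x v → ∀ y ∈ MainB_I H X W,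
    H.Adj y v → y = x

omit [Fintype V] in
theorem MainB_memI {H : SimpleGraph V} {X W : Finset V} {x : V} :
    x ∈ MainB_I H X W ↔ x ∈ MainA_R1 H X W ∧ ∃ w ∈ W, H.Adj x w := by
  classical
  unfold MainB_I
  exact Finset.mem_filter

omit [Fintype V] in
theorem MainB_mem2 {H : SimpleGraph V} {X W : Finset V} {x : V} :
    x ∈ MainB_R2 H X W ↔ x ∈ MainA_R1 H X W ∧ ¬ ∃ w ∈ W, H.Adj x w := by
  classical
  unfold MainB_R2
  exact Finset.mem_filter

theorem MainB_memJ {H : SimpleGraph V} {X W : Finset V} {x : V} :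
    x ∈ MainB_J H X W ↔ x ∈ MainB_I H X W ∧ ∀ v ∈ X \ W, H.Adj x v → ∀ y ∈ MainB_I H X W,
      H.Adj y v → y = x := by
  classical
  unfold MainB_J
  exact Finset.mem_filter

omit [Fintype V] in
theorem MainB_card (H : SimpleGraph V) (X W : Finset V) :
    (MainA_R1 H X W).card = (MainB_I H X W).card + (MainB_R2 H X W).card := by
  classical
  unfold MainB_I MainB_R2
  exact (Finset.card_filter_add_card_filter_not _).symm

theorem MainB_F1 {H : SimpleGraph V} {X W : Finset V} (hW : W ⊆ X) {D : V → V → Prop}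
    (hD : D ∈ MainA_S true true false H X W) {u v : V} (hu : u ∈ X \ W) (hv : v ∈ X \ W)
    (h : D u v) : v ∉ MainB_I H X W := by
  intro hI
  obtain ⟨_, w, hw, hvw⟩ := MainB_memI.1 hI
  have hwR : w ∉ X \ W := fun h => (Finset.mem_sdiff.1 h).2 hw
  have hM := hD.2 w hw
  have hf := forced_B D (MainA_asym hD.1) (X \ W) w hwR hM.1 hM.2.1 hM.2.2 u v hu hv h
  rcases isOr_adj hD.1 (Finset.mem_sdiff.1 hv).1 (hW hw) hvw with h1 | h1
  · exact hf.1 h1
  · exact hf.2 h1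

theorem MainB_F2 {H : SimpleGraph V} {X W : Finset V} (hW : W ⊆ X) {D : V → V → Prop}
    (hD : D ∈ MainA_S true true false H X W) {u v : V} (hu : u ∈ MainB_I H X W)
    (hv : v ∈ X \ W) (h : H.Adj u v) : D u v := by
  have huR := (MainA_mem1.1 (MainB_memI.1 hu).1).1
  rcases isOr_adj hD.1 (Finset.mem_sdiff.1 huR).1 (Finset.mem_sdiff.1 hv).1 h with h1 | h1
  · exact h1
  · exact absurd hu (MainB_F1 hW hD hv huR h1)

theorem MainB_F3 {H : SimpleGraph V} {X W : Finset V} (hW : W ⊆ X) {D : V → V → Prop}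
    (hD : D ∈ MainA_S true true false H X W) {u v : V} (hu : u ∈ MainB_I H X W)
    (hv : v ∈ X \ W) (h : H.Adj u v) : v ∈ MainB_R2 H X W := by
  have huR := (MainA_mem1.1 (MainB_memI.1 hu).1).1
  have h1 := MainB_F1 hW hD huR hv (MainB_F2 hW hD hu hv h)
  have h2 : v ∈ MainA_R1 H X W := MainA_mem1.2 ⟨hv, u, huR, h.symm⟩
  exact MainB_mem2.2 ⟨h2, fun h3 => h1 (MainB_memI.2 ⟨h2, h3⟩)⟩

theorem MainB_F4 {H : SimpleGraph V} {X W : Finset V} (hW : W ⊆ X) {D : V → V → Prop}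
    (hD : D ∈ MainA_S true true false H X W) {x : V} (hx : x ∈ MainB_I H X W)
    (hxJ : x ∉ MainB_J H X W) {w : V} (hw : w ∈ W) : ¬ D w x := by
  have h1 : ¬ ∀ v ∈ X \ W, H.Adj x v → ∀ y ∈ MainB_I H X W, H.Adj y v → y = x :=
    fun h => hxJ (MainB_memJ.2 ⟨hx, h⟩)
  push Not at h1
  obtain ⟨v, hv, hxv, y, hy, hyv, hyx⟩ := h1
  have hwR : w ∉ X \ W := fun h => (Finset.mem_sdiff.1 h).2 hw
  exact forced_B' D (MainA_asym hD.1) (X \ W) w hwR (hD.2 w hw).2.2 x y v
    (MainA_mem1.1 (MainB_memI.1 hx).1).1 (MainA_mem1.1 (MainB_memI.1 hy).1).1 hv hyx.symm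
    (MainB_F2 hW hD hx hv hxv) (MainB_F2 hW hD hy hv hyv)

theorem MainB_ext {H : SimpleGraph V} {X W : Finset V} (hW : W ⊆ X) {D D' : V → V → Prop}
    (hD : D ∈ MainA_S true true false H X W) (hD' : D' ∈ MainA_S true true false H X W)
    (e1 : rr (MainB_R2 H X W) D = rr (MainB_R2 H X W) D')
    (e2 : rr (W ∪ (MainA_R0 H X W ∪ MainB_J H X W)) D =
      rr (W ∪ (MainA_R0 H X W ∪ MainB_J H X W)) D') {u v : V} (h : D u v) : D' u v := by
  obtain ⟨hu, hv, hA, -⟩ := isOr_mem hD.1 h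
  have hWZ : ∀ {x : V}, x ∈ W → x ∈ W ∪ (MainA_R0 H X W ∪ MainB_J H X W) :=
    fun h => Finset.mem_union_left _ h
  have hJZ : ∀ {x : V}, x ∈ MainB_J H X W → x ∈ W ∪ (MainA_R0 H X W ∪ MainB_J H X W) :=
    fun h => Finset.mem_union_right _ (Finset.mem_union_right _ h)
  have h0Z : ∀ {x : V}, x ∈ MainA_R0 H X W → x ∈ W ∪ (MainA_R0 H X W ∪ MainB_J H X W) :=
    fun h => Finset.mem_union_right _ (Finset.mem_union_left _ h)
  by_cases huI : u ∈ MainB_I H X W
  · by_cases hvW : v ∈ W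
    · by_cases huJ : u ∈ MainB_J H X W
      · exact MainA_rr e2 (hJZ huJ) (hWZ hvW) h
      · rcases isOr_adj hD'.1 hu hv hA with h1 | h1
        · exact h1
        · exact absurd h1 (MainB_F4 hW hD' huI huJ hvW)
    · exact MainB_F2 hW hD' huI (Finset.mem_sdiff.2 ⟨hv, hvW⟩) hA
  · by_cases hvI : v ∈ MainB_I H X W
    · have hvR := (MainA_mem1.1 (MainB_memI.1 hvI).1).1
      by_cases huW : u ∈ W
      · by_cases hvJ : v ∈ MainB_J H X W
        · exact MainA_rr e2 (hWZ huW) (hJZ hvJ) h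
        · exact absurd h (MainB_F4 hW hD hvI hvJ huW)
      · exact absurd hvI (MainB_F1 hW hD (Finset.mem_sdiff.2 ⟨hu, huW⟩) hvR h)
    · have hc : ∀ x ∈ X, x ∉ MainB_I H X W → x ∈ W ∨ x ∈ MainA_R0 H X W ∨
          x ∈ MainB_R2 H X W := by
        intro x hx hxI
        by_cases hxW : x ∈ W
        · exact Or.inl hxW
        · have hx' : x ∈ X \ W := Finset.mem_sdiff.2 ⟨hx, hxW⟩
          by_cases hy : ∃ y ∈ X \ W, H.Adj x y
          · have hx1 : x ∈ MainA_R1 H X W := MainA_mem1.2 ⟨hx', hy⟩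
            exact Or.inr (Or.inr (MainB_mem2.2 ⟨hx1, fun h => hxI (MainB_memI.2 ⟨hx1, h⟩)⟩))
          · exact Or.inr (Or.inl (MainA_mem0.2 ⟨hx', hy⟩))
      rcases hc u hu huI with hu' | hu' | hu' <;> rcases hc v hv hvI with hv' | hv' | hv'
      · exact MainA_rr e2 (hWZ hu') (hWZ hv') h
      · exact MainA_rr e2 (hWZ hu') (h0Z hv') h
      · exact absurd ⟨u, hu', hA.symm⟩ (MainB_mem2.1 hv').2
      · exact MainA_rr e2 (h0Z hu') (hWZ hv') h
      · exact MainA_rr e2 (h0Z hu') (h0Z hv') h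
      · exact absurd ⟨v, (MainA_mem1.1 (MainB_mem2.1 hv').1).1, hA⟩ (MainA_mem0.1 hu').2
      · exact absurd ⟨v, hv', hA⟩ (MainB_mem2.1 hu').2
      · exact absurd ⟨u, (MainA_mem1.1 (MainB_mem2.1 hu').1).1, hA.symm⟩ (MainA_mem0.1 hv').2
      · exact MainA_rr e1 hu' hv' h

theorem MainB_JR {H : SimpleGraph V} {X W : Finset V} (hW : W ⊆ X) {D : V → V → Prop}
    (hD : D ∈ MainA_S true true false H X W) :
    (MainB_J H X W).card ≤ (MainB_R2 H X W).card := by
  have hex : ∀ x ∈ MainB_J H X W, ∃ y ∈ MainB_R2 H X W, H.Adj x y := by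
    intro x hx
    have hxI := (MainB_memJ.1 hx).1
    obtain ⟨y, hy, hxy⟩ := (MainA_mem1.1 (MainB_memI.1 hxI).1).2
    exact ⟨y, MainB_F3 hW hD hxI hy hxy, hxy⟩
  choose! g hg using hex
  refine Finset.card_le_card_of_injOn g (fun x hx => (hg x hx).1) ?_
  intro x hx x' hx' hxx
  have h1 := (hg x hx).2
  have h2 := (hg x' hx').2
  rw [← hxx] at h2
  have hv : g x ∈ X \ W := (MainA_mem1.1 (MainB_mem2.1 (hg x hx).1).1).1
  exact ((MainB_memJ.1 hx).2 (g x) hv h1 x' (MainB_memJ.1 hx').1 h2).symm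

omit [DecidableEq V] in
theorem MainB_deg (H : SimpleGraph V) (W : Finset V) (x : V) : deg H W x ≤ W.card := by
  unfold deg
  rw [← Set.ncard_coe_finset W]
  exact Set.ncard_le_ncard (fun u hu => hu.1) (Set.toFinite _)

theorem main_B (H : SimpleGraph V) (X W : Finset V) (s : ℕ) (hs : 2 ≤ s) (hW : W ⊆ X)
    (hWs : W.card = s) :
    (({D : V → V → Prop | IsOr (res X H) D ∧ MainD true true false D X W}.ncard : ℕ) : ℝ) ≤
      2 ^ s.choose 2 * ∏ x ∈ X \ W, fW s H X W x := by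
  change ((MainA_S true true false H X W).ncard : ℝ) ≤ _
  rw [MainA_prod]
  rcases (MainA_S true true false H X W).eq_empty_or_nonempty with h0 | ⟨D₀, hD₀⟩
  · rw [h0, Set.ncard_empty, Nat.cast_zero]
    positivity
  · have hJ : ∀ {x : V}, x ∈ MainB_J H X W → x ∈ MainA_R1 H X W := fun h =>
      (MainB_memI.1 (MainB_memJ.1 h).1).1
    have hdisj : Disjoint (MainA_R0 H X W) (MainB_J H X W) :=
      Finset.disjoint_left.2 fun x h1 h2 => (MainA_mem0.1 h1).2 (MainA_mem1.1 (hJ h2)).2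
    have h1 := MainA_gen true true false H X W s hs hW hWs (MainA_R0 H X W ∪ MainB_J H X W)
      (MainB_R2 H X W) ?_ (fun x hx => (MainA_mem1.1 (MainB_mem2.1 hx).1).1) ?_ ?_
    · rw [Finset.prod_union hdisj] at h1
      refine h1.trans ?_
      have h2 : ∏ x ∈ MainB_J H X W, (2 : ℝ) ^ deg H W x ≤
          ((2 : ℝ) ^ s) ^ (MainB_J H X W).card := by
        rw [← Finset.prod_const]
        refine Finset.prod_le_prod (fun x _ => by positivity) fun x _ => ?_
        refine pow_le_pow_right₀ (by norm_num) ?_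
        rw [← hWs]
        exact MainB_deg H W x
      have h3 := MainB_num s (MainB_I H X W).card (MainB_R2 H X W).card (MainB_J H X W).card hs
        (Finset.card_le_card fun x hx => (MainB_memJ.1 hx).1) (MainB_JR hW hD₀)
      rw [← MainB_card] at h3
      have h4 : (0 : ℝ) ≤ ∏ x ∈ MainA_R0 H X W, (2 : ℝ) ^ deg H W x := by positivity
      calc (11 / 3 : ℝ) ^ (MainB_R2 H X W).card * (2 ^ s.choose 2 *
            ((∏ x ∈ MainA_R0 H X W, (2 : ℝ) ^ deg H W x) *
              ∏ x ∈ MainB_J H X W, (2 : ℝ) ^ deg H W x)) ≤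
          (11 / 3 : ℝ) ^ (MainB_R2 H X W).card * (2 ^ s.choose 2 *
            ((∏ x ∈ MainA_R0 H X W, (2 : ℝ) ^ deg H W x) *
              ((2 : ℝ) ^ s) ^ (MainB_J H X W).card)) := by gcongr
        _ = 2 ^ s.choose 2 * (((11 / 3 : ℝ) ^ (MainB_R2 H X W).card *
            ((2 : ℝ) ^ s) ^ (MainB_J H X W).card) *
              ∏ x ∈ MainA_R0 H X W, (2 : ℝ) ^ deg H W x) := by ring
        _ ≤ _ := by gcongr
    · intro x hx
      rcases Finset.mem_union.1 hx with h | h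
      · exact (MainA_mem0.1 h).1
      · exact (MainA_mem1.1 (hJ h)).1
    · intro x hx y hy hxy
      rcases Finset.mem_union.1 hx with hx' | hx'
      · have hyR : y ∈ X \ W := by
          rcases Finset.mem_union.1 hy with h | h
          · exact (MainA_mem0.1 h).1
          · exact (MainA_mem1.1 (hJ h)).1
        exact (MainA_mem0.1 hx').2 ⟨y, hyR, hxy⟩
      · rcases Finset.mem_union.1 hy with hy' | hy'
        · exact (MainA_mem0.1 hy').2 ⟨x, (MainA_mem1.1 (hJ hx')).1, hxy.symm⟩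
        · have h2 := MainB_F3 hW hD₀ (MainB_memJ.1 hx').1 (MainA_mem1.1 (hJ hy')).1 hxy
          exact (MainB_mem2.1 h2).2 (MainB_memI.1 (MainB_memJ.1 hy').1).2
    · intro D hD D' hD' e1 e2
      funext u v
      exact propext ⟨MainB_ext hW hD hD' e1 e2, MainB_ext hW hD' hD e1.symm e2.symm⟩

end MP_0a9719_co
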