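import Pool.Agent.Lib.MP_0a9719_co.Peel

/-! MP_0a9719_co, module StarA: `GoodA` and `GoodB` are preserved by adding a star.

`big_erase`: if `w ∈ X.erase v` has degree at least `(1 - ε/2)(n - 1)` in `X.erase v`
(`n = |X| ≥ 2/ε`) then its degree in `X` is at least `(1-ε/2)(n-1) ≥ (1-ε) n`. So
`big (ε/2) H (X.erase v) ⊆ big ε H X \ {v}`.
`big_erase'`: if `w ∈ big (ε/2) H X`, `w ≠ v`, its degree in `X.erase v` is at least
`(1 - ε/2) n - 1 ≥ (1 - ε)(n - 1)` for `n ≥ 2/ε`. So `big (ε/2) H X \ {v} ⊆ big ε H (X.erase v)`.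

`star_goodA`. Given `ε`; wlog `ε < 1` (for `ε ≥ 1`: `big` is monotone in `ε`, so few
`ε`-big vertices implies few `1/2`-big ones). Let `b₁` be from `GoodA L s` for `ε/2`. Use
`peel_sum`. First term: `PureB`, at most `b₂^n`, `b₂ < 2^(s+1)`. Sum: let `v ∈ X`. If `v` is not in
`big ε H X`: `deg H X v < (1-ε) n` and `num L H (X.erase v) ≤ 2^(ext s (n-1)) ≤ 2^(s n)` by
`Good0` and `ext_le`, so the term is at most `(2^(1-ε) 2^s)^n` (real power `b₃ = 2^(1-ε) 2^s <
2^(s+1)`; `2^(deg) ≤ (2^(1-ε))^n` as real powers). If `v ∈ big ε H X`: by `big_erase`,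
`(big (ε/2) H (X.erase v)).ncard < s` (as `(big ε H X).ncard < s + 1`), so the term is at most
`2^n b₁^(n-1) ≤ (2 b₁)^n / b₁`, `2 b₁ < 2^(s+1)`. Sum over at most `n` vertices; `poly_exp`
gives the result for any `b` with `max (b₂, b₃, 2 b₁) < b < 2^(s+1)`.
`star_goodB`: let `ε'`, `b₁` be from `GoodB L s`, `ε = ε'/2`. If `(big ε H X).ncard > s + 1` then for every
`v ∈ X`, `(big ε' H (X.erase v)).ncard > s` by `big_erase'`, so every term of the sum in
`peel_sum` is at most `2^n b₁^(n-1)`. -/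

namespace MP_0a9719_co

private theorem stara_deg {V : Type*} [Fintype V] [DecidableEq V] (H : SimpleGraph V)
    (X : Finset V) (v w : V) :
    deg H (X.erase v) w ≤ deg H X w ∧ deg H X w ≤ deg H (X.erase v) w + 1 := by
  unfold deg
  constructor
  · refine Set.ncard_le_ncard ?_ (Set.toFinite _)
    rintro u ⟨hu, hu2⟩
    exact ⟨Finset.mem_of_mem_erase hu, hu2⟩
  · have h1 : {u | u ∈ X ∧ H.Adj w u} ⊆ insert v {u | u ∈ X.erase v ∧ H.Adj w u} := by
      rintro u ⟨hu, hu2⟩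
      by_cases h : u = v
      · exact Or.inl h
      · exact Or.inr ⟨Finset.mem_erase.2 ⟨h, hu⟩, hu2⟩
    exact (Set.ncard_le_ncard h1 (Set.toFinite _)).trans (Set.ncard_insert_le _ _)

private theorem stara_deg_le {V : Type*} [Fintype V] [DecidableEq V] (H : SimpleGraph V)
    (X : Finset V) (w : V) : deg H X w ≤ X.card := by
  unfold deg
  rw [← Set.ncard_coe_finset X]
  refine Set.ncard_le_ncard ?_ (Set.toFinite _)
  rintro u ⟨hu, _⟩
  exact hu

private theorem stara_card {V : Type*} [DecidableEq V] (X : Finset V) (v : V) :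
    v ∈ X ∧ ((X.erase v).card : ℝ) + 1 = X.card ∨ X.erase v = X := by
  by_cases h : v ∈ X
  · left
    refine ⟨h, ?_⟩
    exact_mod_cast Finset.card_erase_add_one h
  · right
    exact Finset.erase_eq_of_notMem h

private theorem stara_big_mono {V : Type*} (ε ε' : ℝ) (h : ε ≤ ε') (H : SimpleGraph V)
    (X : Finset V) : big ε H X ⊆ big ε' H X := by
  rintro v ⟨hv, hv2⟩
  refine ⟨hv, le_trans ?_ hv2⟩
  exact mul_le_mul_of_nonneg_right (by linarith) (Nat.cast_nonneg _)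

theorem big_erase {V : Type*} [Fintype V] [DecidableEq V] (ε : ℝ) (hε : 0 < ε) (hε1 : ε < 1)
    (H : SimpleGraph V) (X : Finset V) (v : V) (hX : 2 / ε ≤ X.card) :
    big (ε / 2) H (X.erase v) ⊆ big ε H X \ {v} := by
  rintro w ⟨hw, hw2⟩
  refine ⟨⟨Finset.mem_of_mem_erase hw, ?_⟩, Finset.ne_of_mem_erase hw⟩
  have h1 : ((deg H (X.erase v) w : ℕ) : ℝ) ≤ deg H X w := by
    exact_mod_cast (stara_deg H X v w).1
  rw [div_le_iff₀ hε] at hX
  rcases stara_card X v with ⟨_, h2⟩ | h2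
  · have h3 : ((X.erase v).card : ℝ) = X.card - 1 := by linarith
    rw [h3] at hw2
    nlinarith
  · rw [h2] at hw2
    have h3 : (0 : ℝ) ≤ X.card := Nat.cast_nonneg _
    nlinarith

theorem big_erase' {V : Type*} [Fintype V] [DecidableEq V] (ε : ℝ) (hε : 0 < ε) (hε1 : ε < 1)
    (H : SimpleGraph V) (X : Finset V) (v : V) (hX : 2 / ε ≤ X.card) :
    big (ε / 2) H X \ {v} ⊆ big ε H (X.erase v) := by
  rintro w ⟨⟨hw, hw2⟩, hwv⟩
  refine ⟨Finset.mem_erase.2 ⟨hwv, hw⟩, ?_⟩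
  have h1 : ((deg H X w : ℕ) : ℝ) ≤ deg H (X.erase v) w + 1 := by
    exact_mod_cast (stara_deg H X v w).2
  rw [div_le_iff₀ hε] at hX
  rcases stara_card X v with ⟨_, h2⟩ | h2
  · have h3 : ((X.erase v).card : ℝ) = X.card - 1 := by linarith
    rw [h3]
    nlinarith
  · rw [h2]
    have h3 : (0 : ℝ) ≤ X.card := Nat.cast_nonneg _
    nlinarith

private theorem stara_final (t : ℕ) (M : ℝ) (hM : 0 < M) (hMt : M < 2 ^ t) (c : ℝ) :
    ∃ b : ℝ, 0 < b ∧ b < 2 ^ t ∧ ∃ n₀ : ℕ, ∀ n ≥ n₀, M ^ n + n * (c * M ^ n) ≤ b ^ n := by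
  obtain ⟨C, hC⟩ := exists_nat_ge (max 1 c)
  have hC1 : (1 : ℝ) ≤ C := (le_max_left _ _).trans hC
  have hC2 : c ≤ C := (le_max_right _ _).trans hC
  obtain ⟨n₀, hn₀⟩ := poly_exp C M ((M + 2 ^ t) / 2) hM (by linarith)
  refine ⟨(M + 2 ^ t) / 2, by positivity, by linarith, n₀, fun n hn => ?_⟩
  refine le_trans ?_ (hn₀ n hn)
  have h0 : (0 : ℝ) ≤ n := Nat.cast_nonneg n
  have h1 : (1 : ℝ) + n * c ≤ C * (n + 1) ^ C := by
    have h2 : (1 : ℝ) + n * c ≤ C * (n + 1) := by nlinarith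
    refine h2.trans (mul_le_mul_of_nonneg_left ?_ (by linarith))
    refine le_self_pow₀ (by linarith) ?_
    rintro rfl
    norm_num at hC1
  have h2 : M ^ n + n * (c * M ^ n) = (1 + n * c) * M ^ n := by ring
  rw [h2]
  exact mul_le_mul_of_nonneg_right h1 (by positivity)

private theorem stara_sum {V : Type*} [Fintype V] [DecidableEq V] (i o : ℕ) (hio : i + o ≤ 3)
    (L : List Shape) (hL : ∀ T ∈ L, T.Valid) (H : SimpleGraph V) (X : Finset V) (M c : ℝ)
    (h1 : (({D : V → V → Prop | IsOr (res X H) D ∧ ¬ Packs (.star i o :: L) D X ∧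
        ∀ v ∈ X, ¬ (4 * L.length + 4 ≤ ideg D X v ∧ 4 * L.length + 4 ≤ odeg D X v)}.ncard : ℕ)
          : ℝ) ≤ M ^ X.card)
    (h2 : ∀ v ∈ X, (2 : ℝ) ^ deg H X v * (num L H (X.erase v) : ℝ) ≤ c * M ^ X.card) :
    (num (.star i o :: L) H X : ℝ) ≤ M ^ X.card + X.card * (c * M ^ X.card) := by
  have h3 := (Nat.cast_le (α := ℝ)).2 (peel_sum i o hio L hL H X)
  rw [Nat.cast_add] at h3
  refine h3.trans (add_le_add h1 ?_)
  push_cast
  refine (Finset.sum_le_sum h2).trans (le_of_eq ?_)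
  rw [Finset.sum_const, nsmul_eq_mul]

private theorem stara_term {b₁ M : ℝ} {n d : ℕ} {m : ℝ} (hb : 0 < b₁) (hM : 2 * b₁ ≤ M)
    (hd : d ≤ n) (hn : 1 ≤ n) (hm : m ≤ b₁ ^ (n - 1)) : (2 : ℝ) ^ d * m ≤ (1 / b₁) * M ^ n := by
  obtain ⟨k, rfl⟩ : ∃ k, n = k + 1 := ⟨n - 1, by omega⟩
  rw [Nat.add_sub_cancel] at hm
  have h1 : (2 : ℝ) ^ d ≤ 2 ^ (k + 1) := pow_le_pow_right₀ (by norm_num) hd
  calc (2 : ℝ) ^ d * m ≤ 2 ^ d * b₁ ^ k := mul_le_mul_of_nonneg_left hm (by positivity)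
    _ ≤ 2 ^ (k + 1) * b₁ ^ k := mul_le_mul_of_nonneg_right h1 (by positivity)
    _ = (1 / b₁) * (2 * b₁) ^ (k + 1) := by
        rw [mul_pow, pow_succ b₁]
        field_simp
    _ ≤ (1 / b₁) * M ^ (k + 1) := by
        refine mul_le_mul_of_nonneg_left ?_ (by positivity)
        exact pow_le_pow_left₀ (by positivity) hM _

theorem star_goodA (i o : ℕ) (hio : i + o ≤ 3) (L : List Shape) (hL : ∀ T ∈ L, T.Valid)
    (s : ℕ) (hA : GoodA L s) (h0 : Good0 L s) (hP : PureB (.star i o :: L) (s + 1)) :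
    GoodA (.star i o :: L) (s + 1) := by
  intro ε hε
  obtain ⟨e, he⟩ : ∃ e, e = min ε (1 / 2) := ⟨_, rfl⟩
  have he0 : 0 < e := by rw [he]; positivity
  have he1 : e < 1 := by
    have := min_le_right ε (1 / 2)
    linarith
  have heε : e ≤ ε := by
    rw [he]
    exact min_le_left _ _
  obtain ⟨b₁, hb₁, hb₁s, n₁, h₁⟩ := hA (e / 2) (by positivity)
  obtain ⟨n₂, h₂⟩ := h0
  obtain ⟨b₂, hb₂, hb₂s, n₃, h₃⟩ := hP (4 * L.length + 4)
  obtain ⟨b₃, hb₃⟩ : ∃ b₃ : ℝ, b₃ = (2 : ℝ) ^ (1 - e) * 2 ^ s := ⟨_, rfl⟩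
  have hb₃0 : 0 < b₃ := by rw [hb₃]; positivity
  have hb₃s : b₃ < 2 ^ (s + 1) := by
    rw [hb₃, pow_succ, mul_comm]
    refine mul_lt_mul_of_pos_left ?_ (by positivity)
    calc (2 : ℝ) ^ (1 - e) < 2 ^ (1 : ℝ) := Real.rpow_lt_rpow_of_exponent_lt (by norm_num)
          (by linarith)
      _ = 2 := Real.rpow_one 2
  obtain ⟨M, hM⟩ : ∃ M, M = max b₂ (max b₃ (2 * b₁)) := ⟨_, rfl⟩
  have hM2 : b₂ ≤ M := by rw [hM]; exact le_max_left _ _
  have hM3 : b₃ ≤ M := by rw [hM]; exact (le_max_left _ _).trans (le_max_right _ _)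
  have hM4 : 2 * b₁ ≤ M := by rw [hM]; exact (le_max_right _ _).trans (le_max_right _ _)
  have hM0 : 0 < M := lt_of_lt_of_le hb₂ hM2
  have hMs : M < 2 ^ (s + 1) := by
    rw [hM]
    refine max_lt hb₂s (max_lt hb₃s ?_)
    rw [pow_succ]
    linarith
  obtain ⟨b, hb, hbs, n₅, h₅⟩ := stara_final (s + 1) M hM0 hMs (max 1 (1 / b₁))
  obtain ⟨n₆, h₆⟩ := exists_nat_ge (2 / e)
  refine ⟨b, hb, hbs, n₁ + n₂ + n₃ + n₅ + n₆ + s + 1, ?_⟩
  intro V _ _ H X hX hbig
  refine le_trans ?_ (h₅ X.card (by omega))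
  have hXe : 2 / e ≤ (X.card : ℝ) := h₆.trans (by
    have : n₆ ≤ X.card := by omega
    exact_mod_cast this)
  have hbig' : (big e H X).ncard < s + 1 :=
    lt_of_le_of_lt (Set.ncard_le_ncard (stara_big_mono e ε heε H X) (Set.toFinite _)) hbig
  refine stara_sum i o hio L hL H X M _ ?_ ?_
  · exact (h₃ V H X (by omega)).trans (pow_le_pow_left₀ hb₂.le hM2 _)
  · intro v hv
    have hcard := Finset.card_erase_add_one hv
    by_cases hvb : v ∈ big e H X
    · -- a vertex of large degree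
      have h7 : (big (e / 2) H (X.erase v)).ncard < s := by
        have h8 := Set.ncard_le_ncard (big_erase e he0 he1 H X v hXe) (Set.toFinite _)
        have h9 := Set.ncard_sdiff_singleton_add_one hvb (Set.toFinite _)
        omega
      have h10 := h₁ V H (X.erase v) (by omega) h7
      have h11 := stara_term (m := (num L H (X.erase v) : ℝ)) hb₁ hM4
        (stara_deg_le H X v) (by omega) (by
          rw [show X.card - 1 = (X.erase v).card by omega]
          exact h10)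
      refine h11.trans (mul_le_mul_of_nonneg_right (le_max_right _ _) (by positivity))
    · -- a vertex of small degree
      have h7 : (deg H X v : ℝ) < (1 - e) * X.card := by
        by_contra hc
        push Not at hc
        exact hvb ⟨hv, hc⟩
      have h8 := h₂ V H (X.erase v) (by omega)
      have h9 : ext s (X.erase v).card ≤ s * X.card :=
        (ext_le s _ (by omega)).trans (Nat.mul_le_mul_left _ (by omega))
      have h10 : (num L H (X.erase v) : ℝ) ≤ (2 ^ s) ^ X.card := by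
        have h11 : num L H (X.erase v) ≤ 2 ^ (s * X.card) :=
          h8.trans (Nat.pow_le_pow_right (by norm_num) h9)
        rw [← pow_mul]
        exact_mod_cast h11
      have h11 : (2 : ℝ) ^ deg H X v ≤ ((2 : ℝ) ^ (1 - e)) ^ X.card := by
        rw [← Real.rpow_natCast 2 (deg H X v), ← Real.rpow_mul_natCast (by norm_num)]
        exact Real.rpow_le_rpow_of_exponent_le (by norm_num) h7.le
      calc (2 : ℝ) ^ deg H X v * (num L H (X.erase v) : ℝ)
          ≤ ((2 : ℝ) ^ (1 - e)) ^ X.card * (2 ^ s) ^ X.card :=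
            mul_le_mul h11 h10 (Nat.cast_nonneg _) (by positivity)
        _ = b₃ ^ X.card := by rw [hb₃, mul_pow]
        _ ≤ M ^ X.card := pow_le_pow_left₀ hb₃0.le hM3 _
        _ ≤ max 1 (1 / b₁) * M ^ X.card := by
            have := le_max_left 1 (1 / b₁)
            nlinarith [pow_pos hM0 X.card]

theorem star_goodB (i o : ℕ) (hio : i + o ≤ 3) (L : List Shape) (hL : ∀ T ∈ L, T.Valid)
    (s : ℕ) (hB : GoodB L s) (hP : PureB (.star i o :: L) (s + 1)) :
    GoodB (.star i o :: L) (s + 1) := by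
  obtain ⟨ε, hε, b₁, hb₁, hb₁s, n₁, h₁⟩ := hB
  obtain ⟨e, he⟩ : ∃ e, e = min ε (1 / 2) := ⟨_, rfl⟩
  have he0 : 0 < e := by rw [he]; positivity
  have he1 : e < 1 := by
    have := min_le_right ε (1 / 2)
    linarith
  have heε : e ≤ ε := by
    rw [he]
    exact min_le_left _ _
  obtain ⟨b₂, hb₂, hb₂s, n₃, h₃⟩ := hP (4 * L.length + 4)
  obtain ⟨M, hM⟩ : ∃ M, M = max b₂ (2 * b₁) := ⟨_, rfl⟩
  have hM2 : b₂ ≤ M := by rw [hM]; exact le_max_left _ _
  have hM4 : 2 * b₁ ≤ M := by rw [hM]; exact le_max_right _ _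
  have hM0 : 0 < M := lt_of_lt_of_le hb₂ hM2
  have hMs : M < 2 ^ (s + 1) := by
    rw [hM]
    refine max_lt hb₂s ?_
    rw [pow_succ]
    linarith
  obtain ⟨b, hb, hbs, n₅, h₅⟩ := stara_final (s + 1) M hM0 hMs (1 / b₁)
  obtain ⟨n₆, h₆⟩ := exists_nat_ge (2 / e)
  refine ⟨e / 2, by positivity, b, hb, hbs, n₁ + n₃ + n₅ + n₆ + 1, ?_⟩
  intro V _ _ H X hX hbig
  refine le_trans ?_ (h₅ X.card (by omega))
  have hXe : 2 / e ≤ (X.card : ℝ) := h₆.trans (by
    have : n₆ ≤ X.card := by omega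
    exact_mod_cast this)
  refine stara_sum i o hio L hL H X M _ ?_ ?_
  · exact (h₃ V H X (by omega)).trans (pow_le_pow_left₀ hb₂.le hM2 _)
  · intro v hv
    have hcard := Finset.card_erase_add_one hv
    have h7 : s < (big ε H (X.erase v)).ncard := by
      have h8 := Set.ncard_le_ncard ((big_erase' e he0 he1 H X v hXe).trans
        (stara_big_mono e ε heε H (X.erase v))) (Set.toFinite _)
      have h9 := Set.ncard_le_ncard_sdiff_add_ncard (big (e / 2) H X) {v}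
      rw [Set.ncard_singleton] at h9
      omega
    have h10 := h₁ V H (X.erase v) (by omega) h7
    exact stara_term (m := (num L H (X.erase v) : ℝ)) hb₁ hM4
      (stara_deg_le H X v) (by omega) (by
        rw [show X.card - 1 = (X.erase v).card by omega]
        exact h10)

end MP_0a9719_co
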