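import Pool.Agent.Lib.MP_0a9719_co.PairS
import Pool.Agent.Lib.MP_0a9719_co.StarA

/-! MP_0a9719_co, module PairA: `GoodA` and `GoodB` are preserved by adding an oriented path
with three edges (`s` grows by two).

`pair_goodA`: as `star_goodA` with `pair_sum`. Wlog `ε < 1`. Let `b₁` be from `GoodA L s` for `ε/4`.
Term of the pair `(v, w)`: if `v` or `w` is not in `big ε H X`: `deg v + deg w < (2 - ε) n` and
`num L H (..) ≤ 2^(ext s (n-2)) ≤ 2^(s n)`: at most `(2^(2-ε) 2^s)^n`. If both are in `big ε H X`: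
by `big_erase` twice (`ε`, then `ε/2`) `big (ε/4) H ((X.erase v).erase w) ⊆ big ε H X \ {v, w}` has fewer than
`s` elements (`(big ε H X).ncard < s + 2`), so the term is at most `2^(2n) b₁^(n-2)`. There are at
most `n^2` pairs. First set: `NoPairB`.
`pair_goodB`: `ε = ε'/4` with `ε'` from `GoodB L s` and `big_erase'` twice. -/

namespace MP_0a9719_co

private theorem PairA_deg_le {V : Type*} (H : SimpleGraph V) (X : Finset V) (v : V) :
    deg H X v ≤ X.card := by
  unfold deg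
  rw [← Set.ncard_coe_finset X]
  exact Set.ncard_le_ncard (fun u hu => hu.1) X.finite_toSet

private theorem PairA_big_mono {V : Type*} {ε ε' : ℝ} (h : ε ≤ ε') (H : SimpleGraph V)
    (X : Finset V) : big ε H X ⊆ big ε' H X := by
  rintro v ⟨hv, h1⟩
  refine ⟨hv, le_trans ?_ h1⟩
  exact mul_le_mul_of_nonneg_right (by linarith) (Nat.cast_nonneg _)

private theorem PairA_card {V : Type*} [DecidableEq V] {X : Finset V} {v w : V} (hv : v ∈ X)
    (hw : w ∈ X.erase v) : ((X.erase v).erase w).card + 2 = X.card ∧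
      (X.erase v).card + 1 = X.card := by
  have h1 := Finset.card_erase_add_one hv
  have h2 := Finset.card_erase_add_one hw
  omega

private theorem PairA_fin (a b c : Bool) (L : List Shape) (hL : ∀ T ∈ L, T.Valid) (s : ℕ)
    (hP : NoPairB (.p4 a b c :: L) (s + 2)) (m C : ℝ) (hm : 0 < m) (hm' : m < 2 ^ (s + 2))
    (hC : 0 ≤ C) : ∃ b' : ℝ, 0 < b' ∧ b' < 2 ^ (s + 2) ∧ ∃ n₀ : ℕ,
      ∀ (V : Type) [Fintype V] [DecidableEq V] (H : SimpleGraph V) (X : Finset V),
        n₀ ≤ X.card → (∀ v ∈ X, ∀ w ∈ X.erase v,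
          (2 : ℝ) ^ (deg H X v + deg H X w) * (num L H ((X.erase v).erase w) : ℝ) ≤
            C * m ^ X.card) → (num (.p4 a b c :: L) H X : ℝ) ≤ b' ^ X.card := by
  obtain ⟨b₂, hb20, hb2, n₂, h2⟩ := hP (4 * L.length + 4)
  obtain ⟨M, hM⟩ : ∃ M, M = max b₂ m := ⟨_, rfl⟩
  have hM0 : 0 < M := by rw [hM]; exact lt_max_of_lt_left hb20
  have hM1 : M < 2 ^ (s + 2) := by rw [hM]; exact max_lt hb2 hm'
  obtain ⟨N, hN⟩ := exists_nat_ge (C + 2)
  obtain ⟨n₀, h0⟩ := poly_exp N M ((M + 2 ^ (s + 2)) / 2) hM0 (by linarith)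
  refine ⟨(M + 2 ^ (s + 2)) / 2, by positivity, by linarith, max n₀ n₂, ?_⟩
  intro V _ _ H X hX hterm
  refine le_trans ?_ (h0 X.card (le_trans (le_max_left _ _) hX))
  have h3 := pair_sum a b c L hL H X
  have h4 := h2 V H X (le_trans (le_max_right _ _) hX)
  have h3' := (Nat.cast_le (α := ℝ)).2 h3
  push_cast at h3'
  have h6 : ∑ v ∈ X, ∑ w ∈ X.erase v,
      (2 : ℝ) ^ (deg H X v + deg H X w) * (num L H ((X.erase v).erase w) : ℝ) ≤
        X.card * (X.card * (C * m ^ X.card)) := by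
    rw [← nsmul_eq_mul]
    refine Finset.sum_le_card_nsmul _ _ _ fun v hv => ?_
    have h7 := Finset.sum_le_card_nsmul (X.erase v)
      (fun w => (2 : ℝ) ^ (deg H X v + deg H X w) * (num L H ((X.erase v).erase w) : ℝ))
      (C * m ^ X.card) (hterm v hv)
    refine h7.trans ?_
    rw [nsmul_eq_mul]
    refine mul_le_mul_of_nonneg_right ?_ (by positivity)
    exact_mod_cast Finset.card_le_card (Finset.erase_subset v X)
  obtain ⟨n, hn⟩ : ∃ n, n = X.card := ⟨_, rfl⟩
  rw [← hn] at h4 h6 ⊢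
  have h8 : b₂ ^ n ≤ M ^ n := pow_le_pow_left₀ hb20.le (by rw [hM]; exact le_max_left _ _) n
  have h9 : m ^ n ≤ M ^ n := pow_le_pow_left₀ hm.le (by rw [hM]; exact le_max_right _ _) n
  have h10 : (n : ℝ) * (n * (C * m ^ n)) ≤ n * (n * (C * M ^ n)) := by gcongr
  have hMn : 0 < M ^ n := pow_pos hM0 n
  have hN2 : 2 ≤ N := by
    have h11 : (2 : ℝ) ≤ N := by linarith
    exact_mod_cast h11
  have hn0 : (0 : ℝ) ≤ n := Nat.cast_nonneg _
  have h11 : ((n : ℝ) + 1) ^ 2 ≤ (n + 1) ^ N := pow_le_pow_right₀ (by linarith) hN2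
  have h12 : 1 + n * (n * C) ≤ (N : ℝ) * (n + 1) ^ 2 := by
    have h13 : (C + 2) * ((n : ℝ) + 1) ^ 2 ≤ N * (n + 1) ^ 2 :=
      mul_le_mul_of_nonneg_right hN (by positivity)
    have h14 : 0 ≤ C * (n : ℝ) := mul_nonneg hC hn0
    nlinarith
  have h13 : (N : ℝ) * (n + 1) ^ 2 ≤ N * (n + 1) ^ N :=
    mul_le_mul_of_nonneg_left h11 (Nat.cast_nonneg _)
  have h14 : (1 + n * (n * C)) * M ^ n ≤ N * (n + 1) ^ N * M ^ n :=
    mul_le_mul_of_nonneg_right (h12.trans h13) hMn.le
  have h15 : (1 + n * (n * C)) * M ^ n = M ^ n + n * (n * (C * M ^ n)) := by ring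
  linarith

/-- a term of the sum, if the rest has few orientations -/
private theorem PairA_term {n d₁ d₂ : ℕ} {b₁ N : ℝ} (hb : 0 < b₁) (h1 : d₁ ≤ n + 2)
    (h2 : d₂ ≤ n + 2) (hN : N ≤ b₁ ^ n) :
    (2 : ℝ) ^ (d₁ + d₂) * N ≤ 1 / b₁ ^ 2 * (4 * b₁) ^ (n + 2) := by
  have h3 : (2 : ℝ) ^ (d₁ + d₂) ≤ 4 ^ (n + 2) := by
    have h4 : (4 : ℝ) ^ (n + 2) = 2 ^ (2 * (n + 2)) := by
      rw [pow_mul]
      norm_num
    rw [h4]
    exact pow_le_pow_right₀ (by norm_num) (by omega)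
  have h4 : 1 / b₁ ^ 2 * (4 * b₁) ^ (n + 2) = 4 ^ (n + 2) * b₁ ^ n := by
    rw [mul_pow, pow_add b₁ n 2]
    field_simp
  rw [h4]
  calc (2 : ℝ) ^ (d₁ + d₂) * N ≤ (2 : ℝ) ^ (d₁ + d₂) * b₁ ^ n :=
        mul_le_mul_of_nonneg_left hN (by positivity)
    _ ≤ 4 ^ (n + 2) * b₁ ^ n := mul_le_mul_of_nonneg_right h3 (by positivity)

/-- a term of the sum, if one of the degrees is small -/
private theorem PairA_small {n d₁ d₂ s : ℕ} {ε : ℝ} {N : ℕ}
    (h1 : (d₁ : ℝ) + d₂ ≤ (2 - ε) * n) (hN : N ≤ 2 ^ (s * n)) :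
    (2 : ℝ) ^ (d₁ + d₂) * N ≤ ((2 : ℝ) ^ (2 - ε) * 2 ^ s) ^ n := by
  have h3 : (2 : ℝ) ^ (d₁ + d₂) ≤ ((2 : ℝ) ^ (2 - ε)) ^ n := by
    rw [← Real.rpow_natCast, ← Real.rpow_natCast, ← Real.rpow_mul (by norm_num)]
    refine Real.rpow_le_rpow_of_exponent_le (by norm_num) ?_
    push_cast
    exact h1
  have h4 : (N : ℝ) ≤ ((2 : ℝ) ^ s) ^ n := by
    rw [← pow_mul]
    exact_mod_cast hN
  rw [mul_pow]
  exact mul_le_mul h3 h4 (Nat.cast_nonneg _) (by positivity)

theorem pair_goodA (a b c : Bool) (L : List Shape) (hL : ∀ T ∈ L, T.Valid)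
    (s : ℕ) (hA : GoodA L s) (h0 : Good0 L s) (hP : NoPairB (.p4 a b c :: L) (s + 2)) :
    GoodA (.p4 a b c :: L) (s + 2) := by
  intro ε hε
  obtain ⟨e, he⟩ : ∃ e, e = min ε (1 / 2) := ⟨_, rfl⟩
  have he0 : 0 < e := by rw [he]; exact lt_min hε (by norm_num)
  have he1 : e < 1 := by
    rw [he]
    exact lt_of_le_of_lt (min_le_right _ _) (by norm_num)
  have heε : e ≤ ε := by rw [he]; exact min_le_left _ _
  obtain ⟨b₁, hb10, hb1, n₁, h1⟩ := hA (e / 4) (by positivity)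
  obtain ⟨n₃, h3⟩ := h0
  have hb3 : (2 : ℝ) ^ (2 - e) * 2 ^ s < 2 ^ (s + 2) := by
    have h4 : (2 : ℝ) ^ (2 - e) < (2 : ℝ) ^ (2 : ℝ) :=
      Real.rpow_lt_rpow_of_exponent_lt (by norm_num) (by linarith)
    have h5 : (2 : ℝ) ^ (2 : ℝ) = 4 := by
      rw [show (2 : ℝ) = ((2 : ℕ) : ℝ) by norm_num, Real.rpow_natCast]
      norm_num
    rw [h5] at h4
    have h6 : (2 : ℝ) ^ (s + 2) = 4 * 2 ^ s := by ring
    rw [h6]
    exact mul_lt_mul_of_pos_right h4 (by positivity)
  have hb1' : 4 * b₁ < 2 ^ (s + 2) := by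
    have h6 : (2 : ℝ) ^ (s + 2) = 4 * 2 ^ s := by ring
    rw [h6]
    linarith
  obtain ⟨b', hb'0, hb', n₀, hfin⟩ := PairA_fin a b c L hL s hP
    (max ((2 : ℝ) ^ (2 - e) * 2 ^ s) (4 * b₁)) (1 + 1 / b₁ ^ 2)
    (lt_max_of_lt_right (by linarith)) (max_lt hb3 hb1') (by positivity)
  refine ⟨b', hb'0, hb', max n₀ (n₁ + n₃ + s + 2 + (⌈4 / e⌉₊ + 1)), ?_⟩
  intro V _ _ H X hX hbig
  have hX0 : n₀ ≤ X.card := le_trans (le_max_left _ _) hX
  have hX1 : n₁ + n₃ + s + 2 + (⌈4 / e⌉₊ + 1) ≤ X.card := le_trans (le_max_right _ _) hX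
  refine hfin V H X hX0 fun v hv w hw => ?_
  obtain ⟨hc, hc'⟩ := PairA_card hv hw
  have hwX : w ∈ X := Finset.mem_of_mem_erase hw
  have hwv : w ≠ v := Finset.ne_of_mem_erase hw
  have hdv := PairA_deg_le H X v
  have hdw := PairA_deg_le H X w
  have hceil : 4 / e ≤ (⌈4 / e⌉₊ : ℝ) := Nat.le_ceil _
  have hbase : (2 : ℝ) ^ (deg H X v + deg H X w) * (num L H ((X.erase v).erase w) : ℝ) ≤
      max (((2 : ℝ) ^ (2 - e) * 2 ^ s) ^ X.card) (1 / b₁ ^ 2 * (4 * b₁) ^ X.card) := by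
    by_cases hvb : v ∈ big e H X ∧ w ∈ big e H X
    · refine le_trans ?_ (le_max_right _ _)
      have h4 : 4 / e ≤ ((X.erase v).card : ℝ) := by
        refine hceil.trans ?_
        exact_mod_cast (by omega : ⌈4 / e⌉₊ ≤ (X.erase v).card)
      have h5 : 2 / e ≤ (X.card : ℝ) := by
        have h6 : 2 / e ≤ 4 / e := by
          apply div_le_div_of_nonneg_right _ he0.le
          norm_num
        have h7 : ((X.erase v).card : ℝ) ≤ X.card := by
          exact_mod_cast (by omega : (X.erase v).card ≤ X.card)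
        linarith
      have h6 := big_erase e he0 he1 H X v h5
      have h7 := big_erase (e / 2) (by positivity) (by linarith) H (X.erase v) w (by
        have h8 : 2 / (e / 2) = 4 / e := by
          field_simp
          norm_num
        rw [h8]
        exact h4)
      have h8 : e / 2 / 2 = e / 4 := by ring
      rw [h8] at h7
      have h9 : insert v (insert w (big (e / 4) H ((X.erase v).erase w))) ⊆ big e H X := by
        refine Set.insert_subset hvb.1 (Set.insert_subset hvb.2 ?_)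
        exact fun x hx => (h6 (h7 hx).1).1
      have h10 : w ∉ big (e / 4) H ((X.erase v).erase w) := fun hx => (h7 hx).2 rfl
      have h11 : v ∉ insert w (big (e / 4) H ((X.erase v).erase w)) := by
        rintro (hx | hx)
        · exact hwv hx.symm
        · exact (h6 (h7 hx).1).2 rfl
      have h12 := Set.ncard_le_ncard h9 (Set.toFinite _)
      rw [Set.ncard_insert_of_notMem h11 (Set.toFinite _),
        Set.ncard_insert_of_notMem h10 (Set.toFinite _)] at h12
      have h13 := Set.ncard_le_ncard (PairA_big_mono heε H X) (Set.toFinite _)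
      have h14 := h1 V H ((X.erase v).erase w) (by omega) (by omega)
      have h15 := PairA_term (n := ((X.erase v).erase w).card) (d₁ := deg H X v)
        (d₂ := deg H X w) hb10 (by omega) (by omega) h14
      rw [hc] at h15
      exact h15
    · refine le_trans ?_ (le_max_left _ _)
      apply PairA_small
      · have hdv' : (deg H X v : ℝ) ≤ X.card := by exact_mod_cast hdv
        have hdw' : (deg H X w : ℝ) ≤ X.card := by exact_mod_cast hdw
        rw [not_and_or] at hvb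
        rcases hvb with hvb | hvb
        · have h4 : (deg H X v : ℝ) < (1 - e) * X.card := by
            by_contra h5
            exact hvb ⟨hv, not_lt.1 h5⟩
          linarith
        · have h4 : (deg H X w : ℝ) < (1 - e) * X.card := by
            by_contra h5
            exact hvb ⟨hwX, not_lt.1 h5⟩
          linarith
      · refine (h3 V H ((X.erase v).erase w) (by omega)).trans ?_
        refine Nat.pow_le_pow_right (by norm_num) ?_
        refine (ext_le s _ (by omega)).trans ?_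
        exact Nat.mul_le_mul_left s (by omega)
  refine hbase.trans ?_
  have hmax : 0 < max ((2 : ℝ) ^ (2 - e) * 2 ^ s) (4 * b₁) :=
    lt_max_of_lt_right (by linarith)
  have hpow := pow_pos hmax X.card
  have hinv : 0 < 1 / b₁ ^ 2 := by positivity
  refine max_le ?_ ?_
  · have h4 : ((2 : ℝ) ^ (2 - e) * 2 ^ s) ^ X.card ≤
        (max ((2 : ℝ) ^ (2 - e) * 2 ^ s) (4 * b₁)) ^ X.card :=
      pow_le_pow_left₀ (by positivity) (le_max_left _ _) _
    nlinarith
  · have h4 : (4 * b₁) ^ X.card ≤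
        (max ((2 : ℝ) ^ (2 - e) * 2 ^ s) (4 * b₁)) ^ X.card :=
      pow_le_pow_left₀ (by positivity) (le_max_right _ _) _
    have h5 := mul_le_mul_of_nonneg_left h4 hinv.le
    nlinarith

theorem pair_goodB (a b c : Bool) (L : List Shape) (hL : ∀ T ∈ L, T.Valid)
    (s : ℕ) (hB : GoodB L s) (hP : NoPairB (.p4 a b c :: L) (s + 2)) :
    GoodB (.p4 a b c :: L) (s + 2) := by
  obtain ⟨ε, hε, b₁, hb10, hb1, n₁, h1⟩ := hB
  obtain ⟨e, he⟩ : ∃ e, e = min ε (1 / 2) := ⟨_, rfl⟩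
  have he0 : 0 < e := by rw [he]; exact lt_min hε (by norm_num)
  have he1 : e < 1 := by
    rw [he]
    exact lt_of_le_of_lt (min_le_right _ _) (by norm_num)
  have heε : e ≤ ε := by rw [he]; exact min_le_left _ _
  have hb1' : 4 * b₁ < 2 ^ (s + 2) := by
    have h6 : (2 : ℝ) ^ (s + 2) = 4 * 2 ^ s := by ring
    rw [h6]
    linarith
  obtain ⟨b', hb'0, hb', n₀, hfin⟩ := PairA_fin a b c L hL s hP (4 * b₁) (1 / b₁ ^ 2)
    (by linarith) hb1' (by positivity)
  refine ⟨e / 4, by positivity, b', hb'0, hb', max n₀ (n₁ + 2 + (⌈4 / e⌉₊ + 1)), ?_⟩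
  intro V _ _ H X hX hbig
  have hX0 : n₀ ≤ X.card := le_trans (le_max_left _ _) hX
  have hX1 : n₁ + 2 + (⌈4 / e⌉₊ + 1) ≤ X.card := le_trans (le_max_right _ _) hX
  refine hfin V H X hX0 fun v hv w hw => ?_
  obtain ⟨hc, hc'⟩ := PairA_card hv hw
  have hdv := PairA_deg_le H X v
  have hdw := PairA_deg_le H X w
  have hceil : 4 / e ≤ (⌈4 / e⌉₊ : ℝ) := Nat.le_ceil _
  have h4 : 4 / e ≤ ((X.erase v).card : ℝ) := by
    refine hceil.trans ?_
    exact_mod_cast (by omega : ⌈4 / e⌉₊ ≤ (X.erase v).card)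
  have h4' : 4 / e ≤ (X.card : ℝ) := by
    refine hceil.trans ?_
    exact_mod_cast (by omega : ⌈4 / e⌉₊ ≤ X.card)
  have h5 : 2 / e ≤ ((X.erase v).card : ℝ) := by
    have h6 : 2 / e ≤ 4 / e := by
      apply div_le_div_of_nonneg_right _ he0.le
      norm_num
    linarith
  have h6 := big_erase' (e / 2) (by positivity) (by linarith) H X v (by
    have h8 : 2 / (e / 2) = 4 / e := by
      field_simp
      norm_num
    rw [h8]
    exact h4')
  have h8 : e / 2 / 2 = e / 4 := by ring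
  rw [h8] at h6
  have h7 := big_erase' e he0 he1 H (X.erase v) w h5
  have h9 : big (e / 4) H X ⊆ insert v (insert w (big ε H ((X.erase v).erase w))) := by
    intro x hx
    by_cases hxv : x = v
    · exact Or.inl hxv
    · by_cases hxw : x = w
      · exact Or.inr (Or.inl hxw)
      · exact Or.inr (Or.inr (PairA_big_mono heε _ _ (h7 ⟨h6 ⟨hx, hxv⟩, hxw⟩)))
  have h12 := Set.ncard_le_ncard h9 (Set.toFinite _)
  have h13 := Set.ncard_insert_le v (insert w (big ε H ((X.erase v).erase w)))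
  have h14 := Set.ncard_insert_le w (big ε H ((X.erase v).erase w))
  have h15 := h1 V H ((X.erase v).erase w) (by omega) (by omega)
  have h16 := PairA_term (n := ((X.erase v).erase w).card) (d₁ := deg H X v)
    (d₂ := deg H X w) hb10 (by omega) (by omega) h15
  rw [hc] at h16
  exact h16

end MP_0a9719_co
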