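import Pool.Agent.Lib.MP_0a9719_co.FibOr
import Pool.Agent.Lib.MP_0a9719_co.Pack

/-! MP_0a9719_co, module PairN: orientations in which a given pair is not good.

Let `v ≠ w` in `X`, `m` a bound for the number of vertices of `X` (other than `v, w`) adjacent to
exactly one of them. Let `D` be an orientation for which `(v, w)` is not `K`-good. Let `R c` be the set
of `x ∈ X \ {v, w}` with `arc c.1 D v x`, `arc c.2 D w x`. At most two of the four `R c` have `≥ K`
elements; the union `B` of the others has fewer than `4 K` elements. Case (i): all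
`c` with `|R c| ≥ K` have the same first coordinate `α` (or there are none). Then given
`D' = rr (X.erase v) D`, the arcs at `v` are determined by: `α`, the set `B` (fewer than `4K`
elements of `X`), the directions between `v` and `B`, the directions between `v` and the `≤ m` vertices
adjacent to exactly one of `v`, `w`, and the direction of `vw`: at most
`2 (n+1)^(4K) 2^(4K) 2^m 2` possibilities (`few_subsets`). Case (ii): all have the same second
coordinate: same with `v` and `w` exchanged. Case (iii): the two abundant patterns are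
`(α, β)` and `(!α, !β)`. Then given `rr (X.erase w) D`, the arcs at `w` to the common
neighbours outside `B` are determined by the arcs at `v` and by `α, β`. So in all cases, for `u = v`
or `u = w`, `D` lies in a set whose fibres over `rr (X.erase u)` have at most
`C (n+1)^C 2^m` elements with `C` depending on `K` only; and `rr (X.erase u) D` has no
disjoint copies of the shapes of `L'` in `X.erase u` (`packs_mono`). -/

namespace MP_0a9719_co

/-- counting by the restriction to `X.erase u`, a small set of exceptions and a subset of `M`. -/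
theorem PairN_count {V : Type*} [Fintype V] [DecidableEq V] (L' : List Shape) (H : SimpleGraph V)
    (X : Finset V) (u : V) (M : Set V) {m : ℕ} (hM : M.ncard ≤ m)
    (P : (V → V → Prop) → Set V) (T : ℕ) :
    {D : V → V → Prop | IsOr (res X H) D ∧ ¬ Packs L' D X ∧
      {x | x ∈ X ∧ x ≠ u ∧ x ∉ M ∧ ¬ (D u x ↔ x ∈ P (rr (X.erase u) D))}.ncard < T}.ncard ≤
      (X.card + 1) ^ T * 2 ^ m * num L' H (X.erase u) := by
  classical
  unfold num
  refine fiber_le _ _ (rr (X.erase u)) _ ?_ ?_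
  · rintro D ⟨h1, h2, -⟩
    refine ⟨isOr_rr h1 (Finset.erase_subset u X), fun h3 => h2 ?_⟩
    rw [packs_rr L' D (subset_refl _)] at h3
    exact packs_mono L' D (Finset.erase_subset u X) h3
  · intro E _
    refine (inj_le _ ({S : Set V | S ⊆ (X : Set V) ∧ S.ncard < T} ×ˢ (𝒫 M))
      (fun D => ({x | x ∈ X ∧ x ≠ u ∧ x ∉ M ∧ ¬ (D u x ↔ x ∈ P (rr (X.erase u) D))},
        {x | x ∈ M ∧ D u x})) ?_ ?_).trans ?_
    · rintro D ⟨⟨h1, h2, h3⟩, h4⟩
      refine ⟨⟨?_, h3⟩, ?_⟩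
      · intro x hx
        exact hx.1
      · intro x hx
        exact hx.1
    · rintro D ⟨⟨h1, h2, h3⟩, h4⟩ D' ⟨⟨h1', h2', h3'⟩, h4'⟩ he
      rw [Prod.mk.injEq] at he
      obtain ⟨he1, he2⟩ := he
      have key : ∀ b, D u b ↔ D' u b := by
        intro b
        by_cases hbX : b ∈ X
        swap
        · exact ⟨fun h => absurd (isOr_mem h1 h).2.1 hbX, fun h => absurd (isOr_mem h1' h).2.1 hbX⟩
        by_cases hbu : b = u
        · subst hbu
          exact ⟨fun h => absurd (isOr_mem h1 h).2.2.1 (H.loopless.irrefl b),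
            fun h => absurd (isOr_mem h1' h).2.2.1 (H.loopless.irrefl b)⟩
        by_cases hbM : b ∈ M
        · have h5 : b ∈ {x | x ∈ M ∧ D u x} ↔ b ∈ {x | x ∈ M ∧ D' u x} := by rw [he2]
          exact ⟨fun h => (h5.1 ⟨hbM, h⟩).2, fun h => (h5.2 ⟨hbM, h⟩).2⟩
        · have h5 : b ∈ {x | x ∈ X ∧ x ≠ u ∧ x ∉ M ∧ ¬ (D u x ↔ x ∈ P (rr (X.erase u) D))} ↔
              b ∈ {x | x ∈ X ∧ x ≠ u ∧ x ∉ M ∧ ¬ (D' u x ↔ x ∈ P (rr (X.erase u) D'))} := by
            rw [he1]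
          have h6 : (¬ (D u b ↔ b ∈ P E)) ↔ ¬ (D' u b ↔ b ∈ P E) := by
            constructor
            · intro h
              have h7 := (h5.1 ⟨hbX, hbu, hbM, by rw [h4]; exact h⟩).2.2.2
              rwa [h4'] at h7
            · intro h
              have h7 := (h5.2 ⟨hbX, hbu, hbM, by rw [h4']; exact h⟩).2.2.2
              rwa [h4] at h7
          tauto
      funext a b
      apply propext
      by_cases hau : a = u
      · subst hau
        exact key b
      by_cases hbu : b = u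
      · subst hbu
        have e1 := h1 a b
        have e2 := h1' a b
        have e3 := key a
        tauto
      have e1 : rr (X.erase u) D a b ↔ rr (X.erase u) D' a b := by rw [h4, h4']
      constructor
      · intro h
        have h5 := isOr_mem h1 h
        exact (e1.1 ⟨h, Finset.mem_erase.2 ⟨hau, h5.1⟩, Finset.mem_erase.2 ⟨hbu, h5.2.1⟩⟩).1
      · intro h
        have h5 := isOr_mem h1' h
        exact (e1.2 ⟨h, Finset.mem_erase.2 ⟨hau, h5.1⟩, Finset.mem_erase.2 ⟨hbu, h5.2.1⟩⟩).1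
    · rw [Set.ncard_prod]
      refine Nat.mul_le_mul (few_subsets X T) ?_
      rw [Set.ncard_powerset M (Set.toFinite M)]
      exact Nat.pow_le_pow_right (by norm_num) hM

theorem PairN_bool : ∀ A : Finset (Bool × Bool), A.card ≤ 2 →
    (∃ α : Bool, ∀ c ∈ A, c.1 = α) ∨ (∃ β : Bool, ∀ c ∈ A, c.2 = β) ∨
      ∃ γ : Bool, ∀ c ∈ A, (c.1 = c.2 ↔ γ = true) := by
  decide

/-- the trichotomy. -/
theorem PairN_tri {V : Type*} [Fintype V] [DecidableEq V] (K : ℕ) (H : SimpleGraph V)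
    (X : Finset V) {v w : V} (hv : v ∈ X) (hw : w ∈ X) (hvw : v ≠ w) {D : V → V → Prop}
    (hD : IsOr (res X H) D) (hn : ¬ GoodPair K D X v w) :
    (∃ α : Bool, {x | x ∈ X ∧ x ≠ v ∧
      x ∉ {x | x ∈ X ∧ x ≠ v ∧ x ≠ w ∧ ¬ (H.Adj v x ↔ H.Adj w x)} ∧
      ¬ (D v x ↔ x ∈ {x | (x ∈ X ∧ x ≠ v ∧ x ≠ w ∧ H.Adj v x ∧ H.Adj w x) ∧
        α = true})}.ncard < 4 * K + 2) ∨
    (∃ β : Bool, {x | x ∈ X ∧ x ≠ w ∧
      x ∉ {x | x ∈ X ∧ x ≠ v ∧ x ≠ w ∧ ¬ (H.Adj v x ↔ H.Adj w x)} ∧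
      ¬ (D w x ↔ x ∈ {x | (x ∈ X ∧ x ≠ v ∧ x ≠ w ∧ H.Adj v x ∧ H.Adj w x) ∧
        β = true})}.ncard < 4 * K + 2) ∨
    (∃ γ : Bool, {x | x ∈ X ∧ x ≠ w ∧
      x ∉ {x | x ∈ X ∧ x ≠ v ∧ x ≠ w ∧ ¬ (H.Adj v x ↔ H.Adj w x)} ∧
      ¬ (D w x ↔ x ∈ {x | (x ∈ X ∧ x ≠ v ∧ x ≠ w ∧ H.Adj v x ∧ H.Adj w x) ∧
        (rr (X.erase w) D v x ↔ γ = true)})}.ncard < 4 * K + 2) := by
  classical
  set R : Bool × Bool → Set V := fun c =>
    {x | x ∈ X ∧ x ≠ v ∧ x ≠ w ∧ arc c.1 D v x ∧ arc c.2 D w x} with hR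
  set Ab : Set (Bool × Bool) := {c | K ≤ (R c).ncard} with hAb
  have hAb2 : Ab.ncard ≤ 2 := by
    by_contra h
    exact hn (by unfold GoodPair; exact Nat.succ_le_of_lt (not_le.1 h))
  set R' : Bool × Bool → Set V := fun c => {x | c ∉ Ab ∧ x ∈ R c} with hR'
  have hR'c : ∀ c, (R' c).ncard ≤ K := by
    intro c
    by_cases hc : c ∈ Ab
    · have h1 : R' c = ∅ := by
        ext x
        simp only [hR', Set.mem_ofPred_eq, Set.mem_empty_iff_false, iff_false, not_and]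
        intro h
        exact absurd hc h
      rw [h1, Set.ncard_empty]
      exact Nat.zero_le _
    · have h1 : R' c ⊆ R c := fun x hx => hx.2
      have h2 : (R c).ncard < K := not_le.1 hc
      exact (Set.ncard_le_ncard h1 (Set.toFinite _)).trans h2.le
  set B : Set V := {x | ∃ c, c ∉ Ab ∧ x ∈ R c} with hB
  have hBc : B.ncard ≤ 4 * K := by
    have h1 : B ⊆ (R' (true, true) ∪ R' (true, false)) ∪ (R' (false, true) ∪ R' (false, false)) := by
      rintro x ⟨⟨a, b⟩, h1, h2⟩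
      cases a <;> cases b
      · exact Or.inr (Or.inr ⟨h1, h2⟩)
      · exact Or.inr (Or.inl ⟨h1, h2⟩)
      · exact Or.inl (Or.inr ⟨h1, h2⟩)
      · exact Or.inl (Or.inl ⟨h1, h2⟩)
    have h2 := Set.ncard_le_ncard h1 (Set.toFinite _)
    have h3 := Set.ncard_union_le (R' (true, true) ∪ R' (true, false))
      (R' (false, true) ∪ R' (false, false))
    have h4 := Set.ncard_union_le (R' (true, true)) (R' (true, false))
    have h5 := Set.ncard_union_le (R' (false, true)) (R' (false, false))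
    have h6 := hR'c (true, true)
    have h7 := hR'c (true, false)
    have h8 := hR'c (false, true)
    have h9 := hR'c (false, false)
    omega
  have hins : ∀ (y : V) (S : Set V), S ⊆ insert y B → S.ncard < 4 * K + 2 := by
    intro y S hS
    have h1 := Set.ncard_le_ncard hS (Set.toFinite _)
    have h2 := Set.ncard_insert_le y B
    omega
  have harc : ∀ y x, y ∈ X → x ∈ X → H.Adj y x → arc (decide (D y x)) D y x := by
    intro y x hy hx hyx
    by_cases h : D y x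
    · rw [decide_eq_true h]
      exact h
    · rw [decide_eq_false h]
      rcases isOr_adj hD hy hx hyx with h1 | h1
      · exact absurd h1 h
      · exact h1
  have hcx : ∀ x, x ∈ X → x ≠ v → x ≠ w → H.Adj v x → H.Adj w x → x ∉ B →
      (decide (D v x), decide (D w x)) ∈ Ab := by
    intro x hx hxv hxw h1 h2 hxB
    by_contra hcon
    exact hxB ⟨_, hcon, hx, hxv, hxw, harc v x hv hx h1, harc w x hw hx h2⟩
  have hnadj : ∀ y x, ¬ H.Adj y x → ¬ D y x := fun y x h h' => h (isOr_mem hD h').2.2.1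
  have hbool := PairN_bool Ab.toFinset (by rw [← Set.ncard_eq_toFinset_card']; exact hAb2)
  simp only [Set.mem_toFinset] at hbool
  rcases hbool with ⟨α, hα⟩ | ⟨β, hβ⟩ | ⟨γ, hγ⟩
  · left
    refine ⟨α, hins w _ ?_⟩
    rintro x ⟨hx, hxv, hxM, hxP⟩
    by_contra hcon
    rw [Set.mem_insert_iff, not_or] at hcon
    obtain ⟨hxw, hxB⟩ := hcon
    apply hxP
    have hadj : H.Adj v x ↔ H.Adj w x := by
      by_contra h
      exact hxM ⟨hx, hxv, hxw, h⟩
    by_cases h1 : H.Adj v x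
    · have h2 := hα _ (hcx x hx hxv hxw h1 (hadj.1 h1) hxB)
      simp only at h2
      constructor
      · intro h
        exact ⟨⟨hx, hxv, hxw, h1, hadj.1 h1⟩, by rw [← h2]; exact decide_eq_true h⟩
      · rintro ⟨-, h⟩
        rw [h] at h2
        exact of_decide_eq_true h2
    · exact ⟨fun h => absurd h (hnadj v x h1), fun h => absurd h.1.2.2.2.1 h1⟩
  · right
    left
    refine ⟨β, hins v _ ?_⟩
    rintro x ⟨hx, hxw, hxM, hxP⟩
    by_contra hcon
    rw [Set.mem_insert_iff, not_or] at hcon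
    obtain ⟨hxv, hxB⟩ := hcon
    apply hxP
    have hadj : H.Adj v x ↔ H.Adj w x := by
      by_contra h
      exact hxM ⟨hx, hxv, hxw, h⟩
    by_cases h1 : H.Adj v x
    · have h2 := hβ _ (hcx x hx hxv hxw h1 (hadj.1 h1) hxB)
      simp only at h2
      constructor
      · intro h
        exact ⟨⟨hx, hxv, hxw, h1, hadj.1 h1⟩, by rw [← h2]; exact decide_eq_true h⟩
      · rintro ⟨-, h⟩
        rw [h] at h2
        exact of_decide_eq_true h2
    · exact ⟨fun h => absurd h (hnadj w x fun h' => h1 (hadj.2 h')),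
        fun h => absurd h.1.2.2.2.1 h1⟩
  · right
    right
    refine ⟨γ, hins v _ ?_⟩
    rintro x ⟨hx, hxw, hxM, hxP⟩
    by_contra hcon
    rw [Set.mem_insert_iff, not_or] at hcon
    obtain ⟨hxv, hxB⟩ := hcon
    apply hxP
    have hadj : H.Adj v x ↔ H.Adj w x := by
      by_contra h
      exact hxM ⟨hx, hxv, hxw, h⟩
    have hrr : rr (X.erase w) D v x ↔ D v x :=
      ⟨fun h => h.1, fun h => ⟨h, Finset.mem_erase.2 ⟨hvw, hv⟩, Finset.mem_erase.2 ⟨hxw, hx⟩⟩⟩
    by_cases h1 : H.Adj v x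
    · have h2 := hγ _ (hcx x hx hxv hxw h1 (hadj.1 h1) hxB)
      simp only [decide_eq_decide] at h2
      have h3 : x ∈ {x | (x ∈ X ∧ x ≠ v ∧ x ≠ w ∧ H.Adj v x ∧ H.Adj w x) ∧
          (rr (X.erase w) D v x ↔ γ = true)} ↔ (D v x ↔ γ = true) := by
        rw [Set.mem_ofPred_eq, hrr]
        exact ⟨fun h => h.2, fun h => ⟨⟨hx, hxv, hxw, h1, hadj.1 h1⟩, h⟩⟩
      rw [h3]
      tauto
    · exact ⟨fun h => absurd h (hnadj w x fun h' => h1 (hadj.2 h')),
        fun h => absurd h.1.2.2.2.1 h1⟩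

theorem pair_not_good (K : ℕ) :
    ∃ C : ℕ, ∀ (V : Type) [Fintype V] [DecidableEq V] (L' : List Shape) (H : SimpleGraph V)
      (X : Finset V) (v w : V) (m : ℕ), v ∈ X → w ∈ X → v ≠ w →
      {x | x ∈ X ∧ x ≠ v ∧ x ≠ w ∧ ¬ (H.Adj v x ↔ H.Adj w x)}.ncard ≤ m →
      {D : V → V → Prop | IsOr (res X H) D ∧ ¬ Packs L' D X ∧ ¬ GoodPair K D X v w}.ncard ≤
        C * (X.card + 1) ^ C * 2 ^ m * (num L' H (X.erase v) + num L' H (X.erase w)) := by
  refine ⟨4 * K + 6, ?_⟩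
  intro V _ _ L' H X v w m hv hw hvw hm
  classical
  set M : Set V := {x | x ∈ X ∧ x ≠ v ∧ x ≠ w ∧ ¬ (H.Adj v x ↔ H.Adj w x)} with hMdef
  set Q : ℕ := (X.card + 1) ^ (4 * K + 2) * 2 ^ m with hQ
  have hA : ∀ (u : V) (P : (V → V → Prop) → Set V),
      {D : V → V → Prop | IsOr (res X H) D ∧ ¬ Packs L' D X ∧
        {x | x ∈ X ∧ x ≠ u ∧ x ∉ M ∧ ¬ (D u x ↔ x ∈ P (rr (X.erase u) D))}.ncard <
          4 * K + 2}.ncard ≤ Q * num L' H (X.erase u) :=
    fun u P => PairN_count L' H X u M hm P (4 * K + 2)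
  have hi := fun α : Bool => hA v fun _ =>
    {x | (x ∈ X ∧ x ≠ v ∧ x ≠ w ∧ H.Adj v x ∧ H.Adj w x) ∧ α = true}
  have hii := fun α : Bool => hA w fun _ =>
    {x | (x ∈ X ∧ x ≠ v ∧ x ≠ w ∧ H.Adj v x ∧ H.Adj w x) ∧ α = true}
  have hiii := fun γ : Bool => hA w fun E =>
    {x | (x ∈ X ∧ x ≠ v ∧ x ≠ w ∧ H.Adj v x ∧ H.Adj w x) ∧ (E v x ↔ γ = true)}
  set a := num L' H (X.erase v) with ha
  set b := num L' H (X.erase w) with hb
  set S1 : Bool → Set (V → V → Prop) := fun α => {D | IsOr (res X H) D ∧ ¬ Packs L' D X ∧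
    {x | x ∈ X ∧ x ≠ v ∧ x ∉ M ∧ ¬ (D v x ↔ x ∈
      {x | (x ∈ X ∧ x ≠ v ∧ x ≠ w ∧ H.Adj v x ∧ H.Adj w x) ∧ α = true})}.ncard < 4 * K + 2}
  set S2 : Bool → Set (V → V → Prop) := fun α => {D | IsOr (res X H) D ∧ ¬ Packs L' D X ∧
    {x | x ∈ X ∧ x ≠ w ∧ x ∉ M ∧ ¬ (D w x ↔ x ∈
      {x | (x ∈ X ∧ x ≠ v ∧ x ≠ w ∧ H.Adj v x ∧ H.Adj w x) ∧ α = true})}.ncard < 4 * K + 2}
  set S3 : Bool → Set (V → V → Prop) := fun α => {D | IsOr (res X H) D ∧ ¬ Packs L' D X ∧
    {x | x ∈ X ∧ x ≠ w ∧ x ∉ M ∧ ¬ (D w x ↔ x ∈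
      {x | (x ∈ X ∧ x ≠ v ∧ x ≠ w ∧ H.Adj v x ∧ H.Adj w x) ∧
        (rr (X.erase w) D v x ↔ α = true)})}.ncard < 4 * K + 2}
  have g1 : ∀ α, (S1 α).ncard ≤ Q * a := hi
  have g2 : ∀ α, (S2 α).ncard ≤ Q * b := hii
  have g3 : ∀ α, (S3 α).ncard ≤ Q * b := hiii
  have hcov : {D : V → V → Prop | IsOr (res X H) D ∧ ¬ Packs L' D X ∧
      ¬ GoodPair K D X v w} ⊆
      ((S1 true ∪ S1 false) ∪ (S2 true ∪ S2 false)) ∪ (S3 true ∪ S3 false) := by
    rintro D ⟨h1, h2, h3⟩
    rcases PairN_tri K H X hv hw hvw h1 h3 with ⟨α, h⟩ | ⟨α, h⟩ | ⟨α, h⟩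
    · cases α
      · exact Or.inl (Or.inl (Or.inr ⟨h1, h2, h⟩))
      · exact Or.inl (Or.inl (Or.inl ⟨h1, h2, h⟩))
    · cases α
      · exact Or.inl (Or.inr (Or.inr ⟨h1, h2, h⟩))
      · exact Or.inl (Or.inr (Or.inl ⟨h1, h2, h⟩))
    · cases α
      · exact Or.inr (Or.inr ⟨h1, h2, h⟩)
      · exact Or.inr (Or.inl ⟨h1, h2, h⟩)
  have c0 := Set.ncard_le_ncard hcov (Set.toFinite _)
  have c1 := Set.ncard_union_le ((S1 true ∪ S1 false) ∪ (S2 true ∪ S2 false))
    (S3 true ∪ S3 false)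
  have c2 := Set.ncard_union_le (S1 true ∪ S1 false) (S2 true ∪ S2 false)
  have c3 := Set.ncard_union_le (S1 true) (S1 false)
  have c4 := Set.ncard_union_le (S2 true) (S2 false)
  have c5 := Set.ncard_union_le (S3 true) (S3 false)
  have d1 := g1 true
  have d2 := g1 false
  have d3 := g2 true
  have d4 := g2 false
  have d5 := g3 true
  have d6 := g3 false
  have hfin : {D : V → V → Prop | IsOr (res X H) D ∧ ¬ Packs L' D X ∧
      ¬ GoodPair K D X v w}.ncard ≤ 6 * (Q * (a + b)) := by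
    have e1 : Q * (a + b) = Q * a + Q * b := Nat.mul_add _ _ _
    rw [e1]
    omega
  refine hfin.trans ?_
  have h1 : (X.card + 1) ^ (4 * K + 2) ≤ (X.card + 1) ^ (4 * K + 6) :=
    Nat.pow_le_pow_right (by omega) (by omega)
  calc 6 * (Q * (a + b)) = 6 * (X.card + 1) ^ (4 * K + 2) * 2 ^ m * (a + b) := by
        rw [hQ]
        ring
    _ ≤ (4 * K + 6) * (X.card + 1) ^ (4 * K + 6) * 2 ^ m * (a + b) := by
        refine Nat.mul_le_mul (Nat.mul_le_mul (Nat.mul_le_mul ?_ h1) (le_refl _)) (le_refl _)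
        omega

end MP_0a9719_co
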