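import Pool.Agent.Lib.MP_0a9719_co.PairS
import Pool.Agent.Lib.MP_0a9719_co.PairN
import Pool.Agent.Lib.MP_0a9719_co.StarA

/-! MP_0a9719_co, module PairC: `GoodC` is preserved by adding an oriented path with three
edges.

Let `L' = p4 a b c :: L`, `s' = s + 2`, `K = 4 |L| + 4`; `ε₀`, `b₁` from `GoodB L' s'` (wlog `ε₀ < 1`),
`b₂` from `GoodA L' s'` for `ε₀/2`, `b₂ < 2^s'`. Choose `0 < ε₁ ≤ ε₀` with
`2^(3 ε₁) b₂ < 2^s'`, `b₃` from `GoodA L' s'` for `ε₁`, `c` from `GoodC L s`. Let `NoCover s' H X`, `n` large. If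
`(big ε₀ H X).ncard > s'` or `(big ε₁ H X).ncard < s'` we are done by `exp_ext`. Otherwise, as
`big ε₁ H X ⊆ big ε₀ H X`, both have exactly `s' ≥ 2` elements; take `v ≠ w` in `big ε₁ H X`. `pair_one`:
first term at most `2^(2n-3) c 2^(ext s (n-2)) = c 2^(ext s' n)` (`noCover_erase` twice,
`ext_two`: `2 (n-2) + 1 = 2n - 3`). Second term: `pair_not_good` with `m` = the integer part of
`2 ε₁ n + 2` (each of `v, w` is non-adjacent to at most `ε₁ n` vertices of `X`, besides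
itself): at most `C (n+1)^C 2^(2 ε₁ n + 2) (num L' H (X.erase v) + num L' H (X.erase w))`, and
`(big (ε₀/2) H (X.erase u)).ncard < s'` for `u = v, w` by `big_erase`, so this is at most
`C' (n+1)^C (2^(3ε₁) b₂)^n`, negligible (`poly_exp`, `exp_ext`). -/

namespace MP_0a9719_co

private theorem PairC_mono {V : Type*} {ε ε' : ℝ} (h : ε ≤ ε') (H : SimpleGraph V)
    (X : Finset V) : big ε H X ⊆ big ε' H X := by
  rintro v ⟨hv, h1⟩
  refine ⟨hv, le_trans ?_ h1⟩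
  exact mul_le_mul_of_nonneg_right (by linarith) (Nat.cast_nonneg _)

private theorem PairC_ndeg {V : Type*} [Finite V] (H : SimpleGraph V) (X : Finset V) (v : V) :
    deg H X v + {x | x ∈ X ∧ ¬ H.Adj v x}.ncard = X.card := by
  have h := Set.ncard_inter_add_ncard_sdiff_eq_ncard (X : Set V) {x | H.Adj v x}
    (Set.toFinite _)
  rw [Set.ncard_coe_finset] at h
  exact h

private theorem PairC_sym {V : Type*} [Finite V] (H : SimpleGraph V) (X : Finset V) {v w : V}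
    {ε : ℝ} (hv : v ∈ big ε H X) (hw : w ∈ big ε H X) :
    ({x | x ∈ X ∧ x ≠ v ∧ x ≠ w ∧ ¬ (H.Adj v x ↔ H.Adj w x)}.ncard : ℝ) ≤
      2 * ε * X.card := by
  have h1 : {x | x ∈ X ∧ x ≠ v ∧ x ≠ w ∧ ¬ (H.Adj v x ↔ H.Adj w x)} ⊆
      {x | x ∈ X ∧ ¬ H.Adj v x} ∪ {x | x ∈ X ∧ ¬ H.Adj w x} := by
    rintro x ⟨hx, -, -, h⟩
    by_cases hvx : H.Adj v x
    · by_cases hwx : H.Adj w x
      · exact absurd ⟨fun _ => hwx, fun _ => hvx⟩ h
      · exact Or.inr ⟨hx, hwx⟩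
    · exact Or.inl ⟨hx, hvx⟩
  have h2 := (Set.ncard_le_ncard h1 (Set.toFinite _)).trans (Set.ncard_union_le _ _)
  have h3 := PairC_ndeg H X v
  have h4 := PairC_ndeg H X w
  have h2' : ({x | x ∈ X ∧ x ≠ v ∧ x ≠ w ∧ ¬ (H.Adj v x ↔ H.Adj w x)}.ncard : ℝ) ≤
      ({x | x ∈ X ∧ ¬ H.Adj v x}.ncard : ℝ) + ({x | x ∈ X ∧ ¬ H.Adj w x}.ncard : ℝ) := by
    exact_mod_cast h2
  have h3' : (deg H X v : ℝ) + ({x | x ∈ X ∧ ¬ H.Adj v x}.ncard : ℝ) = X.card := by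
    exact_mod_cast h3
  have h4' : (deg H X w : ℝ) + ({x | x ∈ X ∧ ¬ H.Adj w x}.ncard : ℝ) = X.card := by
    exact_mod_cast h4
  have h5 := hv.2
  have h6 := hw.2
  nlinarith

/-- a small `ε₁`. -/
private theorem PairC_eps (ε₀ b M : ℝ) (hε : 0 < ε₀) (hb : 0 < b) (hbM : b < M) :
    ∃ ε₁ : ℝ, 0 < ε₁ ∧ ε₁ ≤ ε₀ ∧ (2 : ℝ) ^ (3 * ε₁) * b < M := by
  have hM : 1 < M / b := by
    rw [lt_div_iff₀ hb]
    linarith
  have hl : 0 < Real.logb 2 (M / b) := Real.logb_pos (by norm_num) hM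
  refine ⟨min ε₀ (Real.logb 2 (M / b) / 4), lt_min hε (by linarith), min_le_left _ _, ?_⟩
  rw [← lt_div_iff₀ hb]
  calc (2 : ℝ) ^ (3 * min ε₀ (Real.logb 2 (M / b) / 4))
      < 2 ^ (Real.logb 2 (M / b)) := by
        refine Real.rpow_lt_rpow_of_exponent_lt (by norm_num) ?_
        have := min_le_right ε₀ (Real.logb 2 (M / b) / 4)
        linarith
    _ = M / b := Real.rpow_logb (by norm_num) (by norm_num) (by positivity)

theorem pair_goodC (a b c : Bool) (L : List Shape) (hL : ∀ T ∈ L, T.Valid)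
    (s : ℕ) (hC : GoodC L s) (hA' : GoodA (.p4 a b c :: L) (s + 2))
    (hB' : GoodB (.p4 a b c :: L) (s + 2)) :
    GoodC (.p4 a b c :: L) (s + 2) := by
  obtain ⟨c₀, hc0, hc1, n₀, hn0⟩ := hC
  obtain ⟨ε', hε', b₁, hb1, hb1', n₁, hn1⟩ := hB'
  -- `ε₀ < 1`
  obtain ⟨ε₀, hε0, hε01, hε0'⟩ : ∃ ε₀ : ℝ, 0 < ε₀ ∧ ε₀ < 1 ∧ ε₀ ≤ ε' :=
    ⟨min ε' (1 / 2), lt_min hε' (by norm_num), lt_of_le_of_lt (min_le_right _ _) (by norm_num),
      min_le_left _ _⟩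
  obtain ⟨b₂', hb2p, hb2', n₂, hn2⟩ := hA' (ε₀ / 2) (by linarith)
  have h2s : (1 : ℝ) < 2 ^ (s + 2) := one_lt_pow₀ (by norm_num) (by omega)
  -- `b₂ ≥ 1`
  obtain ⟨b₂, hb2, hb2s, hb2l⟩ : ∃ b₂ : ℝ, 1 ≤ b₂ ∧ b₂ < 2 ^ (s + 2) ∧ b₂' ≤ b₂ :=
    ⟨max b₂' 1, le_max_right _ _, max_lt hb2' h2s, le_max_left _ _⟩
  have hb2pos : 0 < b₂ := by linarith
  obtain ⟨ε₁, hε1, hε10, hε1s⟩ := PairC_eps ε₀ b₂ (2 ^ (s + 2)) hε0 hb2pos hb2s
  obtain ⟨b₃, hb3, hb3s, n₃, hn3⟩ := hA' ε₁ hε1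
  obtain ⟨C, hCC⟩ := pair_not_good (4 * L.length + 4)
  have hpow : (2 : ℝ) ^ (2 * ε₁) * b₂ < 2 ^ (3 * ε₁) * b₂ := by
    refine mul_lt_mul_of_pos_right ?_ hb2pos
    exact Real.rpow_lt_rpow_of_exponent_lt (by norm_num) (by linarith)
  have hb4 : 0 < (2 : ℝ) ^ (2 * ε₁) * b₂ := by positivity
  have hb5 : 0 < (2 : ℝ) ^ (3 * ε₁) * b₂ := by positivity
  obtain ⟨n₄, hn4⟩ := poly_exp (2 * C) _ _ hb4 hpow
  obtain ⟨n₅, hn5⟩ := exp_ext (s + 2) _ ((1 - c₀) / 2) hb5 hε1s (by linarith)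
  obtain ⟨n₆, hn6⟩ := exp_ext (s + 2) b₁ ((1 + c₀) / 2) hb1 hb1' (by linarith)
  obtain ⟨n₇, hn7⟩ := exp_ext (s + 2) b₃ ((1 + c₀) / 2) hb3 hb3s (by linarith)
  refine ⟨(1 + c₀) / 2, by linarith, by linarith,
    n₀ + n₁ + n₂ + n₃ + n₄ + n₅ + n₆ + n₇ + ⌈2 / ε₀⌉₊ + s + 2, ?_⟩
  intro V _ _ H X hX hcov
  by_cases hcase1 : s + 2 < (big ε₀ H X).ncard
  · have h1 : s + 2 < (big ε' H X).ncard :=
      lt_of_lt_of_le hcase1 (Set.ncard_le_ncard (PairC_mono hε0' H X) (Set.toFinite _))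
    exact (hn1 V H X (by omega) h1).trans (hn6 _ (by omega))
  by_cases hcase2 : (big ε₁ H X).ncard < s + 2
  · exact (hn3 V H X (by omega) hcase2).trans (hn7 _ (by omega))
  have hsub : big ε₁ H X ⊆ big ε₀ H X := PairC_mono hε10 H X
  have hcard0 : (big ε₀ H X).ncard = s + 2 := by
    have := Set.ncard_le_ncard hsub (Set.toFinite _)
    omega
  have h1lt : 1 < (big ε₁ H X).ncard := by omega
  obtain ⟨v, hv, w, hw, hvw⟩ := (Set.one_lt_ncard (Set.toFinite _)).1 h1lt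
  have hvX : v ∈ X := hv.1
  have hwX : w ∈ X := hw.1
  have hceil : 2 / ε₀ ≤ X.card := by
    refine (Nat.le_ceil _).trans ?_
    exact_mod_cast (show ⌈2 / ε₀⌉₊ ≤ X.card by omega)
  -- the erased sets
  have herase : ∀ u ∈ big ε₁ H X,
      (num (.p4 a b c :: L) H (X.erase u) : ℝ) ≤ b₂ ^ X.card := by
    intro u hu
    have hu0 := hsub hu
    have h1 := Set.ncard_le_ncard (big_erase ε₀ hε0 hε01 H X u hceil) (Set.toFinite _)
    have h2 := Set.ncard_sdiff_singleton_lt_of_mem hu0 (Set.toFinite _)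
    have hcu : (X.erase u).card = X.card - 1 := Finset.card_erase_of_mem hu.1
    have h3 := hn2 V H (X.erase u) (by omega) (by omega)
    refine h3.trans ((pow_le_pow_left₀ hb2p.le hb2l _).trans ?_)
    exact pow_le_pow_right₀ hb2 (by omega)
  -- the second term
  have hm : {x | x ∈ X ∧ x ≠ v ∧ x ≠ w ∧ ¬ (H.Adj v x ↔ H.Adj w x)}.ncard ≤
      ⌊2 * ε₁ * X.card⌋₊ := Nat.le_floor (PairC_sym H X hv hw)
  have hsec := hCC V (.p4 a b c :: L) H X v w _ hvX hwX hvw hm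
  have hm2 : (2 : ℝ) ^ ⌊2 * ε₁ * X.card⌋₊ ≤ (2 ^ (2 * ε₁)) ^ X.card := by
    rw [← Real.rpow_natCast, ← Real.rpow_natCast, ← Real.rpow_mul (by norm_num)]
    exact Real.rpow_le_rpow_of_exponent_le (by norm_num) (Nat.floor_le (by positivity))
  have hsec2 : (({D : V → V → Prop | IsOr (res X H) D ∧ ¬ Packs (.p4 a b c :: L) D X ∧
      ¬ GoodPair (4 * L.length + 4) D X v w}.ncard : ℕ) : ℝ) ≤
      (1 - c₀) / 2 * 2 ^ ext (s + 2) X.card := by
    have h1 : (({D : V → V → Prop | IsOr (res X H) D ∧ ¬ Packs (.p4 a b c :: L) D X ∧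
      ¬ GoodPair (4 * L.length + 4) D X v w}.ncard : ℕ) : ℝ) ≤
        C * ((X.card : ℝ) + 1) ^ C * 2 ^ ⌊2 * ε₁ * X.card⌋₊ *
        (num (.p4 a b c :: L) H (X.erase v) + num (.p4 a b c :: L) H (X.erase w)) := by
      exact_mod_cast hsec
    have h2 : (1 : ℝ) ≤ (X.card : ℝ) + 1 := by
      have : (0 : ℝ) ≤ X.card := Nat.cast_nonneg _
      linarith
    have h3 : ((X.card : ℝ) + 1) ^ C ≤ ((X.card : ℝ) + 1) ^ (2 * C) :=
      pow_le_pow_right₀ h2 (by omega)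
    refine h1.trans (le_trans ?_ (hn5 _ (by omega)))
    refine le_trans ?_ (hn4 _ (by omega))
    have hv' := herase v hv
    have hw' := herase w hw
    calc C * ((X.card : ℝ) + 1) ^ C * 2 ^ ⌊2 * ε₁ * X.card⌋₊ *
        (num (.p4 a b c :: L) H (X.erase v) + num (.p4 a b c :: L) H (X.erase w))
        ≤ C * ((X.card : ℝ) + 1) ^ (2 * C) * (2 ^ (2 * ε₁)) ^ X.card *
          (b₂ ^ X.card + b₂ ^ X.card) := by gcongr
      _ = ((2 * C : ℕ) : ℝ) * ((X.card : ℝ) + 1) ^ (2 * C) *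
          (2 ^ (2 * ε₁) * b₂) ^ X.card := by
        rw [mul_pow]
        push_cast
        ring
  -- the first term
  have hwv : w ∈ X.erase v := Finset.mem_erase.2 ⟨hvw.symm, hwX⟩
  have hcov2 : NoCover s H ((X.erase v).erase w) :=
    noCover_erase s H (X.erase v) w hwv (noCover_erase (s + 1) H X v hvX hcov)
  have hcard2 : ((X.erase v).erase w).card = X.card - 2 := by
    rw [Finset.card_erase_of_mem hwv, Finset.card_erase_of_mem hvX]
    omega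
  have hfirst := hn0 V H ((X.erase v).erase w) (by omega) hcov2
  have hext : ext (s + 2) X.card = ext s (X.card - 2) + (2 * X.card - 3) := by
    have h1 := ext_two s (X.card - 2) (by omega)
    have h2 : X.card - 2 + 2 = X.card := by omega
    rw [h2] at h1
    rw [h1]
    omega
  have hfirst2 : (2 : ℝ) ^ (2 * X.card - 3) * (num L H ((X.erase v).erase w) : ℝ) ≤
      c₀ * 2 ^ ext (s + 2) X.card := by
    rw [hcard2] at hfirst
    rw [hext, pow_add]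
    calc (2 : ℝ) ^ (2 * X.card - 3) * (num L H ((X.erase v).erase w) : ℝ)
        ≤ 2 ^ (2 * X.card - 3) * (c₀ * 2 ^ ext s (X.card - 2)) := by gcongr
      _ = c₀ * (2 ^ ext s (X.card - 2) * 2 ^ (2 * X.card - 3)) := by ring
  have hone := pair_one a b c L hL H X v w hvX hwX hvw
  have hone2 : (num (.p4 a b c :: L) H X : ℝ) ≤
      2 ^ (2 * X.card - 3) * (num L H ((X.erase v).erase w) : ℝ) +
      (({D : V → V → Prop | IsOr (res X H) D ∧ ¬ Packs (.p4 a b c :: L) D X ∧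
        ¬ GoodPair (4 * L.length + 4) D X v w}.ncard : ℕ) : ℝ) := by
    exact_mod_cast hone
  calc (num (.p4 a b c :: L) H X : ℝ)
      ≤ c₀ * 2 ^ ext (s + 2) X.card + (1 - c₀) / 2 * 2 ^ ext (s + 2) X.card :=
        hone2.trans (add_le_add hfirst2 hsec2)
    _ = (1 + c₀) / 2 * 2 ^ ext (s + 2) X.card := by ring

end MP_0a9719_co
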