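import Pool.Agent.Lib.MP_0a9719_co.StarA

/-! MP_0a9719_co, module StarC: `GoodC` is preserved by adding a star.

Let `L' = star i o :: L`, `s' = s + 1`; `GoodA L' s'` and `GoodB L' s'` are given (`hA'`, `hB'`).
Let `ε₀`, `b₁` be from `GoodB L' s'` (wlog `ε₀ < 1`: GoodB with a smaller `ε` is weaker in its
hypothesis: `big` is monotone in `ε`), `b₂` from `GoodA L' s'` for `ε₀`, `b₃` from `GoodA L' s'` for `ε₀/2`,
`c` from `GoodC L s`. Let `NoCover s' H X`, `n = |X|` large. If `(big ε₀ H X).ncard > s'`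
or `< s'` then `num L' H X ≤ b^n` with `b < 2^s'`, at most `((1+c)/2) 2^(ext s' n)` by `exp_ext`. Otherwise
`(big ε₀ H X).ncard = s' ≥ 1`; take `v ∈ big ε₀ H X`. `peel_one`: the first term is at most
`2^(n-1) c 2^(ext s (n-1)) = c 2^(ext s' n)` by `noCover_erase`, `GoodC L s`, `deg_le`, `ext_succ`. The
second term: `(big (ε₀/2) H (X.erase v)).ncard < s'` by `big_erase`, so it is at most
`2 (n+1)^K b₃^(n-1)`, which is at most `((1-c)/2) 2^(ext s' n)` for `n` large (`poly_exp`, `exp_ext`). -/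

namespace MP_0a9719_co

private theorem starC_mono {V : Type} [Finite V] (ε ε' : ℝ) (h : ε' ≤ ε) (H : SimpleGraph V)
    (X : Finset V) : (big ε' H X).ncard ≤ (big ε H X).ncard := by
  refine Set.ncard_le_ncard (fun v hv => ⟨hv.1, ?_⟩) (Set.toFinite _)
  refine le_trans ?_ hv.2
  exact mul_le_mul_of_nonneg_right (by linarith) (Nat.cast_nonneg _)

theorem star_goodC (i o : ℕ) (hio : i + o ≤ 3) (L : List Shape) (hL : ∀ T ∈ L, T.Valid)
    (s : ℕ) (hC : GoodC L s) (hA' : GoodA (.star i o :: L) (s + 1))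
    (hB' : GoodB (.star i o :: L) (s + 1)) :
    GoodC (.star i o :: L) (s + 1) := by
  obtain ⟨c, hc0, hc1, n₁, hn₁⟩ := hC
  obtain ⟨ε₁, hε₁, b₁, hb₁, hb₁s, n₂, hn₂⟩ := hB'
  set ε : ℝ := min ε₁ (1 / 2) with hε
  have hε0 : 0 < ε := by positivity
  have hε1 : ε < 1 := (min_le_right _ _).trans_lt (by norm_num)
  obtain ⟨b₂, hb₂, hb₂s, n₃, hn₃⟩ := hA' ε hε0
  obtain ⟨b₃, hb₃, hb₃s, n₄, hn₄⟩ := hA' (ε / 2) (by positivity)
  set K : ℕ := 4 * L.length + 4 with hK
  -- asymptotics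
  set c' : ℝ := (1 + c) / 2 with hc'
  have hc'0 : 0 < c' := by positivity
  obtain ⟨m₁, hm₁⟩ := exp_ext (s + 1) b₁ c' hb₁ hb₁s hc'0
  obtain ⟨m₂, hm₂⟩ := exp_ext (s + 1) b₂ c' hb₂ hb₂s hc'0
  set b₄ : ℝ := (b₃ + 2 ^ (s + 1)) / 2 with hb₄
  have hb₃₄ : b₃ < b₄ := by linarith
  have hb₄s : b₄ < 2 ^ (s + 1) := by linarith
  have hb₄0 : 0 < b₄ := hb₃.trans hb₃₄
  obtain ⟨m₃, hm₃⟩ := poly_exp (2 + K) b₃ b₄ hb₃ hb₃₄
  obtain ⟨m₄, hm₄⟩ := exp_ext (s + 1) b₄ ((1 - c) / 2 * b₃) hb₄0 hb₄s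
    (mul_pos (by linarith) hb₃)
  refine ⟨c', hc'0, by linarith, max (max (max (n₁ + 1) n₂) (max n₃ (n₄ + 1)))
    (max (max (max m₁ m₂) (max m₃ m₄)) (max ⌈2 / ε⌉₊ (s + 2))), fun V _ _ H X hX hno => ?_⟩
  simp only [ge_iff_le, max_le_iff] at hX
  obtain ⟨⟨⟨hX1, hX2⟩, hX3, hX4⟩, ⟨⟨hX5, hX6⟩, hX7, hX8⟩, hX9, hX10⟩ := hX
  rcases lt_trichotomy (big ε H X).ncard (s + 1) with h | h | h
  · exact (hn₃ V H X hX3 h).trans (hm₂ _ hX6)
  · -- the main case
    have hne : (big ε H X).Nonempty := by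
      rw [Set.nonempty_iff_ne_empty]
      intro h0
      rw [h0, Set.ncard_empty] at h
      omega
    obtain ⟨v, hv⟩ := hne
    have hvX : v ∈ X := hv.1
    have hcard : (X.erase v).card = X.card - 1 := Finset.card_erase_of_mem hvX
    have hpeel := peel_one i o hio L hL H X v hvX
    have hpeelR := (Nat.cast_le (α := ℝ)).2 hpeel
    push_cast at hpeelR
    -- first term
    have h1 : (2 : ℝ) ^ deg H X v * (num L H (X.erase v) : ℝ) ≤ c * 2 ^ ext (s + 1) X.card := by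
      have e1 := hn₁ V H (X.erase v) (by omega) (noCover_erase s H X v hvX hno)
      have e2 : (2 : ℝ) ^ deg H X v ≤ 2 ^ (X.card - 1) :=
        pow_le_pow_right₀ (by norm_num) (deg_le H X hvX)
      have e3 := ext_succ s (X.card - 1) (by omega)
      rw [show X.card - 1 + 1 = X.card by omega] at e3
      rw [e3, pow_add]
      rw [hcard] at e1
      calc (2 : ℝ) ^ deg H X v * (num L H (X.erase v) : ℝ)
          ≤ 2 ^ (X.card - 1) * (c * 2 ^ ext s (X.card - 1)) :=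
            mul_le_mul e2 e1 (Nat.cast_nonneg _) (by positivity)
        _ = _ := by ring
    -- second term
    have h2 : 2 * ((X.card : ℝ) + 1) ^ (4 * L.length + 4) *
        (num (.star i o :: L) H (X.erase v) : ℝ) ≤ (1 - c) / 2 * 2 ^ ext (s + 1) X.card := by
      have e1 : (big (ε / 2) H (X.erase v)).ncard < s + 1 := by
        have e2 := big_erase ε hε0 hε1 H X v
          ((Nat.le_ceil (2 / ε)).trans (by exact_mod_cast hX9))
        have e3 := Set.ncard_le_ncard e2 (Set.toFinite _)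
        rw [Set.ncard_diff_singleton_of_mem hv, h] at e3
        omega
      have e4 := hn₄ V H (X.erase v) (by omega) e1
      have e5 := hm₃ X.card hX7
      have e6 := hm₄ X.card hX8
      rw [hcard] at e4
      have e7 : b₃ ^ (X.card - 1) = b₃ ^ X.card / b₃ := by
        rw [eq_div_iff hb₃.ne', ← pow_succ]
        congr 1
        omega
      have hn1 : (1 : ℝ) ≤ (X.card : ℝ) + 1 := by
        have : (0 : ℝ) ≤ X.card := Nat.cast_nonneg _
        linarith
      have e8 : 2 * ((X.card : ℝ) + 1) ^ K ≤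
          ((2 + K : ℕ) : ℝ) * ((X.card : ℝ) + 1) ^ (2 + K) := by
        apply mul_le_mul
        · exact_mod_cast Nat.le_add_right 2 K
        · exact pow_le_pow_right₀ hn1 (by omega)
        · positivity
        · positivity
      calc 2 * ((X.card : ℝ) + 1) ^ (4 * L.length + 4) *
          (num (.star i o :: L) H (X.erase v) : ℝ)
          ≤ ((2 + K : ℕ) : ℝ) * ((X.card : ℝ) + 1) ^ (2 + K) * (b₃ ^ X.card / b₃) := by
            rw [← e7]
            exact mul_le_mul e8 e4 (Nat.cast_nonneg _) (by positivity)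
        _ = ((2 + K : ℕ) : ℝ) * ((X.card : ℝ) + 1) ^ (2 + K) * b₃ ^ X.card / b₃ := by ring
        _ ≤ b₄ ^ X.card / b₃ := div_le_div_of_nonneg_right e5 hb₃.le
        _ ≤ ((1 - c) / 2 * b₃ * 2 ^ ext (s + 1) X.card) / b₃ :=
            div_le_div_of_nonneg_right e6 hb₃.le
        _ = _ := by field_simp
    have h3 : c' * (2 : ℝ) ^ ext (s + 1) X.card =
        c * 2 ^ ext (s + 1) X.card + (1 - c) / 2 * 2 ^ ext (s + 1) X.card := by
      rw [hc']; ring
    rw [h3]
    exact hpeelR.trans (add_le_add h1 h2)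
  · have h1 : s + 1 < (big ε₁ H X).ncard :=
      h.trans_le (starC_mono ε₁ ε (min_le_left _ _) H X)
    exact (hn₂ V H X hX2 h1).trans (hm₁ _ hX5)

end MP_0a9719_co
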