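import Pool.Agent.Lib.MP_0a9719_co.BaseTwo
import Pool.Agent.Lib.MP_0a9719_co.StarC
import Pool.Agent.Lib.MP_0a9719_co.PairA
import Pool.Agent.Lib.MP_0a9719_co.PairC

/-! MP_0a9719_co, module NegAll: all lists of negative type.

`good_perm`: `num L = num L'` for `L.Perm L'` (`packs_perm`).
`good_K2`: `L = [star i o]`, `i + o = 1`, `s = 0`: GoodA is vacuous (`ncard < 0`). If `res X H` has an edge,
every orientation has an arc, which is a copy: `num = 0`; GoodB (`ε = 1/2`, `b = 1/2`): a big vertex
has a neighbour; GoodC (`c = 1/2`): `NoCover 0` gives an edge.
`neg_good`: strong induction on `L.length`; `s + 1 = ∑ tau`. Let `t = L.countP isT`, `c = L.countP isC`.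
(0) `L = [K_2]`: `good_K2`. From now on `t ≥ 2` or (`t ≥ 1` and `c ≥ 1`), so `s ≥ 1`.
(1) `L` contains a star with three leaves: `L` is a permutation of `T :: L'`; `L'` has the same `t`, `c`;
`∑ tau` of `L'` is `s ≥ 2`, so `s ≥ 2`; `star_goodA/B/C` with `s - 1` and `pureB_two`.
(2) no star with three leaves, but a star `T` with two leaves. If `t ≥ 2` or `c ≥ 2`: `L'` is of
negative type; `PureB L s` by `pureB_one` if `L` contains no `p4` (`s ≥ 1`), by `pureB_two` if it does (then
`s ≥ 2`). If `t = c = 1`: `L` is `[K_2, P_3]` up to order: `L' = [K_2]`, `pureB_one`; or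
`[p4, P_3]`: `exc_star`, `base_good` with `s = 2`.
(3) only `K_2` and `p4`, `L.length = t ≥ 2`. If there is a `K_2` and `t ≥ 3`: remove it (`L'` has `t - 1 ≥ 2`;
`PureB` as in (2)). `[K_2, K_2]`: remove one, `pureB_one`. `[p4, K_2]`: `pair_goodA/B/C` with `L' = [K_2]`,
`s = 0 + 2`, `noPairB_star`. Only `p4`: `t = 2`: `exc_p4`, `base_good` with `s = 3`. `t ≥ 3`: `pair_goodA/B/C`
with `L'` (length `t - 1 ≥ 2`), `noPairB_p4` (`s = 2 t - 1 ≥ 5`).
`Good0 L'` follows from `good0_of`. -/

namespace MP_0a9719_co

private theorem negAll_num {L L' : List Shape} (h : L.Perm L') {V : Type*} [DecidableEq V]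
    (H : SimpleGraph V) (X : Finset V) : num L H X = num L' H X := by
  unfold num
  congr 1
  ext D
  simp only [Set.mem_setOf_eq, packs_perm h]

theorem good_perm {L L' : List Shape} (h : L.Perm L') (s : ℕ)
    (hg : GoodA L s ∧ GoodB L s ∧ GoodC L s) : GoodA L' s ∧ GoodB L' s ∧ GoodC L' s := by
  obtain ⟨hA, hB, hC⟩ := hg
  refine ⟨?_, ?_, ?_⟩
  · simp only [GoodA, negAll_num h] at hA ⊢
    exact hA
  · simp only [GoodB, negAll_num h] at hB ⊢
    exact hB
  · simp only [GoodC, negAll_num h] at hC ⊢
    exact hC

private theorem negAll_edge (i o : ℕ) (h : i + o = 1) {V : Type*} [DecidableEq V]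
    (H : SimpleGraph V) (X : Finset V) {u v : V} (hu : u ∈ X) (hv : v ∈ X) (huv : H.Adj u v) :
    num [.star i o] H X = 0 := by
  unfold num
  have : {D : V → V → Prop | IsOr (res X H) D ∧ ¬ Packs [.star i o] D X} = ∅ := by
    rw [Set.eq_empty_iff_forall_notMem]
    rintro D ⟨hD, hP⟩
    apply hP
    have key : ∀ x ∈ X, ∀ y ∈ X, x ≠ y → D x y → Packs [.star i o] D X := by
      intro x hx y hy hxy hd
      have hc : (i = 1 ∧ o = 0) ∨ (i = 0 ∧ o = 1) := by omega
      rcases hc with ⟨rfl, rfl⟩ | ⟨rfl, rfl⟩
      · refine ⟨insert y ({x} ∪ ∅), ?_, ⟨y, {x}, ∅, ?_, ?_, ?_, rfl, rfl, ?_, ?_, rfl⟩, trivial⟩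
        · intro z hz
          simp only [Finset.union_empty, Finset.mem_insert, Finset.mem_singleton] at hz
          rcases hz with rfl | rfl
          · exact hy
          · exact hx
        · simpa using hxy.symm
        · simp
        · simp
        · simpa using hd
        · simp
      · refine ⟨insert x (∅ ∪ {y}), ?_, ⟨x, ∅, {y}, ?_, ?_, ?_, rfl, rfl, ?_, ?_, rfl⟩, trivial⟩
        · intro z hz
          simp only [Finset.empty_union, Finset.mem_insert, Finset.mem_singleton] at hz
          rcases hz with rfl | rfl
          · exact hx
          · exact hy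
        · simp
        · simpa using hxy
        · simp
        · simp
        · simpa using hd
    rcases (hD u v).1.mp ⟨huv, hu, hv⟩ with hd | hd
    · exact key u hu v hv huv.ne hd
    · exact key v hv u hu huv.ne.symm hd
  rw [this, Set.ncard_empty]

theorem good_K2 (i o : ℕ) (h : i + o = 1) :
    GoodA [.star i o] 0 ∧ GoodB [.star i o] 0 ∧ GoodC [.star i o] 0 := by
  refine ⟨?_, ?_, ?_⟩
  · intro ε _
    refine ⟨1 / 2, by norm_num, by norm_num, 0, ?_⟩
    intro V _ _ H X _ hb
    exact absurd hb (Nat.not_lt_zero _)
  · refine ⟨1 / 2, by norm_num, 1 / 2, by norm_num, by norm_num, 1, ?_⟩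
    intro V _ _ H X hX hb
    have hne : (big (1 / 2) H X).Nonempty := by
      rw [← Set.ncard_pos (Set.toFinite _)]
      exact hb
    obtain ⟨v, hv, hd⟩ := hne
    have hX' : (1 : ℝ) ≤ X.card := by exact_mod_cast hX
    have h1 : (0 : ℝ) < (deg H X v : ℝ) := by
      have : (1 - 1 / 2 : ℝ) * (X.card : ℝ) ≤ (deg H X v : ℝ) := hd
      nlinarith
    have h2 : 0 < deg H X v := by exact_mod_cast h1
    unfold deg at h2
    rw [Set.ncard_pos (Set.toFinite _)] at h2
    obtain ⟨u, hu, hvu⟩ := h2
    rw [negAll_edge i o h H X hv hu hvu]
    simp
  · refine ⟨1 / 2, by norm_num, by norm_num, 0, ?_⟩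
    intro V _ _ H X _ hn
    obtain ⟨u, hu, v, hv, huv⟩ := hn ∅ (Finset.empty_subset _) (by simp)
    rw [negAll_edge i o h H X (Finset.mem_sdiff.mp hu).1 (Finset.mem_sdiff.mp hv).1 huv]
    simp

private theorem negAll_star (i o : ℕ) (hio : i + o ≤ 3) (L : List Shape)
    (hL : ∀ T ∈ L, T.Valid) (s : ℕ) (hg : GoodA L s ∧ GoodB L s ∧ GoodC L s)
    (hP : PureB (.star i o :: L) (s + 1)) :
    GoodA (.star i o :: L) (s + 1) ∧ GoodB (.star i o :: L) (s + 1) ∧
      GoodC (.star i o :: L) (s + 1) := by
  have hA := star_goodA i o hio L hL s hg.1 (good0_of L s hg.2.2) hP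
  have hB := star_goodB i o hio L hL s hg.2.1 hP
  exact ⟨hA, hB, star_goodC i o hio L hL s hg.2.2 hA hB⟩

private theorem negAll_pair (a b c : Bool) (L : List Shape)
    (hL : ∀ T ∈ L, T.Valid) (s : ℕ) (hg : GoodA L s ∧ GoodB L s ∧ GoodC L s)
    (hP : NoPairB (.p4 a b c :: L) (s + 2)) :
    GoodA (.p4 a b c :: L) (s + 2) ∧ GoodB (.p4 a b c :: L) (s + 2) ∧
      GoodC (.p4 a b c :: L) (s + 2) := by
  have hA := pair_goodA a b c L hL s hg.1 (good0_of L s hg.2.2) hP
  have hB := pair_goodB a b c L hL s hg.2.1 hP
  exact ⟨hA, hB, pair_goodC a b c L hL s hg.2.2 hA hB⟩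

private theorem negAll_len (L : List Shape) : L.length ≤ (L.map Shape.tau).sum := by
  induction L with
  | nil => simp
  | cons T L ih =>
    have : 1 ≤ T.tau := by cases T <;> simp [Shape.tau]
    simp only [List.length_cons, List.map_cons, List.sum_cons]
    omega

private theorem negAll_pure (L : List Shape) (hL : ∀ T ∈ L, T.Valid)
    (h3 : ¬ ∃ i o, i + o = 3 ∧ Shape.star i o ∈ L) (s : ℕ) (hlen : 2 ≤ L.length)
    (hs : s + 1 = (L.map Shape.tau).sum) : PureB L s := by
  have h1 := negAll_len L
  by_cases hp : ∃ a b c, Shape.p4 a b c ∈ L
  · obtain ⟨a, b, c, hm⟩ := hp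
    have hper := List.perm_cons_erase hm
    have h2 := (hper.map Shape.tau).sum_eq
    have h4 := hper.length_eq
    have h5 := negAll_len (L.erase (Shape.p4 a b c))
    simp only [List.map_cons, List.sum_cons, List.length_cons] at h2 h4
    have h6 : (Shape.p4 a b c).tau = 2 := rfl
    exact pureB_two L hL s (by omega)
  · refine pureB_one L ?_ s (by omega)
    intro T hT
    rcases T with ⟨i, o⟩ | ⟨a, b, c⟩
    · have h2 : 1 ≤ i + o ∧ i + o ≤ 3 := hL _ hT
      have h4 : i + o ≠ 3 := fun h => h3 ⟨i, o, h, hT⟩
      exact ⟨i, o, rfl, h2.1, by omega⟩
    · exact absurd ⟨a, b, c, hT⟩ hp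

private theorem negAll_main (n : ℕ) : ∀ L : List Shape, L.length = n →
    (∀ T ∈ L, T.Valid) →
    (2 ≤ L.countP Shape.isT ∨ (1 ≤ L.countP Shape.isT ∧ 1 ≤ L.countP Shape.isC) ∨
      ∃ i o, i + o = 1 ∧ L = [.star i o]) →
    ∀ s, s + 1 = (L.map Shape.tau).sum → GoodA L s ∧ GoodB L s ∧ GoodC L s := by
  induction n with
  | zero =>
    intro L hlen hL h s hs
    have : L = [] := List.length_eq_zero_iff.mp hlen
    subst this
    simp at hs
  | succ n ih =>
    intro L hlen hL h s hs
    have hErase : ∀ T ∈ L, ∀ T' ∈ L.erase T, T'.Valid := fun T _ T' hT' =>
      hL T' (List.mem_of_mem_erase hT')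
    have hlenT : ∀ T ∈ L, (L.erase T).length = n := by
      intro T hT
      have := (List.perm_cons_erase hT).length_eq
      simp only [List.length_cons] at this
      omega
    have hsum : ∀ T ∈ L, (L.map Shape.tau).sum = T.tau + ((L.erase T).map Shape.tau).sum := by
      intro T hT
      have := ((List.perm_cons_erase hT).map Shape.tau).sum_eq
      simpa using this
    have hcT : ∀ T ∈ L, L.countP Shape.isT =
        (L.erase T).countP Shape.isT + if T.isT = true then 1 else 0 := by
      intro T hT
      have := (List.perm_cons_erase hT).countP_eq Shape.isT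
      rw [this, List.countP_cons]
    have hcC : ∀ T ∈ L, L.countP Shape.isC =
        (L.erase T).countP Shape.isC + if T.isC = true then 1 else 0 := by
      intro T hT
      have := (List.perm_cons_erase hT).countP_eq Shape.isC
      rw [this, List.countP_cons]
    have hlen1 := negAll_len L
    -- removal of a star
    have hstar : ∀ i o, Shape.star i o ∈ L → PureB L s →
        (2 ≤ (L.erase (.star i o)).countP Shape.isT ∨
          (1 ≤ (L.erase (.star i o)).countP Shape.isT ∧
            1 ≤ (L.erase (.star i o)).countP Shape.isC) ∨
          ∃ i' o', i' + o' = 1 ∧ L.erase (.star i o) = [.star i' o']) →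
        GoodA L s ∧ GoodB L s ∧ GoodC L s := by
      intro i o hm hPure hneg
      have h1 := hsum _ hm
      have h2 : (Shape.star i o).tau = 1 := rfl
      have h3 : 1 ≤ (L.erase (.star i o)).length := by
        rcases hneg with h | ⟨h, _⟩ | ⟨i', o', _, h⟩
        · have := List.countP_le_length (p := Shape.isT) (l := L.erase (.star i o))
          omega
        · have := List.countP_le_length (p := Shape.isT) (l := L.erase (.star i o))
          omega
        · rw [h]; simp
      have h4 := negAll_len (L.erase (.star i o))
      obtain ⟨s', rfl⟩ : ∃ s', s = s' + 1 := ⟨s - 1, by omega⟩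
      have h5 := ih (L.erase (.star i o)) (hlenT _ hm) (hErase _ hm) hneg s' (by omega)
      have hv : 1 ≤ i + o ∧ i + o ≤ 3 := hL _ hm
      have hper := List.perm_cons_erase hm
      have hPure' : PureB (.star i o :: L.erase (.star i o)) (s' + 1) := by
        intro K
        obtain ⟨b, hb0, hb1, n₀, hn⟩ := hPure K
        refine ⟨b, hb0, hb1, n₀, fun V _ _ H X hX => ?_⟩
        have := hn V H X hX
        simp only [packs_perm hper] at this
        exact this
      exact good_perm hper.symm (s' + 1)
        (negAll_star i o hv.2 _ (hErase _ hm) s' h5 hPure')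
    by_cases h3 : ∃ i o, i + o = 3 ∧ Shape.star i o ∈ L
    · obtain ⟨i, o, hio, hm⟩ := h3
      have h1 := hcT _ hm
      have h2 := hcC _ hm
      have h4 : (Shape.star i o).isT = false := by simp [Shape.isT, hio]
      have h5 : (Shape.star i o).isC = false := by simp [Shape.isC, hio]
      rw [h4] at h1
      rw [h5] at h2
      simp only [Bool.false_eq_true, if_false, add_zero] at h1 h2
      have hneg : 2 ≤ (L.erase (.star i o)).countP Shape.isT ∨
          (1 ≤ (L.erase (.star i o)).countP Shape.isT ∧
            1 ≤ (L.erase (.star i o)).countP Shape.isC) := by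
        rcases h with h | h | ⟨i', o', h', rfl⟩
        · left; omega
        · right; omega
        · simp only [List.mem_singleton, Shape.star.injEq] at hm
          omega
      have h6 := hsum _ hm
      have h7 : (Shape.star i o).tau = 1 := rfl
      have h8 : 2 ≤ ((L.erase (.star i o)).map Shape.tau).sum := by
        have h9 := negAll_len (L.erase (.star i o))
        rcases hneg with h | ⟨h, h'⟩
        · have := List.countP_le_length (p := Shape.isT) (l := L.erase (.star i o))
          omega
        · by_contra hlt
          have h10 : (L.erase (.star i o)).length = 1 := by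
            have := List.countP_le_length (p := Shape.isT) (l := L.erase (.star i o))
            omega
          obtain ⟨U, hU⟩ := List.length_eq_one_iff.mp h10
          rw [hU] at h h'
          rcases U with ⟨i', o'⟩ | ⟨a, b, c⟩
          · simp only [List.countP_cons, List.countP_nil, Shape.isT, Shape.isC, beq_iff_eq]
              at h h'
            split_ifs at h h' <;> omega
          · simp [Shape.isC] at h'
      exact hstar i o hm (pureB_two L hL s (by omega))
        (hneg.elim Or.inl (fun h => Or.inr (Or.inl h)))
    · -- now every element is T or C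
      have hTC : ∀ T ∈ L, (T.isT = true ∧ T.isC = false) ∨ (T.isT = false ∧ T.isC = true) := by
        intro T hT
        rcases T with ⟨i, o⟩ | ⟨a, b, c⟩
        · have h2 : 1 ≤ i + o ∧ i + o ≤ 3 := hL _ hT
          have h4 : i + o ≠ 3 := fun h => h3 ⟨i, o, h, hT⟩
          have h5 : i + o = 1 ∨ i + o = 2 := by omega
          rcases h5 with h5 | h5
          · left; simp [Shape.isT, Shape.isC, h5]
          · right; simp [Shape.isT, Shape.isC, h5]
        · left; exact ⟨rfl, rfl⟩
      by_cases h2 : ∃ i o, i + o = 2 ∧ Shape.star i o ∈ L
      · obtain ⟨i, o, hio, hm⟩ := h2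
        have h1 := hcT _ hm
        have h2 := hcC _ hm
        have h4 : (Shape.star i o).isT = false := by simp [Shape.isT, hio]
        have h5 : (Shape.star i o).isC = true := by simp [Shape.isC, hio]
        rw [h4] at h1
        rw [h5] at h2
        simp only [Bool.false_eq_true, if_false, add_zero, if_true] at h1 h2
        have ht1 : 1 ≤ L.countP Shape.isT := by
          rcases h with h | h | ⟨i', o', h', rfl⟩
          · omega
          · exact h.1
          · simp only [List.mem_singleton, Shape.star.injEq] at hm
            omega
        have hL2 : 2 ≤ L.length := by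
          have h6 := List.countP_le_length (p := Shape.isT) (l := L.erase (.star i o))
          have h7 := (List.perm_cons_erase hm).length_eq
          simp only [List.length_cons] at h7
          omega
        have hPure := negAll_pure L hL h3 s hL2 hs
        by_cases hbig : 2 ≤ L.countP Shape.isT ∨ 2 ≤ L.countP Shape.isC
        · refine hstar i o hm hPure ?_
          rcases hbig with hb | hb
          · left; omega
          · right; left; omega
        · push Not at hbig
          have hl1 : (L.erase (.star i o)).length = 1 := by
            have h6 : (L.erase (.star i o)).countP Shape.isC = 0 := by omega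
            have h7 : (L.erase (.star i o)).countP Shape.isT = 1 := by omega
            have h8 : (L.erase (.star i o)).countP Shape.isT =
                (L.erase (.star i o)).length := by
              rw [List.countP_eq_length]
              intro T hT
              have h9 := hTC T (List.mem_of_mem_erase hT)
              have h10 := List.countP_eq_zero.mp h6 T hT
              rcases h9 with h9 | h9
              · exact h9.1
              · exact absurd h9.2 h10
            omega
          obtain ⟨U, hU⟩ := List.length_eq_one_iff.mp hl1
          rcases U with ⟨i', o'⟩ | ⟨a, b, c⟩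
          · refine hstar i o hm hPure ?_
            right; right
            refine ⟨i', o', ?_, hU⟩
            have h6 : 1 ≤ (L.erase (.star i o)).countP Shape.isT := by omega
            rw [hU] at h6
            by_contra hne
            simp [Shape.isT, hne] at h6
          · have h6 := hsum _ hm
            rw [hU] at h6
            have h7 : (L.map Shape.tau).sum = 1 + 2 := by
              rw [h6]; rfl
            have hs2 : s = 2 := by omega
            subst hs2
            have hper : L.Perm [.p4 a b c, .star i o] := by
              refine (List.perm_cons_erase hm).trans ?_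
              rw [hU]
              exact List.Perm.swap _ _ _
            exact good_perm hper.symm 2
              (base_good _ 2 (le_refl 2) a b c (exc_star a b c i o hio))
      · have hall : ∀ T ∈ L, T.isT = true ∧ T.isC = false := by
          intro T hT
          rcases hTC T hT with h4 | h4
          · exact h4
          · exfalso
            rcases T with ⟨i, o⟩ | ⟨a, b, c⟩
            · apply h2
              refine ⟨i, o, ?_, hT⟩
              have := h4.2
              simpa [Shape.isC] using this
            · exact absurd h4.2 (by simp [Shape.isC])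
        have hcc : L.countP Shape.isC = 0 := by
          rw [List.countP_eq_zero]
          intro T hT
          rw [(hall T hT).2]
          simp
        by_cases hK : ∃ i o, i + o = 1 ∧ L = [.star i o]
        · obtain ⟨i, o, hio, rfl⟩ := hK
          have : s = 0 := by
            have h4 : (List.map Shape.tau [Shape.star i o]).sum = 1 := rfl
            omega
          subst this
          exact good_K2 i o hio
        · have ht : 2 ≤ L.countP Shape.isT := by
            rcases h with h | h | h
            · exact h
            · omega
            · exact absurd h hK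
          have htl : L.countP Shape.isT = L.length := by
            rw [List.countP_eq_length]
            exact fun T hT => (hall T hT).1
          have hPure := negAll_pure L hL h3 s (by omega) hs
          by_cases hk : ∃ i o, i + o = 1 ∧ Shape.star i o ∈ L
          · obtain ⟨i, o, hio, hm⟩ := hk
            have h1 := hcT _ hm
            have h4 : (Shape.star i o).isT = true := by simp [Shape.isT, hio]
            rw [h4] at h1
            simp only [if_true] at h1
            by_cases ht3 : 3 ≤ L.countP Shape.isT
            · exact hstar i o hm hPure (Or.inl (by omega))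
            · have hl1 : (L.erase (.star i o)).length = 1 := by
                rw [hlenT _ hm]
                omega
              obtain ⟨U, hU⟩ := List.length_eq_one_iff.mp hl1
              rcases U with ⟨i', o'⟩ | ⟨a, b, c⟩
              · refine hstar i o hm hPure ?_
                right; right
                refine ⟨i', o', ?_, hU⟩
                have h6 : 1 ≤ (L.erase (.star i o)).countP Shape.isT := by omega
                rw [hU] at h6
                by_contra hne
                simp [Shape.isT, hne] at h6
              · have h6 := hsum _ hm
                rw [hU] at h6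
                have h7 : (L.map Shape.tau).sum = 1 + 2 := by
                  rw [h6]; rfl
                have hs2 : s = 2 := by omega
                subst hs2
                have hper : L.Perm [.p4 a b c, .star i o] := by
                  refine (List.perm_cons_erase hm).trans ?_
                  rw [hU]
                  exact List.Perm.swap _ _ _
                refine good_perm hper.symm 2 ?_
                refine negAll_pair a b c [.star i o] ?_ 0 (good_K2 i o hio)
                  (noPairB_star a b c i o (by omega) (by omega))
                intro T hT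
                rw [List.mem_singleton] at hT
                subst hT
                exact hL _ hm
          · -- only p4
            rcases L with _ | ⟨T, L'⟩
            · simp at hlen
            · rcases T with ⟨i, o⟩ | ⟨a, b, c⟩
              · exfalso
                apply hk
                refine ⟨i, o, ?_, List.mem_cons_self⟩
                have := (hall _ List.mem_cons_self).1
                simpa [Shape.isT] using this
              · have hL' : ∀ T ∈ L', T.Valid := fun T hT => hL T (List.mem_cons_of_mem _ hT)
                have hs' : s + 1 = 2 + (L'.map Shape.tau).sum := by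
                  rw [hs]; rfl
                by_cases hl : L'.length = 1
                · obtain ⟨U, hU⟩ := List.length_eq_one_iff.mp hl
                  subst hU
                  rcases U with ⟨i, o⟩ | ⟨a', b', c'⟩
                  · exfalso
                    apply hk
                    refine ⟨i, o, ?_, by simp⟩
                    have := (hall (.star i o) (by simp)).1
                    simpa [Shape.isT] using this
                  · have h7 : (List.map Shape.tau [Shape.p4 a' b' c']).sum = 2 := rfl
                    have hs3 : s = 3 := by omega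
                    subst hs3
                    exact base_good _ 3 (by norm_num) a b c (exc_p4 a b c a' b' c')
                · have hl2 : 2 ≤ L'.length := by
                    simp only [List.length_cons] at htl
                    omega
                  have h8 := negAll_len L'
                  obtain ⟨s', rfl⟩ : ∃ s', s = s' + 2 := ⟨s - 2, by omega⟩
                  have hneg : 2 ≤ L'.countP Shape.isT := by
                    have : L'.countP Shape.isT = L'.length := by
                      rw [List.countP_eq_length]
                      exact fun T hT => (hall T (List.mem_cons_of_mem _ hT)).1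
                    omega
                  have h9 := ih L' (by simpa using hlen) hL' (Or.inl hneg) s' (by omega)
                  exact negAll_pair a b c L' hL' s' h9
                    (noPairB_p4 a b c L' hL' (s' + 2) (by omega))

theorem neg_good (L : List Shape) (hL : ∀ T ∈ L, T.Valid)
    (h : 2 ≤ L.countP Shape.isT ∨ (1 ≤ L.countP Shape.isT ∧ 1 ≤ L.countP Shape.isC) ∨
      ∃ i o, i + o = 1 ∧ L = [.star i o]) :
    ∀ s, s + 1 = (L.map Shape.tau).sum → GoodA L s ∧ GoodB L s ∧ GoodC L s :=
  negAll_main L.length L rfl hL h

end MP_0a9719_co
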