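import Pool.Agent.Lib.MP_0a9719_co.Link
import Pool.Agent.Lib.MP_0a9719_co.Gs
import Pool.Agent.Lib.MP_0a9719_co.Crit
import Pool.Agent.Lib.MP_0a9719_co.NegAll

/-! MP_0a9719_co, assembly: the negative side. -/

namespace MP_0a9719_co

theorem res_univ {V : Type*} [Fintype V] (H : SimpleGraph V) : res Finset.univ H = H := by
  ext u v
  simp [res]

theorem tau_pos (L : List Shape)
    (h : 1 ≤ L.countP Shape.isT) : 1 ≤ (L.map Shape.tau).sum := by
  induction L with
  | nil => simp at h
  | cons T L ih =>
    have : 1 ≤ T.tau := by cases T <;> simp [Shape.tau]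
    simp only [List.map_cons, List.sum_cons]
    omega

theorem neg_final {W : Type*} [Fintype W] (F : SimpleGraph W) (hF : F.IsAcyclic)
    (hs : ∀ c : F.ConnectedComponent, c.supp.ncard ≤ 4)
    (h : 2 ≤ smallPairs F ∨ (1 ≤ smallPairs F ∧
      1 ≤ {c : F.ConnectedComponent | c.supp.ncard = 3}.ncard) ∨ F.edgeSet.ncard = 1) :
    ¬ PropertyP F := by
  rintro ⟨A, hA, hP⟩
  obtain ⟨L, hL, hT, hC, -, hone, -, hto, hfrom⟩ := link F hF hs A hA
  have hneg : 2 ≤ L.countP Shape.isT ∨ (1 ≤ L.countP Shape.isT ∧ 1 ≤ L.countP Shape.isC) ∨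
      ∃ i o, i + o = 1 ∧ L = [.star i o] := by
    rcases h with h | h | h
    · left; omega
    · right; left; omega
    · right; right; exact hone h
  have hT1 : 1 ≤ L.countP Shape.isT := by
    rcases hneg with h | h | ⟨i, o, hio, rfl⟩
    · omega
    · exact h.1
    · simp [Shape.isT, hio]
  have htau := tau_pos L hT1
  obtain ⟨s, hs1⟩ : ∃ s, s + 1 = (L.map Shape.tau).sum := ⟨(L.map Shape.tau).sum - 1, by omega⟩
  obtain ⟨-, -, c, hc0, hc1, n₀, hgood⟩ := neg_good L hL hneg s hs1
  obtain ⟨n, hn, H, hext, hne⟩ := hP (max n₀ (max s (Fintype.card W)))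
  have hn0 : n₀ ≤ n := le_trans (le_max_left _ _) hn
  have hns : s ≤ n := le_trans (le_trans (le_max_left _ _) (le_max_right _ _)) hn
  have hnW : Fintype.card W ≤ Fintype.card (Fin n) := by
    rw [Fintype.card_fin]
    exact le_trans (le_trans (le_max_right _ _) (le_max_right _ _)) hn
  -- comparison graph
  have hgs : numFree A (gs s n) = 2 ^ ext s n := by
    have hfree : F.Free (gs s n) := by
      intro hcon
      obtain ⟨f⟩ := hcon
      have hcont : Contains A (gs s n).Adj := by
        refine ⟨f.toHom, f.injective, fun u v huv => ?_⟩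
        exact f.toHom.map_adj ((hA u v).1.2 (Or.inl huv))
      have hp := hto (Fin n) (gs s n).Adj hcont
      have := packs_cover L hL (gs s n).Adj Finset.univ
        (Finset.univ.filter (fun u : Fin n => u.val < s)) (by
          intro u _ v _ huv
          rcases huv.2 with h1 | h1
          · left; simp [h1]
          · right; simp [h1]) (fun u hu => hu.1 rfl) hp
      have hcard : (Finset.univ.filter (fun u : Fin n => u.val < s)).card ≤ s := by
        have : (Finset.univ.filter (fun u : Fin n => u.val < s)).card ≤ (Finset.range s).card := by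
          apply Finset.card_le_card_of_injOn (fun u => u.val)
          · intro u hu
            simpa using hu
          · intro u _ v _ huv
            exact Fin.ext huv
        simpa using this
      omega
    rw [numFree_free F A hA _ hfree, gs_edges s n hns]
  have hHfree : F.Free H := by
    intro hcon
    obtain ⟨f⟩ := hcon
    have hcont : Contains A H.Adj := by
      refine ⟨f.toHom, f.injective, fun u v huv => ?_⟩
      exact f.toHom.map_adj ((hA u v).1.2 (Or.inl huv))
    have hp := hto (Fin n) H.Adj hcont
    have hnc : NoCover s H Finset.univ := by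
      intro Y _ hY
      by_contra hno
      push Not at hno
      have := packs_cover L hL H.Adj Finset.univ Y (by
        intro u _ v _ huv
        by_contra hcc
        push Not at hcc
        exact hno u (by simp [hcc.1]) v (by simp [hcc.2]) huv) (fun u hu => H.loopless.irrefl u hu) hp
      omega
    have h1 := hgood (Fin n) H Finset.univ (by simpa using hn0) hnc
    have h2 : numFree A H ≤ num L H Finset.univ := by
      unfold numFree num
      apply Set.ncard_le_ncard _ (Set.toFinite _)
      rintro D ⟨hD, hD2⟩
      refine ⟨by rw [res_univ]; exact hD, fun hpk => hD2 (hfrom (Fin n) D hnW hpk)⟩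
    have h3 := hext (gs s n)
    rw [hgs] at h3
    have h4 : ((2:ℝ) ^ ext s n) ≤ c * 2 ^ ext s n := by
      calc ((2:ℝ) ^ ext s n) = ((2 ^ ext s n : ℕ) : ℝ) := by push_cast; rfl
        _ ≤ (numFree A H : ℝ) := by exact_mod_cast h3
        _ ≤ (num L H Finset.univ : ℝ) := by exact_mod_cast h2
        _ ≤ c * 2 ^ ext s n := by simpa using h1
    have h5 : (0:ℝ) < 2 ^ ext s n := by positivity
    nlinarith
  apply hne
  refine ⟨hHfree, fun H' hH' => ?_⟩
  have h1 := hext H'
  rw [numFree_free F A hA _ hHfree, numFree_free F A hA _ hH'] at h1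
  exact (Nat.pow_le_pow_iff_right (by norm_num)).1 h1

end MP_0a9719_co
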