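import Pool.Agent.Lib.MP_0a9719_co.Host
import Pool.Agent.Lib.MP_0a9719_co.Cover

/-! MP_0a9719_co, module PairS: the two-vertex recursion.

`T = p4 a b c`, `K = 4 |L| + 4`. `pair_sum`: an orientation without disjoint copies of `T :: L` has
no
`K`-good pair in `X` (first set) or has a good pair `v ≠ w`, and then `¬ Packs L D ((X.erase
v).erase
w)` by `host_pair`; fibres of `rr ((X.erase v).erase w)` by `fiber_two`.
`pair_one`: a fixed pair `v ≠ w`: good as before with the bound `2^(2n-3)` of `fiber_two`; not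
good: counted in the last set. -/

namespace MP_0a9719_co

variable {V : Type*} [Fintype V] [DecidableEq V]

private theorem pairS_fib (L : List Shape) (H : SimpleGraph V) (X : Finset V) (v w : V) (m : ℕ)
    (hm : ∀ E : V → V → Prop, {D : V → V → Prop | IsOr (res X H) D ∧
      rr ((X.erase v).erase w) D = E}.ncard ≤ m) :
    {D : V → V → Prop | IsOr (res X H) D ∧ ¬ Packs L D ((X.erase v).erase w)}.ncard ≤
      m * num L H ((X.erase v).erase w) := by
  have hsub : (X.erase v).erase w ⊆ X := (Finset.erase_subset _ _).trans (Finset.erase_subset _ _)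
  refine fiber_le _ _ (rr ((X.erase v).erase w)) m ?_ ?_
  · rintro D ⟨h1, h2⟩
    exact ⟨isOr_rr h1 hsub, fun h => h2 ((packs_rr L D (Finset.Subset.refl _)).1 h)⟩
  · intro E _
    refine (Set.ncard_le_ncard ?_ (Set.toFinite _)).trans (hm E)
    rintro D ⟨⟨h1, _⟩, h3⟩
    exact ⟨h1, h3⟩

omit [Fintype V] [DecidableEq V] in
private theorem pairS_irr {H : SimpleGraph V} {X : Finset V} {D : V → V → Prop}
    (h : IsOr (res X H) D) (u : V) : ¬ D u u := fun h1 => (isOr_mem h h1).2.2.2 h1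

theorem pair_sum (a b c : Bool) (L : List Shape) (hL : ∀ T ∈ L, T.Valid)
    (H : SimpleGraph V) (X : Finset V) :
    num (.p4 a b c :: L) H X ≤
      {D : V → V → Prop | IsOr (res X H) D ∧ ¬ Packs (.p4 a b c :: L) D X ∧
        ∀ v ∈ X, ∀ w ∈ X, v ≠ w → ¬ GoodPair (4 * L.length + 4) D X v w}.ncard +
      ∑ v ∈ X, ∑ w ∈ X.erase v,
        2 ^ (deg H X v + deg H X w) * num L H ((X.erase v).erase w) := by
  have h1 := split_le {D : V → V → Prop | IsOr (res X H) D ∧ ¬ Packs (.p4 a b c :: L) D X}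
    {D : V → V → Prop | IsOr (res X H) D ∧ ¬ Packs (.p4 a b c :: L) D X ∧
      ∀ v ∈ X, ∀ w ∈ X, v ≠ w → ¬ GoodPair (4 * L.length + 4) D X v w}
    (⋃ v ∈ X, ⋃ w ∈ X.erase v, {D : V → V → Prop | IsOr (res X H) D ∧
      ¬ Packs L D ((X.erase v).erase w)}) ?_
  · refine h1.trans (Nat.add_le_add_left ?_ _)
    refine (Finset.set_ncard_biUnion_le _ _).trans (Finset.sum_le_sum fun v hv => ?_)
    refine (Finset.set_ncard_biUnion_le _ _).trans (Finset.sum_le_sum fun w hw => ?_)
    exact pairS_fib L H X v w _ fun E => (fiber_two H hv (Finset.mem_of_mem_erase hw)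
      (Finset.ne_of_mem_erase hw).symm E).1
  · rintro D ⟨h2, h3⟩
    by_cases h4 : ∀ v ∈ X, ∀ w ∈ X, v ≠ w → ¬ GoodPair (4 * L.length + 4) D X v w
    · exact Or.inl ⟨h2, h3, h4⟩
    · push Not at h4
      obtain ⟨v, hv, w, hw, hvw, hg⟩ := h4
      refine Or.inr (Set.mem_iUnion₂.2 ⟨v, hv, Set.mem_iUnion₂.2
        ⟨w, Finset.mem_erase.2 ⟨hvw.symm, hw⟩, h2, fun h5 => h3 ?_⟩⟩)
      exact host_pair a b c L hL D (pairS_irr h2) X v w hv hw hvw hg h5

theorem pair_one (a b c : Bool) (L : List Shape) (hL : ∀ T ∈ L, T.Valid)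
    (H : SimpleGraph V) (X : Finset V) (v w : V) (hv : v ∈ X) (hw : w ∈ X) (hvw : v ≠ w) :
    num (.p4 a b c :: L) H X ≤ 2 ^ (2 * X.card - 3) * num L H ((X.erase v).erase w) +
      {D : V → V → Prop | IsOr (res X H) D ∧ ¬ Packs (.p4 a b c :: L) D X ∧
        ¬ GoodPair (4 * L.length + 4) D X v w}.ncard := by
  have h1 := split_le {D : V → V → Prop | IsOr (res X H) D ∧ ¬ Packs (.p4 a b c :: L) D X}
    {D : V → V → Prop | IsOr (res X H) D ∧ ¬ Packs L D ((X.erase v).erase w)}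
    {D : V → V → Prop | IsOr (res X H) D ∧ ¬ Packs (.p4 a b c :: L) D X ∧
      ¬ GoodPair (4 * L.length + 4) D X v w} ?_
  · refine h1.trans (Nat.add_le_add_right ?_ _)
    exact pairS_fib L H X v w _ fun E => (fiber_two H hv hw hvw E).2
  · rintro D ⟨h2, h3⟩
    by_cases hg : GoodPair (4 * L.length + 4) D X v w
    · exact Or.inl ⟨h2, fun h5 => h3
        (host_pair a b c L hL D (pairS_irr h2) X v w hv hw hvw hg h5)⟩
    · exact Or.inr ⟨h2, h3, hg⟩

end MP_0a9719_co
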