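import Pool.Agent.Lib.MP_0a9719_co.Host
import Pool.Agent.Lib.MP_0a9719_co.Cover

/-! MP_0a9719_co, module Peel: the one-vertex recursion.

Let `T = star i o`, `K = 4 |L| + 4`, `n = |X|`.
`peel_sum`: an orientation `D` without disjoint copies of `T :: L` in `X` either has no `K`-mixed
vertex in `X` (counted by the first set) or has a `K`-mixed vertex `v`, and then
`¬ Packs L D (X.erase v)` by `host_star`, so `rr (X.erase v) D` is counted by
`num L H (X.erase v)`, with fibres of size at most `2 ^ deg H X v` (`fiber_one`).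
`peel_one`: for a fixed `v ∈ X`: if `v` is `K`-mixed as before; if `v` is not `K`-mixed, `rr (X.erase v) D`
is counted by `num (T :: L) H (X.erase v)` (`packs_mono`), with fibres at most
`2 (n+1)^K` (`fiber_pure`). -/

namespace MP_0a9719_co

variable {V : Type*} [Fintype V] [DecidableEq V]

private theorem peel_irr {G : SimpleGraph V} {D : V → V → Prop} (h : IsOr G D) (u : V) :
    ¬ D u u := fun hu => (h u u).2 ⟨hu, hu⟩

private theorem peel_B (L : List Shape) (H : SimpleGraph V) (X : Finset V) (v : V)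
    (hv : v ∈ X) :
    {D : V → V → Prop | IsOr (res X H) D ∧ ¬ Packs L D (X.erase v)}.ncard ≤
      2 ^ deg H X v * num L H (X.erase v) := by
  refine fiber_le _ _ (fun D => rr (X.erase v) D) _ (fun D hD => ?_) (fun E _ => ?_)
  · refine ⟨isOr_rr hD.1 (Finset.erase_subset v X), ?_⟩
    rw [packs_rr L D (Finset.Subset.refl _)]
    exact hD.2
  · refine le_trans (Set.ncard_le_ncard (fun D hD => ?_) (Set.toFinite _)) (fiber_one H hv E)
    exact ⟨hD.1.1, hD.2⟩

theorem peel_sum (i o : ℕ) (hio : i + o ≤ 3) (L : List Shape) (hL : ∀ T ∈ L, T.Valid)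
    (H : SimpleGraph V) (X : Finset V) :
    num (.star i o :: L) H X ≤
      {D : V → V → Prop | IsOr (res X H) D ∧ ¬ Packs (.star i o :: L) D X ∧
        ∀ v ∈ X, ¬ (4 * L.length + 4 ≤ ideg D X v ∧ 4 * L.length + 4 ≤ odeg D X v)}.ncard +
      ∑ v ∈ X, 2 ^ deg H X v * num L H (X.erase v) := by
  have h1 := split_le {D : V → V → Prop | IsOr (res X H) D ∧ ¬ Packs (.star i o :: L) D X}
    {D : V → V → Prop | IsOr (res X H) D ∧ ¬ Packs (.star i o :: L) D X ∧
        ∀ v ∈ X, ¬ (4 * L.length + 4 ≤ ideg D X v ∧ 4 * L.length + 4 ≤ odeg D X v)}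
    (⋃ v ∈ X, {D : V → V → Prop | IsOr (res X H) D ∧ ¬ Packs L D (X.erase v)}) (by
      intro D hD
      by_cases h : ∀ v ∈ X, ¬ (4 * L.length + 4 ≤ ideg D X v ∧ 4 * L.length + 4 ≤ odeg D X v)
      · exact Or.inl ⟨hD.1, hD.2, h⟩
      · right
        push Not at h
        obtain ⟨v, hv, hi, ho⟩ := h
        simp only [Set.mem_iUnion]
        exact ⟨v, hv, hD.1, fun hp => hD.2
          (host_star i o hio L hL D (peel_irr hD.1) X v hv hi ho hp)⟩)
  refine h1.trans (Nat.add_le_add_left ?_ _)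
  refine le_trans (Finset.set_ncard_biUnion_le X _) ?_
  exact Finset.sum_le_sum fun v hv => peel_B L H X v hv

theorem peel_one (i o : ℕ) (hio : i + o ≤ 3) (L : List Shape) (hL : ∀ T ∈ L, T.Valid)
    (H : SimpleGraph V) (X : Finset V) (v : V) (hv : v ∈ X) :
    num (.star i o :: L) H X ≤ 2 ^ deg H X v * num L H (X.erase v) +
      2 * (X.card + 1) ^ (4 * L.length + 4) * num (.star i o :: L) H (X.erase v) := by
  have h1 := split_le {D : V → V → Prop | IsOr (res X H) D ∧ ¬ Packs (.star i o :: L) D X}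
    {D : V → V → Prop | IsOr (res X H) D ∧ ¬ Packs L D (X.erase v)}
    {D : V → V → Prop | IsOr (res X H) D ∧
      ¬ (4 * L.length + 4 ≤ ideg D X v ∧ 4 * L.length + 4 ≤ odeg D X v) ∧
      ¬ Packs (.star i o :: L) D (X.erase v)} (by
      intro D hD
      by_cases h : 4 * L.length + 4 ≤ ideg D X v ∧ 4 * L.length + 4 ≤ odeg D X v
      · exact Or.inl ⟨hD.1, fun hp => hD.2
          (host_star i o hio L hL D (peel_irr hD.1) X v hv h.1 h.2 hp)⟩
      · exact Or.inr ⟨hD.1, h, fun hp => hD.2 (packs_mono _ D (Finset.erase_subset v X) hp)⟩)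
  refine h1.trans (Nat.add_le_add (peel_B L H X v hv) ?_)
  refine fiber_le _ _ (fun D => rr (X.erase v) D) _ (fun D hD => ?_) (fun E _ => ?_)
  · refine ⟨isOr_rr hD.1 (Finset.erase_subset v X), ?_⟩
    rw [packs_rr _ D (Finset.Subset.refl _)]
    exact hD.2.2
  · refine le_trans (Set.ncard_le_ncard (fun D hD => ?_) (Set.toFinite _))
      (fiber_pure H hv (4 * L.length + 4) E)
    exact ⟨hD.1.1, hD.1.2.1, hD.2⟩

end MP_0a9719_co
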