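import Pool.Agent.Lib.MP_0a9719_co.Cnt

/-! MP_0a9719_co, module Small: four finite counts.

Give an injective map from a finite set of bit vectors: e.g. for `K_4` the tournament `D_b`,
`b : Fin 6 → Bool` (one bit for every pair), is a decidable relation; the map `b ↦ D_b` is
injective, and the number of `b` with all out-degrees at most `2` is `32` (a vertex of
out-degree `3` is unique: `64 - 4 * 8`), checked by `decide`. Out-degrees of a decidable
relation on `Fin 4` as `Finset.card` of a filter (`Set.ncard_coe_finset`). For the path with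
centre `1`: three of the four orientations. For the paw (edges `01, 02, 03, 12`): `8` of the `16`
orientations have no vertex of in-degree `3` and no `x0 → x1 ← x2 → x3` with distinct
vertices (checked by computer). -/

namespace MP_0a9719_co

/-- the path `0 - 1 - 2`. -/
def path3 : SimpleGraph (Fin 3) where
  Adj u v := u ≠ v ∧ (u = 1 ∨ v = 1)
  symm := ⟨fun _ _ h => ⟨h.1.symm, h.2.symm⟩⟩
  loopless := ⟨fun _ h => h.1 rfl⟩

/-- the paw: triangle `0 1 2` and the edge `0 3`. -/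
def paw : SimpleGraph (Fin 4) where
  Adj u v := u ≠ v ∧ (u = 0 ∨ v = 0 ∨ (u ≠ 3 ∧ v ≠ 3))
  symm := ⟨fun _ _ h => ⟨h.1.symm, by tauto⟩⟩
  loopless := ⟨fun _ h => h.1 rfl⟩

/-- the orientation of the graph `adj` coded by the bits of `a`. -/
private def Small_f {n : ℕ} (adj : Fin n → Fin n → Bool) (a : ℕ) (u v : Fin n) : Bool :=
  adj u v && (if u < v then Nat.testBit a (v.val * (v.val - 1) / 2 + u.val)
    else !(Nat.testBit a (u.val * (u.val - 1) / 2 + v.val)))

private theorem Small_gen {n m : ℕ} (f : Fin m → Fin n → Fin n → Bool) (S : Finset (Fin m))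
    (P : (Fin n → Fin n → Prop) → Prop) (hinj : ∀ a ∈ S, ∀ b ∈ S, f a = f b → a = b)
    (hP : ∀ a ∈ S, P (fun u v => f a u v = true)) : S.card ≤ {D | P D}.ncard := by
  rw [← Set.ncard_coe_finset]
  refine Set.ncard_le_ncard_of_injOn (fun a => fun u v => f a u v = true) hP ?_ (Set.toFinite _)
  intro a ha b hb hab
  refine hinj a ha b hb ?_
  funext u v
  have h1 : (f a u v = true) = (f b u v = true) := congrFun (congrFun hab u) v
  rw [Bool.eq_iff_iff]
  exact iff_of_eq h1

private theorem Small_nc {n : ℕ} (g : Fin n → Bool) : {u | g u = true}.ncard =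
    (Finset.univ.filter (fun u => g u = true)).card := by
  rw [← Set.ncard_coe_finset]
  congr 1
  ext u
  simp

private def Small_p3 (u v : Fin 3) : Bool := decide (u ≠ v ∧ (u = 1 ∨ v = 1))

private def Small_paw (u v : Fin 4) : Bool :=
  decide (u ≠ v ∧ (u = 0 ∨ v = 0 ∨ (u ≠ 3 ∧ v ≠ 3)))

private def Small_top {n : ℕ} (u v : Fin n) : Bool := decide (u ≠ v)

theorem count_path3 : 3 ≤ {D : Fin 3 → Fin 3 → Prop | IsOr path3 D ∧
    ∀ v, {u | D v u}.ncard ≤ 1}.ncard := by
  have h1 := Small_gen (n := 3) (m := 8) (fun a => Small_f Small_p3 a.val)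
    (Finset.univ.filter (fun a : Fin 8 => Nat.testBit a.val 1 = false ∧
      ∀ v, (Finset.univ.filter (fun u => Small_f Small_p3 a.val v u = true)).card ≤ 1))
    (fun D => IsOr path3 D ∧ ∀ v, {u | D v u}.ncard ≤ 1) (by decide +kernel) ?_
  · refine le_trans ?_ h1
    decide +kernel
  · intro a ha
    refine ⟨?_, fun v => ?_⟩
    · have h2 : ∀ a : Fin 8, ∀ u v : Fin 3, ((u ≠ v ∧ (u = 1 ∨ v = 1)) ↔
          (Small_f Small_p3 a.val u v = true ∨ Small_f Small_p3 a.val v u = true)) ∧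
          ¬ (Small_f Small_p3 a.val u v = true ∧ Small_f Small_p3 a.val v u = true) := by
        decide +kernel
      exact h2 a
    · rw [Small_nc]
      exact (Finset.mem_filter.1 ha).2.2 v

theorem count_K4 : 32 ≤ {D : Fin 4 → Fin 4 → Prop | IsOr ⊤ D ∧
    ∀ v, {u | D v u}.ncard ≤ 2}.ncard := by
  have h1 := Small_gen (n := 4) (m := 64) (fun a => Small_f Small_top a.val)
    (Finset.univ.filter (fun a : Fin 64 =>
      ∀ v : Fin 4, (Finset.univ.filter (fun u => Small_f Small_top a.val v u = true)).card ≤ 2))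
    (fun D => IsOr ⊤ D ∧ ∀ v, {u | D v u}.ncard ≤ 2) (by decide +kernel) ?_
  · refine le_trans ?_ h1
    decide +kernel
  · intro a ha
    refine ⟨?_, fun v => ?_⟩
    · have h2 : ∀ a : Fin 64, ∀ u v : Fin 4, (u ≠ v ↔
          (Small_f Small_top a.val u v = true ∨ Small_f Small_top a.val v u = true)) ∧
          ¬ (Small_f Small_top a.val u v = true ∧ Small_f Small_top a.val v u = true) := by
        decide +kernel
      intro u v
      rw [SimpleGraph.top_adj]
      exact h2 a u v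
    · rw [Small_nc]
      exact (Finset.mem_filter.1 ha).2 v

theorem count_K3 : 8 ≤ {D : Fin 3 → Fin 3 → Prop | IsOr ⊤ D}.ncard := by
  have h1 := Small_gen (n := 3) (m := 8) (fun a => Small_f Small_top a.val)
    Finset.univ (fun D => IsOr ⊤ D) (by decide +kernel) ?_
  · refine le_trans ?_ h1
    decide +kernel
  · intro a _
    have h2 : ∀ a : Fin 8, ∀ u v : Fin 3, (u ≠ v ↔
        (Small_f Small_top a.val u v = true ∨ Small_f Small_top a.val v u = true)) ∧
        ¬ (Small_f Small_top a.val u v = true ∧ Small_f Small_top a.val v u = true) := by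
      decide +kernel
    intro u v
    rw [SimpleGraph.top_adj]
    exact h2 a u v

theorem count_paw : 8 ≤ {D : Fin 4 → Fin 4 → Prop | IsOr paw D ∧
    (∀ v, {u | D u v}.ncard ≤ 2) ∧
    ¬ ∃ x0 x1 x2 x3 : Fin 4, x0 ≠ x1 ∧ x0 ≠ x2 ∧ x0 ≠ x3 ∧ x1 ≠ x2 ∧ x1 ≠ x3 ∧ x2 ≠ x3 ∧
      D x0 x1 ∧ D x2 x1 ∧ D x2 x3}.ncard := by
  have h1 := Small_gen (n := 4) (m := 16) (fun a => Small_f Small_paw a.val)
    (Finset.univ.filter (fun a : Fin 16 =>
      (∀ v, (Finset.univ.filter (fun u => Small_f Small_paw a.val u v = true)).card ≤ 2) ∧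
      ¬ ∃ x0 x1 x2 x3 : Fin 4, x0 ≠ x1 ∧ x0 ≠ x2 ∧ x0 ≠ x3 ∧ x1 ≠ x2 ∧ x1 ≠ x3 ∧ x2 ≠ x3 ∧
        Small_f Small_paw a.val x0 x1 = true ∧ Small_f Small_paw a.val x2 x1 = true ∧
        Small_f Small_paw a.val x2 x3 = true))
    (fun D => IsOr paw D ∧ (∀ v, {u | D u v}.ncard ≤ 2) ∧
      ¬ ∃ x0 x1 x2 x3 : Fin 4, x0 ≠ x1 ∧ x0 ≠ x2 ∧ x0 ≠ x3 ∧ x1 ≠ x2 ∧ x1 ≠ x3 ∧ x2 ≠ x3 ∧
        D x0 x1 ∧ D x2 x1 ∧ D x2 x3) (by decide +kernel) ?_
  · refine le_trans ?_ h1
    decide +kernel
  · intro a ha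
    refine ⟨?_, fun v => ?_, (Finset.mem_filter.1 ha).2.2⟩
    · have h2 : ∀ a : Fin 16, ∀ u v : Fin 4, ((u ≠ v ∧ (u = 0 ∨ v = 0 ∨ (u ≠ 3 ∧ v ≠ 3))) ↔
          (Small_f Small_paw a.val u v = true ∨ Small_f Small_paw a.val v u = true)) ∧
          ¬ (Small_f Small_paw a.val u v = true ∧ Small_f Small_paw a.val v u = true) := by
        decide +kernel
      exact h2 a
    · rw [Small_nc (fun u => Small_f Small_paw a.val u v)]
      exact (Finset.mem_filter.1 ha).2.1 v

end MP_0a9719_co
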