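import Pool.Agent.Lib.MP_0a9719_co.SymA
import Pool.Agent.Lib.MP_0a9719_co.Ana

/-! MP_0a9719_co, module SymB: upper bounds for the number of edges.

All by `sym_host`, `eX_erase`, `deg_le`, `bounded_edges`; lists may be permuted (`packs_perm`).

`ex_B1` (stars with two or three leaves, at least one with two): write `L` as a permutation of
`L₁ ++ [P]`, `P` with two leaves, induct on `L₁`. `L = [P]`: degrees `≤ 1`, `2 e ≤ |X|`. Step, `L = T :: L'`,
`k = |L| ≥ 2`, `K = 4 |L'| + 4`: if some `v ∈ X` has `deg ≥ K` then `¬ Packs L' H.Adj (X.erase v)`,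
`2 e(X) = 2 deg v + 2 e(X \ v) ≤ 2 (n-1) + 2 (k-1)(n-1) - (n-1) + C'`, so
`2 e + n ≤ 2 k n + C' + 1`. If all degrees are `< K`: `2 e + n ≤ 3 n + 8 k K ≤ 2 k n + 8 k K`.
`ex_B2` (stars with three leaves, at least one, and at most one `K_2`): write `L` as a permutation of
`a` stars with three leaves followed by nothing or one `K_2`, `a ≥ 1`; induct on `a`. Step with `a ≥ 2`: if some degree
is `≥ K`: `e ≤ (n-1) + (a-1)(n-1) + C'`; otherwise `e ≤ n + C`. `a = 1`: `[K_{1,3}]`: `e ≤ n`;
`[K_{1,3}, K_2]`: if some `deg v ≥ K`, there is no edge in `X.erase v` and `e ≤ n`; otherwise `e ≤ n + C`.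
`ex_D` (`a` stars with three leaves and one `p4`): `f(a, n) = a.choose 2 + (a+1)(n-a)`,
`f(a, n) = f(a-1, n-1) + (n-1)`. Induct on `a`. `a = 0`: `p4_free_edges`, `n % 3 = 1`, so `e ≤ n - 1`.
`a ≥ 1`: if some `deg v ≥ K`: `e ≤ (n-1) + e(X \ v)`, `(n-1) - (a-1) = n - a`; otherwise
`e ≤ n + C ≤ f(a, n) - 1` for `n` large since `(a+1)(n-a) ≥ 2(n - a)`. -/

namespace MP_0a9719_co

/-- star with three leaves. -/
def Shape.isS : Shape → Bool
  | .star i o => i + o == 3
  | .p4 _ _ _ => false

theorem symb_isC {T : Shape} (h : T.isC = true) : ∃ i o, i + o = 2 ∧ T = .star i o := by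
  rcases T with ⟨i, o⟩ | ⟨a, b, c⟩
  · refine ⟨i, o, ?_, rfl⟩
    simpa [Shape.isC] using h
  · simp [Shape.isC] at h

theorem symb_isS {T : Shape} (h : T.isS = true) : ∃ i o, i + o = 3 ∧ T = .star i o := by
  rcases T with ⟨i, o⟩ | ⟨a, b, c⟩
  · refine ⟨i, o, ?_, rfl⟩
    simpa [Shape.isS] using h
  · simp [Shape.isS] at h

theorem symb_B1 (P : Shape) (hP : P.isC = true) (L₁ : List Shape)
    (hL : ∀ T ∈ L₁, T.isC = true ∨ T.isS = true) :
    ∃ C : ℕ, ∀ (V : Type) [Fintype V] [DecidableEq V] (H : SimpleGraph V) (X : Finset V),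
      ¬ Packs (L₁ ++ [P]) H.Adj X → 2 * eX H X + X.card ≤ 2 * (L₁.length + 1) * X.card + C := by
  induction L₁ with
  | nil =>
    refine ⟨0, fun V _ _ H X h => ?_⟩
    obtain ⟨i, o, hio, rfl⟩ := symb_isC hP
    rw [List.nil_append] at h
    have hd := syma_star i o H X h
    have h1 := sum_deg H X
    have h2 : ∑ v ∈ X, deg H X v ≤ ∑ _v ∈ X, 1 :=
      Finset.sum_le_sum fun v hv => by have := hd v hv; omega
    rw [Finset.sum_const, smul_eq_mul] at h2
    simp only [List.length_nil]
    omega
  | cons T L₁ ih =>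
    obtain ⟨C', hC'⟩ := ih (fun T' hT' => hL T' (List.mem_cons_of_mem _ hT'))
    set K : ℕ := 4 * (L₁ ++ [P]).length + 4 with hK
    have hval : ∀ T' ∈ T :: (L₁ ++ [P]), T'.Valid := by
      intro T' hT'
      have h1 : T'.isC = true ∨ T'.isS = true := by
        rw [← List.cons_append, List.mem_append, List.mem_singleton] at hT'
        rcases hT' with h | h
        · exact hL T' h
        · rw [h]; exact Or.inl hP
      rcases h1 with h1 | h1
      · obtain ⟨i, o, hio, rfl⟩ := symb_isC h1
        exact ⟨by omega, by omega⟩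
      · obtain ⟨i, o, hio, rfl⟩ := symb_isS h1
        exact ⟨by omega, by omega⟩
    refine ⟨C' + 1 + 8 * (L₁.length + 2) * K, fun V _ _ H X h => ?_⟩
    rw [List.cons_append] at h
    obtain ⟨i, o, hio, rfl⟩ : ∃ i o, i + o ≤ 3 ∧ T = .star i o := by
      rcases hL T List.mem_cons_self with h1 | h1
      · obtain ⟨i, o, hio, rfl⟩ := symb_isC h1
        exact ⟨i, o, by omega, rfl⟩
      · obtain ⟨i, o, hio, rfl⟩ := symb_isS h1
        exact ⟨i, o, by omega, rfl⟩
    rw [List.length_cons]
    by_cases hbig : ∃ v ∈ X, K ≤ deg H X v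
    · obtain ⟨v, hv, hd⟩ := hbig
      have h1 : ¬ Packs (L₁ ++ [P]) H.Adj (X.erase v) := fun h2 =>
        h (sym_host i o hio _ (fun T' hT' => hval T' (List.mem_cons_of_mem _ hT')) H X v hv hd h2)
      have h2 := hC' V H _ h1
      have e1 := eX_erase H hv
      have e2 := deg_le H X hv
      have hpos : 0 < X.card := Finset.card_pos.mpr ⟨v, hv⟩
      rw [Finset.card_erase_of_mem hv] at h2
      obtain ⟨n, hn⟩ : ∃ n, X.card = n + 1 := ⟨X.card - 1, by omega⟩
      rw [hn] at h2 e2 ⊢
      rw [Nat.add_sub_cancel] at h2 e2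
      have h3 : 0 ≤ 8 * (L₁.length + 2) * K := Nat.zero_le _
      nlinarith
    · push Not at hbig
      have h1 := bounded_edges _ hval K H X hbig h
      rw [List.length_cons, List.length_append, List.length_singleton] at h1
      nlinarith [Nat.zero_le (L₁.length * X.card), Nat.zero_le X.card, Nat.zero_le C',
        Nat.zero_le (L₁.length * K)]

theorem ex_B1 (L : List Shape) (hL : ∀ T ∈ L, T.isC = true ∨ T.isS = true)
    (h2 : ∃ T ∈ L, T.isC = true) :
    ∃ C : ℕ, ∀ (V : Type) [Fintype V] [DecidableEq V] (H : SimpleGraph V) (X : Finset V),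
      ¬ Packs L H.Adj X → 2 * eX H X + X.card ≤ 2 * L.length * X.card + C := by
  obtain ⟨P, hP, hPC⟩ := h2
  have hperm : L.Perm (L.erase P ++ [P]) :=
    (List.perm_cons_erase hP).trans (List.perm_append_singleton _ _).symm
  obtain ⟨C, hC⟩ := symb_B1 P hPC (L.erase P) (fun T hT => hL T (List.mem_of_mem_erase hT))
  refine ⟨C, fun V _ _ H X h => ?_⟩
  rw [packs_perm hperm] at h
  have h1 := hC V H X h
  have h3 : (L.erase P).length + 1 = L.length := by
    have := hperm.length_eq
    simp only [List.length_append, List.length_singleton] at this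
    omega
  rw [← h3]
  exact h1

theorem symb_B2 (LT : List Shape) (hT : ∀ T ∈ LT, ∃ i o, i + o = 1 ∧ T = .star i o)
    (hlen : LT.length ≤ 1) (LS : List Shape) (hS : ∀ T ∈ LS, T.isS = true) :
    ∃ C : ℕ, ∀ (V : Type) [Fintype V] [DecidableEq V] (H : SimpleGraph V) (X : Finset V),
      ¬ Packs (LS ++ LT) H.Adj X → eX H X ≤ LS.length * X.card + C := by
  induction LS with
  | nil =>
    refine ⟨0, fun V _ _ H X h => ?_⟩
    rw [List.nil_append] at h
    match LT, hT, hlen, h with
    | [], _, _, h => exact absurd trivial h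
    | [T], hT, _, h =>
      obtain ⟨i, o, hio, rfl⟩ := hT T List.mem_cons_self
      have hd := syma_star i o H X h
      have h1 := sum_deg H X
      have h2 : ∑ v ∈ X, deg H X v ≤ ∑ _v ∈ X, 0 :=
        Finset.sum_le_sum fun v hv => by have := hd v hv; omega
      rw [Finset.sum_const, smul_eq_mul] at h2
      simp only [List.length_nil]
      omega
    | _ :: _ :: _, _, hlen, _ => simp at hlen
  | cons T LS ih =>
    obtain ⟨C', hC'⟩ := ih (fun T' hT' => hS T' (List.mem_cons_of_mem _ hT'))
    set K : ℕ := 4 * (LS ++ LT).length + 4 with hK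
    have hval : ∀ T' ∈ T :: (LS ++ LT), T'.Valid := by
      intro T' hT'
      rw [← List.cons_append, List.mem_append] at hT'
      rcases hT' with h | h
      · obtain ⟨i, o, hio, rfl⟩ := symb_isS (hS T' h)
        exact ⟨by omega, by omega⟩
      · obtain ⟨i, o, hio, rfl⟩ := hT T' h
        exact ⟨by omega, by omega⟩
    refine ⟨C' + 4 * (LS.length + 2) * K, fun V _ _ H X h => ?_⟩
    rw [List.cons_append] at h
    obtain ⟨i, o, hio, rfl⟩ := symb_isS (hS T List.mem_cons_self)
    rw [List.length_cons]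
    by_cases hbig : ∃ v ∈ X, K ≤ deg H X v
    · obtain ⟨v, hv, hd⟩ := hbig
      have h1 : ¬ Packs (LS ++ LT) H.Adj (X.erase v) := fun h2 =>
        h (sym_host i o hio.le _ (fun T' hT' => hval T' (List.mem_cons_of_mem _ hT')) H X v hv
          hd h2)
      have h2 := hC' V H _ h1
      have e1 := eX_erase H hv
      have e2 := deg_le H X hv
      have hpos : 0 < X.card := Finset.card_pos.mpr ⟨v, hv⟩
      rw [Finset.card_erase_of_mem hv] at h2
      obtain ⟨n, hn⟩ : ∃ n, X.card = n + 1 := ⟨X.card - 1, by omega⟩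
      rw [hn] at h2 e2 ⊢
      rw [Nat.add_sub_cancel] at h2 e2
      have h3 : 0 ≤ 4 * (LS.length + 2) * K := Nat.zero_le _
      nlinarith
    · push Not at hbig
      have h1 := bounded_edges _ hval K H X hbig h
      rw [List.length_cons, List.length_append] at h1
      have h5 : 4 * (LS.length + LT.length + 1) * K ≤ 4 * (LS.length + 2) * K :=
        Nat.mul_le_mul_right _ (by omega)
      have h6 := Nat.zero_le (LS.length * X.card)
      rw [Nat.add_mul, one_mul]
      omega

theorem ex_B2 (L : List Shape) (hL : ∀ T ∈ L, T.isS = true ∨ ∃ i o, i + o = 1 ∧ T = .star i o)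
    (h1 : L.countP Shape.isT ≤ 1) (h3 : 1 ≤ L.countP Shape.isS) :
    ∃ C : ℕ, ∀ (V : Type) [Fintype V] [DecidableEq V] (H : SimpleGraph V) (X : Finset V),
      ¬ Packs L H.Adj X → eX H X ≤ L.countP Shape.isS * X.card + C := by
  have hperm := List.filter_append_perm Shape.isS L
  have hS : ∀ T ∈ L.filter Shape.isS, T.isS = true := fun T hT => (List.mem_filter.mp hT).2
  have hT1 : ∀ T ∈ L.filter (fun T => !Shape.isS T), ∃ i o, i + o = 1 ∧ T = .star i o := by
    intro T hT
    obtain ⟨h2, h4⟩ := List.mem_filter.mp hT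
    rcases hL T h2 with h5 | h5
    · rw [h5] at h4
      simp at h4
    · exact h5
  have hlen : (L.filter (fun T => !Shape.isS T)).length ≤ 1 := by
    refine le_trans ?_ h1
    rw [← List.countP_eq_length_filter]
    apply List.countP_mono_left
    intro T hT hT2
    rcases hL T hT with h5 | ⟨i, o, hio, rfl⟩
    · rw [h5] at hT2
      simp at hT2
    · simp [Shape.isT, hio]
  obtain ⟨C, hC⟩ := symb_B2 (L.filter (fun T => !Shape.isS T)) hT1 hlen (L.filter Shape.isS) hS
  refine ⟨C, fun V _ _ H X h => ?_⟩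
  rw [← packs_perm hperm] at h
  have h2 := hC V H X h
  rwa [← List.countP_eq_length_filter] at h2

theorem symb_D (a b c : Bool) (LS : List Shape) (hS : ∀ T ∈ LS, T.isS = true) :
    ∃ n₀ : ℕ, ∀ (V : Type) [Fintype V] [DecidableEq V] (H : SimpleGraph V) (X : Finset V),
      n₀ ≤ X.card → (X.card - LS.length) % 3 = 1 → ¬ Packs (LS ++ [.p4 a b c]) H.Adj X →
      eX H X + 1 ≤ LS.length.choose 2 + (LS.length + 1) * (X.card - LS.length) := by
  induction LS with
  | nil =>
    refine ⟨0, fun V _ _ H X _ hmod h => ?_⟩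
    rw [List.nil_append] at h
    have h1 := p4_free_edges a b c H X h
    simp only [List.length_nil, Nat.sub_zero] at hmod ⊢
    have h2 : eX H X ≠ X.card := by
      intro h3
      have := h1.2 h3
      omega
    have h4 : (0 : ℕ).choose 2 = 0 := rfl
    rw [h4]
    omega
  | cons T LS ih =>
    obtain ⟨n₀', hn₀'⟩ := ih (fun T' hT' => hS T' (List.mem_cons_of_mem _ hT'))
    set K : ℕ := 4 * (LS ++ [Shape.p4 a b c]).length + 4 with hK
    set C : ℕ := 4 * (LS.length + 2) * K with hC
    have hval : ∀ T' ∈ T :: (LS ++ [Shape.p4 a b c]), T'.Valid := by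
      intro T' hT'
      rw [← List.cons_append, List.mem_append, List.mem_singleton] at hT'
      rcases hT' with h | h
      · obtain ⟨i, o, hio, rfl⟩ := symb_isS (hS T' h)
        exact ⟨by omega, by omega⟩
      · rw [h]
        trivial
    refine ⟨n₀' + C + 2 * LS.length + 4, fun V _ _ H X hX hmod h => ?_⟩
    rw [List.cons_append] at h
    obtain ⟨i, o, hio, rfl⟩ := symb_isS (hS T List.mem_cons_self)
    rw [List.length_cons] at hmod ⊢
    set s : ℕ := LS.length with hs
    by_cases hbig : ∃ v ∈ X, K ≤ deg H X v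
    · obtain ⟨v, hv, hd⟩ := hbig
      have h1 : ¬ Packs (LS ++ [.p4 a b c]) H.Adj (X.erase v) := fun h2 =>
        h (sym_host i o hio.le _ (fun T' hT' => hval T' (List.mem_cons_of_mem _ hT')) H X v hv
          hd h2)
      have hc : (X.erase v).card = X.card - 1 := Finset.card_erase_of_mem hv
      have h2 := hn₀' V H (X.erase v) (by rw [hc]; omega)
        (by rw [hc]; rw [show X.card - 1 - s = X.card - (s + 1) by omega]; exact hmod) h1
      have e1 := eX_erase H hv
      have e2 := deg_le H X hv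
      rw [hc] at h2
      have h3 : (s + 1).choose 2 = s.choose 2 + s := by
        change (s + 1).choose (1 + 1) = s.choose (1 + 1) + s
        rw [Nat.choose_succ_succ', Nat.choose_one_right, Nat.add_comm]
      obtain ⟨m, hm⟩ : ∃ m, X.card = m + s + 1 := ⟨X.card - (s + 1), by omega⟩
      rw [hm] at h2 e2 ⊢
      have e3 : m + s + 1 - 1 - s = m := by omega
      have e4 : m + s + 1 - (s + 1) = m := by omega
      rw [e3] at h2
      rw [e4, h3]
      have e5 : m + s + 1 - 1 = m + s := by omega
      rw [e5] at e2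
      nlinarith
    · push Not at hbig
      have h1 := bounded_edges _ hval K H X hbig h
      rw [List.length_cons, List.length_append, List.length_singleton] at h1
      have h5 : 4 * (s + 1 + 1) * K = C := by rw [hC]
      rw [h5] at h1
      obtain ⟨m, hm⟩ : ∃ m, X.card = m + s + 1 := ⟨X.card - (s + 1), by omega⟩
      have e4 : X.card - (s + 1) = m := by omega
      rw [e4]
      have h6 : 2 * m ≤ (s + 1 + 1) * m := Nat.mul_le_mul_right _ (by omega)
      have h7 : eX H X + 1 ≤ 2 * m := by
        clear_value C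
        omega
      exact h7.trans (h6.trans (Nat.le_add_left _ _))

theorem ex_D (L : List Shape) (hL : ∀ T ∈ L, T.isS = true ∨ ∃ a b c, T = .p4 a b c)
    (h1 : L.countP Shape.isT = 1) :
    ∃ n₀ : ℕ, ∀ (V : Type) [Fintype V] [DecidableEq V] (H : SimpleGraph V) (X : Finset V),
      n₀ ≤ X.card → (X.card - (L.length - 1)) % 3 = 1 → ¬ Packs L H.Adj X →
      eX H X + 1 ≤ (L.length - 1).choose 2 +
        (L.length - 1 + 1) * (X.card - (L.length - 1)) := by
  have hp : ∃ T ∈ L, ∃ a b c, T = Shape.p4 a b c := by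
    by_contra hcon
    push Not at hcon
    have h0 : L.countP Shape.isT = 0 := by
      rw [List.countP_eq_zero]
      intro T hT
      rcases hL T hT with h | ⟨a, b, c, h⟩
      · obtain ⟨i, o, hio, rfl⟩ := symb_isS h
        simp [Shape.isT, hio]
      · exact absurd h (hcon T hT a b c)
    omega
  obtain ⟨P, hP, a, b, c, rfl⟩ := hp
  have hperm : L.Perm (L.erase (.p4 a b c) ++ [.p4 a b c]) :=
    (List.perm_cons_erase hP).trans (List.perm_append_singleton _ _).symm
  have hS : ∀ T ∈ L.erase (.p4 a b c), T.isS = true := by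
    intro T hT
    have h2 : (Shape.p4 a b c :: L.erase (.p4 a b c)).countP Shape.isT = 1 := by
      rw [← (List.perm_cons_erase hP).countP_eq]
      exact h1
    have h3 : (L.erase (.p4 a b c)).countP Shape.isT = 0 := by
      rw [List.countP_cons] at h2
      have h5 : Shape.isT (.p4 a b c) = true := rfl
      rw [if_pos h5] at h2
      omega
    rw [List.countP_eq_zero] at h3
    rcases hL T (List.mem_of_mem_erase hT) with h | ⟨a', b', c', h⟩
    · exact h
    · rw [h] at hT
      exact absurd rfl (h3 _ hT)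
  obtain ⟨n₀, hn₀⟩ := symb_D a b c (L.erase (.p4 a b c)) hS
  have h3 : L.length - 1 = (L.erase (.p4 a b c)).length := by
    have := hperm.length_eq
    simp only [List.length_append, List.length_singleton] at this
    omega
  refine ⟨n₀, fun V _ _ H X hX hmod h => ?_⟩
  rw [packs_perm hperm] at h
  rw [h3] at hmod ⊢
  exact hn₀ V H X hX hmod h

end MP_0a9719_co
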