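import Pool.Agent.Lib.MP_0a9719_co.Link
import Pool.Agent.Lib.MP_0a9719_co.Crit
import Pool.Agent.Lib.MP_0a9719_co.SymB
import Pool.Agent.Lib.MP_0a9719_co.Join
import Pool.Agent.Lib.MP_0a9719_co.Small

/-! MP_0a9719_co, module PosB1: forests with components `P_3`, `K_{1,3}` (at least one `P_3`).

`exists_out`: take any linear order on `W` and `A u v := F.Adj u v ∧ (d v < d u ∨ (d u = d v ∧ u < v))`,
`d u = (F.neighborSet u).ncard`.
`free_edges_le`: if `F.Free H'`, `|V| ≥ |W|` then `¬ Packs L H'.Adj univ` for the list `L` of `link` (a copy of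
`A` in the relation `H'.Adj` is an injective homomorphism `F → H'`, since `F.Adj u v` gives
`A u v` or `A v u` and `H'.Adj` is symmetric), and `H'.edgeSet.ncard = eX H' univ`.
`pos_B1`. `A` from `exists_out`, `L` from `link`. `smallPairs F = 0`, so `L.countP isT = 0`: all shapes of `L` are stars
with two or three leaves, at least one with two. `k = L.length` = number of components with at
least two vertices (`≥ 1`); every such component has a vertex with at least two out-neighbours
(in the component; three vertices: `comp_three`, the centre has degree `2`, the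
others `1`; four vertices: `comp_star`, degrees `3` and `1`). Let `V = Fin (k-1) ⊕ (Fin r × Fin 3)`,
`H = joinG (k-1) (copies r path3)`, `G` = orientations `E` of `copies r path3` with all out-degrees `≤ 1`.
`|G| ≥ 3^r` by `copies_count` and `count_path3`. `hfree` for `join_count`: a copy `f` of `A` in `D`; by `hub_free` (the `k` components) some
component is mapped into `Fin r × Fin 3`, and its vertex with two out-neighbours gives out-degree `≥ 2` in `E`. So
`numFree A H ≥ 2^((k-1).choose 2 + (k-1) 3 r) 3^r`. If `F.Free H'`, `|V| = n = k - 1 + 3 r`: `2 e(H') + n ≤ 2 k n + C`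
(`ex_B1`), so `4^(e(H')) ≤ 2^((2k-1)(k-1+3r) + C) = 2^(6 k r - 3 r + C')`, and
`(2^((k-1) 3 r) 3^r)^2 = 2^(6 k r - 6 r) 9^r`. As `9^r > 2^(3r + C')` for `r` large, the strict
alternative of `criterion` holds. -/

namespace MP_0a9719_co

theorem exists_out {W : Type*} [Finite W] (F : SimpleGraph W) :
    ∃ A : W → W → Prop, IsOr F A ∧ ∀ u v, F.Adj u v →
      (F.neighborSet v).ncard < (F.neighborSet u).ncard → A u v := by
  obtain ⟨f, hf⟩ : ∃ f : W → ℕ, Function.Injective f := by
    obtain ⟨n, ⟨e⟩⟩ := Finite.exists_equiv_fin W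
    exact ⟨fun v => (e v : ℕ), fun u v h => e.injective (Fin.ext h)⟩
  refine ⟨fun u v => F.Adj u v ∧ ((F.neighborSet v).ncard < (F.neighborSet u).ncard ∨
    ((F.neighborSet u).ncard = (F.neighborSet v).ncard ∧ f u < f v)), ?_, ?_⟩
  · intro u v
    refine ⟨⟨fun h => ?_, ?_⟩, ?_⟩
    · have hne : f u ≠ f v := fun h1 => h.ne (hf h1)
      rcases lt_trichotomy (F.neighborSet u).ncard (F.neighborSet v).ncard with h1 | h1 | h1
      · exact Or.inr ⟨h.symm, Or.inl h1⟩
      · rcases lt_or_gt_of_ne hne with h2 | h2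
        · exact Or.inl ⟨h, Or.inr ⟨h1, h2⟩⟩
        · exact Or.inr ⟨h.symm, Or.inr ⟨h1.symm, h2⟩⟩
      · exact Or.inl ⟨h, Or.inl h1⟩
    · rintro (h | h)
      · exact h.1
      · exact h.1.symm
    · rintro ⟨⟨-, h1⟩, -, h2⟩
      omega
  · intro u v h h1
    exact ⟨h, Or.inl h1⟩

theorem free_packs {W : Type*} [Fintype W] (F : SimpleGraph W) (A : W → W → Prop)
    (hA : IsOr F A) (L : List Shape)
    (hL : ∀ (V : Type) [Fintype V] [DecidableEq V] (D : V → V → Prop),
        Fintype.card W ≤ Fintype.card V → Packs L D Finset.univ → Contains A D)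
    (V : Type) [Fintype V] [DecidableEq V] (hV : Fintype.card W ≤ Fintype.card V)
    (H : SimpleGraph V) (hH : F.Free H) :
    ¬ Packs L H.Adj Finset.univ ∧ H.edgeSet.ncard = eX H Finset.univ := by
  constructor
  · intro hp
    obtain ⟨f, hf, hfA⟩ := hL V H.Adj hV hp
    refine hH ⟨⟨⟨f, ?_⟩, hf⟩⟩
    intro u v huv
    rcases (hA u v).1.1 huv with h1 | h1
    · exact hfA _ _ h1
    · exact (hfA _ _ h1).symm
  · have h1 : res Finset.univ H = H := by
      ext u v
      simp [res]
    unfold eX
    rw [h1]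

private theorem PosB1_leaf {W : Type*} [Finite W] (F : SimpleGraph W)
    (c : F.ConnectedComponent) (x y : W) (hx : x ∈ c.supp)
    (h : ∀ u ∈ c.supp, F.Adj x u → u = y) : (F.neighborSet x).ncard ≤ 1 := by
  have h1 : F.neighborSet x ⊆ {y} := by
    intro u hu
    have hadj : F.Adj x u := hu
    refine h u ?_ hadj
    have h2 : F.connectedComponentMk x = F.connectedComponentMk u :=
      SimpleGraph.ConnectedComponent.connectedComponentMk_eq_of_adj hadj
    rw [SimpleGraph.ConnectedComponent.mem_supp_iff] at hx ⊢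
    rw [← h2, hx]
  exact (Set.ncard_le_ncard h1 (Set.toFinite _)).trans (Set.ncard_singleton y).le

/-- a component with three vertices, or with four and a vertex of degree three, has a vertex with
two out-neighbours. -/
private theorem PosB1_two {W : Type*} [Finite W] (F : SimpleGraph W) (hF : F.IsAcyclic)
    (A : W → W → Prop) (hAout : ∀ u v, F.Adj u v →
      (F.neighborSet v).ncard < (F.neighborSet u).ncard → A u v)
    (c : F.ConnectedComponent) (hc : c.supp.ncard = 3 ∨
      (c.supp.ncard = 4 ∧ ∃ v ∈ c.supp, (F.neighborSet v).ncard = 3)) :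
    ∃ v x y, v ∈ c.supp ∧ x ∈ c.supp ∧ y ∈ c.supp ∧ x ≠ y ∧ A v x ∧ A v y := by
  rcases hc with hc | ⟨hc, v, hv, hv3⟩
  · obtain ⟨x, y, z, hxy, hxz, hyz, hyx, hyz', hnxz, hsupp⟩ := comp_three F hF c hc
    have mx : x ∈ c.supp := by rw [hsupp]; simp
    have my : y ∈ c.supp := by rw [hsupp]; simp
    have mz : z ∈ c.supp := by rw [hsupp]; simp
    have hdx : (F.neighborSet x).ncard ≤ 1 := by
      refine PosB1_leaf F c x y mx ?_
      intro u hu h
      rw [hsupp] at hu
      rcases hu with rfl | rfl | rfl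
      · exact absurd h (F.loopless.irrefl _)
      · rfl
      · exact absurd h hnxz
    have hdz : (F.neighborSet z).ncard ≤ 1 := by
      refine PosB1_leaf F c z y mz ?_
      intro u hu h
      rw [hsupp] at hu
      rcases hu with rfl | rfl | rfl
      · exact absurd h.symm hnxz
      · rfl
      · exact absurd h (F.loopless.irrefl _)
    have hdy : 2 ≤ (F.neighborSet y).ncard := by
      rw [← Set.ncard_pair hxz]
      refine Set.ncard_le_ncard ?_ (Set.toFinite _)
      rintro u (rfl | rfl)
      · exact hyx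
      · exact hyz'
    exact ⟨y, x, z, my, mx, mz, hxz, hAout y x hyx (by omega), hAout y z hyz' (by omega)⟩
  · obtain ⟨x, y, z, hxy, hxz, hyz, hvx, hvy, hvz, avx, avy, avz, nxy, nxz, nyz, hsupp⟩ :=
      comp_star F hF c hc v hv hv3
    have mx : x ∈ c.supp := by rw [hsupp]; simp
    have my : y ∈ c.supp := by rw [hsupp]; simp
    have hdx : (F.neighborSet x).ncard ≤ 1 := by
      refine PosB1_leaf F c x v mx ?_
      intro u hu h
      rw [hsupp] at hu
      rcases hu with rfl | rfl | rfl | rfl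
      · rfl
      · exact absurd h (F.loopless.irrefl _)
      · exact absurd h nxy
      · exact absurd h nxz
    have hdy : (F.neighborSet y).ncard ≤ 1 := by
      refine PosB1_leaf F c y v my ?_
      intro u hu h
      rw [hsupp] at hu
      rcases hu with rfl | rfl | rfl | rfl
      · rfl
      · exact absurd h.symm nxy
      · exact absurd h (F.loopless.irrefl _)
      · exact absurd h nyz
    exact ⟨v, x, y, hv, mx, my, hxy, hAout v x avx (by omega), hAout v y avy (by omega)⟩

private theorem PosB1_exp (C : ℕ) : ∃ r₀ : ℕ, ∀ r ≥ r₀, 8 ^ r * 2 ^ C < 9 ^ r := by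
  obtain ⟨n₀, h⟩ := poly_exp (2 ^ C + 1) 8 9 (by norm_num) (by norm_num)
  refine ⟨n₀, fun r hr => ?_⟩
  have h1 := h r hr
  have h2 : (1 : ℝ) ≤ ((r : ℝ) + 1) ^ (2 ^ C + 1) := by
    refine one_le_pow₀ ?_
    have : (0 : ℝ) ≤ r := Nat.cast_nonneg r
    linarith
  have h3 : (8 : ℝ) ^ r * 2 ^ C < 9 ^ r := by
    refine lt_of_lt_of_le ?_ h1
    have h4 : (0 : ℝ) < 8 ^ r := by positivity
    have h5 : (0 : ℝ) < 2 ^ C := by positivity
    push_cast
    have h6 : (8 : ℝ) ^ r * 2 ^ C < (2 ^ C + 1) * 1 * 8 ^ r := by nlinarith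
    refine h6.trans_le ?_
    gcongr
  exact_mod_cast h3

theorem pos_B1 {W : Type*} [Fintype W] (F : SimpleGraph W) (hF : F.IsAcyclic)
    (hs : ∀ c : F.ConnectedComponent, c.supp.ncard ≤ 4) (h0 : smallPairs F = 0)
    (h3 : ∃ c : F.ConnectedComponent, c.supp.ncard = 3) : PropertyP F := by
  classical
  have hfin : Finite F.ConnectedComponent := inferInstanceAs (Finite (Quot F.Reachable))
  obtain ⟨A, hA, hAout⟩ := exists_out F
  obtain ⟨L, hLv, hLT, hLC, hLlen, -, -, -, hbwd⟩ := link F hF hs A hA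
  have h0' : {c : F.ConnectedComponent | c.supp.ncard = 2 ∨
      (c.supp.ncard = 4 ∧ ∀ v ∈ c.supp, (F.neighborSet v).ncard ≠ 3)} = ∅ :=
    (Set.ncard_eq_zero (Set.toFinite _)).1 h0
  have hcomp : ∀ c : F.ConnectedComponent, 2 ≤ c.supp.ncard → c.supp.ncard = 3 ∨
      (c.supp.ncard = 4 ∧ ∃ v ∈ c.supp, (F.neighborSet v).ncard = 3) := by
    intro c hc
    have h1 : c ∉ {c : F.ConnectedComponent | c.supp.ncard = 2 ∨
      (c.supp.ncard = 4 ∧ ∀ v ∈ c.supp, (F.neighborSet v).ncard ≠ 3)} := by
      rw [h0']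
      exact Set.notMem_empty c
    have h2 := hs c
    have h4 : c.supp.ncard ≠ 2 := fun h => h1 (Or.inl h)
    by_cases h5 : c.supp.ncard = 3
    · exact Or.inl h5
    · have h6 : c.supp.ncard = 4 := by omega
      refine Or.inr ⟨h6, ?_⟩
      by_contra h7
      push Not at h7
      exact h1 (Or.inr ⟨h6, h7⟩)
  have hshape : ∀ T ∈ L, T.isC = true ∨ T.isS = true := by
    intro T hT
    have h1 : T.isT ≠ true := by
      intro h2
      have h4 : 0 < L.countP Shape.isT := List.countP_pos_iff.2 ⟨T, hT, h2⟩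
      omega
    have h2 := hLv T hT
    cases T with
    | star i o =>
      have h4 : 1 ≤ i + o ∧ i + o ≤ 3 := h2
      have h5 : i + o ≠ 1 := by
        intro h6
        apply h1
        change (i + o == 1) = true
        rw [h6]
        rfl
      by_cases h6 : i + o = 2
      · left
        change (i + o == 2) = true
        rw [h6]
        rfl
      · right
        have h7 : i + o = 3 := by omega
        change (i + o == 3) = true
        rw [h7]
        rfl
    | p4 a b c => exact absurd rfl h1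
  have hC1 : ∃ T ∈ L, T.isC = true := by
    have h1 : 0 < L.countP Shape.isC := by
      rw [hLC, Set.ncard_pos (Set.toFinite _)]
      exact h3
    exact List.countP_pos_iff.1 h1
  obtain ⟨C, hC⟩ := ex_B1 L hshape hC1
  -- the number of components
  obtain ⟨j, hj⟩ : ∃ j, L.length = j + 1 := by
    obtain ⟨T, hT, -⟩ := hC1
    exact ⟨L.length - 1, by have := List.length_pos_of_mem hT; omega⟩
  have hk : {c : F.ConnectedComponent | 2 ≤ c.supp.ncard}.ncard = j + 1 := by
    rw [← hLlen, hj]
  obtain ⟨e⟩ : Nonempty (Fin (j + 1) ≃ {c : F.ConnectedComponent | 2 ≤ c.supp.ncard}) :=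
    ⟨(Finite.equivFinOfCardEq hk).symm⟩
  obtain ⟨r₀, hr₀⟩ := PosB1_exp ((2 * j + 1) * j + C)
  refine criterion F A hA fun n₀ => ?_
  obtain ⟨r, hr1, hr2, hr3⟩ : ∃ r : ℕ, r₀ ≤ r ∧ n₀ ≤ r ∧ Fintype.card W ≤ r :=
    ⟨r₀ + n₀ + Fintype.card W, by omega, by omega, by omega⟩
  have hcardV : Fintype.card (Fin j ⊕ (Fin r × Fin 3)) = j + 3 * r := by
    rw [Fintype.card_sum, Fintype.card_prod, Fintype.card_fin, Fintype.card_fin,
      Fintype.card_fin, mul_comm]
  refine ⟨j + 3 * r, by omega, Fin j ⊕ (Fin r × Fin 3), inferInstance,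
    joinG j (copies r path3), hcardV, Or.inr ?_⟩
  intro H' hH'
  -- the lower bound
  have hlow : 2 ^ (j.choose 2 + j * (3 * r)) * 3 ^ r ≤ numFree A (joinG j (copies r path3)) := by
    have h1 := join_count j (copies r path3) A
      {E : Fin r × Fin 3 → Fin r × Fin 3 → Prop | IsOr (copies r path3) E ∧
        ∀ i, (fun a b => E (i, a) (i, b)) ∈ {D : Fin 3 → Fin 3 → Prop | IsOr path3 D ∧
          ∀ v, {u | D v u}.ncard ≤ 1}} (fun E hE => hE.1) (by
        rintro E ⟨hE, hE1⟩ D hD hDE ⟨f, hf, hfA⟩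
        obtain ⟨i, hi⟩ := hub_free j (fun i => (e i).1.supp) (by
          intro i i' hii
          rw [Set.disjoint_left]
          intro u hu hu'
          apply hii
          apply e.injective
          apply Subtype.ext
          exact Eq.trans (Eq.symm hu) hu') f hf
        obtain ⟨v, x, y, hv, hx, hy, hxy, hvx, hvy⟩ :=
          PosB1_two F hF A hAout (e i).1 (hcomp _ (e i).2)
        obtain ⟨v', hv'⟩ := hi v hv
        obtain ⟨x', hx'⟩ := hi x hx
        obtain ⟨y', hy'⟩ := hi y hy
        have h4 := hfA v x hvx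
        have h5 := hfA v y hvy
        rw [hv', hx', hDE] at h4
        rw [hv', hy', hDE] at h5
        have h6 : v'.1 = x'.1 := ((hE v' x').1.2 (Or.inl h4)).1
        have h7 : v'.1 = y'.1 := ((hE v' y').1.2 (Or.inl h5)).1
        have h8 : x' ≠ y' := by
          intro h9
          apply hxy
          apply hf
          rw [hx', hy', h9]
        obtain ⟨v1, v2⟩ := v'
        obtain ⟨x1, x2⟩ := x'
        obtain ⟨y1, y2⟩ := y'
        dsimp only at h6 h7
        subst h6
        subst h7
        have h9 := (hE1 v1).2 v2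
        have h10 : ({x2, y2} : Set (Fin 3)) ⊆ {u | E (v1, v2) (v1, u)} := by
          rintro u (rfl | hu)
          · exact h4
          · rw [Set.mem_singleton_iff.1 hu]
            exact h5
        have h11 : x2 ≠ y2 := fun h => h8 (by rw [h])
        have h12 := Set.ncard_le_ncard h10 (Set.toFinite _)
        rw [Set.ncard_pair h11] at h12
        have h13 : {u | E (v1, v2) (v1, u)}.ncard ≤ 1 := h9
        omega)
    have h2 := copies_count r 3 path3 {D : Fin 3 → Fin 3 → Prop | IsOr path3 D ∧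
          ∀ v, {u | D v u}.ncard ≤ 1} (fun E hE => hE.1)
    have h4 := Nat.pow_le_pow_left count_path3 r
    have h5 : Fintype.card (Fin r × Fin 3) = 3 * r := by
      rw [Fintype.card_prod, Fintype.card_fin, Fintype.card_fin, mul_comm]
    rw [h5] at h1
    exact (Nat.mul_le_mul_left _ (h4.trans h2)).trans h1
  -- the upper bound
  obtain ⟨hnp, heq⟩ := free_packs F A hA L hbwd (Fin j ⊕ (Fin r × Fin 3))
    (by rw [hcardV]; omega) H' hH'
  have hup := hC _ H' Finset.univ hnp
  rw [← heq, Finset.card_univ, hcardV, hj] at hup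
  have h8 := hr₀ r hr1
  refine lt_of_lt_of_le ?_ hlow
  rw [← Nat.pow_lt_pow_iff_left (n := 2) (by norm_num)]
  have hexp : 2 * H'.edgeSet.ncard ≤ 6 * j * r + (3 * r + ((2 * j + 1) * j + C)) := by
    have h9 : 2 * (j + 1) * (j + 3 * r) = (j + 3 * r) + (6 * j * r + (3 * r +
        ((2 * j + 1) * j))) := by ring
    rw [h9] at hup
    omega
  calc (2 ^ H'.edgeSet.ncard) ^ 2 = 2 ^ (2 * H'.edgeSet.ncard) := by
        rw [← pow_mul, mul_comm]
    _ ≤ 2 ^ (6 * j * r + (3 * r + ((2 * j + 1) * j + C))) :=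
        Nat.pow_le_pow_right (by norm_num) hexp
    _ = 2 ^ (6 * j * r) * (8 ^ r * 2 ^ ((2 * j + 1) * j + C)) := by
        rw [pow_add, pow_add, pow_mul 2 3 r]
        norm_num
    _ < 2 ^ (6 * j * r) * 9 ^ r := Nat.mul_lt_mul_of_pos_left h8 (by positivity)
    _ ≤ 2 ^ (2 * j.choose 2) * (2 ^ (6 * j * r) * 9 ^ r) :=
        Nat.le_mul_of_pos_left _ (by positivity)
    _ = (2 ^ (j.choose 2 + j * (3 * r)) * 3 ^ r) ^ 2 := by
        rw [mul_pow, ← pow_mul, ← pow_mul 3 r 2, mul_comm r 2, pow_mul 3 2 r, ← mul_assoc,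
          ← pow_add]
        norm_num
        ring_nf

end MP_0a9719_co
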