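import Pool.Agent.Lib.MP_0a9719_co.Host
import Pool.Agent.Lib.MP_0a9719_co.FibOr
import Pool.Agent.Lib.MP_0a9719_co.GrC

/-! MP_0a9719_co, module SymA: `Packs` for the adjacency relation of a graph (undirected packing).

`D = H.Adj` is symmetric: `ideg D X v = odeg D X v = deg H X v`, and every orientation type of a shape
is the same condition.
`sym_host`: `host_star`.
`p4_free_edges`: strong induction on `|X|`. No path `x0 x1 x2 x3` in `X`. If some `v ∈ X` has degree `≤ 1` in
`X`: `e(X) ≤ 1 + e(X \ v) ≤ 1 + (|X| - 1)`. Equality would need `deg v = 1` and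
`e(X \ v) = |X| - 1 = |X \ v|`. To exclude this prove the stronger statement together: (a)
`e ≤ |X|`, (b) if `e = |X|` then every vertex of `X` has degree exactly `2` in `X` and `3 ∣ |X|`. With
(b) for `X \ v`: the neighbour `u` of `v` has two neighbours `a, b` in `X \ v`, `a` has degree `2` in
`X \ v`, and a neighbour `a' ≠ u`; `v - u - a - a'` is a path (`a' ≠ v`), contradiction. So `e ≤ |X| - 1`
in this case. If all degrees are `≥ 2` (`X ≠ ∅`): take `v` with neighbours `a ≠ b`. A neighbour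
`c` of `a` with `c ≠ v, b` gives `c - a - v - b`; so the neighbours of `a` are `v, b`, likewise those of `b` are
`v, a`, and a third neighbour `d` of `v` gives `d - v - a - b`. So `{v, a, b}` is a triangle without
other edges at it, `e(X) = 3 + e(X \ {v, a, b})`; induction. `X = ∅`: `e = 0`.
`free_edges`: `K_2`: `e = 0`; two leaves: all degrees `≤ 1`; three leaves: all degrees `≤ 2`, so `2 e ≤ 2 |X|`
(`2 e = ∑ deg`); `p4`: above.
`bounded_edges`: by `greedy` (`L = T :: L'`) some `T' ∈ L` has no copy in `X \ X₀`, `|X₀| ≤ 4 |L|`; remove the vertices of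
`X₀` one by one (`eX_erase`, degrees `< K`): `e(X) ≤ 4 |L| K + e(X \ X₀) ≤ 4 |L| K + |X|`. -/

namespace MP_0a9719_co

variable {V : Type*} [Fintype V] [DecidableEq V]

theorem sym_deg (H : SimpleGraph V) (X : Finset V) (v : V) :
    ideg H.Adj X v = deg H X v ∧ odeg H.Adj X v = deg H X v := by
  refine ⟨?_, rfl⟩
  unfold ideg deg
  congr 1
  ext u
  exact and_congr_right fun _ => H.adj_comm u v

theorem sym_host (i o : ℕ) (hio : i + o ≤ 3) (L : List Shape) (hL : ∀ T ∈ L, T.Valid)
    (H : SimpleGraph V) (X : Finset V) (v : V) (hv : v ∈ X)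
    (hd : 4 * L.length + 4 ≤ deg H X v) (h : Packs L H.Adj (X.erase v)) :
    Packs (.star i o :: L) H.Adj X := by
  have h1 := sym_deg H X v
  exact host_star i o hio L hL H.Adj (fun u => H.loopless.irrefl u) X v hv
    (by rw [h1.1]; exact hd) (by rw [h1.2]; exact hd) h

theorem sum_deg (H : SimpleGraph V) (X : Finset V) : ∑ v ∈ X, deg H X v = 2 * eX H X := by
  classical
  have h := (res X H).sum_degrees_eq_twice_card_edges
  have h1 : eX H X = (res X H).edgeFinset.card := by
    rw [eX, ← SimpleGraph.coe_edgeFinset, Set.ncard_coe_finset]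
  have h2 : ∀ v ∈ X, (res X H).degree v = deg H X v := by
    intro v hv
    rw [← SimpleGraph.card_neighborSet_eq_degree, ← Nat.card_eq_fintype_card,
      Nat.card_coe_set_eq, deg]
    congr 1
    ext u
    exact ⟨fun h => ⟨h.2.2, h.1⟩, fun h => ⟨h.2, hv, h.1⟩⟩
  have h3 : ∀ v ∈ Finset.univ, v ∉ X → (res X H).degree v = 0 := by
    intro v _ hv
    rw [← SimpleGraph.card_neighborSet_eq_degree, ← Nat.card_eq_fintype_card,
      Nat.card_coe_set_eq]
    rw [Set.ncard_eq_zero (Set.toFinite _)]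
    apply Set.eq_empty_of_forall_notMem
    intro u hu
    exact hv hu.2.1
  rw [h1, ← h, ← Finset.sum_subset (Finset.subset_univ X) h3]
  exact (Finset.sum_congr rfl h2).symm

omit [Fintype V] [DecidableEq V] in
theorem syma_arc {H : SimpleGraph V} (a : Bool) {x y : V} (h : H.Adj x y) :
    arc a H.Adj x y := by
  cases a
  · exact h.symm
  · exact h

theorem syma_empty (H : SimpleGraph V) : eX H (∅ : Finset V) = 0 := by
  rw [eX, Set.ncard_eq_zero (Set.toFinite _)]
  apply Set.eq_empty_of_forall_notMem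
  intro e
  induction e using Sym2.ind with
  | _ u v =>
    rw [SimpleGraph.mem_edgeSet]
    rintro ⟨-, h, -⟩
    exact absurd h (Finset.notMem_empty _)

theorem syma_two {H : SimpleGraph V} {X : Finset V} {v : V} (h : 2 ≤ deg H X v) (w : V) :
    ∃ u ∈ X, H.Adj v u ∧ u ≠ w := by
  by_contra hcon
  push Not at hcon
  have hsub : {u | u ∈ X ∧ H.Adj v u} ⊆ {w} := by
    rintro u ⟨hu, huv⟩
    exact hcon u hu huv
  have h1 := Set.ncard_le_ncard hsub (Set.toFinite _)
  rw [Set.ncard_singleton] at h1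
  unfold deg at h
  omega

theorem syma_p4 (H : SimpleGraph V) (n : ℕ) : ∀ X : Finset V, X.card = n →
    (∀ x0 ∈ X, ∀ x1 ∈ X, ∀ x2 ∈ X, ∀ x3 ∈ X, H.Adj x0 x1 → H.Adj x1 x2 →
      H.Adj x2 x3 → x0 ≠ x2 → x0 ≠ x3 → x1 ≠ x3 → False) →
    eX H X ≤ X.card ∧ (eX H X = X.card → (∀ w ∈ X, 2 ≤ deg H X w) ∧ 3 ∣ X.card) := by
  induction n using Nat.strong_induction_on with
  | _ n ih =>
  intro X hXn hfree
  rcases Finset.eq_empty_or_nonempty X with rfl | hne
  · rw [syma_empty]
    exact ⟨Nat.zero_le _, fun _ => ⟨fun w hw => absurd hw (Finset.notMem_empty _), by simp⟩⟩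
  have hn : 0 < n := by rw [← hXn]; exact Finset.card_pos.mpr hne
  by_cases hsmall : ∃ v ∈ X, deg H X v ≤ 1
  · obtain ⟨v, hv, hd⟩ := hsmall
    have hsub : X.erase v ⊆ X := Finset.erase_subset _ _
    have hc : (X.erase v).card = n - 1 := by rw [Finset.card_erase_of_mem hv, hXn]
    have h1 := ih (n - 1) (by omega) (X.erase v) hc (fun x0 h0 x1 h1 x2 h2 x3 h3 =>
      hfree x0 (hsub h0) x1 (hsub h1) x2 (hsub h2) x3 (hsub h3))
    have e1 := eX_erase H hv
    refine ⟨by omega, fun heq => ?_⟩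
    exfalso
    have hd1 : deg H X v = 1 := by omega
    have h2 := (h1.2 (by omega)).1
    obtain ⟨u, hu⟩ := Set.ncard_eq_one.mp hd1
    have huN : u ∈ X ∧ H.Adj v u := by
      have : u ∈ {u | u ∈ X ∧ H.Adj v u} := by rw [hu]; simp
      exact this
    have huE : u ∈ X.erase v := Finset.mem_erase.mpr ⟨huN.2.ne', huN.1⟩
    obtain ⟨a, ha, hua, -⟩ := syma_two (h2 u huE) u
    obtain ⟨a', ha', haa', hne'⟩ := syma_two (h2 a ha) u
    exact hfree v hv u huN.1 a (hsub ha) a' (hsub ha') huN.2 hua haa'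
      (Finset.mem_erase.mp ha).1.symm (Finset.mem_erase.mp ha').1.symm hne'.symm
  · push Not at hsmall
    obtain ⟨v, hv⟩ := hne
    obtain ⟨a, haX, hva, -⟩ := syma_two (hsmall v hv) v
    obtain ⟨b, hbX, hvb, hba⟩ := syma_two (hsmall v hv) a
    have hNa : ∀ c ∈ X, H.Adj a c → c = v ∨ c = b := by
      intro c hc hac
      by_contra hcon
      push Not at hcon
      exact hfree c hc a haX v hv b hbX hac.symm hva.symm hvb hcon.1 hcon.2 hba.symm
    have hNb : ∀ c ∈ X, H.Adj b c → c = v ∨ c = a := by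
      intro c hc hbc
      by_contra hcon
      push Not at hcon
      exact hfree c hc b hbX v hv a haX hbc.symm hvb.symm hva hcon.1 hcon.2 hba
    have hab : H.Adj a b := by
      obtain ⟨c, hc, hac, hcv⟩ := syma_two (hsmall a haX) v
      rcases hNa c hc hac with h | h
      · exact absurd h hcv
      · rw [← h]; exact hac
    have hNv : ∀ d ∈ X, H.Adj v d → d = a ∨ d = b := by
      intro d hd hvd
      by_contra hcon
      push Not at hcon
      exact hfree d hd v hv a haX b hbX hvd.symm hva hab hcon.1 hcon.2 hvb.ne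
    have haE : a ∈ X.erase v := Finset.mem_erase.mpr ⟨hva.ne', haX⟩
    have hbE : b ∈ (X.erase v).erase a :=
      Finset.mem_erase.mpr ⟨hba, Finset.mem_erase.mpr ⟨hvb.ne', hbX⟩⟩
    have e1 := eX_erase H hv
    have e2 := eX_erase H haE
    have e3 := eX_erase H hbE
    have d1 : deg H X v ≤ 2 := by
      have hsub : {u | u ∈ X ∧ H.Adj v u} ⊆ {a, b} := by
        rintro u ⟨hu, huv⟩
        rcases hNv u hu huv with h | h
        · rw [h]; simp
        · rw [h]; simp
      exact (Set.ncard_le_ncard hsub (Set.toFinite _)).trans (grc_pair a b)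
    have d2 : deg H (X.erase v) a ≤ 1 := by
      rw [deg, Set.ncard_le_one (Set.toFinite _)]
      rintro x ⟨hx, hxa⟩ y ⟨hy, hya⟩
      rw [Finset.mem_erase] at hx hy
      rcases hNa x hx.2 hxa with h | h
      · exact absurd h hx.1
      · rcases hNa y hy.2 hya with h' | h'
        · exact absurd h' hy.1
        · exact h.trans h'.symm
    have d3 : deg H ((X.erase v).erase a) b = 0 := by
      rw [deg, Set.ncard_eq_zero (Set.toFinite _)]
      apply Set.eq_empty_of_forall_notMem
      rintro x ⟨hx, hxb⟩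
      rw [Finset.mem_erase, Finset.mem_erase] at hx
      rcases hNb x hx.2.2 hxb with h | h
      · exact hx.2.1 h
      · exact hx.1 h
    have hsub : ((X.erase v).erase a).erase b ⊆ X := (Finset.erase_subset _ _).trans
      ((Finset.erase_subset _ _).trans (Finset.erase_subset _ _))
    have hc : (((X.erase v).erase a).erase b).card = n - 3 := by
      rw [Finset.card_erase_of_mem hbE, Finset.card_erase_of_mem haE,
        Finset.card_erase_of_mem hv, hXn]
      omega
    have hn3 : 3 ≤ n := by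
      have h4 : 0 < ((X.erase v).erase a).card := Finset.card_pos.mpr ⟨b, hbE⟩
      rw [Finset.card_erase_of_mem haE, Finset.card_erase_of_mem hv, hXn] at h4
      omega
    have h1 := ih (n - 3) (by omega) _ hc (fun x0 h0 x1 h1 x2 h2 x3 h3 =>
      hfree x0 (hsub h0) x1 (hsub h1) x2 (hsub h2) x3 (hsub h3))
    refine ⟨by omega, fun heq => ⟨fun w hw => hsmall w hw, ?_⟩⟩
    have h2 := (h1.2 (by omega)).2
    rw [hc] at h2
    rw [hXn]
    omega

theorem p4_free_edges (a b c : Bool) (H : SimpleGraph V) (X : Finset V)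
    (h : ¬ Packs [.p4 a b c] H.Adj X) :
    eX H X ≤ X.card ∧ (eX H X = X.card → 3 ∣ X.card) := by
  have hfree : ∀ x0 ∈ X, ∀ x1 ∈ X, ∀ x2 ∈ X, ∀ x3 ∈ X, H.Adj x0 x1 → H.Adj x1 x2 →
      H.Adj x2 x3 → x0 ≠ x2 → x0 ≠ x3 → x1 ≠ x3 → False := by
    intro x0 h0 x1 h1 x2 h2 x3 h3 a1 a2 a3 n1 n2 n3
    apply h
    rw [packs_one]
    refine ⟨{x0, x1, x2, x3}, ?_, x0, x1, x2, x3, a1.ne, n1, n2, a2.ne, n3, a3.ne,
      syma_arc a a1, syma_arc b a2, syma_arc c a3, rfl⟩
    intro y hy
    simp only [Finset.mem_insert, Finset.mem_singleton] at hy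
    rcases hy with rfl | rfl | rfl | rfl <;> assumption
  have h1 := syma_p4 H X.card X rfl hfree
  exact ⟨h1.1, fun h2 => (h1.2 h2).2⟩

theorem syma_star (i o : ℕ) (H : SimpleGraph V) (X : Finset V)
    (h : ¬ Packs [.star i o] H.Adj X) : ∀ v ∈ X, deg H X v < i + o := by
  intro v hv
  by_contra hcon
  push Not at hcon
  unfold deg at hcon
  obtain ⟨I, hI1, hI2, -⟩ := Host_pick _ ∅ i (le_trans (by simp) hcon)
  obtain ⟨O, hO1, hO2, hO3⟩ := Host_pick _ I o (le_trans (by rw [hI1]) hcon)
  apply h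
  rw [packs_one]
  refine ⟨insert v (I ∪ O), ?_, v, I, O, fun h1 => (hI2 v h1).2.ne rfl,
    fun h1 => (hO2 v h1).2.ne rfl, hO3.symm, hI1, hO1, fun x hx => (hI2 x hx).2.symm,
    fun x hx => (hO2 x hx).2, rfl⟩
  intro x hx
  rw [Finset.mem_insert, Finset.mem_union] at hx
  rcases hx with rfl | hx | hx
  · exact hv
  · exact (hI2 x hx).1
  · exact (hO2 x hx).1

theorem free_edges (T : Shape) (hT : T.Valid) (H : SimpleGraph V) (X : Finset V)
    (h : ¬ Packs [T] H.Adj X) : eX H X ≤ X.card := by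
  rcases T with ⟨i, o⟩ | ⟨a, b, c⟩
  · have hT' : 1 ≤ i + o ∧ i + o ≤ 3 := hT
    have hd := syma_star i o H X h
    have h1 := sum_deg H X
    have h2 : ∑ v ∈ X, deg H X v ≤ ∑ _v ∈ X, 2 :=
      Finset.sum_le_sum fun v hv => by have := hd v hv; omega
    rw [Finset.sum_const, smul_eq_mul] at h2
    omega
  · exact (p4_free_edges a b c H X h).1

theorem syma_sdiff (H : SimpleGraph V) (X : Finset V) (K : ℕ) (hd : ∀ v ∈ X, deg H X v ≤ K)
    (X₀ : Finset V) (hX₀ : X₀ ⊆ X) : eX H X ≤ X₀.card * K + eX H (X \ X₀) := by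
  induction X₀ using Finset.induction_on with
  | empty => simp
  | insert v X₀ hv ih =>
    have hvX : v ∈ X := hX₀ (Finset.mem_insert_self _ _)
    have h1 := ih (fun x hx => hX₀ (Finset.mem_insert_of_mem hx))
    have h2 : v ∈ X \ X₀ := Finset.mem_sdiff.mpr ⟨hvX, hv⟩
    have e1 := eX_erase H h2
    have e2 : X \ insert v X₀ = (X \ X₀).erase v := by
      ext x
      simp only [Finset.mem_sdiff, Finset.mem_insert, Finset.mem_erase, not_or]
      tauto
    have h3 : deg H (X \ X₀) v ≤ deg H X v :=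
      Set.ncard_le_ncard (fun u hu => ⟨(Finset.mem_sdiff.mp hu.1).1, hu.2⟩) (Set.toFinite _)
    have h4 := hd v hvX
    rw [Finset.card_insert_of_notMem hv, e2, Nat.add_mul, one_mul]
    omega

theorem bounded_edges (L : List Shape) (hL : ∀ T ∈ L, T.Valid) (K : ℕ)
    (H : SimpleGraph V) (X : Finset V) (hd : ∀ v ∈ X, deg H X v < K)
    (h : ¬ Packs L H.Adj X) : eX H X ≤ X.card + 4 * L.length * K := by
  match L, hL, h with
  | [], _, h => exact absurd trivial h
  | T :: L', hL, h =>
    rcases greedy T L' hL H.Adj X h with h1 | ⟨T', hT', X₀, hX₀, hc, h1⟩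
    · rw [← packs_one] at h1
      exact (free_edges T (hL T List.mem_cons_self) H X h1).trans (Nat.le_add_right _ _)
    · rw [← packs_one] at h1
      have h2 := free_edges T' (hL T' (List.mem_cons_of_mem _ hT')) H _ h1
      have h3 := syma_sdiff H X K (fun v hv => (hd v hv).le) X₀ hX₀
      have h4 : (X \ X₀).card ≤ X.card := Finset.card_le_card Finset.sdiff_subset
      have h5 : X₀.card * K ≤ 4 * (T :: L').length * K := by
        apply Nat.mul_le_mul_right
        rw [List.length_cons]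
        omega
      omega

end MP_0a9719_co
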