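import Pool.Agent.Lib.MP_0a9719_co.Forced
import Pool.Agent.Lib.MP_0a9719_co.Cfg
import Pool.Agent.Lib.MP_0a9719_co.GrP
import Pool.Agent.Lib.MP_0a9719_co.Pack

/-! MP_0a9719_co, module TwoAC: counting for two disjoint oriented paths, types TTT and TFT.

Notation: `Z = {h, h'} ∪ Y₀` (at most five vertices), `R = X \ Z`, `R₀` = vertices of `R` without
neighbour in `R`, `R₁ = R \ R₀`. `TwoSet` is the set of orientations of `res X H` such that `h` has
at least `4` in- and out-neighbours in `R`, no copy of the path in `insert h R`, none in `R ∪ Y₀`, and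
no three vertices of `X` are pairwise `K`-good.
The map `D ↦ (rr Z D, rr (R₁ ∪ Y₀) D, {x ∈ R₁ | D h' x}, (x ∈ R₀ ↦ {z ∈ Z | D z x}))` is
injective: edges inside `R` are inside `R₁`; edges between `R₁` and `Y₀` are in the second
component, between `R₁` and `h'` in the third; every `x ∈ R₁` has an arc inside `R₁`, and
`forced_A` / `forced_C` with `w = h` determine the direction of `xh`. Numbers: `2^25`;
`(11/3)^(|R₁| + 3)` (no copy of the path in `R₁ ∪ Y₀`); `2^|R₁|`; by `atMost_four` (for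
`max K 1`... note `GoodPair (K+1) → GoodPair K`) and `pat_count` with `p = 4` (for the functions on `R₀`;
fewer elements realise a pattern than for all of `X \ Z`) at most `C (n+1)^C 4^|R₀|`. The
product is at most `C' (n+1)^C' (22/3)^n`. -/

namespace MP_0a9719_co

/-- see the module docstring. -/
def TwoSet {V : Type*} [DecidableEq V] (K : ℕ) (a b c : Bool) (H : SimpleGraph V)
    (X Y₀ : Finset V) (h h' : V) : Set (V → V → Prop) :=
  {D | IsOr (res X H) D ∧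
    4 ≤ ideg D (X \ insert h (insert h' Y₀)) h ∧ 4 ≤ odeg D (X \ insert h (insert h' Y₀)) h ∧
    (¬ ∃ Q : Finset V, Q ⊆ insert h (X \ insert h (insert h' Y₀)) ∧ IsCopy (.p4 a b c) D Q) ∧
    (¬ ∃ Q : Finset V, Q ⊆ (X \ insert h (insert h' Y₀)) ∪ Y₀ ∧ IsCopy (.p4 a b c) D Q) ∧
    ∀ W : Finset V, W ⊆ X → W.card = 3 →
      ¬ ∀ v ∈ W, ∀ w ∈ W, v ≠ w → GoodPair K D X v w}

private theorem TwoAC_gp {V : Type*} [Finite V] (K : ℕ) (D : V → V → Prop) (X : Finset V)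
    (v w : V) (h : GoodPair (K + 1) D X v w) : GoodPair K D X v w := by
  unfold GoodPair at h ⊢
  refine h.trans (Set.ncard_le_ncard (fun p hp => ?_) (Set.toFinite _))
  have hp' := Set.mem_ofPred_eq.mp hp
  exact Set.mem_ofPred_eq.mpr (by omega)

open Classical in
private noncomputable def TwoAC_R0 {V : Type*} [DecidableEq V] (H : SimpleGraph V)
    (R : Finset V) : Finset V := R.filter (fun x => ∀ y ∈ R, ¬ H.Adj x y)

open Classical in
private theorem TwoAC_R0_mem {V : Type*} [DecidableEq V] (H : SimpleGraph V) (R : Finset V)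
    (x : V) : x ∈ TwoAC_R0 H R ↔ x ∈ R ∧ ∀ y ∈ R, ¬ H.Adj x y := by
  simp only [TwoAC_R0, Finset.mem_filter]

private noncomputable def TwoAC_G {V : Type*} [DecidableEq V]
    (Z B R1 R0 : Finset V) (h' : V) (D : V → V → Prop) :
    (V → V → Prop) × (V → V → Prop) × Set V × ({x // x ∈ R0} → Set {z // z ∈ Z}) :=
  (rr Z D, rr B D, {x | x ∈ R1 ∧ D h' x}, fun x => {z | D z.1 x.1})

private theorem TwoAC_inj {V : Type*} [DecidableEq V] (K : ℕ) (a b c e : Bool)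
    (H : SimpleGraph V) (X Y₀ : Finset V) (h h' : V) (hX : h ∈ X)
    (hforce : ∀ D ∈ TwoSet K a b c H X Y₀ h h', ∀ u v, u ∈ X \ insert h (insert h' Y₀) →
      v ∈ X \ insert h (insert h' Y₀) → D u v → ¬ arc e D v h ∧ ¬ arc e D h u)
    (Z R R0 R1 : Finset V) (hZ : Z = insert h (insert h' Y₀)) (hR : R = X \ Z)
    (hR0 : R0 = TwoAC_R0 H R) (hR1 : R1 = R \ R0)
    (D D' : V → V → Prop) (hD : D ∈ TwoSet K a b c H X Y₀ h h')
    (hD' : D' ∈ TwoSet K a b c H X Y₀ h h')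
    (hG : TwoAC_G Z (R1 ∪ Y₀) R1 R0 h' D = TwoAC_G Z (R1 ∪ Y₀) R1 R0 h' D') : D = D' := by
  classical
  have hOr : IsOr (res X H) D := hD.1
  have hOr' : IsOr (res X H) D' := hD'.1
  have g1 : rr Z D = rr Z D' := congrArg (fun t => t.1) hG
  have g2 : rr (R1 ∪ Y₀) D = rr (R1 ∪ Y₀) D' := congrArg (fun t => t.2.1) hG
  have g3 : {x | x ∈ R1 ∧ D h' x} = {x | x ∈ R1 ∧ D' h' x} := congrArg (fun t => t.2.2.1) hG
  have g4 : (fun x : {x // x ∈ R0} => {z : {z // z ∈ Z} | D z.1 x.1}) =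
      (fun x : {x // x ∈ R0} => {z : {z // z ∈ Z} | D' z.1 x.1}) :=
    congrArg (fun t => t.2.2.2) hG
  -- agreement on a pair in one direction suffices
  have hflip : ∀ u v, u ∈ X → v ∈ X → H.Adj u v → (D u v ↔ D' u v) → (D v u ↔ D' v u) := by
    intro u v hu hv huv hiff
    have e1 := isOr_adj hOr hu hv huv
    have e2 := isOr_adj hOr' hu hv huv
    have e3 := (hOr u v).2
    have e4 := (hOr' u v).2
    tauto
  have m1 : ∀ u v, u ∈ Z → v ∈ Z → (D u v ↔ D' u v) := by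
    intro u v hu hv
    have e1 : rr Z D u v ↔ rr Z D' u v := by rw [g1]
    exact ⟨fun h1 => (e1.1 ⟨h1, hu, hv⟩).1, fun h1 => (e1.2 ⟨h1, hu, hv⟩).1⟩
  have m2 : ∀ u v, u ∈ R1 ∪ Y₀ → v ∈ R1 ∪ Y₀ → (D u v ↔ D' u v) := by
    intro u v hu hv
    have e1 : rr (R1 ∪ Y₀) D u v ↔ rr (R1 ∪ Y₀) D' u v := by rw [g2]
    exact ⟨fun h1 => (e1.1 ⟨h1, hu, hv⟩).1, fun h1 => (e1.2 ⟨h1, hu, hv⟩).1⟩
  have m3 : ∀ x, x ∈ R1 → (D h' x ↔ D' h' x) := by
    intro x hx
    have e1 : x ∈ {x | x ∈ R1 ∧ D h' x} ↔ x ∈ {x | x ∈ R1 ∧ D' h' x} := by rw [g3]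
    exact ⟨fun h1 => (e1.1 ⟨hx, h1⟩).2, fun h1 => (e1.2 ⟨hx, h1⟩).2⟩
  have m4 : ∀ z x, z ∈ Z → x ∈ R0 → (D z x ↔ D' z x) := by
    intro z x hz hx
    have e0 := congrFun g4 ⟨x, hx⟩
    have e1 : (⟨z, hz⟩ : {z // z ∈ Z}) ∈ {z : {z // z ∈ Z} | D z.1 x} ↔
        (⟨z, hz⟩ : {z // z ∈ Z}) ∈ {z : {z // z ∈ Z} | D' z.1 x} := by
      rw [show {z : {z // z ∈ Z} | D z.1 x} = {z : {z // z ∈ Z} | D' z.1 x} from e0]
    exact e1
  have hRX : ∀ x, x ∈ R → x ∈ X := fun x hx => by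
    rw [hR] at hx; exact (Finset.mem_sdiff.1 hx).1
  have memR0 : ∀ x, x ∈ R0 ↔ x ∈ R ∧ ∀ y ∈ R, ¬ H.Adj x y := by
    intro x
    rw [hR0]
    exact TwoAC_R0_mem H R x
  have memR1 : ∀ x, x ∈ R1 ↔ x ∈ R ∧ ∃ y ∈ R, H.Adj x y := by
    intro x
    rw [hR1, Finset.mem_sdiff, memR0]
    constructor
    · rintro ⟨h1, h2⟩
      refine ⟨h1, ?_⟩
      by_contra h3
      push Not at h3
      exact h2 ⟨h1, h3⟩
    · rintro ⟨h1, y, hy, hxy⟩
      exact ⟨h1, fun h2 => h2.2 y hy hxy⟩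
  -- the pair `h x` for `x ∈ R1`
  have m5 : ∀ x, x ∈ R1 → H.Adj x h → (D h x ↔ D' h x) := by
    intro x hx hxh
    obtain ⟨hxR, y, hyR, hxy⟩ := (memR1 x).1 hx
    have hy1 : y ∈ R1 := (memR1 y).2 ⟨hyR, x, hxR, hxy.symm⟩
    have hxB : x ∈ R1 ∪ Y₀ := Finset.mem_union_left _ hx
    have hyB : y ∈ R1 ∪ Y₀ := Finset.mem_union_left _ hy1
    have hxX := hRX x hxR
    have hyX := hRX y hyR
    have hxR' : x ∈ X \ insert h (insert h' Y₀) := by rw [← hZ, ← hR]; exact hxR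
    have hyR' : y ∈ X \ insert h (insert h' Y₀) := by rw [← hZ, ← hR]; exact hyR
    rcases isOr_adj hOr hxX hyX hxy with h1 | h1
    · have h1' := (m2 x y hxB hyB).1 h1
      have f1 := (hforce D hD x y hxR' hyR' h1).2
      have f2 := (hforce D' hD' x y hxR' hyR' h1').2
      cases e with
      | true => exact ⟨fun h2 => absurd h2 f1, fun h2 => absurd h2 f2⟩
      | false =>
        refine hflip x h hxX hX hxh ⟨fun h2 => absurd h2 f1, fun h2 => absurd h2 f2⟩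
    · have h1' := (m2 y x hyB hxB).1 h1
      have f1 := (hforce D hD y x hyR' hxR' h1).1
      have f2 := (hforce D' hD' y x hyR' hxR' h1').1
      cases e with
      | true =>
        refine hflip x h hxX hX hxh ⟨fun h2 => absurd h2 f1, fun h2 => absurd h2 f2⟩
      | false => exact ⟨fun h2 => absurd h2 f1, fun h2 => absurd h2 f2⟩
  -- pair `(z, x)` with `z ∈ Z`, `x ∈ R1`
  have m6 : ∀ z x, z ∈ Z → x ∈ R1 → H.Adj z x → (D z x ↔ D' z x) := by
    intro z x hz hx hzx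
    rw [hZ, Finset.mem_insert, Finset.mem_insert] at hz
    rcases hz with rfl | rfl | hz
    · exact m5 x hx hzx.symm
    · exact m3 x hx
    · exact m2 z x (Finset.mem_union_right _ hz) (Finset.mem_union_left _ hx)
  have hcase : ∀ x, x ∈ X → x ∈ Z ∨ x ∈ R0 ∨ x ∈ R1 := by
    intro x hx
    by_cases h1 : x ∈ Z
    · exact Or.inl h1
    · right
      have h2 : x ∈ R := by rw [hR]; exact Finset.mem_sdiff.2 ⟨hx, h1⟩
      by_cases h3 : x ∈ R0
      · exact Or.inl h3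
      · right
        rw [hR1]
        exact Finset.mem_sdiff.2 ⟨h2, h3⟩
  have hR1R : ∀ x, x ∈ R1 → x ∈ R := fun x hx => ((memR1 x).1 hx).1
  have main : ∀ u v, u ∈ X → v ∈ X → H.Adj u v → (D u v ↔ D' u v) := by
    intro u v hu hv huv
    rcases hcase u hu with h1 | h1 | h1
    · rcases hcase v hv with h2 | h2 | h2
      · exact m1 u v h1 h2
      · exact m4 u v h1 h2
      · exact m6 u v h1 h2 huv
    · rcases hcase v hv with h2 | h2 | h2
      · exact hflip v u hv hu huv.symm (m4 v u h2 h1)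
      · exact absurd huv (((memR0 u).1 h1).2 v ((memR0 v).1 h2).1)
      · exact absurd huv (((memR0 u).1 h1).2 v (hR1R v h2))
    · rcases hcase v hv with h2 | h2 | h2
      · exact hflip v u hv hu huv.symm (m6 v u h2 h1 huv.symm)
      · exact absurd huv.symm (((memR0 v).1 h2).2 u (hR1R u h1))
      · exact m2 u v (Finset.mem_union_left _ h1) (Finset.mem_union_left _ h2)
  funext u v
  apply propext
  constructor
  · intro h1
    obtain ⟨hu, hv, huv, -⟩ := isOr_mem hOr h1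
    exact (main u v hu hv huv).1 h1
  · intro h1
    obtain ⟨hu, hv, huv, -⟩ := isOr_mem hOr' h1
    exact (main u v hu hv huv).2 h1

private theorem TwoAC_cntZ {V : Type*} [Finite V] [DecidableEq V] (H : SimpleGraph V)
    (Z : Finset V) (hZ : Z.card ≤ 5) :
    {E : V → V → Prop | IsOr (res Z H) E}.ncard ≤ 2 ^ 25 := by
  rw [ncard_or]
  refine Nat.pow_le_pow_right (by norm_num) ?_
  have h1 : (res Z H).edgeSet ⊆ (fun p : V × V => s(p.1, p.2)) '' ((Z ×ˢ Z : Finset (V × V)) :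
      Set (V × V)) := by
    intro x hx
    induction x using Sym2.ind with
    | _ u v =>
      have h2 : (res Z H).Adj u v := hx
      exact ⟨(u, v), Finset.mem_coe.2 (Finset.mem_product.2 ⟨h2.2.1, h2.2.2⟩), rfl⟩
  refine (Set.ncard_le_ncard h1 (Set.toFinite _)).trans ?_
  refine (Set.ncard_image_le (Set.toFinite _)).trans ?_
  rw [Set.ncard_coe_finset, Finset.card_product]
  exact (Nat.mul_le_mul hZ hZ).trans (by norm_num)

private theorem TwoAC_pat {V : Type} [Fintype V] [DecidableEq V] (K : ℕ) (H : SimpleGraph V)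
    (X Z R0 : Finset V) (hR0 : ∀ x ∈ R0, x ∈ X ∧ x ∉ Z) (D : V → V → Prop)
    (h : AtMost 4 K H D X Z) (t : Set {z // z ∈ Z}) :
    {s : Set {z // z ∈ Z} | K ≤ {a : {x // x ∈ R0} |
      {z : {z // z ∈ Z} | H.Adj z.1 a.1} = t ∧ {z : {z // z ∈ Z} | D z.1 a.1} = s}.ncard}.ncard
      ≤ 4 := by
  refine le_trans ?_ (h (Subtype.val '' t))
  have hinj : Function.Injective (fun s : Set {z // z ∈ Z} => (Subtype.val '' s : Set V)) :=
    Set.image_injective.2 Subtype.val_injective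
  refine Set.ncard_le_ncard_of_injOn (fun s : Set {z // z ∈ Z} => (Subtype.val '' s : Set V))
    (fun s hs => ?_) (fun s _ s' _ hss => hinj hss) (Set.toFinite _)
  have hs' := Set.mem_ofPred_eq.mp hs
  refine Set.mem_ofPred_eq.mpr (hs'.trans ?_)
  refine Set.ncard_le_ncard_of_injOn (fun a : {x // x ∈ R0} => a.1)
    (fun x hx => ?_) (fun x _ x' _ hxx => Subtype.ext hxx) (Set.toFinite _)
  obtain ⟨h1, h2⟩ := hx
  refine ⟨(hR0 x.1 x.2).1, (hR0 x.1 x.2).2, ?_, ?_⟩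
  · rw [← h1]
    ext z
    constructor
    · rintro ⟨hz, hzx⟩
      exact ⟨⟨z, hz⟩, hzx, rfl⟩
    · rintro ⟨⟨z', hz'⟩, hzx, rfl⟩
      exact ⟨hz', hzx⟩
  · rw [← h2]
    ext z
    constructor
    · rintro ⟨hz, hzx⟩
      exact ⟨⟨z, hz⟩, hzx, rfl⟩
    · rintro ⟨⟨z', hz'⟩, hzx, rfl⟩
      exact ⟨hz', hzx⟩

private theorem TwoAC_num (M q r0 r1 n A B C P C0 : ℕ) (hM : M = 2 ^ 25 * 50 * C0)
    (hA : A ≤ 2 ^ 25) (hq : q ≤ r1 + 3) (hB : (B : ℝ) ≤ (11 / 3) ^ q) (hC : C ≤ 2 ^ r1)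
    (hP : P ≤ C0 * (r0 + 1) ^ C0 * 4 ^ r0) (hn : r0 + r1 ≤ n) :
    ((A * (B * (C * P)) : ℕ) : ℝ) ≤ M * (n + 1) ^ M * (22 / 3) ^ n := by
  have hA' : (A : ℝ) ≤ 2 ^ 25 := by exact_mod_cast hA
  have hC' : (C : ℝ) ≤ 2 ^ r1 := by exact_mod_cast hC
  have hP' : (P : ℝ) ≤ C0 * ((r0 : ℝ) + 1) ^ C0 * 4 ^ r0 := by exact_mod_cast hP
  have hB' : (B : ℝ) ≤ 50 * (11 / 3) ^ r1 := by
    refine hB.trans ((pow_le_pow_right₀ (by norm_num) hq).trans ?_)
    rw [pow_add, mul_comm]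
    refine mul_le_mul_of_nonneg_right (by norm_num) (by positivity)
  have h4 : (4 : ℝ) ^ r0 ≤ (22 / 3) ^ r0 := pow_le_pow_left₀ (by norm_num) (by norm_num) _
  have hr0 : ((r0 : ℝ) + 1) ^ C0 ≤ ((n : ℝ) + 1) ^ C0 := by
    refine pow_le_pow_left₀ (by positivity) ?_ _
    have : (r0 : ℝ) ≤ n := by exact_mod_cast (by omega : r0 ≤ n)
    linarith
  have hP2 : (P : ℝ) ≤ C0 * ((n : ℝ) + 1) ^ C0 * (22 / 3) ^ r0 := by
    refine hP'.trans ?_
    gcongr
  have hCM : ((n : ℝ) + 1) ^ C0 ≤ ((n : ℝ) + 1) ^ M := by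
    refine pow_le_pow_right₀ (by linarith [Nat.cast_nonneg (α := ℝ) n]) ?_
    rw [hM]
    exact Nat.le_mul_of_pos_left _ (by norm_num)
  have hpow : ((22 : ℝ) / 3) ^ (r0 + r1) ≤ (22 / 3) ^ n := pow_le_pow_right₀ (by norm_num) hn
  push_cast
  calc (A : ℝ) * (B * (C * P))
      ≤ 2 ^ 25 * ((50 * (11 / 3) ^ r1) * (2 ^ r1 * (C0 * ((n : ℝ) + 1) ^ C0 * (22 / 3) ^ r0))) := by
        gcongr
    _ = (2 ^ 25 * 50 * C0) * ((n : ℝ) + 1) ^ C0 * (22 / 3) ^ (r0 + r1) := by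
        have e1 : ((22 : ℝ) / 3) ^ (r0 + r1) = (22 / 3) ^ r0 * ((11 / 3) ^ r1 * 2 ^ r1) := by
          rw [pow_add, ← mul_pow]
          norm_num
        rw [e1]
        ring
    _ ≤ (2 ^ 25 * 50 * C0) * ((n : ℝ) + 1) ^ M * (22 / 3) ^ n := by
        gcongr
    _ = M * (n + 1) ^ M * (22 / 3) ^ n := by
        rw [hM]
        push_cast
        ring

private theorem TwoAC_main (K : ℕ) (a b c e : Bool) (hforce : ∀ (V : Type) [Fintype V]
    [DecidableEq V] (H : SimpleGraph V) (X Y₀ : Finset V) (h h' : V),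
    ∀ D ∈ TwoSet K a b c H X Y₀ h h', ∀ u v, u ∈ X \ insert h (insert h' Y₀) →
      v ∈ X \ insert h (insert h' Y₀) → D u v → ¬ arc e D v h ∧ ¬ arc e D h u) :
    ∃ C : ℕ, ∀ (V : Type) [Fintype V] [DecidableEq V]
    (H : SimpleGraph V) (X Y₀ : Finset V) (h h' : V), h ∈ X → h' ∈ X → h ≠ h' → Y₀ ⊆ X →
    h ∉ Y₀ → h' ∉ Y₀ → Y₀.card ≤ 3 →
    ((TwoSet K a b c H X Y₀ h h').ncard : ℝ) ≤
      C * (X.card + 1) ^ C * (22 / 3) ^ X.card := by
  obtain ⟨C0, hC0⟩ := pat_count 32 32 4 (K + 1) (by norm_num)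
  refine ⟨2 ^ 25 * 50 * C0, ?_⟩
  intro V _ _ H X Y₀ h h' hX hX' hne hY hn hn' hY3
  classical
  obtain ⟨Z, hZ⟩ : ∃ Z, Z = insert h (insert h' Y₀) := ⟨_, rfl⟩
  obtain ⟨R, hR⟩ : ∃ R, R = X \ Z := ⟨_, rfl⟩
  obtain ⟨R0, hR0⟩ : ∃ R0, R0 = TwoAC_R0 H R := ⟨_, rfl⟩
  obtain ⟨R1, hR1⟩ : ∃ R1, R1 = R \ R0 := ⟨_, rfl⟩
  have hZX : Z ⊆ X := by
    rw [hZ]
    intro x hx
    rw [Finset.mem_insert, Finset.mem_insert] at hx
    rcases hx with rfl | rfl | hx
    · exact hX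
    · exact hX'
    · exact hY hx
  have hZ5 : Z.card ≤ 5 := by
    rw [hZ]
    have h1 := Finset.card_insert_le h (insert h' Y₀)
    have h2 := Finset.card_insert_le h' Y₀
    omega
  have hR0R : R0 ⊆ R := by
    rw [hR0]
    exact fun x hx => ((TwoAC_R0_mem H R x).1 hx).1
  have hRX : R ⊆ X := by rw [hR]; exact Finset.sdiff_subset
  have hR1R : R1 ⊆ R := by rw [hR1]; exact Finset.sdiff_subset
  have hBX : R1 ∪ Y₀ ⊆ X := Finset.union_subset (hR1R.trans hRX) hY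
  have hcard : R0.card + R1.card ≤ X.card := by
    have h1 := Finset.card_le_card hRX
    have h2 : R0.card + R1.card = R.card := by
      rw [hR1, add_comm]
      exact Finset.card_sdiff_add_card_eq_card hR0R
    omega
  have hBcard : (R1 ∪ Y₀).card ≤ R1.card + 3 := by
    have h1 := Finset.card_union_le R1 Y₀
    omega
  set A : Set (V → V → Prop) := {E | IsOr (res Z H) E} with hA
  set B : Set (V → V → Prop) :=
    {E | IsOr (res (R1 ∪ Y₀) H) E ∧ ¬ Packs [.p4 a b c] E (R1 ∪ Y₀)} with hB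
  set C : Set (Set V) := 𝒫 ((R1 : Finset V) : Set V) with hC
  set P : Set ({x // x ∈ R0} → Set {z // z ∈ Z}) :=
    {φ | ∀ t : Set {z // z ∈ Z}, {s : Set {z // z ∈ Z} | K + 1 ≤ {x : {x // x ∈ R0} |
      {z : {z // z ∈ Z} | H.Adj z.1 x.1} = t ∧ φ x = s}.ncard}.ncard ≤ 4} with hP
  have hle : (TwoSet K a b c H X Y₀ h h').ncard ≤ (A ×ˢ (B ×ˢ (C ×ˢ P))).ncard := by
    refine inj_le _ _ (TwoAC_G Z (R1 ∪ Y₀) R1 R0 h') ?_ ?_
    · intro D hD
      obtain ⟨hD1, hD2, hD3, hD4, hD5, hD6⟩ := hD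
      refine ⟨isOr_rr hD1 hZX, ⟨isOr_rr hD1 hBX, ?_⟩, ?_, ?_⟩
      · intro h1
        obtain ⟨Q, hQ, hc, -⟩ := (packs_rr _ D (Finset.Subset.refl _)).1 h1
        refine hD5 ⟨Q, hQ.trans ?_, hc⟩
        rw [← hZ, ← hR]
        exact Finset.union_subset_union hR1R (Finset.Subset.refl _)
      · intro x hx
        exact hx.1
      · intro t
        refine TwoAC_pat (K + 1) H X Z R0 ?_ D ?_ t
        · intro x hx
          have h1 := hR0R hx
          rw [hR] at h1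
          exact Finset.mem_sdiff.1 h1
        · refine atMost_four (K + 1) (by omega) H X Z hZX D hD1 ?_
          intro W hW hW3 hall
          exact hD6 W hW hW3 (fun v hv w hw hvw => TwoAC_gp K D X v w (hall v hv w hw hvw))
    · intro D hD D' hD' hG
      exact TwoAC_inj K a b c e H X Y₀ h h' hX (hforce V H X Y₀ h h') Z R R0 R1 hZ hR
        hR0 hR1 D D' hD hD' hG
  rw [Set.ncard_prod, Set.ncard_prod, Set.ncard_prod] at hle
  have hAc : A.ncard ≤ 2 ^ 25 := TwoAC_cntZ H Z hZ5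
  have hBc : (B.ncard : ℝ) ≤ (11 / 3) ^ (R1 ∪ Y₀).card := num_p4 a b c H (R1 ∪ Y₀)
  have hCc : C.ncard ≤ 2 ^ R1.card := by
    rw [hC, Set.ncard_powerset _ (Set.toFinite _), Set.ncard_coe_finset]
  have hcS : Fintype.card (Set {z // z ∈ Z}) ≤ 32 := by
    rw [Fintype.card_set, Fintype.card_coe]
    exact (Nat.pow_le_pow_right (by norm_num) hZ5).trans (by norm_num)
  have hPc : P.ncard ≤ C0 * (R0.card + 1) ^ C0 * 4 ^ R0.card := by
    have h1 := hC0 {x // x ∈ R0} (Set {z // z ∈ Z}) (Set {z // z ∈ Z}) hcS hcS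
      (fun x => {z : {z // z ∈ Z} | H.Adj z.1 x.1})
    rw [Fintype.card_coe] at h1
    exact h1
  exact (Nat.cast_le.2 hle).trans
    (TwoAC_num _ (R1 ∪ Y₀).card R0.card R1.card X.card _ _ _ _ C0 rfl hAc hBcard hBc hCc hPc
      hcard)

theorem two_A (K : ℕ) : ∃ C : ℕ, ∀ (V : Type) [Fintype V] [DecidableEq V]
    (H : SimpleGraph V) (X Y₀ : Finset V) (h h' : V), h ∈ X → h' ∈ X → h ≠ h' → Y₀ ⊆ X →
    h ∉ Y₀ → h' ∉ Y₀ → Y₀.card ≤ 3 →
    ((TwoSet K true true true H X Y₀ h h').ncard : ℝ) ≤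
      C * (X.card + 1) ^ C * (22 / 3) ^ X.card := by
  refine TwoAC_main K true true true true ?_
  intro V _ _ H X Y₀ h h' D hD u v hu hv huv
  obtain ⟨hD1, hD2, hD3, hD4, -, -⟩ := hD
  exact forced_A D (fun x y hxy hyx => (hD1 x y).2 ⟨hxy, hyx⟩) _ h
    (fun h1 => (Finset.mem_sdiff.1 h1).2 (Finset.mem_insert_self _ _)) hD2 hD3 hD4 u v hu hv huv

theorem two_C (K : ℕ) : ∃ C : ℕ, ∀ (V : Type) [Fintype V] [DecidableEq V]
    (H : SimpleGraph V) (X Y₀ : Finset V) (h h' : V), h ∈ X → h' ∈ X → h ≠ h' → Y₀ ⊆ X →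
    h ∉ Y₀ → h' ∉ Y₀ → Y₀.card ≤ 3 →
    ((TwoSet K true false true H X Y₀ h h').ncard : ℝ) ≤
      C * (X.card + 1) ^ C * (22 / 3) ^ X.card := by
  refine TwoAC_main K true false true false ?_
  intro V _ _ H X Y₀ h h' D hD u v hu hv huv
  obtain ⟨hD1, hD2, hD3, hD4, -, -⟩ := hD
  exact forced_C D (fun x y hxy hyx => (hD1 x y).2 ⟨hxy, hyx⟩) _ h
    (fun h1 => (Finset.mem_sdiff.1 h1).2 (Finset.mem_insert_self _ _)) hD2 hD3 hD4 u v hu hv huv

end MP_0a9719_co
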