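import Pool.Agent.Lib.MP_0a9719_co.TwoAC

/-! MP_0a9719_co, module TwoB: counting for two disjoint oriented paths, type TTF, and all
types.

Notation of TwoAC, and `I` = vertices of `R₁` adjacent to `h`, `R₂ = R₁ \ I`. By `forced_B` with
`w = h`, `u → v` inside `R` implies that `v` is not adjacent to `h`: all edges inside `R` at a
vertex of `I` are directed out of `I` (and `I` is independent if the set is nonempty). So
`D ↦ (rr Z D, rr (R₂ ∪ Y₀) D, {x ∈ R₂ | D h' x}, (x ∈ R₀ ∪ I ↦ {z ∈ Z | D z x}))` is injective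
(vertices of `R₂` are not adjacent to `h`). Numbers: `2^25`, `(11/3)^(|R₂|+3)`, `2^|R₂|`,
`C (n+1)^C 4^(|R₀| + |I|)` (`atMost_four`, `pat_count`): at most `C' (n+1)^C' (22/3)^n`.
`two_all`: reduction of the eight types: reversing all arcs exchanges `ideg` and `odeg`,
keeps `GoodPair` (the pattern `(a, b)` becomes `(!a, !b)`), `isCopy_rev`; reading backwards:
`isCopy_read`. See GrP for the reduction. -/

namespace MP_0a9719_co

private theorem TwoB_mono {V : Type*} {K : ℕ} {D : V → V → Prop} {X : Finset V} {v w : V}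
    (h : GoodPair (K + 1) D X v w) : GoodPair K D X v w := by
  unfold GoodPair at h ⊢
  exact h.trans (Set.ncard_le_ncard (fun p hp => (Nat.le_succ K).trans hp) (Set.toFinite _))

private theorem TwoB_atMost {V : Type*} [Finite V] {p K : ℕ} {H : SimpleGraph V}
    {D : V → V → Prop} {X X' Z : Finset V} (hX : X' ⊆ X) (hZ : Z ⊆ X')
    (h : AtMost p K H D X Z) : AtMost p K H (rr X' D) X' Z := by
  intro Y
  refine (Set.ncard_le_ncard ?_ (Set.toFinite _)).trans (h Y)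
  intro S hS
  refine le_trans (show K ≤ _ from hS) (Set.ncard_le_ncard (fun x hx => ?_) (Set.toFinite _))
  refine ⟨hX hx.1, hx.2.1, hx.2.2.1, ?_⟩
  rw [← hx.2.2.2]
  ext z
  exact ⟨fun h => ⟨h.1, h.2, hZ h.1, hx.1⟩, fun h => ⟨h.1, h.2.1⟩⟩

private theorem TwoB_iff {V : Type*} {H : SimpleGraph V} {X : Finset V} {D D₂ : V → V → Prop}
    (hD : IsOr (res X H) D) (hD₂ : IsOr (res X H) D₂) {a b : V}
    (h : D a b ↔ D₂ a b) : D b a ↔ D₂ b a := by
  constructor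
  · intro h1
    have h2 := (hD b a).1.2 (Or.inl h1)
    rcases (hD₂ b a).1.1 h2 with h3 | h3
    · exact h3
    · exact absurd ⟨h1, h.2 h3⟩ (hD b a).2
  · intro h1
    have h2 := (hD₂ b a).1.2 (Or.inl h1)
    rcases (hD b a).1.1 h2 with h3 | h3
    · exact h3
    · exact absurd ⟨h1, h.1 h3⟩ (hD₂ b a).2

private theorem TwoB_rr {V : Type*} {X : Finset V} {D D' : V → V → Prop}
    (h : rr X D = rr X D') {a b : V} (ha : a ∈ X) (hb : b ∈ X) : D a b ↔ D' a b := by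
  have h1 := congrFun (congrFun h a) b
  simp only [rr, ha, hb, and_self, and_true] at h1
  exact Iff.of_eq h1

private theorem TwoB_num {C n nJ nR nZJ nRY a₁ a₂ a₃ s : ℕ} (hC : a₁ ≤ C * (nZJ + 1) ^ C * 4 ^ nZJ)
    (h2 : (a₂ : ℝ) ≤ (11 / 3) ^ nRY) (h3 : a₃ ≤ 2 ^ nR) (h4 : nZJ ≤ 5 + nJ) (h5 : nZJ ≤ n)
    (h6 : nRY ≤ nR + 3) (h7 : nJ + nR ≤ n) (hs : s ≤ a₁ * (a₂ * a₃)) :
    (s : ℝ) ≤ ((51200 * C : ℕ) : ℝ) * ((n : ℝ) + 1) ^ (51200 * C) * (22 / 3) ^ n := by
  have hs' : (s : ℝ) ≤ (a₁ : ℝ) * ((a₂ : ℝ) * (a₃ : ℝ)) := by exact_mod_cast hs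
  have hC' : (a₁ : ℝ) ≤ (C : ℝ) * ((n : ℝ) + 1) ^ C * (1024 * 4 ^ nJ) := by
    have e1 : (a₁ : ℝ) ≤ (C : ℝ) * ((nZJ : ℝ) + 1) ^ C * 4 ^ nZJ := by exact_mod_cast hC
    have e2 : ((nZJ : ℝ) + 1) ^ C ≤ ((n : ℝ) + 1) ^ C := by
      refine pow_le_pow_left₀ (by positivity) ?_ _
      have : (nZJ : ℝ) ≤ (n : ℝ) := by exact_mod_cast h5
      linarith
    have e3 : (4 : ℝ) ^ nZJ ≤ 1024 * 4 ^ nJ := by
      have : (4 : ℝ) ^ nZJ ≤ 4 ^ (5 + nJ) := pow_le_pow_right₀ (by norm_num) h4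
      rw [pow_add] at this
      norm_num at this
      exact this
    refine e1.trans (mul_le_mul (mul_le_mul_of_nonneg_left e2 (by positivity)) e3 (by positivity)
      (by positivity))
  have h2' : (a₂ : ℝ) ≤ 50 * (11 / 3) ^ nR := by
    have e1 : ((11 : ℝ) / 3) ^ nRY ≤ (11 / 3) ^ (nR + 3) :=
      pow_le_pow_right₀ (by norm_num) h6
    rw [pow_add] at e1
    have e2 : (0 : ℝ) ≤ (11 / 3) ^ nR := by positivity
    have e3 : ((11 : ℝ) / 3) ^ 3 ≤ 50 := by norm_num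
    nlinarith
  have h3' : (a₃ : ℝ) ≤ 2 ^ nR := by exact_mod_cast h3
  have e4 : (a₂ : ℝ) * (a₃ : ℝ) ≤ 50 * (22 / 3) ^ nR := by
    refine (mul_le_mul h2' h3' (by positivity) (by positivity)).trans (le_of_eq ?_)
    rw [mul_assoc, ← mul_pow]
    norm_num
  have e5 : (4 : ℝ) ^ nJ * (22 / 3) ^ nR ≤ (22 / 3) ^ n := by
    have e6 : (4 : ℝ) ^ nJ ≤ (22 / 3) ^ nJ := pow_le_pow_left₀ (by norm_num) (by norm_num) _
    have e7 : ((22 : ℝ) / 3) ^ (nJ + nR) ≤ (22 / 3) ^ n := pow_le_pow_right₀ (by norm_num) h7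
    rw [pow_add] at e7
    have e8 : (0 : ℝ) ≤ (22 / 3) ^ nR := by positivity
    nlinarith
  have e9 : ((n : ℝ) + 1) ^ C ≤ ((n : ℝ) + 1) ^ (51200 * C) := by
    refine pow_le_pow_right₀ ?_ (by omega)
    have : (0 : ℝ) ≤ (n : ℝ) := by positivity
    linarith
  calc (s : ℝ) ≤ (a₁ : ℝ) * ((a₂ : ℝ) * (a₃ : ℝ)) := hs'
    _ ≤ ((C : ℝ) * ((n : ℝ) + 1) ^ C * (1024 * 4 ^ nJ)) * (50 * (22 / 3) ^ nR) :=
        mul_le_mul hC' e4 (by positivity) (by positivity)
    _ = (51200 * (C : ℝ)) * ((n : ℝ) + 1) ^ C * (4 ^ nJ * (22 / 3) ^ nR) := by ring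
    _ ≤ (51200 * (C : ℝ)) * ((n : ℝ) + 1) ^ (51200 * C) * (22 / 3) ^ n := by
        refine mul_le_mul (mul_le_mul_of_nonneg_left e9 (by positivity)) e5 (by positivity)
          (by positivity)
    _ = _ := by push_cast; ring

theorem two_B (K : ℕ) : ∃ C : ℕ, ∀ (V : Type) [Fintype V] [DecidableEq V]
    (H : SimpleGraph V) (X Y₀ : Finset V) (h h' : V), h ∈ X → h' ∈ X → h ≠ h' → Y₀ ⊆ X →
    h ∉ Y₀ → h' ∉ Y₀ → Y₀.card ≤ 3 →
    ((TwoSet K true true false H X Y₀ h h').ncard : ℝ) ≤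
      C * (X.card + 1) ^ C * (22 / 3) ^ X.card := by
  classical
  obtain ⟨C, hC⟩ := cfg_atMost 5 4 (K + 1) (by norm_num)
  refine ⟨51200 * C, ?_⟩
  intro V _ _ H X Y₀ h h' hh hh' hne hY hhY hhY' hYc
  set Z : Finset V := insert h (insert h' Y₀) with hZ
  set R : Finset V := X \ Z with hR
  set J : Finset V := R.filter fun v => (∀ u ∈ R, ¬ H.Adj v u) ∨ H.Adj v h with hJ
  set R₂ : Finset V := R \ J with hR₂
  have hZX : Z ⊆ X := by
    intro x hx
    rcases Finset.mem_insert.1 hx with rfl | hx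
    · exact hh
    rcases Finset.mem_insert.1 hx with rfl | hx
    · exact hh'
    · exact hY hx
  have hZc : Z.card ≤ 5 := by
    have e1 : Z.card ≤ (insert h' Y₀).card + 1 := Finset.card_insert_le h (insert h' Y₀)
    have e2 := Finset.card_insert_le h' Y₀
    omega
  have hJR : J ⊆ R := Finset.filter_subset _ _
  have hRX : R ⊆ X := Finset.sdiff_subset
  have hJX : J ⊆ X := hJR.trans hRX
  have hR₂R : R₂ ⊆ R := Finset.sdiff_subset
  have hR₂X : R₂ ⊆ X := hR₂R.trans hRX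
  have hZJX : Z ∪ J ⊆ X := Finset.union_subset hZX hJX
  have hRYX : R₂ ∪ Y₀ ⊆ X := Finset.union_subset hR₂X hY
  have hhZ : h ∈ Z := Finset.mem_insert_self _ _
  have hhZ' : h' ∈ Z := Finset.mem_insert_of_mem (Finset.mem_insert_self _ _)
  have hhR : h ∉ R := fun hc => (Finset.mem_sdiff.1 hc).2 hhZ
  have hsd : (Z ∪ J) \ Z = J := by
    ext x
    rw [Finset.mem_sdiff, Finset.mem_union]
    constructor
    · rintro ⟨h1 | h1, h2⟩
      · exact absurd h1 h2
      · exact h1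
    · intro h1
      exact ⟨Or.inr h1, (Finset.mem_sdiff.1 (hJR h1)).2⟩
  -- the forced arcs
  have hforce : ∀ D ∈ TwoSet K true true false H X Y₀ h h', ∀ u ∈ R, ∀ v ∈ R, D u v →
      ¬ H.Adj v h := by
    rintro D ⟨hD, h4, h4', hf, -, -⟩ u hu v hv huv hadj
    have h5 := forced_B D (fun x y hxy => (isOr_mem hD hxy).2.2.2) R h hhR h4 h4' hf u v hu hv huv
    rcases isOr_adj hD (hRX hv) hh hadj with h6 | h6
    · exact h5.1 h6
    · exact h5.2 h6
  have hinJ : ∀ w ∈ R, w ∉ R₂ → w ∈ J := by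
    intro w hw hw'
    by_contra hc
    exact hw' (Finset.mem_sdiff.2 ⟨hw, hc⟩)
  have hnadj : ∀ x ∈ R₂, ¬ H.Adj x h := by
    intro x hx hc
    exact (Finset.mem_sdiff.1 hx).2 (Finset.mem_filter.2 ⟨hR₂R hx, Or.inr hc⟩)
  have hJadj : ∀ w ∈ J, ∀ x ∈ R, H.Adj w x → H.Adj w h := by
    intro w hw x hx hwx
    rcases (Finset.mem_filter.1 hw).2 with h1 | h1
    · exact absurd hwx (h1 x hx)
    · exact h1
  have hCV := hC V H (Z ∪ J) Z (fun _ _ => False) Finset.subset_union_left hZc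
  rw [hsd] at hCV
  set A₁ : Set (V → V → Prop) := {D | IsOr (res (Z ∪ J) H) D ∧
    AtMost 4 (K + 1) H D (Z ∪ J) Z ∧ rr J D = fun _ _ => False} with hA₁
  set A₂ : Set (V → V → Prop) := {D | IsOr (res (R₂ ∪ Y₀) H) D ∧
    ¬ Packs [.p4 true true false] D (R₂ ∪ Y₀)} with hA₂
  have hA₂c : (A₂.ncard : ℝ) ≤ (11 / 3) ^ (R₂ ∪ Y₀).card := num_p4 true true false H (R₂ ∪ Y₀)
  have hA₃c : (𝒫 (R₂ : Set V)).ncard ≤ 2 ^ R₂.card := by
    rw [Set.ncard_powerset _ (Set.toFinite _), Set.ncard_coe_finset]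
  have hS : (TwoSet K true true false H X Y₀ h h').ncard ≤
      (A₁ ×ˢ (A₂ ×ˢ 𝒫 (R₂ : Set V))).ncard := by
    refine inj_le _ _ (fun D => (rr (Z ∪ J) D, rr (R₂ ∪ Y₀) D, {x | x ∈ R₂ ∧ D h' x})) ?_ ?_
    · intro D hDS
      obtain ⟨hD, h4, h4', hf, hf', hK⟩ := hDS
      refine ⟨⟨isOr_rr hD hZJX, ?_, ?_⟩, ⟨isOr_rr hD hRYX, ?_⟩, fun x hx => hx.1⟩
      · refine TwoB_atMost hZJX Finset.subset_union_left ?_
        exact atMost_four (K + 1) (by omega) H X Z hZX D hD fun W hW hWc hc =>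
          hK W hW hWc fun v hv w hw hvw => TwoB_mono (hc v hv w hw hvw)
      · funext u v
        refine propext ⟨?_, fun hc => hc.elim⟩
        rintro ⟨⟨huv, -, -⟩, hu, hv⟩
        have h5 := hJadj v hv u (hJR hu) (isOr_mem hD huv).2.2.1.symm
        exact hforce D ⟨hD, h4, h4', hf, hf', hK⟩ u (hJR hu) v (hJR hv) huv h5
      · rw [packs_one]
        rintro ⟨Q, hQ, hc⟩
        refine hf' ⟨Q, ?_, (isCopy_rr _ D hQ).1 hc⟩
        exact hQ.trans (Finset.union_subset_union_left hR₂R)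
    · intro D hDS D' hDS' heq
      have hD := hDS.1
      have hD' := hDS'.1
      simp only [Prod.mk.injEq] at heq
      obtain ⟨q1, q2, q3⟩ := heq
      have h3 : ∀ x ∈ R₂, (D h' x ↔ D' h' x) := by
        intro x hx
        have h5 := Set.ext_iff.1 q3 x
        simp only [Set.mem_ofPred_eq, hx, true_and] at h5
        exact h5
      have hno : ∀ a b, ¬ H.Adj a b → (D a b ↔ D' a b) := fun a b hab =>
        ⟨fun hc => absurd (isOr_mem hD hc).2.2.1 hab,
          fun hc => absurd (isOr_mem hD' hc).2.2.1 hab⟩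
      have h4 : ∀ x ∈ R₂, ∀ w ∈ X, w ∉ R₂ → w ∉ Y₀ → (D w x ↔ D' w x) := by
        intro x hx w hw hwR hwY
        by_cases hwZ : w ∈ Z
        · rcases Finset.mem_insert.1 hwZ with rfl | hwZ
          · exact hno _ _ fun hc => hnadj x hx hc.symm
          rcases Finset.mem_insert.1 hwZ with rfl | hwZ
          · exact h3 x hx
          · exact absurd hwZ hwY
        · have hwR' : w ∈ R := Finset.mem_sdiff.2 ⟨hw, hwZ⟩
          have hwJ := hinJ w hwR' hwR
          by_cases hadj : H.Adj w x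
          · have h5 := hJadj w hwJ x (hR₂R hx) hadj
            have h6 : ∀ E ∈ TwoSet K true true false H X Y₀ h h', E w x := by
              intro E hE
              rcases isOr_adj hE.1 hw (hR₂X hx) hadj with h6 | h6
              · exact h6
              · exact absurd h5 (hforce E hE x (hR₂R hx) w hwR' h6)
            exact ⟨fun _ => h6 D' hDS', fun _ => h6 D hDS⟩
          · exact hno _ _ hadj
      have hin : ∀ w ∈ X, w ∉ R₂ → w ∈ Z ∪ J := by
        intro w hw hwR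
        by_cases hwZ : w ∈ Z
        · exact Finset.mem_union_left _ hwZ
        · exact Finset.mem_union_right _ (hinJ w (Finset.mem_sdiff.2 ⟨hw, hwZ⟩) hwR)
      funext a b
      apply propext
      by_cases ha : a ∈ X
      swap
      · exact ⟨fun hc => absurd (isOr_mem hD hc).1 ha, fun hc => absurd (isOr_mem hD' hc).1 ha⟩
      by_cases hb : b ∈ X
      swap
      · exact ⟨fun hc => absurd (isOr_mem hD hc).2.1 hb,
          fun hc => absurd (isOr_mem hD' hc).2.1 hb⟩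
      by_cases ha2 : a ∈ R₂
      · by_cases hb2 : b ∈ R₂ ∪ Y₀
        · exact TwoB_rr q2 (Finset.mem_union_left _ ha2) hb2
        · rw [Finset.mem_union, not_or] at hb2
          exact TwoB_iff hD hD' (h4 a ha2 b hb hb2.1 hb2.2)
      · by_cases hb2 : b ∈ R₂
        · by_cases haY : a ∈ Y₀
          · exact TwoB_rr q2 (Finset.mem_union_right _ haY) (Finset.mem_union_left _ hb2)
          · exact h4 b hb2 a ha ha2 haY
        · exact TwoB_rr q1 (hin a ha ha2) (hin b hb hb2)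
  rw [Set.ncard_prod, Set.ncard_prod] at hS
  have hJc : J.card + R₂.card = R.card := by
    have : R₂.card + J.card = R.card := Finset.card_sdiff_add_card_eq_card hJR
    omega
  refine TwoB_num (nJ := J.card) hCV hA₂c hA₃c ?_ (Finset.card_le_card hZJX) ?_ ?_ hS
  · have := Finset.card_union_le Z J
    omega
  · have := Finset.card_union_le R₂ Y₀
    omega
  · rw [hJc]
    exact Finset.card_le_card hRX

private theorem TwoB_arc (a : Bool) {V : Type*} (D : V → V → Prop) (u v : V) :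
    arc a (fun u v => D v u) u v ↔ arc (!a) D u v := by
  cases a <;> rfl

private theorem TwoB_good {V : Type*} {K : ℕ} {D : V → V → Prop} {X : Finset V} {v w : V}
    (h : GoodPair K (fun u v => D v u) X v w) : GoodPair K D X v w := by
  unfold GoodPair at h ⊢
  refine h.trans ?_
  refine Set.ncard_le_ncard_of_injOn (fun p : Bool × Bool => (!p.1, !p.2)) ?_ ?_ (Set.toFinite _)
  · intro p hp
    have h1 : {x | x ∈ X ∧ x ≠ v ∧ x ≠ w ∧ arc p.1 (fun u v => D v u) v x ∧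
        arc p.2 (fun u v => D v u) w x} = {x | x ∈ X ∧ x ≠ v ∧ x ≠ w ∧ arc (!p.1) D v x ∧
        arc (!p.2) D w x} := by
      ext x
      simp only [Set.mem_ofPred_eq, TwoB_arc]
    have h2 : K ≤ {x | x ∈ X ∧ x ≠ v ∧ x ≠ w ∧ arc p.1 (fun u v => D v u) v x ∧
        arc p.2 (fun u v => D v u) w x}.ncard := hp
    rw [h1] at h2
    exact h2
  · rintro ⟨a, b⟩ _ ⟨c, d⟩ _ hp
    simp only [Prod.mk.injEq, Bool.not_inj_iff] at hp
    exact Prod.ext hp.1 hp.2

private theorem TwoB_rev {V : Type} [Fintype V] [DecidableEq V] (K : ℕ) (a b c : Bool)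
    (H : SimpleGraph V) (X Y₀ : Finset V) (h h' : V) :
    (TwoSet K (!a) (!b) (!c) H X Y₀ h h').ncard ≤ (TwoSet K a b c H X Y₀ h h').ncard := by
  refine inj_le _ _ (fun D => fun u v => D v u) ?_ ?_
  · rintro D ⟨hD, h4, h4', hf, hf', hK⟩
    refine ⟨isOr_rev hD, h4', h4, ?_, ?_, ?_⟩
    · rintro ⟨Q, hQ, hc⟩
      exact hf ⟨Q, hQ, (isCopy_rev (.p4 a b c) (fun u v => D v u) Q).2 hc⟩
    · rintro ⟨Q, hQ, hc⟩
      exact hf' ⟨Q, hQ, (isCopy_rev (.p4 a b c) (fun u v => D v u) Q).2 hc⟩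
    · intro W hW hWc hc
      exact hK W hW hWc fun v hv w hw hvw => TwoB_good (hc v hv w hw hvw)
  · intro D _ D' _ heq
    funext u v
    exact congrFun (congrFun heq v) u

private theorem TwoB_read {V : Type} [Fintype V] [DecidableEq V] (K : ℕ) (a b c : Bool)
    (H : SimpleGraph V) (X Y₀ : Finset V) (h h' : V) :
    TwoSet K (!c) (!b) (!a) H X Y₀ h h' = TwoSet K a b c H X Y₀ h h' := by
  unfold TwoSet
  simp only [isCopy_read a b c]

theorem two_all (a b c : Bool) (K : ℕ) : ∃ C : ℕ, ∀ (V : Type) [Fintype V] [DecidableEq V]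
    (H : SimpleGraph V) (X Y₀ : Finset V) (h h' : V), h ∈ X → h' ∈ X → h ≠ h' → Y₀ ⊆ X →
    h ∉ Y₀ → h' ∉ Y₀ → Y₀.card ≤ 3 →
    ((TwoSet K a b c H X Y₀ h h').ncard : ℝ) ≤
      C * (X.card + 1) ^ C * (22 / 3) ^ X.card := by
  have hrev : ∀ a b c : Bool, (∃ C : ℕ, ∀ (V : Type) [Fintype V] [DecidableEq V]
      (H : SimpleGraph V) (X Y₀ : Finset V) (h h' : V), h ∈ X → h' ∈ X → h ≠ h' → Y₀ ⊆ X →
      h ∉ Y₀ → h' ∉ Y₀ → Y₀.card ≤ 3 →
      ((TwoSet K a b c H X Y₀ h h').ncard : ℝ) ≤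
        C * (X.card + 1) ^ C * (22 / 3) ^ X.card) →
      ∃ C : ℕ, ∀ (V : Type) [Fintype V] [DecidableEq V]
      (H : SimpleGraph V) (X Y₀ : Finset V) (h h' : V), h ∈ X → h' ∈ X → h ≠ h' → Y₀ ⊆ X →
      h ∉ Y₀ → h' ∉ Y₀ → Y₀.card ≤ 3 →
      ((TwoSet K (!a) (!b) (!c) H X Y₀ h h').ncard : ℝ) ≤
        C * (X.card + 1) ^ C * (22 / 3) ^ X.card := by
    rintro a b c ⟨C, hC⟩
    refine ⟨C, ?_⟩
    intro V _ _ H X Y₀ h h' h1 h2 h3 h4 h5 h6 h7
    have h8 := TwoB_rev K a b c H X Y₀ h h'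
    have h9 : ((TwoSet K (!a) (!b) (!c) H X Y₀ h h').ncard : ℝ) ≤
      ((TwoSet K a b c H X Y₀ h h').ncard : ℝ) := by exact_mod_cast h8
    exact h9.trans (hC V H X Y₀ h h' h1 h2 h3 h4 h5 h6 h7)
  have hTFF : ∃ C : ℕ, ∀ (V : Type) [Fintype V] [DecidableEq V]
      (H : SimpleGraph V) (X Y₀ : Finset V) (h h' : V), h ∈ X → h' ∈ X → h ≠ h' → Y₀ ⊆ X →
      h ∉ Y₀ → h' ∉ Y₀ → Y₀.card ≤ 3 →
      ((TwoSet K true false false H X Y₀ h h').ncard : ℝ) ≤
        C * (X.card + 1) ^ C * (22 / 3) ^ X.card := by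
    obtain ⟨C, hC⟩ := two_B K
    refine ⟨C, ?_⟩
    intro V _ _ H X Y₀ h h' h1 h2 h3 h4 h5 h6 h7
    have h8 := TwoB_read K true true false H X Y₀ h h'
    simp only [Bool.not_true, Bool.not_false] at h8
    rw [h8]
    exact hC V H X Y₀ h h' h1 h2 h3 h4 h5 h6 h7
  rcases a with _ | _ <;> rcases b with _ | _ <;> rcases c with _ | _
  · exact hrev true true true (two_A K)
  · exact hrev true true false (two_B K)
  · exact hrev true false true (two_C K)
  · exact hrev true false false hTFF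
  · exact hTFF
  · exact two_C K
  · exact two_B K
  · exact two_A K

end MP_0a9719_co
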