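import Pool.Agent.Lib.MP_0a9719_co.Defs

/-! MP_0a9719_co: working definitions. All counting is done on a finite type `V`, inside a set
`X : Finset V`; `res X H` is the graph `H` restricted to `X`. -/

namespace MP_0a9719_co

/-- the graph `H` restricted to `X` (same vertex type, edges inside `X` only). -/
def res {V : Type*} (X : Finset V) (H : SimpleGraph V) : SimpleGraph V where
  Adj u v := H.Adj u v ∧ u ∈ X ∧ v ∈ X
  symm := ⟨fun _ _ h => ⟨h.1.symm, h.2.2, h.2.1⟩⟩
  loopless := ⟨fun _ h => H.loopless.irrefl _ h.1⟩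

/-- the relation `D` restricted to `X`. -/
def rr {V : Type*} (X : Finset V) (D : V → V → Prop) : V → V → Prop :=
  fun u v => D u v ∧ u ∈ X ∧ v ∈ X

/-- number of neighbours of `v` in `X`. -/
noncomputable def deg {V : Type*} (H : SimpleGraph V) (X : Finset V) (v : V) : ℕ :=
  {u | u ∈ X ∧ H.Adj v u}.ncard

/-- in-degree of `v` in `X`. -/
noncomputable def ideg {V : Type*} (D : V → V → Prop) (X : Finset V) (v : V) : ℕ :=
  {u | u ∈ X ∧ D u v}.ncard

/-- out-degree of `v` in `X`. -/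
noncomputable def odeg {V : Type*} (D : V → V → Prop) (X : Finset V) (v : V) : ℕ :=
  {u | u ∈ X ∧ D v u}.ncard

/-- number of edges of `H` inside `X`. -/
noncomputable def eX {V : Type*} (H : SimpleGraph V) (X : Finset V) : ℕ :=
  (res X H).edgeSet.ncard

/-- vertices of `X` adjacent to at least `(1 - ε)|X|` vertices of `X`. -/
def big {V : Type*} (ε : ℝ) (H : SimpleGraph V) (X : Finset V) : Set V :=
  {v | v ∈ X ∧ (1 - ε) * (X.card : ℝ) ≤ (deg H X v : ℝ)}

/-- `arc true D u v` is the arc `u → v`, `arc false D u v` is the arc `v → u`. -/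
def arc {V : Type*} (a : Bool) (D : V → V → Prop) (u v : V) : Prop :=
  match a with
  | true => D u v
  | false => D v u

/-- shapes of the components: `star i o` is the star with `i` leaves pointing to the centre and
`o` leaves to which the centre points; `p4 a b c` is the path `x0 x1 x2 x3` with three edges,
directed by `a`, `b`, `c` (true = forward). -/
inductive Shape where
  | star (i o : ℕ) : Shape
  | p4 (a b c : Bool) : Shape
  deriving DecidableEq

/-- at most three edges and at least one. -/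
def Shape.Valid : Shape → Prop
  | .star i o => 1 ≤ i + o ∧ i + o ≤ 3
  | .p4 _ _ _ => True

/-- vertex cover number of the shape. -/
def Shape.tau : Shape → ℕ
  | .star _ _ => 1
  | .p4 _ _ _ => 2

/-- `K_2` or `P_4`. -/
def Shape.isT : Shape → Bool
  | .star i o => i + o == 1
  | .p4 _ _ _ => true

/-- `P_3` (star with two leaves). -/
def Shape.isC : Shape → Bool
  | .star i o => i + o == 2
  | .p4 _ _ _ => false

/-- all arcs reversed. -/
def Shape.rev : Shape → Shape
  | .star i o => .star o i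
  | .p4 a b c => .p4 (!a) (!b) (!c)

/-- `Q` is the vertex set of a copy of the shape in `D`. -/
def IsCopy {V : Type*} [DecidableEq V] (T : Shape) (D : V → V → Prop) (Q : Finset V) : Prop :=
  match T with
  | .star i o => ∃ (c : V) (I O : Finset V), c ∉ I ∧ c ∉ O ∧ Disjoint I O ∧ I.card = i ∧
      O.card = o ∧ (∀ x ∈ I, D x c) ∧ (∀ x ∈ O, D c x) ∧ Q = insert c (I ∪ O)
  | .p4 a b c => ∃ x0 x1 x2 x3 : V, x0 ≠ x1 ∧ x0 ≠ x2 ∧ x0 ≠ x3 ∧ x1 ≠ x2 ∧ x1 ≠ x3 ∧ x2 ≠ x3 ∧
      arc a D x0 x1 ∧ arc b D x1 x2 ∧ arc c D x2 x3 ∧ Q = {x0, x1, x2, x3}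

/-- pairwise disjoint copies of the shapes of `L` inside `X`. -/
def Packs {V : Type*} [DecidableEq V] : List Shape → (V → V → Prop) → Finset V → Prop
  | [], _, _ => True
  | T :: L, D, X => ∃ Q : Finset V, Q ⊆ X ∧ IsCopy T D Q ∧ Packs L D (X \ Q)

/-- number of orientations of `H` restricted to `X` without disjoint copies of the shapes of
`L`. -/
noncomputable def num {V : Type*} [DecidableEq V] (L : List Shape) (H : SimpleGraph V)
    (X : Finset V) : ℕ :=
  {D : V → V → Prop | IsOr (res X H) D ∧ ¬ Packs L D X}.ncard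

/-- number of edges of the join of `K_s` and an independent set on `n` vertices. -/
def ext (s n : ℕ) : ℕ := s.choose 2 + s * (n - s)

/-- no `s` vertices of `X` cover all edges of `H` inside `X`. -/
def NoCover {V : Type*} [DecidableEq V] (s : ℕ) (H : SimpleGraph V) (X : Finset V) : Prop :=
  ∀ Y : Finset V, Y ⊆ X → Y.card ≤ s → ∃ u ∈ X \ Y, ∃ v ∈ X \ Y, H.Adj u v

/-- few vertices of large degree: exponentially few orientations. -/
def GoodA (L : List Shape) (s : ℕ) : Prop :=
  ∀ ε : ℝ, 0 < ε → ∃ b : ℝ, 0 < b ∧ b < 2 ^ s ∧ ∃ n₀ : ℕ,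
    ∀ (V : Type) [Fintype V] [DecidableEq V] (H : SimpleGraph V) (X : Finset V),
      n₀ ≤ X.card → (big ε H X).ncard < s → (num L H X : ℝ) ≤ b ^ X.card

/-- many vertices of large degree: exponentially few orientations. -/
def GoodB (L : List Shape) (s : ℕ) : Prop :=
  ∃ ε : ℝ, 0 < ε ∧ ∃ b : ℝ, 0 < b ∧ b < 2 ^ s ∧ ∃ n₀ : ℕ,
    ∀ (V : Type) [Fintype V] [DecidableEq V] (H : SimpleGraph V) (X : Finset V),
      n₀ ≤ X.card → s < (big ε H X).ncard → (num L H X : ℝ) ≤ b ^ X.card

/-- graphs without a vertex cover of size `s` have fewer orientations than `K_s` joined to an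
independent set. -/
def GoodC (L : List Shape) (s : ℕ) : Prop :=
  ∃ c : ℝ, 0 < c ∧ c < 1 ∧ ∃ n₀ : ℕ,
    ∀ (V : Type) [Fintype V] [DecidableEq V] (H : SimpleGraph V) (X : Finset V),
      n₀ ≤ X.card → NoCover s H X → (num L H X : ℝ) ≤ c * 2 ^ ext s X.card

/-- all graphs have at most as many orientations as `K_s` joined to an independent set. -/
def Good0 (L : List Shape) (s : ℕ) : Prop :=
  ∃ n₀ : ℕ, ∀ (V : Type) [Fintype V] [DecidableEq V] (H : SimpleGraph V) (X : Finset V),
      n₀ ≤ X.card → num L H X ≤ 2 ^ ext s X.card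

/-- bound for the orientations in which every vertex has small in- or out-degree. -/
def PureB (L : List Shape) (s : ℕ) : Prop :=
  ∀ K : ℕ, ∃ b : ℝ, 0 < b ∧ b < 2 ^ s ∧ ∃ n₀ : ℕ,
    ∀ (V : Type) [Fintype V] [DecidableEq V] (H : SimpleGraph V) (X : Finset V),
      n₀ ≤ X.card →
      (({D : V → V → Prop | IsOr (res X H) D ∧ ¬ Packs L D X ∧
        ∀ v ∈ X, ¬ (K ≤ ideg D X v ∧ K ≤ odeg D X v)}.ncard : ℕ) : ℝ) ≤ b ^ X.card

/-- at least three of the four patterns on the pair `v, w` are realised by at least `K`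
vertices of `X` each. -/
def GoodPair {V : Type*} (K : ℕ) (D : V → V → Prop) (X : Finset V) (v w : V) : Prop :=
  3 ≤ {p : Bool × Bool | K ≤ {x | x ∈ X ∧ x ≠ v ∧ x ≠ w ∧ arc p.1 D v x ∧
    arc p.2 D w x}.ncard}.ncard

/-- bound for the orientations without a good pair. -/
def NoPairB (L : List Shape) (s : ℕ) : Prop :=
  ∀ K : ℕ, ∃ b : ℝ, 0 < b ∧ b < 2 ^ s ∧ ∃ n₀ : ℕ,
    ∀ (V : Type) [Fintype V] [DecidableEq V] (H : SimpleGraph V) (X : Finset V),
      n₀ ≤ X.card →
      (({D : V → V → Prop | IsOr (res X H) D ∧ ¬ Packs L D X ∧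
        ∀ v ∈ X, ∀ w ∈ X, v ≠ w → ¬ GoodPair K D X v w}.ncard : ℕ) : ℝ) ≤ b ^ X.card

/-- for every neighbourhood `Y` in `Z`, at most `p` patterns are realised by at least `K`
vertices of `X` outside `Z`. -/
def AtMost {V : Type*} (p K : ℕ) (H : SimpleGraph V) (D : V → V → Prop) (X Z : Finset V) :
    Prop :=
  ∀ Y : Set V, {S : Set V | K ≤ {x | x ∈ X ∧ x ∉ Z ∧ {z | z ∈ Z ∧ H.Adj z x} = Y ∧
    {z | z ∈ Z ∧ D z x} = S}.ncard}.ncard ≤ p

/-- the main configurations: every `w ∈ W` has in- and out-neighbours outside `W` (at least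
`4` each) and the rest together with `w` contains no copy of the oriented path. -/
def MainD {V : Type*} [DecidableEq V] (a b c : Bool) (D : V → V → Prop) (X W : Finset V) :
    Prop :=
  ∀ w ∈ W, 4 ≤ ideg D (X \ W) w ∧ 4 ≤ odeg D (X \ W) w ∧
    ¬ ∃ Q : Finset V, Q ⊆ insert w (X \ W) ∧ IsCopy (.p4 a b c) D Q

end MP_0a9719_co
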